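import Pool.Agent.Work.MP_b25393_ag.UU.StmtsC

/-!
# Item AFU: the affine theorem, uniform version
-/

set_option autoImplicit false

namespace Pool.Agent.Work.MP_b25393_ag.UU

open scoped Classical
open Pool.Agent.Work.MP_b25393_ag.U

namespace I_AFU

/-- a finite set of at most `k` reals is contained in the range of an injective map from `Fin k` -/
theorem ext_slopes (T : Finset ℝ) (k : ℕ) (h : T.card ≤ k) :
    ∃ s : Fin k → ℝ, Function.Injective s ∧ ∀ x ∈ T, ∃ i, x = s i := by
  obtain ⟨t, ht, hc⟩ := Infinite.exists_superset_card_eq T k h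
  refine ⟨t.orderEmbOfFin hc, (t.orderEmbOfFin hc).injective, fun x hx => ?_⟩
  have h1 : x ∈ Set.range (t.orderEmbOfFin hc) := by
    rw [Finset.range_orderEmbOfFin]
    exact ht hx
  obtain ⟨i, hi⟩ := h1
  exact ⟨i, hi.symm⟩

theorem ge_atTop (m : ℕ) : ∀ᶠ n in (Filter.hyperfilter ℕ : Filter ℕ), m ≤ n := by
  have h := Filter.eventually_ge_atTop m
  rw [← Nat.cofinite_eq_atTop] at h
  exact Filter.hyperfilter_le_cofinite h

end I_AFU

open I_AFU in
theorem AFU_pf (hEDG : S_EDG) (hINI : S_INI) (hPLF : S_PLF) (hTBF : S_TBF) : S_AFU := by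
  intro k δ hδ
  by_contra hcon
  push Not at hcon
  have hex : ∀ n : ℕ, ∃ F : Finset (ℝ × ℝ), (F.image Prod.fst).card ≤ k ∧ n + 1 ≤ F.card ∧
      (∀ σ : ℝ, ((F.filter fun l => l.1 = σ).card : ℝ) ≤ (1 - δ) * F.card) ∧
      (DD F : ℝ) < 1 / ((n : ℝ) + 1) * (F.card : ℝ) ^ 2 := by
    intro n
    obtain ⟨F, h1, h2, h3, h4⟩ := hcon (1 / ((n : ℝ) + 1)) (by positivity) (n + 1)
    exact ⟨F, h1, h2, h3, h4⟩
  choose F hF1 hF2 hF3 hF4 using hex
  have hs : ∀ n, ∃ s : Fin k → ℝ, Function.Injective s ∧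
      ∀ x ∈ (F n).image Prod.fst, ∃ i, x = s i := fun n => ext_slopes _ k (hF1 n)
  choose s hs1 hs2 using hs
  have hSy : Sy (Filter.hyperfilter ℕ) F s := by
    refine ⟨ge_atTop, hs1, ?_, ?_, ?_⟩
    · intro n l hl
      exact hs2 n l.1 (Finset.mem_image_of_mem _ hl)
    · intro N
      filter_upwards [ge_atTop N] with n hn
      have := hF2 n
      omega
    · intro e he
      obtain ⟨N, hN⟩ := exists_nat_gt (12 / e)
      filter_upwards [ge_atTop N] with n hn
      have hn' : (N : ℝ) ≤ (n : ℝ) := by exact_mod_cast hn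
      have hc1 : (n : ℝ) + 1 ≤ ((F n).card : ℝ) := by exact_mod_cast hF2 n
      have h12 : 12 / e < (n : ℝ) + 1 := by linarith
      have h12' : 12 < e * ((n : ℝ) + 1) := by
        rw [div_lt_iff₀ he] at h12
        linarith
      have hE : ((dde (F n)).card : ℝ) ≤ 4 * ((DD (F n) : ℝ) + ((F n).card : ℝ)) +
          2 * ((F n).card : ℝ) := by
        have := hEDG (F n)
        exact_mod_cast this
      have hpos : (0 : ℝ) < (n : ℝ) + 1 := by positivity
      have h4 := hF4 n
      set c : ℝ := ((F n).card : ℝ) with hc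
      have h5 : 1 / ((n : ℝ) + 1) ≤ e / 12 := by
        rw [div_le_div_iff₀ hpos (by norm_num)]
        linarith
      have h6 : 1 / ((n : ℝ) + 1) * c ^ 2 ≤ e / 12 * c ^ 2 :=
        mul_le_mul_of_nonneg_right h5 (by positivity)
      have h7 : 12 * c ≤ e * c ^ 2 := by
        have h8 : 12 ≤ e * c := by nlinarith
        have h9 : 0 ≤ c := by linarith
        nlinarith
      linarith
  obtain ⟨g, L, G, V, lam, hPL⟩ := hINI k (Filter.hyperfilter ℕ) F s δ hSy hδ (by
    intro i
    refine Filter.Eventually.of_forall fun n => ?_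
    refine le_trans ?_ (hF3 n (s n i))
    have : (gr F s {i} n).card ≤ ((F n).filter fun l => l.1 = s n i).card := by
      refine Finset.card_le_card ?_
      intro l hl
      rw [mem_gr] at hl
      obtain ⟨h1, j, hj, h2⟩ := hl
      rw [Finset.mem_singleton] at hj
      subst hj
      exact Finset.mem_filter.2 ⟨h1, h2⟩
    exact_mod_cast this)
  exact hPLF k (Filter.hyperfilter ℕ) F s g L G V lam hSy hPL
    (fun g' A B _ => hTBF k (Filter.hyperfilter ℕ) F s hSy g' A B)

end Pool.Agent.Work.MP_b25393_ag.UU
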