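import Mathlib
import Pool.Agent.Work.MP_b25393_ag.U.Defs

/-!
# Uniform version (boundedly many, arbitrary directions): definitions

As in `U`, the line `y = s x + b` is the pair `(s, b)`; `val`, `lo`, `on`, `vts`, `DD`, `Cl`, `chn`,
`Nxt`, `nxt` are those of `U/Defs.lean`.
-/

set_option autoImplicit false

namespace Pool.Agent.Work.MP_b25393_ag.UU

open scoped Classical
open Pool.Agent.Work.MP_b25393_ag.U

/-! ## Edges between double points -/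

/-- abscissae of the vertices of `F` on the line `c` -/
noncomputable def vab (F : Finset (ℝ × ℝ)) (c : ℝ × ℝ) : Finset ℝ :=
  ((vts F).filter fun v => val c v.1 = v.2).image Prod.fst

/-- the edges `(c, (x₁, x₂))` of the line `c ∈ F` (consecutive vertices of `c`) both ends of which are
double points -/
noncomputable def dde (F : Finset (ℝ × ℝ)) : Finset ((ℝ × ℝ) × (ℝ × ℝ)) :=
  F.biUnion fun c => ((nxt (vab F c)).filter fun q =>
    on F (q.1, val c q.1) = 2 ∧ on F (q.2, val c q.2) = 2).image fun q => (c, q)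

/-- the abscissae at which the gap `r` is closed -/
noncomputable def zer (F : Finset (ℝ × ℝ)) (r : ℕ) : Finset ℝ :=
  ((vts F).image Prod.fst).filter fun x => Cl F r x

/-- the chain vertex `v` of the gap `r` lies in an unbounded component of the gap or is not the only
chain vertex of its component -/
def Bad (F : Finset (ℝ × ℝ)) (r : ℕ) (v : ℝ × ℝ) : Prop :=
  v ∈ chn F r ∧ ((∀ z ∈ zer F r, ¬ z < v.1) ∨ (∀ z ∈ zer F r, ¬ v.1 < z) ∨
    ∃ v' ∈ chn F r, v' ≠ v ∧ ∀ z ∈ zer F r, ¬ ((v.1 < z ∧ z < v'.1) ∨ (v'.1 < z ∧ z < v.1)))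

/-- `l` meets `c` at a point whose abscissa is in `I` -/
def mt (I : Set ℝ) (c l : ℝ × ℝ) : Prop := l ≠ c ∧ ∃ x ∈ I, val l x = val c x

/-! ## Frames -/

/-- An affine frame: the point with new coordinates `(X, Y)` is
`(p0 X + q0 Y + r0, p1 X + q1 Y + r1)`. -/
structure Fr where
  p0 : ℝ
  q0 : ℝ
  r0 : ℝ
  p1 : ℝ
  q1 : ℝ
  r1 : ℝ
  det : p0 * q1 - p1 * q0 ≠ 0

/-- the point with coordinates `P` -/
def pt (g : Fr) (P : ℝ × ℝ) : ℝ × ℝ :=
  (g.p0 * P.1 + g.q0 * P.2 + g.r0, g.p1 * P.1 + g.q1 * P.2 + g.r1)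

/-- In the frame `g` the line `l` is `al g l.1 * X + be g l.1 * Y = ga g l` (`mem_line`). -/
def al (g : Fr) (s : ℝ) : ℝ := g.p1 - s * g.p0
/-- see `al` -/
def be (g : Fr) (s : ℝ) : ℝ := g.q1 - s * g.q0
/-- see `al` -/
def ga (g : Fr) (l : ℝ × ℝ) : ℝ := l.2 + l.1 * g.r0 - g.r1

/-- horizontal type: `Y = tt + sg * X` -/
noncomputable def sg (g : Fr) (s : ℝ) : ℝ := -al g s / be g s
/-- see `sg` -/
noncomputable def tt (g : Fr) (l : ℝ × ℝ) : ℝ := ga g l / be g l.1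
/-- vertical type: `X = vv + rh * Y` -/
noncomputable def rh (g : Fr) (s : ℝ) : ℝ := -be g s / al g s
/-- see `rh` -/
noncomputable def vv (g : Fr) (l : ℝ × ℝ) : ℝ := ga g l / al g l.1

/-- `P` (coordinates in the frame `g`) is on the line `l` -/
def onl (g : Fr) (l P : ℝ × ℝ) : Prop := al g l.1 * P.1 + be g l.1 * P.2 = ga g l

theorem mem_line (g : Fr) (l P : ℝ × ℝ) : onl g l P ↔ val l (pt g P).1 = (pt g P).2 := by
  unfold onl val pt al be ga
  constructor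
  · intro h
    linarith
  · intro h
    linarith

theorem al_be_ne (g : Fr) (s : ℝ) : al g s ≠ 0 ∨ be g s ≠ 0 := by
  by_contra h
  push Not at h
  obtain ⟨h1, h2⟩ := h
  apply g.det
  unfold al at h1
  unfold be at h2
  have e1 : g.p1 = s * g.p0 := by linarith
  have e2 : g.q1 = s * g.q0 := by linarith
  rw [e1, e2]
  ring

/-- `l` meets the box `|X|, |Y| ≤ L` -/
def hit (g : Fr) (L : ℝ) (l : ℝ × ℝ) : Prop := ∃ P : ℝ × ℝ, |P.1| ≤ L ∧ |P.2| ≤ L ∧ onl g l P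

/-- `l` and `m` have a common point in the box `|X| ≤ L`, `|Y| ≤ M` -/
def crb (g : Fr) (L M : ℝ) (l m : ℝ × ℝ) : Prop :=
  ∃ P : ℝ × ℝ, |P.1| ≤ L ∧ |P.2| ≤ M ∧ onl g l P ∧ onl g m P

/-- composition: `pt (cmp g h) P = pt g (pt h P)` -/
def cmp (g h : Fr) : Fr where
  p0 := g.p0 * h.p0 + g.q0 * h.p1
  q0 := g.p0 * h.q0 + g.q0 * h.q1
  r0 := g.p0 * h.r0 + g.q0 * h.r1 + g.r0
  p1 := g.p1 * h.p0 + g.q1 * h.p1
  q1 := g.p1 * h.q0 + g.q1 * h.q1
  r1 := g.p1 * h.r0 + g.q1 * h.r1 + g.r1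
  det := by
    have h1 := mul_ne_zero g.det h.det
    intro h2
    apply h1
    rw [← h2]
    ring

theorem pt_cmp (g h : Fr) (P : ℝ × ℝ) : pt (cmp g h) P = pt g (pt h P) := by
  unfold pt cmp
  ext <;> simp <;> ring

theorem onl_cmp (g h : Fr) (l P : ℝ × ℝ) : onl (cmp g h) l P ↔ onl g l (pt h P) := by
  rw [mem_line, mem_line, pt_cmp]

theorem al_cmp (g h : Fr) (s : ℝ) : al (cmp g h) s = al g s * h.p0 + be g s * h.p1 := by
  unfold al be cmp
  ring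

theorem be_cmp (g h : Fr) (s : ℝ) : be (cmp g h) s = al g s * h.q0 + be g s * h.q1 := by
  unfold al be cmp
  ring

theorem ga_cmp (g h : Fr) (l : ℝ × ℝ) :
    ga (cmp g h) l = ga g l - al g l.1 * h.r0 - be g l.1 * h.r1 := by
  unfold al be ga cmp
  ring

/-- the frame `(X, Y) = (x₀ + a X', y₀ + c X' + b Y')` -/
def hfr (x₀ y₀ a b c : ℝ) (ha : a ≠ 0) (hb : b ≠ 0) : Fr where
  p0 := a
  q0 := 0
  r0 := x₀
  p1 := c
  q1 := b
  r1 := y₀
  det := by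
    simp [ha, hb]

/-- exchange of the coordinates -/
def swp : Fr where
  p0 := 0
  q0 := 1
  r0 := 0
  p1 := 1
  q1 := 0
  r1 := 0
  det := by norm_num

/-- the identity frame -/
def idf : Fr where
  p0 := 1
  q0 := 0
  r0 := 0
  p1 := 0
  q1 := 1
  r1 := 0
  det := by norm_num

/-! ## Sequences along an ultrafilter -/

/-- `a n = o(|F n|)` along `U` -/
def Neg (U : Ultrafilter ℕ) (F : ℕ → Finset (ℝ × ℝ)) (a : ℕ → ℕ) : Prop :=
  ∀ e : ℝ, 0 < e → ∀ᶠ n in (U : Filter ℕ), (a n : ℝ) ≤ e * ((F n).card : ℝ)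

/-- `a n ≥ e |F n|` for some `e > 0`, along `U` -/
def Pos (U : Ultrafilter ℕ) (F : ℕ → Finset (ℝ × ℝ)) (a : ℕ → ℕ) : Prop :=
  ∃ e : ℝ, 0 < e ∧ ∀ᶠ n in (U : Filter ℕ), e * ((F n).card : ℝ) ≤ (a n : ℝ)

/-- `a n = o(|F n|²)` along `U` -/
def Neg2 (U : Ultrafilter ℕ) (F : ℕ → Finset (ℝ × ℝ)) (a : ℕ → ℕ) : Prop :=
  ∀ e : ℝ, 0 < e → ∀ᶠ n in (U : Filter ℕ), (a n : ℝ) ≤ e * ((F n).card : ℝ) ^ 2

/-- `a n ≥ e |F n|²` for some `e > 0`, along `U` -/
def Pos2 (U : Ultrafilter ℕ) (F : ℕ → Finset (ℝ × ℝ)) (a : ℕ → ℕ) : Prop :=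
  ∃ e : ℝ, 0 < e ∧ ∀ᶠ n in (U : Filter ℕ), e * ((F n).card : ℝ) ^ 2 ≤ (a n : ℝ)

/-- The standing assumptions: `U` is not principal, the lines of `F n` have the `k` different slopes
`s n i`, their number tends to infinity and there are `o(|F n|²)` edges between double
points. -/
structure Sy {k : ℕ} (U : Ultrafilter ℕ) (F : ℕ → Finset (ℝ × ℝ)) (s : ℕ → Fin k → ℝ) : Prop where
  np : ∀ m : ℕ, ∀ᶠ n in (U : Filter ℕ), m ≤ n
  inj : ∀ n, Function.Injective (s n)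
  sl : ∀ n, ∀ l ∈ F n, ∃ i, l.1 = s n i
  inf : ∀ N : ℕ, ∀ᶠ n in (U : Filter ℕ), N ≤ (F n).card
  dd : Neg2 U F fun n => (dde (F n)).card

/-- the lines of `F n` with index in `K` -/
noncomputable def gr {k : ℕ} (F : ℕ → Finset (ℝ × ℝ)) (s : ℕ → Fin k → ℝ) (K : Finset (Fin k))
    (n : ℕ) : Finset (ℝ × ℝ) := (F n).filter fun l => ∃ i ∈ K, l.1 = s n i

/-- union of a family of blocks -/
def uni {k : ℕ} (B : Finset (Finset (Fin k))) : Finset (Fin k) := B.biUnion id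

/-- number of lines of `G n` with position in `[u, v]` -/
noncomputable def cn (G : ℕ → Finset (ℝ × ℝ)) (p : ℕ → ℝ × ℝ → ℝ) (u v : ℝ) (n : ℕ) : ℕ :=
  ((G n).filter fun l => u ≤ p n l ∧ p n l ≤ v).card

/-- `t` is in the support of the limit distribution of the positions -/
def Spt (U : Ultrafilter ℕ) (F G : ℕ → Finset (ℝ × ℝ)) (p : ℕ → ℝ × ℝ → ℝ) (t : ℝ) : Prop :=
  ∀ η : ℝ, 0 < η → Pos U F (cn G p (t - η) (t + η))

/-- `t` is an atom of the limit distribution of the positions -/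
def Atm (U : Ultrafilter ℕ) (F G : ℕ → Finset (ℝ × ℝ)) (p : ℕ → ℝ × ℝ → ℝ) (t : ℝ) : Prop :=
  ∃ e : ℝ, 0 < e ∧ ∀ η : ℝ, 0 < η →
    ∀ᶠ n in (U : Filter ℕ), e * ((F n).card : ℝ) ≤ (cn G p (t - η) (t + η) n : ℝ)

/-- number of pairs of different lines of `G` with a common point in the box -/
noncomputable def crp (g : Fr) (L M : ℝ) (G : Finset (ℝ × ℝ)) : ℕ :=
  ((G ×ˢ G).filter fun q => q.1 ≠ q.2 ∧ crb g L M q.1 q.2).card

/-- the quartet `i i' | j a`: the cross ratio `(s i - s i')(s j - s a) / ((s i - s j)(s i' - s a))` tends to 0 -/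
def Far {k : ℕ} (U : Ultrafilter ℕ) (s : ℕ → Fin k → ℝ) (i i' j a : Fin k) : Prop :=
  ∀ e : ℝ, 0 < e → ∀ᶠ n in (U : Filter ℕ),
    |(s n i - s n i') * (s n j - s n a)| ≤ e * |(s n i - s n j) * (s n i' - s n a)|

/-- the index `i` is vertical in the frames `g n`: `rh → 0` -/
def Ver {k : ℕ} (U : Ultrafilter ℕ) (s : ℕ → Fin k → ℝ) (g : ℕ → Fr) (i : Fin k) : Prop :=
  ∀ e : ℝ, 0 < e → ∀ᶠ n in (U : Filter ℕ), |be (g n) (s n i)| ≤ e * |al (g n) (s n i)|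

/-- the slope `sg` of the index `i` in the frames `g n` tends to `lam` -/
def Hor {k : ℕ} (U : Ultrafilter ℕ) (s : ℕ → Fin k → ℝ) (g : ℕ → Fr) (lam : ℝ) (i : Fin k) : Prop :=
  ∀ e : ℝ, 0 < e → ∀ᶠ n in (U : Filter ℕ),
    |al (g n) (s n i) + lam * be (g n) (s n i)| ≤ e * |be (g n) (s n i)|

/-- TWO BUNDLES. In the box `|X|, |Y| ≤ 1` of the frames `g n` there are, up to `o(|F n|)` lines, only
the vertical lines of the block `A` and the horizontal lines of the blocks of `B`; the lines of one block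
cross each other in the box `o(|F n|²)` times; the blocks of `B` are infinitesimally small compared with
their distances; 0 is in the support of the positions of `A` and of those of `B`. -/
structure TB {k : ℕ} (U : Ultrafilter ℕ) (F : ℕ → Finset (ℝ × ℝ)) (s : ℕ → Fin k → ℝ) (g : ℕ → Fr)
    (A : Finset (Fin k)) (B : Finset (Finset (Fin k))) : Prop where
  dA : ∀ K ∈ B, Disjoint A K
  dB : ∀ K ∈ B, ∀ K' ∈ B, K ≠ K' → Disjoint K K'
  ver : ∀ i ∈ A, Ver U s g i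
  hor : ∀ K ∈ B, ∀ i ∈ K, Hor U s g 0 i
  con : Neg U F fun n =>
    ((F n).filter fun l => l ∉ gr F s (A ∪ uni B) n ∧ hit (g n) 1 l).card
  crA : Neg2 U F fun n => crp (g n) 1 1 (gr F s A n)
  crB : ∀ K ∈ B, Neg2 U F fun n => crp (g n) 1 1 (gr F s K n)
  sep : ∀ K ∈ B, ∀ i ∈ K, ∀ i' ∈ K, ∀ j ∈ uni B, j ∉ K → ∀ a ∈ A, Far U s i i' j a
  cA : Spt U F (gr F s A) (fun n => vv (g n)) 0
  cB : Spt U F (gr F s (uni B)) (fun n => tt (g n)) 0

/-- PLANAR situation. In the large box `|X|, |Y| ≤ L n` (`L n → ∞`) of the frames `g n` there are, up to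
`o(|F n|)` lines, only the lines of the blocks `K ∈ G`, with different real limit slopes `lam K`, and
the vertical lines of the blocks of `V`; the lines of one block cross each other in the box
`o(|F n|²)` times; all but `o(|F n|)` of the lines meeting the box have position `o(L n)`; at least two of the
blocks of `G` have `≥ e |F n|` lines in the box. -/
structure PL {k : ℕ} (U : Ultrafilter ℕ) (F : ℕ → Finset (ℝ × ℝ)) (s : ℕ → Fin k → ℝ) (g : ℕ → Fr)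
    (L : ℕ → ℝ) (G V : Finset (Finset (Fin k))) (lam : Finset (Fin k) → ℝ) : Prop where
  lin : ∀ M : ℝ, ∀ᶠ n in (U : Filter ℕ), M ≤ L n
  dis : ∀ K ∈ G ∪ V, ∀ K' ∈ G ∪ V, K ≠ K' → Disjoint K K'
  dGV : Disjoint G V
  hor : ∀ K ∈ G, ∀ i ∈ K, Hor U s g (lam K) i
  lne : ∀ K ∈ G, ∀ K' ∈ G, K ≠ K' → lam K ≠ lam K'
  ver : ∀ K ∈ V, ∀ i ∈ K, Ver U s g i
  con : Neg U F fun n =>
    ((F n).filter fun l => l ∉ gr F s (uni G ∪ uni V) n ∧ hit (g n) (L n) l).card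
  cr : ∀ K ∈ G ∪ V, Neg2 U F fun n => crp (g n) (L n) (L n) (gr F s K n)
  sep : ∀ K ∈ V, ∀ i ∈ K, ∀ i' ∈ K, ∀ j ∈ uni V, j ∉ K → ∀ a ∈ uni G, Far U s i i' j a
  ctH : ∀ e : ℝ, 0 < e → Neg U F fun n =>
    ((gr F s (uni G) n).filter fun l => hit (g n) (L n) l ∧ e * L n < |tt (g n) l|).card
  ctV : ∀ e : ℝ, 0 < e → Neg U F fun n =>
    ((gr F s (uni V) n).filter fun l => hit (g n) (L n) l ∧ e * L n < |vv (g n) l|).card
  two : ∃ K₁ ∈ G, ∃ K₂ ∈ G, K₁ ≠ K₂ ∧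
    (Pos U F fun n => ((gr F s K₁ n).filter fun l => hit (g n) (L n) l).card) ∧
    Pos U F fun n => ((gr F s K₂ n).filter fun l => hit (g n) (L n) l).card

/-- NORMALISED planar situation: the position of the lines of `K₁`, `K₂` are on both sides of 0, every
group has at most `θ |F n|` lines with position outside `[-1, 1]`, the bulk of `K₁` and `K₂` in
`[-1, 1]` has at least `32 (k+1) θ |F n|` lines, and some group has at least `θ |F n|` lines with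
position outside `(-1, 1)`. -/
structure PN {k : ℕ} (U : Ultrafilter ℕ) (F : ℕ → Finset (ℝ × ℝ)) (s : ℕ → Fin k → ℝ) (g : ℕ → Fr)
    (L : ℕ → ℝ) (G V : Finset (Finset (Fin k))) (lam : Finset (Fin k) → ℝ)
    (K₁ K₂ : Finset (Fin k)) (θ : ℝ) : Prop extends PL U F s g L G V lam where
  th : 0 < θ
  k1 : K₁ ∈ G
  k2 : K₂ ∈ G
  kn : K₁ ≠ K₂
  p1 : Pos U F fun n => ((gr F s K₁ n).filter fun l => hit (g n) (L n) l ∧ 0 ≤ tt (g n) l).card
  m1 : Pos U F fun n => ((gr F s K₁ n).filter fun l => hit (g n) (L n) l ∧ tt (g n) l ≤ 0).card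
  p2 : Pos U F fun n => ((gr F s K₂ n).filter fun l => hit (g n) (L n) l ∧ 0 ≤ tt (g n) l).card
  m2 : Pos U F fun n => ((gr F s K₂ n).filter fun l => hit (g n) (L n) l ∧ tt (g n) l ≤ 0).card
  oG : ∀ K ∈ G, ∀ᶠ n in (U : Filter ℕ),
    (((gr F s K n).filter fun l => hit (g n) (L n) l ∧ 1 < |tt (g n) l|).card : ℝ) ≤
      θ * ((F n).card : ℝ)
  oV : ∀ᶠ n in (U : Filter ℕ),
    (((gr F s (uni V) n).filter fun l => hit (g n) (L n) l ∧ 1 < |vv (g n) l|).card : ℝ) ≤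
      θ * ((F n).card : ℝ)
  b1 : ∀ᶠ n in (U : Filter ℕ), 32 * ((k : ℝ) + 1) * θ * ((F n).card : ℝ) ≤
    (((gr F s K₁ n).filter fun l => |tt (g n) l| ≤ 1).card : ℝ)
  b2 : ∀ᶠ n in (U : Filter ℕ), 32 * ((k : ℝ) + 1) * θ * ((F n).card : ℝ) ≤
    (((gr F s K₂ n).filter fun l => |tt (g n) l| ≤ 1).card : ℝ)
  big : (∃ K ∈ G, ∀ᶠ n in (U : Filter ℕ), θ * ((F n).card : ℝ) ≤
      (((gr F s K n).filter fun l => hit (g n) (L n) l ∧ 1 ≤ |tt (g n) l|).card : ℝ)) ∨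
    ∀ᶠ n in (U : Filter ℕ), θ * ((F n).card : ℝ) ≤
      (((gr F s (uni V) n).filter fun l => hit (g n) (L n) l ∧ 1 ≤ |vv (g n) l|).card : ℝ)

/-- STRIP situation: as in the planar situation, but in the strip `|X| ≤ 3/4` and at all finite
heights; 0 is in the support of the positions of the vertical lines; some finite part of the strip
contains `≥ e |F n|` lines of the blocks of `G`. -/
structure ST {k : ℕ} (U : Ultrafilter ℕ) (F : ℕ → Finset (ℝ × ℝ)) (s : ℕ → Fin k → ℝ) (g : ℕ → Fr)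
    (G V : Finset (Finset (Fin k))) (lam : Finset (Fin k) → ℝ) : Prop where
  dis : ∀ K ∈ G ∪ V, ∀ K' ∈ G ∪ V, K ≠ K' → Disjoint K K'
  dGV : Disjoint G V
  hor : ∀ K ∈ G, ∀ i ∈ K, Hor U s g (lam K) i
  lne : ∀ K ∈ G, ∀ K' ∈ G, K ≠ K' → lam K ≠ lam K'
  ver : ∀ K ∈ V, ∀ i ∈ K, Ver U s g i
  con : ∀ M : ℝ, Neg U F fun n =>
    ((F n).filter fun l => l ∉ gr F s (uni G ∪ uni V) n ∧
      ∃ P : ℝ × ℝ, |P.1| ≤ 3 / 4 ∧ |P.2| ≤ M ∧ onl (g n) l P).card
  cr : ∀ K ∈ G ∪ V, ∀ M : ℝ, Neg2 U F fun n => crp (g n) (3 / 4) M (gr F s K n)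
  sep : ∀ K ∈ V, ∀ i ∈ K, ∀ i' ∈ K, ∀ j ∈ uni V, j ∉ K → ∀ a ∈ uni G, Far U s i i' j a
  cV : Spt U F (gr F s (uni V)) (fun n => vv (g n)) 0
  mH : ∃ M : ℝ, Pos U F fun n => ((gr F s (uni G) n).filter fun l => |tt (g n) l| ≤ M).card

end Pool.Agent.Work.MP_b25393_ag.UU
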