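import Mathlib
import Pool.Agent.Work.MP_b25393_ag.UU.Defs

/-!
# Uniform version: basic facts about frames and about `Neg`, `Pos`
-/

set_option autoImplicit false

namespace Pool.Agent.Work.MP_b25393_ag.UU

open scoped Classical
open Pool.Agent.Work.MP_b25393_ag.U

/-! ## Frames -/

theorem onl_hor {g : Fr} {l : ℝ × ℝ} (h : be g l.1 ≠ 0) (P : ℝ × ℝ) :
    onl g l P ↔ P.2 = tt g l + sg g l.1 * P.1 := by
  unfold onl tt sg
  constructor
  · intro h1
    field_simp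
    linarith
  · intro h1
    rw [h1]
    field_simp
    ring

theorem onl_ver {g : Fr} {l : ℝ × ℝ} (h : al g l.1 ≠ 0) (P : ℝ × ℝ) :
    onl g l P ↔ P.1 = vv g l + rh g l.1 * P.2 := by
  unfold onl vv rh
  constructor
  · intro h1
    field_simp
    linarith
  · intro h1
    rw [h1]
    field_simp
    ring

/-- the determinant identity: `W i j = al j * be i - al i * be j` -/
theorem det_id (g : Fr) (a b : ℝ) :
    al g b * be g a - al g a * be g b = (a - b) * (g.p0 * g.q1 - g.p1 * g.q0) := by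
  unfold al be
  ring

theorem al_hfr (g : Fr) (x₀ y₀ a b c s : ℝ) (ha : a ≠ 0) (hb : b ≠ 0) :
    al (cmp g (hfr x₀ y₀ a b c ha hb)) s = al g s * a + be g s * c := by
  rw [al_cmp]
  rfl

theorem be_hfr (g : Fr) (x₀ y₀ a b c s : ℝ) (ha : a ≠ 0) (hb : b ≠ 0) :
    be (cmp g (hfr x₀ y₀ a b c ha hb)) s = be g s * b := by
  rw [be_cmp]
  show al g s * 0 + be g s * b = be g s * b
  ring

theorem ga_hfr (g : Fr) (x₀ y₀ a b c : ℝ) (l : ℝ × ℝ) (ha : a ≠ 0) (hb : b ≠ 0) :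
    ga (cmp g (hfr x₀ y₀ a b c ha hb)) l = ga g l - al g l.1 * x₀ - be g l.1 * y₀ := by
  rw [ga_cmp]
  rfl

theorem sg_hfr (g : Fr) (x₀ y₀ a b c s : ℝ) (ha : a ≠ 0) (hb : b ≠ 0) (h : be g s ≠ 0) :
    sg (cmp g (hfr x₀ y₀ a b c ha hb)) s = (a * sg g s - c) / b := by
  unfold sg
  rw [al_hfr, be_hfr]
  field_simp
  ring

theorem tt_hfr (g : Fr) (x₀ y₀ a b c : ℝ) (l : ℝ × ℝ) (ha : a ≠ 0) (hb : b ≠ 0)
    (h : be g l.1 ≠ 0) :
    tt (cmp g (hfr x₀ y₀ a b c ha hb)) l = (tt g l + sg g l.1 * x₀ - y₀) / b := by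
  unfold tt sg
  rw [ga_hfr, be_hfr]
  field_simp
  ring

theorem al_hfr' (g : Fr) (x₀ y₀ a b c s : ℝ) (ha : a ≠ 0) (hb : b ≠ 0) (h : al g s ≠ 0) :
    al (cmp g (hfr x₀ y₀ a b c ha hb)) s = al g s * (a - rh g s * c) := by
  unfold rh
  rw [al_hfr]
  field_simp
  ring

theorem rh_hfr (g : Fr) (x₀ y₀ a b c s : ℝ) (ha : a ≠ 0) (hb : b ≠ 0) (h : al g s ≠ 0)
    (h' : a - rh g s * c ≠ 0) :
    rh (cmp g (hfr x₀ y₀ a b c ha hb)) s = rh g s * b / (a - rh g s * c) := by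
  have e1 : rh (cmp g (hfr x₀ y₀ a b c ha hb)) s =
      -(be g s * b) / (al g s * (a - rh g s * c)) := by
    rw [← al_hfr' g x₀ y₀ a b c s ha hb h, ← be_hfr g x₀ y₀ a b c s ha hb]
    rfl
  rw [e1]
  rw [div_eq_div_iff (mul_ne_zero h h') h']
  unfold rh
  field_simp

theorem vv_hfr (g : Fr) (x₀ y₀ a b c : ℝ) (l : ℝ × ℝ) (ha : a ≠ 0) (hb : b ≠ 0)
    (h : al g l.1 ≠ 0) (h' : a - rh g l.1 * c ≠ 0) :
    vv (cmp g (hfr x₀ y₀ a b c ha hb)) l = (vv g l - x₀ + rh g l.1 * y₀) / (a - rh g l.1 * c) := by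
  have e1 : vv (cmp g (hfr x₀ y₀ a b c ha hb)) l =
      (ga g l - al g l.1 * x₀ - be g l.1 * y₀) / (al g l.1 * (a - rh g l.1 * c)) := by
    rw [← al_hfr' g x₀ y₀ a b c l.1 ha hb h, ← ga_hfr g x₀ y₀ a b c l ha hb]
    rfl
  rw [e1, div_eq_div_iff (mul_ne_zero h h') h']
  unfold vv rh
  field_simp
  ring

theorem al_swp (g : Fr) (s : ℝ) : al (cmp g swp) s = be g s := by
  rw [al_cmp]
  show al g s * 0 + be g s * 1 = be g s
  ring

theorem be_swp (g : Fr) (s : ℝ) : be (cmp g swp) s = al g s := by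
  rw [be_cmp]
  show al g s * 1 + be g s * 0 = al g s
  ring

theorem ga_swp (g : Fr) (l : ℝ × ℝ) : ga (cmp g swp) l = ga g l := by
  rw [ga_cmp]
  show ga g l - al g l.1 * 0 - be g l.1 * 0 = ga g l
  ring

theorem sg_swp (g : Fr) (s : ℝ) : sg (cmp g swp) s = rh g s := by
  unfold sg rh
  rw [al_swp, be_swp]

theorem rh_swp (g : Fr) (s : ℝ) : rh (cmp g swp) s = sg g s := by
  unfold sg rh
  rw [al_swp, be_swp]

theorem tt_swp (g : Fr) (l : ℝ × ℝ) : tt (cmp g swp) l = vv g l := by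
  unfold tt vv
  rw [ga_swp, be_swp]

theorem vv_swp (g : Fr) (l : ℝ × ℝ) : vv (cmp g swp) l = tt g l := by
  unfold tt vv
  rw [ga_swp, al_swp]

theorem onl_swp (g : Fr) (l P : ℝ × ℝ) : onl (cmp g swp) l P ↔ onl g l (P.2, P.1) := by
  unfold onl
  rw [al_swp, be_swp, ga_swp]
  constructor
  · intro h
    simp only
    linarith
  · intro h
    simp only at h
    linarith

/-- the point of the plane with coordinates `P` in the frame `cmp g (hfr x₀ y₀ a b c)` has the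
coordinates `(x₀ + a P.1, y₀ + c P.1 + b P.2)` in the frame `g` -/
theorem onl_hfr (g : Fr) (x₀ y₀ a b c : ℝ) (l P : ℝ × ℝ) (ha : a ≠ 0) (hb : b ≠ 0) :
    onl (cmp g (hfr x₀ y₀ a b c ha hb)) l P ↔
      onl g l (x₀ + a * P.1, y₀ + c * P.1 + b * P.2) := by
  unfold onl
  rw [al_hfr, be_hfr, ga_hfr]
  constructor
  · intro h
    simp only
    linarith
  · intro h
    simp only at h
    linarith

theorem hor_iff {k : ℕ} {U : Ultrafilter ℕ} {s : ℕ → Fin k → ℝ} {g : ℕ → Fr} {lam : ℝ}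
    {i : Fin k} : Hor U s g lam i ↔ ∀ e : ℝ, 0 < e → ∀ᶠ n in (U : Filter ℕ),
      be (g n) (s n i) ≠ 0 ∧ |sg (g n) (s n i) - lam| ≤ e := by
  constructor
  · intro h e he
    filter_upwards [h e he] with n hn
    have hb : be (g n) (s n i) ≠ 0 := by
      intro hb
      rw [hb] at hn
      simp only [mul_zero, add_zero, abs_zero] at hn
      have ha : al (g n) (s n i) = 0 := abs_nonpos_iff.mp hn
      rcases al_be_ne (g n) (s n i) with h1 | h1
      · exact h1 ha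
      · exact h1 hb
    refine ⟨hb, ?_⟩
    have e1 : sg (g n) (s n i) - lam = -(al (g n) (s n i) + lam * be (g n) (s n i)) /
        be (g n) (s n i) := by
      unfold sg
      field_simp
      ring
    rw [e1, abs_div, abs_neg, div_le_iff₀ (abs_pos.mpr hb)]
    exact hn
  · intro h e he
    filter_upwards [h e he] with n hn
    obtain ⟨hb, hn⟩ := hn
    have e1 : al (g n) (s n i) + lam * be (g n) (s n i) =
        -(sg (g n) (s n i) - lam) * be (g n) (s n i) := by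
      unfold sg
      field_simp
      ring
    rw [e1, abs_mul, abs_neg]
    exact mul_le_mul_of_nonneg_right hn (abs_nonneg _)

theorem ver_iff {k : ℕ} {U : Ultrafilter ℕ} {s : ℕ → Fin k → ℝ} {g : ℕ → Fr}
    {i : Fin k} : Ver U s g i ↔ ∀ e : ℝ, 0 < e → ∀ᶠ n in (U : Filter ℕ),
      al (g n) (s n i) ≠ 0 ∧ |rh (g n) (s n i)| ≤ e := by
  constructor
  · intro h e he
    filter_upwards [h e he] with n hn
    have hb : al (g n) (s n i) ≠ 0 := by
      intro hb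
      rw [hb] at hn
      simp only [abs_zero, mul_zero] at hn
      have ha : be (g n) (s n i) = 0 := abs_nonpos_iff.mp hn
      rcases al_be_ne (g n) (s n i) with h1 | h1
      · exact h1 hb
      · exact h1 ha
    refine ⟨hb, ?_⟩
    unfold rh
    rw [abs_div, abs_neg, div_le_iff₀ (abs_pos.mpr hb)]
    exact hn
  · intro h e he
    filter_upwards [h e he] with n hn
    obtain ⟨hb, hn⟩ := hn
    have e1 : be (g n) (s n i) = -rh (g n) (s n i) * al (g n) (s n i) := by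
      unfold rh
      field_simp
    rw [e1, abs_mul, abs_neg]
    exact mul_le_mul_of_nonneg_right hn (abs_nonneg _)

/-- the index form of `Ver` and `Hor` under the exchange of the coordinates -/
theorem ver_swp {k : ℕ} {U : Ultrafilter ℕ} {s : ℕ → Fin k → ℝ} {g : ℕ → Fr}
    {i : Fin k} : Ver U s (fun n => cmp (g n) swp) i ↔ Hor U s g 0 i := by
  unfold Ver Hor
  simp only [al_swp, be_swp, zero_mul, add_zero]

theorem hor_swp {k : ℕ} {U : Ultrafilter ℕ} {s : ℕ → Fin k → ℝ} {g : ℕ → Fr}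
    {i : Fin k} : Hor U s (fun n => cmp (g n) swp) 0 i ↔ Ver U s g i := by
  unfold Ver Hor
  simp only [al_swp, be_swp, zero_mul, add_zero]

/-! ## `Neg` and `Pos` -/

section
variable {U : Ultrafilter ℕ} {F : ℕ → Finset (ℝ × ℝ)} {a b : ℕ → ℕ}

theorem Neg.mono (h : Neg U F b) (hab : ∀ᶠ n in (U : Filter ℕ), a n ≤ b n) : Neg U F a := by
  intro e he
  filter_upwards [h e he, hab] with n h1 h2
  have : (a n : ℝ) ≤ (b n : ℝ) := by exact_mod_cast h2
  linarith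

theorem Neg.mono' (h : Neg U F b) (hab : ∀ n, a n ≤ b n) : Neg U F a :=
  h.mono (Filter.Eventually.of_forall hab)

theorem Neg.add (ha : Neg U F a) (hb : Neg U F b) : Neg U F fun n => a n + b n := by
  intro e he
  filter_upwards [ha (e / 2) (by linarith), hb (e / 2) (by linarith)] with n h1 h2
  push_cast
  linarith

theorem neg_zero : Neg U F fun _ => 0 := by
  intro e he
  filter_upwards with n
  push_cast
  positivity

theorem Neg.sum {ι : Type*} (S : Finset ι) (f : ι → ℕ → ℕ) (h : ∀ i ∈ S, Neg U F (f i)) :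
    Neg U F fun n => ∑ i ∈ S, f i n := by
  induction S using Finset.induction_on with
  | empty => simpa using (neg_zero : Neg U F fun _ => 0)
  | insert i S hi ih =>
    have h1 := (h i (Finset.mem_insert_self i S)).add
      (ih fun j hj => h j (Finset.mem_insert_of_mem hj))
    refine h1.mono' fun n => ?_
    simp [Finset.sum_insert hi]

theorem Neg.mul_const (ha : Neg U F a) (c : ℕ) : Neg U F fun n => c * a n := by
  have h := Neg.sum (U := U) (F := F) (Finset.range c) (fun _ => a) fun i _ => ha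
  refine h.mono' fun n => ?_
  simp

theorem pos_of_not_neg (h : ¬ Neg U F a) : Pos U F a := by
  unfold Neg at h
  push Not at h
  obtain ⟨e, he, h1⟩ := h
  refine ⟨e, he, ?_⟩
  filter_upwards [h1] with n hn
  exact hn.le

theorem not_neg_of_pos (hF : ∀ᶠ n in (U : Filter ℕ), 1 ≤ (F n).card) (h : Pos U F a) :
    ¬ Neg U F a := by
  intro h1
  obtain ⟨e, he, h2⟩ := h
  have h3 := (h1 (e / 2) (by linarith)).and (h2.and hF)
  obtain ⟨n, h4, h5, h6⟩ := h3.exists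
  have h7 : (1 : ℝ) ≤ ((F n).card : ℝ) := by exact_mod_cast h6
  nlinarith

theorem Pos.mono (h : Pos U F a) (hab : ∀ᶠ n in (U : Filter ℕ), a n ≤ b n) : Pos U F b := by
  obtain ⟨e, he, h1⟩ := h
  refine ⟨e, he, ?_⟩
  filter_upwards [h1, hab] with n h2 h3
  have : (a n : ℝ) ≤ (b n : ℝ) := by exact_mod_cast h3
  linarith

/-- if `a ≤ b + c`, `a` is `Pos` and `c` is `Neg`, then `b` is `Pos` -/
theorem Pos.of_le_add {c : ℕ → ℕ} (h : Pos U F a) (hc : Neg U F c)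
    (habc : ∀ᶠ n in (U : Filter ℕ), a n ≤ b n + c n) : Pos U F b := by
  obtain ⟨e, he, h1⟩ := h
  refine ⟨e / 2, by linarith, ?_⟩
  filter_upwards [h1, hc (e / 2) (by linarith), habc] with n h2 h3 h4
  have : (a n : ℝ) ≤ (b n : ℝ) + (c n : ℝ) := by exact_mod_cast h4
  linarith

theorem Neg2.mono (h : Neg2 U F b) (hab : ∀ᶠ n in (U : Filter ℕ), a n ≤ b n) : Neg2 U F a := by
  intro e he
  filter_upwards [h e he, hab] with n h1 h2
  have : (a n : ℝ) ≤ (b n : ℝ) := by exact_mod_cast h2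
  linarith

theorem Neg2.add (ha : Neg2 U F a) (hb : Neg2 U F b) : Neg2 U F fun n => a n + b n := by
  intro e he
  filter_upwards [ha (e / 2) (by linarith), hb (e / 2) (by linarith)] with n h1 h2
  push_cast
  linarith

theorem neg2_zero : Neg2 U F fun _ => 0 := by
  intro e he
  filter_upwards with n
  push_cast
  positivity

theorem Neg2.sum {ι : Type*} (S : Finset ι) (f : ι → ℕ → ℕ) (h : ∀ i ∈ S, Neg2 U F (f i)) :
    Neg2 U F fun n => ∑ i ∈ S, f i n := by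
  induction S using Finset.induction_on with
  | empty => simpa using (neg2_zero : Neg2 U F fun _ => 0)
  | insert i S hi ih =>
    have h1 := (h i (Finset.mem_insert_self i S)).add
      (ih fun j hj => h j (Finset.mem_insert_of_mem hj))
    refine h1.mono (Filter.Eventually.of_forall fun n => ?_)
    simp [Finset.sum_insert hi]

theorem pos2_of_not_neg2 (h : ¬ Neg2 U F a) : Pos2 U F a := by
  unfold Neg2 at h
  push Not at h
  obtain ⟨e, he, h1⟩ := h
  refine ⟨e, he, ?_⟩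
  filter_upwards [h1] with n hn
  exact hn.le

end

theorem gr_sub {k : ℕ} (F : ℕ → Finset (ℝ × ℝ)) (s : ℕ → Fin k → ℝ) (K : Finset (Fin k)) (n : ℕ) :
    gr F s K n ⊆ F n := Finset.filter_subset _ _

theorem mem_gr {k : ℕ} {F : ℕ → Finset (ℝ × ℝ)} {s : ℕ → Fin k → ℝ} {K : Finset (Fin k)} {n : ℕ}
    {l : ℝ × ℝ} : l ∈ gr F s K n ↔ l ∈ F n ∧ ∃ i ∈ K, l.1 = s n i := by
  unfold gr
  rw [Finset.mem_filter]

theorem mem_uni {k : ℕ} {B : Finset (Finset (Fin k))} {i : Fin k} :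
    i ∈ uni B ↔ ∃ K ∈ B, i ∈ K := by
  unfold uni
  simp

theorem gr_mono {k : ℕ} {F : ℕ → Finset (ℝ × ℝ)} {s : ℕ → Fin k → ℝ} {K K' : Finset (Fin k)}
    (h : K ⊆ K') (n : ℕ) : gr F s K n ⊆ gr F s K' n := by
  intro l hl
  rw [mem_gr] at hl ⊢
  obtain ⟨h1, i, h2, h3⟩ := hl
  exact ⟨h1, i, h h2, h3⟩

/-! ## Levels, meetings -/

/-- the line `l` is on the level `j` (counted from 0) over `x` -/
def Lv (F : Finset (ℝ × ℝ)) (j : ℕ) (l : ℝ × ℝ) (x : ℝ) : Prop :=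
  lo F (x, val l x) ≤ j ∧ j < lo F (x, val l x) + on F (x, val l x)

/-- the rank of the edge `q` of `c`: the number of lines below `c` over its midpoint -/
noncomputable def rk (F : Finset (ℝ × ℝ)) (c : ℝ × ℝ) (q : ℝ × ℝ) : ℕ :=
  lo F ((q.1 + q.2) / 2, val c ((q.1 + q.2) / 2))

/-- `l` meets `c` at a point with frame coordinates in `Q` -/
def mc (g : Fr) (Q : Set (ℝ × ℝ)) (c l : ℝ × ℝ) : Prop :=
  l ≠ c ∧ ∃ P ∈ Q, onl g c P ∧ onl g l P

/-- the box `|X| ≤ L`, `|Y| ≤ M` -/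
def bx (L M : ℝ) : Set (ℝ × ℝ) := {P | |P.1| ≤ L ∧ |P.2| ≤ M}

theorem convex_bx (L M : ℝ) : Convex ℝ (bx L M) := by
  have h : bx L M = Set.Icc (-L) L ×ˢ Set.Icc (-M) M := by
    ext P
    constructor
    · rintro ⟨h1, h2⟩
      exact ⟨abs_le.mp h1, abs_le.mp h2⟩
    · rintro ⟨h1, h2⟩
      exact ⟨abs_le.mpr h1, abs_le.mpr h2⟩
  rw [h]
  exact (convex_Icc _ _).prod (convex_Icc _ _)

/-- a horizontal and a vertical line -/
theorem cross_hv {g : Fr} {l m : ℝ × ℝ} (hl : be g l.1 ≠ 0) (hm : al g m.1 ≠ 0)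
    (h : 1 - rh g m.1 * sg g l.1 ≠ 0) :
    onl g l ((vv g m + rh g m.1 * tt g l) / (1 - rh g m.1 * sg g l.1),
      tt g l + sg g l.1 * ((vv g m + rh g m.1 * tt g l) / (1 - rh g m.1 * sg g l.1))) ∧
    onl g m ((vv g m + rh g m.1 * tt g l) / (1 - rh g m.1 * sg g l.1),
      tt g l + sg g l.1 * ((vv g m + rh g m.1 * tt g l) / (1 - rh g m.1 * sg g l.1))) := by
  constructor
  · rw [onl_hor hl]
  · rw [onl_ver hm]
    simp only
    field_simp
    ring

/-- two horizontal lines of different slopes -/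
theorem cross_hh {g : Fr} {l m : ℝ × ℝ} (hl : be g l.1 ≠ 0) (hm : be g m.1 ≠ 0)
    (h : sg g l.1 - sg g m.1 ≠ 0) :
    onl g l ((tt g m - tt g l) / (sg g l.1 - sg g m.1),
      tt g l + sg g l.1 * ((tt g m - tt g l) / (sg g l.1 - sg g m.1))) ∧
    onl g m ((tt g m - tt g l) / (sg g l.1 - sg g m.1),
      tt g l + sg g l.1 * ((tt g m - tt g l) / (sg g l.1 - sg g m.1))) := by
  constructor
  · rw [onl_hor hl]
  · rw [onl_hor hm]
    simp only
    field_simp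
    ring

theorem hit_hfr {g : Fr} {x₀ y₀ a b c L : ℝ} {l : ℝ × ℝ} {ha : a ≠ 0} {hb : b ≠ 0}
    (h : hit (cmp g (hfr x₀ y₀ a b c ha hb)) L l) :
    ∃ P : ℝ × ℝ, |P.1 - x₀| ≤ |a| * L ∧ |P.2 - y₀| ≤ (|c| + |b|) * L ∧ onl g l P := by
  obtain ⟨P, h1, h2, h3⟩ := h
  rw [onl_hfr] at h3
  refine ⟨_, ?_, ?_, h3⟩
  · simp only
    rw [add_sub_cancel_left, abs_mul]
    exact mul_le_mul_of_nonneg_left h1 (abs_nonneg _)
  · simp only
    have e : y₀ + c * P.1 + b * P.2 - y₀ = c * P.1 + b * P.2 := by ring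
    rw [e]
    calc |c * P.1 + b * P.2| ≤ |c * P.1| + |b * P.2| := abs_add_le _ _
      _ = |c| * |P.1| + |b| * |P.2| := by rw [abs_mul, abs_mul]
      _ ≤ |c| * L + |b| * L := by gcongr
      _ = (|c| + |b|) * L := by ring

theorem crb_hfr {g : Fr} {x₀ y₀ a b c L M : ℝ} {l m : ℝ × ℝ} {ha : a ≠ 0} {hb : b ≠ 0}
    (h : crb (cmp g (hfr x₀ y₀ a b c ha hb)) L M l m) :
    ∃ P : ℝ × ℝ, |P.1 - x₀| ≤ |a| * L ∧ |P.2 - y₀| ≤ |c| * L + |b| * M ∧ onl g l P ∧
      onl g m P := by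
  obtain ⟨P, h1, h2, h3, h4⟩ := h
  rw [onl_hfr] at h3 h4
  refine ⟨_, ?_, ?_, h3, h4⟩
  · simp only
    rw [add_sub_cancel_left, abs_mul]
    exact mul_le_mul_of_nonneg_left h1 (abs_nonneg _)
  · simp only
    have e : y₀ + c * P.1 + b * P.2 - y₀ = c * P.1 + b * P.2 := by ring
    rw [e]
    calc |c * P.1 + b * P.2| ≤ |c * P.1| + |b * P.2| := abs_add_le _ _
      _ = |c| * |P.1| + |b| * |P.2| := by rw [abs_mul, abs_mul]
      _ ≤ |c| * L + |b| * M := by gcongr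

theorem hit_swp {g : Fr} {L : ℝ} {l : ℝ × ℝ} : hit (cmp g swp) L l ↔ hit g L l := by
  constructor
  · rintro ⟨P, h1, h2, h3⟩
    exact ⟨(P.2, P.1), h2, h1, (onl_swp g l P).mp h3⟩
  · rintro ⟨P, h1, h2, h3⟩
    exact ⟨(P.2, P.1), h2, h1, (onl_swp g l _).mpr h3⟩

theorem crb_swp {g : Fr} {L M : ℝ} {l m : ℝ × ℝ} : crb (cmp g swp) L M l m ↔ crb g M L l m := by
  constructor
  · rintro ⟨P, h1, h2, h3, h4⟩
    exact ⟨(P.2, P.1), h2, h1, (onl_swp g l P).mp h3, (onl_swp g m P).mp h4⟩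
  · rintro ⟨P, h1, h2, h3, h4⟩
    exact ⟨(P.2, P.1), h2, h1, (onl_swp g l _).mpr h3, (onl_swp g m _).mpr h4⟩

theorem crp_swp {g : Fr} {L M : ℝ} {G : Finset (ℝ × ℝ)} : crp (cmp g swp) L M G = crp g M L G := by
  unfold crp
  simp only [crb_swp]

/-- `Hor` in the frames `cmp g (hfr ..)` -/
theorem hor_hfr {k : ℕ} {U : Ultrafilter ℕ} {s : ℕ → Fin k → ℝ} {g : ℕ → Fr} {lam lam' : ℝ}
    {i : Fin k} {x y a b c : ℕ → ℝ} (ha : ∀ n, a n ≠ 0) (hb : ∀ n, b n ≠ 0)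
    (h : Hor U s g lam i)
    (h1 : ∀ e : ℝ, 0 < e → ∀ᶠ n in (U : Filter ℕ), |a n * lam - c n - lam' * b n| ≤ e * |b n|)
    (C : ℝ) (h2 : ∀ᶠ n in (U : Filter ℕ), |a n| ≤ C * |b n|) :
    Hor U s (fun n => cmp (g n) (hfr (x n) (y n) (a n) (b n) (c n) (ha n) (hb n))) lam' i := by
  intro e he
  have hC : 0 < |C| + 1 := by positivity
  filter_upwards [h (e / (2 * (|C| + 1))) (by positivity), h1 (e / 2) (by positivity), h2]
    with n h3 h4 h5
  rw [al_hfr, be_hfr]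
  set A := al (g n) (s n i)
  set B := be (g n) (s n i)
  have e1 : A * a n + B * c n + lam' * (B * b n) =
      a n * (A + lam * B) - B * (a n * lam - c n - lam' * b n) := by ring
  rw [e1]
  have h6 : |a n| * |A + lam * B| ≤ (|C| + 1) * |b n| * (e / (2 * (|C| + 1)) * |B|) := by
    apply mul_le_mul _ h3 (abs_nonneg _) (by positivity)
    calc |a n| ≤ C * |b n| := h5
      _ ≤ (|C| + 1) * |b n| := by
        apply mul_le_mul_of_nonneg_right _ (abs_nonneg _)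
        linarith [le_abs_self C]
  have h7 : (|C| + 1) * |b n| * (e / (2 * (|C| + 1)) * |B|) = e / 2 * (|b n| * |B|) := by
    field_simp
  calc |a n * (A + lam * B) - B * (a n * lam - c n - lam' * b n)|
      ≤ |a n * (A + lam * B)| + |B * (a n * lam - c n - lam' * b n)| := abs_sub _ _
    _ = |a n| * |A + lam * B| + |B| * |a n * lam - c n - lam' * b n| := by
        rw [abs_mul, abs_mul]
    _ ≤ e / 2 * (|b n| * |B|) + |B| * (e / 2 * |b n|) := by
        rw [← h7]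
        exact add_le_add h6 (mul_le_mul_of_nonneg_left h4 (abs_nonneg _))
    _ = e * |B * b n| := by
        rw [abs_mul]
        ring

/-- `Ver` in the frames `cmp g (hfr ..)` when `b / a` and `c / a` are bounded -/
theorem ver_hfr {k : ℕ} {U : Ultrafilter ℕ} {s : ℕ → Fin k → ℝ} {g : ℕ → Fr}
    {i : Fin k} {x y a b c : ℕ → ℝ} (ha : ∀ n, a n ≠ 0) (hb : ∀ n, b n ≠ 0)
    (h : Ver U s g i)
    (C : ℝ) (h2 : ∀ᶠ n in (U : Filter ℕ), |b n| ≤ C * |a n| ∧ |c n| ≤ C * |a n|) :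
    Ver U s (fun n => cmp (g n) (hfr (x n) (y n) (a n) (b n) (c n) (ha n) (hb n))) i := by
  intro e he
  have hC : 0 < |C| + 1 := by positivity
  filter_upwards [h (min (e / (2 * (|C| + 1))) (1 / (2 * (|C| + 1)))) (by positivity), h2]
    with n h3 h5
  rw [al_hfr, be_hfr]
  set A := al (g n) (s n i)
  set B := be (g n) (s n i)
  obtain ⟨h5, h6⟩ := h5
  have h7 : |b n| ≤ (|C| + 1) * |a n| := by nlinarith [le_abs_self C, abs_nonneg (a n)]
  have h8 : |c n| ≤ (|C| + 1) * |a n| := by nlinarith [le_abs_self C, abs_nonneg (a n)]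
  have h9 : |B| ≤ e / (2 * (|C| + 1)) * |A| :=
    h3.trans (mul_le_mul_of_nonneg_right (min_le_left _ _) (abs_nonneg _))
  have h10 : |B| ≤ 1 / (2 * (|C| + 1)) * |A| :=
    h3.trans (mul_le_mul_of_nonneg_right (min_le_right _ _) (abs_nonneg _))
  have h11 : |B| * |c n| ≤ |A| * |a n| / 2 := by
    calc |B| * |c n| ≤ (1 / (2 * (|C| + 1)) * |A|) * ((|C| + 1) * |a n|) := by gcongr
      _ = |A| * |a n| / 2 := by field_simp
  have h12 : |A| * |a n| / 2 ≤ |A * a n + B * c n| := by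
    have h13 : |A * a n| - |B * c n| ≤ |A * a n + B * c n| := by
      have := abs_sub_abs_le_abs_sub (A * a n) (-(B * c n))
      rw [abs_neg, sub_neg_eq_add] at this
      exact this
    rw [abs_mul, abs_mul] at h13
    linarith
  calc |B * b n| = |B| * |b n| := abs_mul _ _
    _ ≤ (e / (2 * (|C| + 1)) * |A|) * ((|C| + 1) * |a n|) := by gcongr
    _ = e * (|A| * |a n| / 2) := by field_simp
    _ ≤ e * |A * a n + B * c n| := by gcongr

theorem hor_lines {k : ℕ} {U : Ultrafilter ℕ} (F : ℕ → Finset (ℝ × ℝ)) {s : ℕ → Fin k → ℝ}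
    {g : ℕ → Fr} {G : Finset (Finset (Fin k))} {lam : Finset (Fin k) → ℝ}
    (h : ∀ K ∈ G, ∀ i ∈ K, Hor U s g (lam K) i) (e : ℝ) (he : 0 < e) :
    ∀ᶠ n in (U : Filter ℕ), ∀ K ∈ G, ∀ l ∈ gr F s K n,
      be (g n) l.1 ≠ 0 ∧ |sg (g n) l.1 - lam K| ≤ e := by
  have h1 : ∀ᶠ n in (U : Filter ℕ), ∀ K ∈ G, ∀ i ∈ K,
      be (g n) (s n i) ≠ 0 ∧ |sg (g n) (s n i) - lam K| ≤ e := by
    rw [Filter.eventually_all_finset]
    intro K hK
    rw [Filter.eventually_all_finset]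
    intro i hi
    exact hor_iff.mp (h K hK i hi) e he
  filter_upwards [h1] with n hn K hK l hl
  obtain ⟨_, i, hi, h2⟩ := mem_gr.mp hl
  rw [h2]
  exact hn K hK i hi

theorem hor_lines' {k : ℕ} {U : Ultrafilter ℕ} (F : ℕ → Finset (ℝ × ℝ)) {s : ℕ → Fin k → ℝ}
    {g : ℕ → Fr} {K : Finset (Fin k)} {lam : ℝ}
    (h : ∀ i ∈ K, Hor U s g lam i) (e : ℝ) (he : 0 < e) :
    ∀ᶠ n in (U : Filter ℕ), ∀ l ∈ gr F s K n,
      be (g n) l.1 ≠ 0 ∧ |sg (g n) l.1 - lam| ≤ e := by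
  have h1 : ∀ᶠ n in (U : Filter ℕ), ∀ i ∈ K,
      be (g n) (s n i) ≠ 0 ∧ |sg (g n) (s n i) - lam| ≤ e := by
    rw [Filter.eventually_all_finset]
    intro i hi
    exact hor_iff.mp (h i hi) e he
  filter_upwards [h1] with n hn l hl
  obtain ⟨_, i, hi, h2⟩ := mem_gr.mp hl
  rw [h2]
  exact hn i hi

theorem ver_lines {k : ℕ} {U : Ultrafilter ℕ} (F : ℕ → Finset (ℝ × ℝ)) {s : ℕ → Fin k → ℝ}
    {g : ℕ → Fr} {K : Finset (Fin k)} (h : ∀ i ∈ K, Ver U s g i) (e : ℝ) (he : 0 < e) :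
    ∀ᶠ n in (U : Filter ℕ), ∀ l ∈ gr F s K n,
      al (g n) l.1 ≠ 0 ∧ |rh (g n) l.1| ≤ e := by
  have h1 : ∀ᶠ n in (U : Filter ℕ), ∀ i ∈ K,
      al (g n) (s n i) ≠ 0 ∧ |rh (g n) (s n i)| ≤ e := by
    rw [Filter.eventually_all_finset]
    intro i hi
    exact ver_iff.mp (h i hi) e he
  filter_upwards [h1] with n hn l hl
  obtain ⟨_, i, hi, h2⟩ := mem_gr.mp hl
  rw [h2]
  exact hn i hi

theorem Sy.one {k : ℕ} {U : Ultrafilter ℕ} {F : ℕ → Finset (ℝ × ℝ)} {s : ℕ → Fin k → ℝ}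
    (h : Sy U F s) : ∀ᶠ n in (U : Filter ℕ), 1 ≤ (F n).card := h.inf 1

end Pool.Agent.Work.MP_b25393_ag.UU
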