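import Mathlib
import Pool.Agent.Work.MP_b25393_ag.UU.Base
import Pool.Agent.Work.MP_b25393_ag.U.Stmts

/-!
# Uniform version, part A: edges between double points

Every docstring contains the proof of its item. Every item may use all EARLIER statements of this file
and all statements `U.S_...` of the block `U` (they are proved) as hypotheses.
-/

set_option autoImplicit false

namespace Pool.Agent.Work.MP_b25393_ag.UU

open scoped Classical
open Pool.Agent.Work.MP_b25393_ag.U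

/-! ## A. Levels -/

/-- LVU. Over `x` the level `j` is at one ordinate only: if `y < y'` then every line counted in
`lo F (x, y) + on F (x, y)` (value `≤ y`) is counted in `lo F (x, y')` (value `< y'`), so
`j < lo y + on y ≤ lo y' ≤ j`. -/
def S_LVU : Prop := ∀ (F : Finset (ℝ × ℝ)) (j : ℕ) (x y y' : ℝ),
  lo F (x, y) ≤ j → j < lo F (x, y) + on F (x, y) → lo F (x, y') ≤ j →
  j < lo F (x, y') + on F (x, y') → y = y'

/-- LVC. The set of the `x` over which the line `l` is on the level `j` is closed.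
`lo F (x, val l x) = #{l' | val l' x < val l x}`; the set where this is `≥ j + 1` is open (finite
intersections of open conditions: union over the subsets `T ⊆ F` with `j + 1 ≤ |T|` of
`{x | ∀ l' ∈ T, val l' x < val l x}`). `lo + on = #{l' | val l' x ≤ val l x}`; the set where this is `≤ j` is
open (union over the `T ⊆ F` with `|F| ≤ |T| + j` of `{x | ∀ l' ∈ T, val l x < val l' x}`). -/
def S_LVC : Prop := ∀ (F : Finset (ℝ × ℝ)) (j : ℕ) (l : ℝ × ℝ), IsClosed {x : ℝ | Lv F j l x}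

/-- LVE. For `j < |F|` some line is on the level `j`. Among the values `y = val l x`, `l ∈ F`, with
`j < lo y + on y` (the maximal value is such a value) take the smallest `y`. If `lo y > j` there are smaller
values; for the largest smaller value `y'` one has `lo y' + on y' = lo y > j`: contradiction. -/
def S_LVE : Prop := ∀ (F : Finset (ℝ × ℝ)) (j : ℕ) (x : ℝ), j < F.card → ∃ l ∈ F, Lv F j l x

/-- LEV. If no vertex over `(a, b)` is on the level `j`, then one line is the level `j` over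
`[a, b]`. Take `x₀ ∈ (a, b)` and `l` on the level `j` over `x₀` (LVE). The set
`{x ∈ (a, b) | Lv F j l x}` is closed in `(a, b)` (LVC). It is open: if `Lv F j l x`, then
`on F (x, val l x) = 1` (else the point is a vertex on the level `j`), so `lo = j` there, and for `x'`
close to `x` the lines strictly below (above) `l` at `x` are strictly below (above) `l` at `x'`, so
`lo F (x', val l x') = j` and `on = 1`. `(a, b)` is connected, so the set is all of `(a, b)`;
by LVC it contains the closure `[a, b]`. -/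
def S_LEV : Prop := ∀ (F : Finset (ℝ × ℝ)) (j : ℕ) (a b : ℝ), a < b → j < F.card →
  (∀ v ∈ vts F, a < v.1 → v.1 < b → ¬ (lo F v ≤ j ∧ j < lo F v + on F v)) →
  ∃ l ∈ F, ∀ x, a ≤ x → x ≤ b → Lv F j l x

/-! ## B. Edges -/

/-- EDI. Interior of an edge. If a line `l ∈ F`, `l ≠ c`, meets `c` over `x ∈ (x₁, x₂)`, then
`(x, val c x)` is a vertex on `c` (`U.mem_vts`), so `x ∈ vab F c`: contradiction to `Nxt`. So
`val l - val c` has no zero on `(x₁, x₂)`; it is affine, so it has a constant sign (compare with the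
midpoint). -/
def S_EDI : Prop := ∀ (F : Finset (ℝ × ℝ)) (c : ℝ × ℝ) (x₁ x₂ : ℝ), c ∈ F →
  Nxt (vab F c) x₁ x₂ → ∀ x, x₁ < x → x < x₂ →
    on F (x, val c x) = 1 ∧ lo F (x, val c x) = rk F c (x₁, x₂) ∧
    ∀ l ∈ F, l ≠ c → val l x ≠ val c x ∧
      (val l x < val c x ↔ val l ((x₁ + x₂) / 2) < val c ((x₁ + x₂) / 2))

/-- EDL. Left end of an edge at a double point. The two lines through the point are `c` and `w ≠ c`
(`Finset.card_eq_two`); they cross at `x₁`, so `val w - val c` is affine, not constant (else `w = c`),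
with zero `x₁`: it has different signs on the two sides. The lines strictly below the point
`(x₁, val c x₁)` are, by EDI and continuity (a line `l ≠ c, w` does not meet `c` over `[x₁, x₂)`), exactly
the lines `l ≠ w` which are below `c` at the midpoint; so `rk` is `lo` if `w` is above `c` on the right of
`x₁`, and `lo + 1` otherwise. -/
def S_EDL : Prop := ∀ (F : Finset (ℝ × ℝ)) (c : ℝ × ℝ) (x₁ x₂ : ℝ), c ∈ F →
  Nxt (vab F c) x₁ x₂ → on F (x₁, val c x₁) = 2 →
  ∃ w ∈ F, w ≠ c ∧ val w x₁ = val c x₁ ∧ (∀ l ∈ F, val l x₁ = val c x₁ → l = c ∨ l = w) ∧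
    (((∀ x, x₁ < x → val c x < val w x) ∧ (∀ x, x < x₁ → val w x < val c x) ∧
        lo F (x₁, val c x₁) = rk F c (x₁, x₂)) ∨
      ((∀ x, x₁ < x → val w x < val c x) ∧ (∀ x, x < x₁ → val c x < val w x) ∧
        lo F (x₁, val c x₁) + 1 = rk F c (x₁, x₂)))

/-- EDR. Right end of an edge at a double point: mirror image of EDL. -/
def S_EDR : Prop := ∀ (F : Finset (ℝ × ℝ)) (c : ℝ × ℝ) (x₁ x₂ : ℝ), c ∈ F →
  Nxt (vab F c) x₁ x₂ → on F (x₂, val c x₂) = 2 →
  ∃ w ∈ F, w ≠ c ∧ val w x₂ = val c x₂ ∧ (∀ l ∈ F, val l x₂ = val c x₂ → l = c ∨ l = w) ∧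
    (((∀ x, x < x₂ → val c x < val w x) ∧ (∀ x, x₂ < x → val w x < val c x) ∧
        lo F (x₂, val c x₂) = rk F c (x₁, x₂)) ∨
      ((∀ x, x < x₂ → val w x < val c x) ∧ (∀ x, x₂ < x → val c x < val w x) ∧
        lo F (x₂, val c x₂) + 1 = rk F c (x₁, x₂)))

/-- ZER. Zeros of a gap. (1) If the gap `r` is closed at `x`, the point `(x, y)` with
`lo < r < lo + on` has `on ≥ 2`, so it is a vertex. (2) If `v` is a chain vertex of the gap `r`, the gap is
open at `v.1`: for `y < v.2` one has `lo y + on y ≤ lo v`, for `y > v.2` one has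
`lo v + on v ≤ lo y`, so with `lo v + on v = r` or `lo v = r` no `y` has `lo y < r < lo y + on y` (for
`y = v.2` it is clear). (3) Over the interior of an edge of rank `ρ` the gaps `ρ` and `ρ + 1` are open:
`c` has `lo = ρ`, `on = 1` there (EDI), and the argument of (2) applies to the point `(x, val c x)`. -/
def S_ZER : Prop := ∀ (F : Finset (ℝ × ℝ)) (r : ℕ),
  (∀ x, Cl F r x → x ∈ zer F r) ∧ (∀ v ∈ chn F r, v.1 ∉ zer F r) ∧
  (∀ c ∈ F, ∀ x₁ x₂, Nxt (vab F c) x₁ x₂ → ∀ x, x₁ < x → x < x₂ →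
    (r = rk F c (x₁, x₂) ∨ r = rk F c (x₁, x₂) + 1) → x ∉ zer F r)

/-- DBP. Both other lines above, or both below. If `lo = ρ` at both ends, both ends are chain vertices of
the gap `ρ`, different, and the gap `ρ` is open between them (ZER 3). If `lo + 1 = ρ` at both ends, then
`lo + on = ρ + 1` at both ends, so both are chain vertices of the gap `ρ + 1`. (The vertices are
in `vts F` by `U.mem_vts`.) -/
def S_DBP : Prop := ∀ (F : Finset (ℝ × ℝ)) (c : ℝ × ℝ) (x₁ x₂ : ℝ), c ∈ F →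
  Nxt (vab F c) x₁ x₂ → on F (x₁, val c x₁) = 2 → on F (x₂, val c x₂) = 2 →
  (lo F (x₁, val c x₁) = rk F c (x₁, x₂) → lo F (x₂, val c x₂) = rk F c (x₁, x₂) →
    Bad F (rk F c (x₁, x₂)) (x₁, val c x₁)) ∧
  (lo F (x₁, val c x₁) + 1 = rk F c (x₁, x₂) → lo F (x₂, val c x₂) + 1 = rk F c (x₁, x₂) →
    Bad F (rk F c (x₁, x₂) + 1) (x₁, val c x₁))

/-- DBX. The other line `w` at `v₁ = (x₁, val c x₁)` is above `c` on the right of `x₁`, the other line
`w'` at `v₂ = (x₂, val c x₂)` is below `c` on the left of `x₂` (EDL, EDR; `lo v₁ = ρ`,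
`lo v₂ = ρ - 1`). Then `v₁` is bad for the gap `ρ` or `v₂` is bad for the gap `ρ + 1`. Proof.
Suppose not. `v₁ ∈ chn F ρ` (`lo = ρ`), `v₂ ∈ chn F (ρ + 1)` (`lo + on = ρ + 1`).
(a) Gap `ρ`. As `v₁` is not bad, there are zeros of the gap on its left; let `z₀` be the largest zero
`< x₁`. `x₂` is a zero (`lo v₂ < ρ < lo v₂ + 2`). There is no zero in `(z₀, x₂)` (choice of `z₀`; ZER 2
for `x₁`; ZER 3). So no chain vertex `v ≠ v₁` of the gap `ρ` is over `(z₀, x₂)` (`v₁` is not
bad: there would be a zero between `v` and `v₁`).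
(a1) No vertex over `(z₀, x₂)` is on the level `ρ - 1`: such a vertex has `lo ≤ ρ - 1`, `ρ ≤ lo + on`; the gap `ρ` is
open over it, so `lo + on = ρ`, a chain vertex different from `v₁` (`lo v₁ = ρ`). By LEV one line `l` is on the
level `ρ - 1` over `[z₀, x₂]`. At `x₂` also `v₂` is on the level `ρ - 1`, so `l` passes
through `v₂` (LVU) and `l = c` or `l = w'`; `l ≠ c` since `c` has `lo = ρ` over `(x₁, x₂)` (EDI). So
`l = w'`.
(a2) No vertex over `(z₀, x₁)` is on the level `ρ` (the gap `ρ` is open, so it would have `lo = ρ`, a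
chain vertex). By LEV one line `m` is on the level `ρ` over `[z₀, x₁]`, passes through `v₁` (LVU), so
`m = c` or `m = w`. `m ≠ c`: on the left of `x₁`, `w` is below `c`, and near `x₁` so are the `ρ` lines
strictly below `v₁` (continuity), so `lo F (x, val c x) ≥ ρ + 1` for some `x ∈ (z₀, x₁)`. So `m = w`.
(a3) At `z₀` the gap `ρ` is closed: some `y` has `lo y < ρ < lo y + on y`, so it is on the levels `ρ - 1` and `ρ`;
by LVU `val w' z₀ = y = val w z₀`.
(b) Gap `ρ + 1`, symmetric: let `z₁` be the smallest zero `> x₂` of the gap `ρ + 1`; `x₁` is a zero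
(`lo v₁ = ρ`, `on v₁ = 2`), no zero in `(x₁, z₁)`. (b1) The level `ρ + 1` over `[x₁, z₁]` is one line, through `v₁`, not
`c`, so it is `w`. (b2) The level `ρ` over `[x₂, z₁]` is one line, through `v₂`; it is not `c`, since on the right
of `x₂` the line `w'` is above `c`, and near `x₂` so are all the lines strictly above `v₂`, so
`lo + on` at `(x, val c x)` is `≤ ρ` there (the `ρ - 1` lines strictly below `v₂` and `c`). So it is `w'`. (b3) At
`z₁`: `val w z₁ = val w' z₁`.
(c) `w ≠ w'` (above and below `c` over `(x₁, x₂)`) and they meet over `z₀ < z₁`: impossible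
(`U.slope_ne`, `U.eq_crs`). -/
def S_DBX : Prop := ∀ (F : Finset (ℝ × ℝ)) (c : ℝ × ℝ) (x₁ x₂ : ℝ), c ∈ F →
  Nxt (vab F c) x₁ x₂ → on F (x₁, val c x₁) = 2 → on F (x₂, val c x₂) = 2 →
  1 ≤ rk F c (x₁, x₂) → rk F c (x₁, x₂) + 2 ≤ F.card →
  lo F (x₁, val c x₁) = rk F c (x₁, x₂) → lo F (x₂, val c x₂) + 1 = rk F c (x₁, x₂) →
  Bad F (rk F c (x₁, x₂)) (x₁, val c x₁) ∨ Bad F (rk F c (x₁, x₂) + 1) (x₂, val c x₂)

/-- DBY. Mirror image of DBX: `w` below `c` on the right of `x₁` (`lo v₁ = ρ - 1`), `w'` above `c` on the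
left of `x₂` (`lo v₂ = ρ`). `v₁ ∈ chn F (ρ + 1)`, `v₂ ∈ chn F ρ`. Suppose neither is bad. Gap `ρ + 1`:
zeros `z₀ < x₁` (the largest) and `x₂` (`lo v₂ = ρ < ρ + 1 < ρ + 2`), none in `(z₀, x₂)`; the level `ρ + 1` over
`[z₀, x₂]` is one line, through `v₂`, not `c`, so `w'`; the level `ρ` over `[z₀, x₁]` is
one line, through `v₁`, not `c` (on the left of `x₁`, `w` is above `c`, so `lo + on ≤ ρ` at `c` near `x₁`),
so `w`; at `z₀` they meet. Gap `ρ`: zeros `x₁` and `z₁ > x₂` (the smallest), none between; the level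
`ρ - 1` over `[x₁, z₁]` is one line, through `v₁`, not `c`, so `w`; the level `ρ` over `[x₂, z₁]`
is one line, through `v₂`, not `c` (on the right of `x₂`, `w'` is below `c`, so `lo ≥ ρ + 1` at `c` near
`x₂`), so `w'`; they meet over `z₁`. So `w`, `w'` (on different sides of `c` over `(x₁, x₂)`) meet twice. -/
def S_DBY : Prop := ∀ (F : Finset (ℝ × ℝ)) (c : ℝ × ℝ) (x₁ x₂ : ℝ), c ∈ F →
  Nxt (vab F c) x₁ x₂ → on F (x₁, val c x₁) = 2 → on F (x₂, val c x₂) = 2 →
  1 ≤ rk F c (x₁, x₂) → rk F c (x₁, x₂) + 2 ≤ F.card →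
  lo F (x₁, val c x₁) + 1 = rk F c (x₁, x₂) → lo F (x₂, val c x₂) = rk F c (x₁, x₂) →
  Bad F (rk F c (x₁, x₂) + 1) (x₁, val c x₁) ∨ Bad F (rk F c (x₁, x₂)) (x₂, val c x₂)

/-- DDB. From EDL, EDR (the four cases), DBP, DBX, DBY. -/
def S_DDB : Prop := ∀ (F : Finset (ℝ × ℝ)) (c : ℝ × ℝ) (x₁ x₂ : ℝ), c ∈ F →
  Nxt (vab F c) x₁ x₂ → on F (x₁, val c x₁) = 2 → on F (x₂, val c x₂) = 2 →
  1 ≤ rk F c (x₁, x₂) → rk F c (x₁, x₂) + 2 ≤ F.card →
  ∃ r, (r = rk F c (x₁, x₂) ∨ r = rk F c (x₁, x₂) + 1) ∧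
    (Bad F r (x₁, val c x₁) ∨ Bad F r (x₂, val c x₂))

/-- BDR. One gap. Let `z₁ < .. < z_p` be the zeros of the gap `r` (`p = |zer|`) and `m_i ≥ 1` (`U.S_CHN`; the gap
is open between consecutive zeros by ZER 1) the number of chain vertices strictly between `z_i` and
`z_{i+1}`. If `m_i = 1` this chain vertex is not bad (zeros on both sides, every other chain vertex
is separated from it by `z_i` or `z_{i+1}`). So with `g` the number of chain vertices which are not bad:
`g ≥ #{i | m_i = 1} ≥ 2 (p - 1) - ∑ m_i ≥ 2 (p - 1) - |chn|`, and the number of bad ones is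
`|chn| - g ≤ 2 |chn| - 2 p + 2`. If `p ≤ 1` the claim is clear. -/
def S_BDR : Prop := ∀ (F : Finset (ℝ × ℝ)) (r : ℕ), 1 ≤ r → r < F.card →
  ((chn F r).filter fun v => Bad F r v).card + 2 * (zer F r).card ≤ 2 * (chn F r).card + 2

/-- BDS. Sum of BDR over `1 ≤ r < N = |F|`. `∑ |chn F r| ≤ 2 |vts F|` (a vertex is in `chn` for at most two `r`).
`∑_r |zer F r| = ∑_x #{r | Cl F r x} = ∑_x (N - nv F x) = ∑_x ∑_{v.1 = x} (on v - 1)` over the
abscissae `x` of the vertices (`U.S_CNT`), `= ∑_{v ∈ vts} (on v - 1)`. So the sum of the bad ones is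
`≤ 2 (2 |vts| - ∑ (on v - 1)) + 2 (N - 1) = 2 (DD F + N - 1)`. (`N = 0` is trivial.) -/
def S_BDS : Prop := ∀ F : Finset (ℝ × ℝ),
  ((∑ r ∈ Finset.Ico 1 F.card, ((chn F r).filter fun v => Bad F r v).card : ℕ) : ℤ) ≤
    2 * (DD F + F.card)

/-- EG0. A line `c` has at most one edge of rank 0 (or of rank `N - 1`) in `dde F`. Let
`(x₁, x₂)` and `(x₃, x₄)` be two such edges of `c`, `x₂ ≤ x₃` (consecutive pairs). Rank 0: by EDR at `x₂`
(`lo + 1 = 0` is impossible) the other line `w` at `v₂` is below `c` on the right of `x₂`, also over the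
midpoint of `(x₃, x₄)`: so its rank is `≥ 1`. Rank `N - 1`: the other line `w` is below `c` over
`(x₁, x₂)` (all lines `≠ c` are), so above `c` on the right of `x₂`, and `lo ≤ N - 2` over `(x₃, x₄)`. So
`e ↦ e.1` is injective on both sets. -/
def S_EG0 : Prop := ∀ F : Finset (ℝ × ℝ),
  ((dde F).filter fun e => rk F e.1 e.2 = 0).card ≤ F.card ∧
  ((dde F).filter fun e => rk F e.1 e.2 + 1 = F.card).card ≤ F.card

/-- EGI. Two edges with the same left end (point) and the same rank are equal. For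
`x ∈ (x₁, min x₂ x₂')` both lines have `lo = ρ`, `on = 1` (EDI), so `val c x = val c' x` (LVU); they also agree at
`x₁`, so `c = c'` (two common points), and then `x₂ = x₂'` (`Nxt`). Same for the right end. -/
def S_EGI : Prop := ∀ F : Finset (ℝ × ℝ),
  (∀ c ∈ F, ∀ c' ∈ F, ∀ x₁ x₂ x₂' : ℝ, Nxt (vab F c) x₁ x₂ → Nxt (vab F c') x₁ x₂' →
    val c x₁ = val c' x₁ → rk F c (x₁, x₂) = rk F c' (x₁, x₂') → c = c' ∧ x₂ = x₂') ∧
  (∀ c ∈ F, ∀ c' ∈ F, ∀ x₁ x₁' x₂ : ℝ, Nxt (vab F c) x₁ x₂ → Nxt (vab F c') x₁' x₂ →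
    val c x₂ = val c' x₂ → rk F c (x₁, x₂) = rk F c' (x₁', x₂) → c = c' ∧ x₁ = x₁')

/-- EDG. The edge lemma. The rank `ρ` of an edge is `≤ N - 1` (`c` is not below itself), `N = |F|`. The
edges of `dde F` with `ρ = 0` or `ρ = N - 1`: at most `2 N` (EG0). Every other edge
`e = (c, (x₁, x₂))` gives by DDB a pair `(r, v)`, `r ∈ {ρ, ρ + 1} ⊆ Ico 1 N`, `v` one of its two ends,
`Bad F r v`. For `v = v₁` this map is injective: `lo v ∈ {ρ, ρ - 1}` (EDL) and `v ∈ chn F r`
means `r = lo v` or `r = lo v + 2`; if `lo v = ρ` then `r = ρ = lo v`; if `lo v = ρ - 1` then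
`r = ρ + 1 = lo v + 2`; so `ρ` is determined by `(r, v)` and EGI applies. Same for `v = v₂`. So there are at
most `2 ∑_r #{bad} ≤ 4 (DD F + N)` of them (BDS). -/
def S_EDG : Prop := ∀ F : Finset (ℝ × ℝ),
  ((dde F).card : ℤ) ≤ 4 * (DD F + F.card) + 2 * F.card

/-! ## C. Counting -/

/-- CTL. Let `P` be the set of the abscissae of vertices on `c` in `I`. `D ⊆ P`: those of multiplicity
`≥ 3`. `t` := number of lines of `F \ V` meeting `c` in `I`, `κ` := number of pairs in the last term,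
`v` := left side. (1) `v ≤ |P| + κ`: over `x ∈ P` let `v_x` be the number of lines of `V`, `≠ c`, through
`(x, val c x)`; `v_x ≤ 1 + v_x (v_x - 1)` and the last product counts the pairs at `x`. (2) `|D| ≤ t + κ`: over
`x ∈ D` there are two different lines `≠ c`; if one is not in `V` it is counted in `t`, otherwise the
pair is counted in `κ` (different `x`, different lines resp. pairs: two lines meet at most once, `U.eq_crs`). (3) `I` is
order connected, so the elements of `P` are consecutive elements of `vab F c` and at least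
`|P| - 1` pairs of `nxt (vab F c)` have both ends in `P`; each `x ∈ D` is an end of at most two of them. So the
number of pairs with both ends double is `≥ |P| - 1 - 2 |D| ≥ v - 1 - 2 t - 3 κ`. -/
def S_CTL : Prop := ∀ (F V : Finset (ℝ × ℝ)) (c : ℝ × ℝ) (I : Set ℝ), c ∈ F → V ⊆ F →
  I.OrdConnected →
  (V.filter fun l => mt I c l).card ≤
    ((nxt (vab F c)).filter fun q =>
      on F (q.1, val c q.1) = 2 ∧ on F (q.2, val c q.2) = 2).card + 1 +
    2 * ((F \ V).filter fun l => mt I c l).card +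
    3 * ((V ×ˢ V).filter fun q => q.1 ≠ q.2 ∧ q.1 ≠ c ∧ q.2 ≠ c ∧
      ∃ x ∈ I, val q.1 x = val c x ∧ val q.2 x = val c x).card

/-- ML. Sum of CTL over the lines `c ∈ H`, with `I_c = {x | ∃ P ∈ Q c, pt g P = (x, val c x)}`; this is
order connected since `Q c` is convex and `pt g` is affine (the segment between two points of
`c` is on `c`), and `mt I_c c l` iff `mc g (Q c) c l` (`mem_line`). The sets of edges of different `c` are
disjoint parts of `dde F`. A pair `(l, m)` of different lines is counted in the last term of CTL only for lines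
`c` through the common point of `l` and `m` (unique, `U.eq_crs'`); these have
different slopes (`U.slope_ne`), so they are at most `k`. -/
def S_ML : Prop := ∀ (k : ℕ) (s : Fin k → ℝ) (F V H : Finset (ℝ × ℝ)) (g : Fr)
  (Q : ℝ × ℝ → Set (ℝ × ℝ)) (v₀ : ℕ), (∀ l ∈ F, ∃ i, l.1 = s i) → V ⊆ F → H ⊆ F →
  (∀ c ∈ H, Convex ℝ (Q c)) → (∀ c ∈ H, v₀ ≤ (V.filter fun l => mc g (Q c) c l).card) →
  H.card * v₀ ≤ (dde F).card + H.card +
    2 * ∑ c ∈ H, ((F \ V).filter fun l => mc g (Q c) c l).card +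
    3 * k * ((V ×ˢ V).filter fun q => q.1 ≠ q.2 ∧ ∃ c ∈ H, ∃ P ∈ Q c,
      onl g c P ∧ onl g q.1 P ∧ onl g q.2 P).card

/-- MLS. Sequence form of ML. Suppose every `c ∈ H n` meets in `Q n c` at least `a |F|` lines of `V n`
and at most `b |F|` lines outside `V n ∪ G n`, `2 b < a`, and that there are `o(|F|²)` meetings of
lines of `H n` with lines of `G n` and of pairs of `V n` on a line of `H n`. Then `|H n| = o(|F|)`. Proof: ML
with `v₀ = ⌈a |F|⌉`, and
`∑_{c ∈ H} #{l ∈ F \ V, mc} ≤ b |F| |H| + #{(c, l) ∈ H × G, mc}`; so for every `e > 0`, eventually,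
`(a - 2 b) |F| |H| ≤ |H| + e |F|² + 2 e |F|² + 3 k e |F|² ≤ (4 + 3 k) e |F|²` (`|H| ≤ |F| ≤ e |F|²` for
large `|F|`). -/
def S_MLS : Prop := ∀ (k : ℕ) (U : Ultrafilter ℕ) (F : ℕ → Finset (ℝ × ℝ)) (s : ℕ → Fin k → ℝ)
  (g : ℕ → Fr) (H V G : ℕ → Finset (ℝ × ℝ)) (Q : ℕ → ℝ × ℝ → Set (ℝ × ℝ)) (a b : ℝ),
  Sy U F s → 0 < a → 2 * b < a → (∀ n, V n ⊆ F n) → (∀ n, H n ⊆ F n) →
  (∀ n, ∀ c ∈ H n, Convex ℝ (Q n c)) →
  (∀ᶠ n in (U : Filter ℕ), ∀ c ∈ H n,
    a * ((F n).card : ℝ) ≤ (((V n).filter fun l => mc (g n) (Q n c) c l).card : ℝ)) →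
  (∀ᶠ n in (U : Filter ℕ), ∀ c ∈ H n,
    (((F n \ (V n ∪ G n)).filter fun l => mc (g n) (Q n c) c l).card : ℝ) ≤
      b * ((F n).card : ℝ)) →
  (Neg2 U F fun n => ((H n ×ˢ G n).filter fun q => mc (g n) (Q n q.1) q.1 q.2).card) →
  (Neg2 U F fun n => ((V n ×ˢ V n).filter fun q => q.1 ≠ q.2 ∧ ∃ c ∈ H n, ∃ P ∈ Q n c,
    onl (g n) c P ∧ onl (g n) q.1 P ∧ onl (g n) q.2 P).card) →
  Neg U F fun n => (H n).card

end Pool.Agent.Work.MP_b25393_ag.UU
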