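import Mathlib
import Pool.Agent.Work.MP_b25393_ag.UU.StmtsA

/-!
# Uniform version, part B: tools, two bundles, strips

Every docstring contains the proof of its item. Every item may use all EARLIER statements of
`StmtsA.lean`, of this file, and all statements `U.S_...` as hypotheses. `Λ` always denotes a real
`≥ 1 + |lam K|` for all the (finitely many) blocks `K` concerned; `ε` a small positive number, so that for
large `n` (along `U`) all lines of horizontal blocks `K` have `be ≠ 0`, `|sg - lam K| ≤ ε` (`hor_lines`), all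
lines of vertical blocks `al ≠ 0`, `|rh| ≤ ε` (`ver_lines`).
-/

set_option autoImplicit false

namespace Pool.Agent.Work.MP_b25393_ag.UU

open scoped Classical
open Pool.Agent.Work.MP_b25393_ag.U

/-! ## D. Tools -/

/-- SPT. Mass has support. Otherwise every `t ∈ Q` has `η_t > 0` such that the number of lines with
position in `[t - η_t, t + η_t]` is not `Pos`, so `Neg` (`pos_of_not_neg`). Cover `Q` by finitely many open
intervals; the sum of the numbers is `Neg` (`Neg.sum`, `Neg.mono`): contradiction to `not_neg_of_pos`. -/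
def S_SPT : Prop := ∀ (U : Ultrafilter ℕ) (F G : ℕ → Finset (ℝ × ℝ)) (p : ℕ → ℝ × ℝ → ℝ)
  (Q : Set ℝ), (∀ᶠ n in (U : Filter ℕ), 1 ≤ (F n).card) → IsCompact Q →
  (Pos U F fun n => ((G n).filter fun l => p n l ∈ Q).card) → ∃ t ∈ Q, Spt U F G p t

/-- SCL. The support is closed (`Pos.mono` for `[t' - η/2, t' + η/2] ⊆ [t - η, t + η]`). -/
def S_SCL : Prop := ∀ (U : Ultrafilter ℕ) (F G : ℕ → Finset (ℝ × ℝ)) (p : ℕ → ℝ × ℝ → ℝ),
  IsClosed {t : ℝ | Spt U F G p t}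

/-- ATL. Without atoms on the compact `Q` all short windows at points of `Q` are light. For `t ∈ Q` and
`e > 0` there is `η_t > 0` with `cn (t - η_t) (t + η_t) < e |F n|` along `U` (negation of `Atm`, ultrafilter).
Cover `Q` by finitely many intervals `(t_j - η_j/2, t_j + η_j/2)`, `η = min η_j / 2`. (`Q` empty: trivial.) -/
def S_ATL : Prop := ∀ (U : Ultrafilter ℕ) (F G : ℕ → Finset (ℝ × ℝ)) (p : ℕ → ℝ × ℝ → ℝ)
  (Q : Set ℝ), IsCompact Q → (∀ t ∈ Q, ¬ Atm U F G p t) → ∀ e : ℝ, 0 < e →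
  ∃ η : ℝ, 0 < η ∧ ∀ᶠ n in (U : Filter ℕ), ∀ t ∈ Q,
    (cn G p (t - η) (t + η) n : ℝ) ≤ e * ((F n).card : ℝ)

/-- ANN. Small punctured neighbourhoods are light. Otherwise for some `e > 0`, for every `κ > 0` there
is `r < κ` with more than `e |F n|` lines in the annulus `r < |p - t| ≤ κ` along `U`. Take
`κ₀ = 1 > r₀ = κ₁ > r₁ = κ₂ ..`: `m` disjoint annuli with `m e > 1`: contradiction to
`G n ⊆ F n`. -/
def S_ANN : Prop := ∀ (U : Ultrafilter ℕ) (F G : ℕ → Finset (ℝ × ℝ)) (p : ℕ → ℝ × ℝ → ℝ)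
  (t : ℝ), (∀ n, G n ⊆ F n) → ∀ e : ℝ, 0 < e → ∃ κ : ℝ, 0 < κ ∧ ∀ r : ℝ, 0 < r → r < κ →
    ∀ᶠ n in (U : Filter ℕ), (((G n).filter fun l => r < |p n l - t| ∧ |p n l - t| ≤ κ).card : ℝ) ≤
      e * ((F n).card : ℝ)

/-- FTL. Finite tails are light. Otherwise for some `e > 0`, for every `T > 0` there is `T' > T` with more
than `e |F n|` lines with `T ≤ |p| ≤ T'` along `U`; take disjoint such ranges `T_{i+1} = T_i' + 1`. -/
def S_FTL : Prop := ∀ (U : Ultrafilter ℕ) (F G : ℕ → Finset (ℝ × ℝ)) (p : ℕ → ℝ × ℝ → ℝ),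
  (∀ n, G n ⊆ F n) → ∀ e : ℝ, 0 < e → ∃ T : ℝ, 0 < T ∧ ∀ T' : ℝ, T < T' →
    ∀ᶠ n in (U : Filter ℕ), (((G n).filter fun l => T ≤ |p n l| ∧ |p n l| ≤ T').card : ℝ) ≤
      e * ((F n).card : ℝ)

/-- DIA. Diagonal sequence. `J n` := the largest `j ≤ n` such that `P i n` for all `i ≤ j` (0 if there is
none). -/
def S_DIA : Prop := ∀ (U : Ultrafilter ℕ) (P : ℕ → ℕ → Prop),
  (∀ m : ℕ, ∀ᶠ n in (U : Filter ℕ), m ≤ n) → (∀ j, ∀ᶠ n in (U : Filter ℕ), P j n) →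
  ∃ J : ℕ → ℕ, (∀ m : ℕ, ∀ᶠ n in (U : Filter ℕ), m ≤ J n) ∧
    ∀ᶠ n in (U : Filter ℕ), P (J n) n

/-- PRF. No atoms near 0: the support has points outside every finite set. Let
`a |F| ≤ cn (-1/4) (1/4)`. For `x ∈ X`, `|x| < 1/2`, `¬ Atm x` gives `ρ_x > 0` with
`cn (x - ρ_x) (x + ρ_x) < a / (2 (|X| + 1)) |F|` along `U`; for `|x| ≥ 1/2` let `ρ_x = 1/8`. The lines with position in
`Q = [-1/4, 1/4] \ ⋃ (x - ρ_x, x + ρ_x)` (compact) are at least `(a/2) |F|`. Apply SPT. -/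
def S_PRF : Prop := ∀ (U : Ultrafilter ℕ) (F G : ℕ → Finset (ℝ × ℝ)) (p : ℕ → ℝ × ℝ → ℝ),
  (∀ᶠ n in (U : Filter ℕ), 1 ≤ (F n).card) → Spt U F G p 0 →
  (∀ t, |t| < 1 / 2 → ¬ Atm U F G p t) → ∀ X : Finset ℝ,
    ∃ x, |x| ≤ 1 / 4 ∧ x ∉ X ∧ Spt U F G p x

/-- TOP. Top of the support. If for no `T` the number of lines with `|p| ≤ T` is `Pos`, the first
alternative holds. Otherwise there is a support point (SPT). A support point `t` with `|t| > T₀` is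
impossible (a window around it would be `Pos`, but it is contained in `T₀ ≤ |p| ≤ T'`). So the support is
a non empty compact set (SCL); let `τ` be its maximum. For `t > τ`, `T`: if the number of lines
with position in `[t, T]` were `Pos`, SPT would give a support point `≥ t`. -/
def S_TOP : Prop := ∀ (U : Ultrafilter ℕ) (F G : ℕ → Finset (ℝ × ℝ)) (p : ℕ → ℝ × ℝ → ℝ)
  (T₀ : ℝ), (∀ᶠ n in (U : Filter ℕ), 1 ≤ (F n).card) → (∀ T' : ℝ, T₀ < T' →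
    Neg U F fun n => ((G n).filter fun l => T₀ ≤ |p n l| ∧ |p n l| ≤ T').card) →
  (∀ T : ℝ, Neg U F fun n => ((G n).filter fun l => |p n l| ≤ T).card) ∨
  ∃ τ : ℝ, Spt U F G p τ ∧ ∀ t T : ℝ, τ < t → Neg U F (cn G p t T)

/-! ## E. Quartets of slopes -/

/-- FSY. Let `D x y = |s x - s y|`. From `(s i - s j)(s i' - s a) - (s i - s a)(s i' - s j) =
(s i - s i')(s a - s j)` (check by `ring`, up to the sign of the right side) and `D i i' * D j a ≤ e D i j * D i' a` one gets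
`(1 - e) D i j * D i' a ≤ D i a * D i' j`, so `D i i' * D j a ≤ (e / (1 - e)) D i a * D i' j`. -/
def S_FSY : Prop := ∀ (k : ℕ) (U : Ultrafilter ℕ) (s : ℕ → Fin k → ℝ) (i i' j a : Fin k),
  Far U s i i' j a → Far U s i i' a j

/-- FTR. With `D` as in FSY: `D j b * D i a ≤ D j i * D b a + D j a * D b i` (Ptolemy:
`(j - b)(i - a)` is `±(j - i)(b - a) ± (j - a)(b - i)`). Times `D i i'`:
`D i i' * D j b * D i a ≤ 2 e D i j * D i b * D i' a`, and `(1 - e) D i b * D i' a ≤ D i' b * D i a` as in FSY. Divide by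
`D i a ≠ 0`. -/
def S_FTR : Prop := ∀ (k : ℕ) (U : Ultrafilter ℕ) (s : ℕ → Fin k → ℝ) (i i' j a b : Fin k),
  (∀ᶠ n in (U : Filter ℕ), s n i ≠ s n a) → Far U s i i' j a → Far U s i i' b a →
  Far U s i i' j b

/-- FVH. A vertical pair and a horizontal pair are far. By `det_id`, `(s x - s y) * det = al y * be x -
al x * be y` (`det ≠ 0`). With `|be| ≤ ε |al|` for `i, i'` and `|al| ≤ ε |be|` for `j, a`:
`|W i i'| ≤ 2 ε |al i| |al i'|`, `|W j a| ≤ 2 ε |be j| |be a|`, `|W i j| ≥ (1 - ε²) |al i| |be j|`,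
`|W i' a| ≥ (1 - ε²) |al i'| |be a|`. -/
def S_FVH : Prop := ∀ (k : ℕ) (U : Ultrafilter ℕ) (s : ℕ → Fin k → ℝ) (g : ℕ → Fr)
  (i i' j a : Fin k), Ver U s g i → Ver U s g i' → Hor U s g 0 j → Hor U s g 0 a →
  Far U s i i' j a

/-- FGS. `sg x - sg y = ± (s x - s y) * det / (be x * be y)` (`det_id`) and, for `x` horizontal and `a`
vertical, `|(s x - s a) * det| = |al a * be x - al x * be a|` is between `(1 - ε²) |al a * be x|` and
`(1 + ε²) |al a * be x|`. Multiply the inequality of `Far` by `det²` and divide by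
`|al a * be i * be i' * be j|`. -/
def S_FGS : Prop := ∀ (k : ℕ) (U : Ultrafilter ℕ) (s : ℕ → Fin k → ℝ) (g : ℕ → Fr)
  (i i' j a : Fin k), Ver U s g a → Hor U s g 0 i → Hor U s g 0 i' → Hor U s g 0 j →
  Far U s i i' j a → ∀ e : ℝ, 0 < e → ∀ᶠ n in (U : Filter ℕ),
    |sg (g n) (s n i) - sg (g n) (s n i')| ≤ e * |sg (g n) (s n i) - sg (g n) (s n j)|

/-- FSG. Converse of FGS, same proof. -/
def S_FSG : Prop := ∀ (k : ℕ) (U : Ultrafilter ℕ) (s : ℕ → Fin k → ℝ) (g : ℕ → Fr)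
  (i i' j a : Fin k), Ver U s g a → Hor U s g 0 i → Hor U s g 0 i' → Hor U s g 0 j →
  (∀ e : ℝ, 0 < e → ∀ᶠ n in (U : Filter ℕ),
    |sg (g n) (s n i) - sg (g n) (s n i')| ≤ e * |sg (g n) (s n i) - sg (g n) (s n j)|) →
  Far U s i i' j a

/-! ## F. Two bundles -/

/-- TB1. One block against one block. MLS with `H` = lines of `K` with `|tt| ≤ 1/2`, `V` = lines of `A`,
`G` = lines of `K`, `Q n c = bx 1 1` (`convex_bx`). For `c ∈ H` every line `l` of `A` with `|vv l| ≤ 1/2` meets `c`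
in the box (`cross_hv`; `|rh|, |sg| ≤ 1/10`): at least `a |F|` lines (`cA`, with `η = 1/2`). Lines outside
`V ∪ G` meeting `c` in the box hit the box: `≤ (a/4) |F|` (`con`; `A ∪ uni {K}`). Meetings `H × G`:
`≤ crp (gr K)` (`crB`), pairs of `V` on `c`: `≤ crp (gr A)` (`crA`). So `|H|` is `Neg`, against `cB`
(`η = 1/2`, `not_neg_of_pos`). -/
def S_TB1 : Prop := ∀ (k : ℕ) (U : Ultrafilter ℕ) (F : ℕ → Finset (ℝ × ℝ)) (s : ℕ → Fin k → ℝ)
  (g : ℕ → Fr) (A K : Finset (Fin k)), Sy U F s → ¬ TB U F s g A {K}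

/-- TBE. An empty block can be dropped (`uni` does not change). -/
def S_TBE : Prop := ∀ (k : ℕ) (U : Ultrafilter ℕ) (F : ℕ → Finset (ℝ × ℝ)) (s : ℕ → Fin k → ℝ)
  (g : ℕ → Fr) (A : Finset (Fin k)) (B : Finset (Finset (Fin k))), TB U F s g A B →
  TB U F s g A (B.erase ∅)

/-- Swapped two bundles: the single block `A` is horizontal, the blocks of `V` are vertical. -/
structure TV {k : ℕ} (U : Ultrafilter ℕ) (F : ℕ → Finset (ℝ × ℝ)) (s : ℕ → Fin k → ℝ) (g : ℕ → Fr)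
    (A : Finset (Fin k)) (V : Finset (Finset (Fin k))) : Prop where
  dA : ∀ K ∈ V, Disjoint A K
  dB : ∀ K ∈ V, ∀ K' ∈ V, K ≠ K' → Disjoint K K'
  hor : ∀ i ∈ A, Hor U s g 0 i
  ver : ∀ K ∈ V, ∀ i ∈ K, Ver U s g i
  con : Neg U F fun n =>
    ((F n).filter fun l => l ∉ gr F s (A ∪ uni V) n ∧ hit (g n) 1 l).card
  crA : Neg2 U F fun n => crp (g n) 1 1 (gr F s A n)
  crB : ∀ K ∈ V, Neg2 U F fun n => crp (g n) 1 1 (gr F s K n)
  sep : ∀ K ∈ V, ∀ i ∈ K, ∀ i' ∈ K, ∀ j ∈ uni V, j ∉ K → ∀ a ∈ A, Far U s i i' j a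
  cA : Spt U F (gr F s A) (fun n => tt (g n)) 0
  cB : Spt U F (gr F s (uni V)) (fun n => vv (g n)) 0

/-- TBW. Exchange of the coordinates (`ver_swp`, `hor_swp`, `hit_swp`, `crp_swp`, `tt_swp`,
`vv_swp`). -/
def S_TBW : Prop := ∀ (k : ℕ) (U : Ultrafilter ℕ) (F : ℕ → Finset (ℝ × ℝ)) (s : ℕ → Fin k → ℝ)
  (g : ℕ → Fr) (A : Finset (Fin k)) (V : Finset (Finset (Fin k))), TV U F s g A V →
  TB U F s (fun n => cmp (g n) swp) A V

/-- CLUSTER. `Γ` is a set of at least two blocks of `B` whose slopes are `σ + lam K * d + o(d)` with different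
`lam K`; the slopes of the other blocks are at distance `≫ d` from `σ`; `d, σ → 0`. -/
structure Clu {k : ℕ} (U : Ultrafilter ℕ) (s : ℕ → Fin k → ℝ) (g : ℕ → Fr)
    (B Γ : Finset (Finset (Fin k))) (d σ : ℕ → ℝ) (lam : Finset (Fin k) → ℝ) : Prop where
  sub : Γ ⊆ B
  two : 2 ≤ Γ.card
  dpos : ∀ n, 0 < d n
  dz : ∀ e : ℝ, 0 < e → ∀ᶠ n in (U : Filter ℕ), d n ≤ e
  sz : ∀ e : ℝ, 0 < e → ∀ᶠ n in (U : Filter ℕ), |σ n| ≤ e
  hor : ∀ K ∈ Γ, ∀ i ∈ K, ∀ e : ℝ, 0 < e → ∀ᶠ n in (U : Filter ℕ),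
    |sg (g n) (s n i) - σ n - lam K * d n| ≤ e * d n
  lne : ∀ K ∈ Γ, ∀ K' ∈ Γ, K ≠ K' → lam K ≠ lam K'
  far : ∀ K ∈ B, K ∉ Γ → ∀ i ∈ K, ∀ M : ℝ, ∀ᶠ n in (U : Filter ℕ),
    M * d n ≤ |sg (g n) (s n i) - σ n|

/-- CLU. Closest cluster. Choose `i_K ∈ K` for `K ∈ B`; `A` is not empty (`cA`), let `a ∈ A`. For `K ≠ K'` the numbers
`sg i_K`, `sg i_K'` are different for large `n` (`det_id`, `inj`, `be ≠ 0`; `K`, `K'` disjoint). The pair
`(K₀, K₀')`, `K₀ ≠ K₀'`, for which `|sg i_K - sg i_K'|` is minimal can be chosen constant along `U` (finitely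
many pairs). Put `d := |sg i_K₀ - sg i_K₀'|` if this is not 0 and `d := 1` otherwise, `σ := sg i_K₀`,
`Γ := {K ∈ B | ∃ M, |sg i_K - σ| ≤ M d along U}`, and `lam K := ` limit along `U` of
`(sg i_K - σ) / d` for `K ∈ Γ` (bounded, so it exists). Then `K₀, K₀' ∈ Γ` and
`|lam K - lam K'| ≥ 1` for `K ≠ K'` in `Γ` (minimality). For `K ∉ Γ` and every `M`:
`|sg i_K - σ| > M d` along `U`. For `i ∈ K` and `K'' ≠ K`, `sep` and FGS for `(i, i_K, i_K'', a)` give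
`|sg i - sg i_K| ≤ e |sg i - sg i_K''|`, hence `|sg i - sg i_K| ≤ (e / (1 - e)) |sg i_K - sg i_K''|`. If
`K ∈ Γ` take `K'' ∈ {K₀, K₀'}`: the right side is `O(e) d`, which gives `hor`. If `K ∉ Γ` take `K'' = K₀`:
`|sg i - σ| ≥ |sg i_K - σ| - |sg i - sg i_K| ≥ |sg i_K - σ| / 2`, which gives `far`. `d → 0` and `σ → 0`
since all `sg → 0`. -/
def S_CLU : Prop := ∀ (k : ℕ) (U : Ultrafilter ℕ) (F : ℕ → Finset (ℝ × ℝ)) (s : ℕ → Fin k → ℝ)
  (g : ℕ → Fr) (A : Finset (Fin k)) (B : Finset (Finset (Fin k))), Sy U F s →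
  TB U F s g A B → 2 ≤ B.card → (∀ K ∈ B, K.Nonempty) →
  ∃ (Γ : Finset (Finset (Fin k))) (d σ : ℕ → ℝ) (lam : Finset (Fin k) → ℝ),
    Clu U s g B Γ d σ lam

/-- MRG. Merging. `g' n = cmp (g n) (hfr 0 0 η η 0)`, `B' = insert (uni Γ) (B \ Γ)`; `|B'| ≤ |B| - |Γ| + 1`,
`uni B' = uni B`. `ver`, `hor`: `ver_hfr`, `hor_hfr`. `con`, `crA`, `crB` for `K ∈ B \ Γ`: the box of `g'` is in
the box of `g` (`hit_hfr`, `crb_hfr`). `crB` for `uni Γ`: hypothesis. `sep` for `K ∈ B \ Γ`: from TB. `sep` for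
`uni Γ`: let `i ∈ K₁ ∈ Γ`, `i' ∈ K₂ ∈ Γ`, `j ∈ K₃ ∈ B \ Γ`: `|sg i - sg i'| ≤ C d` and
`|sg i - sg j| ≥ |sg j - σ| - |sg i - σ| ≥ M d` for every `M`; FSG. `cA`, `cB`: `vv' = vv / η`, `tt' = tt / η`
(`vv_hfr`, `tt_hfr`). -/
def S_MRG : Prop := ∀ (k : ℕ) (U : Ultrafilter ℕ) (F : ℕ → Finset (ℝ × ℝ)) (s : ℕ → Fin k → ℝ)
  (g : ℕ → Fr) (A : Finset (Fin k)) (B Γ : Finset (Finset (Fin k))) (d σ : ℕ → ℝ)
  (lam : Finset (Fin k) → ℝ) (η : ℝ), Sy U F s → TB U F s g A B → Clu U s g B Γ d σ lam →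
  0 < η → η ≤ 1 → (Neg2 U F fun n => crp (g n) η η (gr F s (uni Γ) n)) →
  ∃ (g' : ℕ → Fr) (B' : Finset (Finset (Fin k))), B'.card < B.card ∧ TB U F s g' A B'

/-- YST. The height of the strip. By `crB` the number of pairs of lines of one and the same block of `Γ` crossing in
the box `1/4` is `Neg2`; so (sum over the blocks) at least `e |F|²` pairs `(l, m)` of lines of different blocks of `Γ`
cross in this box. For such a pair `tt m - tt l = (sg l - sg m) X`, `|X| ≤ 1/4`, so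
`|tt m - tt l| ≤ C d` with a constant `C` (`Clu.hor`), and `|tt l| ≤ 1/4 + 1/8 ≤ 1/2`. So some `l` (of
`uni Γ`) with `|tt l| ≤ 1/2` has at least `e |F|` partners. `y₀ n := tt l`. (Choose `y₀ n = 0` if there
is no such `l`.) -/
def S_YST : Prop := ∀ (k : ℕ) (U : Ultrafilter ℕ) (F : ℕ → Finset (ℝ × ℝ)) (s : ℕ → Fin k → ℝ)
  (g : ℕ → Fr) (A : Finset (Fin k)) (B Γ : Finset (Finset (Fin k))) (d σ : ℕ → ℝ)
  (lam : Finset (Fin k) → ℝ), Sy U F s → TB U F s g A B → Clu U s g B Γ d σ lam →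
  (Pos2 U F fun n => crp (g n) (1 / 4) (1 / 4) (gr F s (uni Γ) n)) →
  ∃ (y₀ : ℕ → ℝ) (C : ℝ), (∀ n, |y₀ n| ≤ 1 / 2) ∧
    Pos U F fun n => ((gr F s (uni Γ) n).filter fun l => |tt (g n) l - y₀ n| ≤ C * d n).card

/-- STP. The strip. `g' n = cmp (g n) (hfr 0 (y₀ n) 1 (d n) (σ n))` with `y₀` of YST,
`V = insert A (B \ Γ)`, `|V| ≤ 1 + |B| - |Γ| < |B|`; `A` is not empty (`cA`), so `A ∉ B` (`dA`).
`hor` (`K ∈ Γ`): `sg' = (sg - σ) / d → lam K` (`sg_hfr`, `hor_iff`). `ver`: for `A`, `be' = be d`,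
`al' = al + be σ` (`ver_hfr` with `C = 1`); for `K ∈ B \ Γ`: `al' = al + be σ = -be (sg - σ)`, `be' = be d`, so
`|be'| ≤ e |al'|` iff `d ≤ e |sg - σ|`: `Clu.far`. `con`, `cr`: the point with new coordinates `(X, Y')`,
`|X| ≤ 3/4`, `|Y'| ≤ M`, has old coordinates `(X, y₀ + σ X + d Y')`, in the box for large `n`; the lines of
`A ∪ uni B` are those of `uni Γ ∪ uni V`. `sep`: for `K = A`: FVH (`j ∈ B \ Γ`, `a ∈ uni Γ` horizontal in the
frames `g`). For `K ∈ B \ Γ`, `i, i' ∈ K`, `a ∈ uni Γ` (so `a ∉ K`): if `j ∈ A`: `sep` of TB gives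
`Far i i' a j`, use FSY; if `j ∈ K' ∈ B \ Γ`, `K' ≠ K`: with `a₀ ∈ A`, `sep` of TB gives `Far i i' j a₀` and
`Far i i' a a₀`, use FTR. `cV`: `gr A ⊆ gr (uni V)` and `vv' = (vv + rh y₀) / (1 - rh σ)` (`vv_hfr`), so
`|vv'| ≤ η` if `|vv| ≤ η/2` and `n` is large. `mH`: YST, `tt' = (tt - y₀) / d`. -/
def S_STP : Prop := ∀ (k : ℕ) (U : Ultrafilter ℕ) (F : ℕ → Finset (ℝ × ℝ)) (s : ℕ → Fin k → ℝ)
  (g : ℕ → Fr) (A : Finset (Fin k)) (B Γ : Finset (Finset (Fin k))) (d σ : ℕ → ℝ)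
  (lam : Finset (Fin k) → ℝ), Sy U F s → TB U F s g A B → Clu U s g B Γ d σ lam →
  (Pos2 U F fun n => crp (g n) (1 / 4) (1 / 4) (gr F s (uni Γ) n)) →
  ∃ (g' : ℕ → Fr) (V : Finset (Finset (Fin k))), V.card < B.card ∧ ST U F s g' Γ V lam

/-! ## G. Strips without vertical atoms -/

/-- SXV. Without vertical atoms the vertical lines rarely cross. If `l ≠ m` in `gr (uni V)` cross at `P`, `|P.1| ≤ 3/8`,
`|P.2| ≤ M`, then `vv l = P.1 - rh l * P.2`, so `|vv l - vv m| ≤ 2 ε M` and `|vv l| ≤ 2/5` for small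
`ε`. ATL (`Q = [-2/5, 2/5]`): for every `e` and large `n` each `l` has at most `e |F|` such partners `m`. -/
def S_SXV : Prop := ∀ (k : ℕ) (U : Ultrafilter ℕ) (F : ℕ → Finset (ℝ × ℝ)) (s : ℕ → Fin k → ℝ)
  (g : ℕ → Fr) (G V : Finset (Finset (Fin k))) (lam : Finset (Fin k) → ℝ), Sy U F s →
  ST U F s g G V lam →
  (∀ p : ℝ, |p| < 1 / 2 → ¬ Atm U F (gr F s (uni V)) (fun n => vv (g n)) p) →
  ∀ M : ℝ, Neg2 U F fun n => crp (g n) (3 / 8) M (gr F s (uni V) n)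

/-- STT. Without vertical atoms there are no tails. Let `a |F| ≤ cn (gr (uni V)) vv (-1/4) (1/4)` (`cV`), and let `T`
be as in FTL for the lines of `gr (uni G)`, `p = tt`, `e = a/8`. Put `T₀ = T + 2 Λ`. Fix `K ∈ G`, `T' > T₀`. MLS with
`H` = lines of `K` with `T₀ ≤ |tt| ≤ T'`, `V` = lines of `uni V`, `G` = lines of `K`,
`Q n c = bx (3/8) M`, `M = T' + 2 Λ`. Every vertical line `l` with `|vv l| ≤ 1/4` meets `c ∈ H` in `Q`
(`cross_hv`): at least `a |F|`. A line outside `uni V` and `K` meeting `c` in `Q` at `P`: either it is not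
in `gr (uni G ∪ uni V)`: at most `(a/8) |F|` (`con`); or it is a line `l` of another block of `G`, and
`|tt l - tt c| ≤ (|sg l| + |sg c|) |P.1| ≤ 2 Λ`, so `T ≤ |tt l| ≤ T' + 2 Λ`: at most `(a/8) |F|`. So `b = a/4`. The
meetings `H × G` are at most `crp (g n) (3/4) M (gr K)` (`cr`), the pairs of `V` on `c` at most
`crp (g n) (3/8) M (gr (uni V))` (SXV). -/
def S_STT : Prop := ∀ (k : ℕ) (U : Ultrafilter ℕ) (F : ℕ → Finset (ℝ × ℝ)) (s : ℕ → Fin k → ℝ)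
  (g : ℕ → Fr) (G V : Finset (Finset (Fin k))) (lam : Finset (Fin k) → ℝ), Sy U F s →
  ST U F s g G V lam →
  (∀ p : ℝ, |p| < 1 / 2 → ¬ Atm U F (gr F s (uni V)) (fun n => vv (g n)) p) →
  ∃ T₀ : ℝ, 0 < T₀ ∧ ∀ K ∈ G, ∀ T' : ℝ, T₀ < T' → Neg U F fun n =>
    ((gr F s K n).filter fun l => T₀ ≤ |tt (g n) l| ∧ |tt (g n) l| ≤ T').card

/-- SNB. The small box at a top point. `x` is a support point of the vertical lines, `τ` of the lines of `K ∈ G`, the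
point `(x, y)`, `y = τ + lam K * x`, is above all other blocks of `G` in the sense that for some
`γ > 0` the lines of `K' ≠ K` with `y - lam K' * x - γ ≤ tt ≤ y - lam K' * x + γ` are `Neg`. Then
there is TB with one block. Frame `g' n = cmp (g n) (hfr x y η η (lam K * η))`, `0 < η` small
(`η ≤ 1/8`, `(2 Λ + 1) η ≤ γ/2`), `A := uni V`, `B := {K}`. `dA`: `K ∈ G`, `dis`, `dGV`. `ver_hfr`,
`hor_hfr` (`a lam - c = 0`). The box of `g'` is contained in `|P.1 - x| ≤ η`,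
`|P.2 - y| ≤ Λ η` (`hit_hfr`, `crb_hfr`), so in `|P.1| ≤ 3/8`, `|P.2| ≤ |y| + Λ`. `con`: a line hitting it is
not in `gr (uni G ∪ uni V)` (`con` of ST), or in `uni V ∪ K`, or in `K' ∈ G`, `K' ≠ K`, and then
`tt = P.2 - sg P.1` is within `Λ η + Λ η + ε |x| ≤ γ` of `y - lam K' * x`: `Neg`. `crA`: hypothesis on
`crp (g n) (3/8) M (gr (uni V))`. `crB`: `cr`. `sep`: `j ∈ uni {K}`, `j ∉ K` is impossible. `cA`:
`vv' = (vv - x + rh y) / (η (1 - rh lam))`; `cB`: `tt' = (tt + sg x - y) / η = ((tt - τ) + (sg - lam K) x) / η`. -/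
def S_SNB : Prop := ∀ (k : ℕ) (U : Ultrafilter ℕ) (F : ℕ → Finset (ℝ × ℝ)) (s : ℕ → Fin k → ℝ)
  (g : ℕ → Fr) (G V : Finset (Finset (Fin k))) (lam : Finset (Fin k) → ℝ), Sy U F s →
  ST U F s g G V lam → (∀ M : ℝ, Neg2 U F fun n => crp (g n) (3 / 8) M (gr F s (uni V) n)) →
  ∀ (x τ γ : ℝ), ∀ K ∈ G, |x| ≤ 1 / 4 → 0 < γ →
  Spt U F (gr F s (uni V)) (fun n => vv (g n)) x → Spt U F (gr F s K) (fun n => tt (g n)) τ →
  (∀ K' ∈ G, K' ≠ K → Neg U F (cn (gr F s K') (fun n => tt (g n))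
    (τ + lam K * x - lam K' * x - γ) (τ + lam K * x - lam K' * x + γ))) →
  ∃ g' : ℕ → Fr, TB U F s g' (uni V) {K}

/-- SNV. There are vertical atoms. Otherwise SXV, STT. By TOP (`p = tt`, `T₀` of STT) every `K ∈ G` is either
null (`∀ T`, `Neg` lines with `|tt| ≤ T`) or has a top `τ K`. Not all are null: `mH` (finite sum over
`G`, `Neg.sum`). Let `X` be the finite set of the `x` with `τ K + lam K * x = τ K' + lam K' * x` for two
different not null `K, K'` (`lne`: one `x` for each pair). PRF gives a support point `x ∉ X`, `|x| ≤ 1/4`. Let `K` be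
the not null block with the maximal `τ K + lam K * x`; it is strictly larger than for the other ones, say by more than
`2 γ`. For every other not null `K'`, `τ + lam K * x - lam K' * x - γ > τ K'`: `Neg` by TOP; null ones
are `Neg` anyway. SNB and TB1 give a contradiction. -/
def S_SNV : Prop := ∀ (k : ℕ) (U : Ultrafilter ℕ) (F : ℕ → Finset (ℝ × ℝ)) (s : ℕ → Fin k → ℝ)
  (g : ℕ → Fr) (G V : Finset (Finset (Fin k))) (lam : Finset (Fin k) → ℝ), Sy U F s →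
  ST U F s g G V lam →
  ∃ p : ℝ, |p| < 1 / 2 ∧ Atm U F (gr F s (uni V)) (fun n => vv (g n)) p

/-! ## H. Strips with a vertical atom -/

/-- SAB. No atoms in the blocks of `G`: a thin box. Let `e |F| ≤ cn (gr (uni V)) vv (p - η) (p + η)` (all `η`,
along `U`). The heights `tt + sg p` of the lines of `gr (uni G)` at `X = p` have a support point `y`: for
`|tt| ≤ M` (`mH`) they are in `[-(M + Λ), M + Λ]`, SPT. DIA with `P j n`: for `δ = 1/(j+1)²`,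
`e |F| ≤ cn (gr (uni V)) vv (p - δ) (p + δ)`, and `al ≠ 0`, `|rh| ≤ δ` for all indices `i ∈ uni V` (so for all
lines of `gr (uni V)`). Let `κ n = 1/(J n + 1)`, `g' n = cmp (g n) (hfr p y (κ n) 1 0)`: TV with `A := uni G` and the blocks `V`.
`hor`: `hor_hfr` with `lam' = 0`, `C = 1`, `|κ lam K| ≤ e`. `ver`: `al' = al κ`, `be' = be`, and
`|be| ≤ κ² |al| ≤ e |al'|`. The box of `g'` is contained in `|P.1 - p| ≤ κ`, `|P.2 - y| ≤ 1`, so in
`|P.1| ≤ 3/4`, `|P.2| ≤ |y| + 1 =: M'` for large `n`: `con`, `crB` from ST. `crA`: pairs in one block: `cr` of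
ST. A pair `l ∈ K`, `m ∈ K'`, `K ≠ K'`, crossing at `P` in this box: with `h = tt l + sg l * p`,
`|P.2 - h| ≤ Λ κ`, `tt m = P.2 - sg m * P.1` is within `ρ = 2 Λ κ + ε` of `h - lam K' * p`, a number in
`[-(M' + 2 Λ), M' + 2 Λ]` (`ρ → 0`); ATL for `K'` and this interval: for every `e` and large `n`, at most `e |F|`
such `m` for each `l`. `sep`: ST. `cA`: `tt' = tt + sg p - y`. `cB`: `vv' = (vv - p + rh y) / κ`, of absolute value
`≤ δ (1 + |y|) / κ = (1 + |y|) / (J + 1)` for the `≥ e |F|` lines with `|vv - p| ≤ δ`. -/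
def S_SAB : Prop := ∀ (k : ℕ) (U : Ultrafilter ℕ) (F : ℕ → Finset (ℝ × ℝ)) (s : ℕ → Fin k → ℝ)
  (g : ℕ → Fr) (G V : Finset (Finset (Fin k))) (lam : Finset (Fin k) → ℝ) (p : ℝ), Sy U F s →
  ST U F s g G V lam → |p| < 1 / 2 → Atm U F (gr F s (uni V)) (fun n => vv (g n)) p →
  (∀ K ∈ G, ∀ t : ℝ, ¬ Atm U F (gr F s K) (fun n => tt (g n)) t) →
  ∃ g' : ℕ → Fr, TV U F s g' (uni G) V

/-- SD1. One atomic block at `(p, y)`. Let `t₀ = y - lam K * p`. DIA with `P j n`: for `δ = 1/(j+1)²`: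
`e |F| ≤ cn (gr (uni V)) vv (p - δ) (p + δ)`, `e |F| ≤ cn (gr K) tt (t₀ - δ) (t₀ + δ)`, `al ≠ 0`, `|rh| ≤ δ` for the
lines of `gr (uni V)`, `be ≠ 0`, `|sg - lam K| ≤ δ` for those of `gr K`. `κ n = 1/(J n + 1)`,
`g' n = cmp (g n) (hfr p y (κ n) (κ n) (lam K * κ n))`: TV with `A := K` and the blocks `V`. `hor_hfr`, `ver_hfr`
(`C = Λ`). The box of `g'` is in `|P.1 - p| ≤ κ`, `|P.2 - y| ≤ Λ κ`: `crA`, `crB` and the part outside
`gr (uni G ∪ uni V)` of `con` from ST. Lines of `K' ∈ G`, `K' ≠ K`, hitting this box have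
`tt = P.2 - sg P.1` within `2 Λ κ + ε → 0` of `y - lam K' * p`, which is no atom: `Neg` (for every `e` there
is `η` with `cn (t - η) (t + η) < e |F|` along `U`). `cA`: `tt' = (tt + sg p - y) / κ`, of absolute value
`≤ 2 δ / κ = 2 / (J + 1)` for the lines with `|tt - t₀| ≤ δ`. `cB`:
`vv' = (vv - p + rh y) / (κ (1 - rh lam K))`, of absolute value `≤ 2 δ (1 + |y|) / κ`. `sep`: ST. -/
def S_SD1 : Prop := ∀ (k : ℕ) (U : Ultrafilter ℕ) (F : ℕ → Finset (ℝ × ℝ)) (s : ℕ → Fin k → ℝ)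
  (g : ℕ → Fr) (G V : Finset (Finset (Fin k))) (lam : Finset (Fin k) → ℝ) (p y : ℝ), Sy U F s →
  ST U F s g G V lam → |p| < 1 / 2 → Atm U F (gr F s (uni V)) (fun n => vv (g n)) p →
  ∀ K ∈ G, Atm U F (gr F s K) (fun n => tt (g n)) (y - lam K * p) →
  (∀ K' ∈ G, K' ≠ K → ¬ Atm U F (gr F s K') (fun n => tt (g n)) (y - lam K' * p)) →
  ∃ g' : ℕ → Fr, TV U F s g' K V

/-- SD2. At least two atomic blocks at `(p, y)`: PL. For every `j` choose `κ_j ∈ (0, 1/(j+1)]` by ANN (`e = 1/(j+1)`)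
for the lines of `gr (uni V)`, `vv`, `p` and for each `K ∈ G'`, `tt`, `t_K = y - lam K * p`. Let
`ρ_j = κ_j / (4 Λ)`, `u_j = ρ_j / (j+1)`, `r_j = ρ_j / (2 (j+1))`, `δ_j = r_j / (4 (1 + |y|))` (so `δ_j < κ_j`). DIA with
`P j n`: at most `|F|/(j+1)` lines of `gr (uni V)` have `r_j < |vv - p| ≤ κ_j`, the same for
`K ∈ G'`, `|tt - t_K|`; at least `e |F|` lines of every `K ∈ G'` have `|tt - t_K| ≤ δ_j`; `be ≠ 0`, `|sg - lam K| ≤ δ_j` for
the lines of `K ∈ G`, `al ≠ 0`, `|rh| ≤ δ_j` for those of `uni V`. With `j = J n`: `L n = j + 1`,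
`g' n = cmp (g n) (hfr p y u_j u_j 0)`; `sg' = sg`, `rh' = rh`, `tt' = (tt + sg p - y) / u`,
`vv' = (vv - p + rh y) / u`. The box `L` of `g'` is `|P.1 - p| ≤ ρ_j`, `|P.2 - y| ≤ ρ_j` (`→ 0`). `con`: lines outside
`gr (uni G ∪ uni V)` by ST; lines of `K ∈ G \ G'` hitting the box have `tt` within `2 Λ ρ_j + δ_j → 0` of
the non atom `y - lam K * p`: `Neg`. `cr`: ST. `ctH`: a line of `K ∈ G'` hitting the box has
`|tt - t_K| ≤ 2 Λ ρ_j + δ_j ≤ κ_j`; if `|tt'| > e L` then `|tt - t_K| > e ρ_j - δ_j ≥ r_j` as soon as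
`e ≥ 1/(j+1)`: at most `|F|/(j+1)`. `ctV`: the same with `|vv - p| ≤ 2 ρ_j`. `two`: the
`e |F|` lines of `K ∈ G'` with `|tt - t_K| ≤ δ_j` hit the box (point `X = p`, `|Y - y| ≤ 2 δ_j ≤ ρ_j`). `lin`:
`L → ∞`. `sep`, `dis`, `dGV`, `lne` from ST (`G' ⊆ G`). -/
def S_SD2 : Prop := ∀ (k : ℕ) (U : Ultrafilter ℕ) (F : ℕ → Finset (ℝ × ℝ)) (s : ℕ → Fin k → ℝ)
  (g : ℕ → Fr) (G V : Finset (Finset (Fin k))) (lam : Finset (Fin k) → ℝ) (p y : ℝ)
  (G' : Finset (Finset (Fin k))), Sy U F s →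
  ST U F s g G V lam → |p| < 1 / 2 → G' ⊆ G → 2 ≤ G'.card →
  (∀ K ∈ G', Atm U F (gr F s K) (fun n => tt (g n)) (y - lam K * p)) →
  (∀ K ∈ G, K ∉ G' → ¬ Atm U F (gr F s K) (fun n => tt (g n)) (y - lam K * p)) →
  ∃ (g' : ℕ → Fr) (L : ℕ → ℝ), PL U F s g' L G' V lam

/-- STF. No strips, if there is no TB with at most `|V|` blocks and no PL with the vertical blocks `V`. SNV gives a
vertical atom `p`. If no block of `G` has an atom: SAB, TBW. Otherwise let `t` be an atom of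
`K ∈ G`, `y = t + lam K * p`, `G'` the set of all `K' ∈ G` with `Atm (y - lam K' * p)`. If `|G'| = 1`: SD1, TBW.
Otherwise SD2. -/
def S_STF : Prop := ∀ (k : ℕ) (U : Ultrafilter ℕ) (F : ℕ → Finset (ℝ × ℝ)) (s : ℕ → Fin k → ℝ)
  (g : ℕ → Fr) (G V : Finset (Finset (Fin k))) (lam : Finset (Fin k) → ℝ), Sy U F s →
  ST U F s g G V lam →
  (∀ (g' : ℕ → Fr) (A : Finset (Fin k)) (B : Finset (Finset (Fin k))), B.card ≤ V.card →
    ¬ TB U F s g' A B) →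
  (∀ (g' : ℕ → Fr) (L : ℕ → ℝ) (G' : Finset (Finset (Fin k))) (lam' : Finset (Fin k) → ℝ),
    ¬ PL U F s g' L G' V lam') → False

end Pool.Agent.Work.MP_b25393_ag.UU
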