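import Mathlib
import Pool.Agent.Work.MP_b25393_ag.UU.StmtsB

/-!
# Uniform version, item ATL: without atoms all short windows are light
-/

set_option autoImplicit false

namespace Pool.Agent.Work.MP_b25393_ag.UU

open scoped Classical
open Pool.Agent.Work.MP_b25393_ag.U

namespace I_ATL

/-- a finite set of positive numbers has a positive lower bound -/
theorem gap {ι : Type} (D : Finset ι) (f : ι → ℝ) (h : ∀ i ∈ D, 0 < f i) :
    ∃ γ : ℝ, 0 < γ ∧ ∀ i ∈ D, 2 * γ < f i := by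
  rcases D.eq_empty_or_nonempty with he | hne
  · exact ⟨1, one_pos, fun i hi => by rw [he] at hi; exact absurd hi (Finset.notMem_empty i)⟩
  · obtain ⟨j, hj, hmin⟩ := D.exists_min_image f hne
    have hj0 := h j hj
    exact ⟨f j / 3, by linarith, fun i hi => by have := hmin i hi; linarith⟩

theorem cn_mono (G : ℕ → Finset (ℝ × ℝ)) (p : ℕ → ℝ × ℝ → ℝ) {u v u' v' : ℝ} (hu : u' ≤ u)
    (hv : v ≤ v') (n : ℕ) : cn G p u v n ≤ cn G p u' v' n := by
  unfold cn
  apply Finset.card_le_card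
  intro l hl
  rw [Finset.mem_filter] at hl ⊢
  exact ⟨hl.1, hu.trans hl.2.1, hl.2.2.trans hv⟩

end I_ATL

theorem ATL_pf : S_ATL := by
  intro U F G p Q hQ hno e he
  have hch : ∀ t : ℝ, ∃ η : ℝ, 0 < η ∧ (t ∈ Q →
      ∀ᶠ n in (U : Filter ℕ), (cn G p (t - η) (t + η) n : ℝ) ≤ e * ((F n).card : ℝ)) := by
    intro t
    by_cases ht : t ∈ Q
    · have h1 := hno t ht
      unfold Atm at h1
      push Not at h1
      obtain ⟨η, hη, h2⟩ := h1 e he
      refine ⟨η, hη, fun _ => ?_⟩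
      filter_upwards [h2] with n hn
      exact hn.le
    · exact ⟨1, one_pos, fun h => absurd h ht⟩
  choose η hη hη2 using hch
  obtain ⟨T, hTQ, hT⟩ := hQ.elim_nhds_subcover (fun t => Metric.ball t (η t / 2))
    (fun t _ => Metric.ball_mem_nhds t (by have := hη t; linarith))
  obtain ⟨γ, hγ, hγ2⟩ := I_ATL.gap T η fun t _ => hη t
  refine ⟨γ, hγ, ?_⟩
  have h3 : ∀ᶠ n in (U : Filter ℕ), ∀ t ∈ T,
      (cn G p (t - η t) (t + η t) n : ℝ) ≤ e * ((F n).card : ℝ) := by
    rw [Filter.eventually_all_finset]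
    exact fun t ht => hη2 t (hTQ t ht)
  filter_upwards [h3] with n hn t ht
  obtain ⟨t', ht', htt⟩ := Set.mem_iUnion₂.mp (hT ht)
  have h4 := hγ2 t' ht'
  rw [Metric.mem_ball, Real.dist_eq, abs_lt] at htt
  refine le_trans ?_ (hn t' ht')
  exact_mod_cast I_ATL.cn_mono G p (by linarith) (by linarith) n

end Pool.Agent.Work.MP_b25393_ag.UU
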