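import Pool.Agent.Work.MP_b25393_ag.UU.StmtsA
import Pool.Agent.Work.MP_b25393_ag.U.I_NXT

/-!
# Block UU, item BDR: the bad chain vertices of one gap
-/

set_option autoImplicit false

namespace Pool.Agent.Work.MP_b25393_ag.UU

open scoped Classical
open Pool.Agent.Work.MP_b25393_ag.U

namespace I_BDR

theorem nxt_unique {T : Finset ℝ} {q q' : ℝ × ℝ} (hq : q ∈ nxt T) (hq' : q' ∈ nxt T) {x : ℝ}
    (h1 : q.1 < x) (h2 : x < q.2) (h1' : q'.1 < x) (h2' : x < q'.2) : q = q' := by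
  have a := (Finset.mem_filter.1 hq).2
  have b := (Finset.mem_filter.1 hq').2
  have e1 : q.1 = q'.1 := by
    rcases lt_trichotomy q.1 q'.1 with h | h | h
    · exact absurd ⟨h, h1'.trans h2⟩ (a.2.2.2 q'.1 b.1)
    · exact h
    · exact absurd ⟨h, h1.trans h2'⟩ (b.2.2.2 q.1 a.1)
  have e2 : q.2 = q'.2 := by
    rcases lt_trichotomy q.2 q'.2 with h | h | h
    · exact absurd ⟨h1'.trans h2, h⟩ (b.2.2.2 q.2 a.2.1)
    · exact h
    · exact absurd ⟨h1.trans h2', h⟩ (a.2.2.2 q'.2 b.2.1)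
  exact Prod.ext e1 e2

theorem sum_le {T : Finset ℝ} (D : Finset (ℝ × ℝ)) :
    ∑ q ∈ nxt T, (D.filter fun v => q.1 < v.1 ∧ v.1 < q.2).card ≤ D.card := by
  rw [← Finset.card_biUnion]
  · refine Finset.card_le_card ?_
    intro v hv
    rw [Finset.mem_biUnion] at hv
    obtain ⟨q, -, hv⟩ := hv
    exact (Finset.mem_filter.1 hv).1
  · intro q hq q' hq' hne
    refine Finset.disjoint_left.2 fun v hv hv' => ?_
    rw [Finset.mem_filter] at hv hv'
    exact hne (nxt_unique hq hq' hv.2.1 hv.2.2 hv'.2.1 hv'.2.2)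

end I_BDR

theorem BDR_pf (hCHN : U.S_CHN) (hZER : S_ZER) : S_BDR := by
  intro F r _ _
  have hsplit := Finset.card_filter_add_card_filter_not (s := chn F r) (fun v => Bad F r v)
  rcases (zer F r).eq_empty_or_nonempty with h0 | hne
  · rw [h0, Finset.card_empty]
    omega
  have hnx := (NXT_pf (zer F r)).2.1 hne
  have hcl : ∀ x, x ∈ zer F r ↔ Cl F r x := fun x =>
    ⟨fun h => (Finset.mem_filter.1 h).2, fun h => (hZER F r).1 x h⟩
  have key : ∀ q ∈ nxt (zer F r), 2 ≤ ((chn F r).filter fun v => q.1 < v.1 ∧ v.1 < q.2).card +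
      (((chn F r).filter fun v => ¬ Bad F r v).filter fun v => q.1 < v.1 ∧ v.1 < q.2).card := by
    intro q hq
    have hN := (Finset.mem_filter.1 hq).2
    obtain ⟨v, hv, hv1, hv2⟩ := hCHN F r q.1 q.2 hN.2.2.1 ((hcl _).1 hN.1) ((hcl _).1 hN.2.1)
      (fun x h1 h2 hC => hN.2.2.2 x ((hcl _).2 hC) ⟨h1, h2⟩)
    have hvm : v ∈ (chn F r).filter fun v => q.1 < v.1 ∧ v.1 < q.2 :=
      Finset.mem_filter.2 ⟨hv, hv1, hv2⟩
    have hpos : 1 ≤ ((chn F r).filter fun v => q.1 < v.1 ∧ v.1 < q.2).card :=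
      Finset.card_pos.2 ⟨v, hvm⟩
    by_cases h2 : 2 ≤ ((chn F r).filter fun v => q.1 < v.1 ∧ v.1 < q.2).card
    · omega
    have h1 : ((chn F r).filter fun v => q.1 < v.1 ∧ v.1 < q.2).card = 1 := by omega
    have hnb : ¬ Bad F r v := by
      rintro ⟨-, hb | hb | ⟨v', hv', hvv, hb⟩⟩
      · exact hb q.1 hN.1 hv1
      · exact hb q.2 hN.2.1 hv2
      · have hnot : ¬ (q.1 < v'.1 ∧ v'.1 < q.2) := by
          intro h
          obtain ⟨w, hw⟩ := Finset.card_eq_one.1 h1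
          have a1 : v ∈ ({w} : Finset (ℝ × ℝ)) := hw ▸ hvm
          have a2 : v' ∈ ({w} : Finset (ℝ × ℝ)) := hw ▸ Finset.mem_filter.2 ⟨hv', h⟩
          rw [Finset.mem_singleton] at a1 a2
          exact hvv (a2.trans a1.symm)
        have hz := (hZER F r).2.1 v' hv'
        have n1 : v'.1 ≠ q.1 := fun h => hz (h ▸ hN.1)
        have n2 : v'.1 ≠ q.2 := fun h => hz (h ▸ hN.2.1)
        rcases lt_or_gt_of_ne n1 with h | h
        · exact hb q.1 hN.1 (Or.inr ⟨h, hv1⟩)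
        · rcases lt_or_gt_of_ne n2 with h' | h'
          · exact hnot ⟨h, h'⟩
          · exact hb q.2 hN.2.1 (Or.inl ⟨hv2, h'⟩)
    have : 1 ≤ (((chn F r).filter fun v => ¬ Bad F r v).filter
        fun v => q.1 < v.1 ∧ v.1 < q.2).card :=
      Finset.card_pos.2 ⟨v, Finset.mem_filter.2 ⟨Finset.mem_filter.2 ⟨hv, hnb⟩, hv1, hv2⟩⟩
    omega
  have hsum : (nxt (zer F r)).card * 2 ≤ (chn F r).card +
      ((chn F r).filter fun v => ¬ Bad F r v).card := by
    have h3 := Finset.card_nsmul_le_sum (nxt (zer F r)) _ 2 key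
    rw [Finset.sum_add_distrib, smul_eq_mul] at h3
    have h4 := I_BDR.sum_le (T := zer F r) (chn F r)
    have h5 := I_BDR.sum_le (T := zer F r) ((chn F r).filter fun v => ¬ Bad F r v)
    omega
  omega

end Pool.Agent.Work.MP_b25393_ag.UU
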