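import Pool.Agent.Work.MP_b25393_ag.UU.StmtsA

/-!
# Item BDS: the sum of the bad chain vertices over all gaps
-/

set_option autoImplicit false

namespace Pool.Agent.Work.MP_b25393_ag.UU

open scoped Classical
open Pool.Agent.Work.MP_b25393_ag.U

namespace I_BDS

theorem sum_chn (F : Finset (ℝ × ℝ)) :
    ∑ r ∈ Finset.Ico 1 F.card, (chn F r).card ≤ 2 * (vts F).card := by
  have h1 : ∀ r, (chn F r).card = ∑ v ∈ vts F, if (lo F v + on F v = r ∨ lo F v = r) then 1 else 0 := by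
    intro r
    unfold chn
    rw [Finset.card_filter]
  simp_rw [h1]
  rw [Finset.sum_comm]
  rw [mul_comm, ← smul_eq_mul, ← Finset.sum_const]
  apply Finset.sum_le_sum
  intro v _
  rw [← Finset.card_filter]
  refine (Finset.card_le_card (t := {lo F v + on F v, lo F v}) ?_).trans Finset.card_le_two
  intro r hr
  rw [Finset.mem_filter] at hr
  rw [Finset.mem_insert, Finset.mem_singleton]
  rcases hr.2 with h | h
  · exact Or.inl h.symm
  · exact Or.inr h.symm

theorem sum_zer (hCNT : U.S_CNT) (F : Finset (ℝ × ℝ)) :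
    ((∑ r ∈ Finset.Ico 1 F.card, (zer F r).card : ℕ) : ℤ) = ∑ v ∈ vts F, ((on F v : ℤ) - 1) := by
  have h1 : ∀ r, (zer F r).card = ∑ x ∈ (vts F).image Prod.fst, if Cl F r x then 1 else 0 := by
    intro r
    unfold zer
    rw [Finset.card_filter]
  simp_rw [h1]
  rw [Finset.sum_comm]
  have h2 : ∀ x, (((∑ r ∈ Finset.Ico 1 F.card, if Cl F r x then 1 else 0 : ℕ)) : ℤ) =
      ∑ v ∈ (vts F).filter (fun v => v.1 = x), ((on F v : ℤ) - 1) := by
    intro x
    rw [← Finset.card_filter]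
    obtain ⟨h3, h4⟩ := hCNT F x
    have h5 : (((Finset.Ico 1 F.card).filter fun r => Cl F r x).card : ℤ) + nv F x = F.card := by
      exact_mod_cast h3
    linarith
  rw [Nat.cast_sum]
  rw [Finset.sum_congr rfl (fun x _ => h2 x)]
  exact Finset.sum_fiberwise_of_maps_to (fun v hv => Finset.mem_image_of_mem _ hv) _

end I_BDS

open I_BDS in
theorem BDS_pf (hCNT : U.S_CNT) (hBDR : S_BDR) : S_BDS := by
  intro F
  rcases Nat.eq_zero_or_pos F.card with hN | hN
  · rw [hN]
    have hF : F = ∅ := Finset.card_eq_zero.mp hN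
    subst hF
    have hv : vts (∅ : Finset (ℝ × ℝ)) = ∅ := by
      unfold vts
      simp
    unfold DD
    rw [hv]
    simp
  have h1 : ∑ r ∈ Finset.Ico 1 F.card, (((chn F r).filter fun v => Bad F r v).card +
      2 * (zer F r).card) ≤ ∑ r ∈ Finset.Ico 1 F.card, (2 * (chn F r).card + 2) := by
    apply Finset.sum_le_sum
    intro r hr
    rw [Finset.mem_Ico] at hr
    exact hBDR F r hr.1 hr.2
  rw [Finset.sum_add_distrib, Finset.sum_add_distrib, ← Finset.mul_sum, ← Finset.mul_sum,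
    Finset.sum_const, Nat.card_Ico, smul_eq_mul] at h1
  have h2 := sum_chn F
  have h3 := sum_zer hCNT F
  have h4 : DD F = 2 * ((vts F).card : ℤ) - ∑ v ∈ vts F, ((on F v : ℤ) - 1) := by
    unfold DD
    have h8 : (2 : ℤ) * ((vts F).card : ℤ) = ∑ v ∈ vts F, (2 : ℤ) := by
      rw [Finset.sum_const, nsmul_eq_mul, mul_comm]
    rw [h8, ← Finset.sum_sub_distrib]
    apply Finset.sum_congr rfl
    intro v _
    ring
  have h5 : ((∑ r ∈ Finset.Ico 1 F.card, ((chn F r).filter fun v => Bad F r v).card : ℕ) : ℤ) +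
      2 * ((∑ r ∈ Finset.Ico 1 F.card, (zer F r).card : ℕ) : ℤ) ≤
      2 * ((∑ r ∈ Finset.Ico 1 F.card, (chn F r).card : ℕ) : ℤ) +
        ((F.card - 1 : ℕ) : ℤ) * 2 := by
    exact_mod_cast h1
  have h6 : ((∑ r ∈ Finset.Ico 1 F.card, (chn F r).card : ℕ) : ℤ) ≤ 2 * ((vts F).card : ℤ) := by
    exact_mod_cast h2
  have h7 : ((F.card - 1 : ℕ) : ℤ) = (F.card : ℤ) - 1 := by
    rw [Nat.cast_sub hN, Nat.cast_one]
  rw [h3] at h5
  rw [h7] at h5
  rw [h4]
  linarith

end Pool.Agent.Work.MP_b25393_ag.UU
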