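import Mathlib
import Pool.Agent.Work.MP_b25393_ag.UU.StmtsB

/-!
# Uniform version, part C: the planar situation, the affine theorem

Every docstring contains the proof of its item. Every item may use all EARLIER statements of
`StmtsA.lean`, `StmtsB.lean`, of this file, and all statements `U.S_...` as hypotheses. Conventions for `Λ`,
`ε` as in `StmtsB.lean`; `Δ > 0` denotes the minimum of `|lam K - lam K'|`, `K ≠ K'` in `G` (`Δ ≤ 2 Λ`).
-/

set_option autoImplicit false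

namespace Pool.Agent.Work.MP_b25393_ag.UU

open scoped Classical
open Pool.Agent.Work.MP_b25393_ag.U

/-! ## I. Normalisation -/

/-- BLC. A family of pairwise disjoint subsets of `Fin k` has at most `k + 1` members (at most one is
empty, the others have different least elements). -/
def S_BLC : Prop := ∀ (k : ℕ) (G : Finset (Finset (Fin k))),
  (∀ K ∈ G, ∀ K' ∈ G, K ≠ K' → Disjoint K K') → G.card ≤ k + 1

/-- SCW. Choice of the scale. Let `T` be the finite set of all `|f i l|`, `i ∈ I`, `l ∈ S i` (not empty). The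
maximum `w` of `T` satisfies `#{l ∈ S i | w < |f i l|} = 0 ≤ K` for all `i ∈ I`; let `W` be the least
element of `T` with `#{l ∈ S i | W < |f i l|} ≤ K` for all `i ∈ I`. `W > 0`: for `W = 0` this would
contradict the hypothesis. If `T` has elements `< W`, let `W'` be the largest one; by the choice of
`W` some `i ∈ I` has `#{l ∈ S i | W' < |f i l|} > K`, and `W' < |f i l|` means `W ≤ |f i l|`. If `T` has no element
`< W`, then `W ≤ |f i l|` for all `l ∈ S i`; take the `i` of the hypothesis. -/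
def S_SCW : Prop := ∀ (ι : Type) (I : Finset ι) (S : ι → Finset (ℝ × ℝ)) (f : ι → ℝ × ℝ → ℝ)
  (K : ℝ), 0 ≤ K → (∃ i ∈ I, K < (((S i).filter fun l => f i l ≠ 0).card : ℝ)) →
  ∃ W : ℝ, 0 < W ∧ (∀ i ∈ I, (((S i).filter fun l => W < |f i l|).card : ℝ) ≤ K) ∧
    ∃ i ∈ I, K < (((S i).filter fun l => W ≤ |f i l|).card : ℝ)

/-- PM1. Centre. Let `K₁, K₂` be as in `two`, `K` one of them, `e |F| ≤ #{l ∈ gr K | hit L}`. For each `n`
let `S` be the set of the lines of `gr K` which hit the box `L` and have `|tt| ≤ L`; `|S| ≥ (e/2) |F|` for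
large `n` (`ctH`). Let `S'` be the set of the `c ∈ S` with `#{l ∈ S | tt c ≤ tt l} ≥ |S|/3` and
`#{l ∈ S | tt l ≤ tt c} ≥ |S|/3`; `|S'| ≥ |S|/3` (the `c` with `#{l ∈ S | tt c ≤ tt l} < |S|/3` are fewer than
`|S|/3`: compare with the one with the least `tt`; same for the other side). The numbers of partners
(`l ∈ gr K`, `l ≠ c`, `crb g L L c l`) of the `c ∈ S'` add up to at most `crp g L L (gr K)`, so the `c ∈ S'` with the
fewest partners has at most `3 crp / |S|` partners: `Neg` (`cr`). For every `e' > 0`, `|tt c| ≤ e' L` for large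
`n`: otherwise `|S|/3` lines of `S` would have `|tt| > e' L`, against `ctH`. Let `c₁ ∈ K₁`, `c₂ ∈ K₂` be the two lines
and `(x₀, y₀)` their common point, `x₀ = (tt c₂ - tt c₁) / (sg c₁ - sg c₂)`, `y₀ = tt c₁ + sg c₁ * x₀`
(`lne`): `|x₀|, |y₀| ≤ e' L` for large `n`. Let `l ∈ S`, `tt c ≤ tt l`, `l` not a partner of `c` (`c = c₁` or `c₂`).
Then `tt l + sg l * x₀ ≥ tt c + sg c * x₀ = y₀`: otherwise `l` and `c` cross over some `X` between 0 and
`x₀`, in the box `L`. So at least `|S|/3 - o(|F|) ≥ (e/8) |F|` lines have `0 ≤ tt l + sg l * x₀ - y₀`; the same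
for `≤ 0`. (For the `n` where the construction fails put `x₀ = y₀ = 0`.) -/
def S_PM1 : Prop := ∀ (k : ℕ) (U : Ultrafilter ℕ) (F : ℕ → Finset (ℝ × ℝ)) (s : ℕ → Fin k → ℝ)
  (g : ℕ → Fr) (L : ℕ → ℝ) (G V : Finset (Finset (Fin k))) (lam : Finset (Fin k) → ℝ),
  Sy U F s → PL U F s g L G V lam →
  ∃ K₁ ∈ G, ∃ K₂ ∈ G, K₁ ≠ K₂ ∧ ∃ (x₀ y₀ : ℕ → ℝ) (e₀ : ℝ), 0 < e₀ ∧
    (∀ e : ℝ, 0 < e → ∀ᶠ n in (U : Filter ℕ), |x₀ n| ≤ e * L n ∧ |y₀ n| ≤ e * L n) ∧
    ∀ K, (K = K₁ ∨ K = K₂) →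
      (∀ᶠ n in (U : Filter ℕ), e₀ * ((F n).card : ℝ) ≤
        (((gr F s K n).filter fun l => hit (g n) (L n) l ∧
          0 ≤ tt (g n) l + sg (g n) l.1 * x₀ n - y₀ n).card : ℝ)) ∧
      ∀ᶠ n in (U : Filter ℕ), e₀ * ((F n).card : ℝ) ≤
        (((gr F s K n).filter fun l => hit (g n) (L n) l ∧
          tt (g n) l + sg (g n) l.1 * x₀ n - y₀ n ≤ 0).card : ℝ)

/-- PM2. Scale. Take `x₀, y₀, e₀, K₁, K₂` of PM1, `θ = e₀ / (80 (k + 1))`. Let `h n = cmp (g n) (hfr x₀ y₀ 1 1 0)`; for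
`K ∈ G` let `S_K` be the set of the lines of `gr K` with `hit (h n) (L n / 2)` and
`f_K l = tt l + sg l * x₀ - y₀` (`= tt (h n) l`), and `S_V`, `f_V l = vv l - x₀ + rh l * y₀` (`= vv (h n) l`) the same for
`gr (uni V)`. For large `n`: `|x₀|, |y₀| ≤ L/2`, so `hit (h n) (L/2)` implies `hit (g n) (L n)`; a line with
`|f| ≤ L/2` is in `S_K` resp. `S_V` (point `X = x₀`, resp. `Y = y₀`); for every `e > 0`, the lines hitting the box `L` with
`|f| > e L` have `|tt| > (e/2) L` resp. `|vv| > (e/2) L` (large `n`), so they are `Neg` (`ctH`, `ctV`). SCW with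
`I = G` and one more index for `V`, bound `θ |F|`: hypothesis for `K₁`: `|S_{K₁}| ≥ (e₀/2) |F|` for large `n`,
and at most `k` lines (one for each slope) have `f = 0`. It gives `W n > 0` (put `W n = 1` where it does not apply). For every
`e > 0`, `W ≤ e L` for large `n`: otherwise more than `θ |F|` lines of some `S_K` or `S_V` have
`|f| > e L`. Let `g' n = cmp (g n) (hfr x₀ y₀ W W 0)`, `L' n = L n / (2 W n)` (`→ ∞`). Then `hit g' L' l` iff
`hit (h n) (L n / 2) l`; `sg' = sg`, `rh' = rh`, `tt' = f_K / W`, `vv' = f_V / W`; the box `L'` of `g'` is in the box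
`L` of `g`. `con`, `cr`, `sep`, `dis`, `hor`, `ver` are clear (`hor_hfr`, `ver_hfr`). `ctH`, `ctV`: `e L' < |tt'|` means
`|f| > (e/2) L`. `p1`, `m1`, `p2`, `m2`, `two`: PM1 up to `Neg` many lines (`Pos.of_le_add`). `oG`, `oV`: first property
of `W`. `b1`, `b2`: `|S_K| - θ |F| ≥ (e₀/2 - θ) |F| ≥ 32 (k + 1) θ |F|`. `big`: second property of `W`; the index is constant
along `U` (finitely many). -/
def S_PM2 : Prop := ∀ (k : ℕ) (U : Ultrafilter ℕ) (F : ℕ → Finset (ℝ × ℝ)) (s : ℕ → Fin k → ℝ)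
  (g : ℕ → Fr) (L : ℕ → ℝ) (G V : Finset (Finset (Fin k))) (lam : Finset (Fin k) → ℝ),
  Sy U F s → PL U F s g L G V lam →
  ∃ (g' : ℕ → Fr) (L' : ℕ → ℝ) (K₁ K₂ : Finset (Fin k)) (θ : ℝ), PN U F s g' L' G V lam K₁ K₂ θ

/-! ## J. No tails -/

/-- PT1. Let `δ = Δ/(16 Λ)`, `C = 32 Λ (1 + 1/Δ)`, `ε₀ = Δ/(6 Λ)`. Fix `K ∈ G` and let `σ ∈ {K₁, K₂}`, `σ ≠ K`. The lines of `K`
hitting the box with `|tt| > ε₀ L` are `Neg` (`ctH`). MLS with `H` = lines `c` of `K` with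
`C < |tt c| ≤ ε₀ L`, `V` = lines of `σ`, `G` = lines of `K`,
`Q n c = {P | |P.1| ≤ L, |P.2| ≤ L, |P.2 - lam σ * P.1| ≤ δ |tt c|}` (convex), `a = 32 (k + 1) θ`,
`b = (k + 3) θ`. Let `T = |tt c|`. (1) A line `l` of `σ` with `|tt l| ≤ 1` meets `c` at `P` (`cross_hh`) with
`|P.1| ≤ 2 (T + 1)/Δ ≤ 4 T/Δ`, `|P.2| ≤ 1 + Λ |P.1| ≤ 6 Λ T/Δ ≤ L`,
`|P.2 - lam σ * P.1| = |tt l + (sg l - lam σ) P.1| ≤ 1 + 4 ε T/Δ ≤ δ T`: at least `a |F|` lines (`b1`, `b2`). (2) Let `P` be on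
`c`, in `Q n c`. Then `T = |P.2 - sg c * P.1|` gives `|(sg c - lam σ) P.1| ≥ T/2` and `≤ 2 T`, so
`T/(4 Λ) ≤ |P.1| ≤ 4 T/Δ`. A line `l` of `K' ∈ G`, `K' ≠ K, σ`, through `P` has
`|tt l| = |(P.2 - lam σ * P.1) + (lam σ - sg l) P.1| ≥ (Δ/2) T/(4 Λ) - δ T ≥ Δ T/(16 Λ) > 1`; a line `l` of `uni V`
through `P` has `|vv l| ≥ |P.1| - ε |P.2| ≥ T/(4 Λ) - ε T (1 + 4 Λ/Δ) ≥ T/(8 Λ) > 1`; both hit the box. So by
`oG`, `oV`, BLC there are at most `(k + 2) θ |F|` of them, and at most `θ |F|` lines outside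
`gr (uni G ∪ uni V)` hitting the box (`con`). (3) meetings `H × G` and pairs of `V`: `cr`. -/
def S_PT1 : Prop := ∀ (k : ℕ) (U : Ultrafilter ℕ) (F : ℕ → Finset (ℝ × ℝ)) (s : ℕ → Fin k → ℝ)
  (g : ℕ → Fr) (L : ℕ → ℝ) (G V : Finset (Finset (Fin k))) (lam : Finset (Fin k) → ℝ)
  (K₁ K₂ : Finset (Fin k)) (θ : ℝ), Sy U F s → PN U F s g L G V lam K₁ K₂ θ →
  ∃ C : ℝ, 1 ≤ C ∧ ∀ K ∈ G, Neg U F fun n =>
    ((gr F s K n).filter fun l => hit (g n) (L n) l ∧ C < |tt (g n) l|).card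

/-- PT2. The same for the vertical lines. `δ = Δ/(16 Λ)`, `C = 32 Λ (1 + 1/Δ)`, `ε₀ = 1/(3 Λ)`. MLS with `H` = lines
`c` of `gr (uni V)` with `C < |vv c| ≤ ε₀ L` (those with `|vv c| > ε₀ L` hitting the box are `Neg`, `ctV`), `V` =
lines of `K₁`, `G` empty, `Q n c = {P | |P.1| ≤ L, |P.2| ≤ L, |P.2 - lam K₁ * P.1| ≤ δ |vv c|}`,
`a = 32 (k + 1) θ`, `b = (k + 3) θ`, `T = |vv c|`. (1) A line `l` of `K₁` with `|tt l| ≤ 1` meets `c` at `P`
(`cross_hv`), `|P.1| ≤ 2 T`, `|P.2| ≤ 1 + 2 Λ T ≤ 3 Λ T ≤ L`, `|P.2 - lam K₁ * P.1| ≤ 1 + 2 ε T ≤ δ T`. (2) For `P` on `c` in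
`Q n c`: `|P.2| ≤ δ T + Λ |P.1|` and `T = |P.1 - rh c * P.2|` give `T/2 ≤ |P.1| ≤ 2 T`. A line `l` of
`K' ∈ G`, `K' ≠ K₁`, through `P` has `|tt l| ≥ (Δ/2)(T/2) - δ T ≥ Δ T/8 > 1`; a line `l` of `uni V` through `P` has
`|vv l| ≥ |P.1| - ε |P.2| ≥ T/4 > 1`. Count as in PT1. -/
def S_PT2 : Prop := ∀ (k : ℕ) (U : Ultrafilter ℕ) (F : ℕ → Finset (ℝ × ℝ)) (s : ℕ → Fin k → ℝ)
  (g : ℕ → Fr) (L : ℕ → ℝ) (G V : Finset (Finset (Fin k))) (lam : Finset (Fin k) → ℝ)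
  (K₁ K₂ : Finset (Fin k)) (θ : ℝ), Sy U F s → PN U F s g L G V lam K₁ K₂ θ →
  ∃ C : ℝ, 1 ≤ C ∧ Neg U F fun n =>
    ((gr F s (uni V) n).filter fun l => hit (g n) (L n) l ∧ C < |vv (g n) l|).card

/-! ## K. Macro points -/

/-- GE2. `U.S_GEO` with a vertical family. Choose `τ ≠ 0` such that `1 + τ lam K ≠ 0` for `K ∈ G` and put
`P = {(lam K/(1 + τ lam K), t/(1 + τ lam K)) | K ∈ G, t ∈ S K} ∪ {(1/τ, -v/τ) | v ∈ E}`: compact, in finitely many
columns, with different abscissae for different `K` and for `E`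
(`lam/(1 + τ lam) = lam'/(1 + τ lam')` implies `lam = lam'`, and `lam/(1 + τ lam) ≠ 1/τ`), not in one column. For real `a`, `b` put
`X = -(a + τ b)`, `Y = b`: the point of `P` given by `(K, t)` is on `p.2 = a p.1 + b` iff
`t = a lam K + b (1 + τ lam K) = Y - lam K * X`, the one given by `v` iff `v = -a - τ b = X`. Not
collinear (in the sense of `U.S_GEO`) = not concurrent. `U.S_GEO` gives `a, b` with exactly two points of `P`, in
different columns. -/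
def S_GE2 : Prop := ∀ (ι : Type) (G : Finset ι) (lam : ι → ℝ) (S : ι → Set ℝ) (E : Set ℝ),
  (∀ K ∈ G, IsCompact (S K)) → IsCompact E → (∀ K ∈ G, ∀ K' ∈ G, K ≠ K' → lam K ≠ lam K') →
  (∃ K ∈ G, ∃ K' ∈ G, K ≠ K' ∧ (S K).Nonempty ∧ (S K').Nonempty) →
  (¬ ∃ x y : ℝ, (∀ K ∈ G, ∀ t ∈ S K, t = y - lam K * x) ∧ ∀ v ∈ E, v = x) →
  (∃ x y : ℝ, ∃ K ∈ G, ∃ K' ∈ G, K ≠ K' ∧ y - lam K * x ∈ S K ∧ y - lam K' * x ∈ S K' ∧
    (∀ K'' ∈ G, K'' ≠ K → K'' ≠ K' → y - lam K'' * x ∉ S K'') ∧ x ∉ E) ∨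
  (∃ x y : ℝ, ∃ K ∈ G, y - lam K * x ∈ S K ∧ x ∈ E ∧
    ∀ K' ∈ G, K' ≠ K → y - lam K' * x ∉ S K')

/-- PGM. Macro point. `C` := the maximum of the constants of PT1 and PT2. `S K = {t | Spt (gr K) tt t}`,
`E = {v | Spt (gr (uni V)) vv v}`: closed (SCL), contained in `[-C, C]`: if `|t| > C`, the lines with
position in `[t - η, t + η]`, `η = (|t| - C)/2`, have `|position| > C` and hit the box `L` for large `n` (point `(0, tt)`,
resp. `(vv, 0)`), so they are `Neg`. `S K₁` has a point `≥ 0` and a point `≤ 0`: `p1`, `m1`, without the tails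
(`Pos.of_le_add`), SPT for `[0, C]`, `[-C, 0]`; same for `K₂`. Not concurrent: if all `t ∈ S K` are `y - lam K * x` and all
`v ∈ E` are `x`, then `y - lam K₁ * x = 0 = y - lam K₂ * x`, so `x = y = 0` (`lne`); but `big` gives, without the
tails, SPT for the compact set `{t | 1 ≤ |t| ≤ C}` a point of some `S K` or of `E` with `|t| ≥ 1`. Apply
GE2. -/
def S_PGM : Prop := ∀ (k : ℕ) (U : Ultrafilter ℕ) (F : ℕ → Finset (ℝ × ℝ)) (s : ℕ → Fin k → ℝ)
  (g : ℕ → Fr) (L : ℕ → ℝ) (G V : Finset (Finset (Fin k))) (lam : Finset (Fin k) → ℝ)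
  (K₁ K₂ : Finset (Fin k)) (θ : ℝ), Sy U F s → PN U F s g L G V lam K₁ K₂ θ →
  (∃ x y : ℝ, ∃ K ∈ G, ∃ K' ∈ G, K ≠ K' ∧
    Spt U F (gr F s K) (fun n => tt (g n)) (y - lam K * x) ∧
    Spt U F (gr F s K') (fun n => tt (g n)) (y - lam K' * x) ∧
    (∀ K'' ∈ G, K'' ≠ K → K'' ≠ K' →
      ¬ Spt U F (gr F s K'') (fun n => tt (g n)) (y - lam K'' * x)) ∧
    ¬ Spt U F (gr F s (uni V)) (fun n => vv (g n)) x) ∨
  (∃ x y : ℝ, ∃ K ∈ G, Spt U F (gr F s K) (fun n => tt (g n)) (y - lam K * x) ∧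
    Spt U F (gr F s (uni V)) (fun n => vv (g n)) x ∧
    ∀ K' ∈ G, K' ≠ K → ¬ Spt U F (gr F s K') (fun n => tt (g n)) (y - lam K' * x))

/-- PLK. A macro point on exactly two blocks `K, K'` of `G`. Frame `g' n = cmp (g n) h`, `h` the frame with
`p0 = η, q0 = η, r0 = x, p1 = η lam K, q1 = η lam K', r1 = y` (axes in the directions of `K` and `K'`), `η > 0` small. By
`al_cmp`, `be_cmp`, `ga_cmp`: `al' = η (al + lam K * be)`, `be' = η (al + lam K' * be)`,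
`ga' = ga - al x - be y`. For `K`: `|al'| ≤ η ε |be|`, `|be'| ≥ η (Δ - ε) |be|`: `Hor 0`. For `K'`: `|be'| ≤ η ε |be|`,
`|al'| ≥ η (Δ - ε) |be|`: `Ver`. A point of the box of `g'` has old coordinates `P` with
`|P.1 - x| ≤ 2 η`, `|P.2 - y| ≤ 2 Λ η`, in the box `L` for large `n`. `con`: lines outside
`gr (uni G ∪ uni V)`: `con` of PL. Lines of `K'' ∈ G`, `K'' ≠ K, K'`, hitting it have `tt` within `4 Λ η + ε |x|` of
`y - lam K'' * x`, which is no support point: for small `η` they are `Neg` (`pos_of_not_neg`). Lines of `uni V`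
hitting it have `vv` within `2 η + ε (|y| + 1)` of `x`: the same. `crA`, `crB`: `cr`. `sep`: empty condition. `cA`:
`vv' = (tt + sg x - y) / (η (lam K - sg))` for the lines of `K'`, `cB`: `tt' = (tt + sg x - y) / (η (lam K' - sg))`
for those of `K` (divide by `be`), and `|tt + sg x - y| ≤ |tt - (y - lam x)| + ε |x|`. -/
def S_PLK : Prop := ∀ (k : ℕ) (U : Ultrafilter ℕ) (F : ℕ → Finset (ℝ × ℝ)) (s : ℕ → Fin k → ℝ)
  (g : ℕ → Fr) (L : ℕ → ℝ) (G V : Finset (Finset (Fin k))) (lam : Finset (Fin k) → ℝ)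
  (x y : ℝ), Sy U F s → PL U F s g L G V lam → ∀ K ∈ G, ∀ K' ∈ G, K ≠ K' →
    Spt U F (gr F s K) (fun n => tt (g n)) (y - lam K * x) →
    Spt U F (gr F s K') (fun n => tt (g n)) (y - lam K' * x) →
    (∀ K'' ∈ G, K'' ≠ K → K'' ≠ K' →
      ¬ Spt U F (gr F s K'') (fun n => tt (g n)) (y - lam K'' * x)) →
    ¬ Spt U F (gr F s (uni V)) (fun n => vv (g n)) x →
    ∃ g' : ℕ → Fr, TB U F s g' K' {K}

/-- PLV. A macro point on exactly one block `K` of `G` and on the vertical lines. Frame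
`g' n = cmp (g n) (hfr x y η η (lam K * η))`, `η > 0` small: TV with `A := K` and the blocks `V`. The box of `g'` is in
`|P.1 - x| ≤ η`, `|P.2 - y| ≤ Λ η`. `hor_hfr` (`a lam - c = 0`), `ver_hfr` (`C = Λ`). `con`: outside `gr (uni G ∪ uni V)`:
`con` of PL (the box is in the box `L` for large `n`); lines of `K' ∈ G`, `K' ≠ K`, hitting it have `tt` within
`2 Λ η + ε |x|` of `y - lam K' * x`, no support point: `Neg` for small `η`. `crA`, `crB`: `cr`. `sep`: PL. `cA`: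
`tt' = (tt + sg x - y) / η`; `cB`: `vv' = (vv - x + rh y) / (η (1 - rh lam K))`. -/
def S_PLV : Prop := ∀ (k : ℕ) (U : Ultrafilter ℕ) (F : ℕ → Finset (ℝ × ℝ)) (s : ℕ → Fin k → ℝ)
  (g : ℕ → Fr) (L : ℕ → ℝ) (G V : Finset (Finset (Fin k))) (lam : Finset (Fin k) → ℝ)
  (x y : ℝ), Sy U F s → PL U F s g L G V lam → ∀ K ∈ G,
    Spt U F (gr F s K) (fun n => tt (g n)) (y - lam K * x) →
    Spt U F (gr F s (uni V)) (fun n => vv (g n)) x →
    (∀ K' ∈ G, K' ≠ K → ¬ Spt U F (gr F s K') (fun n => tt (g n)) (y - lam K' * x)) →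
    ∃ g' : ℕ → Fr, TV U F s g' K V

/-- PLF. No planar situation, if there is no TB with at most `|V|` blocks. PM2, PGM (`PN` contains `PL`), then PLK and
TB1, or PLV and TBW. -/
def S_PLF : Prop := ∀ (k : ℕ) (U : Ultrafilter ℕ) (F : ℕ → Finset (ℝ × ℝ)) (s : ℕ → Fin k → ℝ)
  (g : ℕ → Fr) (L : ℕ → ℝ) (G V : Finset (Finset (Fin k))) (lam : Finset (Fin k) → ℝ),
  Sy U F s → PL U F s g L G V lam →
  (∀ (g' : ℕ → Fr) (A : Finset (Fin k)) (B : Finset (Finset (Fin k))), B.card ≤ V.card →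
    ¬ TB U F s g' A B) → False

/-! ## L. The theorem -/

/-- TBF. There is no TB. Induction on `m`: no TB with `|B| ≤ m`. `|B| = 0`: `cB` is impossible (the counts are
0, `Sy.one`). Let `|B| = m + 1`. If `∅ ∈ B`: TBE. If `|B| = 1`: TB1. Otherwise all blocks are non empty and CLU gives
`Γ`. If `crp (g n) (1/4) (1/4) (gr (uni Γ))` is `Neg2`: MRG with `η = 1/4` and the induction hypothesis. Otherwise it is
`Pos2` (`pos2_of_not_neg2`) and STP gives ST with `|V| ≤ m`; STF, whose hypotheses are the induction hypothesis and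
PLF (for the blocks `V`, again with the induction hypothesis). -/
def S_TBF : Prop := ∀ (k : ℕ) (U : Ultrafilter ℕ) (F : ℕ → Finset (ℝ × ℝ)) (s : ℕ → Fin k → ℝ),
  Sy U F s → ∀ (g : ℕ → Fr) (A : Finset (Fin k)) (B : Finset (Finset (Fin k))),
    ¬ TB U F s g A B

/-- INI. The start. Call `i` big if `(gr {i}).card` is `Pos`; the other ones are `Neg` (`pos_of_not_neg`). At least two
indices are big: `|F| ≤ ∑_i #gr {i}` (`Sy.sl`), and with at most one big index this is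
`≤ (1 - d) |F| + o(|F|)`. Choose, constant along `U`, a pair `i₀ ≠ j₀` of big indices with minimal
`|s i₀ - s j₀|`; `d' n := |s n i₀ - s n j₀| > 0` for all `n` (`Sy.inj`), `σ n := s n i₀`. A big `l` is of the first kind if
`|s l - σ| ≤ M d'` along `U` for some `M`, and then `λ_l` := limit of `(s l - σ)/d'`; otherwise of the second kind. For
different `l, l'` of the first kind `|λ_l - λ_l'| ≥ 1`. `g n := hfr 0 0 1 (d' n) (σ n)`: `al = σ - s`, `be = d'`,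
`ga l = l.2`. `G` := the `{l}`, `l` of the first kind, `V` := the `{l}` of the second kind, `lam {l} := λ_l`.
`L n := (n + 1) (1 + ∑_{l ∈ F n} (|tt l| + |vv l|))`. `hor`: `|σ - s l + λ_l d'| ≤ e d'`. `ver`:
`d' ≤ e |σ - s l|`. `con`: the remaining lines have indices which are not big. `cr`: two different lines of the same slope have no common
point. `sep`: `i = i'`. `ctH`, `ctV`: `e L n < |tt l|` is impossible as soon as `e (n + 1) ≥ 1`. `two`: `{i₀}`, `{j₀}`; all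
these lines hit the box (point `(0, tt)`). `lin`: `L n ≥ n`. -/
def S_INI : Prop := ∀ (k : ℕ) (U : Ultrafilter ℕ) (F : ℕ → Finset (ℝ × ℝ)) (s : ℕ → Fin k → ℝ)
  (d : ℝ), Sy U F s → 0 < d →
  (∀ i, ∀ᶠ n in (U : Filter ℕ), ((gr F s {i} n).card : ℝ) ≤ (1 - d) * ((F n).card : ℝ)) →
  ∃ (g : ℕ → Fr) (L : ℕ → ℝ) (G V : Finset (Finset (Fin k))) (lam : Finset (Fin k) → ℝ),
    PL U F s g L G V lam

/-- AFU. The affine theorem, uniform version. Otherwise, with `e = 1/(n + 1)`, `N₀ = n + 1`, there are `F n` with at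
most `k` slopes, `|F n| ≥ n + 1`, all classes `≤ (1 - δ)|F n|`, `DD (F n) < |F n|²/(n + 1)`. Extend the set of slopes to
`k` different reals `s n i`. With `U` a non principal ultrafilter (`Filter.hyperfilter ℕ`), `Sy U F s`: `dd` from
EDG: `#dde ≤ 4 |F|²/(n + 1) + 6 |F|`. INI gives PL, against PLF and TBF. -/
def S_AFU : Prop := ∀ (k : ℕ) (δ : ℝ), 0 < δ → ∃ e : ℝ, 0 < e ∧ ∃ N₀ : ℕ,
  ∀ F : Finset (ℝ × ℝ), (F.image Prod.fst).card ≤ k → N₀ ≤ F.card →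
    (∀ σ : ℝ, ((F.filter fun l => l.1 = σ).card : ℝ) ≤ (1 - δ) * F.card) →
    e * (F.card : ℝ) ^ 2 ≤ (DD F : ℝ)

end Pool.Agent.Work.MP_b25393_ag.UU
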