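import Mathlib
import Pool.Agent.Work.MP_b25393_ag.UU.StmtsC

/-!
# Uniform version, item BLC: disjoint families of subsets of `Fin k`
-/

set_option autoImplicit false

namespace Pool.Agent.Work.MP_b25393_ag.UU

open scoped Classical
open Pool.Agent.Work.MP_b25393_ag.U

theorem BLC_pf : S_BLC := by
  intro k G hG
  have h1 : G.card ≤ (Finset.univ : Finset (Option (Fin k))).card := by
    refine Finset.card_le_card_of_injOn
      (fun K => if h : K.Nonempty then some (K.min' h) else none) (fun _ _ => Finset.mem_univ _) ?_
    intro K hK K' hK' hf
    by_contra hne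
    have hd := hG K hK K' hK' hne
    by_cases h : K.Nonempty <;> by_cases h' : K'.Nonempty
    · simp only [h, h', dif_pos, Option.some.injEq] at hf
      have a1 := K.min'_mem h
      have a2 := K'.min'_mem h'
      rw [← hf] at a2
      exact Finset.disjoint_left.1 hd a1 a2
    · simp [h, h'] at hf
    · simp [h, h'] at hf
    · rw [Finset.not_nonempty_iff_eq_empty] at h h'
      exact hne (h.trans h'.symm)
  simpa using h1

end Pool.Agent.Work.MP_b25393_ag.UU
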