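import Pool.Agent.Work.MP_b25393_ag.UU.StmtsB

set_option autoImplicit false

namespace Pool.Agent.Work.MP_b25393_ag.UU

open scoped Classical
open Pool.Agent.Work.MP_b25393_ag.U

namespace I_CLU

/-- ultrafilter limits of bounded real sequences -/
theorem ulim (U : Ultrafilter ℕ) (f : ℕ → ℝ) (M : ℝ) (h : ∀ᶠ n in (U : Filter ℕ), |f n| ≤ M) :
    ∃ l : ℝ, ∀ e : ℝ, 0 < e → ∀ᶠ n in (U : Filter ℕ), |f n - l| ≤ e := by
  have hc : IsCompact (Set.Icc (-M) M) := isCompact_Icc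
  have hm : Set.Icc (-M) M ∈ U.map f := by
    rw [Ultrafilter.mem_map]
    have h' : ∀ᶠ n in (U : Filter ℕ), n ∈ f ⁻¹' Set.Icc (-M) M := by
      filter_upwards [h] with n hn
      exact abs_le.mp hn
    exact h'
  obtain ⟨l, -, hl⟩ := hc.ultrafilter_le_nhds' (U.map f) hm
  refine ⟨l, fun e he => ?_⟩
  have h1 : Filter.Tendsto f (U : Filter ℕ) (nhds l) := hl
  have h2 := h1 (Metric.closedBall_mem_nhds l he)
  filter_upwards [h2] with n hn
  have h3 : f n ∈ Metric.closedBall l e := hn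
  rw [Metric.mem_closedBall, Real.dist_eq] at h3
  exact h3

/-- the abstract cluster -/
theorem clus {k : ℕ} (U : Ultrafilter ℕ) (B : Finset (Finset (Fin k)))
    (x : ℕ → Finset (Fin k) → ℝ) (hB : 2 ≤ B.card)
    (hx : ∀ K ∈ B, ∀ K' ∈ B, K ≠ K' → ∀ᶠ n in (U : Filter ℕ), x n K ≠ x n K') :
    ∃ (Γ : Finset (Finset (Fin k))) (d : ℕ → ℝ) (lam : Finset (Fin k) → ℝ)
      (K₀ K₁ : Finset (Fin k)),
      Γ ⊆ B ∧ K₀ ∈ Γ ∧ K₁ ∈ Γ ∧ K₀ ≠ K₁ ∧ (∀ n, 0 < d n) ∧
      (∀ᶠ n in (U : Filter ℕ), d n = |x n K₀ - x n K₁|) ∧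
      (∀ K ∈ Γ, ∀ e : ℝ, 0 < e → ∀ᶠ n in (U : Filter ℕ),
        |x n K - x n K₀ - lam K * d n| ≤ e * d n) ∧
      (∀ K ∈ Γ, ∀ K' ∈ Γ, K ≠ K' → lam K ≠ lam K') ∧
      (∀ K ∈ B, K ∉ Γ → ∀ M : ℝ, ∀ᶠ n in (U : Filter ℕ), M * d n ≤ |x n K - x n K₀|) := by
  have hne : B.offDiag.Nonempty := by
    obtain ⟨a, ha, b, hb, hab⟩ := Finset.one_lt_card.mp hB
    exact ⟨(a, b), Finset.mem_offDiag.mpr ⟨ha, hb, hab⟩⟩
  have hmin : ∃ p ∈ B.offDiag, ∀ᶠ n in (U : Filter ℕ), ∀ q ∈ B.offDiag,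
      |x n p.1 - x n p.2| ≤ |x n q.1 - x n q.2| := by
    by_contra hcon
    push Not at hcon
    have h1 : ∀ᶠ n in (U : Filter ℕ), ∀ p ∈ B.offDiag, ¬ ∀ q ∈ B.offDiag,
        |x n p.1 - x n p.2| ≤ |x n q.1 - x n q.2| := by
      rw [Filter.eventually_all_finset]
      intro p hp
      filter_upwards [hcon p hp] with n hn hq
      obtain ⟨q, hq1, hq2⟩ := hn
      exact absurd (hq q hq1) (not_le.mpr hq2)
    obtain ⟨n, hn⟩ := h1.exists
    obtain ⟨p, hp, hpm⟩ := Finset.exists_min_image B.offDiag (fun q => |x n q.1 - x n q.2|) hne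
    exact hn p hp hpm
  obtain ⟨p, hp, hpm⟩ := hmin
  obtain ⟨hp0, hp1, hp01⟩ := Finset.mem_offDiag.mp hp
  set K₀ := p.1 with hK₀
  set K₁ := p.2 with hK₁
  have hmin : ∀ᶠ n in (U : Filter ℕ), ∀ K ∈ B, ∀ K' ∈ B, K ≠ K' →
      |x n K₀ - x n K₁| ≤ |x n K - x n K'| := by
    filter_upwards [hpm] with n hn K hK K' hK' hKK'
    exact hn (K, K') (Finset.mem_offDiag.mpr ⟨hK, hK', hKK'⟩)
  let d : ℕ → ℝ := fun n => if |x n K₀ - x n K₁| = 0 then 1 else |x n K₀ - x n K₁|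
  have hd0 : ∀ n, 0 < d n := by
    intro n
    show 0 < (if |x n K₀ - x n K₁| = 0 then (1 : ℝ) else |x n K₀ - x n K₁|)
    split_ifs with h
    · exact one_pos
    · exact lt_of_le_of_ne (abs_nonneg _) (Ne.symm h)
  have hd1 : ∀ᶠ n in (U : Filter ℕ), d n = |x n K₀ - x n K₁| := by
    filter_upwards [hx K₀ hp0 K₁ hp1 hp01] with n hn
    have h : ¬ |x n K₀ - x n K₁| = 0 := by
      rw [abs_eq_zero, sub_eq_zero]
      exact hn
    exact if_neg h
  let Γ : Finset (Finset (Fin k)) := B.filter fun K => ∃ M : ℝ, ∀ᶠ n in (U : Filter ℕ),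
    |x n K - x n K₀| ≤ M * d n
  have hΓ : ∀ K, K ∈ Γ ↔ K ∈ B ∧ ∃ M : ℝ, ∀ᶠ n in (U : Filter ℕ),
      |x n K - x n K₀| ≤ M * d n := fun K => Finset.mem_filter
  have hlim : ∀ K : Finset (Fin k), ∃ l : ℝ, K ∈ Γ → ∀ e : ℝ, 0 < e →
      ∀ᶠ n in (U : Filter ℕ), |(x n K - x n K₀) / d n - l| ≤ e := by
    intro K
    by_cases hK : K ∈ Γ
    · obtain ⟨-, M, hM⟩ := (hΓ K).mp hK
      obtain ⟨l, hl⟩ := ulim U (fun n => (x n K - x n K₀) / d n) M (by
        filter_upwards [hM] with n hn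
        rw [abs_div, abs_of_pos (hd0 n), div_le_iff₀ (hd0 n)]
        exact hn)
      exact ⟨l, fun _ => hl⟩
    · exact ⟨0, fun h => absurd h hK⟩
  choose lam hlam using hlim
  have hlam' : ∀ K ∈ Γ, ∀ e : ℝ, 0 < e → ∀ᶠ n in (U : Filter ℕ),
      |x n K - x n K₀ - lam K * d n| ≤ e * d n := by
    intro K hK e he
    filter_upwards [hlam K hK e he] with n hn
    have hd := hd0 n
    have e1 : x n K - x n K₀ - lam K * d n = ((x n K - x n K₀) / d n - lam K) * d n := by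
      field_simp
    rw [e1, abs_mul, abs_of_pos hd]
    exact mul_le_mul_of_nonneg_right hn hd.le
  refine ⟨Γ, d, lam, K₀, K₁, Finset.filter_subset _ _, ?_, ?_, hp01, hd0, hd1, hlam', ?_, ?_⟩
  · rw [hΓ]
    refine ⟨hp0, 0, Filter.Eventually.of_forall fun n => ?_⟩
    simp
  · rw [hΓ]
    refine ⟨hp1, 1, ?_⟩
    filter_upwards [hd1] with n hn
    rw [one_mul, hn, abs_sub_comm]
  · intro K hK K' hK' hne' heq
    have h1 := hlam' K hK (1 / 3) (by norm_num)
    have h2 := hlam' K' hK' (1 / 3) (by norm_num)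
    obtain ⟨n, hn⟩ := (h1.and (h2.and (hd1.and hmin))).exists
    obtain ⟨a1, a2, a3, a4⟩ := hn
    have a5 := a4 K ((hΓ K).mp hK).1 K' ((hΓ K').mp hK').1 hne'
    rw [← a3] at a5
    rw [heq] at a1
    have hd := hd0 n
    have a6 : |x n K - x n K'| ≤ |x n K - x n K₀ - lam K' * d n| +
        |x n K' - x n K₀ - lam K' * d n| := by
      have e1 : x n K - x n K' = (x n K - x n K₀ - lam K' * d n) -
        (x n K' - x n K₀ - lam K' * d n) := by ring
      rw [e1]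
      exact abs_sub _ _
    linarith
  · intro K hK hKΓ M
    by_contra hcon
    apply hKΓ
    rw [hΓ]
    refine ⟨hK, M, ?_⟩
    have h1 := Ultrafilter.eventually_not.mpr hcon
    filter_upwards [h1] with n hn
    exact (not_le.mp hn).le

end I_CLU

/-- CLU. Closest cluster. -/
theorem CLU_pf (hFGS : S_FGS) : S_CLU := by
  intro k U F s g A B hS hT hB hne
  -- the block `A` is not empty
  have hA : A.Nonempty := by
    rw [Finset.nonempty_iff_ne_empty]
    intro hA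
    obtain ⟨e, he, h1⟩ := hT.cA 1 one_pos
    obtain ⟨n, hn, hn1⟩ := (h1.and hS.one).exists
    have h2 : cn (gr F s A) (fun n => vv (g n)) (0 - 1) (0 + 1) n = 0 := by
      unfold cn gr
      rw [hA]
      simp
    rw [h2] at hn
    have h3 : (1 : ℝ) ≤ ((F n).card : ℝ) := by exact_mod_cast hn1
    have h4 : 0 < e * ((F n).card : ℝ) := by positivity
    simp only [Nat.cast_zero] at hn
    linarith
  obtain ⟨a, ha⟩ := hA
  have hι : ∀ K : Finset (Fin k), ∃ i : Fin k, K ∈ B → i ∈ K := by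
    intro K
    by_cases hK : K ∈ B
    · obtain ⟨i, hi⟩ := hne K hK
      exact ⟨i, fun _ => hi⟩
    · exact ⟨a, fun h => absurd h hK⟩
  choose ι hι using hι
  have hsub : ∀ K ∈ B, ∀ i ∈ K, i ∈ uni B := fun K hK i hi => mem_uni.mpr ⟨K, hK, hi⟩
  have hbe : ∀ K ∈ B, ∀ i ∈ K, ∀ e : ℝ, 0 < e → ∀ᶠ n in (U : Filter ℕ),
      be (g n) (s n i) ≠ 0 ∧ |sg (g n) (s n i)| ≤ e := by
    intro K hK i hi e he
    have h1 := hor_iff.mp (hT.hor K hK i hi) e he
    filter_upwards [h1] with n hn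
    rw [sub_zero] at hn
    exact hn
  -- different blocks have different slopes
  have hx : ∀ K ∈ B, ∀ K' ∈ B, K ≠ K' → ∀ᶠ n in (U : Filter ℕ),
      sg (g n) (s n (ι K)) ≠ sg (g n) (s n (ι K')) := by
    intro K hK K' hK' hKK'
    have hd : ι K ≠ ι K' := by
      intro h
      have h1 := hι K hK
      rw [h] at h1
      exact Finset.disjoint_left.mp (hT.dB K hK K' hK' hKK') h1 (hι K' hK')
    filter_upwards [hbe K hK _ (hι K hK) 1 one_pos, hbe K' hK' _ (hι K' hK') 1 one_pos] with n h1 h2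
    intro h3
    have b1 := h1.1
    have b2 := h2.1
    unfold sg at h3
    rw [div_eq_div_iff b1 b2] at h3
    have h4 := det_id (g n) (s n (ι K)) (s n (ι K'))
    have h5 : (s n (ι K) - s n (ι K')) * ((g n).p0 * (g n).q1 - (g n).p1 * (g n).q0) = 0 := by
      rw [← h4]
      linarith
    rcases mul_eq_zero.mp h5 with h6 | h6
    · exact hd (hS.inj n (sub_eq_zero.mp h6))
    · exact (g n).det h6
  obtain ⟨Γ, d, lam, K₀, K₁, hΓB, hK₀, hK₁, h01, hd0, hd1, hlam, hlne, hfar⟩ :=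
    I_CLU.clus U B (fun n K => sg (g n) (s n (ι K))) hB hx
  -- the blocks are small compared with their distances
  have H1 : ∀ K ∈ B, ∀ i ∈ K, ∀ K'' ∈ B, K ≠ K'' → ∀ δ : ℝ, 0 < δ → ∀ᶠ n in (U : Filter ℕ),
      |sg (g n) (s n i) - sg (g n) (s n (ι K))| ≤
        δ * |sg (g n) (s n (ι K)) - sg (g n) (s n (ι K''))| := by
    intro K hK i hi K'' hK'' hKK'' δ hδ
    have hnot : ι K'' ∉ K := by
      intro h
      exact Finset.disjoint_left.mp (hT.dB K hK K'' hK'' hKK'') h (hι K'' hK'')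
    have hF := hT.sep K hK i hi (ι K) (hι K hK) (ι K'') (hsub K'' hK'' _ (hι K'' hK'')) hnot a ha
    have he : 0 < min (1 / 2) (δ / 2) := lt_min (by norm_num) (by linarith)
    have h1 := hFGS k U s g i (ι K) (ι K'') a (hT.ver a ha) (hT.hor K hK i hi)
      (hT.hor K hK _ (hι K hK)) (hT.hor K'' hK'' _ (hι K'' hK'')) hF _ he
    filter_upwards [h1] with n hn
    have m1 : min (1 / 2) (δ / 2) ≤ 1 / 2 := min_le_left _ _
    have m2 : min (1 / 2) (δ / 2) ≤ δ / 2 := min_le_right _ _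
    set e := min (1 / 2) (δ / 2) with hedef
    set X := |sg (g n) (s n i) - sg (g n) (s n (ι K))| with hX
    set Y := |sg (g n) (s n (ι K)) - sg (g n) (s n (ι K''))| with hY
    have hY0 : 0 ≤ Y := abs_nonneg _
    have hX0 : 0 ≤ X := abs_nonneg _
    have h2 : |sg (g n) (s n i) - sg (g n) (s n (ι K''))| ≤ X + Y := by
      rw [hX, hY]
      have e1 : sg (g n) (s n i) - sg (g n) (s n (ι K'')) =
        (sg (g n) (s n i) - sg (g n) (s n (ι K))) +
          (sg (g n) (s n (ι K)) - sg (g n) (s n (ι K''))) := by ring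
      rw [e1]
      exact abs_add_le _ _
    have h3 : X ≤ e * (X + Y) := le_trans hn (mul_le_mul_of_nonneg_left h2 he.le)
    have h4 : e * X ≤ 1 / 2 * X := mul_le_mul_of_nonneg_right m1 hX0
    have h5 : e * Y ≤ δ / 2 * Y := mul_le_mul_of_nonneg_right m2 hY0
    nlinarith
  have hK₀B := hΓB hK₀
  have hK₁B := hΓB hK₁
  refine ⟨Γ, d, fun n => sg (g n) (s n (ι K₀)), lam, ?_⟩
  refine ⟨hΓB, ?_, hd0, ?_, ?_, ?_, hlne, ?_⟩
  · exact Finset.one_lt_card.mpr ⟨K₀, hK₀, K₁, hK₁, h01⟩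
  · intro e he
    filter_upwards [hbe K₀ hK₀B _ (hι K₀ hK₀B) (e / 2) (by linarith),
      hbe K₁ hK₁B _ (hι K₁ hK₁B) (e / 2) (by linarith), hd1] with n h1 h2 h3
    rw [h3]
    have h4 := abs_sub (sg (g n) (s n (ι K₀))) (sg (g n) (s n (ι K₁)))
    linarith [h1.2, h2.2]
  · intro e he
    filter_upwards [hbe K₀ hK₀B _ (hι K₀ hK₀B) e he] with n h1
    exact h1.2
  · intro K hK i hi e he
    have hKB := hΓB hK
    obtain ⟨K'', hK'', hKK''⟩ : ∃ K'' ∈ Γ, K ≠ K'' := by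
      by_cases h : K = K₀
      · exact ⟨K₁, hK₁, by rw [h]; exact h01⟩
      · exact ⟨K₀, hK₀, h⟩
    set C := |lam K| + |lam K''| + 2 with hC
    have hC0 : 0 < C := by
      have := abs_nonneg (lam K)
      have := abs_nonneg (lam K'')
      linarith
    have hδ : 0 < e / 2 / C := by positivity
    filter_upwards [H1 K hKB i hi K'' (hΓB hK'') hKK'' _ hδ, hlam K hK (e / 2) (by linarith),
      hlam K hK 1 one_pos, hlam K'' hK'' 1 one_pos] with n h1 h2 h3 h4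
    have hd := hd0 n
    have h5 : |sg (g n) (s n (ι K)) - sg (g n) (s n (ι K''))| ≤ C * d n := by
      have e1 : sg (g n) (s n (ι K)) - sg (g n) (s n (ι K'')) =
        (sg (g n) (s n (ι K)) - sg (g n) (s n (ι K₀)) - lam K * d n) -
        (sg (g n) (s n (ι K'')) - sg (g n) (s n (ι K₀)) - lam K'' * d n) +
          (lam K * d n - lam K'' * d n) := by ring
      rw [e1]
      have a1 := abs_add_le ((sg (g n) (s n (ι K)) - sg (g n) (s n (ι K₀)) - lam K * d n) -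
        (sg (g n) (s n (ι K'')) - sg (g n) (s n (ι K₀)) - lam K'' * d n))
          (lam K * d n - lam K'' * d n)
      have a2 := abs_sub (sg (g n) (s n (ι K)) - sg (g n) (s n (ι K₀)) - lam K * d n)
        (sg (g n) (s n (ι K'')) - sg (g n) (s n (ι K₀)) - lam K'' * d n)
      have a3 := abs_sub (lam K * d n) (lam K'' * d n)
      rw [abs_mul, abs_mul, abs_of_pos hd] at a3
      rw [hC]
      nlinarith
    have h6 : |sg (g n) (s n i) - sg (g n) (s n (ι K))| ≤ e / 2 * d n := by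
      refine le_trans h1 ?_
      calc e / 2 / C * |sg (g n) (s n (ι K)) - sg (g n) (s n (ι K''))| ≤ e / 2 / C * (C * d n) :=
            mul_le_mul_of_nonneg_left h5 hδ.le
        _ = e / 2 * d n := by
            field_simp
    have e2 : sg (g n) (s n i) - sg (g n) (s n (ι K₀)) - lam K * d n =
        (sg (g n) (s n i) - sg (g n) (s n (ι K))) +
        (sg (g n) (s n (ι K)) - sg (g n) (s n (ι K₀)) - lam K * d n) := by ring
    rw [e2]
    have a4 := abs_add_le (sg (g n) (s n i) - sg (g n) (s n (ι K)))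
      (sg (g n) (s n (ι K)) - sg (g n) (s n (ι K₀)) - lam K * d n)
    linarith
  · intro K hK hKΓ i hi M
    have hne0 : K ≠ K₀ := fun h => hKΓ (by rw [h]; exact hK₀)
    filter_upwards [H1 K hK i hi K₀ hK₀B hne0 (1 / 2) (by norm_num), hfar K hK hKΓ (2 * M)]
      with n h1 h2
    have e1 : sg (g n) (s n (ι K)) - sg (g n) (s n (ι K₀)) =
      (sg (g n) (s n i) - sg (g n) (s n (ι K₀))) -
      (sg (g n) (s n i) - sg (g n) (s n (ι K))) := by ring
    have a1 := abs_sub (sg (g n) (s n i) - sg (g n) (s n (ι K₀)))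
      (sg (g n) (s n i) - sg (g n) (s n (ι K)))
    rw [← e1] at a1
    linarith

end Pool.Agent.Work.MP_b25393_ag.UU
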