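import Pool.Agent.Work.MP_b25393_ag.UU.StmtsA

set_option autoImplicit false

namespace Pool.Agent.Work.MP_b25393_ag.UU

open scoped Classical
open Pool.Agent.Work.MP_b25393_ag.U

namespace I_CTL

theorem mem_vab {F : Finset (ℝ × ℝ)} {c : ℝ × ℝ} {x : ℝ} :
    x ∈ vab F c ↔ 2 ≤ on F (x, val c x) := by
  unfold vab
  rw [Finset.mem_image]
  constructor
  · rintro ⟨v, hv, rfl⟩
    rw [Finset.mem_filter] at hv
    have h : v = (v.1, val c v.1) := Prod.ext rfl hv.2.symm
    rw [← h]
    exact mem_vts.mp hv.1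
  · intro h
    exact ⟨(x, val c x), Finset.mem_filter.mpr ⟨mem_vts.mpr h, rfl⟩, rfl⟩

theorem two_le_on {F : Finset (ℝ × ℝ)} {c l : ℝ × ℝ} {x : ℝ} (hc : c ∈ F) (hl : l ∈ F)
    (hne : l ≠ c) (hx : val l x = val c x) : 2 ≤ on F (x, val c x) := by
  unfold on
  have : 1 < (F.filter fun m => val m (x, val c x).1 = (x, val c x).2).card := by
    rw [Finset.one_lt_card]
    exact ⟨l, Finset.mem_filter.mpr ⟨hl, hx⟩, c, Finset.mem_filter.mpr ⟨hc, rfl⟩, hne⟩
  exact this

/-- collisions -/
theorem card_coll {α β : Type*} (A : Finset α) (P : Finset β) (f : α → β)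
    [DecidablePred fun q : α × α => q.1 ≠ q.2 ∧ f q.1 = f q.2]
    (hf : ∀ a ∈ A, f a ∈ P) :
    A.card ≤ P.card + ((A ×ˢ A).filter fun q => q.1 ≠ q.2 ∧ f q.1 = f q.2).card := by
  rcases A.eq_empty_or_nonempty with rfl | ⟨a₀, _⟩
  · simp
  -- a representative
  have hrep : ∃ g : β → α, ∀ a ∈ A, g (f a) ∈ A ∧ f (g (f a)) = f a := by
    refine ⟨fun b => if h : ∃ a ∈ A, f a = b then h.choose else a₀, ?_⟩
    intro a ha
    have h : ∃ a' ∈ A, f a' = f a := ⟨a, ha, rfl⟩
    simp only [h, dif_pos]
    exact h.choose_spec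
  obtain ⟨g, hg⟩ := hrep
  have h1 : A.card = (A.filter fun a => g (f a) = a).card +
      (A.filter fun a => ¬ g (f a) = a).card :=
    (Finset.card_filter_add_card_filter_not _).symm
  have h2 : (A.filter fun a => g (f a) = a).card ≤ P.card := by
    refine Finset.card_le_card_of_injOn f ?_ ?_
    · intro a ha
      rw [Finset.mem_coe, Finset.mem_filter] at ha
      exact hf a ha.1
    · intro a ha b hb hab
      rw [Finset.mem_coe, Finset.mem_filter] at ha hb
      rw [← ha.2, ← hb.2, hab]
  have h3 : (A.filter fun a => ¬ g (f a) = a).card ≤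
      ((A ×ˢ A).filter fun q => q.1 ≠ q.2 ∧ f q.1 = f q.2).card := by
    refine Finset.card_le_card_of_injOn (fun a => (a, g (f a))) ?_ ?_
    · intro a ha
      rw [Finset.mem_coe, Finset.mem_filter] at ha
      rw [Finset.mem_coe, Finset.mem_filter, Finset.mem_product]
      obtain ⟨h4, h5⟩ := hg a ha.1
      exact ⟨⟨ha.1, h4⟩, fun h => ha.2 h.symm, h5.symm⟩
    · intro a _ b _ hab
      exact congrArg Prod.fst hab
  omega

theorem nxt_left {T : Finset ℝ} {q r : ℝ × ℝ} (hq : q ∈ nxt T) (hr : r ∈ nxt T)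
    (h : q.1 = r.1) : q = r := by
  unfold nxt at hq hr
  rw [Finset.mem_filter] at hq hr
  obtain ⟨_, h1, h2, h3, h4⟩ := hq
  obtain ⟨_, h5, h6, h7, h8⟩ := hr
  refine Prod.ext h ?_
  rcases lt_trichotomy q.2 r.2 with h9 | h9 | h9
  · exact absurd ⟨h ▸ h3, h9⟩ (h8 _ h2)
  · exact h9
  · exact absurd ⟨by rw [h]; exact h7, h9⟩ (h4 _ h6)

theorem nxt_right {T : Finset ℝ} {q r : ℝ × ℝ} (hq : q ∈ nxt T) (hr : r ∈ nxt T)
    (h : q.2 = r.2) : q = r := by
  unfold nxt at hq hr
  rw [Finset.mem_filter] at hq hr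
  obtain ⟨_, h1, h2, h3, h4⟩ := hq
  obtain ⟨_, h5, h6, h7, h8⟩ := hr
  refine Prod.ext ?_ h
  rcases lt_trichotomy q.1 r.1 with h9 | h9 | h9
  · exact absurd ⟨h9, by rw [h]; exact h7⟩ (h4 _ h5)
  · exact h9
  · exact absurd ⟨h9, h ▸ h3⟩ (h8 _ h1)

end I_CTL

open I_CTL in
theorem CTL_pf : S_CTL := by
  intro F V c I hc hV hI
  set P : Finset ℝ := (vab F c).filter (· ∈ I) with hP
  set D : Finset ℝ := P.filter (fun x => 3 ≤ on F (x, val c x)) with hD
  set vm := V.filter fun l => mt I c l with hvm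
  set tm := (F \ V).filter fun l => mt I c l with htm
  set K := (V ×ˢ V).filter fun q => q.1 ≠ q.2 ∧ q.1 ≠ c ∧ q.2 ≠ c ∧
      ∃ x ∈ I, val q.1 x = val c x ∧ val q.2 x = val c x with hK
  set E := (nxt (vab F c)).filter fun q =>
      on F (q.1, val c q.1) = 2 ∧ on F (q.2, val c q.2) = 2 with hE
  let X : ℝ × ℝ → ℝ := fun l => (crs l c).1
  have hX : ∀ l x, l ≠ c → val l x = val c x → X l = x := fun l x h1 h2 =>
    (eq_crs (slope_ne h1 h2) h2).symm
  have hmt : ∀ l, mt I c l → X l ∈ I ∧ val l (X l) = val c (X l) ∧ l ≠ c := by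
    rintro l ⟨h1, x, hx, h2⟩
    rw [hX l x h1 h2]
    exact ⟨hx, h2, h1⟩
  have hmP : ∀ l ∈ F, mt I c l → X l ∈ P := by
    intro l hl h
    obtain ⟨h1, h2, h3⟩ := hmt l h
    rw [hP, Finset.mem_filter, mem_vab]
    exact ⟨two_le_on hc hl h3 h2, h1⟩
  -- (1)
  have h1 : vm.card ≤ P.card + K.card := by
    refine (card_coll vm P X ?_).trans ?_
    · intro l hl
      rw [hvm, Finset.mem_filter] at hl
      exact hmP l (hV hl.1) hl.2
    · refine Nat.add_le_add_left (Finset.card_le_card ?_) _
      intro q hq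
      obtain ⟨hq1, h5, h6⟩ := Finset.mem_filter.mp hq
      obtain ⟨hq2, hq3⟩ := Finset.mem_product.mp hq1
      obtain ⟨h1, h2⟩ := Finset.mem_filter.mp hq2
      obtain ⟨h3, h4⟩ := Finset.mem_filter.mp hq3
      obtain ⟨h7, h8, h9⟩ := hmt _ h2
      obtain ⟨h10, h11, h12⟩ := hmt _ h4
      rw [hK, Finset.mem_filter, Finset.mem_product]
      refine ⟨⟨h1, h3⟩, h5, h9, h12, X q.1, h7, h8, ?_⟩
      rw [h6]
      exact h11
  -- (2)
  have h2 : D.card ≤ tm.card + K.card := by
    have hsub : D ⊆ tm.image X ∪ K.image fun q => X q.1 := by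
      intro x hx
      rw [hD, Finset.mem_filter, hP, Finset.mem_filter] at hx
      obtain ⟨⟨_, hxI⟩, h3⟩ := hx
      set G := F.filter fun m => val m (x, val c x).1 = (x, val c x).2 with hG
      have hcG : c ∈ G := Finset.mem_filter.mpr ⟨hc, rfl⟩
      have h4 : 1 < (G.erase c).card := by
        rw [Finset.card_erase_of_mem hcG]
        have : 3 ≤ G.card := h3
        omega
      obtain ⟨l, hl, l', hl', hne⟩ := Finset.one_lt_card.mp h4
      rw [Finset.mem_erase, hG, Finset.mem_filter] at hl hl'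
      obtain ⟨hlc, hlF, hlx⟩ := hl
      obtain ⟨hlc', hlF', hlx'⟩ := hl'
      simp only at hlx hlx'
      rw [Finset.mem_union, Finset.mem_image, Finset.mem_image]
      by_cases h5 : l ∈ V
      · by_cases h6 : l' ∈ V
        · right
          refine ⟨(l, l'), ?_, hX l x hlc hlx⟩
          rw [hK, Finset.mem_filter, Finset.mem_product]
          exact ⟨⟨h5, h6⟩, hne, hlc, hlc', x, hxI, hlx, hlx'⟩
        · left
          refine ⟨l', ?_, hX l' x hlc' hlx'⟩
          rw [htm, Finset.mem_filter, Finset.mem_sdiff]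
          exact ⟨⟨hlF', h6⟩, hlc', x, hxI, hlx'⟩
      · left
        refine ⟨l, ?_, hX l x hlc hlx⟩
        rw [htm, Finset.mem_filter, Finset.mem_sdiff]
        exact ⟨⟨hlF, h5⟩, hlc, x, hxI, hlx⟩
    calc D.card ≤ (tm.image X ∪ K.image fun q => X q.1).card := Finset.card_le_card hsub
      _ ≤ (tm.image X).card + (K.image fun q => X q.1).card := Finset.card_union_le _ _
      _ ≤ tm.card + K.card := Nat.add_le_add Finset.card_image_le Finset.card_image_le
  -- (3)
  set A := (nxt (vab F c)).filter fun q => q.1 ∈ P ∧ q.2 ∈ P with hA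
  have h3 : P.card ≤ A.card + 1 := by
    rcases P.eq_empty_or_nonempty with h | hne
    · rw [h]
      simp
    · have hsub : P ⊆ insert (P.max' hne) (A.image Prod.fst) := by
        intro x hx
        rw [Finset.mem_insert]
        by_cases hxm : x = P.max' hne
        · exact Or.inl hxm
        · right
          have hxlt : x < P.max' hne := lt_of_le_of_ne (P.le_max' x hx) hxm
          have hmP' := P.max'_mem hne
          set m := P.max' hne with hm
          have hx' := hx
          have hm' := hmP'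
          rw [hP, Finset.mem_filter] at hx' hm'
          set T := (vab F c).filter fun z => x < z with hT
          have hTm : m ∈ T := Finset.mem_filter.mpr ⟨hm'.1, hxlt⟩
          have hTne : T.Nonempty := ⟨m, hTm⟩
          have hmin := T.min'_mem hTne
          have hle := T.min'_le m hTm
          have hmin := Finset.mem_filter.mp hmin
          have hyI : T.min' hTne ∈ I := hI.out hx'.2 hm'.2 ⟨hmin.2.le, hle⟩
          rw [Finset.mem_image]
          refine ⟨(x, T.min' hTne), ?_, rfl⟩
          rw [hA, Finset.mem_filter]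
          refine ⟨?_, hx, ?_⟩
          · unfold nxt
            rw [Finset.mem_filter, Finset.mem_product]
            refine ⟨⟨hx'.1, hmin.1⟩, hx'.1, hmin.1, hmin.2, ?_⟩
            rintro z hz ⟨h4, h5⟩
            have h6 := T.min'_le z (Finset.mem_filter.mpr ⟨hz, h4⟩)
            exact absurd h5 (not_lt.mpr h6)
          · rw [hP, Finset.mem_filter]
            exact ⟨hmin.1, hyI⟩
      calc P.card ≤ (insert (P.max' hne) (A.image Prod.fst)).card := Finset.card_le_card hsub
        _ ≤ (A.image Prod.fst).card + 1 := Finset.card_insert_le _ _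
        _ ≤ A.card + 1 := Nat.add_le_add_right Finset.card_image_le _
  have h4 : A.card ≤ E.card + 2 * D.card := by
    have hsub : A ⊆ E ∪ ((A.filter fun q => q.1 ∈ D) ∪ A.filter fun q => q.2 ∈ D) := by
      intro q hq
      rw [Finset.mem_union, Finset.mem_union]
      by_cases h5 : q.1 ∈ D
      · exact Or.inr (Or.inl (Finset.mem_filter.mpr ⟨hq, h5⟩))
      · by_cases h6 : q.2 ∈ D
        · exact Or.inr (Or.inr (Finset.mem_filter.mpr ⟨hq, h6⟩))
        · left
          obtain ⟨h7, h8, h9⟩ := Finset.mem_filter.mp hq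
          refine Finset.mem_filter.mpr ⟨h7, ?_, ?_⟩
          · have h10 : ¬ 3 ≤ on F (q.1, val c q.1) := fun h => h5 (Finset.mem_filter.mpr ⟨h8, h⟩)
            have h11 : 2 ≤ on F (q.1, val c q.1) := by
              rw [hP, Finset.mem_filter] at h8
              exact mem_vab.mp h8.1
            omega
          · have h10 : ¬ 3 ≤ on F (q.2, val c q.2) := fun h => h6 (Finset.mem_filter.mpr ⟨h9, h⟩)
            have h11 : 2 ≤ on F (q.2, val c q.2) := by
              rw [hP, Finset.mem_filter] at h9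
              exact mem_vab.mp h9.1
            omega
    have h5 : (A.filter fun q => q.1 ∈ D).card ≤ D.card := by
      refine Finset.card_le_card_of_injOn Prod.fst ?_ ?_
      · intro q hq
        exact (Finset.mem_filter.mp hq).2
      · intro q hq r hr hqr
        have h6 := (Finset.mem_filter.mp (Finset.mem_filter.mp hq).1).1
        have h7 := (Finset.mem_filter.mp (Finset.mem_filter.mp hr).1).1
        exact nxt_left h6 h7 hqr
    have h6 : (A.filter fun q => q.2 ∈ D).card ≤ D.card := by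
      refine Finset.card_le_card_of_injOn Prod.snd ?_ ?_
      · intro q hq
        exact (Finset.mem_filter.mp hq).2
      · intro q hq r hr hqr
        have h6 := (Finset.mem_filter.mp (Finset.mem_filter.mp hq).1).1
        have h7 := (Finset.mem_filter.mp (Finset.mem_filter.mp hr).1).1
        exact nxt_right h6 h7 hqr
    have h7 := Finset.card_le_card hsub
    have h8 := Finset.card_union_le E
      ((A.filter fun q => q.1 ∈ D) ∪ A.filter fun q => q.2 ∈ D)
    have h9 := Finset.card_union_le (A.filter fun q => q.1 ∈ D) (A.filter fun q => q.2 ∈ D)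
    omega
  omega

end Pool.Agent.Work.MP_b25393_ag.UU
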