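import Pool.Agent.Work.MP_b25393_ag.UU.StmtsA

/-!
# Block UU, item DBP
-/

set_option autoImplicit false

namespace Pool.Agent.Work.MP_b25393_ag.UU

open scoped Classical
open Pool.Agent.Work.MP_b25393_ag.U

theorem DBP_pf (hZER : S_ZER) : S_DBP := by
  intro F c x₁ x₂ hc hN h1 h2
  have hlt : x₁ < x₂ := hN.2.2.1
  have hv1 : (x₁, val c x₁) ∈ vts F := mem_vts.2 (by rw [h1])
  have hv2 : (x₂, val c x₂) ∈ vts F := mem_vts.2 (by rw [h2])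
  have hne : ((x₂, val c x₂) : ℝ × ℝ) ≠ (x₁, val c x₁) := by
    intro h
    have : x₂ = x₁ := congrArg Prod.fst h
    linarith
  have key : ∀ r, (r = rk F c (x₁, x₂) ∨ r = rk F c (x₁, x₂) + 1) → ∀ z ∈ zer F r,
      ¬ (((x₁, val c x₁) : ℝ × ℝ).1 < z ∧ z < ((x₂, val c x₂) : ℝ × ℝ).1 ∨
        ((x₂, val c x₂) : ℝ × ℝ).1 < z ∧ z < ((x₁, val c x₁) : ℝ × ℝ).1) := by
    intro r hr z hz h
    rcases h with ⟨a, b⟩ | ⟨a, b⟩
    · exact (hZER F r).2.2 c hc x₁ x₂ hN z a b hr hz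
    · simp only at a b
      linarith
  constructor
  · intro e1 e2
    refine ⟨?_, Or.inr (Or.inr ⟨(x₂, val c x₂), ?_, hne, key _ (Or.inl rfl)⟩)⟩
    · exact Finset.mem_filter.2 ⟨hv1, Or.inr e1⟩
    · exact Finset.mem_filter.2 ⟨hv2, Or.inr e2⟩
  · intro e1 e2
    refine ⟨?_, Or.inr (Or.inr ⟨(x₂, val c x₂), ?_, hne, key _ (Or.inr rfl)⟩)⟩
    · exact Finset.mem_filter.2 ⟨hv1, Or.inl (by omega)⟩
    · exact Finset.mem_filter.2 ⟨hv2, Or.inl (by omega)⟩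

end Pool.Agent.Work.MP_b25393_ag.UU
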