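import Pool.Agent.Work.MP_b25393_ag.UU.StmtsA

/-! # Item DBX: the heart of the edge lemma. -/

set_option autoImplicit false

namespace Pool.Agent.Work.MP_b25393_ag.UU

open scoped Classical
open Pool.Agent.Work.MP_b25393_ag.U

namespace I_DBX

theorem lo_add_on (F : Finset (ℝ × ℝ)) (p : ℝ × ℝ) :
    lo F p + on F p = (F.filter fun l => val l p.1 ≤ p.2).card := by
  unfold lo on
  rw [← Finset.card_union_of_disjoint, ← Finset.filter_or]
  · congr 1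
    ext l
    simp only [Finset.mem_filter, le_iff_lt_or_eq]
  · rw [Finset.disjoint_left]
    intro l hl hl'
    rw [Finset.mem_filter] at hl hl'
    exact absurd hl'.2 hl.2.ne

theorem val_cont (l : ℝ × ℝ) : Continuous (val l) := by
  unfold val
  fun_prop

theorem near_lo (F : Finset (ℝ × ℝ)) (c : ℝ × ℝ) (x₁ : ℝ) :
    ∀ᶠ x in nhds x₁, ∀ l ∈ F, val l x₁ < val c x₁ → val l x < val c x := by
  rw [Filter.eventually_all_finset]
  intro l _
  by_cases h : val l x₁ < val c x₁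
  · filter_upwards [((val_cont l).tendsto x₁).eventually_lt ((val_cont c).tendsto x₁) h] with x hx _
    exact hx
  · exact Filter.Eventually.of_forall fun x h' => absurd h' h

theorem near_hi (F : Finset (ℝ × ℝ)) (c : ℝ × ℝ) (x₁ : ℝ) :
    ∀ᶠ x in nhds x₁, ∀ l ∈ F, val c x₁ < val l x₁ → val c x < val l x := by
  rw [Filter.eventually_all_finset]
  intro l _
  by_cases h : val c x₁ < val l x₁
  · filter_upwards [((val_cont c).tendsto x₁).eventually_lt ((val_cont l).tendsto x₁) h] with x hx _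
    exact hx
  · exact Filter.Eventually.of_forall fun x h' => absurd h' h

/-- there is a point close to `x₁` on its left -/
theorem exists_left {P : ℝ → Prop} {x₁ z : ℝ} (hz : z < x₁) (h : ∀ᶠ x in nhds x₁, P x) :
    ∃ x, z < x ∧ x < x₁ ∧ P x := by
  have h1 : ∀ᶠ x in nhdsWithin x₁ (Set.Iio x₁), P x := h.filter_mono nhdsWithin_le_nhds
  obtain ⟨x, hx, hx'⟩ := (h1.and (Ioo_mem_nhdsLT hz)).exists
  exact ⟨x, hx'.1, hx'.2, hx⟩

theorem exists_right {P : ℝ → Prop} {x₁ z : ℝ} (hz : x₁ < z) (h : ∀ᶠ x in nhds x₁, P x) :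
    ∃ x, x₁ < x ∧ x < z ∧ P x := by
  have h1 : ∀ᶠ x in nhdsWithin x₁ (Set.Ioi x₁), P x := h.filter_mono nhdsWithin_le_nhds
  obtain ⟨x, hx, hx'⟩ := (h1.and (Ioo_mem_nhdsGT hz)).exists
  exact ⟨x, hx'.1, hx'.2, hx⟩

/-- `c` is above the level on the left of `x₁` -/
theorem lo_left {F : Finset (ℝ × ℝ)} {c w : ℝ × ℝ} {x₁ x : ℝ} (hw : w ∈ F)
    (hwx : val w x₁ = val c x₁) (h : ∀ l ∈ F, val l x₁ < val c x₁ → val l x < val c x)
    (h' : val w x < val c x) : lo F (x₁, val c x₁) + 1 ≤ lo F (x, val c x) := by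
  unfold lo
  have hnot : w ∉ F.filter fun l => val l (x₁, val c x₁).1 < (x₁, val c x₁).2 := by
    intro hc
    have h1 : val w x₁ < val c x₁ := (Finset.mem_filter.mp hc).2
    linarith
  rw [← Finset.card_insert_of_notMem hnot]
  refine Finset.card_le_card ?_
  intro l hl
  rw [Finset.mem_insert] at hl
  rw [Finset.mem_filter]
  rcases hl with rfl | hl
  · exact ⟨hw, h'⟩
  · rw [Finset.mem_filter] at hl
    exact ⟨hl.1, h l hl.1 hl.2⟩

/-- `c` is below the level on the right of `x₂` -/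
theorem hi_right {F : Finset (ℝ × ℝ)} {c w : ℝ × ℝ} {x₂ x : ℝ} (hw : w ∈ F)
    (hwx : val w x₂ = val c x₂) (h : ∀ l ∈ F, val c x₂ < val l x₂ → val c x < val l x)
    (h' : val c x < val w x) :
    lo F (x, val c x) + on F (x, val c x) + 1 ≤ lo F (x₂, val c x₂) + on F (x₂, val c x₂) := by
  rw [lo_add_on, lo_add_on]
  have hnot : w ∉ F.filter fun l => val l (x, val c x).1 ≤ (x, val c x).2 := by
    intro hc
    have h1 : val w x ≤ val c x := (Finset.mem_filter.mp hc).2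
    linarith
  rw [← Finset.card_insert_of_notMem hnot]
  refine Finset.card_le_card ?_
  intro l hl
  rw [Finset.mem_insert] at hl
  rw [Finset.mem_filter]
  rcases hl with rfl | hl
  · exact ⟨hw, hwx.le⟩
  · rw [Finset.mem_filter] at hl
    refine ⟨hl.1, ?_⟩
    have h1 : val l x ≤ val c x := hl.2
    show val l x₂ ≤ val c x₂
    by_contra hc
    push Not at hc
    exact absurd (h l hl.1 hc) (not_lt.mpr h1)

/-- the level below an open gap -/
theorem level_low (hLEV : S_LEV) (hZER : S_ZER) {F : Finset (ℝ × ℝ)} {r j : ℕ} {a b : ℝ}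
    (hab : a < b) (hj : j + 1 = r) (hr' : j < F.card)
    (hz : ∀ x, a < x → x < b → x ∉ zer F r)
    (hv : ∀ v ∈ chn F r, a < v.1 → v.1 < b → lo F v + on F v ≠ r) :
    ∃ l ∈ F, ∀ x, a ≤ x → x ≤ b → Lv F j l x := by
  refine hLEV F j a b hab hr' ?_
  rintro v hvv ha hb ⟨h1, h2⟩
  have h3 : ¬ Cl F r v.1 := fun hc => hz v.1 ha hb ((hZER F r).1 _ hc)
  have h4 : lo F v + on F v = r := by
    by_contra hne
    exact h3 ⟨v.2, by show lo F v < r; omega, by show r < lo F v + on F v; omega⟩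
  exact hv v (Finset.mem_filter.mpr ⟨hvv, Or.inl h4⟩) ha hb h4

/-- the level above an open gap -/
theorem level_high (hLEV : S_LEV) (hZER : S_ZER) {F : Finset (ℝ × ℝ)} {r : ℕ} {a b : ℝ}
    (hab : a < b) (hr' : r < F.card)
    (hz : ∀ x, a < x → x < b → x ∉ zer F r)
    (hv : ∀ v ∈ chn F r, a < v.1 → v.1 < b → lo F v ≠ r) :
    ∃ l ∈ F, ∀ x, a ≤ x → x ≤ b → Lv F r l x := by
  refine hLEV F r a b hab hr' ?_
  rintro v hvv ha hb ⟨h1, h2⟩
  have h3 : ¬ Cl F r v.1 := fun hc => hz v.1 ha hb ((hZER F r).1 _ hc)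
  have h4 : lo F v = r := by
    by_contra hne
    exact h3 ⟨v.2, by show lo F v < r; omega, by show r < lo F v + on F v; omega⟩
  exact hv v (Finset.mem_filter.mpr ⟨hvv, Or.inr h4⟩) ha hb h4

theorem zer_cl {F : Finset (ℝ × ℝ)} {r : ℕ} {x : ℝ} (h : x ∈ zer F r) : Cl F r x :=
  (Finset.mem_filter.mp h).2

/-- a chain vertex which is not bad -/
theorem not_bad {F : Finset (ℝ × ℝ)} {r : ℕ} {v : ℝ × ℝ} (hv : v ∈ chn F r) (h : ¬ Bad F r v) :
    (∃ z ∈ zer F r, z < v.1) ∧ (∃ z ∈ zer F r, v.1 < z) ∧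
      ∀ v' ∈ chn F r, v' ≠ v → ∃ z ∈ zer F r, (v.1 < z ∧ z < v'.1) ∨ (v'.1 < z ∧ z < v.1) := by
  unfold Bad at h
  push Not at h
  obtain ⟨h1, h2, h3⟩ := h hv
  refine ⟨h1, h2, fun v' hv' hne => ?_⟩
  obtain ⟨z, hz, hz'⟩ := h3 v' hv' hne
  exact ⟨z, hz, hz'⟩

/-- the left part of the argument -/
theorem partA (hLVU : S_LVU) (hLEV : S_LEV) (hZER : S_ZER) {F : Finset (ℝ × ℝ)} {c w w' : ℝ × ℝ}
    {x₁ x₂ : ℝ} {ρ : ℕ} (hc : c ∈ F) (hN : Nxt (vab F c) x₁ x₂) (hρ : rk F c (x₁, x₂) = ρ)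
    (h1 : on F (x₁, val c x₁) = 2) (h2 : on F (x₂, val c x₂) = 2) (hρ1 : 1 ≤ ρ)
    (hρ2 : ρ + 2 ≤ F.card) (hl1 : lo F (x₁, val c x₁) = ρ) (hl2 : lo F (x₂, val c x₂) + 1 = ρ)
    (hw : w ∈ F) (hwx : val w x₁ = val c x₁)
    (hwu : ∀ l ∈ F, val l x₁ = val c x₁ → l = c ∨ l = w) (hwl : ∀ x, x < x₁ → val w x < val c x)
    (hwu' : ∀ l ∈ F, val l x₂ = val c x₂ → l = c ∨ l = w')
    (hnb : ¬ Bad F ρ (x₁, val c x₁)) : ∃ z₀, z₀ < x₁ ∧ val w z₀ = val w' z₀ := by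
  have hx12 : x₁ < x₂ := hN.2.2.1
  have hv1 : (x₁, val c x₁) ∈ chn F ρ :=
    Finset.mem_filter.mpr ⟨mem_vts.mpr h1.ge, Or.inr hl1⟩
  obtain ⟨⟨za, hza, hzax⟩, -, hsep⟩ := not_bad hv1 hnb
  -- the largest zero on the left
  obtain ⟨z₀, hz₀, hmax⟩ := Finset.exists_max_image ((zer F ρ).filter fun z => z < x₁) id
    ⟨za, Finset.mem_filter.mpr ⟨hza, hzax⟩⟩
  rw [Finset.mem_filter] at hz₀
  obtain ⟨hz₀, hz₀x⟩ := hz₀
  have hnz : ∀ x, z₀ < x → x < x₂ → x ∉ zer F ρ := by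
    intro x hx hx' hxz
    rcases lt_trichotomy x x₁ with h | h | h
    · have h3 := hmax x (Finset.mem_filter.mpr ⟨hxz, h⟩)
      simp only [id] at h3
      linarith
    · rw [h] at hxz
      exact (hZER F ρ).2.1 _ hv1 hxz
    · exact (hZER F ρ).2.2 c hc x₁ x₂ hN x h hx' (Or.inl hρ.symm) hxz
  have hnv : ∀ v ∈ chn F ρ, z₀ < v.1 → v.1 < x₂ → v = (x₁, val c x₁) := by
    intro v hv hva hvb
    by_contra hne
    obtain ⟨z, hz, hz'⟩ := hsep v hv hne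
    rcases hz' with ⟨h3, h4⟩ | ⟨h3, h4⟩
    · exact hnz z (hz₀x.trans h3) (h4.trans hvb) hz
    · have h4' : z < x₁ := h4
      exact hnz z (hva.trans h3) (h4'.trans hx12) hz
  -- the level below the gap
  obtain ⟨l, hl, hlL⟩ := level_low hLEV hZER (F := F) (r := ρ) (j := ρ - 1) (a := z₀) (b := x₂)
    (hz₀x.trans hx12) (by omega) (by omega) hnz (by
      intro v hv hva hvb
      rw [hnv v hv hva hvb, hl1, h1]
      omega)
  have hlx : val l x₂ = val c x₂ := by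
    obtain ⟨h3, h4⟩ := hlL x₂ (hz₀x.trans hx12).le le_rfl
    exact hLVU F (ρ - 1) x₂ _ _ h3 h4 (by omega) (by omega)
  have hlw : l = w' := by
    rcases hwu' l hl hlx with h3 | h3
    · exfalso
      obtain ⟨h4, -⟩ := hlL ((x₁ + x₂) / 2) (by linarith) (by linarith)
      rw [h3] at h4
      have h5 : rk F c (x₁, x₂) = lo F ((x₁ + x₂) / 2, val c ((x₁ + x₂) / 2)) := rfl
      omega
    · exact h3
  subst hlw
  -- the level above the gap
  obtain ⟨m, hm, hmL⟩ := level_high hLEV hZER (F := F) (r := ρ) (a := z₀) (b := x₁)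
    hz₀x (by omega) (fun x hx hx' => hnz x hx (hx'.trans hx12)) (by
      intro v hv hva hvb
      have h3 := hnv v hv hva (hvb.trans hx12)
      rw [h3] at hvb
      exact absurd hvb (lt_irrefl _))
  have hmx : val m x₁ = val c x₁ := by
    obtain ⟨h3, h4⟩ := hmL x₁ hz₀x.le le_rfl
    exact hLVU F ρ x₁ _ _ h3 h4 (by omega) (by omega)
  have hmw : m = w := by
    rcases hwu m hm hmx with h3 | h3
    · exfalso
      obtain ⟨x, hx, hx', hP⟩ := exists_left hz₀x (near_lo F c x₁)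
      have h4 := lo_left hw hwx hP (hwl x hx')
      obtain ⟨h5, -⟩ := hmL x hx.le hx'.le
      rw [h3] at h5
      omega
    · exact h3
  subst hmw
  -- at `z₀`
  obtain ⟨y, hy, hy'⟩ := zer_cl hz₀
  refine ⟨z₀, hz₀x, ?_⟩
  have e1 : val m z₀ = y := by
    obtain ⟨h3, h4⟩ := hmL z₀ le_rfl hz₀x.le
    exact hLVU F ρ z₀ _ _ h3 h4 (by omega) (by omega)
  have e2 : val l z₀ = y := by
    obtain ⟨h3, h4⟩ := hlL z₀ le_rfl (hz₀x.trans hx12).le
    exact hLVU F (ρ - 1) z₀ _ _ h3 h4 (by omega) (by omega)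
  rw [e1, e2]

/-- the right part of the argument -/
theorem partB (hLVU : S_LVU) (hLEV : S_LEV) (hEDI : S_EDI) (hZER : S_ZER) {F : Finset (ℝ × ℝ)}
    {c w w' : ℝ × ℝ} {x₁ x₂ : ℝ} {ρ : ℕ} (hc : c ∈ F) (hN : Nxt (vab F c) x₁ x₂)
    (hρ : rk F c (x₁, x₂) = ρ) (h1 : on F (x₁, val c x₁) = 2) (h2 : on F (x₂, val c x₂) = 2)
    (hρ1 : 1 ≤ ρ) (hρ2 : ρ + 2 ≤ F.card) (hl1 : lo F (x₁, val c x₁) = ρ)
    (hl2 : lo F (x₂, val c x₂) + 1 = ρ)
    (hwu : ∀ l ∈ F, val l x₁ = val c x₁ → l = c ∨ l = w)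
    (hw' : w' ∈ F) (hwx' : val w' x₂ = val c x₂)
    (hwu' : ∀ l ∈ F, val l x₂ = val c x₂ → l = c ∨ l = w')
    (hwr' : ∀ x, x₂ < x → val c x < val w' x)
    (hnb : ¬ Bad F (ρ + 1) (x₂, val c x₂)) : ∃ z₁, x₂ < z₁ ∧ val w z₁ = val w' z₁ := by
  have hx12 : x₁ < x₂ := hN.2.2.1
  have hv2 : (x₂, val c x₂) ∈ chn F (ρ + 1) :=
    Finset.mem_filter.mpr ⟨mem_vts.mpr h2.ge, Or.inl (by omega)⟩
  obtain ⟨-, ⟨za, hza, hzax⟩, hsep⟩ := not_bad hv2 hnb
  -- the smallest zero on the right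
  obtain ⟨z₁, hz₁, hmin⟩ := Finset.exists_min_image ((zer F (ρ + 1)).filter fun z => x₂ < z) id
    ⟨za, Finset.mem_filter.mpr ⟨hza, hzax⟩⟩
  rw [Finset.mem_filter] at hz₁
  obtain ⟨hz₁, hz₁x⟩ := hz₁
  have hnz : ∀ x, x₁ < x → x < z₁ → x ∉ zer F (ρ + 1) := by
    intro x hx hx' hxz
    rcases lt_trichotomy x x₂ with h | h | h
    · exact (hZER F (ρ + 1)).2.2 c hc x₁ x₂ hN x hx h (Or.inr (by rw [hρ])) hxz
    · rw [h] at hxz
      exact (hZER F (ρ + 1)).2.1 _ hv2 hxz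
    · have h3 := hmin x (Finset.mem_filter.mpr ⟨hxz, h⟩)
      simp only [id] at h3
      linarith
  have hnv : ∀ v ∈ chn F (ρ + 1), x₁ < v.1 → v.1 < z₁ → v = (x₂, val c x₂) := by
    intro v hv hva hvb
    by_contra hne
    obtain ⟨z, hz, hz'⟩ := hsep v hv hne
    rcases hz' with ⟨h3, h4⟩ | ⟨h3, h4⟩
    · have h3' : x₂ < z := h3
      exact hnz z (hx12.trans h3') (h4.trans hvb) hz
    · have h4' : z < x₂ := h4
      exact hnz z (hva.trans h3) (h4'.trans hz₁x) hz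
  have hmid := hEDI F c x₁ x₂ hc hN ((x₁ + x₂) / 2) (by linarith) (by linarith)
  -- the level above the gap
  obtain ⟨l, hl, hlL⟩ := level_high hLEV hZER (F := F) (r := ρ + 1) (a := x₁) (b := z₁)
    (hx12.trans hz₁x) (by omega) hnz (by
      intro v hv hva hvb
      rw [hnv v hv hva hvb]
      omega)
  have hlx : val l x₁ = val c x₁ := by
    obtain ⟨h3, h4⟩ := hlL x₁ le_rfl (hx12.trans hz₁x).le
    exact hLVU F (ρ + 1) x₁ _ _ h3 h4 (by omega) (by omega)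
  have hlw : l = w := by
    rcases hwu l hl hlx with h3 | h3
    · exfalso
      obtain ⟨-, h4⟩ := hlL ((x₁ + x₂) / 2) (by linarith) (by linarith)
      rw [h3] at h4
      have h5 := hmid.1
      have h6 := hmid.2.1
      omega
    · exact h3
  subst hlw
  -- the level below the gap
  obtain ⟨m, hm, hmL⟩ := level_low hLEV hZER (F := F) (r := ρ + 1) (j := ρ) (a := x₂) (b := z₁)
    hz₁x rfl (by omega) (fun x hx hx' => hnz x (hx12.trans hx) hx') (by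
      intro v hv hva hvb
      have h3 := hnv v hv (hx12.trans hva) hvb
      rw [h3] at hva
      exact absurd hva (lt_irrefl _))
  have hmx : val m x₂ = val c x₂ := by
    obtain ⟨h3, h4⟩ := hmL x₂ le_rfl hz₁x.le
    exact hLVU F ρ x₂ _ _ h3 h4 (by omega) (by omega)
  have hmw : m = w' := by
    rcases hwu' m hm hmx with h3 | h3
    · exfalso
      obtain ⟨x, hx, hx', hP⟩ := exists_right hz₁x (near_hi F c x₂)
      have h4 := hi_right hw' hwx' hP (hwr' x hx)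
      obtain ⟨-, h5⟩ := hmL x hx.le hx'.le
      rw [h3] at h5
      omega
    · exact h3
  subst hmw
  -- at `z₁`
  obtain ⟨y, hy, hy'⟩ := zer_cl hz₁
  refine ⟨z₁, hz₁x, ?_⟩
  have e1 : val m z₁ = y := by
    obtain ⟨h3, h4⟩ := hmL z₁ hz₁x.le le_rfl
    exact hLVU F ρ z₁ _ _ h3 h4 (by omega) (by omega)
  have e2 : val l z₁ = y := by
    obtain ⟨h3, h4⟩ := hlL z₁ (hx12.trans hz₁x).le le_rfl
    exact hLVU F (ρ + 1) z₁ _ _ h3 h4 (by omega) (by omega)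
  rw [e1, e2]

end I_DBX

theorem DBX_pf (hLVU : S_LVU) (hLEV : S_LEV) (hEDI : S_EDI) (hEDL : S_EDL) (hEDR : S_EDR)
    (hZER : S_ZER) : S_DBX := by
  intro F c x₁ x₂ hc hN h1 h2 hρ1 hρ2 hl1 hl2
  by_contra hcon
  push Not at hcon
  obtain ⟨hb1, hb2⟩ := hcon
  have hx12 : x₁ < x₂ := hN.2.2.1
  obtain ⟨w, hw, hwc, hwx, hwu, hwA⟩ := hEDL F c x₁ x₂ hc hN h1
  obtain ⟨w', hw', hwc', hwx', hwu', hwB⟩ := hEDR F c x₁ x₂ hc hN h2
  rcases hwA with ⟨hA1, hA2, -⟩ | ⟨-, -, hA3⟩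
  swap
  · omega
  rcases hwB with ⟨-, -, hB3⟩ | ⟨hB1, hB2, -⟩
  · omega
  obtain ⟨z₀, hz₀, e₀⟩ := I_DBX.partA (w' := w') hLVU hLEV hZER hc hN rfl h1 h2 hρ1 hρ2 hl1 hl2 hw
    hwx hwu hA2 hwu' hb1
  obtain ⟨z₁, hz₁, e₁⟩ := I_DBX.partB (w := w) hLVU hLEV hEDI hZER hc hN rfl h1 h2 hρ1 hρ2 hl1 hl2
    hwu hw' hwx' hwu' hB2 hb2
  have hne : w ≠ w' := by
    rintro rfl
    have h3 := hA1 ((x₁ + x₂) / 2) (by linarith)
    have h4 := hB1 ((x₁ + x₂) / 2) (by linarith)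
    linarith
  have hs := slope_ne hne e₀
  have h5 := eq_crs hs e₀
  have h6 := eq_crs hs e₁
  linarith

end Pool.Agent.Work.MP_b25393_ag.UU
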