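import Pool.Agent.Work.MP_b25393_ag.UU.StmtsA

/-!
# Block [b25393 UU], item DBY: mirror image of DBX (reflection of the abscissa)
-/

set_option autoImplicit false

namespace Pool.Agent.Work.MP_b25393_ag.UU

open scoped Classical
open Pool.Agent.Work.MP_b25393_ag.U

namespace I_DBY

/-- reflection of the abscissa of a point, or of the slope of a line -/
def rf (p : ℝ × ℝ) : ℝ × ℝ := (-p.1, p.2)

theorem rf_rf (p : ℝ × ℝ) : rf (rf p) = p := by
  unfold rf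
  simp

theorem rf_inj : Function.Injective rf := fun p q h => by
  rw [← rf_rf p, h, rf_rf]

theorem rf_fst (p : ℝ × ℝ) : (rf p).1 = -p.1 := rfl

theorem val_rf (l : ℝ × ℝ) (x : ℝ) : val (rf l) x = val l (-x) := by
  unfold val rf
  ring

variable (F : Finset (ℝ × ℝ))

theorem lo_rf (p : ℝ × ℝ) : lo (F.image rf) p = lo F (rf p) := by
  unfold lo
  rw [Finset.filter_image, Finset.card_image_of_injective _ rf_inj]
  simp only [val_rf]
  rfl

theorem on_rf (p : ℝ × ℝ) : on (F.image rf) p = on F (rf p) := by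
  unfold on
  rw [Finset.filter_image, Finset.card_image_of_injective _ rf_inj]
  simp only [val_rf]
  rfl

theorem mem_vts_rf (p : ℝ × ℝ) : p ∈ vts (F.image rf) ↔ rf p ∈ vts F := by
  rw [mem_vts, mem_vts, on_rf]

theorem mem_chn (r : ℕ) (v : ℝ × ℝ) :
    v ∈ chn F r ↔ v ∈ vts F ∧ (lo F v + on F v = r ∨ lo F v = r) := by
  unfold chn
  rw [Finset.mem_filter]

theorem mem_chn_rf (r : ℕ) (v : ℝ × ℝ) : v ∈ chn (F.image rf) r ↔ rf v ∈ chn F r := by
  rw [mem_chn, mem_chn, mem_vts_rf, lo_rf, on_rf]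

theorem cl_rf (r : ℕ) (x : ℝ) : Cl (F.image rf) r x ↔ Cl F r (-x) := by
  unfold Cl
  simp only [lo_rf, on_rf]
  rfl

theorem mem_zer (r : ℕ) (x : ℝ) :
    x ∈ zer F r ↔ (∃ v ∈ vts F, v.1 = x) ∧ Cl F r x := by
  unfold zer
  rw [Finset.mem_filter, Finset.mem_image]

theorem mem_zer_rf (r : ℕ) (x : ℝ) : x ∈ zer (F.image rf) r ↔ -x ∈ zer F r := by
  rw [mem_zer, mem_zer, cl_rf]
  refine and_congr_left fun _ => ⟨?_, ?_⟩
  · rintro ⟨v, hv, rfl⟩
    exact ⟨rf v, (mem_vts_rf F v).mp hv, rfl⟩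
  · rintro ⟨v, hv, h⟩
    refine ⟨rf v, (mem_vts_rf F _).mpr (by rw [rf_rf]; exact hv), ?_⟩
    rw [rf_fst, h, neg_neg]

theorem mem_vab (c : ℝ × ℝ) (x : ℝ) :
    x ∈ vab F c ↔ ∃ v ∈ vts F, val c v.1 = v.2 ∧ v.1 = x := by
  unfold vab
  rw [Finset.mem_image]
  constructor
  · rintro ⟨v, hv, rfl⟩
    rw [Finset.mem_filter] at hv
    exact ⟨v, hv.1, hv.2, rfl⟩
  · rintro ⟨v, h1, h2, h3⟩
    exact ⟨v, Finset.mem_filter.mpr ⟨h1, h2⟩, h3⟩

theorem mem_vab_rf (c : ℝ × ℝ) (x : ℝ) : x ∈ vab (F.image rf) (rf c) ↔ -x ∈ vab F c := by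
  rw [mem_vab, mem_vab]
  constructor
  · rintro ⟨v, h1, h2, rfl⟩
    refine ⟨rf v, (mem_vts_rf F v).mp h1, ?_, rfl⟩
    rw [val_rf] at h2
    exact h2
  · rintro ⟨v, h1, h2, h3⟩
    refine ⟨rf v, (mem_vts_rf F _).mpr (by rw [rf_rf]; exact h1), ?_, ?_⟩
    · rw [val_rf, rf_fst, neg_neg]
      exact h2
    · rw [rf_fst, h3, neg_neg]

theorem nxt_rf (c : ℝ × ℝ) (x₁ x₂ : ℝ) (h : Nxt (vab F c) x₁ x₂) :
    Nxt (vab (F.image rf) (rf c)) (-x₂) (-x₁) := by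
  obtain ⟨h1, h2, h3, h4⟩ := h
  refine ⟨(mem_vab_rf F c _).mpr (by rw [neg_neg]; exact h2),
    (mem_vab_rf F c _).mpr (by rw [neg_neg]; exact h1), neg_lt_neg h3, ?_⟩
  rintro z hz ⟨h5, h6⟩
  exact h4 (-z) ((mem_vab_rf F c z).mp hz) ⟨by linarith, by linarith⟩

theorem rk_rf (c : ℝ × ℝ) (x₁ x₂ : ℝ) :
    rk (F.image rf) (rf c) (-x₂, -x₁) = rk F c (x₁, x₂) := by
  unfold rk
  rw [lo_rf, val_rf]
  have e : -((-x₂ + -x₁) / 2) = (x₁ + x₂) / 2 := by ring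
  simp only [rf, e]

theorem bad_rf (r : ℕ) (v : ℝ × ℝ) (h : Bad (F.image rf) r (rf v)) : Bad F r v := by
  obtain ⟨h1, h2⟩ := h
  rw [mem_chn_rf, rf_rf] at h1
  refine ⟨h1, ?_⟩
  rcases h2 with h2 | h2 | ⟨v', hv', hne, h2⟩
  · refine Or.inr (Or.inl fun z hz hlt => ?_)
    exact h2 (-z) ((mem_zer_rf F r _).mpr (by rw [neg_neg]; exact hz))
      (by rw [rf_fst]; linarith)
  · refine Or.inl fun z hz hlt => ?_
    exact h2 (-z) ((mem_zer_rf F r _).mpr (by rw [neg_neg]; exact hz))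
      (by rw [rf_fst]; linarith)
  · refine Or.inr (Or.inr ⟨rf v', (mem_chn_rf F r v').mp hv', ?_, ?_⟩)
    · intro h
      exact hne (by rw [← h, rf_rf])
    · rintro z hz hlt
      refine h2 (-z) ((mem_zer_rf F r _).mpr (by rw [neg_neg]; exact hz)) ?_
      rw [rf_fst] at hlt ⊢
      rcases hlt with ⟨h3, h4⟩ | ⟨h3, h4⟩
      · right
        constructor <;> linarith
      · left
        constructor <;> linarith

end I_DBY

open I_DBY in
theorem DBY_pf (hDBX : S_DBX) : S_DBY := by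
  intro F c x₁ x₂ hc hn h1 h2 h3 h4 h5 h6
  have hp : ∀ x : ℝ, (-x, val (rf c) (-x)) = rf (x, val c x) := by
    intro x
    rw [val_rf, neg_neg]
    rfl
  have hrk := rk_rf F c x₁ x₂
  have hcard : (F.image rf).card = F.card := Finset.card_image_of_injective _ rf_inj
  have key := hDBX (F.image rf) (rf c) (-x₂) (-x₁) (Finset.mem_image_of_mem _ hc)
    (nxt_rf F c x₁ x₂ hn)
    (by rw [hp, on_rf, rf_rf]; exact h2) (by rw [hp, on_rf, rf_rf]; exact h1)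
    (by rw [hrk]; exact h3) (by rw [hrk, hcard]; exact h4)
    (by rw [hrk, hp, lo_rf, rf_rf]; exact h6) (by rw [hrk, hp, lo_rf, rf_rf]; exact h5)
  rw [hrk, hp, hp] at key
  rcases key with h | h
  · exact Or.inr (bad_rf F _ _ h)
  · exact Or.inl (bad_rf F _ _ h)

end Pool.Agent.Work.MP_b25393_ag.UU
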