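import Pool.Agent.Work.MP_b25393_ag.UU.StmtsA

/-!
# MP_b25393_ag, block UU, item DDB (helper24)
-/

set_option autoImplicit false

namespace Pool.Agent.Work.MP_b25393_ag.UU

open scoped Classical
open Pool.Agent.Work.MP_b25393_ag.U

theorem DDB_pf (hEDL : S_EDL) (hEDR : S_EDR) (hDBP : S_DBP) (hDBX : S_DBX) (hDBY : S_DBY) :
    S_DDB := by
  intro F c x₁ x₂ hc hN h1 h2 hr hr2
  obtain ⟨w, -, -, -, -, hw⟩ := hEDL F c x₁ x₂ hc hN h1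
  obtain ⟨w', -, -, -, -, hw'⟩ := hEDR F c x₁ x₂ hc hN h2
  rcases hw with ⟨-, -, hl⟩ | ⟨-, -, hl⟩
  · rcases hw' with ⟨-, -, hl'⟩ | ⟨-, -, hl'⟩
    · exact ⟨_, Or.inl rfl, Or.inl ((hDBP F c x₁ x₂ hc hN h1 h2).1 hl hl')⟩
    · rcases hDBX F c x₁ x₂ hc hN h1 h2 hr hr2 hl hl' with h | h
      · exact ⟨_, Or.inl rfl, Or.inl h⟩
      · exact ⟨_, Or.inr rfl, Or.inr h⟩
  · rcases hw' with ⟨-, -, hl'⟩ | ⟨-, -, hl'⟩
    · rcases hDBY F c x₁ x₂ hc hN h1 h2 hr hr2 hl hl' with h | h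
      · exact ⟨_, Or.inr rfl, Or.inl h⟩
      · exact ⟨_, Or.inl rfl, Or.inr h⟩
    · exact ⟨_, Or.inr rfl, Or.inl ((hDBP F c x₁ x₂ hc hN h1 h2).2 hl hl')⟩

end Pool.Agent.Work.MP_b25393_ag.UU
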