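import Mathlib
import Pool.Agent.Work.MP_b25393_ag.UU.StmtsB

/-!
# Uniform version, item DIA: diagonal sequences
-/

set_option autoImplicit false

namespace Pool.Agent.Work.MP_b25393_ag.UU

open scoped Classical
open Pool.Agent.Work.MP_b25393_ag.U

theorem DIA_pf : S_DIA := by
  intro U P hU hP
  refine ⟨fun n => Nat.findGreatest (fun j => ∀ i ≤ j, P i n) n, ?_, ?_⟩
  · intro m
    have h1 : ∀ᶠ n in (U : Filter ℕ), ∀ i ∈ Finset.range (m + 1), P i n := by
      rw [Filter.eventually_all_finset]
      exact fun i _ => hP i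
    filter_upwards [h1, hU m] with n hn hm
    exact Nat.le_findGreatest hm fun i hi => hn i (Finset.mem_range.mpr (Nat.lt_succ_of_le hi))
  · filter_upwards [hP 0] with n hn
    have h0 : ∀ i ≤ 0, P i n := fun i hi => by
      rw [Nat.le_zero.mp hi]
      exact hn
    have h1 := Nat.findGreatest_spec (P := fun j => ∀ i ≤ j, P i n) (Nat.zero_le n) h0
    exact h1 _ le_rfl

end Pool.Agent.Work.MP_b25393_ag.UU
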