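import Pool.Agent.Work.MP_b25393_ag.UU.StmtsA

set_option autoImplicit false

namespace Pool.Agent.Work.MP_b25393_ag.UU

open scoped Classical
open Pool.Agent.Work.MP_b25393_ag.U

namespace I_EDG

theorem mem_dde {F : Finset (ℝ × ℝ)} {e : (ℝ × ℝ) × (ℝ × ℝ)} :
    e ∈ dde F ↔ e.1 ∈ F ∧ Nxt (vab F e.1) e.2.1 e.2.2 ∧ on F (e.2.1, val e.1 e.2.1) = 2 ∧
      on F (e.2.2, val e.1 e.2.2) = 2 := by
  unfold dde nxt
  rw [Finset.mem_biUnion]
  constructor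
  · rintro ⟨c, hc, h⟩
    rw [Finset.mem_image] at h
    obtain ⟨q, hq, rfl⟩ := h
    rw [Finset.mem_filter, Finset.mem_filter] at hq
    exact ⟨hc, hq.1.2, hq.2.1, hq.2.2⟩
  · rintro ⟨h1, h2, h3, h4⟩
    refine ⟨e.1, h1, ?_⟩
    rw [Finset.mem_image]
    refine ⟨e.2, ?_, rfl⟩
    rw [Finset.mem_filter, Finset.mem_filter, Finset.mem_product]
    exact ⟨⟨⟨h2.1, h2.2.1⟩, h2⟩, h3, h4⟩

theorem rk_lt {F : Finset (ℝ × ℝ)} {c : ℝ × ℝ} (hc : c ∈ F) (q : ℝ × ℝ) : rk F c q < F.card := by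
  unfold rk lo
  apply Finset.card_lt_card
  rw [Finset.ssubset_iff_subset_ne]
  refine ⟨Finset.filter_subset _ _, fun h => ?_⟩
  rw [← h, Finset.mem_filter] at hc
  exact lt_irrefl _ hc.2

/-- the bad pairs -/
noncomputable def P (F : Finset (ℝ × ℝ)) : Finset (Σ _ : ℕ, ℝ × ℝ) :=
  (Finset.Ico 1 F.card).sigma fun r => (chn F r).filter fun v => Bad F r v

theorem card_P (F : Finset (ℝ × ℝ)) :
    (P F).card = ∑ r ∈ Finset.Ico 1 F.card, ((chn F r).filter fun v => Bad F r v).card := by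
  unfold P
  rw [Finset.card_sigma]

/-- the middle edges -/
noncomputable def Em (F : Finset (ℝ × ℝ)) : Finset ((ℝ × ℝ) × (ℝ × ℝ)) :=
  (dde F).filter fun e => 1 ≤ rk F e.1 e.2 ∧ rk F e.1 e.2 + 2 ≤ F.card

/-- the property of one end -/
def Pr (F : Finset (ℝ × ℝ)) (x : ℝ) (e : (ℝ × ℝ) × (ℝ × ℝ)) (r : ℕ) : Prop :=
  (r = rk F e.1 e.2 ∨ r = rk F e.1 e.2 + 1) ∧ Bad F r (x, val e.1 x)

/-- the chosen gap -/
noncomputable def ch (F : Finset (ℝ × ℝ)) (x : ℝ) (e : (ℝ × ℝ) × (ℝ × ℝ)) : ℕ :=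
  if h : ∃ r, Pr F x e r then h.choose else 0

theorem ch_spec {F : Finset (ℝ × ℝ)} {x : ℝ} {e : (ℝ × ℝ) × (ℝ × ℝ)} (h : ∃ r, Pr F x e r) :
    Pr F x e (ch F x e) := by
  unfold ch
  rw [dif_pos h]
  exact h.choose_spec

theorem rk_det {F : Finset (ℝ × ℝ)} {v : ℝ × ℝ} {r ρ : ℕ} (hb : Bad F r v) (hon : on F v = 2)
    (hlo : lo F v = ρ ∨ lo F v + 1 = ρ) (hr : r = ρ ∨ r = ρ + 1) :
    (r = lo F v ∧ ρ = lo F v) ∨ (r = lo F v + 2 ∧ ρ = lo F v + 1) := by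
  have hc := hb.1
  unfold chn at hc
  rw [Finset.mem_filter] at hc
  have h := hc.2
  omega

theorem bound (F : Finset (ℝ × ℝ)) (y : (ℝ × ℝ) × (ℝ × ℝ) → ℝ) (E : Finset ((ℝ × ℝ) × (ℝ × ℝ)))
    (hE : ∀ e ∈ E, e ∈ Em F ∧ (∃ r, Pr F (y e) e r) ∧ on F (y e, val e.1 (y e)) = 2 ∧
      (lo F (y e, val e.1 (y e)) = rk F e.1 e.2 ∨ lo F (y e, val e.1 (y e)) + 1 = rk F e.1 e.2))
    (hinj : ∀ e ∈ E, ∀ e' ∈ E, y e = y e' → val e.1 (y e) = val e'.1 (y e) →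
      rk F e.1 e.2 = rk F e'.1 e'.2 → e = e') : E.card ≤ (P F).card := by
  apply Finset.card_le_card_of_injOn (fun e => (⟨ch F (y e) e, (y e, val e.1 (y e))⟩ : Σ _ : ℕ, ℝ × ℝ))
  · intro e he
    obtain ⟨h1, h2, h3, h4⟩ := hE e he
    have h5 := ch_spec h2
    unfold Em at h1
    rw [Finset.mem_filter] at h1
    change (⟨ch F (y e) e, (y e, val e.1 (y e))⟩ : Σ _ : ℕ, ℝ × ℝ) ∈ P F
    unfold P
    rw [Finset.mem_sigma, Finset.mem_Ico, Finset.mem_filter]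
    refine ⟨?_, h5.2.1, h5.2⟩
    have h6 := h5.1
    change 1 ≤ ch F (y e) e ∧ ch F (y e) e < F.card
    omega
  · intro e he e' he' hee
    obtain ⟨h1, h2, h3, h4⟩ := hE e he
    obtain ⟨h1', h2', h3', h4'⟩ := hE e' he'
    have h5 := ch_spec h2
    have h5' := ch_spec h2'
    have hee' : (⟨ch F (y e) e, (y e, val e.1 (y e))⟩ : Σ _ : ℕ, ℝ × ℝ) =
      ⟨ch F (y e') e', (y e', val e'.1 (y e'))⟩ := hee
    rw [Sigma.mk.injEq] at hee'
    obtain ⟨hr, hv⟩ := hee'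
    have hv' : (y e, val e.1 (y e)) = (y e', val e'.1 (y e')) := eq_of_heq hv
    have hy : y e = y e' := (Prod.mk.injEq _ _ _ _ ▸ hv').1
    have hval : val e.1 (y e) = val e'.1 (y e') := (Prod.mk.injEq _ _ _ _ ▸ hv').2
    have d1 := rk_det h5.2 h3 h4 h5.1
    have d2 := rk_det h5'.2 h3' h4' h5'.1
    rw [hv', hr] at d1
    apply hinj e he e' he' hy
    · rw [hval, hy]
    · omega

end I_EDG

open I_EDG in
theorem EDG_pf (hEDL : S_EDL) (hEDR : S_EDR) (hDDB : S_DDB) (hBDS : S_BDS) (hEG0 : S_EG0)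
    (hEGI : S_EGI) : S_EDG := by
  intro F
  obtain ⟨h01, h02⟩ := hEG0 F
  have hcov : dde F ⊆ ((dde F).filter fun e => rk F e.1 e.2 = 0) ∪
      ((dde F).filter fun e => rk F e.1 e.2 + 1 = F.card) ∪ Em F := by
    intro e he
    have hm := mem_dde.1 he
    have hlt := rk_lt hm.1 e.2
    rw [Finset.mem_union, Finset.mem_union, Finset.mem_filter, Finset.mem_filter]
    unfold Em
    rw [Finset.mem_filter]
    by_cases h1 : rk F e.1 e.2 = 0
    · exact Or.inl (Or.inl ⟨he, h1⟩)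
    · by_cases h2 : rk F e.1 e.2 + 1 = F.card
      · exact Or.inl (Or.inr ⟨he, h2⟩)
      · exact Or.inr ⟨he, by omega, by omega⟩
  set E1 := (Em F).filter fun e => ∃ r, Pr F e.2.1 e r with hE1
  set E2 := (Em F).filter fun e => ∃ r, Pr F e.2.2 e r with hE2
  have hEm : Em F ⊆ E1 ∪ E2 := by
    intro e he
    have he' := he
    unfold Em at he'
    rw [Finset.mem_filter] at he'
    obtain ⟨hd, hr1, hr2⟩ := he'
    obtain ⟨m1, m2, m3, m4⟩ := mem_dde.1 hd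
    obtain ⟨r, hr, hb | hb⟩ := hDDB F e.1 e.2.1 e.2.2 m1 m2 m3 m4 hr1 hr2
    · rw [Finset.mem_union]
      left
      rw [hE1, Finset.mem_filter]
      exact ⟨he, r, hr, hb⟩
    · rw [Finset.mem_union]
      right
      rw [hE2, Finset.mem_filter]
      exact ⟨he, r, hr, hb⟩
  have hmemEm : ∀ e ∈ Em F, e.1 ∈ F ∧ Nxt (vab F e.1) e.2.1 e.2.2 ∧
      on F (e.2.1, val e.1 e.2.1) = 2 ∧ on F (e.2.2, val e.1 e.2.2) = 2 := by
    intro e he
    unfold Em at he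
    rw [Finset.mem_filter] at he
    exact mem_dde.1 he.1
  have c1 : E1.card ≤ (P F).card := by
    apply bound F (fun e => e.2.1) E1
    · intro e he
      rw [hE1, Finset.mem_filter] at he
      obtain ⟨m1, m2, m3, m4⟩ := hmemEm e he.1
      refine ⟨he.1, he.2, m3, ?_⟩
      obtain ⟨w, -, -, -, -, h⟩ := hEDL F e.1 e.2.1 e.2.2 m1 m2 m3
      rcases h with h | h
      · exact Or.inl h.2.2
      · exact Or.inr h.2.2
    · intro e he e' he' hy hval hrk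
      rw [hE1, Finset.mem_filter] at he he'
      obtain ⟨m1, m2, m3, m4⟩ := hmemEm e he.1
      obtain ⟨m1', m2', m3', m4'⟩ := hmemEm e' he'.1
      obtain ⟨c, x₁, x₂⟩ := e
      obtain ⟨c', x₁', x₂'⟩ := e'
      dsimp only at hy hval hrk m1 m2 m3 m4 m1' m2' m3' m4'
      subst hy
      obtain ⟨rfl, rfl⟩ := (hEGI F).1 c m1 c' m1' x₁ x₂ x₂' m2 m2' hval hrk
      rfl
  have c2 : E2.card ≤ (P F).card := by
    apply bound F (fun e => e.2.2) E2
    · intro e he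
      rw [hE2, Finset.mem_filter] at he
      obtain ⟨m1, m2, m3, m4⟩ := hmemEm e he.1
      refine ⟨he.1, he.2, m4, ?_⟩
      obtain ⟨w, -, -, -, -, h⟩ := hEDR F e.1 e.2.1 e.2.2 m1 m2 m4
      rcases h with h | h
      · exact Or.inl h.2.2
      · exact Or.inr h.2.2
    · intro e he e' he' hy hval hrk
      rw [hE2, Finset.mem_filter] at he he'
      obtain ⟨m1, m2, m3, m4⟩ := hmemEm e he.1
      obtain ⟨m1', m2', m3', m4'⟩ := hmemEm e' he'.1
      obtain ⟨c, x₁, x₂⟩ := e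
      obtain ⟨c', x₁', x₂'⟩ := e'
      dsimp only at hy hval hrk m1 m2 m3 m4 m1' m2' m3' m4'
      subst hy
      obtain ⟨rfl, rfl⟩ := (hEGI F).2 c m1 c' m1' x₁ x₁' x₂ m2 m2' hval hrk
      rfl
  have hP := hBDS F
  rw [← card_P] at hP
  have t1 := Finset.card_le_card hcov
  have t2 := Finset.card_union_le (((dde F).filter fun e => rk F e.1 e.2 = 0) ∪
      ((dde F).filter fun e => rk F e.1 e.2 + 1 = F.card)) (Em F)
  have t3 := Finset.card_union_le ((dde F).filter fun e => rk F e.1 e.2 = 0)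
      ((dde F).filter fun e => rk F e.1 e.2 + 1 = F.card)
  have t4 := Finset.card_le_card hEm
  have t5 := Finset.card_union_le E1 E2
  have t6 : (dde F).card ≤ 2 * F.card + 2 * (P F).card := by omega
  have t7 : ((dde F).card : ℤ) ≤ 2 * F.card + 2 * (P F).card := by exact_mod_cast t6
  linarith

end Pool.Agent.Work.MP_b25393_ag.UU
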