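import Pool.Agent.Work.MP_b25393_ag.UU.StmtsA

/-!
# Item EDI: interior of an edge
-/

set_option autoImplicit false

namespace Pool.Agent.Work.MP_b25393_ag.UU

open scoped Classical
open Pool.Agent.Work.MP_b25393_ag.U

namespace I_EDI

theorem cont_val (l : ℝ × ℝ) : Continuous (val l) := by
  unfold val
  fun_prop

theorem ne_of_nxt {F : Finset (ℝ × ℝ)} {c : ℝ × ℝ} {x₁ x₂ : ℝ} (hc : c ∈ F)
    (hn : Nxt (vab F c) x₁ x₂) {l : ℝ × ℝ} (hl : l ∈ F) (hlc : l ≠ c) :
    ∀ x, x₁ < x → x < x₂ → val l x ≠ val c x := by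
  intro x h1 h2 h3
  have h4 : (x, val c x) ∈ vts F := by
    rw [mem_vts]
    unfold on
    have : 1 < (F.filter fun m => val m (x, val c x).1 = (x, val c x).2).card := by
      rw [Finset.one_lt_card]
      exact ⟨l, Finset.mem_filter.mpr ⟨hl, h3⟩, c, Finset.mem_filter.mpr ⟨hc, rfl⟩, hlc⟩
    exact this
  have h5 : x ∈ vab F c := by
    unfold vab
    rw [Finset.mem_image]
    exact ⟨(x, val c x), Finset.mem_filter.mpr ⟨h4, rfl⟩, rfl⟩
  exact hn.2.2.2 x h5 ⟨h1, h2⟩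

theorem no_change {c l : ℝ × ℝ} {x₁ x₂ : ℝ} (h : ∀ x, x₁ < x → x < x₂ → val l x ≠ val c x)
    {x y : ℝ} (hx : x ∈ Set.Ioo x₁ x₂) (hy : y ∈ Set.Ioo x₁ x₂) (hlx : val l x < val c x) :
    val l y < val c y := by
  by_contra h1
  push Not at h1
  have h2 := (isPreconnected_Ioo (a := x₁) (b := x₂)).intermediate_value hx hy
    (f := fun t => val l t - val c t) ((cont_val l).sub (cont_val c)).continuousOn
  have h3 : (0 : ℝ) ∈ Set.Icc (val l x - val c x) (val l y - val c y) :=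
    ⟨by linarith, by linarith⟩
  obtain ⟨z, hz, hz2⟩ := h2 h3
  exact h z hz.1 hz.2 (by
    have h4 : val l z - val c z = 0 := hz2
    linarith)

end I_EDI

open I_EDI in
theorem EDI_pf : S_EDI := by
  intro F c x₁ x₂ hc hn x hx1 hx2
  have h12 : x₁ < x₂ := hx1.trans hx2
  have hm : (x₁ + x₂) / 2 ∈ Set.Ioo x₁ x₂ := ⟨by linarith, by linarith⟩
  have hx : x ∈ Set.Ioo x₁ x₂ := ⟨hx1, hx2⟩
  have key : ∀ l ∈ F, l ≠ c → val l x ≠ val c x ∧
      (val l x < val c x ↔ val l ((x₁ + x₂) / 2) < val c ((x₁ + x₂) / 2)) := by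
    intro l hl hlc
    have h1 := ne_of_nxt hc hn hl hlc
    exact ⟨h1 x hx1 hx2, fun h => no_change h1 hx hm h, fun h => no_change h1 hm hx h⟩
  refine ⟨?_, ?_, key⟩
  · unfold on
    rw [Finset.card_eq_one]
    refine ⟨c, ?_⟩
    ext l
    rw [Finset.mem_filter, Finset.mem_singleton]
    constructor
    · rintro ⟨h1, h2⟩
      by_contra h3
      exact (key l h1 h3).1 h2
    · rintro rfl
      exact ⟨hc, rfl⟩
  · unfold rk lo
    congr 1
    apply Finset.filter_congr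
    intro l hl
    by_cases hlc : l = c
    · subst hlc
      simp
    · exact (key l hl hlc).2

end Pool.Agent.Work.MP_b25393_ag.UU
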