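import Mathlib
import Pool.Agent.Work.MP_b25393_ag.UU.StmtsA

/-!
# Item EDR: right end of an edge at a double point
-/

set_option autoImplicit false

namespace Pool.Agent.Work.MP_b25393_ag.UU

open scoped Classical
open Pool.Agent.Work.MP_b25393_ag.U

namespace I_EDR

/-- two lines which change their order have a common point in between -/
theorem zero_between (l c : ℝ × ℝ) (a b : ℝ) (hab : a < b) (h1 : val l a < val c a)
    (h2 : val c b < val l b) : ∃ z, a < z ∧ z < b ∧ val l z = val c z := by
  unfold val at h1 h2
  have hA : 0 < l.1 - c.1 := by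
    by_contra hA
    have hA' : l.1 - c.1 ≤ 0 := not_lt.mp hA
    nlinarith
  obtain ⟨z, hz⟩ : ∃ z : ℝ, (l.1 - c.1) * z = c.2 - l.2 :=
    ⟨(c.2 - l.2) / (l.1 - c.1), mul_div_cancel₀ _ hA.ne'⟩
  refine ⟨z, ?_, ?_, ?_⟩
  · by_contra h
    have h' : z ≤ a := not_lt.mp h
    nlinarith
  · by_contra h
    have h' : b ≤ z := not_lt.mp h
    nlinarith
  · unfold val
    linarith

/-- the sign of the difference at the right end of an edge -/
theorem sign_end (l c : ℝ × ℝ) (m b : ℝ) (hmb : m < b)
    (hne : ∀ x, m ≤ x → x ≤ b → val l x ≠ val c x) :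
    val l b < val c b ↔ val l m < val c m := by
  constructor
  · intro h
    by_contra h'
    have h1 : val c m < val l m := lt_of_le_of_ne (not_lt.mp h') (hne m le_rfl hmb.le).symm
    obtain ⟨z, h2, h3, h4⟩ := zero_between c l m b hmb h1 h
    exact hne z h2.le h3.le h4.symm
  · intro h
    by_contra h'
    have h1 : val c b < val l b := lt_of_le_of_ne (not_lt.mp h') (hne b hmb.le le_rfl).symm
    obtain ⟨z, h2, h3, h4⟩ := zero_between l c m b hmb h h1
    exact hne z h2.le h3.le h4

end I_EDR

open I_EDR in
theorem EDR_pf (hEDI : S_EDI) : S_EDR := by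
  intro F c x₁ x₂ hc hN hon
  have hx : x₁ < x₂ := hN.2.2.1
  obtain ⟨m, hm⟩ : ∃ m : ℝ, m = (x₁ + x₂) / 2 := ⟨_, rfl⟩
  have hm1 : x₁ < m := by rw [hm]; linarith
  have hm2 : m < x₂ := by rw [hm]; linarith
  have hE := hEDI F c x₁ x₂ hc hN
  -- the other line
  obtain ⟨w, hwF, hwc, hw2, hall⟩ : ∃ w ∈ F, w ≠ c ∧ val w x₂ = val c x₂ ∧
      ∀ l ∈ F, val l x₂ = val c x₂ → l = c ∨ l = w := by
    obtain ⟨a, b, hab, hT⟩ := Finset.card_eq_two.mp hon
    have hcT : c ∈ F.filter fun l => val l x₂ = val c x₂ :=
      Finset.mem_filter.mpr ⟨hc, rfl⟩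
    have hT' : (F.filter fun l => val l x₂ = val c x₂) = {a, b} := hT
    have hmem : ∀ l ∈ F, val l x₂ = val c x₂ → l = a ∨ l = b := by
      intro l hl h
      have : l ∈ F.filter fun l => val l x₂ = val c x₂ := Finset.mem_filter.mpr ⟨hl, h⟩
      rw [hT'] at this
      simpa using this
    have haT : a ∈ F.filter fun l => val l x₂ = val c x₂ := by rw [hT']; simp
    have hbT : b ∈ F.filter fun l => val l x₂ = val c x₂ := by rw [hT']; simp
    rw [Finset.mem_filter] at haT hbT
    rcases hmem c hc rfl with h | h
    · subst h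
      exact ⟨b, hbT.1, hab.symm, hbT.2, hmem⟩
    · subst h
      exact ⟨a, haT.1, hab, haT.2, fun l hl h => (hmem l hl h).symm⟩
  have hsl : w.1 ≠ c.1 := slope_ne hwc hw2
  -- the other lines do not change their position
  have hkey : ∀ l ∈ F, l ≠ c → l ≠ w → (val l x₂ < val c x₂ ↔ val l m < val c m) := by
    intro l hl hlc hlw
    refine sign_end l c m x₂ hm2 fun x h1 h2 => ?_
    rcases h2.lt_or_eq with h3 | h3
    · exact ((hE x (hm1.trans_le h1) h3).2.2 l hl hlc).1
    · rw [h3]
      intro h4
      rcases hall l hl h4 with h5 | h5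
      · exact hlc h5
      · exact hlw h5
  have hwm : val w m ≠ val c m := ((hE m hm1 hm2).2.2 w hwF hwc).1
  have hrk : rk F c (x₁, x₂) = (F.filter fun l => val l m < val c m).card := by
    rw [hm]
    rfl
  have hlo : lo F (x₂, val c x₂) = (F.filter fun l => val l x₂ < val c x₂).card := rfl
  refine ⟨w, hwF, hwc, hw2, hall, ?_⟩
  rw [hrk, hlo]
  unfold val at hw2
  rcases lt_or_gt_of_ne hwm with h | h
  · -- `w` is below `c` on the left
    right
    have hA : 0 < w.1 - c.1 := by
      by_contra hA
      have hA' : w.1 - c.1 ≤ 0 := not_lt.mp hA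
      unfold val at h
      nlinarith
    refine ⟨fun x hxx => ?_, fun x hxx => ?_, ?_⟩
    · unfold val
      nlinarith
    · unfold val
      nlinarith
    · have hnot : w ∉ F.filter fun l => val l x₂ < val c x₂ := by
        intro h1
        have h2 := (Finset.mem_filter.mp h1).2
        unfold val at h2
        linarith
      rw [← Finset.card_insert_of_notMem hnot]
      congr 1
      ext l
      rw [Finset.mem_insert, Finset.mem_filter, Finset.mem_filter]
      constructor
      · rintro (rfl | ⟨h1, h2⟩)
        · exact ⟨hwF, h⟩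
        · refine ⟨h1, ?_⟩
          by_cases hlc : l = c
          · subst hlc
            exact absurd h2 (lt_irrefl _)
          · by_cases hlw : l = w
            · subst hlw
              exact h
            · exact (hkey l h1 hlc hlw).1 h2
      · rintro ⟨h1, h2⟩
        by_cases hlw : l = w
        · exact Or.inl hlw
        · right
          refine ⟨h1, ?_⟩
          by_cases hlc : l = c
          · subst hlc
            exact absurd h2 (lt_irrefl _)
          · exact (hkey l h1 hlc hlw).2 h2
  · -- `w` is above `c` on the left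
    left
    have hA : w.1 - c.1 < 0 := by
      by_contra hA
      have hA' : 0 ≤ w.1 - c.1 := not_lt.mp hA
      unfold val at h
      nlinarith
    refine ⟨fun x hxx => ?_, fun x hxx => ?_, ?_⟩
    · unfold val
      nlinarith
    · unfold val
      nlinarith
    · congr 1
      ext l
      rw [Finset.mem_filter, Finset.mem_filter]
      refine and_congr_right fun h1 => ?_
      by_cases hlc : l = c
      · subst hlc
        simp
      · by_cases hlw : l = w
        · subst hlw
          constructor
          · intro h2
            unfold val at h2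
            linarith
          · intro h2
            exact absurd h2 (not_lt.mpr h.le)
        · exact hkey l h1 hlc hlw

end Pool.Agent.Work.MP_b25393_ag.UU
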