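import Pool.Agent.Work.MP_b25393_ag.UU.StmtsA

/-! # Item EG0: a line has at most one edge of rank 0 (of rank N - 1) between double points. -/

set_option autoImplicit false

namespace Pool.Agent.Work.MP_b25393_ag.UU

open scoped Classical
open Pool.Agent.Work.MP_b25393_ag.U

namespace I_EG0

theorem mem_dde {F : Finset (ℝ × ℝ)} {e : (ℝ × ℝ) × (ℝ × ℝ)} (h : e ∈ dde F) :
    e.1 ∈ F ∧ Nxt (vab F e.1) e.2.1 e.2.2 ∧ on F (e.2.1, val e.1 e.2.1) = 2 ∧
      on F (e.2.2, val e.1 e.2.2) = 2 := by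
  unfold dde at h
  rw [Finset.mem_biUnion] at h
  obtain ⟨c, hc, h⟩ := h
  rw [Finset.mem_image] at h
  obtain ⟨q, hq, rfl⟩ := h
  rw [Finset.mem_filter] at hq
  obtain ⟨h1, h2, h3⟩ := hq
  unfold nxt at h1
  rw [Finset.mem_filter] at h1
  exact ⟨hc, h1.2, h2, h3⟩

theorem nxt_cases {T : Finset ℝ} {x₁ x₂ x₃ x₄ : ℝ} (h : Nxt T x₁ x₂) (h' : Nxt T x₃ x₄) :
    (x₁ = x₃ ∧ x₂ = x₄) ∨ x₂ ≤ x₃ ∨ x₄ ≤ x₁ := by
  obtain ⟨a1, a2, a3, a4⟩ := h
  obtain ⟨b1, b2, b3, b4⟩ := h'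
  rcases lt_trichotomy x₁ x₃ with h | h | h
  · right; left
    by_contra hc
    push Not at hc
    exact a4 x₃ b1 ⟨h, hc⟩
  · left
    refine ⟨h, ?_⟩
    subst h
    rcases lt_trichotomy x₂ x₄ with h | h | h
    · exact absurd ⟨a3, h⟩ (b4 x₂ a2)
    · exact h
    · exact absurd ⟨b3, h⟩ (a4 x₄ b2)
  · right; right
    by_contra hc
    push Not at hc
    exact b4 x₁ a1 ⟨h, hc⟩

/-- rank 0 twice is impossible -/
theorem rank0 (hEDR : S_EDR) {F : Finset (ℝ × ℝ)} {c : ℝ × ℝ} (hc : c ∈ F) {x₁ x₂ x₃ x₄ : ℝ}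
    (h : Nxt (vab F c) x₁ x₂) (h' : Nxt (vab F c) x₃ x₄) (h2 : on F (x₂, val c x₂) = 2)
    (hle : x₂ ≤ x₃) (hr : rk F c (x₁, x₂) = 0) (hr' : rk F c (x₃, x₄) = 0) : False := by
  obtain ⟨w, hw, hwc, -, -, h3⟩ := hEDR F c x₁ x₂ hc h h2
  rcases h3 with ⟨-, h4, -⟩ | ⟨-, -, h4⟩
  · have hm : x₂ < (x₃ + x₄) / 2 := by
      have := h'.2.2.1
      linarith
    have h5 := h4 _ hm
    have h6 : rk F c (x₃, x₄) = (F.filter fun l =>
        val l ((x₃ + x₄) / 2) < val c ((x₃ + x₄) / 2)).card := rfl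
    rw [h6, Finset.card_eq_zero] at hr'
    have h7 : w ∈ F.filter fun l => val l ((x₃ + x₄) / 2) < val c ((x₃ + x₄) / 2) :=
      Finset.mem_filter.mpr ⟨hw, h5⟩
    rw [hr'] at h7
    exact Finset.notMem_empty _ h7
  · omega

/-- rank `N - 1` twice is impossible -/
theorem rankN (hEDR : S_EDR) {F : Finset (ℝ × ℝ)} {c : ℝ × ℝ} (hc : c ∈ F) {x₁ x₂ x₃ x₄ : ℝ}
    (h : Nxt (vab F c) x₁ x₂) (h' : Nxt (vab F c) x₃ x₄) (h2 : on F (x₂, val c x₂) = 2)
    (hle : x₂ ≤ x₃) (hr : rk F c (x₁, x₂) + 1 = F.card) (hr' : rk F c (x₃, x₄) + 1 = F.card) :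
    False := by
  obtain ⟨w, hw, hwc, -, -, h3⟩ := hEDR F c x₁ x₂ hc h h2
  -- a line which is above `c` over the midpoint lowers the rank
  have key : ∀ x : ℝ, val c x < val w x → lo F (x, val c x) + 2 ≤ F.card := by
    intro x hx
    have hsub : (F.filter fun l => val l (x, val c x).1 < (x, val c x).2) ⊆ (F.erase c).erase w := by
      intro l hl
      rw [Finset.mem_filter] at hl
      rw [Finset.mem_erase, Finset.mem_erase]
      refine ⟨?_, ?_, hl.1⟩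
      · rintro rfl
        have h5 : val l x < val c x := hl.2
        linarith
      · rintro rfl
        have h5 : val l x < val l x := hl.2
        exact lt_irrefl _ h5
    have h6 := Finset.card_le_card hsub
    have hw' : w ∈ F.erase c := Finset.mem_erase.mpr ⟨hwc, hw⟩
    have h7 := Finset.card_erase_add_one hw'
    have h8 := Finset.card_erase_add_one hc
    unfold lo
    omega
  rcases h3 with ⟨h4, -, -⟩ | ⟨-, h4, -⟩
  · have hm : (x₁ + x₂) / 2 < x₂ := by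
      have := h.2.2.1
      linarith
    have h5 := key _ (h4 _ hm)
    have h6 : rk F c (x₁, x₂) = lo F ((x₁ + x₂) / 2, val c ((x₁ + x₂) / 2)) := rfl
    omega
  · have hm : x₂ < (x₃ + x₄) / 2 := by
      have := h'.2.2.1
      linarith
    have h5 := key _ (h4 _ hm)
    have h6 : rk F c (x₃, x₄) = lo F ((x₃ + x₄) / 2, val c ((x₃ + x₄) / 2)) := rfl
    omega

end I_EG0

theorem EG0_pf (hEDR : S_EDR) : S_EG0 := by
  intro F
  constructor
  · refine Finset.card_le_card_of_injOn (fun e => e.1) ?_ ?_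
    · intro e he
      have h1 := (Finset.mem_filter.mp (Finset.mem_coe.mp he)).1
      exact Finset.mem_coe.mpr (I_EG0.mem_dde h1).1
    · intro e he e' he' hee
      obtain ⟨h1, hr⟩ := Finset.mem_filter.mp (Finset.mem_coe.mp he)
      obtain ⟨h1', hr'⟩ := Finset.mem_filter.mp (Finset.mem_coe.mp he')
      obtain ⟨a1, a2, a3, a4⟩ := I_EG0.mem_dde h1
      obtain ⟨b1, b2, b3, b4⟩ := I_EG0.mem_dde h1'
      obtain ⟨c, x₁, x₂⟩ := e
      obtain ⟨c', x₃, x₄⟩ := e'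
      have hcc : c = c' := hee
      subst hcc
      simp only at a1 a2 a3 a4 b1 b2 b3 b4 hr hr'
      rcases I_EG0.nxt_cases a2 b2 with h | h | h
      · rw [h.1, h.2]
      · exact (I_EG0.rank0 hEDR a1 a2 b2 a4 h hr hr').elim
      · exact (I_EG0.rank0 hEDR a1 b2 a2 b4 h hr' hr).elim
  · refine Finset.card_le_card_of_injOn (fun e => e.1) ?_ ?_
    · intro e he
      have h1 := (Finset.mem_filter.mp (Finset.mem_coe.mp he)).1
      exact Finset.mem_coe.mpr (I_EG0.mem_dde h1).1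
    · intro e he e' he' hee
      obtain ⟨h1, hr⟩ := Finset.mem_filter.mp (Finset.mem_coe.mp he)
      obtain ⟨h1', hr'⟩ := Finset.mem_filter.mp (Finset.mem_coe.mp he')
      obtain ⟨a1, a2, a3, a4⟩ := I_EG0.mem_dde h1
      obtain ⟨b1, b2, b3, b4⟩ := I_EG0.mem_dde h1'
      obtain ⟨c, x₁, x₂⟩ := e
      obtain ⟨c', x₃, x₄⟩ := e'
      have hcc : c = c' := hee
      subst hcc
      simp only at a1 a2 a3 a4 b1 b2 b3 b4 hr hr'
      rcases I_EG0.nxt_cases a2 b2 with h | h | h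
      · rw [h.1, h.2]
      · exact (I_EG0.rankN hEDR a1 a2 b2 a4 h hr hr').elim
      · exact (I_EG0.rankN hEDR a1 b2 a2 b4 h hr' hr).elim

end Pool.Agent.Work.MP_b25393_ag.UU
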