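import Pool.Agent.Work.MP_b25393_ag.UU.StmtsA

/-!
# Item EGI: an edge is determined by one end and its rank
-/

set_option autoImplicit false

namespace Pool.Agent.Work.MP_b25393_ag.UU

open scoped Classical
open Pool.Agent.Work.MP_b25393_ag.U

namespace I_EGI

theorem two_pts {c c' : ℝ × ℝ} {x y : ℝ} (hxy : x ≠ y) (hx : val c x = val c' x)
    (hy : val c y = val c' y) : c = c' := by
  by_contra h
  have hs := slope_ne h hx
  exact hxy ((eq_crs hs hx).trans (eq_crs hs hy).symm)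

theorem same_val (hLVU : S_LVU) (hEDI : S_EDI) {F : Finset (ℝ × ℝ)} {c c' : ℝ × ℝ}
    (hc : c ∈ F) (hc' : c' ∈ F) {x₁ x₂ x₁' x₂' : ℝ} (h : Nxt (vab F c) x₁ x₂)
    (h' : Nxt (vab F c') x₁' x₂') (hr : rk F c (x₁, x₂) = rk F c' (x₁', x₂')) {x : ℝ}
    (h1 : x₁ < x) (h2 : x < x₂) (h3 : x₁' < x) (h4 : x < x₂') : val c x = val c' x := by
  obtain ⟨a1, a2, -⟩ := hEDI F c x₁ x₂ hc h x h1 h2
  obtain ⟨b1, b2, -⟩ := hEDI F c' x₁' x₂' hc' h' x h3 h4
  refine hLVU F (rk F c (x₁, x₂)) x (val c x) (val c' x) ?_ ?_ ?_ ?_ <;> omega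

end I_EGI

open I_EGI in
theorem EGI_pf (hLVU : S_LVU) (hEDI : S_EDI) : S_EGI := by
  intro F
  refine ⟨?_, ?_⟩
  · intro c hc c' hc' x₁ x₂ x₂' h h' hv hr
    have l1 : x₁ < x₂ := h.2.2.1
    have l2 : x₁ < x₂' := h'.2.2.1
    have l3 : x₁ < min x₂ x₂' := lt_min l1 l2
    have l4 : min x₂ x₂' ≤ x₂ := min_le_left _ _
    have l5 : min x₂ x₂' ≤ x₂' := min_le_right _ _
    have hx := same_val hLVU hEDI hc hc' h h' hr (x := (x₁ + min x₂ x₂') / 2) (by linarith)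
      (by linarith) (by linarith) (by linarith)
    have e : c = c' := two_pts (by intro hh; linarith) hv hx
    subst e
    refine ⟨rfl, ?_⟩
    rcases lt_trichotomy x₂ x₂' with h5 | h5 | h5
    · exact absurd ⟨l1, h5⟩ (h'.2.2.2 x₂ h.2.1)
    · exact h5
    · exact absurd ⟨l2, h5⟩ (h.2.2.2 x₂' h'.2.1)
  · intro c hc c' hc' x₁ x₁' x₂ h h' hv hr
    have l1 : x₁ < x₂ := h.2.2.1
    have l2 : x₁' < x₂ := h'.2.2.1
    have l3 : max x₁ x₁' < x₂ := max_lt l1 l2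
    have l4 : x₁ ≤ max x₁ x₁' := le_max_left _ _
    have l5 : x₁' ≤ max x₁ x₁' := le_max_right _ _
    have hx := same_val hLVU hEDI hc hc' h h' hr (x := (max x₁ x₁' + x₂) / 2) (by linarith)
      (by linarith) (by linarith) (by linarith)
    have e : c = c' := two_pts (by intro hh; linarith) hv hx
    subst e
    refine ⟨rfl, ?_⟩
    rcases lt_trichotomy x₁ x₁' with h5 | h5 | h5
    · exact absurd ⟨h5, l2⟩ (h.2.2.2 x₁' h'.1)
    · exact h5
    · exact absurd ⟨h5, l1⟩ (h'.2.2.2 x₁ h.1)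

end Pool.Agent.Work.MP_b25393_ag.UU
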