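import Mathlib
import Pool.Agent.Work.MP_b25393_ag.UU.StmtsB

/-!
# Item FSG: slopes and far quartets
-/

set_option autoImplicit false

namespace Pool.Agent.Work.MP_b25393_ag.UU

open scoped Classical
open Pool.Agent.Work.MP_b25393_ag.U

namespace I_FSG

theorem be_ne (g : Fr) (x : ℝ) (h : |al g x| ≤ 1 / 2 * |be g x|) : be g x ≠ 0 := by
  intro hb
  rw [hb, abs_zero, mul_zero] at h
  rcases al_be_ne g x with h1 | h1
  · exact h1 (abs_nonpos_iff.mp h)
  · exact h1 hb

/-- the difference of the slopes in a frame -/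
theorem sg_sub (g : Fr) (x y : ℝ) (hx : be g x ≠ 0) (hy : be g y ≠ 0) :
    (x - y) * (g.p0 * g.q1 - g.p1 * g.q0) = (sg g x - sg g y) * (be g x * be g y) := by
  rw [← det_id]
  unfold sg
  field_simp
  ring

/-- upper bound for a horizontal and a vertical slope -/
theorem up (g : Fr) (y a : ℝ) (hy : |al g y| ≤ 1 / 2 * |be g y|)
    (ha : |be g a| ≤ 1 / 2 * |al g a|) :
    |(y - a) * (g.p0 * g.q1 - g.p1 * g.q0)| ≤ 5 / 4 * (|al g a| * |be g y|) := by
  rw [← det_id]
  have h1 : |al g a * be g y - al g y * be g a| ≤ |al g a| * |be g y| + |al g y| * |be g a| := by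
    rw [← abs_mul, ← abs_mul]
    exact abs_sub _ _
  have h2 : |al g y| * |be g a| ≤ (1 / 2 * |be g y|) * (1 / 2 * |al g a|) :=
    mul_le_mul hy ha (abs_nonneg _) (by positivity)
  linarith

/-- lower bound for a horizontal and a vertical slope -/
theorem low (g : Fr) (y a : ℝ) (hy : |al g y| ≤ 1 / 2 * |be g y|)
    (ha : |be g a| ≤ 1 / 2 * |al g a|) :
    3 / 4 * (|al g a| * |be g y|) ≤ |(y - a) * (g.p0 * g.q1 - g.p1 * g.q0)| := by
  rw [← det_id]
  have h1 : |al g a| * |be g y| - |al g y| * |be g a| ≤ |al g a * be g y - al g y * be g a| := by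
    rw [← abs_mul, ← abs_mul]
    exact abs_sub_abs_le_abs_sub _ _
  have h2 : |al g y| * |be g a| ≤ (1 / 2 * |be g y|) * (1 / 2 * |al g a|) :=
    mul_le_mul hy ha (abs_nonneg _) (by positivity)
  linarith

theorem core (g : Fr) (x x' y a e : ℝ) (he : 0 < e) (hx : |al g x| ≤ 1 / 2 * |be g x|)
    (hx' : |al g x'| ≤ 1 / 2 * |be g x'|) (hy : |al g y| ≤ 1 / 2 * |be g y|)
    (ha : |be g a| ≤ 1 / 2 * |al g a|)
    (h : |sg g x - sg g x'| ≤ 3 / 5 * e * |sg g x - sg g y|) :
    |(x - x') * (y - a)| ≤ e * |(x - y) * (x' - a)| := by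
  have bx := be_ne g x hx
  have bx' := be_ne g x' hx'
  have by' := be_ne g y hy
  have e1 := sg_sub g x x' bx bx'
  have e2 := sg_sub g x y bx by'
  have h3 := up g y a hy ha
  have h4 := low g x' a hx' ha
  set D := g.p0 * g.q1 - g.p1 * g.q0 with hDdef
  have hD : D ≠ 0 := g.det
  have hD2 : 0 < |D| * |D| := mul_pos (abs_pos.mpr hD) (abs_pos.mpr hD)
  refine le_of_mul_le_mul_right ?_ hD2
  have f1 : |(x - x') * (y - a)| * (|D| * |D|) = |(x - x') * D| * |(y - a) * D| := by
    rw [abs_mul, abs_mul, abs_mul]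
    ring
  have f2 : e * |(x - y) * (x' - a)| * (|D| * |D|) = e * (|(x - y) * D| * |(x' - a) * D|) := by
    rw [abs_mul, abs_mul, abs_mul]
    ring
  rw [f1, f2, e1, e2]
  have g1 : |(sg g x - sg g x') * (be g x * be g x')| =
      |sg g x - sg g x'| * (|be g x| * |be g x'|) := by
    rw [abs_mul, abs_mul]
  have g2 : |(sg g x - sg g y) * (be g x * be g y)| =
      |sg g x - sg g y| * (|be g x| * |be g y|) := by
    rw [abs_mul, abs_mul]
  rw [g1, g2]
  calc |sg g x - sg g x'| * (|be g x| * |be g x'|) * |(y - a) * D|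
      ≤ (3 / 5 * e * |sg g x - sg g y|) * (|be g x| * |be g x'|) *
          (5 / 4 * (|al g a| * |be g y|)) := by gcongr
    _ = e * (|sg g x - sg g y| * (|be g x| * |be g y|) *
          (3 / 4 * (|al g a| * |be g x'|))) := by ring
    _ ≤ e * (|sg g x - sg g y| * (|be g x| * |be g y|) * |(x' - a) * D|) := by gcongr

end I_FSG

open I_FSG in
theorem FSG_pf : S_FSG := by
  intro k U s g i i' j a ha hi hi' hj h e he
  filter_upwards [ha (1 / 2) (by norm_num), hi (1 / 2) (by norm_num), hi' (1 / 2) (by norm_num),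
    hj (1 / 2) (by norm_num), h (3 / 5 * e) (by positivity)] with n h1 h2 h3 h4 h5
  rw [zero_mul, add_zero] at h2 h3 h4
  exact core (g n) _ _ _ _ e he h2 h3 h4 h1 h5

end Pool.Agent.Work.MP_b25393_ag.UU
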