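import Mathlib
import Pool.Agent.Work.MP_b25393_ag.UU.StmtsB

/-!
# Item FSY: symmetry of `Far`
-/

set_option autoImplicit false

namespace Pool.Agent.Work.MP_b25393_ag.UU

open scoped Classical
open Pool.Agent.Work.MP_b25393_ag.U

theorem FSY_pf : S_FSY := by
  intro k U s i i' j a h e he
  have he' : 0 < e / (1 + e) := by positivity
  filter_upwards [h (e / (1 + e)) he'] with n hn
  set X : ℝ := (s n i - s n i') * (s n j - s n a) with hX
  set Y : ℝ := (s n i - s n j) * (s n i' - s n a) with hY
  set Z : ℝ := (s n i - s n a) * (s n i' - s n j) with hZ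
  have e1 : (s n i - s n i') * (s n a - s n j) = -X := by
    rw [hX]
    ring
  have e2 : Y = Z + X := by
    rw [hX, hY, hZ]
    ring
  rw [e1, abs_neg]
  have h1 : |Y| ≤ |Z| + |X| := by
    rw [e2]
    exact abs_add_le _ _
  have h2 : (1 + e) * |X| ≤ e * |Y| := by
    have h3 := mul_le_mul_of_nonneg_left hn (by positivity : (0 : ℝ) ≤ 1 + e)
    have h4 : (1 + e) * (e / (1 + e) * |Y|) = e * |Y| := by
      field_simp
    rwa [h4] at h3
  have h5 : e * |Y| ≤ e * (|Z| + |X|) := mul_le_mul_of_nonneg_left h1 he.le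
  linarith

end Pool.Agent.Work.MP_b25393_ag.UU
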