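import Pool.Agent.Work.MP_b25393_ag.UU.StmtsB

set_option autoImplicit false

namespace Pool.Agent.Work.MP_b25393_ag.UU

open scoped Classical
open Pool.Agent.Work.MP_b25393_ag.U

theorem FTL_pf : S_FTL := by
  intro U F G p hGF e he
  by_contra hcon
  push Not at hcon
  have h0 : ∀ T : ℝ, 0 < T → ∃ T' : ℝ, T < T' ∧ ∀ᶠ n in (U : Filter ℕ),
      e * ((F n).card : ℝ) < (((G n).filter fun l => T ≤ |p n l| ∧ |p n l| ≤ T').card : ℝ) := by
    intro T hT
    obtain ⟨T', h1, h2⟩ := hcon T hT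
    exact ⟨T', h1, h2⟩
  choose! f hf1 hf2 using h0
  obtain ⟨T, hT0, hTs⟩ : ∃ T : ℕ → ℝ, T 0 = 1 ∧ ∀ i, T (i + 1) = f (T i) + 1 :=
    ⟨fun i => Nat.rec (motive := fun _ => ℝ) (1 : ℝ) (fun _ t => f t + 1) i, rfl, fun _ => rfl⟩
  have hTpos : ∀ i, 0 < T i := by
    intro i
    induction i with
    | zero => rw [hT0]; norm_num
    | succ i ih => rw [hTs]; linarith [hf1 (T i) ih]
  have hlt : ∀ i, T i < f (T i) := fun i => hf1 (T i) (hTpos i)
  have hmono : Monotone T := monotone_nat_of_le_succ fun i => by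
    rw [hTs]
    linarith [hlt i]
  obtain ⟨N, hN⟩ := exists_nat_gt (1 / e)
  have hNe : 1 < (N : ℝ) * e := by
    rw [div_lt_iff₀ he] at hN
    exact hN
  have hall : ∀ᶠ n in (U : Filter ℕ), ∀ i : ℕ, i ∈ Finset.range N → e * ((F n).card : ℝ) <
      (((G n).filter fun l : ℝ × ℝ => T i ≤ |p n l| ∧ |p n l| ≤ f (T i)).card : ℝ) :=
    (Filter.eventually_all_finset _).mpr fun i _ => hf2 (T i) (hTpos i)
  obtain ⟨n, hn⟩ := hall.exists
  have hdis : Set.PairwiseDisjoint (↑(Finset.range N) : Set ℕ)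
      fun i : ℕ => (G n).filter fun l : ℝ × ℝ => T i ≤ |p n l| ∧ |p n l| ≤ f (T i) := by
    have key : ∀ i j, i < j → Disjoint ((G n).filter fun l => T i ≤ |p n l| ∧ |p n l| ≤ f (T i))
        ((G n).filter fun l => T j ≤ |p n l| ∧ |p n l| ≤ f (T j)) := by
      intro i j hij
      rw [Finset.disjoint_left]
      intro l hl hl'
      have h1 := (Finset.mem_filter.mp hl).2.2
      have h2 := (Finset.mem_filter.mp hl').2.1
      have h3 : T (i + 1) ≤ T j := hmono hij
      rw [hTs] at h3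
      linarith
    intro i _ j _ hij
    rcases lt_or_gt_of_ne hij with h | h
    · exact key i j h
    · exact (key j i h).symm
  have hsum : ∑ i ∈ Finset.range N,
      ((G n).filter fun l => T i ≤ |p n l| ∧ |p n l| ≤ f (T i)).card ≤ (F n).card := by
    rw [← Finset.card_biUnion hdis]
    refine Finset.card_le_card ?_
    intro l hl
    obtain ⟨i, _, hi⟩ := Finset.mem_biUnion.mp hl
    exact hGF n (Finset.mem_filter.mp hi).1
  have hN0 : 0 < N := by
    rcases Nat.eq_zero_or_pos N with h | h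
    · rw [h] at hNe
      simp at hNe
      linarith
    · exact h
  have hsum2 : ∑ _i ∈ Finset.range N, e * ((F n).card : ℝ) <
      ∑ i ∈ Finset.range N,
        (((G n).filter fun l => T i ≤ |p n l| ∧ |p n l| ≤ f (T i)).card : ℝ) :=
    Finset.sum_lt_sum_of_nonempty ⟨0, Finset.mem_range.mpr hN0⟩ hn
  rw [Finset.sum_const, Finset.card_range, nsmul_eq_mul] at hsum2
  have hsum3 : ∑ i ∈ Finset.range N,
      (((G n).filter fun l => T i ≤ |p n l| ∧ |p n l| ≤ f (T i)).card : ℝ) ≤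
        ((F n).card : ℝ) := by exact_mod_cast hsum
  have h0' : (0 : ℝ) ≤ ((F n).card : ℝ) := by positivity
  nlinarith

end Pool.Agent.Work.MP_b25393_ag.UU
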