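import Pool.Agent.Work.MP_b25393_ag.UU.StmtsB

/-!
Block UU of MP_b25393_ag, item FTR: transitivity of the relation `Far`.
-/

set_option autoImplicit false

namespace Pool.Agent.Work.MP_b25393_ag.UU

open scoped Classical
open Pool.Agent.Work.MP_b25393_ag.U

namespace I_FTR

theorem key (x x' y z w e e' : ℝ) (hxz : x ≠ z) (he' : 0 < e') (he2 : e' ≤ 1 / 2)
    (he4 : e' ≤ e / 4) (h1 : |(x - x') * (y - z)| ≤ e' * |(x - y) * (x' - z)|)
    (h2 : |(x - x') * (w - z)| ≤ e' * |(x - w) * (x' - z)|) :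
    |(x - x') * (y - w)| ≤ e * |(x - y) * (x' - w)| := by
  have hpos : 0 < |x - z| := abs_pos.2 (sub_ne_zero.2 hxz)
  have k1 : |(y - w) * (x - z)| ≤ |(x - w) * (y - z)| + |(x - y) * (w - z)| := by
    have e1 : (y - w) * (x - z) = (x - w) * (y - z) - (x - y) * (w - z) := by ring
    rw [e1]
    exact abs_sub _ _
  have k2 : |(x - w) * (x' - z)| ≤ |(x - z) * (x' - w)| + |(x - x') * (w - z)| := by
    have e1 : (x - w) * (x' - z) = (x - z) * (x' - w) + (x - x') * (w - z) := by ring
    rw [e1]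
    exact abs_add_le _ _
  simp only [abs_mul] at h1 h2 k1 k2 ⊢
  have a1 := abs_nonneg (x - x')
  have a2 := abs_nonneg (x - y)
  have a3 := abs_nonneg (x - w)
  have a4 := abs_nonneg (x' - z)
  have a5 := abs_nonneg (x' - w)
  have a6 := abs_nonneg (y - w)
  generalize |x - z| = p at *
  generalize |x - x'| = q at *
  generalize |x - y| = r at *
  generalize |x - w| = t at *
  generalize |x' - z| = u at *
  generalize |x' - w| = v at *
  generalize |y - w| = m at *
  generalize |y - z| = y1 at *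
  generalize |w - z| = z1 at *
  -- `q m p ≤ 2 e' r t u`
  have s1 : q * m * p ≤ 2 * e' * (r * t * u) := by
    have b1 : q * (m * p) ≤ q * (t * y1 + r * z1) := mul_le_mul_of_nonneg_left k1 a1
    have b2 : t * (q * y1) ≤ t * (e' * (r * u)) := mul_le_mul_of_nonneg_left h1 a3
    have b3 : r * (q * z1) ≤ r * (e' * (t * u)) := mul_le_mul_of_nonneg_left h2 a2
    nlinarith
  have s2 : t * u ≤ 2 * (p * v) := by
    have b1 : e' * (t * u) ≤ 1 / 2 * (t * u) :=
      mul_le_mul_of_nonneg_right he2 (mul_nonneg a3 a4)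
    linarith
  have s3 : q * m * p ≤ (e * (r * v)) * p := by
    have b1 : r * (t * u) ≤ r * (2 * (p * v)) := mul_le_mul_of_nonneg_left s2 a2
    have b2 : 2 * e' * (r * (t * u)) ≤ 2 * e' * (r * (2 * (p * v))) :=
      mul_le_mul_of_nonneg_left b1 (by linarith)
    have b3 : e' * (r * (p * v)) ≤ e / 4 * (r * (p * v)) :=
      mul_le_mul_of_nonneg_right he4 (mul_nonneg a2 (mul_nonneg hpos.le a5))
    nlinarith
  exact le_of_mul_le_mul_right s3 hpos

end I_FTR

theorem FTR_pf : S_FTR := by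
  intro k U s i i' j a b h0 h1 h2 e he
  have he' : 0 < min (1 / 2) (e / 4) := lt_min (by norm_num) (by linarith)
  filter_upwards [h0, h1 _ he', h2 _ he'] with n g0 g1 g2
  exact I_FTR.key (s n i) (s n i') (s n j) (s n a) (s n b) e _ g0 he' (min_le_left _ _)
    (min_le_right _ _) g1 g2

end Pool.Agent.Work.MP_b25393_ag.UU
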