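import Pool.Agent.Work.MP_b25393_ag.UU.StmtsB

set_option autoImplicit false

namespace Pool.Agent.Work.MP_b25393_ag.UU

open scoped Classical
open Pool.Agent.Work.MP_b25393_ag.U

namespace I_FVH

/-- upper bound of a determinant of two almost parallel directions -/
theorem up {A B A' B' ε : ℝ} (h : |B| ≤ ε * |A|) (h' : |B'| ≤ ε * |A'|) :
    |A' * B - A * B'| ≤ 2 * ε * (|A| * |A'|) := by
  have h1 : |A' * B - A * B'| ≤ |A' * B| + |A * B'| := abs_sub _ _
  rw [abs_mul, abs_mul] at h1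
  have h2 : |A'| * |B| ≤ |A'| * (ε * |A|) := mul_le_mul_of_nonneg_left h (abs_nonneg _)
  have h3 : |A| * |B'| ≤ |A| * (ε * |A'|) := mul_le_mul_of_nonneg_left h' (abs_nonneg _)
  linarith

/-- lower bound of a determinant of two almost orthogonal directions -/
theorem low {A B A' B' ε : ℝ} (h0 : 0 ≤ ε) (h : |B| ≤ ε * |A|) (h' : |A'| ≤ ε * |B'|) :
    (1 - ε * ε) * (|A| * |B'|) ≤ |A' * B - A * B'| := by
  have h1 : |A * B'| - |A' * B| ≤ |A' * B - A * B'| := by
    have := abs_sub_abs_le_abs_sub (A * B') (A' * B)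
    rwa [abs_sub_comm (A * B')] at this
  rw [abs_mul, abs_mul] at h1
  have h2 : |A'| * |B| ≤ (ε * |B'|) * (ε * |A|) :=
    mul_le_mul h' h (abs_nonneg _) (mul_nonneg h0 (abs_nonneg _))
  linarith

end I_FVH

open I_FVH in
theorem FVH_pf : S_FVH := by
  intro k U s g i i' j a h1 h2 h3 h4 e he
  have hε : 0 < min (1 / 2) (e / 8) := lt_min (by norm_num) (by linarith)
  filter_upwards [h1 _ hε, h2 _ hε, h3 _ hε, h4 _ hε] with n a1 a2 a3 a4
  obtain ⟨ε, hε1, hε2, hε0, hεe⟩ : ∃ ε : ℝ, ε ≤ 1 / 2 ∧ ε ≤ e / 8 ∧ 0 < ε ∧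
      ε = min (1 / 2) (e / 8) := ⟨_, min_le_left _ _, min_le_right _ _, hε, rfl⟩
  rw [← hεe] at a1 a2 a3 a4
  rw [zero_mul, add_zero] at a3 a4
  have hD : 0 < |(g n).p0 * (g n).q1 - (g n).p1 * (g n).q0| := abs_pos.2 (g n).det
  have w1 := det_id (g n) (s n i) (s n i')
  have w2 := det_id (g n) (s n j) (s n a)
  have w3 := det_id (g n) (s n i) (s n j)
  have w4 := det_id (g n) (s n i') (s n a)
  have b1 := up a1 a2
  have b2 : |al (g n) (s n a) * be (g n) (s n j) - al (g n) (s n j) * be (g n) (s n a)| ≤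
      2 * ε * (|be (g n) (s n j)| * |be (g n) (s n a)|) := by
    have := up a3 a4
    rw [abs_sub_comm] at this
    rwa [mul_comm (al (g n) (s n a)), mul_comm (al (g n) (s n j))]
  have b3 := low hε0.le a1 a3
  have b4 := low hε0.le a2 a4
  rw [w1, abs_mul] at b1
  rw [w2, abs_mul] at b2
  rw [w3, abs_mul] at b3
  rw [w4, abs_mul] at b4
  set D := |(g n).p0 * (g n).q1 - (g n).p1 * (g n).q0| with hDD
  set P := |al (g n) (s n i)| with hP
  set P' := |al (g n) (s n i')| with hP'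
  set Q := |be (g n) (s n j)| with hQ
  set Q' := |be (g n) (s n a)| with hQ'
  have p1 : 0 ≤ P := abs_nonneg _
  have p2 : 0 ≤ P' := abs_nonneg _
  have p3 : 0 ≤ Q := abs_nonneg _
  have p4 : 0 ≤ Q' := abs_nonneg _
  have hee : ε * ε ≤ 1 / 4 := by nlinarith
  have c1 : (|s n i - s n i'| * D) * (|s n j - s n a| * D) ≤
      (2 * ε * (P * P')) * (2 * ε * (Q * Q')) :=
    mul_le_mul b1 b2 (by positivity) (by positivity)
  have c2 : ((1 - ε * ε) * (P * Q)) * ((1 - ε * ε) * (P' * Q')) ≤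
      (|s n i - s n j| * D) * (|s n i' - s n a| * D) := by
    refine mul_le_mul b3 b4 ?_ (by positivity)
    have : 0 ≤ 1 - ε * ε := by linarith
    positivity
  have c3 : 4 * (ε * ε) ≤ e * ((1 - ε * ε) * (1 - ε * ε)) := by
    have h5 : (9 : ℝ) / 16 ≤ (1 - ε * ε) * (1 - ε * ε) := by nlinarith
    have h6 : ε * ε ≤ 1 / 2 * (e / 8) := mul_le_mul hε1 hε2 hε0.le (by norm_num)
    nlinarith
  have hR : 0 ≤ P * P' * (Q * Q') := by positivity
  have c4 : (2 * ε * (P * P')) * (2 * ε * (Q * Q')) ≤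
      e * (((1 - ε * ε) * (P * Q)) * ((1 - ε * ε) * (P' * Q'))) := by
    have := mul_le_mul_of_nonneg_right c3 hR
    nlinarith
  rw [abs_mul, abs_mul]
  refine le_of_mul_le_mul_right ?_ (mul_pos hD hD)
  have c5 := mul_le_mul_of_nonneg_left c2 he.le
  calc |s n i - s n i'| * |s n j - s n a| * (D * D)
      = (|s n i - s n i'| * D) * (|s n j - s n a| * D) := by ring
    _ ≤ e * ((|s n i - s n j| * D) * (|s n i' - s n a| * D)) := c1.trans (c4.trans c5)
    _ = e * (|s n i - s n j| * |s n i' - s n a|) * (D * D) := by ring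

end Pool.Agent.Work.MP_b25393_ag.UU
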