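import Pool.Agent.Work.MP_b25393_ag.UU.StmtsC

/-!
# Block [b25393 UU], item GE2: a macro point with a vertical family
-/

set_option autoImplicit false

namespace Pool.Agent.Work.MP_b25393_ag.UU

open scoped Classical
open Pool.Agent.Work.MP_b25393_ag.U

namespace I_GE2

/-- the point of the offset `t` of the block with slope `lam` -/
noncomputable def pk (τ lam t : ℝ) : ℝ × ℝ := (lam / (1 + τ * lam), t / (1 + τ * lam))

/-- the point of the vertical line `v` -/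
noncomputable def pv (τ v : ℝ) : ℝ × ℝ := (1 / τ, -v / τ)

theorem pk_on {τ lam : ℝ} (h : 1 + τ * lam ≠ 0) (a b t : ℝ) :
    (pk τ lam t).2 = a * (pk τ lam t).1 + b ↔ t = b - lam * -(a + τ * b) := by
  unfold pk
  simp only
  have e : a * (lam / (1 + τ * lam)) + b = (a * lam + b * (1 + τ * lam)) / (1 + τ * lam) := by
    rw [eq_div_iff h, add_mul, mul_assoc, div_mul_cancel₀ _ h]
  rw [e, div_left_inj' h]
  constructor
  · intro h1
    rw [h1]
    ring
  · intro h1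
    rw [h1]
    ring

theorem pv_on {τ : ℝ} (h : τ ≠ 0) (a b v : ℝ) :
    (pv τ v).2 = a * (pv τ v).1 + b ↔ v = -(a + τ * b) := by
  unfold pv
  simp only
  have e : a * (1 / τ) + b = (a + τ * b) / τ := by
    field_simp
  rw [e, div_left_inj' h]
  constructor
  · intro h1
    linarith
  · intro h1
    linarith

theorem fst_inj {τ lam lam' t t' : ℝ} (h : 1 + τ * lam ≠ 0) (h' : 1 + τ * lam' ≠ 0)
    (he : (pk τ lam t).1 = (pk τ lam' t').1) : lam = lam' := by
  unfold pk at he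
  simp only at he
  rw [div_eq_div_iff h h'] at he
  linarith

theorem fst_ne {τ lam t v : ℝ} (h0 : τ ≠ 0) (h : 1 + τ * lam ≠ 0) :
    (pk τ lam t).1 ≠ (pv τ v).1 := by
  unfold pk pv
  simp only
  intro he
  rw [div_eq_div_iff h h0] at he
  linarith

theorem exists_tau {ι : Type} (G : Finset ι) (lam : ι → ℝ) :
    ∃ τ : ℝ, τ ≠ 0 ∧ ∀ K ∈ G, 1 + τ * lam K ≠ 0 := by
  obtain ⟨τ, hτ⟩ := Infinite.exists_notMem_finset (insert (0 : ℝ) (G.image fun K => -1 / lam K))
  rw [Finset.mem_insert, not_or] at hτ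
  refine ⟨τ, hτ.1, fun K hK h => hτ.2 ?_⟩
  refine Finset.mem_image.mpr ⟨K, hK, ?_⟩
  have h1 : lam K ≠ 0 := by
    intro h2
    rw [h2] at h
    norm_num at h
  rw [div_eq_iff h1]
  linarith

theorem cont_pk (τ lam : ℝ) : Continuous (pk τ lam) := by
  unfold pk
  exact continuous_const.prodMk (continuous_id.div_const _)

theorem cont_pv (τ : ℝ) : Continuous (pv τ) := by
  unfold pv
  exact continuous_const.prodMk (continuous_neg.div_const _)

end I_GE2

open I_GE2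

theorem GE2_pf (hGEO : U.S_GEO) : S_GE2 := by
  intro ι G lam S E hS hE hinj h2 hnc
  obtain ⟨τ, h0, hτ⟩ := exists_tau G lam
  set P : Set (ℝ × ℝ) := (⋃ K ∈ G, pk τ (lam K) '' S K) ∪ pv τ '' E with hP
  have memP : ∀ p : ℝ × ℝ, p ∈ P ↔ (∃ K ∈ G, ∃ t ∈ S K, pk τ (lam K) t = p) ∨
      ∃ v ∈ E, pv τ v = p := by
    intro p
    rw [hP, Set.mem_union, Set.mem_iUnion₂]
    simp only [Set.mem_image, exists_prop]
  have hPc : IsCompact P :=
    (G.isCompact_biUnion fun K hK => (hS K hK).image (cont_pk τ (lam K))).union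
      (hE.image (cont_pv τ))
  have hPf : (Prod.fst '' P).Finite := by
    refine (Finset.finite_toSet (insert (1 / τ) (G.image fun K =>
      lam K / (1 + τ * lam K)))).subset ?_
    rintro _ ⟨p, hp, rfl⟩
    rw [Finset.mem_coe, Finset.mem_insert, Finset.mem_image]
    rcases (memP p).mp hp with ⟨K, hK, t, ht, rfl⟩ | ⟨v, hv, rfl⟩
    · exact Or.inr ⟨K, hK, rfl⟩
    · exact Or.inl rfl
  have hP2 : ∃ p ∈ P, ∃ q ∈ P, p.1 ≠ q.1 := by
    obtain ⟨K, hK, K', hK', hne, ⟨t, ht⟩, ⟨t', ht'⟩⟩ := h2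
    refine ⟨pk τ (lam K) t, (memP _).mpr (Or.inl ⟨K, hK, t, ht, rfl⟩), pk τ (lam K') t',
      (memP _).mpr (Or.inl ⟨K', hK', t', ht', rfl⟩), fun he => ?_⟩
    exact hinj K hK K' hK' hne (fst_inj (hτ K hK) (hτ K' hK') he)
  have hPn : ¬ ∃ a b : ℝ, ∀ p ∈ P, p.2 = a * p.1 + b := by
    rintro ⟨a, b, hab⟩
    refine hnc ⟨-(a + τ * b), b, fun K hK t ht => ?_, fun v hv => ?_⟩
    · exact (pk_on (hτ K hK) a b t).mp (hab _ ((memP _).mpr (Or.inl ⟨K, hK, t, ht, rfl⟩)))
    · exact (pv_on h0 a b v).mp (hab _ ((memP _).mpr (Or.inr ⟨v, hv, rfl⟩)))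
  obtain ⟨a, b, p, hp, q, hq, hpq, hpl, hql, hr⟩ := hGEO P hPc hPf hP2 hPn
  -- the case of one point in a block and one point in the vertical family
  have key : ∀ p q : ℝ × ℝ, p.2 = a * p.1 + b → q.2 = a * q.1 + b →
      (∀ r ∈ P, r.2 = a * r.1 + b → r = p ∨ r = q) →
      (∃ K ∈ G, ∃ t ∈ S K, pk τ (lam K) t = p) → (∃ v ∈ E, pv τ v = q) →
      ∃ x y : ℝ, ∃ K ∈ G, y - lam K * x ∈ S K ∧ x ∈ E ∧
        ∀ K' ∈ G, K' ≠ K → y - lam K' * x ∉ S K' := by
    rintro p q hpl hql hr ⟨K, hK, t, ht, rfl⟩ ⟨v, hv, rfl⟩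
    rw [pk_on (hτ K hK)] at hpl
    rw [pv_on h0] at hql
    refine ⟨-(a + τ * b), b, K, hK, hpl ▸ ht, hql ▸ hv, fun K' hK' hne hm => ?_⟩
    rcases hr (pk τ (lam K') (b - lam K' * -(a + τ * b)))
      ((memP _).mpr (Or.inl ⟨K', hK', _, hm, rfl⟩)) ((pk_on (hτ K' hK') a b _).mpr rfl) with h | h
    · exact hinj K' hK' K hK hne (fst_inj (hτ K' hK') (hτ K hK) (congrArg Prod.fst h))
    · exact fst_ne h0 (hτ K' hK') (congrArg Prod.fst h)
  rcases (memP p).mp hp with hpK | hpv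
  · rcases (memP q).mp hq with hqK | hqv
    · left
      obtain ⟨K, hK, t, ht, rfl⟩ := hpK
      obtain ⟨K', hK', t', ht', rfl⟩ := hqK
      have hne : K ≠ K' := by
        rintro rfl
        exact hpq rfl
      rw [pk_on (hτ K hK)] at hpl
      rw [pk_on (hτ K' hK')] at hql
      refine ⟨-(a + τ * b), b, K, hK, K', hK', hne, hpl ▸ ht, hql ▸ ht',
        fun K'' hK'' hne1 hne2 hm => ?_, fun hm => ?_⟩
      · rcases hr (pk τ (lam K'') (b - lam K'' * -(a + τ * b)))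
          ((memP _).mpr (Or.inl ⟨K'', hK'', _, hm, rfl⟩))
          ((pk_on (hτ K'' hK'') a b _).mpr rfl) with h | h
        · exact hinj K'' hK'' K hK hne1 (fst_inj (hτ K'' hK'') (hτ K hK) (congrArg Prod.fst h))
        · exact hinj K'' hK'' K' hK' hne2
            (fst_inj (hτ K'' hK'') (hτ K' hK') (congrArg Prod.fst h))
      · rcases hr (pv τ (-(a + τ * b))) ((memP _).mpr (Or.inr ⟨_, hm, rfl⟩))
          ((pv_on h0 a b _).mpr rfl) with h | h
        · exact fst_ne h0 (hτ K hK) (congrArg Prod.fst h).symm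
        · exact fst_ne h0 (hτ K' hK') (congrArg Prod.fst h).symm
    · right
      exact key p q hpl hql hr hpK hqv
  · rcases (memP q).mp hq with hqK | hqv
    · right
      exact key q p hql hpl (fun r hr1 hr2 => (hr r hr1 hr2).symm) hqK hpv
    · exfalso
      obtain ⟨v, hv, rfl⟩ := hpv
      obtain ⟨v', hv', rfl⟩ := hqv
      exact hpq rfl

end Pool.Agent.Work.MP_b25393_ag.UU
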