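import Pool.Agent.Work.MP_b25393_ag.UU.StmtsA

set_option autoImplicit false

namespace Pool.Agent.Work.MP_b25393_ag.UU

open scoped Classical
open Pool.Agent.Work.MP_b25393_ag.U

namespace I_LEV

theorem val_cont (l : ℝ × ℝ) : Continuous fun x => val l x := by
  unfold val
  fun_prop

theorem loc (F : Finset (ℝ × ℝ)) (l : ℝ × ℝ) (x : ℝ) (hl : l ∈ F)
    (h : on F (x, val l x) ≤ 1) :
    ∀ᶠ x' in nhds x, lo F (x', val l x') = lo F (x, val l x) := by
  have hne : ∀ l' ∈ F, l' ≠ l → val l' x ≠ val l x := by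
    intro l' hl' hn he
    have h2 : 1 < on F (x, val l x) := by
      unfold on
      rw [Finset.one_lt_card]
      exact ⟨l', Finset.mem_filter.mpr ⟨hl', he⟩, l, Finset.mem_filter.mpr ⟨hl, rfl⟩, hn⟩
    omega
  have h1 : ∀ᶠ x' in nhds x, ∀ l' ∈ F, (val l' x' < val l x' ↔ val l' x < val l x) := by
    rw [Filter.eventually_all_finset]
    intro l' hl'
    by_cases hn : l' = l
    · subst hn
      exact Filter.Eventually.of_forall fun x' => by simp
    · rcases lt_or_gt_of_ne (hne l' hl' hn) with h2 | h2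
      · filter_upwards [(val_cont l').continuousAt.eventually_lt (val_cont l).continuousAt h2]
          with x' h3
        exact ⟨fun _ => h2, fun _ => h3⟩
      · filter_upwards [(val_cont l).continuousAt.eventually_lt (val_cont l').continuousAt h2]
          with x' h3
        exact ⟨fun h4 => absurd h4 (not_lt.mpr h3.le), fun h4 => absurd h4 (not_lt.mpr h2.le)⟩
  filter_upwards [h1] with x' h2
  unfold lo
  congr 1
  exact Finset.filter_congr h2

end I_LEV

open I_LEV in
theorem LEV_pf (hLVC : S_LVC) (hLVE : S_LVE) : S_LEV := by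
  intro F j a b hab hj hv
  obtain ⟨l, hl, h0⟩ := hLVE F j ((a + b) / 2) hj
  refine ⟨l, hl, ?_⟩
  have hcl : IsClosed {x : ℝ | Lv F j l x} := hLVC F j l
  have hopen : ∀ x ∈ Set.Ioo a b, Lv F j l x → x ∈ interior {x : ℝ | Lv F j l x} := by
    intro x hx hL
    have h1 : on F (x, val l x) ≤ 1 := by
      by_contra h2
      push Not at h2
      exact hv _ (mem_vts.mpr h2) hx.1 hx.2 hL
    rw [mem_interior_iff_mem_nhds]
    filter_upwards [loc F l x hl h1] with x' h2
    have hon : 1 ≤ on F (x', val l x') := by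
      unfold on
      exact Finset.card_pos.mpr ⟨l, Finset.mem_filter.mpr ⟨hl, rfl⟩⟩
    obtain ⟨h3, h4⟩ := hL
    change lo F (x', val l x') ≤ j ∧ j < lo F (x', val l x') + on F (x', val l x')
    rw [h2]
    constructor
    · exact h3
    · omega
  have hsub : Set.Ioo a b ⊆ {x : ℝ | Lv F j l x} := by
    by_contra hns
    obtain ⟨z, hz, hz'⟩ := Set.not_subset.mp hns
    have hpre : IsPreconnected (Set.Ioo a b) := isPreconnected_Ioo
    obtain ⟨y, -, hy1, hy2⟩ := hpre (interior {x : ℝ | Lv F j l x}) {x : ℝ | Lv F j l x}ᶜ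
      isOpen_interior hcl.isOpen_compl (by
        intro x hx
        by_cases h : Lv F j l x
        · exact Or.inl (hopen x hx h)
        · exact Or.inr h)
      ⟨(a + b) / 2, ⟨by linarith, by linarith⟩,
        hopen _ ⟨by linarith, by linarith⟩ h0⟩ ⟨z, hz, hz'⟩
    exact hy2 (interior_subset hy1)
  intro x h1 h2
  have h3 : closure (Set.Ioo a b) ⊆ {x : ℝ | Lv F j l x} := closure_minimal hsub hcl
  rw [closure_Ioo hab.ne] at h3
  exact h3 ⟨h1, h2⟩

end Pool.Agent.Work.MP_b25393_ag.UU
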