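import Pool.Agent.Work.MP_b25393_ag.UU.StmtsA

/-!
# LVC: the set of the places at which a line is on a given level is closed
-/

set_option autoImplicit false

namespace Pool.Agent.Work.MP_b25393_ag.UU

open scoped Classical
open Pool.Agent.Work.MP_b25393_ag.U

namespace I_LVC

theorem cont_val (l : ℝ × ℝ) : Continuous (val l) := by
  unfold val
  fun_prop

theorem split (F : Finset (ℝ × ℝ)) (l : ℝ × ℝ) (x : ℝ) :
    lo F (x, val l x) + on F (x, val l x) + (F.filter fun m => val l x < val m x).card =
      F.card := by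
  have h1 : (F.filter fun m => val m x ≤ val l x).card =
      lo F (x, val l x) + on F (x, val l x) := by
    unfold lo on
    rw [← Finset.card_union_of_disjoint]
    · congr 1
      ext m
      rw [Finset.mem_filter, Finset.mem_union, Finset.mem_filter, Finset.mem_filter]
      constructor
      · rintro ⟨h1, h2⟩
        rcases lt_or_eq_of_le h2 with h3 | h3
        · exact Or.inl ⟨h1, h3⟩
        · exact Or.inr ⟨h1, h3⟩
      · rintro (⟨h1, h2⟩ | ⟨h1, h2⟩)
        · exact ⟨h1, le_of_lt h2⟩
        · exact ⟨h1, le_of_eq h2⟩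
    · rw [Finset.disjoint_left]
      intro m h1 h2
      rw [Finset.mem_filter] at h1 h2
      exact absurd h2.2 (ne_of_lt h1.2)
  rw [← h1]
  have h2 := Finset.card_filter_add_card_filter_not (s := F) (fun m => val m x ≤ val l x)
  have h3 : (F.filter fun m => val l x < val m x) = F.filter fun m => ¬ val m x ≤ val l x := by
    apply Finset.filter_congr
    intro m _
    exact not_le.symm
  rw [h3]
  exact h2

theorem ev_lt (l m : ℝ × ℝ) (x₀ : ℝ) (h : val m x₀ < val l x₀) :
    ∀ᶠ x in nhds x₀, val m x < val l x :=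
  (isOpen_lt (cont_val m) (cont_val l)).mem_nhds h

theorem open1 (F : Finset (ℝ × ℝ)) (j : ℕ) (l : ℝ × ℝ) :
    IsOpen {x : ℝ | j < lo F (x, val l x)} := by
  rw [isOpen_iff_eventually]
  intro x₀ hx₀
  have h1 : ∀ᶠ x in nhds x₀, ∀ m ∈ F.filter (fun m => val m x₀ < val l x₀),
      val m x < val l x := by
    rw [Filter.eventually_all_finset]
    intro m hm
    exact ev_lt l m x₀ (Finset.mem_filter.mp hm).2
  filter_upwards [h1] with x hx
  have h2 : lo F (x₀, val l x₀) ≤ lo F (x, val l x) := by
    unfold lo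
    apply Finset.card_le_card
    intro m hm
    have h3 := hx m hm
    rw [Finset.mem_filter] at hm ⊢
    exact ⟨hm.1, h3⟩
  have h3 : j < lo F (x₀, val l x₀) := hx₀
  exact lt_of_lt_of_le h3 h2

theorem open2 (F : Finset (ℝ × ℝ)) (j : ℕ) (l : ℝ × ℝ) :
    IsOpen {x : ℝ | lo F (x, val l x) + on F (x, val l x) ≤ j} := by
  rw [isOpen_iff_eventually]
  intro x₀ hx₀
  have h1 : ∀ᶠ x in nhds x₀, ∀ m ∈ F.filter (fun m => val l x₀ < val m x₀),
      val l x < val m x := by
    rw [Filter.eventually_all_finset]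
    intro m hm
    exact ev_lt m l x₀ (Finset.mem_filter.mp hm).2
  filter_upwards [h1] with x hx
  have h2 : (F.filter fun m => val l x₀ < val m x₀).card ≤
      (F.filter fun m => val l x < val m x).card := by
    apply Finset.card_le_card
    intro m hm
    have h3 := hx m hm
    rw [Finset.mem_filter] at hm ⊢
    exact ⟨hm.1, h3⟩
  have h3 : lo F (x₀, val l x₀) + on F (x₀, val l x₀) ≤ j := hx₀
  have h4 := split F l x₀
  have h5 := split F l x
  change lo F (x, val l x) + on F (x, val l x) ≤ j
  omega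

end I_LVC

theorem LVC_pf : S_LVC := by
  intro F j l
  have h1 := (I_LVC.open1 F j l).isClosed_compl
  have h2 := (I_LVC.open2 F j l).isClosed_compl
  have h3 : {x : ℝ | Lv F j l x} = {x : ℝ | j < lo F (x, val l x)}ᶜ ∩
      {x : ℝ | lo F (x, val l x) + on F (x, val l x) ≤ j}ᶜ := by
    ext x
    constructor
    · rintro ⟨h4, h5⟩
      exact ⟨fun h6 => absurd (lt_of_lt_of_le (show j < _ from h6) h4) (lt_irrefl _),
        fun h6 => absurd (lt_of_lt_of_le h5 (show _ ≤ j from h6)) (lt_irrefl _)⟩
    · rintro ⟨h4, h5⟩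
      exact ⟨not_lt.mp h4, not_le.mp h5⟩
  rw [h3]
  exact h1.inter h2

end Pool.Agent.Work.MP_b25393_ag.UU
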