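import Pool.Agent.Work.MP_b25393_ag.UU.StmtsA

/-!
# LVU: over one abscissa a level is at one ordinate only
-/

set_option autoImplicit false

namespace Pool.Agent.Work.MP_b25393_ag.UU

open scoped Classical
open Pool.Agent.Work.MP_b25393_ag.U

namespace I_LVU

theorem lo_add_on_le (F : Finset (ℝ × ℝ)) (x y y' : ℝ) (h : y < y') :
    lo F (x, y) + on F (x, y) ≤ lo F (x, y') := by
  unfold lo on
  rw [← Finset.card_union_of_disjoint]
  · apply Finset.card_le_card
    intro l hl
    rw [Finset.mem_union, Finset.mem_filter, Finset.mem_filter] at hl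
    rw [Finset.mem_filter]
    rcases hl with ⟨h1, h2⟩ | ⟨h1, h2⟩
    · exact ⟨h1, lt_trans h2 h⟩
    · exact ⟨h1, lt_of_eq_of_lt h2 h⟩
  · rw [Finset.disjoint_left]
    intro l h1 h2
    rw [Finset.mem_filter] at h1 h2
    exact absurd h2.2 (ne_of_lt h1.2)

end I_LVU

theorem LVU_pf : S_LVU := by
  intro F j x y y' h1 h2 h3 h4
  rcases lt_trichotomy y y' with h | h | h
  · have := I_LVU.lo_add_on_le F x y y' h
    omega
  · exact h
  · have := I_LVU.lo_add_on_le F x y' y h
    omega

end Pool.Agent.Work.MP_b25393_ag.UU
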