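import Pool.Agent.Work.MP_b25393_ag.UU.StmtsA

/-! Item [b25393 UU ML]. -/

set_option autoImplicit false

namespace Pool.Agent.Work.MP_b25393_ag.UU

open scoped Classical
open Pool.Agent.Work.MP_b25393_ag.U

namespace I_ML

/-- the abscissae of the points of `c` with frame coordinates in `Q` -/
def Ic (g : Fr) (Q : Set (ℝ × ℝ)) (c : ℝ × ℝ) : Set ℝ := {x | ∃ P ∈ Q, pt g P = (x, val c x)}

theorem ic_ord (g : Fr) (Q : Set (ℝ × ℝ)) (c : ℝ × ℝ) (hQ : Convex ℝ Q) :
    (Ic g Q c).OrdConnected := by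
  apply Convex.ordConnected
  rintro x ⟨P, hP, hPx⟩ z ⟨R, hR, hRz⟩ a b ha hb hab
  refine ⟨a • P + b • R, hQ hP hR ha hb hab, ?_⟩
  unfold pt at hPx hRz ⊢
  rw [Prod.mk.injEq] at hPx hRz
  obtain ⟨h1, h2⟩ := hPx
  obtain ⟨h3, h4⟩ := hRz
  unfold val at h2 h4 ⊢
  simp only [Prod.fst_add, Prod.smul_fst, Prod.snd_add, Prod.smul_snd, smul_eq_mul]
  have hb' : b = 1 - a := by linarith
  subst hb'
  refine Prod.ext ?_ ?_
  · change g.p0 * (a * P.1 + (1 - a) * R.1) + g.q0 * (a * P.2 + (1 - a) * R.2) + g.r0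
      = a * x + (1 - a) * z
    rw [← h1, ← h3]
    ring
  · change g.p1 * (a * P.1 + (1 - a) * R.1) + g.q1 * (a * P.2 + (1 - a) * R.2) + g.r1
      = c.1 * (a * x + (1 - a) * z) + c.2
    have e : g.p1 * (a * P.1 + (1 - a) * R.1) + g.q1 * (a * P.2 + (1 - a) * R.2) + g.r1
      = a * (g.p1 * P.1 + g.q1 * P.2 + g.r1) + (1 - a) * (g.p1 * R.1 + g.q1 * R.2 + g.r1) := by
      ring
    rw [e, h2, h4]
    ring

theorem onl_of {g : Fr} {c l P : ℝ × ℝ} {x : ℝ} (hP : pt g P = (x, val c x))
    (hl : val l x = val c x) : onl g l P := by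
  rw [mem_line, hP]
  exact hl

theorem mt_iff (g : Fr) (Q : Set (ℝ × ℝ)) (c l : ℝ × ℝ) : mt (Ic g Q c) c l ↔ mc g Q c l := by
  unfold mt mc
  refine and_congr_right fun _ => ?_
  constructor
  · rintro ⟨x, ⟨P, hP, hPx⟩, hx⟩
    exact ⟨P, hP, onl_of hPx rfl, onl_of hPx hx⟩
  · rintro ⟨P, hP, h1, h2⟩
    rw [mem_line] at h1 h2
    exact ⟨(pt g P).1, ⟨P, hP, Prod.ext rfl h1.symm⟩, h2.trans h1.symm⟩

end I_ML

theorem ML_pf (hCTL : S_CTL) : S_ML := by
  intro k s F V H g Q v₀ hs hV hH hQ hv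
  let E : ℝ × ℝ → Finset (ℝ × ℝ) := fun c => (nxt (vab F c)).filter fun q =>
    on F (q.1, val c q.1) = 2 ∧ on F (q.2, val c q.2) = 2
  let p : ℝ × ℝ → (ℝ × ℝ) × (ℝ × ℝ) → Prop := fun c q => q.1 ≠ q.2 ∧ q.1 ≠ c ∧ q.2 ≠ c ∧
      ∃ x ∈ I_ML.Ic g (Q c) c, val q.1 x = val c x ∧ val q.2 x = val c x
  let S : Finset ((ℝ × ℝ) × (ℝ × ℝ)) := (V ×ˢ V).filter fun q => q.1 ≠ q.2 ∧ ∃ c ∈ H, ∃ P ∈ Q c,
      onl g c P ∧ onl g q.1 P ∧ onl g q.2 P
  have h1 : ∀ c ∈ H, v₀ ≤ (E c).card + 1 + 2 * ((F \ V).filter fun l => mc g (Q c) c l).card +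
      3 * ((V ×ˢ V).filter fun q => p c q).card := by
    intro c hc
    have h2 := hCTL F V c (I_ML.Ic g (Q c) c) (hH hc) hV (I_ML.ic_ord g (Q c) c (hQ c hc))
    have e1 : (V.filter fun l => mt (I_ML.Ic g (Q c) c) c l)
        = V.filter fun l => mc g (Q c) c l :=
      Finset.filter_congr fun l _ => I_ML.mt_iff g (Q c) c l
    have e2 : ((F \ V).filter fun l => mt (I_ML.Ic g (Q c) c) c l)
        = (F \ V).filter fun l => mc g (Q c) c l :=
      Finset.filter_congr fun l _ => I_ML.mt_iff g (Q c) c l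
    rw [e1, e2] at h2
    exact (hv c hc).trans h2
  have hE : ∑ c ∈ H, (E c).card ≤ (dde F).card := by
    have h2 : (H.biUnion fun c => (E c).image fun q => (c, q)).card = ∑ c ∈ H, (E c).card := by
      rw [Finset.card_biUnion]
      · refine Finset.sum_congr rfl fun c _ => ?_
        exact Finset.card_image_of_injective _ (fun a b hab => (Prod.mk.inj hab).2)
      · intro c _ c' _ hcc'
        change Disjoint (Finset.image (fun q => (c, q)) (E c))
          (Finset.image (fun q => (c', q)) (E c'))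
        rw [Finset.disjoint_left]
        intro a ha ha'
        rw [Finset.mem_image] at ha ha'
        obtain ⟨q, _, rfl⟩ := ha
        obtain ⟨q', _, h3⟩ := ha'
        exact hcc' (Prod.mk.inj h3).1.symm
    rw [← h2]
    exact Finset.card_le_card (Finset.biUnion_subset_biUnion_of_subset_left _ hH)
  have hp : ∀ q ∈ V ×ˢ V, (H.filter fun c => p c q).card ≤ if q ∈ S then k else 0 := by
    intro q hq
    split_ifs with hqS
    · have h2 : (H.filter fun c => p c q).card ≤ (Finset.univ.image s).card := by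
        refine Finset.card_le_card_of_injOn (fun c => c.1) ?_ ?_
        · intro c hc
          have hc' : c ∈ H.filter fun c => p c q := by simpa using hc
          obtain ⟨i, hi⟩ := hs c (hH (Finset.mem_filter.1 hc').1)
          simp only [Finset.coe_image, Finset.coe_univ, Set.image_univ, Set.mem_range]
          exact ⟨i, hi.symm⟩
        · intro c hc c' hc' hcc'
          have hc1 : c ∈ H.filter fun c => p c q := by simpa using hc
          have hc1' : c' ∈ H.filter fun c => p c q := by simpa using hc'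
          obtain ⟨hne, -, -, x, -, hx1, hx2⟩ := (Finset.mem_filter.1 hc1).2
          obtain ⟨-, -, -, x', -, hx1', hx2'⟩ := (Finset.mem_filter.1 hc1').2
          have hsl := slope_ne hne (hx1.trans hx2.symm)
          have e1 := eq_crs hsl (hx1.trans hx2.symm)
          have e2 := eq_crs hsl (hx1'.trans hx2'.symm)
          have e3 : x = x' := e1.trans e2.symm
          subst e3
          by_contra hcon
          exact slope_ne hcon (hx1.symm.trans hx1') hcc'
      refine h2.trans ?_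
      have := Finset.card_image_le (s := (Finset.univ : Finset (Fin k))) (f := s)
      simpa using this
    · rw [Nat.le_zero, Finset.card_eq_zero, Finset.filter_eq_empty_iff]
      rintro c hc ⟨hne, -, -, x, ⟨P, hP, hPx⟩, hx1, hx2⟩
      apply hqS
      change q ∈ (V ×ˢ V).filter _
      rw [Finset.mem_filter]
      exact ⟨hq, hne, c, hc, P, hP, I_ML.onl_of hPx rfl, I_ML.onl_of hPx hx1,
        I_ML.onl_of hPx hx2⟩
  have hK : ∑ c ∈ H, ((V ×ˢ V).filter fun q => p c q).card ≤ k * S.card := by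
    have h2 : ∑ c ∈ H, ((V ×ˢ V).filter fun q => p c q).card
        = ∑ q ∈ V ×ˢ V, (H.filter fun c => p c q).card := by
      simp only [Finset.card_filter]
      rw [Finset.sum_comm]
    rw [h2]
    calc ∑ q ∈ V ×ˢ V, (H.filter fun c => p c q).card
        ≤ ∑ q ∈ V ×ˢ V, (if q ∈ S then k else 0) := Finset.sum_le_sum hp
      _ = k * S.card := by
        rw [← Finset.sum_filter, Finset.sum_const, smul_eq_mul, mul_comm]
        congr 2
        ext q
        rw [Finset.mem_filter]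
        exact ⟨fun h => h.2, fun h => ⟨(Finset.mem_filter.1 h).1, h⟩⟩
  have h3 : H.card * v₀ ≤ ∑ c ∈ H, ((E c).card + 1 +
      2 * ((F \ V).filter fun l => mc g (Q c) c l).card +
      3 * ((V ×ˢ V).filter fun q => p c q).card) := by
    rw [← smul_eq_mul, ← Finset.sum_const]
    exact Finset.sum_le_sum h1
  rw [Finset.sum_add_distrib, Finset.sum_add_distrib, Finset.sum_add_distrib,
    ← Finset.mul_sum, ← Finset.mul_sum, Finset.sum_const, smul_eq_mul, mul_one] at h3
  have h4 : 3 * k * S.card = 3 * (k * S.card) := by ring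
  change H.card * v₀ ≤ (dde F).card + H.card +
    2 * ∑ c ∈ H, ((F \ V).filter fun l => mc g (Q c) c l).card + 3 * k * S.card
  rw [h4]
  omega

end Pool.Agent.Work.MP_b25393_ag.UU
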