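import Pool.Agent.Work.MP_b25393_ag.UU.StmtsA

/-!
# MP_b25393_ag, block UU, item MLS: sequence form of ML
-/

set_option autoImplicit false

namespace Pool.Agent.Work.MP_b25393_ag.UU

open scoped Classical
open Pool.Agent.Work.MP_b25393_ag.U

namespace I_MLS

theorem sum_split (F V G H : Finset (ℝ × ℝ)) (m : ℝ × ℝ → ℝ × ℝ → Prop) :
    ∑ c ∈ H, ((F \ V).filter fun l => m c l).card ≤
      ∑ c ∈ H, ((F \ (V ∪ G)).filter fun l => m c l).card +
        ((H ×ˢ G).filter fun q => m q.1 q.2).card := by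
  have h1 : ((H ×ˢ G).filter fun q => m q.1 q.2).card =
      ∑ c ∈ H, (G.filter fun l => m c l).card := by
    rw [Finset.card_filter, Finset.sum_product]
    exact Finset.sum_congr rfl fun c _ => (Finset.card_filter _ _).symm
  rw [h1, ← Finset.sum_add_distrib]
  refine Finset.sum_le_sum fun c _ => ?_
  refine (Finset.card_le_card ?_).trans (Finset.card_union_le _ _)
  intro l hl
  rw [Finset.mem_filter, Finset.mem_sdiff] at hl
  rw [Finset.mem_union, Finset.mem_filter, Finset.mem_filter, Finset.mem_sdiff, Finset.mem_union]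
  by_cases hG : l ∈ G
  · exact Or.inr ⟨hG, hl.2⟩
  · exact Or.inl ⟨⟨hl.1.1, fun h => h.elim hl.1.2 hG⟩, hl.2⟩

end I_MLS

open I_MLS in
theorem MLS_pf (hML : S_ML) : S_MLS := by
  intro k U F s g H V G Q a b hS ha hab hV hH hQ h1 h2 h3 h4 e he
  have hδ : 0 < a - 2 * b := by linarith
  have hk : (0 : ℝ) < 4 + 3 * (k : ℝ) := by positivity
  set e1 : ℝ := e * (a - 2 * b) / (4 + 3 * (k : ℝ)) with he1
  have he1p : 0 < e1 := div_pos (mul_pos he hδ) hk
  have he1' : (4 + 3 * (k : ℝ)) * e1 = e * (a - 2 * b) := by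
    rw [he1]
    field_simp
  obtain ⟨M, hM⟩ := exists_nat_ge (1 / e1)
  filter_upwards [h1, h2, h3 e1 he1p, h4 e1 he1p, hS.dd e1 he1p, hS.inf (M + 1)] with n n1 n2 n3 n4 n5 n6
  set D : ℝ := ((F n).card : ℝ) with hD
  have hDM : (M : ℝ) + 1 ≤ D := by rw [hD]; exact_mod_cast n6
  have hM0 : (0 : ℝ) ≤ (M : ℝ) := Nat.cast_nonneg M
  have hD1 : 1 ≤ D := by linarith
  have hDe : 1 ≤ e1 * D := by
    have : 1 / e1 ≤ D := by linarith
    rw [div_le_iff₀ he1p] at this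
    linarith
  have hml := hML k (s n) (F n) (V n) (H n) (g n) (Q n) ⌈a * D⌉₊ (hS.sl n) (hV n) (hH n)
    (hQ n) (fun c hc => Nat.ceil_le.2 (n1 c hc))
  have hsp := sum_split (F n) (V n) (G n) (H n) (fun c l => mc (g n) (Q n c) c l)
  have hsum : ((∑ c ∈ H n, ((F n \ (V n ∪ G n)).filter
      fun l => mc (g n) (Q n c) c l).card : ℕ) : ℝ) ≤ (H n).card * (b * D) := by
    rw [Nat.cast_sum, ← nsmul_eq_mul, ← Finset.sum_const]
    exact Finset.sum_le_sum fun c hc => n2 c hc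
  set h : ℝ := ((H n).card : ℝ) with hh
  have hhD : h ≤ D := by
    rw [hh, hD]
    exact_mod_cast Finset.card_le_card (hH n)
  have hh0 : 0 ≤ h := Nat.cast_nonneg _
  have hml' : h * (⌈a * D⌉₊ : ℝ) ≤ ((dde (F n)).card : ℝ) + h +
      2 * ((∑ c ∈ H n, ((F n \ V n).filter fun l => mc (g n) (Q n c) c l).card : ℕ) : ℝ) +
      3 * (k : ℝ) * (((V n ×ˢ V n).filter fun q => q.1 ≠ q.2 ∧ ∃ c ∈ H n, ∃ P ∈ Q n c,
        onl (g n) c P ∧ onl (g n) q.1 P ∧ onl (g n) q.2 P).card : ℝ) := by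
    rw [hh]
    exact_mod_cast hml
  have hsp' : ((∑ c ∈ H n, ((F n \ V n).filter fun l => mc (g n) (Q n c) c l).card : ℕ) : ℝ) ≤
      ((∑ c ∈ H n, ((F n \ (V n ∪ G n)).filter fun l => mc (g n) (Q n c) c l).card : ℕ) : ℝ) +
      (((H n ×ˢ G n).filter fun q => mc (g n) (Q n q.1) q.1 q.2).card : ℝ) := by
    exact_mod_cast hsp
  have hceil : a * D ≤ (⌈a * D⌉₊ : ℝ) := Nat.le_ceil _
  have hlow : h * (a * D) ≤ h * (⌈a * D⌉₊ : ℝ) := mul_le_mul_of_nonneg_left hceil hh0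
  have hk4 : 3 * (k : ℝ) * (((V n ×ˢ V n).filter fun q => q.1 ≠ q.2 ∧ ∃ c ∈ H n, ∃ P ∈ Q n c,
        onl (g n) c P ∧ onl (g n) q.1 P ∧ onl (g n) q.2 P).card : ℝ) ≤
      3 * (k : ℝ) * (e1 * D ^ 2) := mul_le_mul_of_nonneg_left n4 (by positivity)
  have hhe : h ≤ e1 * D ^ 2 := by
    have : D ≤ e1 * D ^ 2 := by nlinarith
    linarith
  have hfin : (a - 2 * b) * h * D ≤ (4 + 3 * (k : ℝ)) * e1 * D ^ 2 := by
    have e2 : (4 + 3 * (k : ℝ)) * e1 * D ^ 2 = e1 * D ^ 2 + e1 * D ^ 2 + 2 * (e1 * D ^ 2) +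
      3 * (k : ℝ) * (e1 * D ^ 2) := by ring
    have e3 : (a - 2 * b) * h * D = h * (a * D) - 2 * (h * (b * D)) := by ring
    rw [e2, e3]
    linarith
  rw [he1'] at hfin
  have hDpos : 0 < D := by linarith
  have hfin2 : ((a - 2 * b) * D) * h ≤ ((a - 2 * b) * D) * (e * D) := by
    calc ((a - 2 * b) * D) * h = (a - 2 * b) * h * D := by ring
      _ ≤ e * (a - 2 * b) * D ^ 2 := hfin
      _ = _ := by ring
  exact le_of_mul_le_mul_left hfin2 (mul_pos hδ hDpos)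

end Pool.Agent.Work.MP_b25393_ag.UU
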