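import Pool.Agent.Work.MP_b25393_ag.UU.StmtsB

/-!
# MP_b25393_ag, block UU, item MRG: merging the blocks of a cluster
-/

set_option autoImplicit false

namespace Pool.Agent.Work.MP_b25393_ag.UU

open scoped Classical
open Pool.Agent.Work.MP_b25393_ag.U

namespace I_MRG

theorem crp_le {g : Fr} {η : ℝ} (hη : 0 < η) (G : Finset (ℝ × ℝ)) :
    crp (cmp g (hfr 0 0 η η 0 hη.ne' hη.ne')) 1 1 G ≤ crp g η η G := by
  unfold crp
  refine Finset.card_le_card ?_
  intro q hq
  rw [Finset.mem_filter] at hq ⊢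
  refine ⟨hq.1, hq.2.1, ?_⟩
  obtain ⟨P, h1, h2, h3, h4⟩ := crb_hfr hq.2.2
  refine ⟨P, ?_, ?_, h3, h4⟩
  · rw [sub_zero, abs_of_pos hη, mul_one] at h1
    exact h1
  · rw [sub_zero, abs_of_pos hη, abs_zero] at h2
    linarith

theorem crp_mono {g : Fr} {L M : ℝ} (h : L ≤ M) (G : Finset (ℝ × ℝ)) :
    crp g L L G ≤ crp g M M G := by
  unfold crp
  refine Finset.card_le_card ?_
  intro q hq
  rw [Finset.mem_filter] at hq ⊢
  refine ⟨hq.1, hq.2.1, ?_⟩
  obtain ⟨P, h1, h2, h3, h4⟩ := hq.2.2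
  exact ⟨P, h1.trans h, h2.trans h, h3, h4⟩

theorem hit_le {g : Fr} {η : ℝ} (hη : 0 < η) (hη1 : η ≤ 1) {l : ℝ × ℝ}
    (h : hit (cmp g (hfr 0 0 η η 0 hη.ne' hη.ne')) 1 l) : hit g 1 l := by
  obtain ⟨P, h1, h2, h3⟩ := hit_hfr h
  refine ⟨P, ?_, ?_, h3⟩
  · rw [sub_zero, abs_of_pos hη, mul_one] at h1
    exact h1.trans hη1
  · rw [sub_zero, abs_of_pos hη, abs_zero, mul_one, zero_add] at h2
    exact h2.trans hη1

theorem neg2_mono {U : Ultrafilter ℕ} {F : ℕ → Finset (ℝ × ℝ)} {a b : ℕ → ℕ}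
    (h : Neg2 U F b) (hab : ∀ n, a n ≤ b n) : Neg2 U F a :=
  h.mono (Filter.Eventually.of_forall hab)

theorem spt_scale {U : Ultrafilter ℕ} {F G : ℕ → Finset (ℝ × ℝ)} {p p' : ℕ → ℝ × ℝ → ℝ} {η : ℝ}
    (hη : 0 < η) (h : Spt U F G p 0)
    (hp : ∀ᶠ n in (U : Filter ℕ), ∀ l ∈ G n, p' n l = p n l / η) : Spt U F G p' 0 := by
  intro e he
  refine (h (η * e) (mul_pos hη he)).mono ?_
  filter_upwards [hp] with n hn
  unfold cn
  refine Finset.card_le_card ?_
  intro l hl
  rw [Finset.mem_filter] at hl ⊢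
  obtain ⟨h1, h2, h3⟩ := hl
  refine ⟨h1, ?_, ?_⟩
  · rw [hn l h1, le_div_iff₀ hη]
    linarith
  · rw [hn l h1, div_le_iff₀ hη]
    linarith

end I_MRG

open I_MRG in
theorem MRG_pf (hFSG : S_FSG) : S_MRG := by
  intro k U F s g A B Γ d σ lam η _ hT hC hη hη1 hN
  have huni : uni (insert (uni Γ) (B \ Γ)) = uni B := by
    ext i
    rw [mem_uni, mem_uni]
    constructor
    · rintro ⟨K, hK, hi⟩
      rcases Finset.mem_insert.1 hK with h | h
      · subst h
        obtain ⟨K', hK', hi'⟩ := mem_uni.1 hi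
        exact ⟨K', hC.sub hK', hi'⟩
      · exact ⟨K, (Finset.mem_sdiff.1 h).1, hi⟩
    · rintro ⟨K, hK, hi⟩
      by_cases h : K ∈ Γ
      · exact ⟨uni Γ, Finset.mem_insert_self _ _, mem_uni.2 ⟨K, h, hi⟩⟩
      · exact ⟨K, Finset.mem_insert_of_mem (Finset.mem_sdiff.2 ⟨hK, h⟩), hi⟩
  have hhor : ∀ i ∈ uni B, Hor U s g 0 i := by
    intro i hi
    obtain ⟨K, hK, h⟩ := mem_uni.1 hi
    exact hT.hor K hK i h
  refine ⟨fun n => cmp (g n) (hfr 0 0 η η 0 hη.ne' hη.ne'), insert (uni Γ) (B \ Γ), ?_, ?_⟩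
  · have h1 := Finset.card_insert_le (uni Γ) (B \ Γ)
    have h2 := Finset.card_sdiff_of_subset hC.sub
    have h3 := Finset.card_le_card hC.sub
    have h4 := hC.two
    omega
  have hdis : ∀ K ∈ B \ Γ, Disjoint (uni Γ) K := by
    intro K hK
    obtain ⟨hK1, hK2⟩ := Finset.mem_sdiff.1 hK
    rw [Finset.disjoint_left]
    intro i hi hiK
    obtain ⟨K', hK', hi'⟩ := mem_uni.1 hi
    have hne : K' ≠ K := fun h => hK2 (h ▸ hK')
    exact Finset.disjoint_left.1 (hT.dB K' (hC.sub hK') K hK1 hne) hi' hiK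
  refine
    { dA := ?_
      dB := ?_
      ver := ?_
      hor := ?_
      con := ?_
      crA := ?_
      crB := ?_
      sep := ?_
      cA := ?_
      cB := ?_ }
  · intro K hK
    rcases Finset.mem_insert.1 hK with h | h
    · subst h
      rw [Finset.disjoint_left]
      intro i hi hi'
      obtain ⟨K', hK', hi''⟩ := mem_uni.1 hi'
      exact Finset.disjoint_left.1 (hT.dA K' (hC.sub hK')) hi hi''
    · exact hT.dA K (Finset.mem_sdiff.1 h).1
  · intro K hK K' hK' hne
    rcases Finset.mem_insert.1 hK with h | h <;> rcases Finset.mem_insert.1 hK' with h' | h'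
    · exact absurd (h.trans h'.symm) hne
    · rw [h]
      exact hdis K' h'
    · rw [h']
      exact (hdis K h).symm
    · exact hT.dB K (Finset.mem_sdiff.1 h).1 K' (Finset.mem_sdiff.1 h').1 hne
  · intro i hi
    refine ver_hfr (x := fun _ => 0) (y := fun _ => 0) (a := fun _ => η) (b := fun _ => η)
      (c := fun _ => 0) (fun _ => hη.ne') (fun _ => hη.ne') (hT.ver i hi) 1 ?_
    filter_upwards with n
    constructor
    · rw [one_mul]
    · rw [abs_zero, one_mul]
      exact abs_nonneg _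
  · intro K hK i hi
    have hi' : i ∈ uni B := by
      rw [← huni]
      exact mem_uni.2 ⟨K, hK, hi⟩
    refine hor_hfr (x := fun _ => 0) (y := fun _ => 0) (a := fun _ => η) (b := fun _ => η)
      (c := fun _ => 0) (lam := 0) (lam' := 0) (fun _ => hη.ne') (fun _ => hη.ne')
      (hhor i hi') ?_ 1 ?_
    · intro e he
      filter_upwards with n
      simp only [mul_zero, zero_mul, sub_zero, abs_zero]
      positivity
    · filter_upwards with n
      rw [one_mul]
  · refine hT.con.mono' fun n => Finset.card_le_card ?_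
    intro l hl
    rw [Finset.mem_filter] at hl ⊢
    rw [huni] at hl
    exact ⟨hl.1, hl.2.1, hit_le hη hη1 hl.2.2⟩
  · exact neg2_mono hT.crA fun n => (crp_le hη _).trans (crp_mono hη1 _)
  · intro K hK
    rcases Finset.mem_insert.1 hK with h | h
    · subst h
      exact neg2_mono hN fun n => crp_le hη _
    · exact neg2_mono (hT.crB K (Finset.mem_sdiff.1 h).1)
        fun n => (crp_le hη _).trans (crp_mono hη1 _)
  · intro K hK i hi i' hi' j hj hjK a ha
    rw [huni] at hj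
    rcases Finset.mem_insert.1 hK with h | h
    · subst h
      obtain ⟨K₁, hK₁, hi₁⟩ := mem_uni.1 hi
      obtain ⟨K₂, hK₂, hi₂⟩ := mem_uni.1 hi'
      obtain ⟨K₃, hK₃, hj₃⟩ := mem_uni.1 hj
      have hK₃Γ : K₃ ∉ Γ := fun h => hjK (mem_uni.2 ⟨K₃, h, hj₃⟩)
      refine hFSG k U s g i i' j a (hT.ver a ha) (hT.hor K₁ (hC.sub hK₁) i hi₁)
        (hT.hor K₂ (hC.sub hK₂) i' hi₂) (hT.hor K₃ hK₃ j hj₃) ?_
      intro e he
      filter_upwards [hC.hor K₁ hK₁ i hi₁ 1 one_pos, hC.hor K₂ hK₂ i' hi₂ 1 one_pos,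
        hC.far K₃ hK₃ hK₃Γ j hj₃ (|lam K₁| + 1 + (|lam K₁| + |lam K₂| + 2) / e)]
        with n h1 h2 h3
      have hd := hC.dpos n
      set x := sg (g n) (s n i)
      set y := sg (g n) (s n i')
      set z := sg (g n) (s n j)
      have e1 : |x - σ n| ≤ (|lam K₁| + 1) * d n := by
        calc |x - σ n| = |(x - σ n - lam K₁ * d n) + lam K₁ * d n| := by congr 1; ring
          _ ≤ |x - σ n - lam K₁ * d n| + |lam K₁ * d n| := abs_add_le _ _
          _ ≤ 1 * d n + |lam K₁| * d n := by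
              rw [abs_mul, abs_of_pos hd]
              linarith
          _ = _ := by ring
      have e2 : |y - σ n| ≤ (|lam K₂| + 1) * d n := by
        calc |y - σ n| = |(y - σ n - lam K₂ * d n) + lam K₂ * d n| := by congr 1; ring
          _ ≤ |y - σ n - lam K₂ * d n| + |lam K₂ * d n| := abs_add_le _ _
          _ ≤ 1 * d n + |lam K₂| * d n := by
              rw [abs_mul, abs_of_pos hd]
              linarith
          _ = _ := by ring
      have e3 : |x - y| ≤ (|lam K₁| + |lam K₂| + 2) * d n := by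
        calc |x - y| = |(x - σ n) - (y - σ n)| := by congr 1; ring
          _ ≤ |x - σ n| + |y - σ n| := abs_sub _ _
          _ ≤ _ := by linarith
      have e4 : |z - σ n| ≤ |x - z| + |x - σ n| := by
        calc |z - σ n| = |(x - σ n) - (x - z)| := by congr 1; ring
          _ ≤ |x - σ n| + |x - z| := abs_sub _ _
          _ = _ := by ring
      have e5 : (|lam K₁| + |lam K₂| + 2) / e * d n ≤ |x - z| := by
        have : (|lam K₁| + 1 + (|lam K₁| + |lam K₂| + 2) / e) * d n =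
          (|lam K₁| + 1) * d n + (|lam K₁| + |lam K₂| + 2) / e * d n := by ring
        linarith
      calc |x - y| ≤ (|lam K₁| + |lam K₂| + 2) * d n := e3
        _ = e * ((|lam K₁| + |lam K₂| + 2) / e * d n) := by field_simp
        _ ≤ e * |x - z| := mul_le_mul_of_nonneg_left e5 he.le
    · exact hT.sep K (Finset.mem_sdiff.1 h).1 i hi i' hi' j hj hjK a ha
  · refine spt_scale hη hT.cA ?_
    filter_upwards [ver_lines F hT.ver 1 one_pos] with n hn l hl
    obtain ⟨h1, _⟩ := hn l hl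
    rw [vv_hfr (g n) 0 0 η η 0 l hη.ne' hη.ne' h1 (by rw [mul_zero, sub_zero]; exact hη.ne')]
    simp
  · rw [huni]
    refine spt_scale hη hT.cB ?_
    filter_upwards [hor_lines' F hhor 1 one_pos] with n hn l hl
    obtain ⟨h1, _⟩ := hn l hl
    rw [tt_hfr (g n) 0 0 η η 0 l hη.ne' hη.ne' h1]
    rw [mul_zero, sub_zero, add_zero]

end Pool.Agent.Work.MP_b25393_ag.UU
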