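import Pool.Agent.Work.MP_b25393_ag.UU.StmtsC

set_option autoImplicit false

namespace Pool.Agent.Work.MP_b25393_ag.UU

open scoped Classical
open Pool.Agent.Work.MP_b25393_ag.U

namespace I_PGM

/-- The support is bounded when the tails are light. -/
theorem bdd (U : Ultrafilter ℕ) (F H : ℕ → Finset (ℝ × ℝ)) (p : ℕ → ℝ × ℝ → ℝ) (g : ℕ → Fr)
    (L : ℕ → ℝ) (C : ℝ) (hF : ∀ᶠ n in (U : Filter ℕ), 1 ≤ (F n).card)
    (hL : ∀ M : ℝ, ∀ᶠ n in (U : Filter ℕ), M ≤ L n)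
    (hhit : ∀ᶠ n in (U : Filter ℕ), ∀ l ∈ H n, |p n l| ≤ L n → hit (g n) (L n) l)
    (hneg : Neg U F fun n => ((H n).filter fun l => hit (g n) (L n) l ∧ C < |p n l|).card)
    (t : ℝ) (ht : Spt U F H p t) : |t| ≤ C := by
  by_contra hcon
  push Not at hcon
  have h1 := ht ((|t| - C) / 2) (by linarith)
  apply not_neg_of_pos hF (Pos.mono h1 ?_) hneg
  filter_upwards [hhit, hL (|t| + (|t| - C) / 2)] with n hn hLn
  unfold cn
  apply Finset.card_le_card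
  intro l hl
  rw [Finset.mem_filter] at hl ⊢
  obtain ⟨hlH, h2, h3⟩ := hl
  have h4 : |p n l - t| ≤ (|t| - C) / 2 := by
    rw [abs_le]
    constructor
    · linarith
    · linarith
  have h5 : |p n l| ≤ |t| + (|t| - C) / 2 := by
    have h6 := abs_add_le t (p n l - t)
    rw [add_sub_cancel] at h6
    linarith
  have h7 : |t| - (|t| - C) / 2 ≤ |p n l| := by
    have h6 := abs_sub (p n l) (p n l - t)
    rw [sub_sub_cancel] at h6
    linarith
  exact ⟨hlH, hn l hlH (by linarith), by linarith⟩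

/-- Mass outside the tails gives support points. -/
theorem mass (hSPT : S_SPT) (U : Ultrafilter ℕ) (F H : ℕ → Finset (ℝ × ℝ))
    (p : ℕ → ℝ × ℝ → ℝ) (g : ℕ → Fr)
    (L : ℕ → ℝ) (C : ℝ) (hF : ∀ᶠ n in (U : Filter ℕ), 1 ≤ (F n).card)
    (hneg : Neg U F fun n => ((H n).filter fun l => hit (g n) (L n) l ∧ C < |p n l|).card)
    (R : ℝ → Prop) (Q : Set ℝ) (hQ : IsCompact Q) (hRQ : ∀ t, R t → |t| ≤ C → t ∈ Q)
    (hpos : Pos U F fun n => ((H n).filter fun l => hit (g n) (L n) l ∧ R (p n l)).card) :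
    ∃ t ∈ Q, Spt U F H p t := by
  apply hSPT U F H p Q hF hQ
  refine Pos.of_le_add hpos hneg (Filter.Eventually.of_forall fun n => ?_)
  refine le_trans (Finset.card_le_card ?_) (Finset.card_union_le _ _)
  intro l hl
  rw [Finset.mem_filter] at hl
  obtain ⟨hlH, h1, h2⟩ := hl
  rw [Finset.mem_union, Finset.mem_filter, Finset.mem_filter]
  by_cases h3 : |p n l| ≤ C
  · exact Or.inl ⟨hlH, hRQ _ h2 h3⟩
  · exact Or.inr ⟨hlH, h1, not_le.mp h3⟩

end I_PGM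

/-- PGM. Macro point. -/
theorem PGM_pf (hSPT : S_SPT) (hSCL : S_SCL) (hPT1 : S_PT1) (hPT2 : S_PT2) (hGE2 : S_GE2) :
    S_PGM := by
  intro k U F s g L G V lam K₁ K₂ θ hS hN
  have hF := hS.one
  obtain ⟨C₁, hC₁, hT1⟩ := hPT1 k U F s g L G V lam K₁ K₂ θ hS hN
  obtain ⟨C₂, hC₂, hT2⟩ := hPT2 k U F s g L G V lam K₁ K₂ θ hS hN
  -- the lines with position at most `L` hit the box
  have hL0 := hN.lin 0
  have hhG : ∀ K ∈ G, ∀ᶠ n in (U : Filter ℕ), ∀ l ∈ gr F s K n,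
      |tt (g n) l| ≤ L n → hit (g n) (L n) l := by
    intro K hK
    filter_upwards [hor_lines F hN.hor 1 one_pos, hL0] with n hn hLn l hl hl2
    refine ⟨(0, tt (g n) l), ?_, hl2, ?_⟩
    · simpa using hLn
    · rw [onl_hor (hn K hK l hl).1]
      simp
  have hverV : ∀ i ∈ uni V, Ver U s g i := by
    intro i hi
    obtain ⟨K, hK, hiK⟩ := mem_uni.mp hi
    exact hN.ver K hK i hiK
  have hhV : ∀ᶠ n in (U : Filter ℕ), ∀ l ∈ gr F s (uni V) n,
      |vv (g n) l| ≤ L n → hit (g n) (L n) l := by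
    filter_upwards [ver_lines F hverV 1 one_pos, hL0] with n hn hLn l hl hl2
    refine ⟨(vv (g n) l, 0), hl2, ?_, ?_⟩
    · simpa using hLn
    · rw [onl_ver (hn l hl).1]
      simp
  -- the supports
  let S : Finset (Fin k) → Set ℝ := fun K => {t | Spt U F (gr F s K) (fun n => tt (g n)) t}
  let E : Set ℝ := {t | Spt U F (gr F s (uni V)) (fun n => vv (g n)) t}
  have hScpt : ∀ K ∈ G, IsCompact (S K) := by
    intro K hK
    refine IsCompact.of_isClosed_subset (isCompact_Icc (a := -C₁) (b := C₁))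
      (hSCL U F (gr F s K) fun n => tt (g n)) ?_
    intro t ht
    exact abs_le.mp (I_PGM.bdd U F (gr F s K) (fun n => tt (g n)) g L C₁ hF hN.lin (hhG K hK)
      (hT1 K hK) t ht)
  have hEcpt : IsCompact E := by
    refine IsCompact.of_isClosed_subset (isCompact_Icc (a := -C₂) (b := C₂))
      (hSCL U F (gr F s (uni V)) fun n => vv (g n)) ?_
    intro t ht
    exact abs_le.mp (I_PGM.bdd U F (gr F s (uni V)) (fun n => vv (g n)) g L C₂ hF hN.lin hhV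
      hT2 t ht)
  have hann : ∀ C : ℝ, IsCompact {t : ℝ | 1 ≤ |t| ∧ |t| ≤ C} := by
    intro C
    refine IsCompact.of_isClosed_subset (isCompact_Icc (a := -C) (b := C)) ?_ ?_
    · exact (isClosed_le continuous_const continuous_abs).inter
        (isClosed_le continuous_abs continuous_const)
    · intro t ht
      exact abs_le.mp ht.2
  -- support points of `K₁`, `K₂` on both sides of 0
  have hplus : ∀ K ∈ G, (Pos U F fun n => ((gr F s K n).filter fun l =>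
      hit (g n) (L n) l ∧ 0 ≤ tt (g n) l).card) → ∃ t, 0 ≤ t ∧ t ∈ S K := by
    intro K hK hp
    obtain ⟨t, ht, hts⟩ := I_PGM.mass hSPT U F (gr F s K) (fun n => tt (g n)) g L C₁ hF
      (hT1 K hK) (fun t => 0 ≤ t) (Set.Icc 0 C₁) isCompact_Icc
      (fun t h1 h2 => ⟨h1, (abs_le.mp h2).2⟩) hp
    exact ⟨t, ht.1, hts⟩
  have hminus : ∀ K ∈ G, (Pos U F fun n => ((gr F s K n).filter fun l =>
      hit (g n) (L n) l ∧ tt (g n) l ≤ 0).card) → ∃ t, t ≤ 0 ∧ t ∈ S K := by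
    intro K hK hp
    obtain ⟨t, ht, hts⟩ := I_PGM.mass hSPT U F (gr F s K) (fun n => tt (g n)) g L C₁ hF
      (hT1 K hK) (fun t => t ≤ 0) (Set.Icc (-C₁) 0) isCompact_Icc
      (fun t h1 h2 => ⟨(abs_le.mp h2).1, h1⟩) hp
    exact ⟨t, ht.2, hts⟩
  obtain ⟨a₁, ha₁, ha₁S⟩ := hplus K₁ hN.k1 hN.p1
  obtain ⟨b₁, hb₁, hb₁S⟩ := hminus K₁ hN.k1 hN.m1
  obtain ⟨a₂, ha₂, ha₂S⟩ := hplus K₂ hN.k2 hN.p2
  obtain ⟨b₂, hb₂, hb₂S⟩ := hminus K₂ hN.k2 hN.m2
  have hnc : ¬ ∃ x y : ℝ, (∀ K ∈ G, ∀ t ∈ S K, t = y - lam K * x) ∧ ∀ v ∈ E, v = x := by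
    rintro ⟨x, y, h1, h2⟩
    have e1 : y - lam K₁ * x = 0 := by
      have c1 := h1 K₁ hN.k1 a₁ ha₁S
      have c2 := h1 K₁ hN.k1 b₁ hb₁S
      linarith
    have e2 : y - lam K₂ * x = 0 := by
      have c1 := h1 K₂ hN.k2 a₂ ha₂S
      have c2 := h1 K₂ hN.k2 b₂ hb₂S
      linarith
    have hx : x = 0 := by
      have e3 : (lam K₁ - lam K₂) * x = 0 := by linarith
      rcases mul_eq_zero.mp e3 with e4 | e4
      · exact absurd (sub_eq_zero.mp e4) (hN.lne K₁ hN.k1 K₂ hN.k2 hN.kn)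
      · exact e4
    have hy : y = 0 := by
      rw [hx, mul_zero, sub_zero] at e1
      exact e1
    rcases hN.big with ⟨K, hK, hb⟩ | hb
    · obtain ⟨t, ht, hts⟩ := I_PGM.mass hSPT U F (gr F s K) (fun n => tt (g n)) g L C₁ hF
        (hT1 K hK) (fun t => 1 ≤ |t|) _ (hann C₁) (fun t h1 h2 => ⟨h1, h2⟩) ⟨θ, hN.th, hb⟩
      have h3 := h1 K hK t hts
      rw [hx, hy, mul_zero, sub_zero] at h3
      rw [h3] at ht
      have h4 := ht.1
      rw [abs_zero] at h4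
      linarith
    · obtain ⟨t, ht, hts⟩ := I_PGM.mass hSPT U F (gr F s (uni V)) (fun n => vv (g n)) g L C₂ hF
        hT2 (fun t => 1 ≤ |t|) _ (hann C₂) (fun t h1 h2 => ⟨h1, h2⟩) ⟨θ, hN.th, hb⟩
      have h3 := h2 t hts
      rw [hx] at h3
      rw [h3] at ht
      have h4 := ht.1
      rw [abs_zero] at h4
      linarith
  have hfin := hGE2 (Finset (Fin k)) G lam S E hScpt hEcpt hN.lne
    ⟨K₁, hN.k1, K₂, hN.k2, hN.kn, ⟨a₁, ha₁S⟩, ⟨a₂, ha₂S⟩⟩ hnc
  exact hfin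

end Pool.Agent.Work.MP_b25393_ag.UU
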