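import Pool.Agent.Work.MP_b25393_ag.UU.StmtsC

/-!
# Item PLF: no planar situation, if there is no TB with few blocks
-/

set_option autoImplicit false

namespace Pool.Agent.Work.MP_b25393_ag.UU

open scoped Classical
open Pool.Agent.Work.MP_b25393_ag.U

theorem PLF_pf (hPM2 : S_PM2) (hPGM : S_PGM) (hPLK : S_PLK) (hTB1 : S_TB1) (hPLV : S_PLV)
    (hTBW : S_TBW) : S_PLF := by
  intro k U F s g L G V lam hS hPL hno
  obtain ⟨g₁, L₁, K₁, K₂, θ, hPN⟩ := hPM2 k U F s g L G V lam hS hPL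
  rcases hPGM k U F s g₁ L₁ G V lam K₁ K₂ θ hS hPN with
    ⟨x, y, K, hK, K', hK', hne, h1, h2, h3, h4⟩ | ⟨x, y, K, hK, h1, h2, h3⟩
  · obtain ⟨g', hTB⟩ := hPLK k U F s g₁ L₁ G V lam x y hS hPN.toPL K hK K' hK' hne h1 h2 h3 h4
    exact hTB1 k U F s g' K' K hS hTB
  · obtain ⟨g', hTV⟩ := hPLV k U F s g₁ L₁ G V lam x y hS hPN.toPL K hK h1 h2 h3
    exact hno _ K V le_rfl (hTBW k U F s g' K V hTV)

end Pool.Agent.Work.MP_b25393_ag.UU
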