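import Pool.Agent.Work.MP_b25393_ag.UU.StmtsC

/-!
# Item PLK: a macro point on exactly two blocks
-/

set_option autoImplicit false

namespace Pool.Agent.Work.MP_b25393_ag.UU

open scoped Classical
open Pool.Agent.Work.MP_b25393_ag.U

namespace I_PLK

theorem uni_single {k : ℕ} (K : Finset (Fin k)) : uni {K} = K := by
  unfold uni
  simp

/-- the frame with axes of slopes `a` and `b`, centre `(x, y)` and scale `η` -/
noncomputable def fr (x y a b η : ℝ) (hη : η ≠ 0) (hab : a ≠ b) : Fr where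
  p0 := η
  q0 := η
  r0 := x
  p1 := η * a
  q1 := η * b
  r1 := y
  det := by
    intro h
    apply hab
    have h1 : η * η * (b - a) = 0 := by linarith
    have h2 : b - a = 0 := by
      rcases mul_eq_zero.mp h1 with h3 | h3
      · exact absurd h3 (mul_ne_zero hη hη)
      · exact h3
    linarith

section
variable (g : Fr) {x y a b η : ℝ} (hη : η ≠ 0) (hab : a ≠ b)

theorem al_fr (s : ℝ) : al (cmp g (fr x y a b η hη hab)) s = η * (al g s + a * be g s) := by
  rw [al_cmp]
  show al g s * η + be g s * (η * a) = η * (al g s + a * be g s)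
  ring

theorem be_fr (s : ℝ) : be (cmp g (fr x y a b η hη hab)) s = η * (al g s + b * be g s) := by
  rw [be_cmp]
  show al g s * η + be g s * (η * b) = η * (al g s + b * be g s)
  ring

theorem ga_fr (l : ℝ × ℝ) :
    ga (cmp g (fr x y a b η hη hab)) l = ga g l - al g l.1 * x - be g l.1 * y := by
  rw [ga_cmp]
  rfl

theorem ga_eq {l : ℝ × ℝ} (h : be g l.1 ≠ 0) :
    ga g l - al g l.1 * x - be g l.1 * y = be g l.1 * (tt g l + sg g l.1 * x - y) := by
  unfold tt sg
  field_simp
  ring

theorem al_eq (c : ℝ) {s : ℝ} (h : be g s ≠ 0) :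
    η * (al g s + c * be g s) = be g s * (η * (c - sg g s)) := by
  unfold sg
  field_simp
  ring

theorem vv_fr {l : ℝ × ℝ} (h : be g l.1 ≠ 0) :
    vv (cmp g (fr x y a b η hη hab)) l =
      (tt g l + sg g l.1 * x - y) / (η * (a - sg g l.1)) := by
  unfold vv
  rw [ga_fr, al_fr, ga_eq g h, al_eq g a h]
  exact mul_div_mul_left _ _ h

theorem tt_fr {l : ℝ × ℝ} (h : be g l.1 ≠ 0) :
    tt (cmp g (fr x y a b η hη hab)) l =
      (tt g l + sg g l.1 * x - y) / (η * (b - sg g l.1)) := by
  have e : tt (cmp g (fr x y a b η hη hab)) l =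
      ga (cmp g (fr x y a b η hη hab)) l / be (cmp g (fr x y a b η hη hab)) l.1 := rfl
  rw [e, ga_fr, be_fr, ga_eq g h, al_eq g b h]
  exact mul_div_mul_left _ _ h

theorem onl_fr (l P : ℝ × ℝ) (h : onl (cmp g (fr x y a b η hη hab)) l P) :
    onl g l (η * P.1 + η * P.2 + x, η * a * P.1 + η * b * P.2 + y) :=
  (onl_cmp g _ l P).mp h

end

/-- the key estimate for the directions -/
theorem key {A B d e E : ℝ} (h1 : |A| ≤ E * |B|) (h2 : E ≤ |d| / 2) (h3 : E ≤ e * |d| / 2)
    (he : 0 < e) : |A| ≤ e * |A + d * B| := by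
  have h4 : |d * B| ≤ |A + d * B| + |A| := by
    have h5 := abs_sub (A + d * B) A
    have h6 : A + d * B - A = d * B := by ring
    rw [h6] at h5
    exact h5
  rw [abs_mul] at h4
  have hB := abs_nonneg B
  have h7 : |A| ≤ |d| / 2 * |B| := h1.trans (mul_le_mul_of_nonneg_right h2 hB)
  have h8 : |d| / 2 * |B| ≤ |A + d * B| := by nlinarith
  calc |A| ≤ E * |B| := h1
    _ ≤ e * |d| / 2 * |B| := mul_le_mul_of_nonneg_right h3 hB
    _ = e * (|d| / 2 * |B|) := by ring
    _ ≤ e * |A + d * B| := mul_le_mul_of_nonneg_left h8 he.le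

/-- 0 is a support point of the new positions -/
theorem spt {k : ℕ} {U : Ultrafilter ℕ} {F : ℕ → Finset (ℝ × ℝ)} {s : ℕ → Fin k → ℝ}
    {g : ℕ → Fr} {K : Finset (Fin k)} {a b x y η : ℝ} (hη : 0 < η) (hab : a ≠ b)
    (hK : ∀ i ∈ K, Hor U s g a i)
    (hS : Spt U F (gr F s K) (fun n => tt (g n)) (y - a * x))
    (p : ℕ → ℝ × ℝ → ℝ)
    (hp : ∀ n (l : ℝ × ℝ), be (g n) l.1 ≠ 0 →
      p n l = (tt (g n) l + sg (g n) l.1 * x - y) / (η * (b - sg (g n) l.1))) :
    Spt U F (gr F s K) p 0 := by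
  intro θ hθ
  have hΔ : 0 < |b - a| := abs_pos.mpr (sub_ne_zero.mpr (Ne.symm hab))
  have hc : 0 < θ * η * |b - a| / 4 := by positivity
  have hx : 0 < |x| + 1 := by positivity
  have hE : 0 < min (|b - a| / 2) (θ * η * |b - a| / 4 / (|x| + 1)) :=
    lt_min (by positivity) (by positivity)
  refine (hS (θ * η * |b - a| / 4) hc).mono ?_
  filter_upwards [hor_lines' F hK _ hE] with n hn
  apply Finset.card_le_card
  intro l hl
  rw [Finset.mem_filter] at hl ⊢
  obtain ⟨hl1, hl2, hl3⟩ := hl
  obtain ⟨hb, hs⟩ := hn l hl1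
  refine ⟨hl1, ?_⟩
  have h1 := hs.trans (min_le_left _ _)
  have h2 := hs.trans (min_le_right _ _)
  have h3 : |tt (g n) l - (y - a * x)| ≤ θ * η * |b - a| / 4 := by
    rw [abs_le]
    constructor
    · linarith
    · linarith
  have h4 : |(sg (g n) l.1 - a) * x| ≤ θ * η * |b - a| / 4 := by
    rw [abs_mul]
    calc |sg (g n) l.1 - a| * |x| ≤ θ * η * |b - a| / 4 / (|x| + 1) * (|x| + 1) :=
          mul_le_mul h2 (by linarith) (abs_nonneg x) (by positivity)
      _ = θ * η * |b - a| / 4 := by field_simp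
  have h5 : |tt (g n) l + sg (g n) l.1 * x - y| ≤ θ * η * |b - a| / 2 := by
    have e : tt (g n) l + sg (g n) l.1 * x - y =
        (tt (g n) l - (y - a * x)) + (sg (g n) l.1 - a) * x := by ring
    rw [e]
    refine (abs_add_le _ _).trans ?_
    linarith
  have h6 : |b - a| / 2 ≤ |b - sg (g n) l.1| := by
    have h7 := abs_add_le (b - sg (g n) l.1) (sg (g n) l.1 - a)
    have e : b - sg (g n) l.1 + (sg (g n) l.1 - a) = b - a := by ring
    rw [e] at h7
    linarith
  have h8 : |p n l| ≤ θ := by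
    rw [hp n l hb, abs_div, abs_mul, abs_of_pos hη]
    have h9 : 0 < |b - sg (g n) l.1| := by linarith
    rw [div_le_iff₀ (mul_pos hη h9)]
    calc |tt (g n) l + sg (g n) l.1 * x - y| ≤ θ * η * |b - a| / 2 := h5
      _ = θ * (η * (|b - a| / 2)) := by ring
      _ ≤ θ * (η * |b - sg (g n) l.1|) :=
        mul_le_mul_of_nonneg_left (mul_le_mul_of_nonneg_left h6 hη.le) hθ.le
  rw [abs_le] at h8
  constructor
  · linarith [h8.1]
  · linarith [h8.2]

/-- a point which is no support point has a negligible neighbourhood -/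
theorem small {k : ℕ} {U : Ultrafilter ℕ} {F : ℕ → Finset (ℝ × ℝ)} {s : ℕ → Fin k → ℝ}
    {K : Finset (Fin k)} {p : ℕ → ℝ × ℝ → ℝ} {t : ℝ} (h : ¬ Spt U F (gr F s K) p t) :
    ∀ᶠ η in nhdsWithin (0 : ℝ) (Set.Ioi 0), Neg U F (cn (gr F s K) p (t - η) (t + η)) := by
  unfold Spt at h
  push Not at h
  obtain ⟨η₁, h1, h2⟩ := h
  have h3 : Neg U F (cn (gr F s K) p (t - η₁) (t + η₁)) := by
    by_contra h4
    exact h2 (pos_of_not_neg h4)
  filter_upwards [Ioo_mem_nhdsGT h1] with η hη
  refine h3.mono' fun n => ?_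
  apply Finset.card_le_card
  intro l hl
  rw [Finset.mem_filter] at hl ⊢
  refine ⟨hl.1, ?_, ?_⟩
  · linarith [hl.2.1, hη.2]
  · linarith [hl.2.2, hη.2]

end I_PLK

open I_PLK in
theorem PLK_pf : S_PLK := by
  intro k U F s g L G V lam x y hSy hPL K hK K' hK' hne hSK hSK' hno hnoV
  have hlam : lam K ≠ lam K' := hPL.lne K hK K' hK' hne
  -- the constant `Λ`
  obtain ⟨Λ, hΛ1, hΛ⟩ : ∃ Λ : ℝ, 1 ≤ Λ ∧ ∀ K'' ∈ G, |lam K''| ≤ Λ := by
    refine ⟨1 + ∑ K'' ∈ G, |lam K''|, ?_, ?_⟩
    · have : 0 ≤ ∑ K'' ∈ G, |lam K''| := Finset.sum_nonneg fun i _ => abs_nonneg _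
      linarith
    · intro K'' h
      have := Finset.single_le_sum (f := fun K'' => |lam K''|) (fun i _ => abs_nonneg _) h
      linarith
  -- the radius `η₀`
  obtain ⟨η₀, hη₀, hneg, hnegV⟩ : ∃ η₀ : ℝ, 0 < η₀ ∧
      (∀ K'' ∈ (G.erase K).erase K', Neg U F (cn (gr F s K'') (fun n => tt (g n))
        (y - lam K'' * x - η₀) (y - lam K'' * x + η₀))) ∧
      Neg U F (cn (gr F s (uni V)) (fun n => vv (g n)) (x - η₀) (x + η₀)) := by
    have h1 : ∀ᶠ η in nhdsWithin (0 : ℝ) (Set.Ioi 0), ∀ K'' ∈ (G.erase K).erase K',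
        Neg U F (cn (gr F s K'') (fun n => tt (g n))
        (y - lam K'' * x - η) (y - lam K'' * x + η)) := by
      rw [Filter.eventually_all_finset]
      intro K'' hK''
      rw [Finset.mem_erase, Finset.mem_erase] at hK''
      exact small (hno K'' hK''.2.2 hK''.2.1 hK''.1)
    have h2 := small hnoV
    have h3 : ∀ᶠ η in nhdsWithin (0 : ℝ) (Set.Ioi 0), 0 < η := self_mem_nhdsWithin
    obtain ⟨η₀, h4, h5, h6⟩ := (h3.and (h1.and h2)).exists
    exact ⟨η₀, h4, h5, h6⟩
  obtain ⟨η, hη, hη1, hη2⟩ : ∃ η : ℝ, 0 < η ∧ 4 * Λ * η ≤ η₀ / 2 ∧ 2 * η ≤ η₀ / 2 := by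
    refine ⟨η₀ / (8 * Λ), by positivity, ?_, ?_⟩
    · have : 4 * Λ * (η₀ / (8 * Λ)) = η₀ / 2 := by
        field_simp
        norm_num
      exact this.le
    · have h1 : η₀ / (8 * Λ) ≤ η₀ / 8 := by
        apply div_le_div_of_nonneg_left hη₀.le (by norm_num)
        linarith
      linarith
  have hη' : η ≠ 0 := hη.ne'
  obtain ⟨M, hM, hM1, hM2⟩ : ∃ M : ℝ, 1 ≤ M ∧ |x| + 2 * η ≤ M ∧ |y| + 2 * Λ * η ≤ M := by
    have h1 : 0 ≤ Λ * η := by positivity
    refine ⟨|x| + |y| + 2 * Λ * η + 2 * η + 1, ?_, ?_, ?_⟩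
    · have := abs_nonneg x
      have := abs_nonneg y
      linarith
    · have := abs_nonneg y
      linarith
    · have := abs_nonneg x
      linarith
  have hM0 : 0 < M := by linarith
  -- the points of the new box
  have hbox : ∀ P : ℝ × ℝ, |P.1| ≤ 1 → |P.2| ≤ 1 →
      |(η * P.1 + η * P.2 + x, η * lam K * P.1 + η * lam K' * P.2 + y).1 - x| ≤ 2 * η ∧
      |(η * P.1 + η * P.2 + x, η * lam K * P.1 + η * lam K' * P.2 + y).2 - y| ≤ 2 * Λ * η := by
    intro P h1 h2
    constructor
    · show |η * P.1 + η * P.2 + x - x| ≤ 2 * η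
      have e : η * P.1 + η * P.2 + x - x = η * P.1 + η * P.2 := by ring
      rw [e]
      refine (abs_add_le _ _).trans ?_
      rw [abs_mul η P.1, abs_mul η P.2, abs_of_pos hη]
      nlinarith
    · show |η * lam K * P.1 + η * lam K' * P.2 + y - y| ≤ 2 * Λ * η
      have e : η * lam K * P.1 + η * lam K' * P.2 + y - y =
          η * (lam K * P.1) + η * (lam K' * P.2) := by ring
      rw [e]
      refine (abs_add_le _ _).trans ?_
      rw [abs_mul η (lam K * P.1), abs_mul η (lam K' * P.2), abs_of_pos hη, abs_mul, abs_mul]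
      have h3 : |lam K| * |P.1| ≤ Λ * 1 := mul_le_mul (hΛ K hK) h1 (abs_nonneg _) (by linarith)
      have h4 : |lam K'| * |P.2| ≤ Λ * 1 := mul_le_mul (hΛ K' hK') h2 (abs_nonneg _) (by linarith)
      nlinarith
  have hfin : ∀ Q : ℝ × ℝ, |Q.1 - x| ≤ 2 * η → |Q.2 - y| ≤ 2 * Λ * η → |Q.1| ≤ M ∧ |Q.2| ≤ M := by
    intro Q h1 h2
    constructor
    · have h3 := abs_add_le (Q.1 - x) x
      have e : Q.1 - x + x = Q.1 := by ring
      rw [e] at h3
      linarith
    · have h3 := abs_add_le (Q.2 - y) y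
      have e : Q.2 - y + y = Q.2 := by ring
      rw [e] at h3
      linarith
  have hML := hPL.lin M
  -- crossings
  have hcr : ∀ K'' ∈ G, Neg2 U F fun n =>
      crp (cmp (g n) (fr x y (lam K) (lam K') η hη' hlam)) 1 1 (gr F s K'' n) := by
    intro K'' hK''
    refine (hPL.cr K'' (Finset.mem_union_left _ hK'')).mono ?_
    filter_upwards [hML] with n hn
    unfold crp
    apply Finset.card_le_card
    intro q hq
    rw [Finset.mem_filter] at hq ⊢
    obtain ⟨hq1, hq2, P, h1, h2, h3, h4⟩ := hq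
    refine ⟨hq1, hq2, _, ?_, ?_, onl_fr (g n) hη' hlam _ P h3, onl_fr (g n) hη' hlam _ P h4⟩
    · exact (hfin _ (hbox P h1 h2).1 (hbox P h1 h2).2).1.trans hn
    · exact (hfin _ (hbox P h1 h2).1 (hbox P h1 h2).2).2.trans hn
  have hΔ : 0 < |lam K' - lam K| := abs_pos.mpr (sub_ne_zero.mpr (Ne.symm hlam))
  have hΔ' : 0 < |lam K - lam K'| := abs_pos.mpr (sub_ne_zero.mpr hlam)
  refine ⟨fun n => cmp (g n) (fr x y (lam K) (lam K') η hη' hlam), ?_⟩
  constructor
  · -- dA
    intro K₀ hK₀
    rw [Finset.mem_singleton] at hK₀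
    rw [hK₀]
    exact hPL.dis K' (Finset.mem_union_left _ hK') K (Finset.mem_union_left _ hK) (Ne.symm hne)
  · -- dB
    intro K₀ hK₀ K₁ hK₁ h
    rw [Finset.mem_singleton] at hK₀ hK₁
    exact absurd (hK₀.trans hK₁.symm) h
  · -- ver
    intro i hi e he
    have hE : 0 < min (|lam K - lam K'| / 2) (e * |lam K - lam K'| / 2) :=
      lt_min (by positivity) (by positivity)
    filter_upwards [hPL.hor K' hK' i hi _ hE] with n hn
    rw [al_fr, be_fr, abs_mul, abs_mul]
    have h1 := key (d := lam K - lam K') hn (min_le_left _ _) (min_le_right _ _) he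
    have e1 : al (g n) (s n i) + lam K' * be (g n) (s n i) + (lam K - lam K') * be (g n) (s n i) =
        al (g n) (s n i) + lam K * be (g n) (s n i) := by ring
    rw [e1] at h1
    calc |η| * |al (g n) (s n i) + lam K' * be (g n) (s n i)|
        ≤ |η| * (e * |al (g n) (s n i) + lam K * be (g n) (s n i)|) :=
          mul_le_mul_of_nonneg_left h1 (abs_nonneg _)
      _ = e * (|η| * |al (g n) (s n i) + lam K * be (g n) (s n i)|) := by ring
  · -- hor
    intro K₀ hK₀ i hi e he
    rw [Finset.mem_singleton] at hK₀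
    rw [hK₀] at hi
    have hE : 0 < min (|lam K' - lam K| / 2) (e * |lam K' - lam K| / 2) :=
      lt_min (by positivity) (by positivity)
    filter_upwards [hPL.hor K hK i hi _ hE] with n hn
    rw [al_fr, be_fr, zero_mul, add_zero, abs_mul, abs_mul]
    have h1 := key (d := lam K' - lam K) hn (min_le_left _ _) (min_le_right _ _) he
    have e1 : al (g n) (s n i) + lam K * be (g n) (s n i) + (lam K' - lam K) * be (g n) (s n i) =
        al (g n) (s n i) + lam K' * be (g n) (s n i) := by ring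
    rw [e1] at h1
    calc |η| * |al (g n) (s n i) + lam K * be (g n) (s n i)|
        ≤ |η| * (e * |al (g n) (s n i) + lam K' * be (g n) (s n i)|) :=
          mul_le_mul_of_nonneg_left h1 (abs_nonneg _)
      _ = e * (|η| * |al (g n) (s n i) + lam K' * be (g n) (s n i)|) := by ring
  · -- con
    have hsum := (hPL.con.add (Neg.sum ((G.erase K).erase K')
      (fun K'' => cn (gr F s K'') (fun n => tt (g n))
        (y - lam K'' * x - η₀) (y - lam K'' * x + η₀)) hneg)).add hnegV
    refine hsum.mono ?_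
    have hE : 0 < η₀ / (2 * M) := by positivity
    have hEM : η₀ / (2 * M) * M = η₀ / 2 := by field_simp
    have hV : ∀ i ∈ uni V, Ver U s g i := by
      intro i hi
      rw [mem_uni] at hi
      obtain ⟨K₀, h1, h2⟩ := hi
      exact hPL.ver K₀ h1 i h2
    filter_upwards [hML, hor_lines F hPL.hor _ hE, ver_lines F hV _ hE] with n hn hho hve
    have hsub : ((F n).filter fun l => l ∉ gr F s (K' ∪ uni {K}) n ∧
          hit (cmp (g n) (fr x y (lam K) (lam K') η hη' hlam)) 1 l) ⊆
        (((F n).filter fun l => l ∉ gr F s (uni G ∪ uni V) n ∧ hit (g n) (L n) l) ∪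
          ((G.erase K).erase K').biUnion (fun K'' => (gr F s K'' n).filter fun l =>
            y - lam K'' * x - η₀ ≤ tt (g n) l ∧ tt (g n) l ≤ y - lam K'' * x + η₀)) ∪
          (gr F s (uni V) n).filter fun l => x - η₀ ≤ vv (g n) l ∧ vv (g n) l ≤ x + η₀ := by
      intro l hl
      rw [Finset.mem_filter] at hl
      obtain ⟨hlF, hl1, P, h1, h2, h3⟩ := hl
      have h4 := onl_fr (g n) hη' hlam _ P h3
      obtain ⟨h5, h6⟩ := hbox P h1 h2
      obtain ⟨h7, h8⟩ := hfin _ h5 h6
      generalize (η * P.1 + η * P.2 + x, η * lam K * P.1 + η * lam K' * P.2 + y) = Q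
        at h4 h5 h6 h7 h8
      rw [uni_single] at hl1
      rw [Finset.mem_union, Finset.mem_union, Finset.mem_filter, Finset.mem_biUnion,
        Finset.mem_filter]
      by_cases hG : l ∈ gr F s (uni G ∪ uni V) n
      · rw [mem_gr] at hG
        obtain ⟨_, i, hi, hli⟩ := hG
        rw [Finset.mem_union] at hi
        rcases hi with hi | hi
        · rw [mem_uni] at hi
          obtain ⟨K'', hK'', hiK⟩ := hi
          have hlK : l ∈ gr F s K'' n := mem_gr.mpr ⟨hlF, i, hiK, hli⟩
          have hn1 : K'' ≠ K := by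
            intro h
            apply hl1
            rw [mem_gr]
            exact ⟨hlF, i, Finset.mem_union_right _ (h ▸ hiK), hli⟩
          have hn2 : K'' ≠ K' := by
            intro h
            apply hl1
            rw [mem_gr]
            exact ⟨hlF, i, Finset.mem_union_left _ (h ▸ hiK), hli⟩
          left
          right
          refine ⟨K'', Finset.mem_erase.mpr ⟨hn2, Finset.mem_erase.mpr ⟨hn1, hK''⟩⟩, ?_⟩
          rw [Finset.mem_filter]
          refine ⟨hlK, ?_⟩
          obtain ⟨hb, hs⟩ := hho K'' hK'' l hlK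
          have h9 := (onl_hor hb Q).mp h4
          have h10 : |tt (g n) l - (y - lam K'' * x)| ≤ η₀ := by
            have e : tt (g n) l - (y - lam K'' * x) =
                (Q.2 - y) - (lam K'' * (Q.1 - x) + (sg (g n) l.1 - lam K'') * Q.1) := by
              rw [h9]
              ring
            rw [e]
            refine (abs_sub _ _).trans ?_
            have h11 := abs_add_le (lam K'' * (Q.1 - x)) ((sg (g n) l.1 - lam K'') * Q.1)
            rw [abs_mul, abs_mul] at h11
            have h12 : |lam K''| * |Q.1 - x| ≤ Λ * (2 * η) :=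
              mul_le_mul (hΛ K'' hK'') h5 (abs_nonneg _) (by linarith)
            have h13 : |sg (g n) l.1 - lam K''| * |Q.1| ≤ η₀ / (2 * M) * M :=
              mul_le_mul hs h7 (abs_nonneg _) hE.le
            rw [hEM] at h13
            linarith
          rw [abs_le] at h10
          constructor
          · linarith [h10.1]
          · linarith [h10.2]
        · have hlV : l ∈ gr F s (uni V) n := mem_gr.mpr ⟨hlF, i, hi, hli⟩
          right
          refine ⟨hlV, ?_⟩
          obtain ⟨ha, hr⟩ := hve l hlV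
          have h9 := (onl_ver ha Q).mp h4
          have h10 : |vv (g n) l - x| ≤ η₀ := by
            have e : vv (g n) l - x = (Q.1 - x) - rh (g n) l.1 * Q.2 := by
              rw [h9]
              ring
            rw [e]
            refine (abs_sub _ _).trans ?_
            rw [abs_mul]
            have h13 : |rh (g n) l.1| * |Q.2| ≤ η₀ / (2 * M) * M :=
              mul_le_mul hr h8 (abs_nonneg _) hE.le
            rw [hEM] at h13
            linarith
          rw [abs_le] at h10
          constructor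
          · linarith [h10.1]
          · linarith [h10.2]
      · left
        left
        exact ⟨hlF, hG, Q, h7.trans hn, h8.trans hn, h4⟩
    refine (Finset.card_le_card hsub).trans ?_
    refine (Finset.card_union_le _ _).trans (Nat.add_le_add ?_ le_rfl)
    refine (Finset.card_union_le _ _).trans (Nat.add_le_add le_rfl ?_)
    exact Finset.card_biUnion_le
  · -- crA
    exact hcr K' hK'
  · -- crB
    intro K₀ hK₀
    rw [Finset.mem_singleton] at hK₀
    rw [hK₀]
    exact hcr K hK
  · -- sep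
    intro K₀ hK₀ i hi i' hi' j hj hj'
    rw [uni_single] at hj
    rw [Finset.mem_singleton] at hK₀
    rw [hK₀] at hj'
    exact absurd hj hj'
  · -- cA
    exact spt hη (Ne.symm hlam) (hPL.hor K' hK') hSK' _
      fun n l hb => vv_fr (g n) hη' hlam hb
  · -- cB
    rw [uni_single]
    exact spt hη hlam (hPL.hor K hK) hSK _
      fun n l hb => tt_fr (g n) hη' hlam hb

end Pool.Agent.Work.MP_b25393_ag.UU
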