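import Pool.Agent.Work.MP_b25393_ag.UU.StmtsC

set_option autoImplicit false

namespace Pool.Agent.Work.MP_b25393_ag.UU

open scoped Classical
open Pool.Agent.Work.MP_b25393_ag.U

namespace I_PLV

variable {k : ℕ} {U : Ultrafilter ℕ} {F : ℕ → Finset (ℝ × ℝ)} {s : ℕ → Fin k → ℝ}

/-- a common width of the light windows -/
theorem width {g : ℕ → Fr} {G : Finset (Finset (Fin k))} {K : Finset (Fin k)}
    {t : Finset (Fin k) → ℝ}
    (h : ∀ K' ∈ G, K' ≠ K → ¬ Spt U F (gr F s K') (fun n => tt (g n)) (t K')) :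
    ∃ δ : ℝ, 0 < δ ∧ ∀ K' ∈ G, K' ≠ K →
      Neg U F (cn (gr F s K') (fun n => tt (g n)) (t K' - δ) (t K' + δ)) := by
  have h1 : ∀ K' : Finset (Fin k), ∃ η : ℝ, 0 < η ∧ (K' ∈ G → K' ≠ K →
      Neg U F (cn (gr F s K') (fun n => tt (g n)) (t K' - η) (t K' + η))) := by
    intro K'
    by_cases hK : K' ∈ G ∧ K' ≠ K
    · have h2 := h K' hK.1 hK.2
      unfold Spt at h2
      push Not at h2
      obtain ⟨η, hη, h3⟩ := h2
      refine ⟨η, hη, fun _ _ => ?_⟩
      by_contra h4
      exact h3 (pos_of_not_neg h4)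
    · exact ⟨1, one_pos, fun a b => absurd ⟨a, b⟩ hK⟩
  choose f hf1 hf2 using h1
  have hne : (insert (1 : ℝ) (G.image f)).Nonempty := Finset.insert_nonempty _ _
  refine ⟨(insert (1 : ℝ) (G.image f)).min' hne, ?_, ?_⟩
  · rw [Finset.lt_min'_iff]
    intro z hz
    rcases Finset.mem_insert.mp hz with rfl | hz
    · exact one_pos
    · obtain ⟨K', -, rfl⟩ := Finset.mem_image.mp hz
      exact hf1 K'
  · intro K' hK' hne'
    have h5 : (insert (1 : ℝ) (G.image f)).min' hne ≤ f K' :=
      Finset.min'_le _ _ (Finset.mem_insert_of_mem (Finset.mem_image_of_mem f hK'))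
    refine (hf2 K' hK' hne').mono' fun n => ?_
    unfold cn
    apply Finset.card_le_card
    intro l hl
    rw [Finset.mem_filter] at hl ⊢
    exact ⟨hl.1, by linarith [hl.2.1], by linarith [hl.2.2]⟩

/-- crossings in the small box are crossings in the large box -/
theorem cross {g : ℕ → Fr} {L : ℕ → ℝ} {x y η c : ℝ} (hη : η ≠ 0)
    (hL : ∀ᶠ n in (U : Filter ℕ), |x| + |η| ≤ L n ∧ |y| + (|c| + |η|) ≤ L n)
    (Q : ℕ → Finset (ℝ × ℝ)) (h : Neg2 U F fun n => crp (g n) (L n) (L n) (Q n)) :
    Neg2 U F fun n => crp (cmp (g n) (hfr x y η η c hη hη)) 1 1 (Q n) := by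
  refine h.mono ?_
  filter_upwards [hL] with n hn
  unfold crp
  apply Finset.card_le_card
  intro q hq
  rw [Finset.mem_filter] at hq ⊢
  refine ⟨hq.1, hq.2.1, ?_⟩
  obtain ⟨P, h1, h2, h3, h4⟩ := crb_hfr hq.2.2
  refine ⟨P, ?_, ?_, h3, h4⟩
  · have := abs_sub_abs_le_abs_sub P.1 x
    linarith [hn.1]
  · have := abs_sub_abs_le_abs_sub P.2 y
    linarith [hn.2]

end I_PLV

open I_PLV in
theorem PLV_pf : S_PLV := by
  intro k U F s g L G V lam x y hS hP K hK hsK hsV hno
  obtain ⟨δ, hδ, hneg⟩ := width (t := fun K' => y - lam K' * x) hno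
  -- the bound for the slopes
  set Λ : ℝ := 1 + ∑ K' ∈ G, |lam K'| with hΛ
  have hΛK : ∀ K' ∈ G, 1 + |lam K'| ≤ Λ := by
    intro K' hK'
    rw [hΛ]
    have : |lam K'| ≤ ∑ K' ∈ G, |lam K'| :=
      Finset.single_le_sum (f := fun K' => |lam K'|) (fun i _ => abs_nonneg _) hK'
    linarith
  have hΛ1 : 1 ≤ Λ := by linarith [hΛK K hK, abs_nonneg (lam K)]
  set η : ℝ := δ / (4 * Λ) with hη
  have hη0 : 0 < η := by positivity
  have hη' : η ≠ 0 := hη0.ne'
  have hηΛ : Λ * η = δ / 4 := by
    rw [hη]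
    field_simp
  have hL : ∀ᶠ n in (U : Filter ℕ), |x| + |η| ≤ L n ∧ |y| + (|lam K * η| + |η|) ≤ L n := by
    filter_upwards [hP.lin (|x| + |η|), hP.lin (|y| + (|lam K * η| + |η|))] with n h1 h2
    exact ⟨h1, h2⟩
  have hKV : ∀ K' ∈ V, K ≠ K' := by
    rintro K' hK' rfl
    exact Finset.disjoint_left.mp hP.dGV hK hK'
  have hKu : K ⊆ uni G := fun i hi => mem_uni.mpr ⟨K, hK, hi⟩
  refine ⟨fun n => cmp (g n) (hfr x y η η (lam K * η) hη' hη'), ?_⟩
  refine
    { dA := ?_, dB := ?_, hor := ?_, ver := ?_, con := ?_, crA := ?_, crB := ?_, sep := ?_,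
      cA := ?_, cB := ?_ }
  · intro K' hK'
    exact hP.dis K (Finset.mem_union_left _ hK) K' (Finset.mem_union_right _ hK') (hKV K' hK')
  · intro K' hK' K'' hK'' hne
    exact hP.dis K' (Finset.mem_union_right _ hK') K'' (Finset.mem_union_right _ hK'') hne
  · intro i hi
    refine hor_hfr (fun _ => hη') (fun _ => hη') (hP.hor K hK i hi) ?_ 1 ?_
    · intro e he
      filter_upwards with n
      have : η * lam K - lam K * η - 0 * η = 0 := by ring
      rw [this, abs_zero]
      positivity
    · filter_upwards with n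
      linarith
  · intro K' hK' i hi
    refine ver_hfr (fun _ => hη') (fun _ => hη') (hP.ver K' hK' i hi) Λ ?_
    filter_upwards with n
    refine ⟨?_, ?_⟩
    · nlinarith [abs_nonneg η]
    · rw [abs_mul]
      apply mul_le_mul_of_nonneg_right _ (abs_nonneg _)
      linarith [hΛK K hK]
  · -- contamination
    set ε : ℝ := min 1 (δ / (2 * (|x| + 1))) with hε
    have hx1 : 0 < |x| + 1 := by positivity
    have hε0 : 0 < ε := by
      rw [hε]
      positivity
    have hεx : ε * |x| ≤ δ / 2 := by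
      calc ε * |x| ≤ δ / (2 * (|x| + 1)) * |x| :=
            mul_le_mul_of_nonneg_right (min_le_right _ _) (abs_nonneg _)
        _ ≤ δ / (2 * (|x| + 1)) * (|x| + 1) := by
            apply mul_le_mul_of_nonneg_left _ (by positivity)
            linarith
        _ = δ / 2 := by field_simp
    have hlines := hor_lines F hP.hor ε hε0
    have hsum : Neg U F fun n => ∑ K' ∈ G.filter (fun K' => K' ≠ K),
        cn (gr F s K') (fun n => tt (g n)) ((y - lam K' * x) - δ) ((y - lam K' * x) + δ) n := by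
      refine Neg.sum _ _ ?_
      intro K' hK'
      rw [Finset.mem_filter] at hK'
      exact hneg K' hK'.1 hK'.2
    refine (hP.con.add hsum).mono ?_
    filter_upwards [hL, hlines] with n hn hln
    refine le_trans (Finset.card_le_card (t := ((F n).filter fun l =>
      l ∉ gr F s (uni G ∪ uni V) n ∧ hit (g n) (L n) l) ∪
      (G.filter (fun K' => K' ≠ K)).biUnion fun K' => (gr F s K' n).filter fun l =>
        (y - lam K' * x) - δ ≤ tt (g n) l ∧ tt (g n) l ≤ (y - lam K' * x) + δ) ?_) ?_
    · intro l hl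
      rw [Finset.mem_filter] at hl
      obtain ⟨hlF, hlK, hlh⟩ := hl
      obtain ⟨P, hP1, hP2, hP3⟩ := hit_hfr hlh
      rw [mul_one] at hP1 hP2
      rw [Finset.mem_union]
      by_cases hin : l ∈ gr F s (uni G ∪ uni V) n
      · right
        obtain ⟨-, i, hi, hli⟩ := mem_gr.mp hin
        have hiK : i ∉ K ∪ uni V := fun h => hlK (mem_gr.mpr ⟨hlF, i, h, hli⟩)
        have hiG : i ∈ uni G := by
          rcases Finset.mem_union.mp hi with h | h
          · exact h
          · exact absurd (Finset.mem_union_right _ h) hiK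
        obtain ⟨K', hK', hiK'⟩ := mem_uni.mp hiG
        have hne : K' ≠ K := by
          rintro rfl
          exact hiK (Finset.mem_union_left _ hiK')
        have hlK' : l ∈ gr F s K' n := mem_gr.mpr ⟨hlF, i, hiK', hli⟩
        obtain ⟨hb, hsg⟩ := hln K' hK' l hlK'
        rw [onl_hor hb] at hP3
        have e1 : tt (g n) l - (y - lam K' * x) =
            (P.2 - y) - sg (g n) l.1 * (P.1 - x) - (sg (g n) l.1 - lam K') * x := by
          rw [hP3]
          ring
        have hsg1 : |sg (g n) l.1| ≤ Λ := by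
          have h1 : |sg (g n) l.1| - |lam K'| ≤ |sg (g n) l.1 - lam K'| :=
            abs_sub_abs_le_abs_sub _ _
          have h2 : ε ≤ 1 := min_le_left _ _
          linarith [hΛK K' hK']
        have h1 : |P.2 - y| ≤ Λ * η := by
          refine hP2.trans ?_
          rw [abs_mul, abs_of_pos hη0]
          nlinarith [hΛK K hK]
        have h2 : |sg (g n) l.1 * (P.1 - x)| ≤ Λ * η := by
          rw [abs_mul]
          rw [abs_of_pos hη0] at hP1
          exact mul_le_mul hsg1 hP1 (abs_nonneg _) (by linarith)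
        have h3 : |(sg (g n) l.1 - lam K') * x| ≤ δ / 2 := by
          rw [abs_mul]
          exact (mul_le_mul_of_nonneg_right hsg (abs_nonneg _)).trans hεx
        have h4 : |tt (g n) l - (y - lam K' * x)| ≤ δ := by
          rw [e1]
          calc |(P.2 - y) - sg (g n) l.1 * (P.1 - x) - (sg (g n) l.1 - lam K') * x|
              ≤ |(P.2 - y) - sg (g n) l.1 * (P.1 - x)| + |(sg (g n) l.1 - lam K') * x| :=
                abs_sub _ _
            _ ≤ |P.2 - y| + |sg (g n) l.1 * (P.1 - x)| + |(sg (g n) l.1 - lam K') * x| := by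
                gcongr
                exact abs_sub _ _
            _ ≤ δ := by linarith
        rw [abs_le] at h4
        rw [Finset.mem_biUnion]
        refine ⟨K', Finset.mem_filter.mpr ⟨hK', hne⟩, Finset.mem_filter.mpr ⟨hlK', ?_, ?_⟩⟩
        · linarith [h4.1]
        · linarith [h4.2]
      · left
        rw [Finset.mem_filter]
        refine ⟨hlF, hin, P, ?_, ?_, hP3⟩
        · have := abs_sub_abs_le_abs_sub P.1 x
          linarith [hn.1]
        · have := abs_sub_abs_le_abs_sub P.2 y
          linarith [hn.2]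
    · refine (Finset.card_union_le _ _).trans ?_
      refine Nat.add_le_add_left ?_ _
      exact Finset.card_biUnion_le
  · exact cross hη' hL _ (hP.cr K (Finset.mem_union_left _ hK))
  · intro K' hK'
    exact cross hη' hL _ (hP.cr K' (Finset.mem_union_right _ hK'))
  · intro K' hK' i hi i' hi' j hj hjK a ha
    exact hP.sep K' hK' i hi i' hi' j hj hjK a (hKu ha)
  · -- support of `K`
    intro η₁ hη₁
    have hpos := hsK (η₁ * η / 2) (by positivity)
    set ε : ℝ := η₁ * η / (2 * (|x| + 1)) with hε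
    have hε0 : 0 < ε := by positivity
    have hεx : ε * |x| ≤ η₁ * η / 2 := by
      calc ε * |x| ≤ ε * (|x| + 1) := by
            apply mul_le_mul_of_nonneg_left _ hε0.le
            linarith
        _ = η₁ * η / 2 := by
            rw [hε]
            field_simp
    refine hpos.mono ?_
    filter_upwards [hor_lines F hP.hor ε hε0] with n hln
    unfold cn
    apply Finset.card_le_card
    intro l hl
    rw [Finset.mem_filter] at hl ⊢
    obtain ⟨hl1, hl2, hl3⟩ := hl
    obtain ⟨hb, hsg⟩ := hln K hK l hl1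
    refine ⟨hl1, ?_⟩
    beta_reduce at hl2 hl3 ⊢
    rw [tt_hfr _ _ _ _ _ _ _ _ _ hb]
    have h3 : |(sg (g n) l.1 - lam K) * x| ≤ η₁ * η / 2 := by
      rw [abs_mul]
      exact (mul_le_mul_of_nonneg_right hsg (abs_nonneg _)).trans hεx
    rw [abs_le] at h3
    rw [le_div_iff₀ hη0, div_le_iff₀ hη0]
    constructor
    · nlinarith [h3.1]
    · nlinarith [h3.2]
  · -- support of the vertical lines
    intro η₁ hη₁
    have hpos := hsV (η₁ * η / 4) (by positivity)
    have hVer : ∀ i ∈ uni V, Ver U s g i := by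
      intro i hi
      obtain ⟨K', hK', hi'⟩ := mem_uni.mp hi
      exact hP.ver K' hK' i hi'
    set ε : ℝ := min (1 / (2 * Λ)) (η₁ * η / (4 * (|y| + 1))) with hε
    have hε0 : 0 < ε := by
      rw [hε]
      positivity
    have hεy : ε * |y| ≤ η₁ * η / 4 := by
      calc ε * |y| ≤ η₁ * η / (4 * (|y| + 1)) * |y| :=
            mul_le_mul_of_nonneg_right (min_le_right _ _) (abs_nonneg _)
        _ ≤ η₁ * η / (4 * (|y| + 1)) * (|y| + 1) := by
            apply mul_le_mul_of_nonneg_left _ (by positivity)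
            linarith
        _ = η₁ * η / 4 := by
            field_simp
    refine hpos.mono ?_
    filter_upwards [ver_lines F hVer ε hε0] with n hln
    unfold cn
    apply Finset.card_le_card
    intro l hl
    rw [Finset.mem_filter] at hl ⊢
    obtain ⟨hl1, hl2, hl3⟩ := hl
    obtain ⟨hb, hrh⟩ := hln l hl1
    refine ⟨hl1, ?_⟩
    have hden : |rh (g n) l.1 * (lam K * η)| ≤ η / 2 := by
      rw [abs_mul, abs_mul, abs_of_pos hη0]
      have h1 : |rh (g n) l.1| ≤ 1 / (2 * Λ) := hrh.trans (min_le_left _ _)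
      have h2 : |lam K| ≤ Λ := by linarith [hΛK K hK]
      calc |rh (g n) l.1| * (|lam K| * η) ≤ 1 / (2 * Λ) * (Λ * η) := by
            apply mul_le_mul h1 _ (by positivity) (by positivity)
            exact mul_le_mul_of_nonneg_right h2 hη0.le
        _ = η / 2 := by
            field_simp
    rw [abs_le] at hden
    have hden' : η / 2 ≤ η - rh (g n) l.1 * (lam K * η) := by linarith [hden.2]
    have hden0 : 0 < η - rh (g n) l.1 * (lam K * η) := by linarith
    beta_reduce at hl2 hl3 ⊢
    rw [vv_hfr _ _ _ _ _ _ _ _ _ hb hden0.ne']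
    have h3 : |rh (g n) l.1 * y| ≤ η₁ * η / 4 := by
      rw [abs_mul]
      exact (mul_le_mul_of_nonneg_right hrh (abs_nonneg _)).trans hεy
    rw [abs_le] at h3
    rw [le_div_iff₀ hden0, div_le_iff₀ hden0]
    have h5 : η₁ * (η / 2) ≤ η₁ * (η - rh (g n) l.1 * (lam K * η)) :=
      mul_le_mul_of_nonneg_left hden' hη₁.le
    constructor
    · nlinarith [h3.1]
    · nlinarith [h3.2]

end Pool.Agent.Work.MP_b25393_ag.UU
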