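import Mathlib
import Pool.Agent.Work.MP_b25393_ag.UU.StmtsC

/-!
# Uniform version, item PM1: the centre
-/

set_option autoImplicit false

namespace Pool.Agent.Work.MP_b25393_ag.UU

open scoped Classical
open Pool.Agent.Work.MP_b25393_ag.U

namespace I_PM1

/-- the middle third -/
noncomputable def md (S : Finset (ℝ × ℝ)) (f : ℝ × ℝ → ℝ) : Finset (ℝ × ℝ) :=
  S.filter fun c => S.card ≤ 3 * (S.filter fun l => f c ≤ f l).card ∧
    S.card ≤ 3 * (S.filter fun l => f l ≤ f c).card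

theorem card_md (S : Finset (ℝ × ℝ)) (f : ℝ × ℝ → ℝ) : S.card ≤ 3 * (md S f).card := by
  set B1 := S.filter fun c => 3 * (S.filter fun l => f c ≤ f l).card < S.card with hB1
  set B2 := S.filter fun c => 3 * (S.filter fun l => f l ≤ f c).card < S.card with hB2
  have h1 : 3 * B1.card ≤ S.card := by
    rcases B1.eq_empty_or_nonempty with h | h
    · rw [h]
      simp
    · obtain ⟨c, hc, hmin⟩ := Finset.exists_min_image B1 f h
      have hsub : B1 ⊆ S.filter fun l => f c ≤ f l := by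
        intro l hl
        rw [Finset.mem_filter]
        exact ⟨(Finset.mem_filter.mp hl).1, hmin l hl⟩
      have h2 := Finset.card_le_card hsub
      have h3 := (Finset.mem_filter.mp hc).2
      omega
  have h2 : 3 * B2.card ≤ S.card := by
    rcases B2.eq_empty_or_nonempty with h | h
    · rw [h]
      simp
    · obtain ⟨c, hc, hmax⟩ := Finset.exists_max_image B2 f h
      have hsub : B2 ⊆ S.filter fun l => f l ≤ f c := by
        intro l hl
        rw [Finset.mem_filter]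
        exact ⟨(Finset.mem_filter.mp hl).1, hmax l hl⟩
      have h2 := Finset.card_le_card hsub
      have h3 := (Finset.mem_filter.mp hc).2
      omega
  have h3 : S ⊆ md S f ∪ (B1 ∪ B2) := by
    intro c hc
    rw [Finset.mem_union, Finset.mem_union]
    by_cases a1 : 3 * (S.filter fun l => f c ≤ f l).card < S.card
    · right
      left
      exact Finset.mem_filter.mpr ⟨hc, a1⟩
    · by_cases a2 : 3 * (S.filter fun l => f l ≤ f c).card < S.card
      · right
        right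
        exact Finset.mem_filter.mpr ⟨hc, a2⟩
      · left
        exact Finset.mem_filter.mpr ⟨hc, not_lt.mp a1, not_lt.mp a2⟩
  have h4 := Finset.card_le_card h3
  have h5 := Finset.card_union_le (md S f) (B1 ∪ B2)
  have h6 := Finset.card_union_le B1 B2
  omega

/-- the partners of `c` -/
noncomputable def pr (g : Fr) (L : ℝ) (G : Finset (ℝ × ℝ)) (c : ℝ × ℝ) : Finset (ℝ × ℝ) :=
  G.filter fun l => l ≠ c ∧ crb g L L c l

theorem sum_pr (g : Fr) (L : ℝ) (G S : Finset (ℝ × ℝ)) (hS : S ⊆ G) :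
    ∑ c ∈ S, (pr g L G c).card ≤ crp g L L G := by
  rw [← Finset.card_sigma]
  unfold crp
  refine Finset.card_le_card_of_injOn (fun q => (q.1, q.2)) ?_ ?_
  · rintro ⟨c, l⟩ hq
    have hq' := Finset.mem_sigma.mp (Finset.mem_coe.mp hq)
    obtain ⟨h1, h2⟩ := hq'
    simp only at h1 h2
    unfold pr at h2
    rw [Finset.mem_filter] at h2
    refine Finset.mem_coe.mpr (Finset.mem_filter.mpr ⟨Finset.mem_product.mpr ⟨hS h1, h2.1⟩, ?_, h2.2.2⟩)
    exact h2.2.1.symm
  · rintro ⟨c, l⟩ _ ⟨c', l'⟩ _ h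
    simp only [Prod.mk.injEq] at h
    obtain ⟨h1, h2⟩ := h
    subst h1
    subst h2
    rfl

theorem part {g : Fr} {l c : ℝ × ℝ} {x L : ℝ} (hl : be g l.1 ≠ 0) (hc : be g c.1 ≠ 0)
    (hx : |x| ≤ L) (hy : |tt g c| + |sg g c.1| * |x| ≤ L)
    (hE : sg g l.1 - sg g c.1 ≠ 0) (hD : |tt g c - tt g l| ≤ |sg g l.1 - sg g c.1| * |x|) :
    l ≠ c ∧ crb g L L c l := by
  refine ⟨?_, ?_⟩
  · rintro rfl
    exact hE (sub_self _)
  · obtain ⟨h1, h2⟩ := cross_hh hl hc hE
    have hX : |(tt g c - tt g l) / (sg g l.1 - sg g c.1)| ≤ |x| := by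
      rw [abs_div, div_le_iff₀ (abs_pos.mpr hE)]
      linarith
    refine ⟨_, ?_, ?_, h2, h1⟩
    · exact hX.trans hx
    · have h3 := (onl_hor hc _).mp h2
      simp only at h3 ⊢
      rw [h3]
      refine (abs_add_le _ _).trans ?_
      rw [abs_mul]
      have h4 := mul_le_mul_of_nonneg_left hX (abs_nonneg (sg g c.1))
      linarith

theorem side_ge {g : Fr} {l c : ℝ × ℝ} {x L : ℝ} (hl : be g l.1 ≠ 0) (hc : be g c.1 ≠ 0)
    (hx : |x| ≤ L) (hy : |tt g c| + |sg g c.1| * |x| ≤ L) (h : tt g c ≤ tt g l)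
    (hn : ¬ (l ≠ c ∧ crb g L L c l)) :
    0 ≤ tt g l + sg g l.1 * x - (tt g c + sg g c.1 * x) := by
  by_contra h0
  push Not at h0
  have h1 : (sg g l.1 - sg g c.1) * x < 0 := by nlinarith
  have hE : sg g l.1 - sg g c.1 ≠ 0 := by
    intro hE
    rw [hE, zero_mul] at h1
    exact lt_irrefl _ h1
  apply hn
  refine part hl hc hx hy hE ?_
  rw [← abs_mul, abs_of_neg h1, abs_of_nonpos (by linarith)]
  nlinarith

theorem side_le {g : Fr} {l c : ℝ × ℝ} {x L : ℝ} (hl : be g l.1 ≠ 0) (hc : be g c.1 ≠ 0)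
    (hx : |x| ≤ L) (hy : |tt g c| + |sg g c.1| * |x| ≤ L) (h : tt g l ≤ tt g c)
    (hn : ¬ (l ≠ c ∧ crb g L L c l)) :
    tt g l + sg g l.1 * x - (tt g c + sg g c.1 * x) ≤ 0 := by
  by_contra h0
  push Not at h0
  have h1 : 0 < (sg g l.1 - sg g c.1) * x := by nlinarith
  have hE : sg g l.1 - sg g c.1 ≠ 0 := by
    intro hE
    rw [hE, zero_mul] at h1
    exact lt_irrefl _ h1
  apply hn
  refine part hl hc hx hy hE ?_
  rw [← abs_mul, abs_of_pos h1, abs_of_nonneg (by linarith)]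
  nlinarith

theorem mid {k : ℕ} {U : Ultrafilter ℕ} {F : ℕ → Finset (ℝ × ℝ)} {s : ℕ → Fin k → ℝ}
    {g : ℕ → Fr} {L : ℕ → ℝ} {G V : Finset (Finset (Fin k))} {lam : Finset (Fin k) → ℝ}
    (hSy : Sy U F s) (hPL : PL U F s g L G V lam) {K : Finset (Fin k)} (hK : K ∈ G)
    (hpos : Pos U F fun n => ((gr F s K n).filter fun l => hit (g n) (L n) l).card) :
    ∃ (c : ℕ → ℝ × ℝ) (e₀ : ℝ), 0 < e₀ ∧ (∀ᶠ n in (U : Filter ℕ), c n ∈ gr F s K n) ∧
      (∀ e : ℝ, 0 < e → ∀ᶠ n in (U : Filter ℕ), |tt (g n) (c n)| ≤ e * L n) ∧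
      (∀ᶠ n in (U : Filter ℕ), e₀ * ((F n).card : ℝ) ≤
        (((gr F s K n).filter fun l => hit (g n) (L n) l ∧ tt (g n) (c n) ≤ tt (g n) l ∧
          ¬ (l ≠ c n ∧ crb (g n) (L n) (L n) (c n) l)).card : ℝ)) ∧
      ∀ᶠ n in (U : Filter ℕ), e₀ * ((F n).card : ℝ) ≤
        (((gr F s K n).filter fun l => hit (g n) (L n) l ∧ tt (g n) l ≤ tt (g n) (c n) ∧
          ¬ (l ≠ c n ∧ crb (g n) (L n) (L n) (c n) l)).card : ℝ) := by
  obtain ⟨e, he, hpos⟩ := hpos
  obtain ⟨S, hS⟩ : ∃ S : ℕ → Finset (ℝ × ℝ), S = fun n =>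
    (gr F s K n).filter fun l => hit (g n) (L n) l := ⟨_, rfl⟩
  have hSn : ∀ n, S n = (gr F s K n).filter fun l => hit (g n) (L n) l := by
    intro n
    rw [hS]
  have hSgr : ∀ n, S n ⊆ gr F s K n := by
    intro n
    rw [hSn]
    exact Finset.filter_subset _ _
  obtain ⟨T, hT⟩ : ∃ T : ℕ → Finset (ℝ × ℝ), T = fun n => md (S n) (tt (g n)) := ⟨_, rfl⟩
  have hTn : ∀ n, T n = md (S n) (tt (g n)) := by
    intro n
    rw [hT]
  have hTS : ∀ n, T n ⊆ S n := by
    intro n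
    rw [hTn]
    exact Finset.filter_subset _ _
  have hTc : ∀ n, (S n).card ≤ 3 * (T n).card := by
    intro n
    rw [hTn]
    exact card_md _ _
  have hex : ∀ n, ∃ c : ℝ × ℝ, (T n).Nonempty → c ∈ T n ∧ ∀ c' ∈ T n,
      (pr (g n) (L n) (gr F s K n) c).card ≤ (pr (g n) (L n) (gr F s K n) c').card := by
    intro n
    by_cases h : (T n).Nonempty
    · obtain ⟨c, hc, hmin⟩ := Finset.exists_min_image (T n)
        (fun c => (pr (g n) (L n) (gr F s K n) c).card) h
      exact ⟨c, fun _ => ⟨hc, hmin⟩⟩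
    · exact ⟨0, fun h' => absurd h' h⟩
  choose c hc using hex
  -- the basic facts for large `n`
  have hbas : ∀ᶠ n in (U : Filter ℕ), 1 ≤ ((F n).card : ℝ) ∧ e * ((F n).card : ℝ) ≤ ((S n).card : ℝ) ∧
      c n ∈ T n ∧ ∀ c' ∈ T n,
      (pr (g n) (L n) (gr F s K n) (c n)).card ≤ (pr (g n) (L n) (gr F s K n) c').card := by
    filter_upwards [hSy.one, hpos] with n h1 h2
    have h1' : (1 : ℝ) ≤ ((F n).card : ℝ) := by exact_mod_cast h1
    rw [← hSn] at h2
    have h3 : (0 : ℝ) < ((S n).card : ℝ) := by nlinarith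
    have h4 : 0 < (S n).card := by exact_mod_cast h3
    have h5 : 0 < (T n).card := by
      have := hTc n
      omega
    exact ⟨h1', h2, hc n (Finset.card_pos.mp h5)⟩
  have hmid : ∀ n, c n ∈ T n →
      ((S n).card : ℝ) ≤ 3 * (((S n).filter fun l => tt (g n) (c n) ≤ tt (g n) l).card : ℝ) ∧
      ((S n).card : ℝ) ≤ 3 * (((S n).filter fun l => tt (g n) l ≤ tt (g n) (c n)).card : ℝ) := by
    intro n hn
    rw [hTn] at hn
    unfold md at hn
    rw [Finset.mem_filter] at hn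
    exact ⟨by exact_mod_cast hn.2.1, by exact_mod_cast hn.2.2⟩
  -- few partners
  have hpr : ∀ᶠ n in (U : Filter ℕ),
      ((pr (g n) (L n) (gr F s K n) (c n)).card : ℝ) ≤ e / 6 * ((F n).card : ℝ) := by
    filter_upwards [hbas, hPL.cr K (Finset.mem_union_left _ hK) (e ^ 2 / 18) (by positivity)]
      with n h1 h2
    obtain ⟨hF1, hSe, hcT, hmin⟩ := h1
    have h3 : (T n).card * (pr (g n) (L n) (gr F s K n) (c n)).card ≤
        crp (g n) (L n) (L n) (gr F s K n) := by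
      refine le_trans ?_ (sum_pr (g n) (L n) (gr F s K n) (T n) ((hTS n).trans (hSgr n)))
      rw [← smul_eq_mul]
      exact Finset.card_nsmul_le_sum _ _ _ hmin
    have h4 : ((T n).card : ℝ) * ((pr (g n) (L n) (gr F s K n) (c n)).card : ℝ) ≤
        (crp (g n) (L n) (L n) (gr F s K n) : ℝ) := by exact_mod_cast h3
    have h5 : ((S n).card : ℝ) ≤ 3 * ((T n).card : ℝ) := by exact_mod_cast hTc n
    have h6 : e / 3 * ((F n).card : ℝ) ≤ ((T n).card : ℝ) := by linarith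
    have h7 : (0 : ℝ) ≤ ((pr (g n) (L n) (gr F s K n) (c n)).card : ℝ) := Nat.cast_nonneg _
    have h8 : e / 3 * ((F n).card : ℝ) * ((pr (g n) (L n) (gr F s K n) (c n)).card : ℝ) ≤
        e ^ 2 / 18 * ((F n).card : ℝ) ^ 2 :=
      (mul_le_mul_of_nonneg_right h6 h7).trans (h4.trans h2)
    have h9 : 0 < e / 3 * ((F n).card : ℝ) := by positivity
    by_contra hcon
    push Not at hcon
    have h10 := mul_lt_mul_of_pos_left hcon h9
    have h11 : e / 3 * ((F n).card : ℝ) * (e / 6 * ((F n).card : ℝ)) =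
        e ^ 2 / 18 * ((F n).card : ℝ) ^ 2 := by ring
    linarith
  refine ⟨c, e / 6, by positivity, ?_, ?_, ?_, ?_⟩
  · filter_upwards [hbas] with n hn
    exact hSgr n (hTS n hn.2.2.1)
  · intro e' he'
    filter_upwards [hbas, hPL.ctH e' he' (e / 6) (by positivity)] with n h1 h2
    obtain ⟨hF1, hSe, hcT, _⟩ := h1
    obtain ⟨hm1, hm2⟩ := hmid n hcT
    by_contra hcon
    push Not at hcon
    have hKG : gr F s K n ⊆ gr F s (uni G) n :=
      gr_mono (fun i hi => mem_uni.mpr ⟨K, hK, hi⟩) n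
    rcases lt_abs.mp hcon with h3 | h3
    · have hsub : ((S n).filter fun l => tt (g n) (c n) ≤ tt (g n) l) ⊆
          (gr F s (uni G) n).filter fun l => hit (g n) (L n) l ∧ e' * L n < |tt (g n) l| := by
        intro l hl
        rw [Finset.mem_filter] at hl
        have h4 := hl.1
        rw [hSn, Finset.mem_filter] at h4
        rw [Finset.mem_filter]
        exact ⟨hKG h4.1, h4.2, lt_of_lt_of_le h3 (hl.2.trans (le_abs_self _))⟩
      have h5 := Finset.card_le_card hsub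
      have h6 : ((((S n).filter fun l => tt (g n) (c n) ≤ tt (g n) l).card : ℕ) : ℝ) ≤
        ((((gr F s (uni G) n).filter fun l => hit (g n) (L n) l ∧
          e' * L n < |tt (g n) l|).card : ℕ) : ℝ) := by exact_mod_cast h5
      nlinarith
    · have hsub : ((S n).filter fun l => tt (g n) l ≤ tt (g n) (c n)) ⊆
          (gr F s (uni G) n).filter fun l => hit (g n) (L n) l ∧ e' * L n < |tt (g n) l| := by
        intro l hl
        rw [Finset.mem_filter] at hl
        have h4 := hl.1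
        rw [hSn, Finset.mem_filter] at h4
        rw [Finset.mem_filter]
        refine ⟨hKG h4.1, h4.2, lt_of_lt_of_le h3 ?_⟩
        have := neg_le_abs (tt (g n) l)
        linarith [hl.2]
      have h5 := Finset.card_le_card hsub
      have h6 : ((((S n).filter fun l => tt (g n) l ≤ tt (g n) (c n)).card : ℕ) : ℝ) ≤
        ((((gr F s (uni G) n).filter fun l => hit (g n) (L n) l ∧
          e' * L n < |tt (g n) l|).card : ℕ) : ℝ) := by exact_mod_cast h5
      nlinarith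
  · filter_upwards [hbas, hpr] with n h1 h2
    obtain ⟨hF1, hSe, hcT, _⟩ := h1
    obtain ⟨hm1, hm2⟩ := hmid n hcT
    have hsub : ((S n).filter fun l => tt (g n) (c n) ≤ tt (g n) l) ⊆
        ((gr F s K n).filter fun l => hit (g n) (L n) l ∧ tt (g n) (c n) ≤ tt (g n) l ∧
          ¬ (l ≠ c n ∧ crb (g n) (L n) (L n) (c n) l)) ∪ pr (g n) (L n) (gr F s K n) (c n) := by
      intro l hl
      rw [Finset.mem_filter] at hl
      have h4 := hl.1
      rw [hSn, Finset.mem_filter] at h4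
      rw [Finset.mem_union]
      by_cases h5 : l ≠ c n ∧ crb (g n) (L n) (L n) (c n) l
      · right
        unfold pr
        rw [Finset.mem_filter]
        exact ⟨h4.1, h5⟩
      · left
        rw [Finset.mem_filter]
        exact ⟨h4.1, h4.2, hl.2, h5⟩
    have h5 := (Finset.card_le_card hsub).trans (Finset.card_union_le _ _)
    have h6 : ((((S n).filter fun l => tt (g n) (c n) ≤ tt (g n) l).card : ℕ) : ℝ) ≤
        ((((gr F s K n).filter fun l => hit (g n) (L n) l ∧ tt (g n) (c n) ≤ tt (g n) l ∧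
          ¬ (l ≠ c n ∧ crb (g n) (L n) (L n) (c n) l)).card : ℕ) : ℝ) +
        (((pr (g n) (L n) (gr F s K n) (c n)).card : ℕ) : ℝ) := by exact_mod_cast h5
    linarith
  · filter_upwards [hbas, hpr] with n h1 h2
    obtain ⟨hF1, hSe, hcT, _⟩ := h1
    obtain ⟨hm1, hm2⟩ := hmid n hcT
    have hsub : ((S n).filter fun l => tt (g n) l ≤ tt (g n) (c n)) ⊆
        ((gr F s K n).filter fun l => hit (g n) (L n) l ∧ tt (g n) l ≤ tt (g n) (c n) ∧
          ¬ (l ≠ c n ∧ crb (g n) (L n) (L n) (c n) l)) ∪ pr (g n) (L n) (gr F s K n) (c n) := by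
      intro l hl
      rw [Finset.mem_filter] at hl
      have h4 := hl.1
      rw [hSn, Finset.mem_filter] at h4
      rw [Finset.mem_union]
      by_cases h5 : l ≠ c n ∧ crb (g n) (L n) (L n) (c n) l
      · right
        unfold pr
        rw [Finset.mem_filter]
        exact ⟨h4.1, h5⟩
      · left
        rw [Finset.mem_filter]
        exact ⟨h4.1, h4.2, hl.2, h5⟩
    have h5 := (Finset.card_le_card hsub).trans (Finset.card_union_le _ _)
    have h6 : ((((S n).filter fun l => tt (g n) l ≤ tt (g n) (c n)).card : ℕ) : ℝ) ≤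
        ((((gr F s K n).filter fun l => hit (g n) (L n) l ∧ tt (g n) l ≤ tt (g n) (c n) ∧
          ¬ (l ≠ c n ∧ crb (g n) (L n) (L n) (c n) l)).card : ℕ) : ℝ) +
        (((pr (g n) (L n) (gr F s K n) (c n)).card : ℕ) : ℝ) := by exact_mod_cast h5
    linarith

end I_PM1

open I_PM1 in
theorem PM1_pf : S_PM1 := by
  intro k U F s g L G V lam hSy hPL
  obtain ⟨K₁, hK₁, K₂, hK₂, hne, hp₁, hp₂⟩ := hPL.two
  obtain ⟨c₁, e₁, he₁, hm₁, ht₁, hu₁, hd₁⟩ := mid hSy hPL hK₁ hp₁
  obtain ⟨c₂, e₂, he₂, hm₂, ht₂, hu₂, hd₂⟩ := mid hSy hPL hK₂ hp₂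
  obtain ⟨D, hD⟩ : ∃ D : ℝ, D = |lam K₁ - lam K₂| := ⟨_, rfl⟩
  have hD0 : 0 < D := by
    rw [hD]
    exact abs_pos.mpr (sub_ne_zero.mpr (hPL.lne K₁ hK₁ K₂ hK₂ hne))
  obtain ⟨M, hM⟩ : ∃ M : ℝ, M = |lam K₁| + |lam K₂| + D := ⟨_, rfl⟩
  have hM0 : 0 < M := by
    rw [hM]
    positivity
  obtain ⟨x₀, hx₀⟩ : ∃ x₀ : ℕ → ℝ, ∀ n, x₀ n =
    (tt (g n) (c₂ n) - tt (g n) (c₁ n)) / (sg (g n) (c₁ n).1 - sg (g n) (c₂ n).1) :=
    ⟨_, fun _ => rfl⟩
  obtain ⟨y₀, hy₀⟩ : ∃ y₀ : ℕ → ℝ, ∀ n, y₀ n = tt (g n) (c₁ n) + sg (g n) (c₁ n).1 * x₀ n :=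
    ⟨_, fun _ => rfl⟩
  -- slopes
  have hsl : ∀ᶠ n in (U : Filter ℕ), be (g n) (c₁ n).1 ≠ 0 ∧ be (g n) (c₂ n).1 ≠ 0 ∧
      |sg (g n) (c₁ n).1| ≤ M ∧ |sg (g n) (c₂ n).1| ≤ M ∧
      D / 2 ≤ |sg (g n) (c₁ n).1 - sg (g n) (c₂ n).1| ∧ (∀ l ∈ gr F s K₁ n, be (g n) l.1 ≠ 0) ∧
      (∀ l ∈ gr F s K₂ n, be (g n) l.1 ≠ 0) ∧ y₀ n = tt (g n) (c₂ n) + sg (g n) (c₂ n).1 * x₀ n := by
    filter_upwards [hor_lines F hPL.hor (D / 4) (by positivity), hm₁, hm₂] with n h1 h2 h3
    obtain ⟨a1, a2⟩ := h1 K₁ hK₁ (c₁ n) h2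
    obtain ⟨b1, b2⟩ := h1 K₂ hK₂ (c₂ n) h3
    have habs : D / 2 ≤ |sg (g n) (c₁ n).1 - sg (g n) (c₂ n).1| := by
      have e1 : lam K₁ - lam K₂ = (sg (g n) (c₁ n).1 - sg (g n) (c₂ n).1) -
          (sg (g n) (c₁ n).1 - lam K₁) + (sg (g n) (c₂ n).1 - lam K₂) := by ring
      have e2 := abs_add_le ((sg (g n) (c₁ n).1 - sg (g n) (c₂ n).1) -
          (sg (g n) (c₁ n).1 - lam K₁)) (sg (g n) (c₂ n).1 - lam K₂)
      have e3 := abs_sub (sg (g n) (c₁ n).1 - sg (g n) (c₂ n).1) (sg (g n) (c₁ n).1 - lam K₁)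
      rw [← e1, ← hD] at e2
      linarith
    refine ⟨a1, b1, ?_, ?_, habs, ?_, ?_, ?_⟩
    · have e2 := abs_add_le (sg (g n) (c₁ n).1 - lam K₁) (lam K₁)
      rw [sub_add_cancel] at e2
      rw [hM]
      linarith [abs_nonneg (lam K₂)]
    · have e2 := abs_add_le (sg (g n) (c₂ n).1 - lam K₂) (lam K₂)
      rw [sub_add_cancel] at e2
      rw [hM]
      linarith [abs_nonneg (lam K₁)]
    · intro l hl
      exact (h1 K₁ hK₁ l hl).1
    · intro l hl
      exact (h1 K₂ hK₂ l hl).1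
    · have hne' : sg (g n) (c₁ n).1 - sg (g n) (c₂ n).1 ≠ 0 := by
        intro h0
        rw [h0, abs_zero] at habs
        linarith
      rw [hy₀, hx₀]
      field_simp
      ring
  -- size of the centre
  have hsz : ∀ e : ℝ, 0 < e → ∀ᶠ n in (U : Filter ℕ), |x₀ n| ≤ e * L n ∧ |y₀ n| ≤ e * L n ∧
      |tt (g n) (c₁ n)| + |sg (g n) (c₁ n).1| * |x₀ n| ≤ e * L n ∧
      |tt (g n) (c₂ n)| + |sg (g n) (c₂ n).1| * |x₀ n| ≤ e * L n := by
    intro e he
    obtain ⟨d, hd⟩ : ∃ d : ℝ, d = e / (1 + 4 * (M + 1) / D) := ⟨_, rfl⟩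
    have hden : 0 < 1 + 4 * (M + 1) / D := by positivity
    have hd0 : 0 < d := by
      rw [hd]
      positivity
    have hde : d + 4 * (M + 1) / D * d = e := by
      rw [hd]
      field_simp
    filter_upwards [hsl, ht₁ d hd0, ht₂ d hd0, hPL.lin 1] with n h1 h2 h3 h4
    obtain ⟨_, _, a3, a4, a5, _, _, a6⟩ := h1
    have hL : 0 < L n := by linarith
    have hx : |x₀ n| ≤ 4 / D * d * L n := by
      rw [hx₀, abs_div, div_le_iff₀ (by linarith)]
      have e1 := abs_sub (tt (g n) (c₂ n)) (tt (g n) (c₁ n))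
      have e2 : 4 / D * d * L n * (D / 2) ≤
          4 / D * d * L n * |sg (g n) (c₁ n).1 - sg (g n) (c₂ n).1| :=
        mul_le_mul_of_nonneg_left a5 (by positivity)
      have e3 : 4 / D * d * L n * (D / 2) = 2 * (d * L n) := by
        field_simp
        ring
      linarith
    have hdL : 0 < d * L n := by positivity
    have hsum : (d + 4 * (M + 1) / D * d) * L n = e * L n := by rw [hde]
    have e4 : 4 * (M + 1) / D * d * L n = M * (4 / D * d * L n) + 4 / D * d * L n := by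
      field_simp
    have e5 : 0 ≤ 4 / D * d * L n := by positivity
    have e6 : 0 ≤ M * (4 / D * d * L n) := by positivity
    have b1 : |sg (g n) (c₁ n).1| * |x₀ n| ≤ M * (4 / D * d * L n) :=
      mul_le_mul a3 hx (abs_nonneg _) hM0.le
    have b2 : |sg (g n) (c₂ n).1| * |x₀ n| ≤ M * (4 / D * d * L n) :=
      mul_le_mul a4 hx (abs_nonneg _) hM0.le
    have hsum' : d * L n + 4 * (M + 1) / D * d * L n = e * L n := by
      rw [← hsum]
      ring
    refine ⟨by linarith, ?_, by linarith, by linarith⟩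
    rw [hy₀]
    refine (abs_add_le _ _).trans ?_
    rw [abs_mul]
    linarith
  refine ⟨K₁, hK₁, K₂, hK₂, hne, x₀, y₀, min e₁ e₂, lt_min he₁ he₂, ?_, ?_⟩
  · intro e he
    filter_upwards [hsz e he] with n hn
    exact ⟨hn.1, hn.2.1⟩
  · rintro K (rfl | rfl)
    · constructor
      · filter_upwards [hsl, hsz 1 one_pos, hu₁, hm₁] with n h1 h2 h3 h4
        obtain ⟨a1, a2, a3, a4, a5, a6, a7, a8⟩ := h1
        obtain ⟨b1, b2, b3, b4⟩ := h2
        rw [one_mul] at b1 b3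
        refine le_trans (mul_le_mul_of_nonneg_right (min_le_left _ _) (Nat.cast_nonneg _)) ?_
        refine h3.trans ?_
        have : ((gr F s K n).filter fun l => hit (g n) (L n) l ∧ tt (g n) (c₁ n) ≤ tt (g n) l ∧
          ¬ (l ≠ c₁ n ∧ crb (g n) (L n) (L n) (c₁ n) l)).card ≤
          ((gr F s K n).filter fun l => hit (g n) (L n) l ∧
            0 ≤ tt (g n) l + sg (g n) l.1 * x₀ n - y₀ n).card := by
          apply Finset.card_le_card
          intro l hl
          rw [Finset.mem_filter] at hl ⊢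
          refine ⟨hl.1, hl.2.1, ?_⟩
          rw [hy₀]
          exact side_ge (a6 l hl.1) a1 b1 b3 hl.2.2.1 hl.2.2.2
        exact_mod_cast this
      · filter_upwards [hsl, hsz 1 one_pos, hd₁, hm₁] with n h1 h2 h3 h4
        obtain ⟨a1, a2, a3, a4, a5, a6, a7, a8⟩ := h1
        obtain ⟨b1, b2, b3, b4⟩ := h2
        rw [one_mul] at b1 b3
        refine le_trans (mul_le_mul_of_nonneg_right (min_le_left _ _) (Nat.cast_nonneg _)) ?_
        refine h3.trans ?_
        have : ((gr F s K n).filter fun l => hit (g n) (L n) l ∧ tt (g n) l ≤ tt (g n) (c₁ n) ∧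
          ¬ (l ≠ c₁ n ∧ crb (g n) (L n) (L n) (c₁ n) l)).card ≤
          ((gr F s K n).filter fun l => hit (g n) (L n) l ∧
            tt (g n) l + sg (g n) l.1 * x₀ n - y₀ n ≤ 0).card := by
          apply Finset.card_le_card
          intro l hl
          rw [Finset.mem_filter] at hl ⊢
          refine ⟨hl.1, hl.2.1, ?_⟩
          rw [hy₀]
          exact side_le (a6 l hl.1) a1 b1 b3 hl.2.2.1 hl.2.2.2
        exact_mod_cast this
    · constructor
      · filter_upwards [hsl, hsz 1 one_pos, hu₂, hm₂] with n h1 h2 h3 h4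
        obtain ⟨a1, a2, a3, a4, a5, a6, a7, a8⟩ := h1
        obtain ⟨b1, b2, b3, b4⟩ := h2
        rw [one_mul] at b1 b4
        refine le_trans (mul_le_mul_of_nonneg_right (min_le_right _ _) (Nat.cast_nonneg _)) ?_
        refine h3.trans ?_
        have : ((gr F s K n).filter fun l => hit (g n) (L n) l ∧ tt (g n) (c₂ n) ≤ tt (g n) l ∧
          ¬ (l ≠ c₂ n ∧ crb (g n) (L n) (L n) (c₂ n) l)).card ≤
          ((gr F s K n).filter fun l => hit (g n) (L n) l ∧
            0 ≤ tt (g n) l + sg (g n) l.1 * x₀ n - y₀ n).card := by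
          apply Finset.card_le_card
          intro l hl
          rw [Finset.mem_filter] at hl ⊢
          refine ⟨hl.1, hl.2.1, ?_⟩
          rw [a8]
          exact side_ge (a7 l hl.1) a2 b1 b4 hl.2.2.1 hl.2.2.2
        exact_mod_cast this
      · filter_upwards [hsl, hsz 1 one_pos, hd₂, hm₂] with n h1 h2 h3 h4
        obtain ⟨a1, a2, a3, a4, a5, a6, a7, a8⟩ := h1
        obtain ⟨b1, b2, b3, b4⟩ := h2
        rw [one_mul] at b1 b4
        refine le_trans (mul_le_mul_of_nonneg_right (min_le_right _ _) (Nat.cast_nonneg _)) ?_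
        refine h3.trans ?_
        have : ((gr F s K n).filter fun l => hit (g n) (L n) l ∧ tt (g n) l ≤ tt (g n) (c₂ n) ∧
          ¬ (l ≠ c₂ n ∧ crb (g n) (L n) (L n) (c₂ n) l)).card ≤
          ((gr F s K n).filter fun l => hit (g n) (L n) l ∧
            tt (g n) l + sg (g n) l.1 * x₀ n - y₀ n ≤ 0).card := by
          apply Finset.card_le_card
          intro l hl
          rw [Finset.mem_filter] at hl ⊢
          refine ⟨hl.1, hl.2.1, ?_⟩
          rw [a8]
          exact side_le (a7 l hl.1) a2 b1 b4 hl.2.2.1 hl.2.2.2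
        exact_mod_cast this

end Pool.Agent.Work.MP_b25393_ag.UU
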