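import Pool.Agent.Work.MP_b25393_ag.UU.StmtsC

/-!
# Item PM2: scale of the planar situation
-/

set_option autoImplicit false

namespace Pool.Agent.Work.MP_b25393_ag.UU

open scoped Classical
open Pool.Agent.Work.MP_b25393_ag.U

namespace I_PM2

/-- `l` meets the box of half side `L / 2` around the new origin `(x, y)` -/
def hh (g : Fr) (x y L : ℝ) (l : ℝ × ℝ) : Prop :=
  ∃ Q : ℝ × ℝ, |Q.1 - x| ≤ L / 2 ∧ |Q.2 - y| ≤ L / 2 ∧ onl g l Q

/-- new position, horizontal type -/
noncomputable def fH (g : Fr) (x y : ℝ) (l : ℝ × ℝ) : ℝ := tt g l + sg g l.1 * x - y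

/-- new position, vertical type -/
noncomputable def fV (g : Fr) (x y : ℝ) (l : ℝ × ℝ) : ℝ := vv g l - x + rh g l.1 * y

theorem hit_iff {g : Fr} {x y W L : ℝ} (hW : 0 < W) (h1 h2 : W ≠ 0) (l : ℝ × ℝ) :
    hit (cmp g (hfr x y W W 0 h1 h2)) (L / (2 * W)) l ↔ hh g x y L l := by
  constructor
  · rintro ⟨P, p1, p2, p3⟩
    rw [onl_hfr] at p3
    refine ⟨_, ?_, ?_, p3⟩
    · simp only
      have e : x + W * P.1 - x = W * P.1 := by ring
      rw [e, abs_mul, abs_of_pos hW]
      calc W * |P.1| ≤ W * (L / (2 * W)) := mul_le_mul_of_nonneg_left p1 hW.le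
        _ = L / 2 := by field_simp
    · simp only
      have e : y + 0 * P.1 + W * P.2 - y = W * P.2 := by ring
      rw [e, abs_mul, abs_of_pos hW]
      calc W * |P.2| ≤ W * (L / (2 * W)) := mul_le_mul_of_nonneg_left p2 hW.le
        _ = L / 2 := by field_simp
  · rintro ⟨Q, q1, q2, q3⟩
    refine ⟨((Q.1 - x) / W, (Q.2 - y) / W), ?_, ?_, ?_⟩
    · simp only
      rw [abs_div, abs_of_pos hW, div_le_div_iff₀ hW (by positivity)]
      nlinarith
    · simp only
      rw [abs_div, abs_of_pos hW, div_le_div_iff₀ hW (by positivity)]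
      nlinarith
    · rw [onl_hfr]
      have e1 : x + W * ((Q.1 - x) / W) = Q.1 := by field_simp; ring
      have e2 : y + 0 * ((Q.1 - x) / W) + W * ((Q.2 - y) / W) = Q.2 := by field_simp; ring
      simp only
      rw [e1, e2]
      exact q3

theorem crb_of {g : Fr} {x y W L : ℝ} (hW : 0 < W) (h1 h2 : W ≠ 0) (hx : |x| ≤ L / 2)
    (hy : |y| ≤ L / 2) {l m : ℝ × ℝ}
    (h : crb (cmp g (hfr x y W W 0 h1 h2)) (L / (2 * W)) (L / (2 * W)) l m) : crb g L L l m := by
  obtain ⟨P, p1, p2, p3, p4⟩ := h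
  rw [onl_hfr] at p3 p4
  have q : W * (L / (2 * W)) = L / 2 := by field_simp
  refine ⟨_, ?_, ?_, p3, p4⟩
  · simp only
    calc |x + W * P.1| ≤ |x| + |W * P.1| := abs_add_le _ _
      _ = |x| + W * |P.1| := by rw [abs_mul, abs_of_pos hW]
      _ ≤ L / 2 + L / 2 := by
        have h3 := mul_le_mul_of_nonneg_left p1 hW.le
        rw [q] at h3
        linarith
      _ = L := by ring
  · simp only
    have e : y + 0 * P.1 + W * P.2 = y + W * P.2 := by ring
    rw [e]
    calc |y + W * P.2| ≤ |y| + |W * P.2| := abs_add_le _ _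
      _ = |y| + W * |P.2| := by rw [abs_mul, abs_of_pos hW]
      _ ≤ L / 2 + L / 2 := by
        have h3 := mul_le_mul_of_nonneg_left p2 hW.le
        rw [q] at h3
        linarith
      _ = L := by ring

theorem hit_of_hh {g : Fr} {x y L : ℝ} (hx : |x| ≤ L / 2) (hy : |y| ≤ L / 2) {l : ℝ × ℝ}
    (h : hh g x y L l) : hit g L l := by
  obtain ⟨Q, q1, q2, q3⟩ := h
  refine ⟨Q, ?_, ?_, q3⟩
  · have e : Q.1 = (Q.1 - x) + x := by ring
    rw [e]
    exact (abs_add_le _ _).trans (by linarith)
  · have e : Q.2 = (Q.2 - y) + y := by ring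
    rw [e]
    exact (abs_add_le _ _).trans (by linarith)

theorem hh_of_small {g : Fr} {x y L : ℝ} (hL : 0 ≤ L) {l : ℝ × ℝ} (hb : be g l.1 ≠ 0)
    (h : |fH g x y l| ≤ L / 2) : hh g x y L l := by
  refine ⟨(x, tt g l + sg g l.1 * x), ?_, ?_, ?_⟩
  · simp only
    rw [sub_self, abs_zero]
    linarith
  · exact h
  · rw [onl_hor hb]

theorem tt_new {g : Fr} {x y W : ℝ} (h1 h2 : W ≠ 0) {l : ℝ × ℝ} (hb : be g l.1 ≠ 0) :
    tt (cmp g (hfr x y W W 0 h1 h2)) l = fH g x y l / W :=
  tt_hfr g x y W W 0 l h1 h2 hb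

theorem vv_new {g : Fr} {x y W : ℝ} (h1 h2 : W ≠ 0) {l : ℝ × ℝ} (ha : al g l.1 ≠ 0) :
    vv (cmp g (hfr x y W W 0 h1 h2)) l = fV g x y l / W := by
  rw [vv_hfr g x y W W 0 l h1 h2 ha (by simpa using h1)]
  unfold fV
  rw [mul_zero, sub_zero]

/-- at most `k` lines have position 0 -/
theorem card_zero {k : ℕ} {F : ℕ → Finset (ℝ × ℝ)} {s : ℕ → Fin k → ℝ} {K : Finset (Fin k)} {n : ℕ}
    {g : Fr} {x y : ℝ} (hb : ∀ l ∈ gr F s K n, be g l.1 ≠ 0) :
    ((gr F s K n).filter fun l => fH g x y l = 0).card ≤ k := by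
  have h1 : ((gr F s K n).filter fun l => fH g x y l = 0).card ≤
      (Finset.univ.image (s n)).card := by
    apply Finset.card_le_card_of_injOn (fun l => l.1)
    · intro l hl
      rw [Finset.mem_coe, Finset.mem_filter, mem_gr] at hl
      obtain ⟨⟨_, i, _, hi⟩, _⟩ := hl
      rw [Finset.mem_coe, Finset.mem_image]
      exact ⟨i, Finset.mem_univ _, hi.symm⟩
    · intro l hl m hm hlm
      rw [Finset.mem_coe, Finset.mem_filter] at hl hm
      simp only at hlm
      have h2 := hl.2
      have h3 := hm.2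
      have hbm := hb m hm.1
      unfold fH tt at h2 h3
      rw [hlm] at h2
      have h4 : ga g l / be g m.1 = ga g m / be g m.1 := by linarith
      have h5 : ga g l = ga g m := by
        field_simp at h4
        exact h4
      unfold ga at h5
      rw [hlm] at h5
      exact Prod.ext hlm (by linarith)
  refine h1.trans (Finset.card_image_le.trans ?_)
  rw [Finset.card_univ, Fintype.card_fin]

section
variable {k : ℕ} {U : Ultrafilter ℕ} {F : ℕ → Finset (ℝ × ℝ)} {s : ℕ → Fin k → ℝ}
  {g : ℕ → Fr} {L : ℕ → ℝ} {G V : Finset (Finset (Fin k))} {lam : Finset (Fin k) → ℝ}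

theorem ev_hor (hP : PL U F s g L G V lam) :
    ∀ᶠ n in (U : Filter ℕ), ∀ l ∈ gr F s (uni G) n,
      be (g n) l.1 ≠ 0 ∧ |sg (g n) l.1| ≤ (∑ K ∈ G, |lam K|) + 1 := by
  filter_upwards [hor_lines F hP.hor 1 one_pos] with n hn l hl
  rw [mem_gr] at hl
  obtain ⟨hF, i, hi, hl1⟩ := hl
  obtain ⟨K, hK, hiK⟩ := mem_uni.mp hi
  obtain ⟨h1, h2⟩ := hn K hK l (mem_gr.mpr ⟨hF, i, hiK, hl1⟩)
  refine ⟨h1, ?_⟩
  have h3 : |lam K| ≤ ∑ K ∈ G, |lam K| :=
    Finset.single_le_sum (f := fun K => |lam K|) (fun _ _ => abs_nonneg _) hK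
  have e : sg (g n) l.1 = (sg (g n) l.1 - lam K) + lam K := by ring
  rw [e]
  exact (abs_add_le _ _).trans (by linarith)

theorem ev_ver (hP : PL U F s g L G V lam) :
    ∀ᶠ n in (U : Filter ℕ), ∀ l ∈ gr F s (uni V) n,
      al (g n) l.1 ≠ 0 ∧ |rh (g n) l.1| ≤ 1 := by
  apply ver_lines F _ 1 one_pos
  intro i hi
  obtain ⟨K, hK, hiK⟩ := mem_uni.mp hi
  exact hP.ver K hK i hiK

theorem farH (hP : PL U F s g L G V lam) {x y : ℕ → ℝ}
    (hxy : ∀ e : ℝ, 0 < e → ∀ᶠ n in (U : Filter ℕ), |x n| ≤ e * L n ∧ |y n| ≤ e * L n)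
    (e : ℝ) (he : 0 < e) :
    Neg U F fun n => ((gr F s (uni G) n).filter fun l => hit (g n) (L n) l ∧
      e * L n < |fH (g n) (x n) (y n) l|).card := by
  set Λ : ℝ := (∑ K ∈ G, |lam K|) + 1 with hΛ
  have hΛ0 : 0 < Λ := by
    have : 0 ≤ ∑ K ∈ G, |lam K| := Finset.sum_nonneg fun _ _ => abs_nonneg _
    linarith
  refine (hP.ctH (e / 2) (by linarith)).mono ?_
  filter_upwards [ev_hor hP, hxy (e / (2 * (Λ + 1))) (by positivity), hP.lin 1] with n h1 h2 h3
  apply Finset.card_le_card
  intro l hl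
  rw [Finset.mem_filter] at hl ⊢
  obtain ⟨hl1, hl2, hl3⟩ := hl
  refine ⟨hl1, hl2, ?_⟩
  obtain ⟨_, h4⟩ := h1 l hl1
  obtain ⟨h5, h6⟩ := h2
  have h7 : |fH (g n) (x n) (y n) l| ≤ |tt (g n) l| + Λ * (e / (2 * (Λ + 1)) * L n) +
      e / (2 * (Λ + 1)) * L n := by
    unfold fH
    calc |tt (g n) l + sg (g n) l.1 * x n - y n|
        ≤ |tt (g n) l + sg (g n) l.1 * x n| + |y n| := abs_sub _ _
      _ ≤ |tt (g n) l| + |sg (g n) l.1 * x n| + |y n| := by
          gcongr
          exact abs_add_le _ _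
      _ = |tt (g n) l| + |sg (g n) l.1| * |x n| + |y n| := by rw [abs_mul]
      _ ≤ _ := by gcongr
  have h8 : Λ * (e / (2 * (Λ + 1)) * L n) + e / (2 * (Λ + 1)) * L n = e / 2 * L n := by
    field_simp
  linarith

theorem farV (hP : PL U F s g L G V lam) {x y : ℕ → ℝ}
    (hxy : ∀ e : ℝ, 0 < e → ∀ᶠ n in (U : Filter ℕ), |x n| ≤ e * L n ∧ |y n| ≤ e * L n)
    (e : ℝ) (he : 0 < e) :
    Neg U F fun n => ((gr F s (uni V) n).filter fun l => hit (g n) (L n) l ∧
      e * L n < |fV (g n) (x n) (y n) l|).card := by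
  refine (hP.ctV (e / 2) (by linarith)).mono ?_
  filter_upwards [ev_ver hP, hxy (e / 4) (by positivity), hP.lin 1] with n h1 h2 h3
  apply Finset.card_le_card
  intro l hl
  rw [Finset.mem_filter] at hl ⊢
  obtain ⟨hl1, hl2, hl3⟩ := hl
  refine ⟨hl1, hl2, ?_⟩
  obtain ⟨_, h4⟩ := h1 l hl1
  obtain ⟨h5, h6⟩ := h2
  have h7 : |fV (g n) (x n) (y n) l| ≤ |vv (g n) l| + e / 4 * L n + 1 * (e / 4 * L n) := by
    unfold fV
    calc |vv (g n) l - x n + rh (g n) l.1 * y n|
        ≤ |vv (g n) l - x n| + |rh (g n) l.1 * y n| := abs_add_le _ _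
      _ ≤ |vv (g n) l| + |x n| + |rh (g n) l.1 * y n| := by
          gcongr
          exact abs_sub _ _
      _ = |vv (g n) l| + |x n| + |rh (g n) l.1| * |y n| := by rw [abs_mul]
      _ ≤ _ := by gcongr
  linarith

theorem sub_uni {K : Finset (Fin k)} (hK : K ∈ G) (n : ℕ) : gr F s K n ⊆ gr F s (uni G) n :=
  gr_mono (fun _ hi => mem_uni.mpr ⟨K, hK, hi⟩) n

/-- the sets of lines meeting the new box -/
noncomputable def SS (F : ℕ → Finset (ℝ × ℝ)) (s : ℕ → Fin k → ℝ) (V : Finset (Finset (Fin k)))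
    (g : Fr) (x y L : ℝ) (n : ℕ) : Option (Finset (Fin k)) → Finset (ℝ × ℝ)
  | none => (gr F s (uni V) n).filter fun l => hh g x y L l
  | some K => (gr F s K n).filter fun l => hh g x y L l

/-- the new positions -/
noncomputable def ff (g : Fr) (x y : ℝ) : Option (Finset (Fin k)) → ℝ × ℝ → ℝ
  | none => fV g x y
  | some _ => fH g x y

end

end I_PM2

open I_PM2

theorem PM2_pf (hSCW : S_SCW) (hPM1 : S_PM1) : S_PM2 := by
  intro k U F s g L G V lam hSy hP
  obtain ⟨K₁, hK₁, K₂, hK₂, hne, x, y, e₀, he₀, hxy, hpm⟩ := hPM1 k U F s g L G V lam hSy hP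
  set θ : ℝ := e₀ / (80 * ((k : ℝ) + 1)) with hθ
  have hk1 : (0 : ℝ) < (k : ℝ) + 1 := by positivity
  have hθ0 : 0 < θ := by positivity
  have hθk : 80 * (((k : ℝ) + 1) * θ) = e₀ := by
    rw [hθ]; field_simp
  have hθ1 : 80 * θ ≤ e₀ := by
    have : (0 : ℝ) ≤ k := by positivity
    nlinarith
  -- the index set
  set I : Finset (Option (Finset (Fin k))) := insert none (G.image some) with hI
  have hIn : none ∈ I := Finset.mem_insert_self _ _
  have hIs : ∀ K ∈ G, some K ∈ I := fun K hK =>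
    Finset.mem_insert_of_mem (Finset.mem_image_of_mem _ hK)
  have hW : ∀ n, ∃ W : ℝ, 0 < W ∧
      ((∃ i ∈ I, θ * ((F n).card : ℝ) < (((SS F s V (g n) (x n) (y n) (L n) n i).filter
          fun l => ff (g n) (x n) (y n) i l ≠ 0).card : ℝ)) →
        (∀ i ∈ I, (((SS F s V (g n) (x n) (y n) (L n) n i).filter
          fun l => W < |ff (g n) (x n) (y n) i l|).card : ℝ) ≤ θ * ((F n).card : ℝ)) ∧
        ∃ i ∈ I, θ * ((F n).card : ℝ) < (((SS F s V (g n) (x n) (y n) (L n) n i).filter
          fun l => W ≤ |ff (g n) (x n) (y n) i l|).card : ℝ)) := by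
    intro n
    by_cases h : ∃ i ∈ I, θ * ((F n).card : ℝ) < (((SS F s V (g n) (x n) (y n) (L n) n i).filter
          fun l => ff (g n) (x n) (y n) i l ≠ 0).card : ℝ)
    · obtain ⟨W, h1, h2, h3⟩ := hSCW (Option (Finset (Fin k))) I
        (SS F s V (g n) (x n) (y n) (L n) n) (ff (g n) (x n) (y n)) (θ * ((F n).card : ℝ))
        (by positivity) h
      exact ⟨W, h1, fun _ => ⟨h2, h3⟩⟩
    · exact ⟨1, one_pos, fun h' => absurd h' h⟩
  choose W hW0 hW1 using hW
  have evH := ev_hor hP
  have evV := ev_ver hP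
  have hsm : ∀ᶠ n in (U : Filter ℕ), |x n| ≤ L n / 2 ∧ |y n| ≤ L n / 2 := by
    filter_upwards [hxy (1 / 2) (by norm_num)] with n h
    exact ⟨by linarith [h.1], by linarith [h.2]⟩
  have hhit : ∀ᶠ n in (U : Filter ℕ), ∀ l, hh (g n) (x n) (y n) (L n) l → hit (g n) (L n) l := by
    filter_upwards [hsm] with n h l hl
    exact hit_of_hh h.1 h.2 hl
  -- lines meeting the old box with a property meet the new box, up to `Neg`
  have hspl : ∀ᶠ n in (U : Filter ℕ), ∀ K ∈ G, ∀ (p p' : ℝ × ℝ → Prop),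
      (∀ l ∈ gr F s K n, be (g n) l.1 ≠ 0 → p l → p' l) →
      ((gr F s K n).filter fun l => hit (g n) (L n) l ∧ p l).card ≤
        ((gr F s K n).filter fun l => hh (g n) (x n) (y n) (L n) l ∧ p' l).card +
        ((gr F s (uni G) n).filter fun l => hit (g n) (L n) l ∧
          1 / 2 * L n < |fH (g n) (x n) (y n) l|).card := by
    filter_upwards [evH, hP.lin 1] with n h1 h2 K hK p p' hpp
    refine le_trans (Finset.card_le_card ?_) (Finset.card_union_le _ _)
    intro l hl
    rw [Finset.mem_filter] at hl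
    obtain ⟨hl1, hl2, hl3⟩ := hl
    rw [Finset.mem_union, Finset.mem_filter, Finset.mem_filter]
    have hb := (h1 l (sub_uni hK n hl1)).1
    by_cases hc : |fH (g n) (x n) (y n) l| ≤ L n / 2
    · left
      exact ⟨hl1, hh_of_small (by linarith) hb hc, hpp l hl1 hb hl3⟩
    · right
      refine ⟨sub_uni hK n hl1, hl2, ?_⟩
      push Not at hc
      linarith
  have hfar := farH hP hxy (1 / 2) (by norm_num)
  have hSK : ∀ K, (K = K₁ ∨ K = K₂) → ∀ᶠ n in (U : Filter ℕ), e₀ / 2 * ((F n).card : ℝ) ≤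
      ((SS F s V (g n) (x n) (y n) (L n) n (some K)).card : ℝ) := by
    intro K hK
    have hKG : K ∈ G := by rcases hK with rfl | rfl <;> assumption
    filter_upwards [(hpm K hK).1, hspl, hfar (e₀ / 2) (by linarith)] with n h1 h2 h3
    have h4 := h2 K hKG (fun l => 0 ≤ tt (g n) l + sg (g n) l.1 * x n - y n)
      (fun l => 0 ≤ tt (g n) l + sg (g n) l.1 * x n - y n) (fun _ _ _ h => h)
    have h6 : ((gr F s K n).filter fun l => hh (g n) (x n) (y n) (L n) l ∧
        0 ≤ tt (g n) l + sg (g n) l.1 * x n - y n).card ≤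
        (SS F s V (g n) (x n) (y n) (L n) n (some K)).card := by
      apply Finset.card_le_card
      intro l hl
      rw [Finset.mem_filter] at hl
      exact Finset.mem_filter.mpr ⟨hl.1, hl.2.1⟩
    have h5 : (((gr F s K n).filter fun l => hit (g n) (L n) l ∧
        0 ≤ tt (g n) l + sg (g n) l.1 * x n - y n).card : ℝ) ≤
        ((SS F s V (g n) (x n) (y n) (L n) n (some K)).card : ℝ) +
        (((gr F s (uni G) n).filter fun l => hit (g n) (L n) l ∧
          1 / 2 * L n < |fH (g n) (x n) (y n) l|).card : ℝ) := by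
      exact_mod_cast h4.trans (Nat.add_le_add_right h6 _)
    linarith
  -- the scale
  have hev : ∀ᶠ n in (U : Filter ℕ),
        (∀ i ∈ I, (((SS F s V (g n) (x n) (y n) (L n) n i).filter
          fun l => W n < |ff (g n) (x n) (y n) i l|).card : ℝ) ≤ θ * ((F n).card : ℝ)) ∧
        ∃ i ∈ I, θ * ((F n).card : ℝ) < (((SS F s V (g n) (x n) (y n) (L n) n i).filter
          fun l => W n ≤ |ff (g n) (x n) (y n) i l|).card : ℝ) := by
    obtain ⟨N, hN⟩ := exists_nat_gt (4 * (k : ℝ) / e₀)
    filter_upwards [hSK K₁ (Or.inl rfl), hSy.inf N, evH] with n h1 h2 h3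
    apply hW1 n
    refine ⟨some K₁, hIs K₁ hK₁, ?_⟩
    have h4 : (SS F s V (g n) (x n) (y n) (L n) n (some K₁)).card ≤
        ((SS F s V (g n) (x n) (y n) (L n) n (some K₁)).filter
          fun l => ff (g n) (x n) (y n) (some K₁) l ≠ 0).card +
        ((gr F s K₁ n).filter fun l => fH (g n) (x n) (y n) l = 0).card := by
      refine le_trans (Finset.card_le_card ?_) (Finset.card_union_le _ _)
      intro l hl
      rw [Finset.mem_union, Finset.mem_filter, Finset.mem_filter]
      by_cases hc : fH (g n) (x n) (y n) l = 0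
      · right
        exact ⟨(Finset.mem_filter.mp hl).1, hc⟩
      · left
        exact ⟨hl, hc⟩
    have h5 : ((gr F s K₁ n).filter fun l => fH (g n) (x n) (y n) l = 0).card ≤ k :=
      card_zero fun l hl => (h3 l (sub_uni hK₁ n hl)).1
    have h6 : ((SS F s V (g n) (x n) (y n) (L n) n (some K₁)).card : ℝ) ≤
        (((SS F s V (g n) (x n) (y n) (L n) n (some K₁)).filter
          fun l => ff (g n) (x n) (y n) (some K₁) l ≠ 0).card : ℝ) + (k : ℝ) := by
      exact_mod_cast h4.trans (Nat.add_le_add_left h5 _)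
    have h7 : (k : ℝ) < e₀ / 4 * ((F n).card : ℝ) := by
      have h8 : 4 * (k : ℝ) / e₀ < ((F n).card : ℝ) := by
        have : (N : ℝ) ≤ ((F n).card : ℝ) := by exact_mod_cast h2
        linarith
      rw [div_lt_iff₀ he₀] at h8
      linarith
    have h9 : θ * ((F n).card : ℝ) ≤ e₀ / 4 * ((F n).card : ℝ) := by
      apply mul_le_mul_of_nonneg_right _ (by positivity)
      linarith
    linarith
  have hWs : ∀ e : ℝ, 0 < e → ∀ᶠ n in (U : Filter ℕ), W n ≤ e * L n := by
    intro e he
    filter_upwards [farH hP hxy e he θ hθ0, farV hP hxy e he θ hθ0, hev, hhit] with n h1 h2 h3 h4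
    by_contra hc
    push Not at hc
    obtain ⟨i, hi, h5⟩ := h3.2
    rw [hI, Finset.mem_insert, Finset.mem_image] at hi
    rcases hi with rfl | ⟨K, hK, rfl⟩
    · have h6 : ((SS F s V (g n) (x n) (y n) (L n) n none).filter
          fun l => W n ≤ |ff (g n) (x n) (y n) (none : Option (Finset (Fin k))) l|).card ≤
          ((gr F s (uni V) n).filter fun l => hit (g n) (L n) l ∧
            e * L n < |fV (g n) (x n) (y n) l|).card := by
        apply Finset.card_le_card
        intro l hl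
        rw [Finset.mem_filter] at hl
        obtain ⟨hl1, hl2⟩ := hl
        obtain ⟨hl3, hl4⟩ := Finset.mem_filter.mp hl1
        rw [Finset.mem_filter]
        exact ⟨hl3, h4 l hl4, lt_of_lt_of_le hc hl2⟩
      have h7 : (((SS F s V (g n) (x n) (y n) (L n) n none).filter
          fun l => W n ≤ |ff (g n) (x n) (y n) (none : Option (Finset (Fin k))) l|).card : ℝ) ≤
          (((gr F s (uni V) n).filter fun l => hit (g n) (L n) l ∧
            e * L n < |fV (g n) (x n) (y n) l|).card : ℝ) := by exact_mod_cast h6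
      linarith
    · have h6 : ((SS F s V (g n) (x n) (y n) (L n) n (some K)).filter
          fun l => W n ≤ |ff (g n) (x n) (y n) (some K) l|).card ≤
          ((gr F s (uni G) n).filter fun l => hit (g n) (L n) l ∧
            e * L n < |fH (g n) (x n) (y n) l|).card := by
        apply Finset.card_le_card
        intro l hl
        rw [Finset.mem_filter] at hl
        obtain ⟨hl1, hl2⟩ := hl
        obtain ⟨hl3, hl4⟩ := Finset.mem_filter.mp hl1
        rw [Finset.mem_filter]
        exact ⟨sub_uni hK n hl3, h4 l hl4, lt_of_lt_of_le hc hl2⟩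
      have h7 : (((SS F s V (g n) (x n) (y n) (L n) n (some K)).filter
          fun l => W n ≤ |ff (g n) (x n) (y n) (some K) l|).card : ℝ) ≤
          (((gr F s (uni G) n).filter fun l => hit (g n) (L n) l ∧
            e * L n < |fH (g n) (x n) (y n) l|).card : ℝ) := by exact_mod_cast h6
      linarith
  have hWn : ∀ n, W n ≠ 0 := fun n => (hW0 n).ne'
  -- the new frames
  obtain ⟨g', hg'⟩ : ∃ g' : ℕ → Fr, g' = fun n =>
    cmp (g n) (hfr (x n) (y n) (W n) (W n) 0 (hWn n) (hWn n)) := ⟨_, rfl⟩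
  obtain ⟨L', hL'⟩ : ∃ L' : ℕ → ℝ, L' = fun n => L n / (2 * W n) := ⟨_, rfl⟩
  have hh' : ∀ n l, hit (g' n) (L' n) l ↔ hh (g n) (x n) (y n) (L n) l := by
    intro n l
    rw [hg', hL']
    exact hit_iff (hW0 n) _ _ l
  have htt : ∀ n l, be (g n) l.1 ≠ 0 → tt (g' n) l = fH (g n) (x n) (y n) l / W n := by
    intro n l hb
    rw [hg']
    exact tt_new _ _ hb
  have hvv : ∀ n l, al (g n) l.1 ≠ 0 → vv (g' n) l = fV (g n) (x n) (y n) l / W n := by
    intro n l hb
    rw [hg']
    exact vv_new _ _ hb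
  have hlin : ∀ M : ℝ, ∀ᶠ n in (U : Filter ℕ), M ≤ L' n := by
    intro M
    filter_upwards [hWs (1 / (2 * (|M| + 1))) (by positivity)] with n h1
    rw [hL']
    have h2 : |M| + 1 ≤ L n / (2 * W n) := by
      rw [le_div_iff₀ (by linarith [hW0 n])]
      have h3 : (|M| + 1) * (2 * W n) ≤
          (|M| + 1) * (2 * (1 / (2 * (|M| + 1)) * L n)) := by gcongr
      have h4 : (|M| + 1) * (2 * (1 / (2 * (|M| + 1)) * L n)) = L n := by field_simp
      linarith
    have h3 := le_abs_self M
    show M ≤ L n / (2 * W n)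
    linarith
  have hhor : ∀ K ∈ G, ∀ i ∈ K, Hor U s g' (lam K) i := by
    intro K hK i hi
    rw [hg']
    refine hor_hfr (c := fun _ => 0) hWn hWn (hP.hor K hK i hi) ?_ 1 ?_
    · intro e he
      filter_upwards with n
      have e1 : W n * lam K - 0 - lam K * W n = 0 := by ring
      rw [e1, abs_zero]
      positivity
    · filter_upwards with n
      rw [one_mul]
  have hver : ∀ K ∈ V, ∀ i ∈ K, Ver U s g' i := by
    intro K hK i hi
    rw [hg']
    refine ver_hfr (c := fun _ => 0) hWn hWn (hP.ver K hK i hi) 1 ?_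
    filter_upwards with n
    rw [one_mul, abs_zero]
    exact ⟨le_rfl, abs_nonneg _⟩
  have hctH : ∀ e : ℝ, 0 < e → Neg U F fun n =>
      ((gr F s (uni G) n).filter fun l => hit (g' n) (L' n) l ∧ e * L' n < |tt (g' n) l|).card := by
    intro e he
    refine (farH hP hxy (e / 2) (by linarith)).mono ?_
    filter_upwards [hhit, evH] with n h1 h2
    apply Finset.card_le_card
    intro l hl
    rw [Finset.mem_filter] at hl ⊢
    obtain ⟨hl1, hl2, hl3⟩ := hl
    refine ⟨hl1, h1 l ((hh' n l).mp hl2), ?_⟩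
    rw [htt n l (h2 l hl1).1, hL', abs_div, abs_of_pos (hW0 n), lt_div_iff₀ (hW0 n)] at hl3
    have e1 : e * (L n / (2 * W n)) * W n = e / 2 * L n := by
      have := hWn n
      field_simp
    simp only at hl3
    rw [e1] at hl3
    exact hl3
  have hctV : ∀ e : ℝ, 0 < e → Neg U F fun n =>
      ((gr F s (uni V) n).filter fun l => hit (g' n) (L' n) l ∧ e * L' n < |vv (g' n) l|).card := by
    intro e he
    refine (farV hP hxy (e / 2) (by linarith)).mono ?_
    filter_upwards [hhit, evV] with n h1 h2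
    apply Finset.card_le_card
    intro l hl
    rw [Finset.mem_filter] at hl ⊢
    obtain ⟨hl1, hl2, hl3⟩ := hl
    refine ⟨hl1, h1 l ((hh' n l).mp hl2), ?_⟩
    rw [hvv n l (h2 l hl1).1, hL', abs_div, abs_of_pos (hW0 n), lt_div_iff₀ (hW0 n)] at hl3
    have e1 : e * (L n / (2 * W n)) * W n = e / 2 * L n := by
      have := hWn n
      field_simp
    simp only at hl3
    rw [e1] at hl3
    exact hl3
  have hpos : ∀ K, (K = K₁ ∨ K = K₂) →
      (Pos U F fun n => ((gr F s K n).filter fun l => hit (g' n) (L' n) l ∧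
        0 ≤ tt (g' n) l).card) ∧
      Pos U F fun n => ((gr F s K n).filter fun l => hit (g' n) (L' n) l ∧
        tt (g' n) l ≤ 0).card := by
    intro K hK
    have hKG : K ∈ G := by rcases hK with rfl | rfl <;> assumption
    constructor
    · refine Pos.of_le_add (a := fun n => ((gr F s K n).filter fun l => hit (g n) (L n) l ∧
          0 ≤ tt (g n) l + sg (g n) l.1 * x n - y n).card) ⟨e₀, he₀, (hpm K hK).1⟩ hfar ?_
      filter_upwards [hspl] with n h1
      have h2 := h1 K hKG (fun l => 0 ≤ tt (g n) l + sg (g n) l.1 * x n - y n)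
        (fun l => 0 ≤ tt (g' n) l) (by
          intro l _ hb hl
          rw [htt n l hb]
          exact div_nonneg hl (hW0 n).le)
      simp only [hh']
      exact h2
    · refine Pos.of_le_add (a := fun n => ((gr F s K n).filter fun l => hit (g n) (L n) l ∧
          tt (g n) l + sg (g n) l.1 * x n - y n ≤ 0).card) ⟨e₀, he₀, (hpm K hK).2⟩ hfar ?_
      filter_upwards [hspl] with n h1
      have h2 := h1 K hKG (fun l => tt (g n) l + sg (g n) l.1 * x n - y n ≤ 0)
        (fun l => tt (g' n) l ≤ 0) (by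
          intro l _ hb hl
          rw [htt n l hb]
          exact div_nonpos_of_nonpos_of_nonneg hl (hW0 n).le)
      simp only [hh']
      exact h2
  have hb : ∀ K, (K = K₁ ∨ K = K₂) → ∀ᶠ n in (U : Filter ℕ),
      32 * ((k : ℝ) + 1) * θ * ((F n).card : ℝ) ≤
        (((gr F s K n).filter fun l => |tt (g' n) l| ≤ 1).card : ℝ) := by
    intro K hK
    have hKG : K ∈ G := by rcases hK with rfl | rfl <;> assumption
    filter_upwards [hSK K hK, hev, evH] with n h1 h2 h3
    have h4 : (SS F s V (g n) (x n) (y n) (L n) n (some K)).card ≤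
        ((gr F s K n).filter fun l => |tt (g' n) l| ≤ 1).card +
        ((SS F s V (g n) (x n) (y n) (L n) n (some K)).filter
          fun l => W n < |ff (g n) (x n) (y n) (some K) l|).card := by
      refine le_trans (Finset.card_le_card ?_) (Finset.card_union_le _ _)
      intro l hl
      rw [Finset.mem_union, Finset.mem_filter, Finset.mem_filter]
      have hl1 := (Finset.mem_filter.mp hl).1
      by_cases hc : W n < |ff (g n) (x n) (y n) (some K) l|
      · right
        exact ⟨hl, hc⟩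
      · left
        refine ⟨hl1, ?_⟩
        push Not at hc
        rw [htt n l (h3 l (sub_uni hKG n hl1)).1, abs_div, abs_of_pos (hW0 n),
          div_le_one (hW0 n)]
        exact hc
    have h5 := h2.1 (some K) (hIs K hKG)
    have h6 : ((SS F s V (g n) (x n) (y n) (L n) n (some K)).card : ℝ) ≤
        (((gr F s K n).filter fun l => |tt (g' n) l| ≤ 1).card : ℝ) +
        (((SS F s V (g n) (x n) (y n) (L n) n (some K)).filter
          fun l => W n < |ff (g n) (x n) (y n) (some K) l|).card : ℝ) := by exact_mod_cast h4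
    have h7 : 32 * ((k : ℝ) + 1) * θ * ((F n).card : ℝ) ≤ (e₀ / 2 - θ) * ((F n).card : ℝ) := by
      apply mul_le_mul_of_nonneg_right _ (by positivity)
      have : (0 : ℝ) ≤ k * θ := by positivity
      nlinarith
    linarith
  have hbig : ∃ i ∈ I, ∀ᶠ n in (U : Filter ℕ), θ * ((F n).card : ℝ) <
      (((SS F s V (g n) (x n) (y n) (L n) n i).filter
          fun l => W n ≤ |ff (g n) (x n) (y n) i l|).card : ℝ) := by
    by_contra hcon
    have h1 : ∀ i ∈ I, ∀ᶠ n in (U : Filter ℕ), ¬ (θ * ((F n).card : ℝ) <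
      (((SS F s V (g n) (x n) (y n) (L n) n i).filter
          fun l => W n ≤ |ff (g n) (x n) (y n) i l|).card : ℝ)) := fun i hi =>
        Ultrafilter.eventually_not.mpr fun h => hcon ⟨i, hi, h⟩
    have h2 := (Filter.eventually_all_finset I).mpr h1
    obtain ⟨n, h3, h4⟩ := (h2.and hev).exists
    obtain ⟨i, hi, h5⟩ := h4.2
    exact h3 i hi h5
  refine ⟨g', L', K₁, K₂, θ, ?_⟩
  exact
  { lin := hlin
    dis := hP.dis
    dGV := hP.dGV
    hor := hhor
    lne := hP.lne
    ver := hver
    con := by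
      refine hP.con.mono ?_
      filter_upwards [hhit] with n h1
      apply Finset.card_le_card
      intro l hl
      rw [Finset.mem_filter] at hl ⊢
      exact ⟨hl.1, hl.2.1, h1 l ((hh' n l).mp hl.2.2)⟩
    cr := by
      intro K hK
      refine (hP.cr K hK).mono ?_
      filter_upwards [hsm] with n h1
      apply Finset.card_le_card
      intro q hq
      rw [Finset.mem_filter] at hq ⊢
      refine ⟨hq.1, hq.2.1, ?_⟩
      have h2 := hq.2.2
      rw [hg', hL'] at h2
      exact crb_of (hW0 n) _ _ h1.1 h1.2 h2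
    sep := hP.sep
    ctH := hctH
    ctV := hctV
    two := by
      refine ⟨K₁, hK₁, K₂, hK₂, hne, ?_, ?_⟩
      · refine (hpos K₁ (Or.inl rfl)).1.mono ?_
        filter_upwards with n
        apply Finset.card_le_card
        intro l hl
        rw [Finset.mem_filter] at hl ⊢
        exact ⟨hl.1, hl.2.1⟩
      · refine (hpos K₂ (Or.inr rfl)).1.mono ?_
        filter_upwards with n
        apply Finset.card_le_card
        intro l hl
        rw [Finset.mem_filter] at hl ⊢
        exact ⟨hl.1, hl.2.1⟩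
    th := hθ0
    k1 := hK₁
    k2 := hK₂
    kn := hne
    p1 := (hpos K₁ (Or.inl rfl)).1
    m1 := (hpos K₁ (Or.inl rfl)).2
    p2 := (hpos K₂ (Or.inr rfl)).1
    m2 := (hpos K₂ (Or.inr rfl)).2
    oG := by
      intro K hK
      filter_upwards [hev, evH] with n h1 h2
      refine le_trans ?_ (h1.1 (some K) (hIs K hK))
      have h3 : ((gr F s K n).filter fun l => hit (g' n) (L' n) l ∧ 1 < |tt (g' n) l|).card ≤
          ((SS F s V (g n) (x n) (y n) (L n) n (some K)).filter
            fun l => W n < |ff (g n) (x n) (y n) (some K) l|).card := by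
        apply Finset.card_le_card
        intro l hl
        rw [Finset.mem_filter] at hl ⊢
        obtain ⟨hl1, hl2, hl3⟩ := hl
        rw [htt n l (h2 l (sub_uni hK n hl1)).1, abs_div, abs_of_pos (hW0 n),
          one_lt_div (hW0 n)] at hl3
        exact ⟨Finset.mem_filter.mpr ⟨hl1, (hh' n l).mp hl2⟩, hl3⟩
      exact_mod_cast h3
    oV := by
      filter_upwards [hev, evV] with n h1 h2
      refine le_trans ?_ (h1.1 none hIn)
      have h3 : ((gr F s (uni V) n).filter
          fun l => hit (g' n) (L' n) l ∧ 1 < |vv (g' n) l|).card ≤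
          ((SS F s V (g n) (x n) (y n) (L n) n none).filter
            fun l => W n < |ff (g n) (x n) (y n) (none : Option (Finset (Fin k))) l|).card := by
        apply Finset.card_le_card
        intro l hl
        rw [Finset.mem_filter] at hl ⊢
        obtain ⟨hl1, hl2, hl3⟩ := hl
        rw [hvv n l (h2 l hl1).1, abs_div, abs_of_pos (hW0 n), one_lt_div (hW0 n)] at hl3
        exact ⟨Finset.mem_filter.mpr ⟨hl1, (hh' n l).mp hl2⟩, hl3⟩
      exact_mod_cast h3
    b1 := hb K₁ (Or.inl rfl)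
    b2 := hb K₂ (Or.inr rfl)
    big := by
      obtain ⟨i, hi, h1⟩ := hbig
      rw [hI, Finset.mem_insert, Finset.mem_image] at hi
      rcases hi with rfl | ⟨K, hK, rfl⟩
      · right
        filter_upwards [h1, evV] with n h2 h3
        refine h2.le.trans ?_
        have h4 : ((SS F s V (g n) (x n) (y n) (L n) n none).filter
            fun l => W n ≤ |ff (g n) (x n) (y n) (none : Option (Finset (Fin k))) l|).card ≤
            ((gr F s (uni V) n).filter
              fun l => hit (g' n) (L' n) l ∧ 1 ≤ |vv (g' n) l|).card := by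
          apply Finset.card_le_card
          intro l hl
          rw [Finset.mem_filter] at hl
          obtain ⟨hl1, hl2⟩ := hl
          obtain ⟨hl3, hl4⟩ := Finset.mem_filter.mp hl1
          rw [Finset.mem_filter]
          refine ⟨hl3, (hh' n l).mpr hl4, ?_⟩
          rw [hvv n l (h3 l hl3).1, abs_div, abs_of_pos (hW0 n), one_le_div (hW0 n)]
          exact hl2
        exact_mod_cast h4
      · left
        refine ⟨K, hK, ?_⟩
        filter_upwards [h1, evH] with n h2 h3
        refine h2.le.trans ?_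
        have h4 : ((SS F s V (g n) (x n) (y n) (L n) n (some K)).filter
            fun l => W n ≤ |ff (g n) (x n) (y n) (some K) l|).card ≤
            ((gr F s K n).filter
              fun l => hit (g' n) (L' n) l ∧ 1 ≤ |tt (g' n) l|).card := by
          apply Finset.card_le_card
          intro l hl
          rw [Finset.mem_filter] at hl
          obtain ⟨hl1, hl2⟩ := hl
          obtain ⟨hl3, hl4⟩ := Finset.mem_filter.mp hl1
          rw [Finset.mem_filter]
          refine ⟨hl3, (hh' n l).mpr hl4, ?_⟩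
          rw [htt n l (h3 l (sub_uni hK n hl3)).1, abs_div, abs_of_pos (hW0 n),
            one_le_div (hW0 n)]
          exact hl2
        exact_mod_cast h4 }

end Pool.Agent.Work.MP_b25393_ag.UU
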