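import Pool.Agent.Work.MP_b25393_ag.UU.StmtsB

/-!
# Item PRF: the support has points outside every finite set
-/

set_option autoImplicit false

namespace Pool.Agent.Work.MP_b25393_ag.UU

open scoped Classical
open Pool.Agent.Work.MP_b25393_ag.U

theorem PRF_pf (hSPT : S_SPT) : S_PRF := by
  intro U F G p hF h0 hat X
  obtain ⟨a, ha, hpos⟩ := h0 (1 / 4) (by norm_num)
  set e : ℝ := a / (2 * ((X.card : ℝ) + 1)) with he
  have hX : (0 : ℝ) < (X.card : ℝ) + 1 := by positivity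
  have he0 : 0 < e := by positivity
  have hρ : ∀ x : ℝ, ∃ ρ : ℝ, 0 < ρ ∧ ∀ᶠ n in (U : Filter ℕ),
      (((G n).filter fun l => p n l ∈ Set.Icc (-(1 / 4) : ℝ) (1 / 4) ∩
        Set.Ioo (x - ρ) (x + ρ)).card : ℝ) ≤ e * ((F n).card : ℝ) := by
    intro x
    by_cases hx : |x| < 1 / 2
    · have h1 := hat x hx
      unfold Atm at h1
      push Not at h1
      obtain ⟨η, hη, h2⟩ := h1 e he0
      refine ⟨η, hη, ?_⟩
      have h3 : ∀ᶠ n in (U : Filter ℕ), ¬ (e * ((F n).card : ℝ) ≤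
          (cn G p (x - η) (x + η) n : ℝ)) := Ultrafilter.eventually_not.2 (by
        simpa [Filter.not_eventually] using h2)
      filter_upwards [h3] with n hn
      push Not at hn
      refine le_trans ?_ hn.le
      unfold cn
      norm_cast
      refine Finset.card_le_card fun l hl => ?_
      rw [Finset.mem_filter] at hl ⊢
      exact ⟨hl.1, hl.2.2.1.le, hl.2.2.2.le⟩
    · refine ⟨1 / 8, by norm_num, Filter.Eventually.of_forall fun n => ?_⟩
      have h4 : ((G n).filter fun l => p n l ∈ Set.Icc (-(1 / 4) : ℝ) (1 / 4) ∩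
          Set.Ioo (x - 1 / 8) (x + 1 / 8)) = ∅ := by
        rw [Finset.filter_eq_empty_iff]
        rintro l - ⟨⟨h5, h6⟩, h7, h8⟩
        apply hx
        rw [abs_lt]
        constructor <;> linarith
      rw [h4]
      simp only [Finset.card_empty, Nat.cast_zero]
      positivity
  choose ρ hρ0 hρ1 using hρ
  obtain ⟨Q, hQc, hQ⟩ : ∃ Q : Set ℝ, IsCompact Q ∧ ∀ y, y ∈ Q ↔ y ∈ Set.Icc (-(1 / 4) : ℝ) (1 / 4) ∧
      ¬ ∃ x ∈ X, y ∈ Set.Ioo (x - ρ x) (x + ρ x) := by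
    refine ⟨Set.Icc (-(1 / 4) : ℝ) (1 / 4) \ ⋃ x ∈ X, Set.Ioo (x - ρ x) (x + ρ x),
      isCompact_Icc.diff (isOpen_biUnion fun x _ => isOpen_Ioo), fun y => ?_⟩
    rw [Set.mem_diff]
    simp only [Set.mem_iUnion, exists_prop]
  have hP : Pos U F fun n => ((G n).filter fun l => p n l ∈ Q).card := by
    refine ⟨a / 2, by positivity, ?_⟩
    have h5 : ∀ᶠ n in (U : Filter ℕ), ∀ x ∈ X,
        (((G n).filter fun l => p n l ∈ Set.Icc (-(1 / 4) : ℝ) (1 / 4) ∩
          Set.Ioo (x - ρ x) (x + ρ x)).card : ℝ) ≤ e * ((F n).card : ℝ) :=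
      (Filter.eventually_all_finset X).2 fun x _ => hρ1 x
    filter_upwards [hpos, h5] with n hn1 hn2
    have h6 : cn G p (0 - 1 / 4) (0 + 1 / 4) n ≤ ((G n).filter fun l => p n l ∈ Q).card +
        ∑ x ∈ X, ((G n).filter fun l => p n l ∈ Set.Icc (-(1 / 4) : ℝ) (1 / 4) ∩
          Set.Ioo (x - ρ x) (x + ρ x)).card := by
      refine le_trans ?_ (Nat.add_le_add_left (Finset.card_biUnion_le (s := X)
        (t := fun x => (G n).filter fun l => p n l ∈ Set.Icc (-(1 / 4) : ℝ) (1 / 4) ∩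
          Set.Ioo (x - ρ x) (x + ρ x))) _)
      refine le_trans (Finset.card_le_card ?_) (Finset.card_union_le _ _)
      intro l hl
      rw [Finset.mem_filter] at hl
      have h7 : p n l ∈ Set.Icc (-(1 / 4) : ℝ) (1 / 4) :=
        ⟨by linarith [hl.2.1], by linarith [hl.2.2]⟩
      rw [Finset.mem_union]
      by_cases h8 : ∃ x ∈ X, p n l ∈ Set.Ioo (x - ρ x) (x + ρ x)
      · right
        obtain ⟨x, hx, h9⟩ := h8
        rw [Finset.mem_biUnion]
        exact ⟨x, hx, Finset.mem_filter.2 ⟨hl.1, h7, h9⟩⟩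
      · left
        rw [Finset.mem_filter]
        exact ⟨hl.1, (hQ _).2 ⟨h7, h8⟩⟩
    have h11 : (∑ x ∈ X, (((G n).filter fun l => p n l ∈ Set.Icc (-(1 / 4) : ℝ) (1 / 4) ∩
          Set.Ioo (x - ρ x) (x + ρ x)).card : ℝ)) ≤ (X.card : ℝ) * (e * ((F n).card : ℝ)) := by
      have h12 := Finset.sum_le_card_nsmul X (fun x => (((G n).filter fun l =>
        p n l ∈ Set.Icc (-(1 / 4) : ℝ) (1 / 4) ∩ Set.Ioo (x - ρ x) (x + ρ x)).card : ℝ))
        (e * ((F n).card : ℝ)) hn2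
      rwa [nsmul_eq_mul] at h12
    have h13 : (cn G p (0 - 1 / 4) (0 + 1 / 4) n : ℝ) ≤
        (((G n).filter fun l => p n l ∈ Q).card : ℝ) +
        ∑ x ∈ X, (((G n).filter fun l => p n l ∈ Set.Icc (-(1 / 4) : ℝ) (1 / 4) ∩
          Set.Ioo (x - ρ x) (x + ρ x)).card : ℝ) := by
      exact_mod_cast h6
    have h14 : (X.card : ℝ) * e ≤ a / 2 := by
      rw [he]
      rw [← mul_div_assoc, div_le_div_iff₀ (by positivity) (by norm_num)]
      nlinarith
    have h15 : (0 : ℝ) ≤ ((F n).card : ℝ) := by positivity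
    have h16 : (X.card : ℝ) * (e * ((F n).card : ℝ)) ≤ a / 2 * ((F n).card : ℝ) := by
      rw [← mul_assoc]
      gcongr
    show a / 2 * ((F n).card : ℝ) ≤ (((G n).filter fun l => p n l ∈ Q).card : ℝ)
    linarith
  obtain ⟨t, htQ, ht⟩ := hSPT U F G p Q hF hQc hP
  rw [hQ] at htQ
  refine ⟨t, abs_le.2 ⟨htQ.1.1, htQ.1.2⟩, fun htX => htQ.2 ?_, ht⟩
  exact ⟨t, htX, by linarith [hρ0 t], by linarith [hρ0 t]⟩

end Pool.Agent.Work.MP_b25393_ag.UU
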