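import Pool.Agent.Work.MP_b25393_ag.UU.StmtsC

/-!
# Item PT2: no tails of the vertical lines in the planar situation
-/

set_option autoImplicit false

namespace Pool.Agent.Work.MP_b25393_ag.UU

open scoped Classical
open Pool.Agent.Work.MP_b25393_ag.U

namespace I_PT2

/-- the meeting point of a line of the first block and a vertical line -/
theorem estA {Λ e δ T v r q t lam : ℝ} (hΛ : 1 ≤ Λ) (he : 0 < e) (he1 : e * (12 * Λ) ≤ 1)
    (he2 : e ≤ δ / 4) (hT : 1 ≤ T) (hδ : 2 ≤ δ * T) (hv : |v| ≤ T) (hr : |r| ≤ e)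
    (hq : |q - lam| ≤ e) (hlam : |lam| + 1 ≤ Λ) (ht : |t| ≤ 1) :
    1 - r * q ≠ 0 ∧ |(v + r * t) / (1 - r * q)| ≤ 2 * T ∧
      |t + q * ((v + r * t) / (1 - r * q))| ≤ 3 * Λ * T ∧
      |t + q * ((v + r * t) / (1 - r * q)) - lam * ((v + r * t) / (1 - r * q))| ≤ δ * T := by
  have he3 : e ≤ 1 / 12 := by nlinarith
  have hq' : |q| ≤ Λ := by
    have : |q| ≤ |q - lam| + |lam| := by
      have := abs_add_le (q - lam) lam
      rwa [sub_add_cancel] at this
    linarith
  have hrq : |r * q| ≤ 1 / 12 := by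
    rw [abs_mul]
    calc |r| * |q| ≤ e * Λ := by gcongr
      _ ≤ 1 / 12 := by nlinarith
  have h1 : 11 / 12 ≤ 1 - r * q := by
    have := (abs_le.1 hrq).2
    linarith
  have h1' : 0 < 1 - r * q := by linarith
  have hne : 1 - r * q ≠ 0 := h1'.ne'
  set X := (v + r * t) / (1 - r * q) with hX
  have hX1 : |X| ≤ 2 * T := by
    rw [hX, abs_div, abs_of_pos h1', div_le_iff₀ h1']
    have h2 : |v + r * t| ≤ T + 1 / 12 := by
      have h3 : |r * t| ≤ 1 / 12 := by
        rw [abs_mul]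
        calc |r| * |t| ≤ e * 1 := by gcongr
          _ ≤ 1 / 12 := by linarith
      calc |v + r * t| ≤ |v| + |r * t| := abs_add_le _ _
        _ ≤ T + 1 / 12 := by linarith
    nlinarith
  refine ⟨hne, hX1, ?_, ?_⟩
  · calc |t + q * X| ≤ |t| + |q * X| := abs_add_le _ _
      _ = |t| + |q| * |X| := by rw [abs_mul]
      _ ≤ 1 + Λ * (2 * T) := by gcongr
      _ ≤ 3 * Λ * T := by nlinarith
  · have e1 : t + q * X - lam * X = t + (q - lam) * X := by ring
    rw [e1]
    calc |t + (q - lam) * X| ≤ |t| + |(q - lam) * X| := abs_add_le _ _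
      _ = |t| + |q - lam| * |X| := by rw [abs_mul]
      _ ≤ 1 + e * (2 * T) := by gcongr
      _ ≤ δ * T := by nlinarith

/-- points of a vertical line near the ray of slope `lam` -/
theorem estB {Λ e δ T v r lam P1 P2 : ℝ} (hΛ : 1 ≤ Λ) (he : 0 < e) (he1 : e * (12 * Λ) ≤ 1)
    (hδ : δ ≤ 1 / 8) (hT : 0 < T) (hv : |v| = T) (hr : |r| ≤ e) (hlam : |lam| + 1 ≤ Λ)
    (hP : P1 = v + r * P2) (hQ : |P2 - lam * P1| ≤ δ * T) :
    T / 2 ≤ |P1| ∧ |P1| ≤ 2 * T ∧ |P2| ≤ 3 * Λ * T := by
  have he3 : e ≤ 1 / 12 := by nlinarith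
  have h1 : |P2| ≤ T / 8 + Λ * |P1| := by
    have h2 : |P2| ≤ |P2 - lam * P1| + |lam * P1| := by
      have := abs_add_le (P2 - lam * P1) (lam * P1)
      rwa [sub_add_cancel] at this
    rw [abs_mul] at h2
    have h3 : |lam| * |P1| ≤ Λ * |P1| := by
      apply mul_le_mul_of_nonneg_right _ (abs_nonneg _)
      linarith
    nlinarith
  have h2 : e * |P2| ≤ T / 96 + |P1| / 12 := by
    have h3 : e * |P2| ≤ e * (T / 8 + Λ * |P1|) := mul_le_mul_of_nonneg_left h1 he.le
    have h4 : e * (Λ * |P1|) ≤ |P1| / 12 := by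
      have := mul_le_mul_of_nonneg_right he1 (abs_nonneg P1)
      nlinarith
    nlinarith
  have h3 : |r * P2| ≤ T / 96 + |P1| / 12 := by
    rw [abs_mul]
    exact (mul_le_mul_of_nonneg_right hr (abs_nonneg _)).trans h2
  have h4 : |P1| ≤ |v| + |r * P2| := by
    rw [hP]
    exact abs_add_le _ _
  have h5 : |v| ≤ |P1| + |r * P2| := by
    have e1 : v = P1 - r * P2 := by linarith
    rw [e1]
    exact abs_sub _ _
  rw [hv] at h4 h5
  refine ⟨by linarith, by linarith, ?_⟩
  have h6 : |P1| ≤ 2 * T := by linarith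
  nlinarith

/-- lines of another horizontal block have large position -/
theorem estC {δ Δ T q lam lam' P1 P2 e : ℝ} (hd : δ ≤ Δ / 16) (hT : 32 < Δ * T) (hT0 : 0 < T)
    (he2 : e ≤ Δ / 2) (hq : |q - lam'| ≤ e) (hl : Δ ≤ |lam' - lam|)
    (h1 : T / 2 ≤ |P1|) (hQ : |P2 - lam * P1| ≤ δ * T) : 1 < |P2 - q * P1| := by
  have h2 : Δ / 2 ≤ |q - lam| := by
    have h3 : |lam' - lam| ≤ |q - lam'| + |q - lam| := by
      have := abs_add_le (-(q - lam')) (q - lam)
      rw [abs_neg] at this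
      have e1 : -(q - lam') + (q - lam) = lam' - lam := by ring
      rwa [e1] at this
    linarith
  have h3 : |(q - lam) * P1| ≤ |P2 - lam * P1| + |P2 - q * P1| := by
    have e1 : (q - lam) * P1 = (P2 - lam * P1) - (P2 - q * P1) := by ring
    rw [e1]
    exact abs_sub _ _
  rw [abs_mul] at h3
  have hΔ : 0 < Δ := by
    by_contra hcon
    push Not at hcon
    nlinarith
  have h4 : Δ / 2 * (T / 2) ≤ |q - lam| * |P1| := by gcongr
  nlinarith

/-- other vertical lines have large position -/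
theorem estD {Λ e T r P1 P2 : ℝ} (he : 0 < e) (he1 : e * (12 * Λ) ≤ 1)
    (hT : 32 < T) (hr : |r| ≤ e) (h1 : T / 2 ≤ |P1|) (h2 : |P2| ≤ 3 * Λ * T) :
    1 < |P1 - r * P2| := by
  have h3 : |r * P2| ≤ T / 4 := by
    rw [abs_mul]
    calc |r| * |P2| ≤ e * (3 * Λ * T) := by
          apply mul_le_mul hr h2 (abs_nonneg _) he.le
      _ ≤ T / 4 := by nlinarith
  have h4 : |P1| ≤ |P1 - r * P2| + |r * P2| := by
    have := abs_add_le (P1 - r * P2) (r * P2)
    rwa [sub_add_cancel] at this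
  linarith

theorem rh_mul_sg {g : Fr} {s : ℝ} (ha : al g s ≠ 0) (hb : be g s ≠ 0) : rh g s * sg g s = 1 := by
  unfold rh sg
  field_simp

theorem convex_Q (L d lam : ℝ) :
    Convex ℝ {P : ℝ × ℝ | |P.1| ≤ L ∧ |P.2| ≤ L ∧ |P.2 - lam * P.1| ≤ d} := by
  intro P hP R hR a b ha hb hab
  obtain ⟨p1, p2, p3⟩ := hP
  obtain ⟨r1, r2, r3⟩ := hR
  have key : ∀ x y M : ℝ, |x| ≤ M → |y| ≤ M → |a * x + b * y| ≤ M := by
    intro x y M hx hy
    calc |a * x + b * y| ≤ |a * x| + |b * y| := abs_add_le _ _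
      _ = a * |x| + b * |y| := by rw [abs_mul, abs_mul, abs_of_nonneg ha, abs_of_nonneg hb]
      _ ≤ a * M + b * M := by gcongr
      _ = M := by rw [← add_mul, hab, one_mul]
  refine ⟨?_, ?_, ?_⟩
  · have := key _ _ _ p1 r1
    simpa using this
  · have := key _ _ _ p2 r2
    simpa using this
  · have := key _ _ _ p3 r3
    have e1 : (a • P + b • R).2 - lam * (a • P + b • R).1 =
        a * (P.2 - lam * P.1) + b * (R.2 - lam * R.1) := by
      simp only [Prod.snd_add, Prod.smul_snd, smul_eq_mul, Prod.fst_add, Prod.smul_fst]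
      ring
    show |(a • P + b • R).2 - lam * (a • P + b • R).1| ≤ d
    rw [e1]
    exact this

end I_PT2

open I_PT2 in
theorem PT2_pf (hMLS : S_MLS) (hBLC : S_BLC) : S_PT2 := by
  intro k U F s g L G V lam K₁ K₂ θ hS h
  -- constants
  obtain ⟨K₀, hK₀, hmin⟩ := Finset.exists_min_image (G.erase K₁) (fun K => |lam K - lam K₁|)
    ⟨K₂, Finset.mem_erase.2 ⟨h.kn.symm, h.k2⟩⟩
  obtain ⟨Λ, hΛ⟩ : ∃ Λ : ℝ, ∀ K ∈ G, |lam K| + 1 ≤ Λ := by
    refine ⟨1 + ∑ K ∈ G, |lam K|, fun K hK => ?_⟩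
    have := Finset.single_le_sum (f := fun K => |lam K|) (fun K _ => abs_nonneg (lam K)) hK
    linarith
  set Δ : ℝ := |lam K₀ - lam K₁| with hΔ
  rw [Finset.mem_erase] at hK₀
  have hΔ0 : 0 < Δ := abs_pos.2 (sub_ne_zero.2 (h.lne K₀ hK₀.2 K₁ h.k1 hK₀.1))
  have hΛ1 : 1 ≤ Λ := by
    have := hΛ K₁ h.k1
    have := abs_nonneg (lam K₁)
    linarith
  have hΔΛ : Δ ≤ 2 * Λ := by
    have h1 := hΛ K₁ h.k1
    have h2 := hΛ K₀ hK₀.2
    have h3 : Δ ≤ |lam K₀| + |lam K₁| := abs_sub _ _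
    linarith
  have hsep : ∀ K ∈ G, K ≠ K₁ → Δ ≤ |lam K - lam K₁| := by
    intro K hK hne
    exact hmin K (Finset.mem_erase.2 ⟨hne, hK⟩)
  set δ : ℝ := Δ / (16 * Λ) with hδ
  have hΛ0 : 0 < Λ := by linarith
  have hδ0 : 0 < δ := by positivity
  have hδΛ : δ * (16 * Λ) = Δ := by
    rw [hδ]
    field_simp
  have hδ8 : δ ≤ 1 / 8 := by
    rw [hδ, div_le_iff₀ (by positivity)]
    linarith
  have hδΔ : δ ≤ Δ / 16 := by
    rw [hδ]
    apply div_le_div_of_nonneg_left hΔ0.le (by norm_num) (by linarith)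
  set C : ℝ := 32 * Λ * (1 + 1 / Δ) with hC
  have hCΛ : 32 * Λ ≤ C := by
    have : 0 < 1 / Δ := by positivity
    rw [hC]
    nlinarith
  have hCΔ : Δ * C = 32 * Λ * (Δ + 1) := by
    rw [hC]
    field_simp
  have hδC : δ * C = 2 * (Δ + 1) := by
    rw [hC, hδ]
    field_simp
    norm_num
  obtain ⟨e, he, he1, he2, he3⟩ : ∃ e : ℝ, 0 < e ∧ e * (12 * Λ) ≤ 1 ∧ e ≤ δ / 4 ∧ e ≤ Δ / 2 := by
    refine ⟨min (1 / (12 * Λ)) (min (δ / 4) (Δ / 2)), by positivity, ?_, ?_, ?_⟩
    · have h1 : min (1 / (12 * Λ)) (min (δ / 4) (Δ / 2)) ≤ 1 / (12 * Λ) := min_le_left _ _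
      calc min (1 / (12 * Λ)) (min (δ / 4) (Δ / 2)) * (12 * Λ) ≤ 1 / (12 * Λ) * (12 * Λ) :=
            mul_le_mul_of_nonneg_right h1 (by positivity)
        _ = 1 := by field_simp
    · exact (min_le_right _ _).trans (min_le_left _ _)
    · exact (min_le_right _ _).trans (min_le_right _ _)
  -- the sets
  set H : ℕ → Finset (ℝ × ℝ) := fun n => (gr F s (uni V) n).filter fun c =>
    C < |vv (g n) c| ∧ |vv (g n) c| ≤ 1 / (3 * Λ) * L n with hH
  set Q : ℕ → ℝ × ℝ → Set (ℝ × ℝ) := fun n c =>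
    {P : ℝ × ℝ | |P.1| ≤ L n ∧ |P.2| ≤ L n ∧ |P.2 - lam K₁ * P.1| ≤ δ * |vv (g n) c|} with hQ
  have hhor := hor_lines F h.hor e he
  have hver := ver_lines (U := U) F (s := s) (g := g) (K := uni V)
    (fun i hi => by
      obtain ⟨K, hK, hiK⟩ := mem_uni.1 hi
      exact h.ver K hK i hiK) e he
  have hth := h.th
  have hHneg : Neg U F fun n => (H n).card := by
    refine hMLS k U F s g H (fun n => gr F s K₁ n) (fun _ => ∅) Q (32 * ((k : ℝ) + 1) * θ)
      (((k : ℝ) + 3) * θ) hS (by positivity) (by nlinarith [Nat.cast_nonneg (α := ℝ) k])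
      (fun n => gr_sub F s K₁ n)
      (fun n => (Finset.filter_subset _ _).trans (gr_sub F s (uni V) n))
      (fun n c _ => convex_Q _ _ _) ?_ ?_ ?_ ?_
    · -- many lines of `K₁`
      filter_upwards [hhor, hver, h.b1] with n h1 h2 h3 c hc
      refine h3.trans ?_
      have hc' := Finset.mem_filter.1 hc
      obtain ⟨hcV, hcC, hcL⟩ := hc'
      obtain ⟨hal, hrh⟩ := h2 c hcV
      have hTp : 32 < |vv (g n) c| := by linarith
      norm_cast
      apply Finset.card_le_card
      intro l hl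
      rw [Finset.mem_filter] at hl ⊢
      obtain ⟨hlK, hlt⟩ := hl
      obtain ⟨hbe, hsg⟩ := h1 K₁ h.k1 l hlK
      have hδT : 2 ≤ δ * |vv (g n) c| := by
        have : δ * C ≤ δ * |vv (g n) c| := mul_le_mul_of_nonneg_left hcC.le hδ0.le
        linarith
      obtain ⟨a1, a2, a3, a4⟩ := estA (v := vv (g n) c) (T := |vv (g n) c|) hΛ1 he he1 he2
        (by linarith) hδT le_rfl hrh hsg (hΛ K₁ h.k1) hlt
      obtain ⟨c1, c2⟩ := cross_hv (g := g n) (l := l) (m := c) hbe hal a1
      refine ⟨hlK, ?_, _, ⟨?_, ?_, ?_⟩, c2, c1⟩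
      · rintro rfl
        exact a1 (by rw [rh_mul_sg hal hbe]; ring)
      · refine a2.trans ?_
        have h5 : 1 / (3 * Λ) * L n ≤ 1 / 3 * L n := by
          have h6 : 0 ≤ L n := by
            by_contra hcon
            push Not at hcon
            have : 1 / (3 * Λ) * L n < 0 := mul_neg_of_pos_of_neg (by positivity) hcon
            linarith
          apply mul_le_mul_of_nonneg_right _ h6
          apply one_div_le_one_div_of_le (by norm_num)
          linarith
        linarith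
      · refine a3.trans ?_
        calc 3 * Λ * |vv (g n) c| ≤ 3 * Λ * (1 / (3 * Λ) * L n) := by gcongr
          _ = L n := by field_simp
      · exact a4
    · -- few other lines
      have hoG : ∀ᶠ n in (U : Filter ℕ), ∀ K ∈ G,
          (((gr F s K n).filter fun l => hit (g n) (L n) l ∧ 1 < |tt (g n) l|).card : ℝ) ≤
            θ * ((F n).card : ℝ) := by
        rw [Filter.eventually_all_finset]
        exact h.oG
      filter_upwards [hhor, hver, hoG, h.oV, h.con θ hth] with n h1 h2 h3 h4 h5 c hc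
      obtain ⟨hcV, hcC, hcL⟩ := Finset.mem_filter.1 hc
      obtain ⟨hal, hrh⟩ := h2 c hcV
      have hTp : 32 < |vv (g n) c| := by linarith
      set S1 := (F n).filter fun l => l ∉ gr F s (uni G ∪ uni V) n ∧ hit (g n) (L n) l with hS1
      set S2 := G.biUnion fun K =>
        (gr F s K n).filter fun l => hit (g n) (L n) l ∧ 1 < |tt (g n) l| with hS2
      set S3 := (gr F s (uni V) n).filter fun l => hit (g n) (L n) l ∧ 1 < |vv (g n) l| with hS3
      have hsub : ((F n \ (gr F s K₁ n ∪ ∅)).filter fun l => mc (g n) (Q n c) c l) ⊆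
          S1 ∪ S2 ∪ S3 := by
        intro l hl
        rw [Finset.mem_filter, Finset.mem_sdiff, Finset.union_empty] at hl
        obtain ⟨⟨hlF, hlK₁⟩, -, P, ⟨hP1, hP2, hP3⟩, hPc, hPl⟩ := hl
        have hhit : hit (g n) (L n) l := ⟨P, hP1, hP2, hPl⟩
        have hPc' := (onl_ver hal P).1 hPc
        obtain ⟨b1, b2, b3⟩ := estB (Λ := Λ) (e := e) (δ := δ) (T := |vv (g n) c|)
          (lam := lam K₁) hΛ1 he he1 hδ8 (by linarith) rfl hrh (hΛ K₁ h.k1) hPc' hP3
        rw [Finset.mem_union, Finset.mem_union]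
        by_cases hlA : l ∈ gr F s (uni G ∪ uni V) n
        · obtain ⟨-, i, hi, hli⟩ := mem_gr.1 hlA
          rw [Finset.mem_union] at hi
          rcases hi with hi | hi
          · obtain ⟨K, hK, hiK⟩ := mem_uni.1 hi
            have hlK : l ∈ gr F s K n := mem_gr.2 ⟨hlF, i, hiK, hli⟩
            have hne : K ≠ K₁ := by
              rintro rfl
              exact hlK₁ hlK
            obtain ⟨hbe, hsg⟩ := h1 K hK l hlK
            have hPl' := (onl_hor hbe P).1 hPl
            have e1 : tt (g n) l = P.2 - sg (g n) l.1 * P.1 := by linarith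
            have hΔT : 32 < Δ * |vv (g n) c| := by
              have : Δ * C ≤ Δ * |vv (g n) c| := mul_le_mul_of_nonneg_left hcC.le hΔ0.le
              nlinarith
            left
            right
            rw [hS2, Finset.mem_biUnion]
            refine ⟨K, hK, Finset.mem_filter.2 ⟨hlK, hhit, ?_⟩⟩
            rw [e1]
            exact estC hδΔ hΔT (by linarith) he3 hsg (hsep K hK hne) b1 hP3
          · have hlV : l ∈ gr F s (uni V) n := mem_gr.2 ⟨hlF, i, hi, hli⟩
            obtain ⟨hal', hrh'⟩ := h2 l hlV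
            have hPl' := (onl_ver hal' P).1 hPl
            have e1 : vv (g n) l = P.1 - rh (g n) l.1 * P.2 := by linarith
            right
            rw [hS3]
            refine Finset.mem_filter.2 ⟨hlV, hhit, ?_⟩
            rw [e1]
            exact estD he he1 hTp hrh' b1 b3
        · left
          left
          exact Finset.mem_filter.2 ⟨hlF, hlA, hhit⟩
      have hcard : (((F n \ (gr F s K₁ n ∪ ∅)).filter fun l => mc (g n) (Q n c) c l).card : ℝ) ≤
          (S1.card : ℝ) + (S2.card : ℝ) + (S3.card : ℝ) := by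
        have h6 := (Finset.card_le_card hsub).trans (Finset.card_union_le _ _)
        have h7 := Finset.card_union_le S1 S2
        exact_mod_cast h6.trans (Nat.add_le_add_right h7 _)
      have hS2c : (S2.card : ℝ) ≤ ((k : ℝ) + 1) * (θ * ((F n).card : ℝ)) := by
        have h6 : (S2.card : ℝ) ≤ ∑ K ∈ G,
            (((gr F s K n).filter fun l => hit (g n) (L n) l ∧ 1 < |tt (g n) l|).card : ℝ) := by
          exact_mod_cast Finset.card_biUnion_le
        refine h6.trans ((Finset.sum_le_sum fun K hK => h3 K hK).trans ?_)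
        rw [Finset.sum_const, nsmul_eq_mul]
        apply mul_le_mul_of_nonneg_right _ (by positivity)
        have h7 := hBLC k G fun K hK K' hK' hne => h.dis K (Finset.mem_union_left _ hK) K'
          (Finset.mem_union_left _ hK') hne
        exact_mod_cast h7
      have : (((F n \ (gr F s K₁ n ∪ ∅)).filter fun l => mc (g n) (Q n c) c l).card : ℝ) ≤
          ((k : ℝ) + 3) * θ * ((F n).card : ℝ) := by
        nlinarith
      exact this
    · refine neg2_zero.mono (Filter.Eventually.of_forall fun n => ?_)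
      simp
    · refine (h.cr K₁ (Finset.mem_union_left _ h.k1)).mono
        (Filter.Eventually.of_forall fun n => ?_)
      unfold crp
      apply Finset.card_le_card
      intro q hq
      rw [Finset.mem_filter] at hq ⊢
      obtain ⟨hq1, hq2, c, -, P, ⟨hP1, hP2, -⟩, -, hPa, hPb⟩ := hq
      exact ⟨hq1, hq2, P, hP1, hP2, hPa, hPb⟩
  refine ⟨C, by linarith, ?_⟩
  refine (hHneg.add (h.ctV (1 / (3 * Λ)) (by positivity))).mono' fun n => ?_
  refine (Finset.card_le_card ?_).trans (Finset.card_union_le _ _)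
  intro l hl
  rw [Finset.mem_filter] at hl
  rw [Finset.mem_union, Finset.mem_filter, Finset.mem_filter]
  rcases le_or_gt |vv (g n) l| (1 / (3 * Λ) * L n) with h1 | h1
  · exact Or.inl ⟨hl.1, hl.2.2, h1⟩
  · exact Or.inr ⟨hl.1, hl.2.1, h1⟩

end Pool.Agent.Work.MP_b25393_ag.UU
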