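import Mathlib
import Pool.Agent.Work.MP_b25393_ag.UU.StmtsB

/-!
# SAB: a vertical atom and no atoms in the blocks of `G`
-/

set_option autoImplicit false

namespace Pool.Agent.Work.MP_b25393_ag.UU

open scoped Classical
open Pool.Agent.Work.MP_b25393_ag.U

namespace I_SAB

/-- a common bound for the slopes -/
noncomputable def Lam {k : ℕ} (G : Finset (Finset (Fin k))) (lam : Finset (Fin k) → ℝ) : ℝ :=
  1 + ∑ K ∈ G, |lam K|

theorem one_le_Lam {k : ℕ} (G : Finset (Finset (Fin k))) (lam : Finset (Fin k) → ℝ) :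
    1 ≤ Lam G lam := by
  unfold Lam
  have : 0 ≤ ∑ K ∈ G, |lam K| := Finset.sum_nonneg fun _ _ => abs_nonneg _
  linarith

theorem le_Lam {k : ℕ} {G : Finset (Finset (Fin k))} (lam : Finset (Fin k) → ℝ)
    {K : Finset (Fin k)} (hK : K ∈ G) : |lam K| + 1 ≤ Lam G lam := by
  unfold Lam
  have : |lam K| ≤ ∑ K ∈ G, |lam K| :=
    Finset.single_le_sum (f := fun K => |lam K|) (fun _ _ => abs_nonneg _) hK
  linarith

theorem mem_gr_uni {k : ℕ} {F : ℕ → Finset (ℝ × ℝ)} {s : ℕ → Fin k → ℝ}
    {G : Finset (Finset (Fin k))} {n : ℕ} {l : ℝ × ℝ} :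
    l ∈ gr F s (uni G) n ↔ ∃ K ∈ G, l ∈ gr F s K n := by
  constructor
  · intro h
    obtain ⟨h1, i, hi, h2⟩ := mem_gr.mp h
    obtain ⟨K, hK, hiK⟩ := mem_uni.mp hi
    exact ⟨K, hK, mem_gr.mpr ⟨h1, i, hiK, h2⟩⟩
  · rintro ⟨K, hK, h⟩
    obtain ⟨h1, i, hi, h2⟩ := mem_gr.mp h
    exact mem_gr.mpr ⟨h1, i, mem_uni.mpr ⟨K, hK, hi⟩, h2⟩

theorem crp_le {g g' : Fr} {L M L' M' : ℝ} {S : Finset (ℝ × ℝ)}
    (h : ∀ l m, crb g L M l m → crb g' L' M' l m) : crp g L M S ≤ crp g' L' M' S := by
  unfold crp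
  apply Finset.card_le_card
  intro q hq
  rw [Finset.mem_filter] at hq ⊢
  exact ⟨hq.1, hq.2.1, h _ _ hq.2.2⟩

/-- different lines with a common point in the box -/
def pr (g : Fr) (l m : ℝ × ℝ) : Prop := l ≠ m ∧ crb g 1 1 l m

/-- number of pairs with a common point in the box -/
noncomputable def X {k : ℕ} (F : ℕ → Finset (ℝ × ℝ)) (s : ℕ → Fin k → ℝ) (g : ℕ → Fr)
    (q : Finset (Fin k) × Finset (Fin k)) (n : ℕ) : ℕ :=
  ((gr F s q.1 n ×ˢ gr F s q.2 n).filter fun r => pr (g n) r.1 r.2).card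

theorem crp_uni_le {k : ℕ} (F : ℕ → Finset (ℝ × ℝ)) (s : ℕ → Fin k → ℝ) (g : ℕ → Fr)
    (G : Finset (Finset (Fin k))) (n : ℕ) :
    crp (g n) 1 1 (gr F s (uni G) n) ≤ ∑ q ∈ G ×ˢ G, X F s g q n := by
  unfold crp X
  refine le_trans (Finset.card_le_card ?_) Finset.card_biUnion_le
  intro r hr
  rw [Finset.mem_filter, Finset.mem_product] at hr
  obtain ⟨⟨h1, h2⟩, h3⟩ := hr
  obtain ⟨K, hK, h4⟩ := mem_gr_uni.mp h1
  obtain ⟨K', hK', h5⟩ := mem_gr_uni.mp h2
  rw [Finset.mem_biUnion]
  exact ⟨(K, K'), Finset.mem_product.mpr ⟨hK, hK'⟩, Finset.mem_filter.mpr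
    ⟨Finset.mem_product.mpr ⟨h4, h5⟩, h3⟩⟩

/-- a filter of a product with light fibres -/
theorem prod_filter_le {A B : Finset (ℝ × ℝ)} (R : ℝ × ℝ → ℝ × ℝ → Prop) {c N : ℝ}
    (hN : (A.card : ℝ) ≤ N) (hc : 0 ≤ c) (h : ∀ l ∈ A, ((B.filter (R l)).card : ℝ) ≤ c) :
    (((A ×ˢ B).filter fun r => R r.1 r.2).card : ℝ) ≤ c * N := by
  have e : (A ×ˢ B).filter (fun r => R r.1 r.2) =
      A.biUnion fun l => (B.filter (R l)).image fun m => (l, m) := by
    ext ⟨l, m⟩
    simp only [Finset.mem_filter, Finset.mem_product, Finset.mem_biUnion, Finset.mem_image,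
      Prod.mk.injEq]
    constructor
    · rintro ⟨⟨h1, h2⟩, h3⟩
      exact ⟨l, h1, m, ⟨h2, h3⟩, rfl, rfl⟩
    · rintro ⟨l', h1, m', ⟨h2, h3⟩, rfl, rfl⟩
      exact ⟨⟨h1, h2⟩, h3⟩
  rw [e]
  have h1 : ((A.biUnion fun l => (B.filter (R l)).image fun m => (l, m)).card : ℝ) ≤
      ∑ l ∈ A, ((B.filter (R l)).card : ℝ) := by
    have h2 := Finset.card_biUnion_le (s := A)
      (t := fun l => (B.filter (R l)).image fun m => (l, m))
    have h3 : ∑ l ∈ A, ((B.filter (R l)).image fun m => (l, m)).card ≤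
        ∑ l ∈ A, (B.filter (R l)).card :=
      Finset.sum_le_sum fun l _ => Finset.card_image_le
    exact_mod_cast h2.trans h3
  refine h1.trans ?_
  calc ∑ l ∈ A, ((B.filter (R l)).card : ℝ) ≤ ∑ _l ∈ A, c := Finset.sum_le_sum h
    _ = (A.card : ℝ) * c := by rw [Finset.sum_const, nsmul_eq_mul]
    _ ≤ N * c := mul_le_mul_of_nonneg_right hN hc
    _ = c * N := mul_comm _ _

end I_SAB

open I_SAB in
theorem SAB_pf (hSPT : S_SPT) (hATL : S_ATL) (hDIA : S_DIA) : S_SAB := by
  intro k U F s g G V lam p hSy hST hp hA hnA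
  obtain ⟨a₀, ha₀, hat⟩ := hA
  set Λ := Lam G lam with hΛ
  have hΛ1 : 1 ≤ Λ := one_le_Lam G lam
  have hp' := abs_lt.mp hp
  -- the support point of the heights
  obtain ⟨M, hM⟩ := hST.mH
  have hslope : ∀ᶠ n in (U : Filter ℕ), ∀ l ∈ gr F s (uni G) n,
      be (g n) l.1 ≠ 0 ∧ |sg (g n) l.1| ≤ Λ := by
    filter_upwards [hor_lines F hST.hor 1 one_pos] with n hn l hl
    obtain ⟨K, hK, hl'⟩ := mem_gr_uni.mp hl
    obtain ⟨h1, h2⟩ := hn K hK l hl'
    refine ⟨h1, ?_⟩
    have h3 := le_Lam lam hK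
    have h4 : |sg (g n) l.1| ≤ |sg (g n) l.1 - lam K| + |lam K| := by
      have := abs_add_le (sg (g n) l.1 - lam K) (lam K)
      rwa [sub_add_cancel] at this
    linarith
  obtain ⟨y, -, hy⟩ := hSPT U F (gr F s (uni G)) (fun n l => tt (g n) l + sg (g n) l.1 * p)
    (Metric.closedBall 0 (|M| + Λ)) hSy.one (isCompact_closedBall _ _) (by
      refine hM.mono ?_
      filter_upwards [hslope] with n hn
      apply Finset.card_le_card
      intro l hl
      rw [Finset.mem_filter] at hl ⊢
      refine ⟨hl.1, ?_⟩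
      obtain ⟨-, h2⟩ := hn l hl.1
      rw [mem_closedBall_zero_iff, Real.norm_eq_abs]
      calc |tt (g n) l + sg (g n) l.1 * p| ≤ |tt (g n) l| + |sg (g n) l.1 * p| := abs_add_le _ _
        _ = |tt (g n) l| + |sg (g n) l.1| * |p| := by rw [abs_mul]
        _ ≤ |M| + Λ * 1 := by
          apply add_le_add (hl.2.trans (le_abs_self M))
          exact mul_le_mul h2 (by linarith) (abs_nonneg _) (by linarith)
        _ = |M| + Λ := by ring)
  -- the diagonal sequence
  have hver : ∀ i ∈ uni V, Ver U s g i := by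
    intro i hi
    obtain ⟨K, hK, hi'⟩ := mem_uni.mp hi
    exact hST.ver K hK i hi'
  obtain ⟨J, hJ1, hJ2⟩ := hDIA U (fun j n =>
    a₀ * ((F n).card : ℝ) ≤ (cn (gr F s (uni V)) (fun n => vv (g n)) (p - (1 / ((j : ℝ) + 1)) ^ 2)
      (p + (1 / ((j : ℝ) + 1)) ^ 2) n : ℝ) ∧
    ∀ i ∈ uni V, al (g n) (s n i) ≠ 0 ∧ |rh (g n) (s n i)| ≤ (1 / ((j : ℝ) + 1)) ^ 2)
    hSy.np (by
      intro j
      have hj : (0 : ℝ) < (1 / ((j : ℝ) + 1)) ^ 2 := by positivity
      refine (hat _ hj).and ?_
      rw [Filter.eventually_all_finset]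
      intro i hi
      exact ver_iff.mp (hver i hi) _ hj)
  set κ : ℕ → ℝ := fun n => 1 / ((J n : ℝ) + 1) with hκ
  have hκ0 : ∀ n, 0 < κ n := fun n => by rw [hκ]; positivity
  have hκ1 : ∀ n, κ n ≤ 1 := by
    intro n
    rw [hκ]
    simp only
    rw [div_le_one (by positivity)]
    have : (0 : ℝ) ≤ (J n : ℝ) := Nat.cast_nonneg _
    linarith
  have hκt : ∀ e : ℝ, 0 < e → ∀ᶠ n in (U : Filter ℕ), κ n ≤ e := by
    intro e he
    obtain ⟨m, hm⟩ := exists_nat_one_div_lt he
    filter_upwards [hJ1 m] with n hn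
    refine le_trans ?_ hm.le
    rw [hκ]
    simp only
    apply one_div_le_one_div_of_le (by positivity)
    have : (m : ℝ) ≤ (J n : ℝ) := by exact_mod_cast hn
    linarith
  have hcnt : ∀ᶠ n in (U : Filter ℕ), a₀ * ((F n).card : ℝ) ≤
      (cn (gr F s (uni V)) (fun n => vv (g n)) (p - κ n ^ 2) (p + κ n ^ 2) n : ℝ) :=
    hJ2.mono fun n hn => hn.1
  have hvert : ∀ᶠ n in (U : Filter ℕ), ∀ i ∈ uni V,
      al (g n) (s n i) ≠ 0 ∧ |rh (g n) (s n i)| ≤ κ n ^ 2 :=
    hJ2.mono fun n hn => hn.2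
  have hvl : ∀ᶠ n in (U : Filter ℕ), ∀ l ∈ gr F s (uni V) n,
      al (g n) l.1 ≠ 0 ∧ |rh (g n) l.1| ≤ κ n ^ 2 := by
    filter_upwards [hvert] with n hn l hl
    obtain ⟨_, i, hi, h2⟩ := mem_gr.mp hl
    rw [h2]
    exact hn i hi
  have hκne : ∀ n, κ n ≠ 0 := fun n => (hκ0 n).ne'
  have h1ne : ∀ _n : ℕ, (1 : ℝ) ≠ 0 := fun _ => one_ne_zero
  -- the box
  have hsmall : ∀ᶠ n in (U : Filter ℕ), |p| + κ n ≤ 3 / 4 := by
    filter_upwards [hκt (1 / 4) (by norm_num)] with n hn
    linarith
  have hcrb : ∀ᶠ n in (U : Filter ℕ), ∀ l m,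
      crb (cmp (g n) (hfr p y (κ n) 1 0 (hκne n) (h1ne n))) 1 1 l m →
        crb (g n) (3 / 4) (|y| + 1) l m := by
    filter_upwards [hsmall] with n hn l m h
    obtain ⟨P, h1, h2, h3, h4⟩ := crb_hfr h
    rw [abs_of_pos (hκ0 n), mul_one] at h1
    simp only [abs_zero, abs_one, mul_one, zero_add] at h2
    refine ⟨P, ?_, ?_, h3, h4⟩
    · have := abs_add_le (P.1 - p) p
      rw [sub_add_cancel] at this
      linarith
    · have := abs_add_le (P.2 - y) y
      rw [sub_add_cancel] at this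
      linarith
  refine ⟨fun n => cmp (g n) (hfr p y (κ n) 1 0 (hκne n) (h1ne n)), ?_⟩
  refine
    { dA := ?_
      dB := ?_
      hor := ?_
      ver := ?_
      con := ?_
      crA := ?_
      crB := ?_
      sep := ?_
      cA := ?_
      cB := ?_ }
  · intro K hK
    rw [Finset.disjoint_left]
    intro i hi hi'
    obtain ⟨K', hK', hi''⟩ := mem_uni.mp hi
    have hne : K' ≠ K := by
      rintro rfl
      exact Finset.disjoint_left.mp hST.dGV hK' hK
    exact Finset.disjoint_left.mp (hST.dis K' (Finset.mem_union_left _ hK') K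
      (Finset.mem_union_right _ hK) hne) hi'' hi'
  · intro K hK K' hK' hne
    exact hST.dis K (Finset.mem_union_right _ hK) K' (Finset.mem_union_right _ hK') hne
  · intro i hi
    obtain ⟨K, hK, hi'⟩ := mem_uni.mp hi
    refine hor_hfr (x := fun _ => p) (y := fun _ => y) (a := κ) (b := fun _ => 1)
      (c := fun _ => 0) hκne h1ne (hST.hor K hK i hi') ?_ 1 ?_
    · intro e he
      filter_upwards [hκt (e / Λ) (by positivity)] with n hn
      have h3 := le_Lam lam hK
      rw [zero_mul, sub_zero, sub_zero, abs_one, mul_one, abs_mul, abs_of_pos (hκ0 n)]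
      calc κ n * |lam K| ≤ e / Λ * Λ := by
            apply mul_le_mul hn (by linarith) (abs_nonneg _) (by positivity)
        _ = e := by field_simp
    · filter_upwards with n
      rw [abs_one, mul_one, abs_of_pos (hκ0 n)]
      exact hκ1 n
  · intro K hK i hi e he
    have hiV : i ∈ uni V := mem_uni.mpr ⟨K, hK, hi⟩
    filter_upwards [hvert, hκt e he] with n hn hκe
    obtain ⟨h1, h2⟩ := hn i hiV
    rw [al_hfr, be_hfr, mul_one, mul_zero, add_zero, abs_mul, abs_of_pos (hκ0 n)]
    have h3 : |be (g n) (s n i)| = |rh (g n) (s n i)| * |al (g n) (s n i)| := by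
      unfold rh
      rw [abs_div, abs_neg, div_mul_cancel₀ _ (abs_pos.mpr h1).ne']
    rw [h3]
    calc |rh (g n) (s n i)| * |al (g n) (s n i)| ≤ κ n ^ 2 * |al (g n) (s n i)| :=
          mul_le_mul_of_nonneg_right h2 (abs_nonneg _)
      _ = κ n * (|al (g n) (s n i)| * κ n) := by ring
      _ ≤ e * (|al (g n) (s n i)| * κ n) :=
          mul_le_mul_of_nonneg_right hκe (mul_nonneg (abs_nonneg _) (hκ0 n).le)
  · refine (hST.con (|y| + 1)).mono ?_
    filter_upwards [hsmall] with n hn
    apply Finset.card_le_card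
    intro l hl
    rw [Finset.mem_filter] at hl ⊢
    obtain ⟨h1, h2, h3⟩ := hl
    refine ⟨h1, h2, ?_⟩
    obtain ⟨P, h4, h5, h6⟩ := hit_hfr h3
    rw [abs_of_pos (hκ0 n), mul_one] at h4
    simp only [abs_zero, abs_one, mul_one, zero_add] at h5
    refine ⟨P, ?_, ?_, h6⟩
    · have := abs_add_le (P.1 - p) p
      rw [sub_add_cancel] at this
      linarith
    · have := abs_add_le (P.2 - y) y
      rw [sub_add_cancel] at this
      linarith
  · refine (Neg2.sum (G ×ˢ G) (fun q => X F s
      (fun n => cmp (g n) (hfr p y (κ n) 1 0 (hκne n) (h1ne n))) q) ?_).mono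
      (Filter.Eventually.of_forall fun n => crp_uni_le F s
        (fun n => cmp (g n) (hfr p y (κ n) 1 0 (hκne n) (h1ne n))) G n)
    rintro ⟨K, K'⟩ hq
    rw [Finset.mem_product] at hq
    obtain ⟨hK, hK'⟩ := hq
    simp only at hK hK'
    by_cases hKK : K = K'
    · subst hKK
      refine (hST.cr K (Finset.mem_union_left _ hK) (|y| + 1)).mono ?_
      filter_upwards [hcrb] with n hn
      refine le_trans ?_ (crp_le hn)
      unfold X crp
      apply Finset.card_le_card
      intro r hr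
      rw [Finset.mem_filter] at hr ⊢
      exact ⟨hr.1, hr.2.1, hr.2.2⟩
    · intro e he
      obtain ⟨η, hη, hatl⟩ := hATL U F (gr F s K') (fun n => tt (g n))
        (Metric.closedBall 0 (|y| + 1 + 2 * Λ)) (isCompact_closedBall _ _)
        (fun t _ => hnA K' hK' t) e he
      filter_upwards [hatl, hslope, hor_lines F hST.hor (η / 2) (by positivity),
        hκt (η / (4 * Λ)) (by positivity)] with n h1 h2 h3 h4
      have hκΛ : Λ * κ n ≤ η / 4 := by
        calc Λ * κ n ≤ Λ * (η / (4 * Λ)) := by gcongr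
          _ = η / 4 := by field_simp
      have hκΛ' : Λ * κ n ≤ Λ := by
        calc Λ * κ n ≤ Λ * 1 := by
              have := hκ1 n
              gcongr
          _ = Λ := mul_one _
      have hcard : ((gr F s K n).card : ℝ) ≤ ((F n).card : ℝ) := by
        exact_mod_cast Finset.card_le_card (gr_sub F s K n)
      have hmain := prod_filter_le (A := gr F s K n) (B := gr F s K' n)
        (pr (cmp (g n) (hfr p y (κ n) 1 0 (hκne n) (h1ne n))))
        (c := e * ((F n).card : ℝ)) hcard (by positivity) ?_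
      · calc ((X F s (fun n => cmp (g n) (hfr p y (κ n) 1 0 (hκne n) (h1ne n))) (K, K') n : ℕ) : ℝ)
            ≤ e * ((F n).card : ℝ) * ((F n).card : ℝ) := hmain
          _ = e * ((F n).card : ℝ) ^ 2 := by ring
      · intro l hl
        obtain ⟨hlb, hls⟩ := h2 l (mem_gr_uni.mpr ⟨K, hK, hl⟩)
        by_cases hex : ∃ m ∈ gr F s K' n,
            crb (cmp (g n) (hfr p y (κ n) 1 0 (hκne n) (h1ne n))) 1 1 l m
        · have hbound : ∀ m ∈ gr F s K' n,
              crb (cmp (g n) (hfr p y (κ n) 1 0 (hκne n) (h1ne n))) 1 1 l m →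
              |tt (g n) l + sg (g n) l.1 * p| ≤ |y| + 1 + Λ ∧
              |tt (g n) m - (tt (g n) l + sg (g n) l.1 * p - lam K' * p)| ≤ η := by
            intro m hm hcr
            obtain ⟨hmb, hms⟩ := h2 m (mem_gr_uni.mpr ⟨K', hK', hm⟩)
            obtain ⟨-, hml⟩ := h3 K' hK' m hm
            obtain ⟨P, g1, g2, g3, g4⟩ := crb_hfr hcr
            rw [abs_of_pos (hκ0 n), mul_one] at g1
            simp only [abs_zero, abs_one, mul_one, zero_add] at g2
            rw [onl_hor hlb] at g3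
            rw [onl_hor hmb] at g4
            have k1 : |sg (g n) l.1 * (P.1 - p)| ≤ Λ * κ n := by
              rw [abs_mul]
              exact mul_le_mul hls g1 (abs_nonneg _) (by linarith)
            have k2 : |sg (g n) m.1 * (P.1 - p)| ≤ Λ * κ n := by
              rw [abs_mul]
              exact mul_le_mul hms g1 (abs_nonneg _) (by linarith)
            have k3 : |(sg (g n) m.1 - lam K') * p| ≤ η / 2 := by
              rw [abs_mul]
              calc |sg (g n) m.1 - lam K'| * |p| ≤ η / 2 * 1 :=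
                    mul_le_mul hml (by linarith) (abs_nonneg _) (by linarith)
                _ = η / 2 := mul_one _
            have k4 : |P.2| ≤ |y| + 1 := by
              have := abs_add_le (P.2 - y) y
              rw [sub_add_cancel] at this
              linarith
            constructor
            · have e1 : tt (g n) l + sg (g n) l.1 * p = P.2 - sg (g n) l.1 * (P.1 - p) := by
                rw [g3]
                ring
              rw [e1]
              have := abs_sub (P.2) (sg (g n) l.1 * (P.1 - p))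
              linarith
            · have e1 : tt (g n) m - (tt (g n) l + sg (g n) l.1 * p - lam K' * p) =
                  sg (g n) l.1 * (P.1 - p) - sg (g n) m.1 * (P.1 - p) -
                    (sg (g n) m.1 - lam K') * p := by
                have e2 : tt (g n) m = P.2 - sg (g n) m.1 * P.1 := by rw [g4]; ring
                have e3 : tt (g n) l = P.2 - sg (g n) l.1 * P.1 := by rw [g3]; ring
                rw [e2, e3]
                ring
              rw [e1]
              have q1 := abs_sub (sg (g n) l.1 * (P.1 - p) - sg (g n) m.1 * (P.1 - p))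
                ((sg (g n) m.1 - lam K') * p)
              have q2 := abs_sub (sg (g n) l.1 * (P.1 - p)) (sg (g n) m.1 * (P.1 - p))
              linarith
          obtain ⟨m₀, hm₀, hcr₀⟩ := hex
          have hQ : tt (g n) l + sg (g n) l.1 * p - lam K' * p ∈
              Metric.closedBall (0 : ℝ) (|y| + 1 + 2 * Λ) := by
            rw [mem_closedBall_zero_iff, Real.norm_eq_abs]
            have q1 := (hbound m₀ hm₀ hcr₀).1
            have q2 := abs_sub (tt (g n) l + sg (g n) l.1 * p) (lam K' * p)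
            have q3 : |lam K' * p| ≤ Λ := by
              rw [abs_mul]
              have := le_Lam lam hK'
              calc |lam K'| * |p| ≤ Λ * 1 :=
                    mul_le_mul (by linarith) (by linarith) (abs_nonneg _) (by linarith)
                _ = Λ := mul_one _
            linarith
          refine le_trans ?_ (h1 _ hQ)
          unfold cn
          have : ((gr F s K' n).filter
              (pr (cmp (g n) (hfr p y (κ n) 1 0 (hκne n) (h1ne n))) l)) ⊆
              ((gr F s K' n).filter fun m =>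
                tt (g n) l + sg (g n) l.1 * p - lam K' * p - η ≤ tt (g n) m ∧
                tt (g n) m ≤ tt (g n) l + sg (g n) l.1 * p - lam K' * p + η) := by
            intro m hm
            rw [Finset.mem_filter] at hm ⊢
            have q := abs_le.mp (hbound m hm.1 hm.2.2).2
            exact ⟨hm.1, by linarith [q.1], by linarith [q.2]⟩
          exact_mod_cast Finset.card_le_card this
        · have hemp : ((gr F s K' n).filter
              (pr (cmp (g n) (hfr p y (κ n) 1 0 (hκne n) (h1ne n))) l)) = ∅ := by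
            rw [Finset.filter_eq_empty_iff]
            intro m hm hc
            exact hex ⟨m, hm, hc.2⟩
          rw [hemp]
          simp only [Finset.card_empty, Nat.cast_zero]
          positivity
  · intro K hK
    refine (hST.cr K (Finset.mem_union_right _ hK) (|y| + 1)).mono ?_
    filter_upwards [hcrb] with n hn
    exact crp_le hn
  · exact hST.sep
  · intro η hη
    refine (hy η hη).mono ?_
    filter_upwards [hslope] with n hn
    unfold cn
    apply Finset.card_le_card
    intro l hl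
    rw [Finset.mem_filter] at hl ⊢
    refine ⟨hl.1, ?_⟩
    beta_reduce at hl ⊢
    rw [tt_hfr _ _ _ _ _ _ _ _ _ (hn l hl.1).1, div_one]
    constructor
    · linarith [hl.2.1]
    · linarith [hl.2.2]
  · intro η hη
    refine ⟨a₀, ha₀, ?_⟩
    filter_upwards [hcnt, hvl, hκt (η / (1 + |y|)) (by positivity)] with n h1 h2 h3
    refine h1.trans ?_
    unfold cn
    have : ((gr F s (uni V) n).filter fun l => p - κ n ^ 2 ≤ vv (g n) l ∧
        vv (g n) l ≤ p + κ n ^ 2) ⊆ ((gr F s (uni V) n).filter fun l =>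
        0 - η ≤ vv (cmp (g n) (hfr p y (κ n) 1 0 (hκne n) (h1ne n))) l ∧
        vv (cmp (g n) (hfr p y (κ n) 1 0 (hκne n) (h1ne n))) l ≤ 0 + η) := by
      intro l hl
      rw [Finset.mem_filter] at hl ⊢
      obtain ⟨hl1, hl2, hl3⟩ := hl
      refine ⟨hl1, ?_⟩
      obtain ⟨ha, hr⟩ := h2 l hl1
      rw [vv_hfr _ _ _ _ _ _ _ _ _ ha (by rw [mul_zero, sub_zero]; exact hκne n), mul_zero,
        sub_zero, zero_sub, zero_add, ← abs_le, abs_div, abs_of_pos (hκ0 n),
        div_le_iff₀ (hκ0 n)]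
      have q1 : |vv (g n) l - p| ≤ κ n ^ 2 := by
        rw [abs_le]
        constructor <;> linarith
      have q2 : |rh (g n) l.1 * y| ≤ κ n ^ 2 * |y| := by
        rw [abs_mul]
        exact mul_le_mul_of_nonneg_right hr (abs_nonneg _)
      calc |vv (g n) l - p + rh (g n) l.1 * y| ≤ |vv (g n) l - p| + |rh (g n) l.1 * y| :=
            abs_add_le _ _
        _ ≤ κ n ^ 2 + κ n ^ 2 * |y| := add_le_add q1 q2
        _ = κ n * (1 + |y|) * κ n := by ring
        _ ≤ η * κ n := by
          apply mul_le_mul_of_nonneg_right _ (hκ0 n).le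
          rw [le_div_iff₀ (by positivity)] at h3
          exact h3
    exact_mod_cast Finset.card_le_card this

end Pool.Agent.Work.MP_b25393_ag.UU
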