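import Pool.Agent.Work.MP_b25393_ag.UU.StmtsB
import Pool.Agent.Work.MP_b25393_ag.UU.Base

/-!
# Uniform version, item SCL: the support is closed
-/

set_option autoImplicit false

namespace Pool.Agent.Work.MP_b25393_ag.UU

open scoped Classical
open Pool.Agent.Work.MP_b25393_ag.U

theorem SCL_pf : S_SCL := by
  intro U F G p
  rw [← closure_subset_iff_isClosed]
  intro t ht η hη
  rw [Metric.mem_closure_iff] at ht
  obtain ⟨t', ht', hd⟩ := ht (η / 2) (by linarith)
  rw [Real.dist_eq, abs_lt] at hd
  have h := ht' (η / 2) (by linarith)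
  refine h.mono (Filter.Eventually.of_forall fun n => ?_)
  refine Finset.card_le_card fun l hl => ?_
  rw [Finset.mem_filter] at hl ⊢
  exact ⟨hl.1, by linarith [hl.2.1, hd.1, hd.2], by linarith [hl.2.2, hd.1, hd.2]⟩

end Pool.Agent.Work.MP_b25393_ag.UU
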