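import Mathlib
import Pool.Agent.Work.MP_b25393_ag.UU.StmtsC

/-!
# Item SCW of the block [b25393 UU]: choice of the scale
-/

set_option autoImplicit false

namespace Pool.Agent.Work.MP_b25393_ag.UU

open scoped Classical
open Pool.Agent.Work.MP_b25393_ag.U

theorem SCW_pf : S_SCW := by
  intro ι I S f K hK hex
  obtain ⟨i₀, hi₀, hc₀⟩ := hex
  have hne₀ : ((S i₀).filter fun l => f i₀ l ≠ 0).Nonempty := by
    rw [← Finset.card_pos]
    have : (0 : ℝ) < (((S i₀).filter fun l => f i₀ l ≠ 0).card : ℝ) := lt_of_le_of_lt hK hc₀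
    exact_mod_cast this
  obtain ⟨l₀, hl₀⟩ := hne₀
  have hl₀S : l₀ ∈ S i₀ := (Finset.mem_filter.1 hl₀).1
  let T : Finset ℝ := I.biUnion fun i => (S i).image fun l => |f i l|
  have hT : ∀ i ∈ I, ∀ l ∈ S i, |f i l| ∈ T := fun i hi l hl =>
    Finset.mem_biUnion.2 ⟨i, hi, Finset.mem_image.2 ⟨l, hl, rfl⟩⟩
  have hT0 : ∀ w ∈ T, 0 ≤ w := by
    intro w hw
    obtain ⟨i, -, h⟩ := Finset.mem_biUnion.1 hw
    obtain ⟨l, -, rfl⟩ := Finset.mem_image.1 h
    exact abs_nonneg _
  have hTne : T.Nonempty := ⟨_, hT i₀ hi₀ l₀ hl₀S⟩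
  let A : Finset ℝ := T.filter fun W => ∀ i ∈ I,
    (((S i).filter fun l => W < |f i l|).card : ℝ) ≤ K
  have hAne : A.Nonempty := by
    refine ⟨T.max' hTne, Finset.mem_filter.2 ⟨T.max'_mem hTne, ?_⟩⟩
    intro i hi
    have : ((S i).filter fun l => T.max' hTne < |f i l|) = ∅ := by
      refine Finset.filter_eq_empty_iff.2 fun l hl => ?_
      exact not_lt.2 (T.le_max' _ (hT i hi l hl))
    rw [this]
    simpa using hK
  have hWA := A.min'_mem hAne
  set W := A.min' hAne with hW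
  obtain ⟨hWT, hWK⟩ := Finset.mem_filter.1 hWA
  have hW0 : 0 < W := by
    rcases (hT0 W hWT).lt_or_eq with h | h
    · exact h
    · exfalso
      have h1 := hWK i₀ hi₀
      rw [← h] at h1
      have h2 : ((S i₀).filter fun l => 0 < |f i₀ l|) = (S i₀).filter fun l => f i₀ l ≠ 0 := by
        refine Finset.filter_congr fun l _ => ?_
        exact abs_pos
      rw [h2] at h1
      exact absurd hc₀ (not_lt.2 h1)
  refine ⟨W, hW0, hWK, ?_⟩
  by_cases hT' : (T.filter fun w => w < W).Nonempty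
  · have hW'm := (T.filter fun w => w < W).max'_mem hT'
    set W' := (T.filter fun w => w < W).max' hT' with hW'
    obtain ⟨hW'T, hW'W⟩ := Finset.mem_filter.1 hW'm
    have hW'A : W' ∉ A := fun h => absurd (A.min'_le _ h) (not_le.2 hW'W)
    have h3 : ¬ ∀ i ∈ I, (((S i).filter fun l => W' < |f i l|).card : ℝ) ≤ K := fun h =>
      hW'A (Finset.mem_filter.2 ⟨hW'T, h⟩)
    push Not at h3
    obtain ⟨i, hi, hiK⟩ := h3
    refine ⟨i, hi, hiK.trans_le ?_⟩
    have hsub : ((S i).filter fun l => W' < |f i l|) ⊆ (S i).filter fun l => W ≤ |f i l| := by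
      intro l hl
      obtain ⟨hlS, hl⟩ := Finset.mem_filter.1 hl
      refine Finset.mem_filter.2 ⟨hlS, ?_⟩
      by_contra hlt
      have h4 : |f i l| ∈ T.filter fun w => w < W :=
        Finset.mem_filter.2 ⟨hT i hi l hlS, not_le.1 hlt⟩
      exact absurd ((T.filter fun w => w < W).le_max' _ h4) (not_le.2 hl)
    exact_mod_cast Finset.card_le_card hsub
  · refine ⟨i₀, hi₀, hc₀.trans_le ?_⟩
    have hsub : ((S i₀).filter fun l => f i₀ l ≠ 0) ⊆ (S i₀).filter fun l => W ≤ |f i₀ l| := by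
      intro l hl
      obtain ⟨hlS, -⟩ := Finset.mem_filter.1 hl
      refine Finset.mem_filter.2 ⟨hlS, ?_⟩
      by_contra hlt
      exact hT' ⟨_, Finset.mem_filter.2 ⟨hT i₀ hi₀ l hlS, not_le.1 hlt⟩⟩
    exact_mod_cast Finset.card_le_card hsub

end Pool.Agent.Work.MP_b25393_ag.UU
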