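import Mathlib
import Pool.Agent.Work.MP_b25393_ag.UU.StmtsB

/-!
# Item SD1: one atomic block
-/

set_option autoImplicit false

namespace Pool.Agent.Work.MP_b25393_ag.UU

open scoped Classical
open Pool.Agent.Work.MP_b25393_ag.U

namespace I_SD1

section
variable {k : ℕ} {U : Ultrafilter ℕ} {F : ℕ → Finset (ℝ × ℝ)} {s : ℕ → Fin k → ℝ} {g : ℕ → Fr}

/-- lines of a block without an atom rarely meet a small box -/
theorem light {K' : Finset (Fin k)} {lam' p y C : ℝ} {κ : ℕ → ℝ} (hC : 0 ≤ C)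
    (hκ : ∀ e : ℝ, 0 < e → ∀ᶠ n in (U : Filter ℕ), κ n ≤ e)
    (hor : ∀ i ∈ K', Hor U s g lam' i)
    (hA : ¬ Atm U F (gr F s K') (fun n => tt (g n)) (y - lam' * p)) :
    Neg U F fun n => ((gr F s K' n).filter fun l => ∃ P : ℝ × ℝ, |P.1 - p| ≤ κ n ∧
      |P.2 - y| ≤ C * κ n ∧ onl (g n) l P).card := by
  intro e he
  have h1 : ∃ η : ℝ, 0 < η ∧ ∀ᶠ n in (U : Filter ℕ),
      (cn (gr F s K') (fun n => tt (g n)) (y - lam' * p - η) (y - lam' * p + η) n : ℝ) ≤
        e * ((F n).card : ℝ) := by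
    by_contra hcon
    apply hA
    refine ⟨e, he, fun η hη => ?_⟩
    have h2 : ¬ ∀ᶠ n in (U : Filter ℕ),
      (cn (gr F s K') (fun n => tt (g n)) (y - lam' * p - η) (y - lam' * p + η) n : ℝ) ≤
        e * ((F n).card : ℝ) := fun h => hcon ⟨η, hη, h⟩
    rw [← Ultrafilter.eventually_not] at h2
    filter_upwards [h2] with n hn
    exact (not_le.mp hn).le
  obtain ⟨η, hη, h2⟩ := h1
  filter_upwards [h2, hor_lines' F hor (η / (2 * (|p| + 1))) (by positivity), hκ 1 one_pos,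
    hκ (η / (2 * (C + |lam'| + 1))) (by positivity)] with n h3 h4 h5 h6
  refine le_trans ?_ h3
  have h7 : ((gr F s K' n).filter fun l => ∃ P : ℝ × ℝ, |P.1 - p| ≤ κ n ∧
      |P.2 - y| ≤ C * κ n ∧ onl (g n) l P).card ≤
      cn (gr F s K') (fun n => tt (g n)) (y - lam' * p - η) (y - lam' * p + η) n := by
    unfold cn
    refine Finset.card_le_card fun l hl => ?_
    rw [Finset.mem_filter] at hl ⊢
    obtain ⟨hl, P, hP1, hP2, hP3⟩ := hl
    obtain ⟨hb, hs⟩ := h4 l hl
    rw [onl_hor hb] at hP3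
    have hκ0 : 0 ≤ κ n := (abs_nonneg _).trans hP1
    have h8 : tt (g n) l - (y - lam' * p) =
        (P.2 - y) - (sg (g n) l.1 - lam') * P.1 - lam' * (P.1 - p) := by
      rw [hP3]
      ring
    have h9 : |P.1| ≤ |p| + 1 := by
      have h10 : P.1 = (P.1 - p) + p := by ring
      calc |P.1| = |(P.1 - p) + p| := by rw [← h10]
        _ ≤ |P.1 - p| + |p| := abs_add_le _ _
        _ ≤ |p| + 1 := by linarith
    have h10 : |(sg (g n) l.1 - lam') * P.1| ≤ η / 2 := by
      rw [abs_mul]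
      calc |sg (g n) l.1 - lam'| * |P.1| ≤ (η / (2 * (|p| + 1))) * (|p| + 1) := by
            gcongr
        _ = η / 2 := by field_simp
    have h11 : |lam' * (P.1 - p)| ≤ |lam'| * κ n := by
      rw [abs_mul]
      exact mul_le_mul_of_nonneg_left hP1 (abs_nonneg _)
    have h12 : (C + |lam'|) * κ n ≤ η / 2 := by
      have h0 : 0 ≤ C + |lam'| := by positivity
      calc (C + |lam'|) * κ n ≤ (C + |lam'| + 1) * (η / (2 * (C + |lam'| + 1))) :=
            mul_le_mul (by linarith) h6 hκ0 (by linarith)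
        _ = η / 2 := by field_simp
    have h13 : |tt (g n) l - (y - lam' * p)| ≤ η := by
      rw [h8]
      calc |(P.2 - y) - (sg (g n) l.1 - lam') * P.1 - lam' * (P.1 - p)|
          ≤ |(P.2 - y) - (sg (g n) l.1 - lam') * P.1| + |lam' * (P.1 - p)| := abs_sub _ _
        _ ≤ |P.2 - y| + |(sg (g n) l.1 - lam') * P.1| + |lam' * (P.1 - p)| := by
            gcongr
            exact abs_sub _ _
        _ ≤ C * κ n + η / 2 + |lam'| * κ n := by gcongr
        _ ≤ η := by linarith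
    rw [abs_le] at h13
    exact ⟨hl, by linarith, by linarith⟩
  exact_mod_cast h7

end

end I_SD1

open I_SD1 in
theorem SD1_pf (hDIA : S_DIA) : S_SD1 := by
  intro k U F s g G V lam p y hS hST hp hAV K hK hAK hnA
  obtain ⟨e₁, he₁, h1⟩ := hAV
  obtain ⟨e₂, he₂, h2⟩ := hAK
  have hverV : ∀ i ∈ uni V, Ver U s g i := by
    intro i hi
    obtain ⟨K', hK', hi'⟩ := mem_uni.mp hi
    exact hST.ver K' hK' i hi'
  have hKV : K ∉ V := fun h => Finset.disjoint_left.mp hST.dGV hK h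
  obtain ⟨J, hJ1, hJ2⟩ := hDIA U (fun j n =>
    (e₁ * ((F n).card : ℝ) ≤ (cn (gr F s (uni V)) (fun n => vv (g n))
      (p - (1 / ((j : ℝ) + 1)) ^ 2) (p + (1 / ((j : ℝ) + 1)) ^ 2) n : ℝ)) ∧
    (e₂ * ((F n).card : ℝ) ≤ (cn (gr F s K) (fun n => tt (g n))
      (y - lam K * p - (1 / ((j : ℝ) + 1)) ^ 2) (y - lam K * p + (1 / ((j : ℝ) + 1)) ^ 2) n : ℝ)) ∧
    (∀ l ∈ gr F s (uni V) n, al (g n) l.1 ≠ 0 ∧ |rh (g n) l.1| ≤ (1 / ((j : ℝ) + 1)) ^ 2) ∧
    (∀ l ∈ gr F s K n, be (g n) l.1 ≠ 0 ∧ |sg (g n) l.1 - lam K| ≤ (1 / ((j : ℝ) + 1)) ^ 2))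
    hS.np (fun j => by
      have hj : 0 < (1 / ((j : ℝ) + 1)) ^ 2 := by positivity
      filter_upwards [h1 _ hj, h2 _ hj, ver_lines F hverV _ hj,
        hor_lines' F (hST.hor K hK) _ hj] with n h3 h4 h5 h6
      exact ⟨h3, h4, h5, h6⟩)
  obtain ⟨κ, hκ⟩ : ∃ κ : ℕ → ℝ, κ = fun n => 1 / ((J n : ℝ) + 1) := ⟨_, rfl⟩
  have hκ0 : ∀ n, 0 < κ n := by
    intro n
    rw [hκ]
    positivity
  have hκe : ∀ e : ℝ, 0 < e → ∀ᶠ n in (U : Filter ℕ), κ n ≤ e := by
    intro e he
    obtain ⟨m, hm⟩ := exists_nat_gt (1 / e)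
    filter_upwards [hJ1 m] with n hn
    rw [hκ]
    have h3 : (m : ℝ) ≤ (J n : ℝ) := by exact_mod_cast hn
    have h4 : 0 < (J n : ℝ) + 1 := by positivity
    show 1 / ((J n : ℝ) + 1) ≤ e
    rw [div_le_iff₀ h4]
    rw [div_lt_iff₀ he] at hm
    nlinarith
  have hP : ∀ᶠ n in (U : Filter ℕ),
    (e₁ * ((F n).card : ℝ) ≤ (cn (gr F s (uni V)) (fun n => vv (g n))
      (p - (κ n) ^ 2) (p + (κ n) ^ 2) n : ℝ)) ∧
    (e₂ * ((F n).card : ℝ) ≤ (cn (gr F s K) (fun n => tt (g n))
      (y - lam K * p - (κ n) ^ 2) (y - lam K * p + (κ n) ^ 2) n : ℝ)) ∧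
    (∀ l ∈ gr F s (uni V) n, al (g n) l.1 ≠ 0 ∧ |rh (g n) l.1| ≤ (κ n) ^ 2) ∧
    (∀ l ∈ gr F s K n, be (g n) l.1 ≠ 0 ∧ |sg (g n) l.1 - lam K| ≤ (κ n) ^ 2) := by
    filter_upwards [hJ2] with n hn
    rw [hκ]
    exact hn
  clear hJ2 hκ hJ1
  have ha : ∀ n, κ n ≠ 0 := fun n => (hκ0 n).ne'
  obtain ⟨g', hg'⟩ : ∃ g' : ℕ → Fr, g' = fun n =>
    cmp (g n) (hfr p y (κ n) (κ n) (lam K * κ n) (ha n) (ha n)) := ⟨_, rfl⟩
  have hΛ : 0 ≤ |lam K| + 1 := by positivity
  -- the box of `g'`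
  have hbox : ∀ n, ∀ P : ℝ × ℝ, |P.1 - p| ≤ κ n → |P.2 - y| ≤ (|lam K| + 1) * κ n → κ n ≤ 1 / 4 →
      |P.1| ≤ 3 / 4 ∧ |P.2| ≤ |y| + |lam K| + 1 := by
    intro n P h3 h4 h5
    constructor
    · have h6 : P.1 = (P.1 - p) + p := by ring
      calc |P.1| = |(P.1 - p) + p| := by rw [← h6]
        _ ≤ |P.1 - p| + |p| := abs_add_le _ _
        _ ≤ 3 / 4 := by linarith
    · have h6 : P.2 = (P.2 - y) + y := by ring
      have h7 : (|lam K| + 1) * κ n ≤ |lam K| + 1 := by
        have h8 : κ n ≤ 1 := by linarith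
        nlinarith
      calc |P.2| = |(P.2 - y) + y| := by rw [← h6]
        _ ≤ |P.2 - y| + |y| := abs_add_le _ _
        _ ≤ |y| + |lam K| + 1 := by linarith
  have hhit : ∀ n l, hit (g' n) 1 l → ∃ P : ℝ × ℝ, |P.1 - p| ≤ κ n ∧
      |P.2 - y| ≤ (|lam K| + 1) * κ n ∧ onl (g n) l P := by
    intro n l hl
    rw [hg'] at hl
    obtain ⟨P, h3, h4, h5⟩ := hit_hfr hl
    refine ⟨P, ?_, ?_, h5⟩
    · rwa [abs_of_pos (hκ0 n), mul_one] at h3
    · rw [abs_mul, abs_of_pos (hκ0 n), mul_one] at h4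
      calc |P.2 - y| ≤ |lam K| * κ n + κ n := h4
        _ = (|lam K| + 1) * κ n := by ring
  have hcrp : ∀ G' : ℕ → Finset (ℝ × ℝ), ∀ᶠ n in (U : Filter ℕ),
      crp (g' n) 1 1 (G' n) ≤ crp (g n) (3 / 4) (|y| + |lam K| + 1) (G' n) := by
    intro G'
    filter_upwards [hκe (1 / 4) (by norm_num)] with n hn
    unfold crp
    refine Finset.card_le_card fun q hq => ?_
    rw [Finset.mem_filter] at hq ⊢
    obtain ⟨hq1, hq2, hq3⟩ := hq
    rw [hg'] at hq3
    obtain ⟨P, h3, h4, h5, h6⟩ := crb_hfr hq3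
    rw [abs_of_pos (hκ0 n), mul_one] at h3
    have h7 : |P.2 - y| ≤ (|lam K| + 1) * κ n := by
      rw [abs_mul, abs_of_pos (hκ0 n), mul_one, mul_one] at h4
      calc |P.2 - y| ≤ |lam K| * κ n + κ n := h4
        _ = (|lam K| + 1) * κ n := by ring
    obtain ⟨h8, h9⟩ := hbox n P h3 h7 hn
    exact ⟨hq1, hq2, P, h8, h9, h5, h6⟩
  have hKG : ∀ a ∈ K, a ∈ uni G := fun a ha => mem_uni.mpr ⟨K, hK, ha⟩
  refine ⟨g', ⟨?_, ?_, ?_, ?_, ?_, ?_, ?_, ?_, ?_, ?_⟩⟩
  · -- dA
    intro K' hK'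
    refine hST.dis K (Finset.mem_union_left _ hK) K' (Finset.mem_union_right _ hK') ?_
    rintro rfl
    exact hKV hK'
  · -- dB
    intro K₁ hK₁ K₂ hK₂ hne
    exact hST.dis K₁ (Finset.mem_union_right _ hK₁) K₂ (Finset.mem_union_right _ hK₂) hne
  · -- hor
    intro i hi
    rw [hg']
    refine hor_hfr ha ha (hST.hor K hK i hi) (fun e he => ?_) 1 ?_
    · filter_upwards with n
      have h3 : κ n * lam K - lam K * κ n - 0 * κ n = 0 := by ring
      rw [h3, abs_zero]
      positivity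
    · filter_upwards with n
      rw [one_mul]
  · -- ver
    intro K' hK' i hi
    rw [hg']
    refine ver_hfr ha ha (hST.ver K' hK' i hi) (|lam K| + 1) ?_
    filter_upwards with n
    have h3 := abs_nonneg (κ n)
    have h4 := abs_nonneg (lam K)
    constructor
    · nlinarith
    · rw [abs_mul]
      nlinarith
  · -- con
    have hcon := hST.con (|y| + |lam K| + 1)
    have hsum := Neg.sum (U := U) (F := F) (G.erase K) (fun K' n =>
      ((gr F s K' n).filter fun l => ∃ P : ℝ × ℝ, |P.1 - p| ≤ κ n ∧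
      |P.2 - y| ≤ (|lam K| + 1) * κ n ∧ onl (g n) l P).card) (fun K' hK' => by
        rw [Finset.mem_erase] at hK'
        exact light hΛ hκe (hST.hor K' hK'.2) (hnA K' hK'.2 hK'.1))
    refine (hcon.add hsum).mono ?_
    filter_upwards [hκe (1 / 4) (by norm_num)] with n hn
    calc ((F n).filter fun l => l ∉ gr F s (K ∪ uni V) n ∧ hit (g' n) 1 l).card
        ≤ (((F n).filter fun l => l ∉ gr F s (uni G ∪ uni V) n ∧
            ∃ P : ℝ × ℝ, |P.1| ≤ 3 / 4 ∧ |P.2| ≤ |y| + |lam K| + 1 ∧ onl (g n) l P) ∪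
          ((G.erase K).biUnion fun K' => (gr F s K' n).filter fun l => ∃ P : ℝ × ℝ,
            |P.1 - p| ≤ κ n ∧ |P.2 - y| ≤ (|lam K| + 1) * κ n ∧ onl (g n) l P)).card := by
          refine Finset.card_le_card fun l hl => ?_
          rw [Finset.mem_filter] at hl
          obtain ⟨hlF, hlK, hlh⟩ := hl
          obtain ⟨P, h3, h4, h5⟩ := hhit n l hlh
          rw [Finset.mem_union]
          by_cases hlG : l ∈ gr F s (uni G ∪ uni V) n
          · right
            obtain ⟨_, i, hi, hli⟩ := mem_gr.mp hlG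
            have hiK : i ∉ K ∪ uni V := fun h => hlK (mem_gr.mpr ⟨hlF, i, h, hli⟩)
            rw [Finset.mem_union] at hi hiK
            push Not at hiK
            rcases hi with hi | hi
            · obtain ⟨K', hK', hiK'⟩ := mem_uni.mp hi
              rw [Finset.mem_biUnion]
              refine ⟨K', Finset.mem_erase.mpr ⟨?_, hK'⟩, ?_⟩
              · rintro rfl
                exact hiK.1 hiK'
              · rw [Finset.mem_filter]
                exact ⟨mem_gr.mpr ⟨hlF, i, hiK', hli⟩, P, h3, h4, h5⟩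
            · exact absurd hi hiK.2
          · left
            rw [Finset.mem_filter]
            obtain ⟨h8, h9⟩ := hbox n P h3 h4 hn
            exact ⟨hlF, hlG, P, h8, h9, h5⟩
      _ ≤ _ := Finset.card_union_le _ _
      _ ≤ _ := Nat.add_le_add_left Finset.card_biUnion_le _
  · -- crA
    exact (hST.cr K (Finset.mem_union_left _ hK) (|y| + |lam K| + 1)).mono (hcrp _)
  · -- crB
    intro K' hK'
    exact (hST.cr K' (Finset.mem_union_right _ hK') (|y| + |lam K| + 1)).mono (hcrp _)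
  · -- sep
    intro K' hK' i hi i' hi' j hj hjK a haK
    exact hST.sep K' hK' i hi i' hi' j hj hjK a (hKG a haK)
  · -- cA
    intro η hη
    refine ⟨e₂, he₂, ?_⟩
    filter_upwards [hP, hκe (η / 2) (by positivity)] with n hn hn2
    obtain ⟨_, h3, _, h4⟩ := hn
    refine h3.trans ?_
    have h5 : cn (gr F s K) (fun n => tt (g n)) (y - lam K * p - (κ n) ^ 2)
        (y - lam K * p + (κ n) ^ 2) n ≤ cn (gr F s K) (fun n => tt (g' n)) (0 - η) (0 + η) n := by
      unfold cn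
      refine Finset.card_le_card fun l hl => ?_
      rw [Finset.mem_filter] at hl ⊢
      obtain ⟨hl1, hl2, hl3⟩ := hl
      refine ⟨hl1, ?_⟩
      obtain ⟨hb, hs⟩ := h4 l hl1
      have h6 : tt (g' n) l = (tt (g n) l + sg (g n) l.1 * p - y) / κ n := by
        rw [hg']
        exact tt_hfr (g n) p y (κ n) (κ n) (lam K * κ n) l (ha n) (ha n) hb
      have h7 : |tt (g n) l + sg (g n) l.1 * p - y| ≤ 2 * κ n ^ 2 := by
        have h8 : tt (g n) l + sg (g n) l.1 * p - y =
          (tt (g n) l - (y - lam K * p)) + (sg (g n) l.1 - lam K) * p := by ring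
        have h9 : |tt (g n) l - (y - lam K * p)| ≤ κ n ^ 2 := by
          rw [abs_le]
          constructor <;> linarith
        have h10 : |(sg (g n) l.1 - lam K) * p| ≤ κ n ^ 2 := by
          rw [abs_mul]
          calc |sg (g n) l.1 - lam K| * |p| ≤ κ n ^ 2 * 1 := by
                gcongr
                linarith
            _ = κ n ^ 2 := mul_one _
        rw [h8]
        calc |(tt (g n) l - (y - lam K * p)) + (sg (g n) l.1 - lam K) * p|
            ≤ |tt (g n) l - (y - lam K * p)| + |(sg (g n) l.1 - lam K) * p| := abs_add_le _ _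
          _ ≤ 2 * κ n ^ 2 := by linarith
      have h8 : |tt (g' n) l| ≤ η := by
        rw [h6, abs_div, abs_of_pos (hκ0 n), div_le_iff₀ (hκ0 n)]
        have := hκ0 n
        nlinarith
      rw [abs_le] at h8
      constructor
      · show 0 - η ≤ tt (g' n) l
        linarith [h8.1]
      · show tt (g' n) l ≤ 0 + η
        linarith [h8.2]
    exact_mod_cast h5
  · -- cB
    intro η hη
    refine ⟨e₁, he₁, ?_⟩
    filter_upwards [hP, hκe (η / (2 * (1 + |y|))) (by positivity),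
      hκe (1 / (2 * (|lam K| + 1))) (by positivity), hκe 1 one_pos] with n hn hn2 hn3 hn4
    obtain ⟨h3, _, h4, _⟩ := hn
    refine h3.trans ?_
    have h5 : cn (gr F s (uni V)) (fun n => vv (g n)) (p - (κ n) ^ 2)
        (p + (κ n) ^ 2) n ≤ cn (gr F s (uni V)) (fun n => vv (g' n)) (0 - η) (0 + η) n := by
      unfold cn
      refine Finset.card_le_card fun l hl => ?_
      rw [Finset.mem_filter] at hl ⊢
      obtain ⟨hl1, hl2, hl3⟩ := hl
      refine ⟨hl1, ?_⟩
      obtain ⟨hb, hs⟩ := h4 l hl1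
      have hκn := hκ0 n
      have h10 : |rh (g n) l.1 * lam K| ≤ 1 / 2 := by
        rw [abs_mul]
        have h11 : κ n ^ 2 ≤ κ n := by nlinarith
        calc |rh (g n) l.1| * |lam K| ≤ (1 / (2 * (|lam K| + 1))) * (|lam K| + 1) := by
              gcongr
              · linarith
              · linarith
          _ = 1 / 2 := by field_simp
      have h11 : 1 / 2 ≤ 1 - rh (g n) l.1 * lam K := by
        have := (abs_le.mp h10).2
        linarith
      have h12 : κ n - rh (g n) l.1 * (lam K * κ n) = κ n * (1 - rh (g n) l.1 * lam K) := by ring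
      have h13 : κ n - rh (g n) l.1 * (lam K * κ n) ≠ 0 := by
        rw [h12]
        have : 0 < 1 - rh (g n) l.1 * lam K := by linarith
        positivity
      have h6 : vv (g' n) l = (vv (g n) l - p + rh (g n) l.1 * y) /
          (κ n - rh (g n) l.1 * (lam K * κ n)) := by
        rw [hg']
        exact vv_hfr (g n) p y (κ n) (κ n) (lam K * κ n) l (ha n) (ha n) hb h13
      have h7 : |vv (g n) l - p + rh (g n) l.1 * y| ≤ (1 + |y|) * κ n ^ 2 := by
        have h9 : |vv (g n) l - p| ≤ κ n ^ 2 := by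
          rw [abs_le]
          constructor <;> linarith
        have h10 : |rh (g n) l.1 * y| ≤ κ n ^ 2 * |y| := by
          rw [abs_mul]
          exact mul_le_mul_of_nonneg_right hs (abs_nonneg _)
        calc |vv (g n) l - p + rh (g n) l.1 * y|
            ≤ |vv (g n) l - p| + |rh (g n) l.1 * y| := abs_add_le _ _
          _ ≤ (1 + |y|) * κ n ^ 2 := by linarith
      have h14 : 0 < κ n * (1 - rh (g n) l.1 * lam K) := by
        have : 0 < 1 - rh (g n) l.1 * lam K := by linarith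
        positivity
      have h8 : |vv (g' n) l| ≤ η := by
        rw [h6, h12, abs_div, abs_of_pos h14, div_le_iff₀ h14]
        have h15 : (1 + |y|) * κ n ≤ η / 2 := by
          calc (1 + |y|) * κ n ≤ (1 + |y|) * (η / (2 * (1 + |y|))) := by gcongr
            _ = η / 2 := by field_simp
        calc |vv (g n) l - p + rh (g n) l.1 * y| ≤ (1 + |y|) * κ n ^ 2 := h7
          _ = ((1 + |y|) * κ n) * κ n := by ring
          _ ≤ (η / 2) * κ n := mul_le_mul_of_nonneg_right h15 hκn.le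
          _ = η * (κ n * (1 / 2)) := by ring
          _ ≤ η * (κ n * (1 - rh (g n) l.1 * lam K)) := by gcongr
      rw [abs_le] at h8
      constructor
      · show 0 - η ≤ vv (g' n) l
        linarith [h8.1]
      · show vv (g' n) l ≤ 0 + η
        linarith [h8.2]
    exact_mod_cast h5

end Pool.Agent.Work.MP_b25393_ag.UU
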