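import Mathlib
import Pool.Agent.Work.MP_b25393_ag.UU.StmtsB

/-!
# SD2: at least two atomic blocks at the same height
-/

set_option autoImplicit false

namespace Pool.Agent.Work.MP_b25393_ag.UU

open scoped Classical
open Pool.Agent.Work.MP_b25393_ag.U

namespace I_SD2

theorem hitH {g : Fr} {l P : ℝ × ℝ} {lam p y ρ δ Λ : ℝ} (hbe : be g l.1 ≠ 0)
    (hsg : |sg g l.1 - lam| ≤ δ) (hP : onl g l P) (h1 : |P.1 - p| ≤ ρ) (h2 : |P.2 - y| ≤ ρ)
    (hp : |p| < 1 / 2) (hΛ : |lam| + 1 ≤ Λ) (hδ : δ ≤ 1) :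
    |tt g l - (y - lam * p)| ≤ 2 * Λ * ρ + δ := by
  rw [onl_hor hbe] at hP
  have hρ : 0 ≤ ρ := (abs_nonneg _).trans h1
  have hδ0 : 0 ≤ δ := (abs_nonneg _).trans hsg
  have hl0 := abs_nonneg lam
  have hs : |sg g l.1| ≤ Λ := by
    have h3 : sg g l.1 = lam + (sg g l.1 - lam) := by ring
    rw [h3]
    have h4 := abs_add_le lam (sg g l.1 - lam)
    linarith
  have e1 : tt g l - (y - lam * p) =
      (P.2 - y) + (-(sg g l.1 * (P.1 - p)) + -((sg g l.1 - lam) * p)) := by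
    rw [hP]
    ring
  rw [e1]
  have h5 : |sg g l.1 * (P.1 - p)| ≤ Λ * ρ := by
    rw [abs_mul]
    exact mul_le_mul hs h1 (abs_nonneg _) (by linarith)
  have h6 : |(sg g l.1 - lam) * p| ≤ δ * 1 := by
    rw [abs_mul]
    exact mul_le_mul hsg (by linarith) (abs_nonneg _) hδ0
  have h7 := abs_add_le (P.2 - y) (-(sg g l.1 * (P.1 - p)) + -((sg g l.1 - lam) * p))
  have h8 := abs_add_le (-(sg g l.1 * (P.1 - p))) (-((sg g l.1 - lam) * p))
  rw [abs_neg, abs_neg] at h8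
  have h9 : ρ ≤ Λ * ρ := by
    have : 0 ≤ (Λ - 1) * ρ := mul_nonneg (by linarith) hρ
    linarith
  linarith

theorem hitV {g : Fr} {l P : ℝ × ℝ} {p y ρ δ : ℝ} (hal : al g l.1 ≠ 0)
    (hrh : |rh g l.1| ≤ δ) (hP : onl g l P) (h1 : |P.1 - p| ≤ ρ) (h2 : |P.2 - y| ≤ ρ)
    (hρ1 : ρ ≤ 1) :
    |vv g l - p| ≤ ρ + δ * (1 + |y|) := by
  rw [onl_ver hal] at hP
  have hδ0 : 0 ≤ δ := (abs_nonneg _).trans hrh
  have h3 : |P.2| ≤ 1 + |y| := by
    have h4 : P.2 = (P.2 - y) + y := by ring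
    rw [h4]
    have h5 := abs_add_le (P.2 - y) y
    linarith
  have e1 : vv g l - p = (P.1 - p) + -(rh g l.1 * P.2) := by
    rw [hP]
    ring
  rw [e1]
  have h6 : |rh g l.1 * P.2| ≤ δ * (1 + |y|) := by
    rw [abs_mul]
    exact mul_le_mul hrh h3 (abs_nonneg _) hδ0
  have h7 := abs_add_le (P.1 - p) (-(rh g l.1 * P.2))
  rw [abs_neg] at h7
  linarith

theorem seqs {κ : ℕ → ℝ} {Λ y : ℝ} (hΛ : 1 ≤ Λ) (hκ : ∀ j, 0 < κ j) :
    ∃ ρ u r δ : ℕ → ℝ, ∀ j : ℕ, 0 < ρ j ∧ 4 * Λ * ρ j = κ j ∧ 0 < u j ∧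
      u j * ((j : ℝ) + 1) = ρ j ∧ 0 < r j ∧ 2 * ((j : ℝ) + 1) * r j = ρ j ∧ 0 < δ j ∧
      4 * (1 + |y|) * δ j = r j := by
  have h0 : (0 : ℝ) < Λ := by linarith
  have h1 : 0 ≤ |y| := abs_nonneg y
  refine ⟨fun j => κ j / (4 * Λ), fun j => κ j / (4 * Λ) / ((j : ℝ) + 1),
    fun j => κ j / (4 * Λ) / (2 * ((j : ℝ) + 1)),
    fun j => κ j / (4 * Λ) / (2 * ((j : ℝ) + 1)) / (4 * (1 + |y|)), fun j => ?_⟩
  have hk := hκ j
  refine ⟨by positivity, ?_, by positivity, ?_, by positivity, ?_, by positivity, ?_⟩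
  · field_simp
  · field_simp
  · field_simp
  · field_simp


theorem nums {κ ρ r δ Λ y a : ℝ} (hΛ : 1 ≤ Λ) (ha : 1 ≤ a) (hκ1 : κ ≤ 1 / a)
    (h1 : 0 < ρ) (h2 : 4 * Λ * ρ = κ) (h3 : 0 < r) (h4 : 2 * a * r = ρ) (h5 : 0 < δ)
    (h6 : 4 * (1 + |y|) * δ = r) :
    ρ ≤ 1 / a ∧ ρ ≤ 1 / 4 ∧ δ ≤ r / 4 ∧ δ * (1 + |y|) = r / 4 ∧ r ≤ ρ / 2 ∧ r < κ ∧
      2 * Λ * ρ + δ ≤ κ ∧ ρ + r / 4 ≤ κ ∧ 4 * ρ ≤ κ := by
  have hy := abs_nonneg y
  have ha0 : 0 < a := by linarith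
  have e1 : ρ ≤ Λ * ρ := by
    have : 0 ≤ (Λ - 1) * ρ := mul_nonneg (by linarith) h1.le
    linarith
  have e2 : 4 * ρ ≤ κ := by linarith
  have e3 : 1 / a ≤ 1 := by
    rw [div_le_one ha0]
    exact ha
  have e4 : r ≤ a * r := by
    have : 0 ≤ (a - 1) * r := mul_nonneg (by linarith) h3.le
    linarith
  have e5 : 0 ≤ |y| * δ := mul_nonneg hy h5.le
  have e6 : δ ≤ r / 4 := by linarith
  have e7 : r ≤ ρ / 2 := by linarith
  refine ⟨by linarith, by linarith, e6, by linarith, e7, by linarith, by linarith, by linarith,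
    e2⟩

/-- the common value of all annuli conditions -/
theorem annm (hANN : S_ANN) {k : ℕ} (U : Ultrafilter ℕ) (F : ℕ → Finset (ℝ × ℝ))
    (s : ℕ → Fin k → ℝ) (g : ℕ → Fr) (V : Finset (Finset (Fin k))) (p : ℝ)
    (t : Finset (Fin k) → ℝ) (G' : Finset (Finset (Fin k))) (e b : ℝ) (he : 0 < e) (hb : 0 < b) :
    ∃ κ : ℝ, 0 < κ ∧ κ ≤ b ∧ ∀ r : ℝ, 0 < r → r < κ → ∀ᶠ n in (U : Filter ℕ),
      (((gr F s (uni V) n).filter fun l => r < |vv (g n) l - p| ∧ |vv (g n) l - p| ≤ κ).card : ℝ) ≤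
        e * ((F n).card : ℝ) ∧
      ∀ K ∈ G', (((gr F s K n).filter fun l =>
        r < |tt (g n) l - t K| ∧ |tt (g n) l - t K| ≤ κ).card : ℝ) ≤ e * ((F n).card : ℝ) := by
  obtain ⟨κV, hV0, hV⟩ := hANN U F (gr F s (uni V)) (fun n => vv (g n)) p
    (fun n => gr_sub F s _ n) e he
  have hG : ∃ κ : ℝ, 0 < κ ∧ ∀ r : ℝ, 0 < r → r < κ → ∀ K ∈ G', ∀ᶠ n in (U : Filter ℕ),
      (((gr F s K n).filter fun l =>
        r < |tt (g n) l - t K| ∧ |tt (g n) l - t K| ≤ κ).card : ℝ) ≤ e * ((F n).card : ℝ) := by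
    induction G' using Finset.induction_on with
    | empty => exact ⟨1, one_pos, fun r _ _ K hK => absurd hK (Finset.notMem_empty K)⟩
    | insert K₀ S hK₀ ih =>
      obtain ⟨κ₁, h1, h2⟩ := ih
      obtain ⟨κ₂, h3, h4⟩ := hANN U F (gr F s K₀) (fun n => tt (g n)) (t K₀)
        (fun n => gr_sub F s _ n) e he
      refine ⟨min κ₁ κ₂, lt_min h1 h3, fun r hr0 hr K hK => ?_⟩
      rcases Finset.mem_insert.mp hK with h5 | h5
      · subst h5
        filter_upwards [h4 r hr0 (lt_of_lt_of_le hr (min_le_right _ _))] with n hn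
        refine le_trans ?_ hn
        norm_cast
        apply Finset.card_le_card
        intro l hl
        rw [Finset.mem_filter] at hl ⊢
        exact ⟨hl.1, hl.2.1, hl.2.2.trans (min_le_right _ _)⟩
      · filter_upwards [h2 r hr0 (lt_of_lt_of_le hr (min_le_left _ _)) K h5] with n hn
        refine le_trans ?_ hn
        norm_cast
        apply Finset.card_le_card
        intro l hl
        rw [Finset.mem_filter] at hl ⊢
        exact ⟨hl.1, hl.2.1, hl.2.2.trans (min_le_left _ _)⟩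
  obtain ⟨κG, hG0, hG⟩ := hG
  refine ⟨min b (min κV κG), lt_min hb (lt_min hV0 hG0), min_le_left _ _, fun r hr0 hr => ?_⟩
  have hrV : r < κV := lt_of_lt_of_le hr ((min_le_right _ _).trans (min_le_left _ _))
  have hrG : r < κG := lt_of_lt_of_le hr ((min_le_right _ _).trans (min_le_right _ _))
  have h7 : ∀ᶠ n in (U : Filter ℕ), ∀ K ∈ G', (((gr F s K n).filter fun l =>
        r < |tt (g n) l - t K| ∧ |tt (g n) l - t K| ≤ κG).card : ℝ) ≤ e * ((F n).card : ℝ) := by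
    rw [Filter.eventually_all_finset]
    exact fun K hK => hG r hr0 hrG K hK
  filter_upwards [hV r hr0 hrV, h7] with n h8 h9
  constructor
  · refine le_trans ?_ h8
    norm_cast
    apply Finset.card_le_card
    intro l hl
    rw [Finset.mem_filter] at hl ⊢
    exact ⟨hl.1, hl.2.1, hl.2.2.trans ((min_le_right _ _).trans (min_le_left _ _))⟩
  · intro K hK
    refine le_trans ?_ (h9 K hK)
    norm_cast
    apply Finset.card_le_card
    intro l hl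
    rw [Finset.mem_filter] at hl ⊢
    exact ⟨hl.1, hl.2.1, hl.2.2.trans ((min_le_right _ _).trans (min_le_right _ _))⟩

/-- from `J → ∞` -/
theorem ev_inv {U : Ultrafilter ℕ} {J : ℕ → ℕ} (hJ : ∀ m : ℕ, ∀ᶠ n in (U : Filter ℕ), m ≤ J n)
    (e : ℝ) (he : 0 < e) : ∀ᶠ n in (U : Filter ℕ), 1 / ((J n : ℝ) + 1) ≤ e := by
  obtain ⟨m, hm⟩ := exists_nat_gt (1 / e)
  filter_upwards [hJ m] with n hn
  have h1 : (m : ℝ) ≤ (J n : ℝ) := by exact_mod_cast hn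
  have h2 : (0 : ℝ) < (J n : ℝ) + 1 := by positivity
  rw [div_le_iff₀ h2]
  rw [div_lt_iff₀ he] at hm
  have h3 : (m : ℝ) * e ≤ ((J n : ℝ) + 1) * e := mul_le_mul_of_nonneg_right (by linarith) he.le
  linarith


/-- the diagonal choice -/
structure Diag {k : ℕ} (U : Ultrafilter ℕ) (F : ℕ → Finset (ℝ × ℝ)) (s : ℕ → Fin k → ℝ)
    (g : ℕ → Fr) (G V : Finset (Finset (Fin k))) (lam : Finset (Fin k) → ℝ) (p y Λ : ℝ)
    (G' : Finset (Finset (Fin k))) (e : Finset (Fin k) → ℝ) (J : ℕ → ℕ)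
    (κ ρ u r δ : ℕ → ℝ) : Prop where
  inf : ∀ m : ℕ, ∀ᶠ n in (U : Filter ℕ), m ≤ J n
  kb : ∀ n, κ n ≤ 1 / ((J n : ℝ) + 1)
  ρ0 : ∀ n, 0 < ρ n
  ρκ : ∀ n, 4 * Λ * ρ n = κ n
  u0 : ∀ n, 0 < u n
  uρ : ∀ n, u n * ((J n : ℝ) + 1) = ρ n
  r0 : ∀ n, 0 < r n
  rρ : ∀ n, 2 * ((J n : ℝ) + 1) * r n = ρ n
  δ0 : ∀ n, 0 < δ n
  δr : ∀ n, 4 * (1 + |y|) * δ n = r n
  annV : ∀ᶠ n in (U : Filter ℕ),
    (((gr F s (uni V) n).filter fun l => r n < |vv (g n) l - p| ∧ |vv (g n) l - p| ≤ κ n).card : ℝ) ≤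
        1 / ((J n : ℝ) + 1) * ((F n).card : ℝ)
  annG : ∀ᶠ n in (U : Filter ℕ), ∀ K ∈ G', (((gr F s K n).filter fun l =>
    r n < |tt (g n) l - (y - lam K * p)| ∧ |tt (g n) l - (y - lam K * p)| ≤ κ n).card : ℝ) ≤
      1 / ((J n : ℝ) + 1) * ((F n).card : ℝ)
  atm : ∀ᶠ n in (U : Filter ℕ), ∀ K ∈ G', e K * ((F n).card : ℝ) ≤
    (((gr F s K n).filter fun l => |tt (g n) l - (y - lam K * p)| ≤ δ n).card : ℝ)
  hor : ∀ᶠ n in (U : Filter ℕ), ∀ K ∈ G, ∀ l ∈ gr F s K n,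
      be (g n) l.1 ≠ 0 ∧ |sg (g n) l.1 - lam K| ≤ δ n
  ver : ∀ᶠ n in (U : Filter ℕ), ∀ l ∈ gr F s (uni V) n,
      al (g n) l.1 ≠ 0 ∧ |rh (g n) l.1| ≤ δ n

theorem diag (hDIA : S_DIA) (hANN : S_ANN) {k : ℕ} (U : Ultrafilter ℕ)
    (F : ℕ → Finset (ℝ × ℝ)) (s : ℕ → Fin k → ℝ)
    (g : ℕ → Fr) (G V : Finset (Finset (Fin k))) (lam : Finset (Fin k) → ℝ) (p y Λ : ℝ)
    (G' : Finset (Finset (Fin k))) (hU : ∀ m : ℕ, ∀ᶠ n in (U : Filter ℕ), m ≤ n)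
    (hst : ST U F s g G V lam) (hΛ : 1 ≤ Λ)
    (hat : ∀ K ∈ G', Atm U F (gr F s K) (fun n => tt (g n)) (y - lam K * p)) :
    ∃ (e : Finset (Fin k) → ℝ) (J : ℕ → ℕ) (κ ρ u r δ : ℕ → ℝ), (∀ K ∈ G', 0 < e K) ∧
      Diag U F s g G V lam p y Λ G' e J κ ρ u r δ := by
  have h1 : ∀ K : Finset (Fin k), ∃ e : ℝ, K ∈ G' → 0 < e ∧ ∀ η : ℝ, 0 < η →
      ∀ᶠ n in (U : Filter ℕ), e * ((F n).card : ℝ) ≤
        (cn (gr F s K) (fun n => tt (g n)) (y - lam K * p - η) (y - lam K * p + η) n : ℝ) := by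
    intro K
    by_cases hK : K ∈ G'
    · obtain ⟨e, he, h⟩ := hat K hK
      exact ⟨e, fun _ => ⟨he, h⟩⟩
    · exact ⟨0, fun h => absurd h hK⟩
  choose e he using h1
  have h2 : ∀ j : ℕ, ∃ κ : ℝ, 0 < κ ∧ κ ≤ 1 / ((j : ℝ) + 1) ∧ ∀ r : ℝ, 0 < r → r < κ →
      ∀ᶠ n in (U : Filter ℕ),
      (((gr F s (uni V) n).filter fun l => r < |vv (g n) l - p| ∧ |vv (g n) l - p| ≤ κ).card : ℝ) ≤
        1 / ((j : ℝ) + 1) * ((F n).card : ℝ) ∧
      ∀ K ∈ G', (((gr F s K n).filter fun l =>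
        r < |tt (g n) l - (y - lam K * p)| ∧ |tt (g n) l - (y - lam K * p)| ≤ κ).card : ℝ) ≤
          1 / ((j : ℝ) + 1) * ((F n).card : ℝ) := by
    intro j
    exact annm hANN U F s g V p (fun K => y - lam K * p) G' _ _ (by positivity) (by positivity)
  choose κ hκ0 hκ1 hκ2 using h2
  obtain ⟨ρ, u, r, δ, hs⟩ := seqs (κ := κ) (y := y) hΛ hκ0
  have hP : ∀ j : ℕ, ∀ᶠ n in (U : Filter ℕ),
      ((((gr F s (uni V) n).filter fun l =>
          r j < |vv (g n) l - p| ∧ |vv (g n) l - p| ≤ κ j).card : ℝ) ≤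
        1 / ((j : ℝ) + 1) * ((F n).card : ℝ) ∧
      ∀ K ∈ G', (((gr F s K n).filter fun l =>
        r j < |tt (g n) l - (y - lam K * p)| ∧ |tt (g n) l - (y - lam K * p)| ≤ κ j).card : ℝ) ≤
          1 / ((j : ℝ) + 1) * ((F n).card : ℝ)) ∧
      (∀ K ∈ G', e K * ((F n).card : ℝ) ≤
        (((gr F s K n).filter fun l => |tt (g n) l - (y - lam K * p)| ≤ δ j).card : ℝ)) ∧
      (∀ K ∈ G, ∀ l ∈ gr F s K n, be (g n) l.1 ≠ 0 ∧ |sg (g n) l.1 - lam K| ≤ δ j) ∧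
      (∀ l ∈ gr F s (uni V) n, al (g n) l.1 ≠ 0 ∧ |rh (g n) l.1| ≤ δ j) := by
    intro j
    obtain ⟨a1, a2, a3, a4, a5, a6, a7, a8⟩ := hs j
    have hj : (1 : ℝ) ≤ (j : ℝ) + 1 := by
      have : (0 : ℝ) ≤ (j : ℝ) := Nat.cast_nonneg j
      linarith
    obtain ⟨b1, b2, b3, b4, b5, b6, b7, b8, b9⟩ := nums hΛ hj (hκ1 j) a1 a2 a5 a6 a7 a8
    have c1 : ∀ᶠ n in (U : Filter ℕ), ∀ K ∈ G', e K * ((F n).card : ℝ) ≤
        (((gr F s K n).filter fun l => |tt (g n) l - (y - lam K * p)| ≤ δ j).card : ℝ) := by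
      rw [Filter.eventually_all_finset]
      intro K hK
      filter_upwards [(he K hK).2 (δ j) a7] with n hn
      refine hn.trans (le_of_eq ?_)
      unfold cn
      congr 2
      ext l
      rw [Finset.mem_filter, Finset.mem_filter, abs_le]
      constructor
      · rintro ⟨d1, d2, d3⟩
        exact ⟨d1, by linarith, by linarith⟩
      · rintro ⟨d1, d2, d3⟩
        exact ⟨d1, by linarith, by linarith⟩
    have c2 : ∀ i ∈ uni V, Ver U s g i := by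
      intro i hi
      obtain ⟨K, hK, hi⟩ := mem_uni.mp hi
      exact hst.ver K hK i hi
    exact (hκ2 j (r j) a5 b6).and (c1.and ((hor_lines F hst.hor (δ j) a7).and
      (ver_lines F c2 (δ j) a7)))
  obtain ⟨J, hJ, hJP⟩ := hDIA U _ hU hP
  refine ⟨e, J, fun n => κ (J n), fun n => ρ (J n), fun n => u (J n), fun n => r (J n),
    fun n => δ (J n), fun K hK => (he K hK).1, ?_⟩
  exact {
    inf := hJ
    kb := fun n => hκ1 (J n)
    ρ0 := fun n => (hs (J n)).1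
    ρκ := fun n => (hs (J n)).2.1
    u0 := fun n => (hs (J n)).2.2.1
    uρ := fun n => (hs (J n)).2.2.2.1
    r0 := fun n => (hs (J n)).2.2.2.2.1
    rρ := fun n => (hs (J n)).2.2.2.2.2.1
    δ0 := fun n => (hs (J n)).2.2.2.2.2.2.1
    δr := fun n => (hs (J n)).2.2.2.2.2.2.2
    annV := hJP.mono fun n hn => hn.1.1
    annG := hJP.mono fun n hn => hn.1.2
    atm := hJP.mono fun n hn => hn.2.1
    hor := hJP.mono fun n hn => hn.2.2.1
    ver := hJP.mono fun n hn => hn.2.2.2 }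


section
variable {k : ℕ} {U : Ultrafilter ℕ} {F : ℕ → Finset (ℝ × ℝ)} {s : ℕ → Fin k → ℝ}
  {g : ℕ → Fr} {G V : Finset (Finset (Fin k))} {lam : Finset (Fin k) → ℝ} {p y Λ : ℝ}
  {G' : Finset (Finset (Fin k))} {e : Finset (Fin k) → ℝ} {J : ℕ → ℕ} {κ ρ u r δ : ℕ → ℝ}

theorem Diag.nums (h : Diag U F s g G V lam p y Λ G' e J κ ρ u r δ) (hΛ : 1 ≤ Λ) (n : ℕ) :
    ρ n ≤ 1 / ((J n : ℝ) + 1) ∧ ρ n ≤ 1 / 4 ∧ δ n ≤ r n / 4 ∧ δ n * (1 + |y|) = r n / 4 ∧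
      r n ≤ ρ n / 2 ∧ r n < κ n ∧ 2 * Λ * ρ n + δ n ≤ κ n ∧ ρ n + r n / 4 ≤ κ n ∧
      4 * ρ n ≤ κ n := by
  have hj : (1 : ℝ) ≤ (J n : ℝ) + 1 := by
    have : (0 : ℝ) ≤ (J n : ℝ) := Nat.cast_nonneg (J n)
    linarith
  exact I_SD2.nums hΛ hj (h.kb n) (h.ρ0 n) (h.ρκ n) (h.r0 n) (h.rρ n) (h.δ0 n) (h.δr n)

/-- the new frames -/
noncomputable def ng (g : ℕ → Fr) (p y : ℝ) (u : ℕ → ℝ) (hu : ∀ n, u n ≠ 0) (n : ℕ) : Fr :=
  cmp (g n) (hfr p y (u n) (u n) 0 (hu n) (hu n))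

theorem hit_ng {hu : ∀ n, u n ≠ 0} (h : Diag U F s g G V lam p y Λ G' e J κ ρ u r δ) {n : ℕ}
    {l : ℝ × ℝ} (hl : hit (ng g p y u hu n) ((J n : ℝ) + 1) l) :
    ∃ P : ℝ × ℝ, |P.1 - p| ≤ ρ n ∧ |P.2 - y| ≤ ρ n ∧ onl (g n) l P := by
  obtain ⟨P, h1, h2, h3⟩ := hit_hfr hl
  rw [abs_zero, zero_add] at h2
  rw [abs_of_pos (h.u0 n), h.uρ n] at h1 h2
  exact ⟨P, h1, h2, h3⟩

theorem crb_ng {hu : ∀ n, u n ≠ 0} (h : Diag U F s g G V lam p y Λ G' e J κ ρ u r δ) {n : ℕ}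
    {l m : ℝ × ℝ} (hl : crb (ng g p y u hu n) ((J n : ℝ) + 1) ((J n : ℝ) + 1) l m) :
    ∃ P : ℝ × ℝ, |P.1 - p| ≤ ρ n ∧ |P.2 - y| ≤ ρ n ∧ onl (g n) l P ∧ onl (g n) m P := by
  obtain ⟨P, h1, h2, h3, h4⟩ := crb_hfr hl
  rw [abs_zero, zero_mul, zero_add] at h2
  rw [abs_of_pos (h.u0 n), h.uρ n] at h1 h2
  exact ⟨P, h1, h2, h3, h4⟩

/-- points near `(p, y)` are in the strip -/
theorem inbox {P : ℝ × ℝ} {a : ℝ} (h1 : |P.1 - p| ≤ a) (h2 : |P.2 - y| ≤ a)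
    (hp : |p| < 1 / 2) (ha : a ≤ 1 / 4) : |P.1| ≤ 3 / 4 ∧ |P.2| ≤ 1 + |y| := by
  constructor
  · have e1 : P.1 = (P.1 - p) + p := by ring
    rw [e1]
    have := abs_add_le (P.1 - p) p
    linarith
  · have e1 : P.2 = (P.2 - y) + y := by ring
    rw [e1]
    have := abs_add_le (P.2 - y) y
    linarith

theorem con_pf {hu : ∀ n, u n ≠ 0} (h : Diag U F s g G V lam p y Λ G' e J κ ρ u r δ)
    (hΛ : 1 ≤ Λ) (hΛ' : ∀ K ∈ G, |lam K| + 1 ≤ Λ) (hp : |p| < 1 / 2)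
    (hst : ST U F s g G V lam)
    (hna : ∀ K ∈ G, K ∉ G' → ¬ Atm U F (gr F s K) (fun n => tt (g n)) (y - lam K * p)) :
    Neg U F fun n => ((F n).filter fun l => l ∉ gr F s (uni G' ∪ uni V) n ∧
      hit (ng g p y u hu n) ((J n : ℝ) + 1) l).card := by
  have h1 : ∀ K ∈ G \ G', Neg U F fun n => ((gr F s K n).filter fun l =>
      hit (ng g p y u hu n) ((J n : ℝ) + 1) l).card := by
    intro K hK e' he'
    rw [Finset.mem_sdiff] at hK
    have h2 := hna K hK.1 hK.2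
    unfold Atm at h2
    push Not at h2
    obtain ⟨η, hη, h3⟩ := h2 e' he'
    have h4 : ∀ᶠ n in (U : Filter ℕ), (cn (gr F s K) (fun n => tt (g n))
        (y - lam K * p - η) (y - lam K * p + η) n : ℝ) < e' * ((F n).card : ℝ) := h3
    have hΛ0 : 0 < 2 * Λ + 1 := by linarith
    filter_upwards [h4, h.hor, ev_inv h.inf (η / (2 * Λ + 1)) (by positivity)] with n h5 h6 h7
    refine le_trans (Nat.cast_le.mpr (Finset.card_le_card ?_)) h5.le
    intro l hl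
    rw [Finset.mem_filter] at hl ⊢
    obtain ⟨P, h8, h9, h10⟩ := hit_ng h hl.2
    obtain ⟨b1, b2, b3, b4, b5, b6, b7, b8, b9⟩ := h.nums hΛ n
    have b10 := h.δ0 n
    have b11 := h.r0 n
    have h11 := hitH (h6 K hK.1 l hl.1).1 (h6 K hK.1 l hl.1).2 h10 h8 h9 hp (hΛ' K hK.1)
      (by linarith)
    have h12 : (2 * Λ + 1) * ρ n ≤ η := by
      have h13 : ρ n ≤ η / (2 * Λ + 1) := b1.trans h7
      rw [le_div_iff₀ hΛ0] at h13
      linarith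
    have h14 : |tt (g n) l - (y - lam K * p)| ≤ η := by linarith
    rw [abs_le] at h14
    exact ⟨hl.1, by linarith [h14.1], by linarith [h14.2]⟩
  refine ((hst.con (1 + |y|)).add (Neg.sum _ _ h1)).mono' fun n => ?_
  have h2 : ((F n).filter fun l => l ∉ gr F s (uni G' ∪ uni V) n ∧
      hit (ng g p y u hu n) ((J n : ℝ) + 1) l) ⊆
      ((F n).filter fun l => l ∉ gr F s (uni G ∪ uni V) n ∧
        ∃ P : ℝ × ℝ, |P.1| ≤ 3 / 4 ∧ |P.2| ≤ 1 + |y| ∧ onl (g n) l P) ∪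
      (G \ G').biUnion fun K => (gr F s K n).filter fun l =>
        hit (ng g p y u hu n) ((J n : ℝ) + 1) l := by
    intro l hl
    rw [Finset.mem_filter] at hl
    obtain ⟨h3, h4, h5⟩ := hl
    rw [Finset.mem_union]
    by_cases h6 : l ∈ gr F s (uni G ∪ uni V) n
    · right
      rw [mem_gr] at h6
      obtain ⟨_, i, hi, hli⟩ := h6
      rw [Finset.mem_union] at hi
      have h7 : i ∉ uni V := by
        intro hi'
        exact h4 (mem_gr.mpr ⟨h3, i, Finset.mem_union_right _ hi', hli⟩)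
      have h8 : i ∈ uni G := hi.resolve_right h7
      obtain ⟨K, hK, hiK⟩ := mem_uni.mp h8
      rw [Finset.mem_biUnion]
      refine ⟨K, ?_, ?_⟩
      · rw [Finset.mem_sdiff]
        refine ⟨hK, fun hK' => ?_⟩
        exact h4 (mem_gr.mpr ⟨h3, i, Finset.mem_union_left _ (mem_uni.mpr ⟨K, hK', hiK⟩), hli⟩)
      · rw [Finset.mem_filter]
        exact ⟨mem_gr.mpr ⟨h3, i, hiK, hli⟩, h5⟩
    · left
      rw [Finset.mem_filter]
      obtain ⟨P, h8, h9, h10⟩ := hit_ng h h5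
      obtain ⟨h11, h12⟩ := inbox h8 h9 hp (h.nums hΛ n).2.1
      exact ⟨h3, h6, P, h11, h12, h10⟩
  refine (Finset.card_le_card h2).trans ((Finset.card_union_le _ _).trans ?_)
  exact Nat.add_le_add_left Finset.card_biUnion_le _

theorem cr_pf {hu : ∀ n, u n ≠ 0} (h : Diag U F s g G V lam p y Λ G' e J κ ρ u r δ)
    (hΛ : 1 ≤ Λ) (hp : |p| < 1 / 2) (hst : ST U F s g G V lam) (K : Finset (Fin k))
    (hK : K ∈ G ∪ V) :
    Neg2 U F fun n => crp (ng g p y u hu n) ((J n : ℝ) + 1) ((J n : ℝ) + 1) (gr F s K n) := by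
  refine (hst.cr K hK (1 + |y|)).mono (Filter.Eventually.of_forall fun n => ?_)
  unfold crp
  apply Finset.card_le_card
  intro q hq
  rw [Finset.mem_filter] at hq ⊢
  obtain ⟨P, h8, h9, h10, h11⟩ := crb_ng h hq.2.2
  obtain ⟨h12, h13⟩ := inbox h8 h9 hp (h.nums hΛ n).2.1
  exact ⟨hq.1, hq.2.1, P, h12, h13, h10, h11⟩

theorem tt_ng {hu : ∀ n, u n ≠ 0} {n : ℕ} {l : ℝ × ℝ} (hl : be (g n) l.1 ≠ 0) :
    tt (ng g p y u hu n) l = (tt (g n) l + sg (g n) l.1 * p - y) / u n :=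
  tt_hfr _ _ _ _ _ _ _ _ _ hl

theorem vv_ng {hu : ∀ n, u n ≠ 0} {n : ℕ} {l : ℝ × ℝ} (hl : al (g n) l.1 ≠ 0) :
    vv (ng g p y u hu n) l = (vv (g n) l - p + rh (g n) l.1 * y) / u n := by
  unfold ng
  rw [vv_hfr _ _ _ _ _ _ _ _ _ hl]
  · rw [mul_zero, sub_zero]
  · rw [mul_zero, sub_zero]
    exact hu n

theorem ctH_pf {hu : ∀ n, u n ≠ 0} (h : Diag U F s g G V lam p y Λ G' e J κ ρ u r δ)
    (hΛ : 1 ≤ Λ) (hΛ' : ∀ K ∈ G, |lam K| + 1 ≤ Λ) (hp : |p| < 1 / 2) (hGG : G' ⊆ G)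
    (e' : ℝ) (he' : 0 < e') :
    Neg U F fun n => ((gr F s (uni G') n).filter fun l =>
      hit (ng g p y u hu n) ((J n : ℝ) + 1) l ∧
        e' * ((J n : ℝ) + 1) < |tt (ng g p y u hu n) l|).card := by
  have h0 : ∀ K ∈ G', Neg U F fun n => ((gr F s K n).filter fun l =>
      r n < |tt (g n) l - (y - lam K * p)| ∧ |tt (g n) l - (y - lam K * p)| ≤ κ n).card := by
    intro K hK e₁ he₁
    filter_upwards [h.annG, ev_inv h.inf e₁ he₁] with n h1 h2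
    exact (h1 K hK).trans (mul_le_mul_of_nonneg_right h2 (Nat.cast_nonneg _))
  refine (Neg.sum _ _ h0).mono ?_
  filter_upwards [h.hor, ev_inv h.inf e' he'] with n h6 h7
  refine le_trans (Finset.card_le_card ?_) Finset.card_biUnion_le
  intro l hl
  rw [Finset.mem_filter] at hl
  obtain ⟨h3, h4, h5⟩ := hl
  obtain ⟨h8, i, hi, hli⟩ := mem_gr.mp h3
  obtain ⟨K, hK, hiK⟩ := mem_uni.mp hi
  have hlK : l ∈ gr F s K n := mem_gr.mpr ⟨h8, i, hiK, hli⟩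
  rw [Finset.mem_biUnion]
  refine ⟨K, hK, ?_⟩
  rw [Finset.mem_filter]
  obtain ⟨P, h9, h10, h11⟩ := hit_ng h h4
  obtain ⟨b1, b2, b3, b4, b5, b6, b7, b8, b9⟩ := h.nums hΛ n
  have b10 := h.δ0 n
  have b11 := h.r0 n
  obtain ⟨c1, c2⟩ := h6 K (hGG hK) l hlK
  have h12 := hitH c1 c2 h11 h9 h10 hp (hΛ' K (hGG hK)) (by linarith)
  refine ⟨hlK, ?_, by linarith⟩
  rw [tt_ng c1, abs_div, abs_of_pos (h.u0 n), lt_div_iff₀ (h.u0 n)] at h5
  have hJ0 : (0 : ℝ) < (J n : ℝ) + 1 := by positivity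
  have h13 : 2 * r n ≤ e' * ρ n := by
    have h14 : 1 ≤ e' * ((J n : ℝ) + 1) := by
      rw [div_le_iff₀ hJ0] at h7
      exact h7
    have h15 : 2 * r n * 1 ≤ 2 * r n * (e' * ((J n : ℝ) + 1)) :=
      mul_le_mul_of_nonneg_left h14 (by linarith)
    have h16 : 2 * r n * (e' * ((J n : ℝ) + 1)) = e' * (2 * ((J n : ℝ) + 1) * r n) := by ring
    rw [h.rρ n] at h16
    linarith
  have h17 : e' * ((J n : ℝ) + 1) * u n = e' * ρ n := by
    rw [← h.uρ n]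
    ring
  rw [h17] at h5
  have h18 : tt (g n) l + sg (g n) l.1 * p - y =
      (tt (g n) l - (y - lam K * p)) + (sg (g n) l.1 - lam K) * p := by ring
  have h19 : |(sg (g n) l.1 - lam K) * p| ≤ δ n * 1 := by
    rw [abs_mul]
    exact mul_le_mul c2 (by linarith) (abs_nonneg _) b10.le
  rw [h18] at h5
  have h20 := abs_add_le (tt (g n) l - (y - lam K * p)) ((sg (g n) l.1 - lam K) * p)
  linarith

theorem ctV_pf {hu : ∀ n, u n ≠ 0} (h : Diag U F s g G V lam p y Λ G' e J κ ρ u r δ)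
    (hΛ : 1 ≤ Λ) (e' : ℝ) (he' : 0 < e') :
    Neg U F fun n => ((gr F s (uni V) n).filter fun l =>
      hit (ng g p y u hu n) ((J n : ℝ) + 1) l ∧
        e' * ((J n : ℝ) + 1) < |vv (ng g p y u hu n) l|).card := by
  have h0 : Neg U F fun n => ((gr F s (uni V) n).filter fun l =>
      r n < |vv (g n) l - p| ∧ |vv (g n) l - p| ≤ κ n).card := by
    intro e₁ he₁
    filter_upwards [h.annV, ev_inv h.inf e₁ he₁] with n h1 h2
    exact h1.trans (mul_le_mul_of_nonneg_right h2 (Nat.cast_nonneg _))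
  refine h0.mono ?_
  filter_upwards [h.ver, ev_inv h.inf e' he'] with n h6 h7
  apply Finset.card_le_card
  intro l hl
  rw [Finset.mem_filter] at hl
  obtain ⟨h3, h4, h5⟩ := hl
  rw [Finset.mem_filter]
  obtain ⟨P, h9, h10, h11⟩ := hit_ng h h4
  obtain ⟨b1, b2, b3, b4, b5, b6, b7, b8, b9⟩ := h.nums hΛ n
  have b10 := h.δ0 n
  have b11 := h.r0 n
  obtain ⟨c1, c2⟩ := h6 l h3
  have h12 := hitV c1 c2 h11 h9 h10 (by linarith)
  rw [b4] at h12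
  refine ⟨h3, ?_, by linarith⟩
  rw [vv_ng c1, abs_div, abs_of_pos (h.u0 n), lt_div_iff₀ (h.u0 n)] at h5
  have hJ0 : (0 : ℝ) < (J n : ℝ) + 1 := by positivity
  have h13 : 2 * r n ≤ e' * ρ n := by
    have h14 : 1 ≤ e' * ((J n : ℝ) + 1) := by
      rw [div_le_iff₀ hJ0] at h7
      exact h7
    have h15 : 2 * r n * 1 ≤ 2 * r n * (e' * ((J n : ℝ) + 1)) :=
      mul_le_mul_of_nonneg_left h14 (by linarith)
    have h16 : 2 * r n * (e' * ((J n : ℝ) + 1)) = e' * (2 * ((J n : ℝ) + 1) * r n) := by ring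
    rw [h.rρ n] at h16
    linarith
  have h17 : e' * ((J n : ℝ) + 1) * u n = e' * ρ n := by
    rw [← h.uρ n]
    ring
  rw [h17] at h5
  have h19 : |rh (g n) l.1 * y| ≤ δ n * (1 + |y|) := by
    rw [abs_mul]
    exact mul_le_mul c2 (by linarith) (abs_nonneg _) b10.le
  rw [b4] at h19
  have h20 := abs_add_le (vv (g n) l - p) (rh (g n) l.1 * y)
  linarith

theorem two_pf {hu : ∀ n, u n ≠ 0} (h : Diag U F s g G V lam p y Λ G' e J κ ρ u r δ)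
    (hΛ : 1 ≤ Λ) (hp : |p| < 1 / 2) (hGG : G' ⊆ G) (K : Finset (Fin k)) (hK : K ∈ G')
    (he : 0 < e K) :
    Pos U F fun n => ((gr F s K n).filter fun l =>
      hit (ng g p y u hu n) ((J n : ℝ) + 1) l).card := by
  refine ⟨e K, he, ?_⟩
  filter_upwards [h.atm, h.hor] with n h1 h2
  refine (h1 K hK).trans (Nat.cast_le.mpr (Finset.card_le_card ?_))
  intro l hl
  rw [Finset.mem_filter] at hl ⊢
  obtain ⟨h3, h4⟩ := hl
  refine ⟨h3, ?_⟩
  obtain ⟨b1, b2, b3, b4, b5, b6, b7, b8, b9⟩ := h.nums hΛ n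
  have b10 := h.δ0 n
  have b11 := h.r0 n
  obtain ⟨c1, c2⟩ := h2 K (hGG hK) l h3
  have hJ0 : (0 : ℝ) < (J n : ℝ) + 1 := by positivity
  refine ⟨(0, (tt (g n) l + sg (g n) l.1 * p - y) / u n), ?_, ?_, ?_⟩
  · simp only [abs_zero]
    exact hJ0.le
  · simp only
    rw [abs_div, abs_of_pos (h.u0 n), div_le_iff₀ (h.u0 n), mul_comm ((J n : ℝ) + 1) (u n), h.uρ n]
    have h18 : tt (g n) l + sg (g n) l.1 * p - y =
        (tt (g n) l - (y - lam K * p)) + (sg (g n) l.1 - lam K) * p := by ring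
    have h19 : |(sg (g n) l.1 - lam K) * p| ≤ δ n * 1 := by
      rw [abs_mul]
      exact mul_le_mul c2 (by linarith) (abs_nonneg _) b10.le
    rw [h18]
    have h20 := abs_add_le (tt (g n) l - (y - lam K * p)) ((sg (g n) l.1 - lam K) * p)
    linarith
  · unfold ng
    rw [onl_hfr, onl_hor c1]
    simp only
    have := hu n
    field_simp
    ring

end

end I_SD2

theorem SD2_pf (hDIA : S_DIA) (hANN : S_ANN) : S_SD2 := by
  intro k U F s g G V lam p y G' hsy hst hp hGG hcard hat hna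
  have hΛ0 : ∃ Λ : ℝ, 1 ≤ Λ ∧ ∀ K ∈ G, |lam K| + 1 ≤ Λ := by
    refine ⟨∑ K ∈ G, |lam K| + 1, ?_, fun K hK => ?_⟩
    · have : 0 ≤ ∑ K ∈ G, |lam K| := Finset.sum_nonneg fun _ _ => abs_nonneg _
      linarith
    · have := Finset.single_le_sum (f := fun K => |lam K|) (fun _ _ => abs_nonneg _) hK
      linarith
  obtain ⟨Λ, hΛ, hΛ'⟩ := hΛ0
  obtain ⟨e, J, κ, ρ, u, r, δ, he, h⟩ :=
    I_SD2.diag hDIA hANN U F s g G V lam p y Λ G' hsy.np hst hΛ hat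
  have hu : ∀ n, u n ≠ 0 := fun n => (h.u0 n).ne'
  have hsub : G' ∪ V ⊆ G ∪ V := Finset.union_subset_union_left hGG
  refine ⟨I_SD2.ng g p y u hu, fun n => (J n : ℝ) + 1, ?_⟩
  exact {
    lin := by
      intro M
      obtain ⟨m, hm⟩ := exists_nat_ge M
      filter_upwards [h.inf m] with n hn
      have h1 : (m : ℝ) ≤ (J n : ℝ) := by exact_mod_cast hn
      linarith
    dis := fun K hK K' hK' => hst.dis K (hsub hK) K' (hsub hK')
    dGV := Finset.disjoint_of_subset_left hGG hst.dGV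
    hor := by
      intro K hK i hi
      refine hor_hfr (a := u) (b := u) (c := fun _ => 0) (x := fun _ => p) (y := fun _ => y) hu hu
        (hst.hor K (hGG hK) i hi) ?_ 1 ?_
      · intro e' he'
        refine Filter.Eventually.of_forall fun n => ?_
        have h1 : u n * lam K - 0 - lam K * u n = 0 := by ring
        rw [h1, abs_zero]
        positivity
      · exact Filter.Eventually.of_forall fun n => by rw [one_mul]
    lne := fun K hK K' hK' => hst.lne K (hGG hK) K' (hGG hK')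
    ver := by
      intro K hK i hi
      refine ver_hfr (a := u) (b := u) (c := fun _ => 0) (x := fun _ => p) (y := fun _ => y) hu hu
        (hst.ver K hK i hi) 1 ?_
      refine Filter.Eventually.of_forall fun n => ⟨by rw [one_mul], ?_⟩
      rw [abs_zero, one_mul]
      exact abs_nonneg _
    con := I_SD2.con_pf h hΛ hΛ' hp hst hna
    cr := fun K hK => I_SD2.cr_pf h hΛ hp hst K (hsub hK)
    sep := by
      intro K hK i hi i' hi' j hj hjK a ha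
      refine hst.sep K hK i hi i' hi' j hj hjK a ?_
      obtain ⟨K', hK', h1⟩ := mem_uni.mp ha
      exact mem_uni.mpr ⟨K', hGG hK', h1⟩
    ctH := fun e' he' => I_SD2.ctH_pf h hΛ hΛ' hp hGG e' he'
    ctV := fun e' he' => I_SD2.ctV_pf h hΛ e' he'
    two := by
      obtain ⟨K₁, hK₁, K₂, hK₂, hne⟩ := Finset.one_lt_card.mp (by omega : 1 < G'.card)
      exact ⟨K₁, hK₁, K₂, hK₂, hne, I_SD2.two_pf h hΛ hp hGG K₁ hK₁ (he K₁ hK₁),
        I_SD2.two_pf h hΛ hp hGG K₂ hK₂ (he K₂ hK₂)⟩ }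

end Pool.Agent.Work.MP_b25393_ag.UU
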