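import Mathlib
import Pool.Agent.Work.MP_b25393_ag.UU.StmtsB

/-!
# Uniform version, item SNB: the small box at a top point
-/

set_option autoImplicit false

namespace Pool.Agent.Work.MP_b25393_ag.UU

open scoped Classical
open Pool.Agent.Work.MP_b25393_ag.U

namespace I_SNB

theorem crp_le {g g' : Fr} {L M L' M' : ℝ} {G : Finset (ℝ × ℝ)}
    (h : ∀ l m, crb g' L' M' l m → crb g L M l m) : crp g' L' M' G ≤ crp g L M G := by
  unfold crp
  apply Finset.card_le_card
  intro q hq
  rw [Finset.mem_filter] at hq ⊢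
  exact ⟨hq.1, hq.2.1, h _ _ hq.2.2⟩

theorem uni_single {k : ℕ} (K : Finset (Fin k)) : uni ({K} : Finset (Finset (Fin k))) = K := by
  unfold uni
  simp

end I_SNB

open I_SNB in
theorem SNB_pf : S_SNB := by
  intro k U F s g G V lam hSy hST hcrV x τ γ K hK hx hγ hSx hSτ hneg
  obtain ⟨Lam, hLam⟩ : ∃ Lam : ℝ, Lam = 1 + ∑ K' ∈ G, |lam K'| := ⟨_, rfl⟩
  have hlam : ∀ K' ∈ G, |lam K'| ≤ Lam - 1 := by
    intro K' hK'
    rw [hLam]
    have := Finset.single_le_sum (f := fun K' => |lam K'|) (fun i _ => abs_nonneg _) hK'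
    linarith
  have hLK := hlam K hK
  have hLam1 : 1 ≤ Lam := by
    have := abs_nonneg (lam K)
    linarith
  obtain ⟨y, hy⟩ : ∃ y, y = τ + lam K * x := ⟨_, rfl⟩
  obtain ⟨η, hη⟩ : ∃ η : ℝ, η = min (1 / 8) (γ / (2 * (2 * Lam + 1))) := ⟨_, rfl⟩
  have hη0 : 0 < η := by rw [hη]; exact lt_min (by norm_num) (by positivity)
  have hη8 : η ≤ 1 / 8 := by rw [hη]; exact min_le_left _ _
  have hηγ : (2 * Lam + 1) * η ≤ γ / 2 := by
    have h1 : η ≤ γ / (2 * (2 * Lam + 1)) := by rw [hη]; exact min_le_right _ _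
    rw [le_div_iff₀ (by positivity)] at h1
    linarith
  have hη' : η ≠ 0 := hη0.ne'
  obtain ⟨M, hM⟩ : ∃ M : ℝ, M = |y| + Lam := ⟨_, rfl⟩
  -- the box
  have hcb : |lam K * η| + |η| ≤ Lam * η := by
    rw [abs_mul, abs_of_pos hη0]
    nlinarith
  have hbox : ∀ P : ℝ × ℝ, |P.1 - x| ≤ η → |P.2 - y| ≤ Lam * η → |P.1| ≤ 3 / 8 ∧ |P.2| ≤ M := by
    intro P h1 h2
    constructor
    · have h3 : |P.1| ≤ |P.1 - x| + |x| := by
        have := abs_add_le (P.1 - x) x
        rwa [sub_add_cancel] at this
      linarith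
    · have h3 : |P.2| ≤ |P.2 - y| + |y| := by
        have := abs_add_le (P.2 - y) y
        rwa [sub_add_cancel] at this
      rw [hM]
      nlinarith
  have hcrb : ∀ n l m, crb (cmp (g n) (hfr x y η η (lam K * η) hη' hη')) 1 1 l m →
      crb (g n) (3 / 8) M l m := by
    intro n l m h
    obtain ⟨P, h1, h2, h3, h4⟩ := crb_hfr h
    rw [mul_one, abs_of_pos hη0] at h1
    rw [mul_one, mul_one] at h2
    obtain ⟨h5, h6⟩ := hbox P h1 (h2.trans hcb)
    exact ⟨P, h5, h6, h3, h4⟩
  have hcrb' : ∀ n l m, crb (cmp (g n) (hfr x y η η (lam K * η) hη' hη')) 1 1 l m →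
      crb (g n) (3 / 4) M l m := by
    intro n l m h
    obtain ⟨P, h1, h2, h3, h4⟩ := hcrb n l m h
    exact ⟨P, h1.trans (by norm_num), h2, h3, h4⟩
  refine ⟨fun n => cmp (g n) (hfr x y η η (lam K * η) hη' hη'), ?_, ?_, ?_, ?_, ?_, ?_, ?_, ?_,
    ?_, ?_⟩
  · -- dA
    intro K₁ hK₁
    rw [Finset.mem_singleton] at hK₁
    rw [hK₁, Finset.disjoint_left]
    intro i hi hiK
    obtain ⟨K', hK', hiK'⟩ := mem_uni.mp hi
    have hne : K ≠ K' := by
      rintro rfl
      exact Finset.disjoint_left.mp hST.dGV hK hK'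
    exact Finset.disjoint_left.mp (hST.dis K (Finset.mem_union_left _ hK) K'
      (Finset.mem_union_right _ hK') hne) hiK hiK'
  · intro K₁ hK₁ K₂ hK₂ hne
    rw [Finset.mem_singleton] at hK₁ hK₂
    exact absurd (hK₁.trans hK₂.symm) hne
  · -- ver
    intro i hi
    obtain ⟨K', hK', hiK'⟩ := mem_uni.mp hi
    refine ver_hfr (x := fun _ => x) (y := fun _ => y) (a := fun _ => η) (b := fun _ => η)
      (c := fun _ => lam K * η) (fun _ => hη') (fun _ => hη') (hST.ver K' hK' i hiK') Lam ?_
    refine Filter.Eventually.of_forall fun n => ?_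
    rw [abs_mul, abs_of_pos hη0]
    constructor <;> nlinarith
  · -- hor
    intro K₁ hK₁ i hi
    rw [Finset.mem_singleton] at hK₁
    rw [hK₁] at hi
    refine hor_hfr (x := fun _ => x) (y := fun _ => y) (a := fun _ => η) (b := fun _ => η)
      (c := fun _ => lam K * η) (fun _ => hη') (fun _ => hη') (hST.hor K hK i hi) ?_ 1 ?_
    · intro e he
      refine Filter.Eventually.of_forall fun n => ?_
      have h1 : η * lam K - lam K * η - 0 * η = 0 := by ring
      rw [h1, abs_zero]
      positivity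
    · refine Filter.Eventually.of_forall fun n => ?_
      simp
  · -- con
    have h1 := (hST.con M).add (Neg.sum (G.erase K) (fun K' => cn (gr F s K') (fun n => tt (g n))
      (τ + lam K * x - lam K' * x - γ) (τ + lam K * x - lam K' * x + γ)) (by
        intro K' hK'
        rw [Finset.mem_erase] at hK'
        exact hneg K' hK'.2 hK'.1))
    refine h1.mono ?_
    filter_upwards [hor_lines F hST.hor η hη0] with n hn
    have hsub : ((F n).filter fun l => l ∉ gr F s (uni V ∪ uni {K}) n ∧
        hit (cmp (g n) (hfr x y η η (lam K * η) hη' hη')) 1 l) ⊆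
        ((F n).filter fun l => l ∉ gr F s (uni G ∪ uni V) n ∧
          ∃ P : ℝ × ℝ, |P.1| ≤ 3 / 4 ∧ |P.2| ≤ M ∧ onl (g n) l P) ∪
        (G.erase K).biUnion (fun K' => (gr F s K' n).filter fun l =>
          τ + lam K * x - lam K' * x - γ ≤ tt (g n) l ∧
          tt (g n) l ≤ τ + lam K * x - lam K' * x + γ) := by
      intro l hl
      rw [Finset.mem_filter] at hl
      obtain ⟨hlF, hl1, hl2⟩ := hl
      obtain ⟨P, h2, h3, h4⟩ := hit_hfr hl2
      rw [mul_one, abs_of_pos hη0] at h2
      rw [mul_one] at h3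
      have h3' := h3.trans hcb
      obtain ⟨h5, h6⟩ := hbox P h2 h3'
      rw [Finset.mem_union]
      by_cases hlG : l ∈ gr F s (uni G ∪ uni V) n
      · right
        rw [mem_gr] at hlG hl1
        obtain ⟨_, i, hi, hli⟩ := hlG
        have hiV : i ∉ uni V := fun h => hl1 ⟨hlF, i, Finset.mem_union_left _ h, hli⟩
        have hiG : i ∈ uni G := by
          rcases Finset.mem_union.mp hi with h | h
          · exact h
          · exact absurd h hiV
        obtain ⟨K', hK', hiK'⟩ := mem_uni.mp hiG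
        have hne : K' ≠ K := by
          rintro rfl
          exact hl1 ⟨hlF, i, Finset.mem_union_right _ (by rw [uni_single]; exact hiK'), hli⟩
        rw [Finset.mem_biUnion]
        have hlK' : l ∈ gr F s K' n := mem_gr.mpr ⟨hlF, i, hiK', hli⟩
        refine ⟨K', Finset.mem_erase.mpr ⟨hne, hK'⟩, Finset.mem_filter.mpr ⟨hlK', ?_⟩⟩
        obtain ⟨hbe, hsg⟩ := hn K' hK' l hlK'
        rw [onl_hor hbe] at h4
        have hL' := hlam K' hK'
        have e1 : tt (g n) l - (y - lam K' * x) = (P.2 - y) - (sg (g n) l.1 - lam K') * P.1 -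
            lam K' * (P.1 - x) := by
          rw [h4]
          ring
        have e2 : |tt (g n) l - (y - lam K' * x)| ≤ γ := by
          rw [e1]
          have a1 : |(P.2 - y) - (sg (g n) l.1 - lam K') * P.1 - lam K' * (P.1 - x)| ≤
              |P.2 - y| + |sg (g n) l.1 - lam K'| * |P.1| + |lam K'| * |P.1 - x| := by
            rw [← abs_mul, ← abs_mul]
            have b1 := abs_sub (P.2 - y - (sg (g n) l.1 - lam K') * P.1) (lam K' * (P.1 - x))
            have b2 := abs_sub (P.2 - y) ((sg (g n) l.1 - lam K') * P.1)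
            linarith
          have a2 : |sg (g n) l.1 - lam K'| * |P.1| ≤ η * 1 :=
            mul_le_mul hsg (h5.trans (by norm_num)) (abs_nonneg _) hη0.le
          have a3 : |lam K'| * |P.1 - x| ≤ Lam * η :=
            mul_le_mul (by linarith) h2 (abs_nonneg _) (by linarith)
          have a4 : |P.2 - y| + |sg (g n) l.1 - lam K'| * |P.1| + |lam K'| * |P.1 - x| ≤
              (2 * Lam + 1) * η := by
            nlinarith
          linarith
        rw [abs_le] at e2
        rw [hy] at e2
        constructor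
        · linarith [e2.1]
        · linarith [e2.2]
      · left
        rw [Finset.mem_filter]
        exact ⟨hlF, hlG, P, h5.trans (by norm_num), h6, h4⟩
    refine (Finset.card_le_card hsub).trans ((Finset.card_union_le _ _).trans ?_)
    refine Nat.add_le_add_left ?_ _
    refine Finset.card_biUnion_le.trans ?_
    exact le_rfl
  · -- crA
    exact (hcrV M).mono (Filter.Eventually.of_forall fun n => crp_le (hcrb n))
  · -- crB
    intro K₁ hK₁
    rw [Finset.mem_singleton] at hK₁
    rw [hK₁]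
    exact (hST.cr K (Finset.mem_union_left _ hK) M).mono
      (Filter.Eventually.of_forall fun n => crp_le (hcrb' n))
  · -- sep
    intro K₁ hK₁ i _ i' _ j hj hjK
    rw [Finset.mem_singleton] at hK₁
    rw [uni_single] at hj
    rw [hK₁] at hjK
    exact absurd hj hjK
  · -- cA
    intro e he
    obtain ⟨ε, hε⟩ : ∃ ε : ℝ, ε = min (1 / (2 * Lam)) (e * η / (4 * (|y| + 1))) := ⟨_, rfl⟩
    have hε0 : 0 < ε := by rw [hε]; positivity
    have hε1 : ε * Lam ≤ 1 / 2 := by
      have h1 : ε ≤ 1 / (2 * Lam) := by rw [hε]; exact min_le_left _ _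
      rw [le_div_iff₀ (by positivity)] at h1
      linarith
    have hε2 : ε * |y| ≤ e * η / 4 := by
      have h1 : ε ≤ e * η / (4 * (|y| + 1)) := by rw [hε]; exact min_le_right _ _
      rw [le_div_iff₀ (by positivity)] at h1
      nlinarith
    refine (hSx (e * η / 4) (by positivity)).mono ?_
    have hver : ∀ i ∈ uni V, Ver U s g i := by
      intro i hi
      obtain ⟨K', hK', hiK'⟩ := mem_uni.mp hi
      exact hST.ver K' hK' i hiK'
    filter_upwards [ver_lines F hver ε hε0] with n hn
    unfold cn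
    apply Finset.card_le_card
    intro l hl
    rw [Finset.mem_filter] at hl ⊢
    obtain ⟨hlV, h1, h2⟩ := hl
    refine ⟨hlV, ?_⟩
    obtain ⟨hal, hrh⟩ := hn l hlV
    have hrK : |rh (g n) l.1 * lam K| ≤ 1 / 2 := by
      rw [abs_mul]
      have h3 : |rh (g n) l.1| * |lam K| ≤ ε * Lam :=
        mul_le_mul hrh (by linarith) (abs_nonneg _) hε0.le
      linarith
    have hden : η / 2 ≤ η - rh (g n) l.1 * (lam K * η) := by
      have h3 := (abs_le.mp hrK).2
      nlinarith
    have hden0 : 0 < η - rh (g n) l.1 * (lam K * η) := by linarith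
    have hnum : |vv (g n) l - x + rh (g n) l.1 * y| ≤ e * (η / 2) := by
      have h3 : |vv (g n) l - x| ≤ e * η / 4 := by
        rw [abs_le]
        constructor <;> linarith
      have h4 : |rh (g n) l.1 * y| ≤ ε * |y| := by
        rw [abs_mul]
        exact mul_le_mul_of_nonneg_right hrh (abs_nonneg _)
      have h5 := abs_add_le (vv (g n) l - x) (rh (g n) l.1 * y)
      linarith
    have hfin : |vv (cmp (g n) (hfr x y η η (lam K * η) hη' hη')) l| ≤ e := by
      rw [vv_hfr (g n) x y η η (lam K * η) l hη' hη' hal hden0.ne', abs_div,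
        abs_of_pos hden0, div_le_iff₀ hden0]
      refine hnum.trans ?_
      exact mul_le_mul_of_nonneg_left hden he.le
    rw [abs_le] at hfin
    constructor
    · linarith [hfin.1]
    · linarith [hfin.2]
  · -- cB
    rw [uni_single]
    intro e he
    obtain ⟨ε, hε⟩ : ∃ ε : ℝ, ε = e * η / 2 := ⟨_, rfl⟩
    have hε0 : 0 < ε := by rw [hε]; positivity
    refine (hSτ (e * η / 2) (by positivity)).mono ?_
    filter_upwards [hor_lines F hST.hor ε hε0] with n hn
    unfold cn
    apply Finset.card_le_card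
    intro l hl
    rw [Finset.mem_filter] at hl ⊢
    obtain ⟨hlK, h1, h2⟩ := hl
    refine ⟨hlK, ?_⟩
    obtain ⟨hbe, hsg⟩ := hn K hK l hlK
    have hnum : |tt (g n) l + sg (g n) l.1 * x - y| ≤ e * η := by
      have e1 : tt (g n) l + sg (g n) l.1 * x - y =
          (tt (g n) l - τ) + (sg (g n) l.1 - lam K) * x := by
        rw [hy]
        ring
      rw [e1]
      have h3 : |tt (g n) l - τ| ≤ e * η / 2 := by
        rw [abs_le]
        constructor <;> linarith
      have h4 : |(sg (g n) l.1 - lam K) * x| ≤ ε * 1 := by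
        rw [abs_mul]
        exact mul_le_mul hsg (hx.trans (by norm_num)) (abs_nonneg _) hε0.le
      have h5 := abs_add_le (tt (g n) l - τ) ((sg (g n) l.1 - lam K) * x)
      linarith
    have hfin : |tt (cmp (g n) (hfr x y η η (lam K * η) hη' hη')) l| ≤ e := by
      rw [tt_hfr (g n) x y η η (lam K * η) l hη' hη' hbe, abs_div, abs_of_pos hη0,
        div_le_iff₀ hη0]
      exact hnum
    rw [abs_le] at hfin
    constructor
    · linarith [hfin.1]
    · linarith [hfin.2]

end Pool.Agent.Work.MP_b25393_ag.UU
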