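import Mathlib
import Pool.Agent.Work.MP_b25393_ag.UU.StmtsB

/-!
# Uniform version, item SNV: there are vertical atoms
-/

set_option autoImplicit false

namespace Pool.Agent.Work.MP_b25393_ag.UU

open scoped Classical
open Pool.Agent.Work.MP_b25393_ag.U

namespace I_SNV

/-- a finite set of positive numbers has a positive lower bound -/
theorem gap {ι : Type} (D : Finset ι) (f : ι → ℝ) (h : ∀ i ∈ D, 0 < f i) :
    ∃ γ : ℝ, 0 < γ ∧ ∀ i ∈ D, 2 * γ < f i := by
  rcases D.eq_empty_or_nonempty with he | hne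
  · exact ⟨1, one_pos, fun i hi => by rw [he] at hi; exact absurd hi (Finset.notMem_empty i)⟩
  · obtain ⟨j, hj, hmin⟩ := D.exists_min_image f hne
    have hj0 := h j hj
    exact ⟨f j / 3, by linarith, fun i hi => by have := hmin i hi; linarith⟩

theorem gr_uni_le {k : ℕ} (F : ℕ → Finset (ℝ × ℝ)) (s : ℕ → Fin k → ℝ)
    (G : Finset (Finset (Fin k))) (p : ℝ × ℝ → Prop) (n : ℕ) :
    ((gr F s (uni G) n).filter p).card ≤ ∑ K ∈ G, ((gr F s K n).filter p).card := by
  have h1 : (gr F s (uni G) n).filter p ⊆ G.biUnion fun K => (gr F s K n).filter p := by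
    intro l hl
    rw [Finset.mem_filter, mem_gr] at hl
    obtain ⟨⟨h1, i, hi, h2⟩, h3⟩ := hl
    obtain ⟨K, hK, hiK⟩ := mem_uni.mp hi
    rw [Finset.mem_biUnion]
    exact ⟨K, hK, Finset.mem_filter.mpr ⟨mem_gr.mpr ⟨h1, i, hiK, h2⟩, h3⟩⟩
  exact (Finset.card_le_card h1).trans Finset.card_biUnion_le

theorem cn_le_abs (G : ℕ → Finset (ℝ × ℝ)) (p : ℕ → ℝ × ℝ → ℝ) (u v : ℝ) (n : ℕ) :
    cn G p u v n ≤ ((G n).filter fun l => |p n l| ≤ |u| + |v|).card := by
  unfold cn
  apply Finset.card_le_card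
  intro l hl
  rw [Finset.mem_filter] at hl ⊢
  refine ⟨hl.1, ?_⟩
  rw [abs_le]
  constructor
  · have := neg_abs_le u
    have := abs_nonneg v
    linarith [hl.2.1]
  · have := le_abs_self v
    have := abs_nonneg u
    linarith [hl.2.2]

end I_SNV

theorem SNV_pf (hSXV : S_SXV) (hSTT : S_STT) (hTOP : S_TOP) (hPRF : S_PRF) (hSNB : S_SNB)
    (hTB1 : S_TB1) : S_SNV := by
  intro k U F s g G V lam hSy hST
  by_contra hcon
  have hno : ∀ p : ℝ, |p| < 1 / 2 → ¬ Atm U F (gr F s (uni V)) (fun n => vv (g n)) p :=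
    fun p hp ha => hcon ⟨p, hp, ha⟩
  have hsx := hSXV k U F s g G V lam hSy hST hno
  obtain ⟨T₀, -, htt⟩ := hSTT k U F s g G V lam hSy hST hno
  have hone := hSy.one
  let Null : Finset (Fin k) → Prop := fun K =>
    ∀ T : ℝ, Neg U F fun n => ((gr F s K n).filter fun l => |tt (g n) l| ≤ T).card
  have htop : ∀ K ∈ G, Null K ∨ ∃ τ : ℝ, Spt U F (gr F s K) (fun n => tt (g n)) τ ∧
      ∀ t T : ℝ, τ < t → Neg U F (cn (gr F s K) (fun n => tt (g n)) t T) := fun K hK =>
    hTOP U F (gr F s K) (fun n => tt (g n)) T₀ hone (htt K hK)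
  have hch : ∀ K : Finset (Fin k), ∃ τ : ℝ, K ∈ G → ¬ Null K →
      Spt U F (gr F s K) (fun n => tt (g n)) τ ∧
      ∀ t T : ℝ, τ < t → Neg U F (cn (gr F s K) (fun n => tt (g n)) t T) := by
    intro K
    by_cases hK : K ∈ G
    · rcases htop K hK with h | ⟨τ, h⟩
      · exact ⟨0, fun _ h' => absurd h h'⟩
      · exact ⟨τ, fun _ _ => h⟩
    · exact ⟨0, fun h => absurd h hK⟩
  choose τ hτ using hch
  set G' : Finset (Finset (Fin k)) := G.filter fun K => ¬ Null K with hG'
  have hne : G'.Nonempty := by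
    by_contra hempty
    rw [Finset.not_nonempty_iff_eq_empty] at hempty
    have hall : ∀ K ∈ G, Null K := by
      intro K hK
      by_contra hn
      have : K ∈ G' := Finset.mem_filter.mpr ⟨hK, hn⟩
      rw [hempty] at this
      exact Finset.notMem_empty K this
    obtain ⟨M, hM⟩ := hST.mH
    have hneg : Neg U F fun n =>
        ((gr F s (uni G) n).filter fun l => |tt (g n) l| ≤ M).card := by
      have h1 := Neg.sum G (fun K n => ((gr F s K n).filter fun l => |tt (g n) l| ≤ M).card)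
        (fun K hK => hall K hK M)
      exact h1.mono' fun n => I_SNV.gr_uni_le F s G (fun l => |tt (g n) l| ≤ M) n
    exact not_neg_of_pos hone hM hneg
  set X : Finset ℝ := (G' ×ˢ G').image fun q => (τ q.2 - τ q.1) / (lam q.1 - lam q.2) with hX
  obtain ⟨x, hx, hxX, hxS⟩ := hPRF U F (gr F s (uni V)) (fun n => vv (g n)) hone hST.cV hno X
  obtain ⟨K, hK, hmax⟩ := G'.exists_max_image (fun K => τ K + lam K * x) hne
  have hKG : K ∈ G := (Finset.mem_filter.mp hK).1
  obtain ⟨γ, hγ, hgap⟩ := I_SNV.gap (G'.erase K)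
    (fun K' => (τ K + lam K * x) - (τ K' + lam K' * x)) (by
      intro K' hK'
      rw [Finset.mem_erase] at hK'
      have h1 := hmax K' hK'.2
      have h2 : τ K + lam K * x ≠ τ K' + lam K' * x := by
        intro he
        apply hxX
        rw [hX, Finset.mem_image]
        refine ⟨(K, K'), Finset.mem_product.mpr ⟨hK, hK'.2⟩, ?_⟩
        have hl : lam K - lam K' ≠ 0 := sub_ne_zero.mpr
          (hST.lne K hKG K' (Finset.mem_filter.mp hK'.2).1 (fun h => hK'.1 h.symm))
        simp only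
        rw [div_eq_iff hl]
        linarith
      have h3 := lt_of_le_of_ne h1 h2.symm
      linarith)
  have hτK := hτ K hKG (Finset.mem_filter.mp hK).2
  obtain ⟨g', hg'⟩ := hSNB k U F s g G V lam hSy hST hsx x (τ K) γ K hKG hx hγ hxS hτK.1 (by
    intro K' hK' hne'
    by_cases hnull : Null K'
    · exact (hnull _).mono' fun n => I_SNV.cn_le_abs _ _ _ _ n
    · have hK'2 : K' ∈ G' := Finset.mem_filter.mpr ⟨hK', hnull⟩
      have h1 := hgap K' (Finset.mem_erase.mpr ⟨hne', hK'2⟩)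
      refine (hτ K' hK' hnull).2 _ _ ?_
      linarith)
  exact hTB1 k U F s g' (uni V) K hSy hg'

end Pool.Agent.Work.MP_b25393_ag.UU
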