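import Pool.Agent.Work.MP_b25393_ag.UU.StmtsB

/-! # Item SPT: mass has support. -/

set_option autoImplicit false

namespace Pool.Agent.Work.MP_b25393_ag.UU

open scoped Classical
open Pool.Agent.Work.MP_b25393_ag.U

theorem SPT_pf : S_SPT := by
  intro U F G p Q hF hQ hpos
  by_contra hcon
  push Not at hcon
  have h1 : ∀ t : ℝ, ∃ η : ℝ, 0 < η ∧ (t ∈ Q → Neg U F (cn G p (t - η) (t + η))) := by
    intro t
    by_cases ht : t ∈ Q
    · have h2 := hcon t ht
      unfold Spt at h2
      push Not at h2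
      obtain ⟨η, hη, h3⟩ := h2
      refine ⟨η, hη, fun _ => ?_⟩
      by_contra h4
      exact h3 (pos_of_not_neg h4)
    · exact ⟨1, one_pos, fun h => absurd h ht⟩
  choose η hη hN using h1
  obtain ⟨T, hTQ, hT⟩ := hQ.elim_nhds_subcover (fun t => Set.Icc (t - η t) (t + η t))
    (fun t _ => Icc_mem_nhds (by linarith [hη t]) (by linarith [hη t]))
  refine not_neg_of_pos hF hpos ?_
  refine (Neg.sum T (fun t => cn G p (t - η t) (t + η t)) fun t ht => hN t (hTQ t ht)).mono' ?_
  intro n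
  have hsub : ((G n).filter fun l => p n l ∈ Q) ⊆
      T.biUnion fun t => (G n).filter fun l => t - η t ≤ p n l ∧ p n l ≤ t + η t := by
    intro l hl
    rw [Finset.mem_filter] at hl
    obtain ⟨t, ht, ht'⟩ := Set.mem_iUnion₂.mp (hT hl.2)
    exact Finset.mem_biUnion.mpr ⟨t, ht, Finset.mem_filter.mpr ⟨hl.1, ht'.1, ht'.2⟩⟩
  exact (Finset.card_le_card hsub).trans Finset.card_biUnion_le

end Pool.Agent.Work.MP_b25393_ag.UU
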