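import Pool.Agent.Work.MP_b25393_ag.UU.StmtsB

/-!
# Item STF of block [b25393 UU]: no strips
-/

set_option autoImplicit false

namespace Pool.Agent.Work.MP_b25393_ag.UU

open scoped Classical
open Pool.Agent.Work.MP_b25393_ag.U

theorem STF_pf (hSNV : S_SNV) (hSAB : S_SAB) (hSD1 : S_SD1) (hSD2 : S_SD2) (hTBW : S_TBW) :
    S_STF := by
  intro k U F s g G V lam hSy hST hTB hPL
  obtain ⟨p, hp, hatm⟩ := hSNV k U F s g G V lam hSy hST
  by_cases hno : ∀ K ∈ G, ∀ t : ℝ, ¬ Atm U F (gr F s K) (fun n => tt (g n)) t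
  · obtain ⟨g', hg'⟩ := hSAB k U F s g G V lam p hSy hST hp hatm hno
    exact hTB _ _ _ le_rfl (hTBW k U F s g' (uni G) V hg')
  · push Not at hno
    obtain ⟨K, hK, t, ht⟩ := hno
    have hty : t + lam K * p - lam K * p = t := by ring
    have hKa : Atm U F (gr F s K) (fun n => tt (g n)) (t + lam K * p - lam K * p) := by
      rw [hty]
      exact ht
    by_cases h2 : ∃ K' ∈ G, K' ≠ K ∧
        Atm U F (gr F s K') (fun n => tt (g n)) (t + lam K * p - lam K' * p)
    · obtain ⟨K', hK', hne, hK'a⟩ := h2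
      set G' := G.filter fun K' =>
        Atm U F (gr F s K') (fun n => tt (g n)) (t + lam K * p - lam K' * p) with hG'
      have hcard : 2 ≤ G'.card := by
        have h3 : 1 < G'.card := by
          rw [Finset.one_lt_card]
          exact ⟨K', Finset.mem_filter.mpr ⟨hK', hK'a⟩, K, Finset.mem_filter.mpr ⟨hK, hKa⟩, hne⟩
        exact h3
      obtain ⟨g', L, hg'⟩ := hSD2 k U F s g G V lam p (t + lam K * p) G' hSy hST hp
        (Finset.filter_subset _ _) hcard (fun K₁ h => (Finset.mem_filter.mp h).2)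
        (fun K₁ h h' h'' => h' (Finset.mem_filter.mpr ⟨h, h''⟩))
      exact hPL g' L G' lam hg'
    · push Not at h2
      obtain ⟨g', hg'⟩ := hSD1 k U F s g G V lam p (t + lam K * p) hSy hST hp hatm K hK hKa h2
      exact hTB _ _ _ le_rfl (hTBW k U F s g' K V hg')

end Pool.Agent.Work.MP_b25393_ag.UU
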