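import Pool.Agent.Work.MP_b25393_ag.UU.StmtsB
import Pool.Agent.Work.MP_b25393_ag.UU.Base

/-!
# Uniform version, item STP: the strip
-/

set_option autoImplicit false

namespace Pool.Agent.Work.MP_b25393_ag.UU

open scoped Classical
open Pool.Agent.Work.MP_b25393_ag.U

namespace I_STP

variable {k : ℕ} {U : Ultrafilter ℕ} {F : ℕ → Finset (ℝ × ℝ)} {s : ℕ → Fin k → ℝ} {g : ℕ → Fr}
  {A : Finset (Fin k)} {B Γ : Finset (Finset (Fin k))} {d σ : ℕ → ℝ} {lam : Finset (Fin k) → ℝ}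

theorem A_ne (hS : Sy U F s) (hT : TB U F s g A B) : A.Nonempty := by
  rw [Finset.nonempty_iff_ne_empty]
  rintro rfl
  have h := hT.cA 1 one_pos
  refine not_neg_of_pos hS.one h ?_
  refine neg_zero.mono' fun n => ?_
  unfold cn
  have : gr F s ∅ n = ∅ := by
    ext l
    rw [mem_gr]
    simp
  rw [this]
  simp

theorem A_notin (hS : Sy U F s) (hT : TB U F s g A B) : A ∉ B := by
  intro h
  have h1 := hT.dA A h
  rw [disjoint_self] at h1
  obtain ⟨x, hx⟩ := A_ne hS hT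
  rw [h1] at hx
  simp at hx

/-- the new frame -/
noncomputable def fr (g : ℕ → Fr) (y₀ d σ : ℕ → ℝ) (hd : ∀ n, 0 < d n) (n : ℕ) : Fr :=
  cmp (g n) (hfr 0 (y₀ n) 1 (d n) (σ n) one_ne_zero (hd n).ne')

theorem mem_cases {K : Finset (Fin k)} (hG : Γ ⊆ B) (h : K ∈ Γ ∪ insert A (B \ Γ)) :
    K = A ∨ K ∈ B := by
  rw [Finset.mem_union, Finset.mem_insert, Finset.mem_sdiff] at h
  rcases h with h | h | h
  · exact Or.inr (hG h)
  · exact Or.inl h
  · exact Or.inr h.1

theorem point {y₀ : ℕ → ℝ} (hd : ∀ n, 0 < d n) (hy : ∀ n, |y₀ n| ≤ 1 / 2)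
    (dz : ∀ e : ℝ, 0 < e → ∀ᶠ n in (U : Filter ℕ), d n ≤ e)
    (sz : ∀ e : ℝ, 0 < e → ∀ᶠ n in (U : Filter ℕ), |σ n| ≤ e) (M : ℝ) :
    ∀ᶠ n in (U : Filter ℕ), ∀ P : ℝ × ℝ, |P.1| ≤ 3 / 4 → |P.2| ≤ M →
      |(0 + 1 * P.1 : ℝ)| ≤ 1 ∧ |y₀ n + σ n * P.1 + d n * P.2| ≤ 1 := by
  filter_upwards [dz (1 / (4 * (|M| + 1))) (by positivity), sz (1 / 4) (by norm_num)]
    with n h1 h2 P hP1 hP2
  have hM : 0 < |M| + 1 := by positivity
  have h3 : d n * |P.2| ≤ 1 / 4 := by
    have h4 : |P.2| ≤ |M| + 1 := hP2.trans ((le_abs_self M).trans (by linarith))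
    calc d n * |P.2| ≤ (1 / (4 * (|M| + 1))) * (|M| + 1) :=
          mul_le_mul h1 h4 (abs_nonneg _) (by positivity)
      _ = 1 / 4 := by field_simp
  have h5 : |σ n * P.1| ≤ 1 / 4 := by
    rw [abs_mul]
    nlinarith [abs_nonneg (σ n), abs_nonneg P.1]
  have h6 : |d n * P.2| ≤ 1 / 4 := by
    rw [abs_mul, abs_of_pos (hd n)]
    exact h3
  refine ⟨?_, ?_⟩
  · rw [zero_add, one_mul]
    linarith
  · have h7 := abs_le.mp h5
    have h8 := abs_le.mp h6
    have h9 := abs_le.mp (hy n)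
    rw [abs_le]
    constructor <;> linarith

end I_STP

open I_STP in
theorem STP_pf (hFSY : S_FSY) (hFTR : S_FTR) (hFVH : S_FVH) (hYST : S_YST) : S_STP := by
  intro k U F s g A B Γ d σ lam hS hT hC hp
  obtain ⟨y₀, C, hy, hP⟩ := hYST k U F s g A B Γ d σ lam hS hT hC hp
  have hAne := A_ne hS hT
  have hAB := A_notin hS hT
  have hpt := fun M => point (U := U) (σ := σ) hC.dpos hy hC.dz hC.sz M
  refine ⟨fr g y₀ d σ hC.dpos, insert A (B \ Γ), ?_, ?_⟩
  · have h1 : (B \ Γ).card = B.card - Γ.card := Finset.card_sdiff_of_subset hC.sub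
    have h2 := Finset.card_insert_le A (B \ Γ)
    have h3 := hC.two
    have h4 := Finset.card_le_card hC.sub
    omega
  have hsub : A ∪ uni B ⊆ uni Γ ∪ uni (insert A (B \ Γ)) := by
    intro i hi
    rw [Finset.mem_union, mem_uni, mem_uni]
    rw [Finset.mem_union, mem_uni] at hi
    rcases hi with hi | ⟨K, hK, hi⟩
    · exact Or.inr ⟨A, Finset.mem_insert_self _ _, hi⟩
    · by_cases hG : K ∈ Γ
      · exact Or.inl ⟨K, hG, hi⟩
      · exact Or.inr ⟨K, Finset.mem_insert_of_mem (Finset.mem_sdiff.mpr ⟨hK, hG⟩), hi⟩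
  have hAsub : A ⊆ uni (insert A (B \ Γ)) := fun i hi =>
    mem_uni.mpr ⟨A, Finset.mem_insert_self _ _, hi⟩
  refine ⟨?_, ?_, ?_, hC.lne, ?_, ?_, ?_, ?_, ?_, ?_⟩
  · -- dis
    intro K hK K' hK' hne
    rcases mem_cases hC.sub hK with rfl | hK1
    · rcases mem_cases hC.sub hK' with rfl | hK2
      · exact absurd rfl hne
      · exact hT.dA K' hK2
    · rcases mem_cases hC.sub hK' with rfl | hK2
      · exact (hT.dA K hK1).symm
      · exact hT.dB K hK1 K' hK2 hne
  · -- dGV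
    rw [Finset.disjoint_left]
    intro K hK hK'
    rw [Finset.mem_insert, Finset.mem_sdiff] at hK'
    rcases hK' with rfl | hK'
    · exact hAB (hC.sub hK)
    · exact hK'.2 hK
  · -- hor
    intro K hK i hi
    rw [hor_iff]
    intro e he
    have hbe := hor_iff.mp (hT.hor K (hC.sub hK) i hi) 1 one_pos
    filter_upwards [hbe, hC.hor K hK i hi e he] with n h1 h2
    have hd := hC.dpos n
    unfold fr
    rw [be_hfr, sg_hfr _ _ _ _ _ _ _ _ _ h1.1]
    refine ⟨mul_ne_zero h1.1 hd.ne', ?_⟩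
    have e1 : (1 * sg (g n) (s n i) - σ n) / d n - lam K =
        (sg (g n) (s n i) - σ n - lam K * d n) / d n := by
      field_simp
    rw [e1, abs_div, abs_of_pos hd, div_le_iff₀ hd]
    exact h2
  · -- ver
    intro K hK i hi
    rw [Finset.mem_insert, Finset.mem_sdiff] at hK
    rcases hK with rfl | hK
    · refine ver_hfr (fun _ => one_ne_zero) (fun n => (hC.dpos n).ne') (hT.ver i hi) 1 ?_
      filter_upwards [hC.dz 1 one_pos, hC.sz 1 one_pos] with n h1 h2
      rw [abs_of_pos (hC.dpos n), abs_one, mul_one]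
      exact ⟨h1, h2⟩
    · intro e he
      have hbe := hor_iff.mp (hT.hor K hK.1 i hi) 1 one_pos
      filter_upwards [hbe, hC.far K hK.1 hK.2 i hi (1 / e)] with n h1 h2
      have hd := hC.dpos n
      unfold fr
      rw [be_hfr, al_hfr]
      have e1 : al (g n) (s n i) * 1 + be (g n) (s n i) * σ n =
          -(be (g n) (s n i) * (sg (g n) (s n i) - σ n)) := by
        have := h1.1
        unfold sg
        field_simp
        ring
      rw [e1, abs_neg, abs_mul, abs_mul, abs_of_pos hd]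
      have h3 : d n ≤ e * |sg (g n) (s n i) - σ n| := by
        have h4 : e * (1 / e * d n) ≤ e * |sg (g n) (s n i) - σ n| :=
          mul_le_mul_of_nonneg_left h2 he.le
        have h5 : e * (1 / e * d n) = d n := by field_simp
        rwa [h5] at h4
      calc |be (g n) (s n i)| * d n ≤ |be (g n) (s n i)| * (e * |sg (g n) (s n i) - σ n|) :=
            mul_le_mul_of_nonneg_left h3 (abs_nonneg _)
        _ = e * (|be (g n) (s n i)| * |sg (g n) (s n i) - σ n|) := by ring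
  · -- con
    intro M
    refine hT.con.mono ?_
    filter_upwards [hpt M] with n hn
    apply Finset.card_le_card
    intro l hl
    rw [Finset.mem_filter] at hl ⊢
    obtain ⟨hlF, hl1, P, hP1, hP2, hP3⟩ := hl
    unfold fr at hP3
    rw [onl_hfr] at hP3
    obtain ⟨h3, h4⟩ := hn P hP1 hP2
    exact ⟨hlF, fun h => hl1 (gr_mono hsub n h), _, h3, h4, hP3⟩
  · -- cr
    intro K hK M
    have key : Neg2 U F fun n => crp (g n) 1 1 (gr F s K n) := by
      rcases mem_cases hC.sub hK with rfl | hK1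
      · exact hT.crA
      · exact hT.crB K hK1
    refine key.mono ?_
    filter_upwards [hpt M] with n hn
    unfold crp
    apply Finset.card_le_card
    intro q hq
    rw [Finset.mem_filter] at hq ⊢
    obtain ⟨hq1, hq2, P, hP1, hP2, hP3, hP4⟩ := hq
    unfold fr at hP3 hP4
    rw [onl_hfr] at hP3 hP4
    obtain ⟨h3, h4⟩ := hn P hP1 hP2
    exact ⟨hq1, hq2, _, h3, h4, hP3, hP4⟩
  · -- sep
    intro K hK i hi i' hi' j hj hjK a ha
    obtain ⟨Ka, hKa, haK⟩ := mem_uni.mp ha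
    obtain ⟨Kj, hKj, hjK'⟩ := mem_uni.mp hj
    rw [Finset.mem_insert, Finset.mem_sdiff] at hK hKj
    rcases hK with rfl | hK
    · rcases hKj with rfl | hKj
      · exact absurd hjK' hjK
      · exact hFVH k U s g i i' j a (hT.ver i hi) (hT.ver i' hi') (hT.hor Kj hKj.1 j hjK')
          (hT.hor Ka (hC.sub hKa) a haK)
    · have haB : a ∈ uni B := mem_uni.mpr ⟨Ka, hC.sub hKa, haK⟩
      have haK' : a ∉ K := by
        intro h
        have hne : Ka ≠ K := by
          rintro rfl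
          exact hK.2 hKa
        exact Finset.disjoint_left.mp (hT.dB Ka (hC.sub hKa) K hK.1 hne) haK h
      rcases hKj with rfl | hKj
      · exact hFSY k U s i i' a j (hT.sep K hK.1 i hi i' hi' a haB haK' j hjK')
      · obtain ⟨a₀, ha₀⟩ := hAne
        have hjB : j ∈ uni B := mem_uni.mpr ⟨Kj, hKj.1, hjK'⟩
        refine hFTR k U s i i' j a₀ a ?_ (hT.sep K hK.1 i hi i' hi' j hjB hjK a₀ ha₀)
          (hT.sep K hK.1 i hi i' hi' a haB haK' a₀ ha₀)
        filter_upwards with n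
        intro h
        have h1 := hS.inj n h
        rw [h1] at hi
        exact Finset.disjoint_left.mp (hT.dA K hK.1) ha₀ hi
  · -- cV
    intro η hη
    have h1 := hT.cA (η / 2) (by linarith)
    refine h1.mono ?_
    have hv := ver_lines F (K := A) hT.ver (min (1 / 4) (η / 4)) (by positivity)
    filter_upwards [hv, hC.sz 1 one_pos] with n h2 h3
    unfold cn
    apply Finset.card_le_card
    intro l hl
    rw [Finset.mem_filter] at hl ⊢
    obtain ⟨hl1, hl2, hl3⟩ := hl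
    obtain ⟨h4, h5⟩ := h2 l hl1
    have h6 : |rh (g n) l.1| ≤ 1 / 4 := h5.trans (min_le_left _ _)
    have h7 : |rh (g n) l.1| ≤ η / 4 := h5.trans (min_le_right _ _)
    have h8 : |rh (g n) l.1 * σ n| ≤ 1 / 4 := by
      rw [abs_mul]
      nlinarith [abs_nonneg (rh (g n) l.1), abs_nonneg (σ n)]
    have h9 : |rh (g n) l.1 * y₀ n| ≤ η / 8 := by
      rw [abs_mul]
      nlinarith [abs_nonneg (rh (g n) l.1), abs_nonneg (y₀ n), hy n]
    have h10 := abs_le.mp h8
    have h11 := abs_le.mp h9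
    have hpos : 0 < 1 - rh (g n) l.1 * σ n := by linarith
    refine ⟨gr_mono hAsub n hl1, ?_⟩
    have e1 : vv (fr g y₀ d σ hC.dpos n) l =
        (vv (g n) l - 0 + rh (g n) l.1 * y₀ n) / (1 - rh (g n) l.1 * σ n) := by
      unfold fr
      rw [vv_hfr _ _ _ _ _ _ _ _ _ h4 hpos.ne']
    change 0 - η ≤ vv (fr g y₀ d σ hC.dpos n) l ∧ vv (fr g y₀ d σ hC.dpos n) l ≤ 0 + η
    rw [e1]
    constructor
    · rw [le_div_iff₀ hpos]
      nlinarith
    · rw [div_le_iff₀ hpos]
      nlinarith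
  · -- mH
    refine ⟨C, hP.mono ?_⟩
    have hh : ∀ᶠ n in (U : Filter ℕ), ∀ K ∈ B, ∀ l ∈ gr F s K n,
        be (g n) l.1 ≠ 0 ∧ |sg (g n) l.1 - 0| ≤ 1 :=
      hor_lines F (G := B) (lam := fun _ => 0) hT.hor 1 one_pos
    filter_upwards [hh] with n hn
    apply Finset.card_le_card
    intro l hl
    rw [Finset.mem_filter] at hl ⊢
    obtain ⟨hl1, hl2⟩ := hl
    refine ⟨hl1, ?_⟩
    obtain ⟨hlF, i, hi, hli⟩ := mem_gr.mp hl1
    obtain ⟨K, hK, hiK⟩ := mem_uni.mp hi
    have hbe := (hn K (hC.sub hK) l (mem_gr.mpr ⟨hlF, i, hiK, hli⟩)).1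
    have hd := hC.dpos n
    unfold fr
    rw [tt_hfr _ _ _ _ _ _ _ _ _ hbe, mul_zero, add_zero, abs_div, abs_of_pos hd,
      div_le_iff₀ hd]
    exact hl2

end Pool.Agent.Work.MP_b25393_ag.UU
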