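import Pool.Agent.Work.MP_b25393_ag.UU.StmtsB
import Pool.Agent.Work.MP_b25393_ag.UU.Base

/-!
# Uniform version, item STT: without vertical atoms there are no tails
-/

set_option autoImplicit false

namespace Pool.Agent.Work.MP_b25393_ag.UU

open scoped Classical
open Pool.Agent.Work.MP_b25393_ag.U

namespace I_STT

theorem rh_mul_sg {g : Fr} {s : ℝ} (ha : al g s ≠ 0) (hb : be g s ≠ 0) :
    rh g s * sg g s = 1 := by
  unfold rh sg
  field_simp

/-- a common bound for finitely many slopes -/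
theorem ex_lam {ι : Type*} (G : Finset ι) (lam : ι → ℝ) :
    ∃ Λ : ℝ, 1 ≤ Λ ∧ ∀ K ∈ G, |lam K| + 1 ≤ Λ := by
  refine ⟨1 + ∑ K ∈ G, |lam K|, ?_, ?_⟩
  · have : 0 ≤ ∑ K ∈ G, |lam K| := Finset.sum_nonneg fun _ _ => abs_nonneg _
    linarith
  · intro K hK
    have : |lam K| ≤ ∑ K ∈ G, |lam K| :=
      Finset.single_le_sum (f := fun K => |lam K|) (fun _ _ => abs_nonneg _) hK
    linarith

/-- the crossing of a flat line and a steep line -/
theorem cross {v r t σ T Λ : ℝ} (hv : |v| ≤ 1 / 4) (hΛ : 1 ≤ Λ) (hT : 0 < T)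
    (hr : |r| ≤ 1 / (16 * (T + Λ))) (ht : |t| ≤ T) (hσ : |σ| ≤ Λ) :
    1 - r * σ ≠ 0 ∧ |(v + r * t) / (1 - r * σ)| ≤ 3 / 8 ∧
      |t + σ * ((v + r * t) / (1 - r * σ))| ≤ T + 2 * Λ ∧ r * σ ≠ 1 := by
  have hTL : 0 < T + Λ := by linarith
  have h1 : |r * t| ≤ 1 / 16 := by
    rw [abs_mul]
    calc |r| * |t| ≤ 1 / (16 * (T + Λ)) * (T + Λ) := by
          apply mul_le_mul hr (by linarith) (abs_nonneg _) (by positivity)
      _ = 1 / 16 := by field_simp
  have h2 : |r * σ| ≤ 1 / 16 := by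
    rw [abs_mul]
    calc |r| * |σ| ≤ 1 / (16 * (T + Λ)) * (T + Λ) := by
          apply mul_le_mul hr (by linarith) (abs_nonneg _) (by positivity)
      _ = 1 / 16 := by field_simp
  rw [abs_le] at h1 h2 hv
  have h3 : 15 / 16 ≤ 1 - r * σ := by linarith [h2.2]
  have h4 : |(v + r * t) / (1 - r * σ)| ≤ 3 / 8 := by
    rw [abs_div, abs_of_pos (show 0 < 1 - r * σ by linarith), div_le_iff₀ (by linarith), abs_le]
    constructor <;> nlinarith [h1.1, h1.2, hv.1, hv.2]
  refine ⟨by linarith, h4, ?_, by linarith [h2.2]⟩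
  have h5 : |σ * ((v + r * t) / (1 - r * σ))| ≤ Λ * (3 / 8) := by
    rw [abs_mul]
    exact mul_le_mul hσ h4 (abs_nonneg _) (by linarith)
  calc |t + σ * ((v + r * t) / (1 - r * σ))| ≤ |t| + |σ * ((v + r * t) / (1 - r * σ))| :=
        abs_add_le _ _
    _ ≤ T + Λ * (3 / 8) := add_le_add ht h5
    _ ≤ T + 2 * Λ := by linarith

end I_STT

open I_STT in
theorem STT_pf (hMLS : S_MLS) (hFTL : S_FTL) (hSXV : S_SXV) : S_STT := by
  intro k U F s g G V lam hSy hST hat
  obtain ⟨Λ, hΛ1, hΛ⟩ := ex_lam G lam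
  obtain ⟨a, ha, hcV⟩ := hST.cV (1 / 4) (by norm_num)
  obtain ⟨T, hT, hFT⟩ := hFTL U F (gr F s (uni G)) (fun n => tt (g n)) (fun n => gr_sub F s _ n)
    (a / 8) (by linarith)
  refine ⟨T + 2 * Λ, by linarith, ?_⟩
  intro K hK T' hT'
  have hT'0 : 0 < T' := by linarith
  refine hMLS k U F s g
    (fun n => (gr F s K n).filter fun l => T + 2 * Λ ≤ |tt (g n) l| ∧ |tt (g n) l| ≤ T')
    (fun n => gr F s (uni V) n) (fun n => gr F s K n)
    (fun _ _ => bx (3 / 8) (T' + 2 * Λ)) a (a / 4) hSy ha (by linarith)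
    (fun n => gr_sub F s _ n) (fun n => (Finset.filter_subset _ _).trans (gr_sub F s _ n))
    (fun n c _ => convex_bx _ _) ?_ ?_ ?_ ?_
  · -- vertical lines met
    have hV : ∀ i ∈ uni V, Ver U s g i := by
      intro i hi
      obtain ⟨K', hK', hi'⟩ := mem_uni.mp hi
      exact hST.ver K' hK' i hi'
    filter_upwards [hcV, hor_lines F hST.hor 1 one_pos,
      ver_lines F hV (1 / (16 * (T' + Λ))) (by positivity)] with n h1 h2 h3 c hc
    refine h1.trans ?_
    have key : ((gr F s (uni V) n).filter fun l => 0 - 1 / 4 ≤ vv (g n) l ∧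
        vv (g n) l ≤ 0 + 1 / 4) ⊆ ((gr F s (uni V) n).filter fun l =>
        mc (g n) (bx (3 / 8) (T' + 2 * Λ)) c l) := by
      intro l hl
      rw [Finset.mem_filter] at hl hc ⊢
      obtain ⟨hl1, hl2, hl3⟩ := hl
      obtain ⟨hc1, hc2, hc3⟩ := hc
      obtain ⟨b1, b2⟩ := h2 K hK c hc1
      obtain ⟨a1, a2⟩ := h3 l hl1
      have hσ : |sg (g n) c.1| ≤ Λ := by
        have e1 := abs_sub_abs_le_abs_sub (sg (g n) c.1) (lam K)
        have e2 := hΛ K hK
        linarith
      have hv : |vv (g n) l| ≤ 1 / 4 := by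
        rw [abs_le]
        constructor <;> linarith
      obtain ⟨k1, k2, k3, k4⟩ := cross hv hΛ1 hT'0 a2 hc3 hσ
      obtain ⟨m1, m2⟩ := cross_hv (g := g n) (l := c) (m := l) b1 a1 k1
      refine ⟨hl1, ?_, _, ⟨k2, k3⟩, m1, m2⟩
      rintro rfl
      exact k4 (rh_mul_sg a1 b1)
    exact_mod_cast Finset.card_le_card key
  · -- other lines met
    have hcon := hST.con (T' + 2 * Λ) (a / 8) (by linarith)
    filter_upwards [hcon, hor_lines F hST.hor 1 one_pos, hFT (T' + 2 * Λ) (by linarith)]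
      with n h1 h2 h3 c hc
    have key : ((F n \ (gr F s (uni V) n ∪ gr F s K n)).filter fun l =>
        mc (g n) (bx (3 / 8) (T' + 2 * Λ)) c l) ⊆
        ((F n).filter fun l => l ∉ gr F s (uni G ∪ uni V) n ∧
          ∃ P : ℝ × ℝ, |P.1| ≤ 3 / 4 ∧ |P.2| ≤ T' + 2 * Λ ∧ onl (g n) l P) ∪
        ((gr F s (uni G) n).filter fun l => T ≤ |tt (g n) l| ∧ |tt (g n) l| ≤ T' + 2 * Λ) := by
      intro l hl
      rw [Finset.mem_filter, Finset.mem_sdiff, Finset.mem_union, not_or] at hl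
      obtain ⟨⟨hl1, hl2, hl3⟩, hne, P, ⟨hP1, hP2⟩, hPc, hPl⟩ := hl
      rw [Finset.mem_filter] at hc
      obtain ⟨hc1, hc2, hc3⟩ := hc
      rw [Finset.mem_union]
      by_cases hg : l ∈ gr F s (uni G ∪ uni V) n
      · right
        obtain ⟨hF, i, hi, hls⟩ := mem_gr.mp hg
        rcases Finset.mem_union.mp hi with hi | hi
        · obtain ⟨K', hK', hi'⟩ := mem_uni.mp hi
          have hlK' : l ∈ gr F s K' n := mem_gr.mpr ⟨hF, i, hi', hls⟩
          obtain ⟨b1, b2⟩ := h2 K hK c hc1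
          obtain ⟨b3, b4⟩ := h2 K' hK' l hlK'
          have hσ : |sg (g n) c.1| ≤ Λ := by
            have e1 := abs_sub_abs_le_abs_sub (sg (g n) c.1) (lam K)
            have e2 := hΛ K hK
            linarith
          have hσ' : |sg (g n) l.1| ≤ Λ := by
            have e1 := abs_sub_abs_le_abs_sub (sg (g n) l.1) (lam K')
            have e2 := hΛ K' hK'
            linarith
          rw [onl_hor b1] at hPc
          rw [onl_hor b3] at hPl
          have e1 : |sg (g n) c.1 * P.1| ≤ Λ := by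
            rw [abs_mul]
            calc |sg (g n) c.1| * |P.1| ≤ Λ * (3 / 8) :=
                  mul_le_mul hσ hP1 (abs_nonneg _) (by linarith)
              _ ≤ Λ := by linarith
          have e2 : |sg (g n) l.1 * P.1| ≤ Λ := by
            rw [abs_mul]
            calc |sg (g n) l.1| * |P.1| ≤ Λ * (3 / 8) :=
                  mul_le_mul hσ' hP1 (abs_nonneg _) (by linarith)
              _ ≤ Λ := by linarith
          have e3 : |tt (g n) l - tt (g n) c| ≤ 2 * Λ := by
            have e4 : tt (g n) l - tt (g n) c = sg (g n) c.1 * P.1 - sg (g n) l.1 * P.1 := by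
              linarith
            rw [e4]
            calc |sg (g n) c.1 * P.1 - sg (g n) l.1 * P.1| ≤
                |sg (g n) c.1 * P.1| + |sg (g n) l.1 * P.1| := abs_sub _ _
              _ ≤ 2 * Λ := by linarith
          rw [Finset.mem_filter]
          refine ⟨mem_gr.mpr ⟨hF, i, hi, hls⟩, ?_, ?_⟩
          · have e5 := abs_sub_abs_le_abs_sub (tt (g n) c) (tt (g n) l)
            rw [abs_sub_comm] at e5
            linarith
          · have e5 := abs_sub_abs_le_abs_sub (tt (g n) l) (tt (g n) c)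
            linarith
        · exact absurd (mem_gr.mpr ⟨hF, i, hi, hls⟩) hl2
      · left
        rw [Finset.mem_filter]
        exact ⟨hl1, hg, P, by linarith, hP2, hPl⟩
    have h4 := (Finset.card_le_card key).trans (Finset.card_union_le _ _)
    have h5 : ((((F n \ (gr F s (uni V) n ∪ gr F s K n)).filter fun l =>
        mc (g n) (bx (3 / 8) (T' + 2 * Λ)) c l).card : ℕ) : ℝ) ≤
        ((((F n).filter fun l => l ∉ gr F s (uni G ∪ uni V) n ∧
          ∃ P : ℝ × ℝ, |P.1| ≤ 3 / 4 ∧ |P.2| ≤ T' + 2 * Λ ∧ onl (g n) l P).card : ℕ) : ℝ) +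
        ((((gr F s (uni G) n).filter fun l => T ≤ |tt (g n) l| ∧
          |tt (g n) l| ≤ T' + 2 * Λ).card : ℕ) : ℝ) := by
      exact_mod_cast h4
    linarith
  · -- meetings of H and K
    refine (hST.cr K (Finset.mem_union_left _ hK) (T' + 2 * Λ)).mono
      (Filter.Eventually.of_forall fun n => ?_)
    refine Finset.card_le_card fun q hq => ?_
    rw [Finset.mem_filter, Finset.mem_product] at hq ⊢
    obtain ⟨⟨h1, h2⟩, h3, P, ⟨h4, h5⟩, h6, h7⟩ := hq
    exact ⟨⟨Finset.mem_of_mem_filter _ h1, h2⟩, Ne.symm h3, P, by linarith, h5, h6, h7⟩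
  · -- pairs of vertical lines
    refine (hSXV k U F s g G V lam hSy hST hat (T' + 2 * Λ)).mono
      (Filter.Eventually.of_forall fun n => ?_)
    refine Finset.card_le_card fun q hq => ?_
    rw [Finset.mem_filter] at hq ⊢
    obtain ⟨h1, h2, c, hc, P, ⟨h4, h5⟩, h6, h7, h8⟩ := hq
    exact ⟨h1, h2, P, h4, h5, h7, h8⟩

end Pool.Agent.Work.MP_b25393_ag.UU
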