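import Pool.Agent.Work.MP_b25393_ag.UU.StmtsB

/-!
# Item TB1: one block against one block
-/

set_option autoImplicit false

namespace Pool.Agent.Work.MP_b25393_ag.UU

open scoped Classical
open Pool.Agent.Work.MP_b25393_ag.U

namespace I_TB1

theorem uni_single {k : ℕ} (K : Finset (Fin k)) : uni {K} = K := by
  unfold uni
  simp

/-- crossing of a horizontal and a vertical line in the box -/
theorem cross {g : Fr} {c l : ℝ × ℝ} (hc : be g c.1 ≠ 0) (hl : al g l.1 ≠ 0)
    (h1 : |sg g c.1| ≤ 1 / 10) (h2 : |rh g l.1| ≤ 1 / 10) (h3 : |tt g c| ≤ 1 / 2)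
    (h4 : |vv g l| ≤ 1 / 2) :
    ∃ P ∈ bx 1 1, onl g c P ∧ onl g l P := by
  have hρσ : |rh g l.1 * sg g c.1| ≤ 1 / 100 := by
    rw [abs_mul]
    nlinarith [abs_nonneg (rh g l.1), abs_nonneg (sg g c.1)]
  have hd : 99 / 100 ≤ 1 - rh g l.1 * sg g c.1 := by
    have := (abs_le.mp hρσ).2
    linarith
  have hne : 1 - rh g l.1 * sg g c.1 ≠ 0 := by
    intro h
    linarith
  obtain ⟨e1, e2⟩ := cross_hv hc hl hne
  have hX : |(vv g l + rh g l.1 * tt g c) / (1 - rh g l.1 * sg g c.1)| ≤ 3 / 5 := by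
    rw [abs_div, abs_of_pos (by linarith : (0 : ℝ) < 1 - rh g l.1 * sg g c.1),
      div_le_iff₀ (by linarith)]
    have h5 : |rh g l.1 * tt g c| ≤ 1 / 20 := by
      rw [abs_mul]
      nlinarith [abs_nonneg (rh g l.1), abs_nonneg (tt g c)]
    have h6 : |vv g l + rh g l.1 * tt g c| ≤ |vv g l| + |rh g l.1 * tt g c| := abs_add_le _ _
    linarith
  refine ⟨_, ⟨?_, ?_⟩, e1, e2⟩
  · simp only
    linarith
  · simp only
    have h7 : |sg g c.1 * ((vv g l + rh g l.1 * tt g c) / (1 - rh g l.1 * sg g c.1))| ≤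
        3 / 50 := by
      rw [abs_mul]
      nlinarith [abs_nonneg (sg g c.1),
        abs_nonneg ((vv g l + rh g l.1 * tt g c) / (1 - rh g l.1 * sg g c.1))]
    have h8 := abs_add_le (tt g c)
      (sg g c.1 * ((vv g l + rh g l.1 * tt g c) / (1 - rh g l.1 * sg g c.1)))
    linarith

theorem main {k : ℕ} {U : Ultrafilter ℕ} {F : ℕ → Finset (ℝ × ℝ)} {s : ℕ → Fin k → ℝ}
    {g : ℕ → Fr} {A K : Finset (Fin k)} (hMLS : S_MLS) (hS : Sy U F s)
    (hT : TB U F s g A {K}) : False := by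
  have hK : K ∈ ({K} : Finset (Finset (Fin k))) := Finset.mem_singleton_self K
  have hAK : Disjoint A K := hT.dA K hK
  obtain ⟨a, ha, hcA⟩ := hT.cA (1 / 2) (by norm_num)
  have hver := ver_lines F hT.ver (1 / 10) (by norm_num)
  have hhor := hor_lines' F (hT.hor K hK) (1 / 10) (by norm_num)
  have hcB : Pos U F fun n => ((gr F s K n).filter fun l => |tt (g n) l| ≤ 1 / 2).card := by
    refine (hT.cB (1 / 2) (by norm_num)).mono (Filter.Eventually.of_forall fun n => ?_)
    unfold cn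
    rw [uni_single]
    refine Finset.card_le_card fun l hl => ?_
    rw [Finset.mem_filter] at hl ⊢
    refine ⟨hl.1, abs_le.mpr ⟨?_, ?_⟩⟩
    · linarith [hl.2.1]
    · linarith [hl.2.2]
  have hsub : ∀ n, ∀ l ∈ gr F s K n, ∀ m ∈ gr F s A n, m ≠ l := by
    intro n l hl m hm h
    obtain ⟨_, i, hi, h1⟩ := mem_gr.mp hl
    obtain ⟨_, j, hj, h2⟩ := mem_gr.mp hm
    have h3 : i = j := hS.inj n (by rw [← h1, ← h2, h])
    rw [h3] at hi
    exact (Finset.disjoint_left.mp hAK hj) hi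
  refine not_neg_of_pos hS.one hcB ?_
  refine hMLS k U F s g (fun n => (gr F s K n).filter fun l => |tt (g n) l| ≤ 1 / 2)
    (gr F s A) (gr F s K) (fun _ _ => bx 1 1) a (a / 4) hS ha (by linarith)
    (fun n => gr_sub F s A n)
    (fun n => (Finset.filter_subset _ _).trans (gr_sub F s K n))
    (fun n c _ => convex_bx 1 1) ?_ ?_ ?_ ?_
  · filter_upwards [hcA, hver, hhor] with n h1 h2 h3 c hc
    rw [Finset.mem_filter] at hc
    refine h1.trans ?_
    have h4 : cn (gr F s A) (fun n => vv (g n)) (0 - 1 / 2) (0 + 1 / 2) n ≤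
        ((gr F s A n).filter fun l => mc (g n) (bx 1 1) c l).card := by
      unfold cn
      refine Finset.card_le_card fun l hl => ?_
      rw [Finset.mem_filter] at hl ⊢
      obtain ⟨h5, h6⟩ := h2 l hl.1
      obtain ⟨h7, h8⟩ := h3 c hc.1
      rw [sub_zero] at h8
      refine ⟨hl.1, hsub n c hc.1 l hl.1, cross h7 h5 h8 h6 hc.2 (abs_le.mpr ⟨?_, ?_⟩)⟩
      · linarith [hl.2.1]
      · linarith [hl.2.2]
    exact_mod_cast h4
  · filter_upwards [hT.con (a / 4) (by linarith)] with n h1 c hc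
    refine le_trans ?_ h1
    have h4 : ((F n \ (gr F s A n ∪ gr F s K n)).filter fun l => mc (g n) (bx 1 1) c l).card ≤
        ((F n).filter fun l => l ∉ gr F s (A ∪ uni {K}) n ∧ hit (g n) 1 l).card := by
      refine Finset.card_le_card fun l hl => ?_
      rw [Finset.mem_filter, Finset.mem_sdiff] at hl
      rw [Finset.mem_filter]
      obtain ⟨⟨h5, h6⟩, h7, P, h8, h9, h10⟩ := hl
      refine ⟨h5, ?_, P, h8.1, h8.2, h10⟩
      intro h11
      apply h6
      rw [uni_single] at h11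
      obtain ⟨_, i, hi, h12⟩ := mem_gr.mp h11
      rw [Finset.mem_union] at hi ⊢
      rcases hi with hi | hi
      · exact Or.inl (mem_gr.mpr ⟨h5, i, hi, h12⟩)
      · exact Or.inr (mem_gr.mpr ⟨h5, i, hi, h12⟩)
    exact_mod_cast h4
  · refine (hT.crB K hK).mono (Filter.Eventually.of_forall fun n => ?_)
    unfold crp
    refine Finset.card_le_card fun q hq => ?_
    rw [Finset.mem_filter, Finset.mem_product, Finset.mem_filter] at hq
    rw [Finset.mem_filter, Finset.mem_product]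
    obtain ⟨⟨⟨h1, _⟩, h2⟩, h3, P, h4, h5, h6⟩ := hq
    exact ⟨⟨h1, h2⟩, fun h => h3 h.symm, P, h4.1, h4.2, h5, h6⟩
  · refine hT.crA.mono (Filter.Eventually.of_forall fun n => ?_)
    unfold crp
    refine Finset.card_le_card fun q hq => ?_
    rw [Finset.mem_filter] at hq ⊢
    obtain ⟨h1, h2, c, hc, P, h4, h5, h6, h7⟩ := hq
    exact ⟨h1, h2, P, h4.1, h4.2, h6, h7⟩

end I_TB1

theorem TB1_pf (hMLS : S_MLS) : S_TB1 := by
  intro k U F s g A K hS hT
  exact I_TB1.main hMLS hS hT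

end Pool.Agent.Work.MP_b25393_ag.UU
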