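import Pool.Agent.Work.MP_b25393_ag.UU.StmtsB
import Pool.Agent.Work.MP_b25393_ag.UU.Base

/-!
# Uniform version, item TBE: an empty block can be dropped
-/

set_option autoImplicit false

namespace Pool.Agent.Work.MP_b25393_ag.UU

open scoped Classical
open Pool.Agent.Work.MP_b25393_ag.U

theorem TBE_pf : S_TBE := by
  intro k U F s g A B h
  have e : uni (B.erase ∅) = uni B := by
    ext i
    rw [mem_uni, mem_uni]
    constructor
    · rintro ⟨K, hK, hi⟩
      exact ⟨K, Finset.mem_of_mem_erase hK, hi⟩
    · rintro ⟨K, hK, hi⟩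
      exact ⟨K, Finset.mem_erase.mpr ⟨Finset.ne_empty_of_mem hi, hK⟩, hi⟩
  have hm : ∀ K ∈ B.erase ∅, K ∈ B := fun K hK => Finset.mem_of_mem_erase hK
  exact
    { dA := fun K hK => h.dA K (hm K hK)
      dB := fun K hK K' hK' => h.dB K (hm K hK) K' (hm K' hK')
      ver := h.ver
      hor := fun K hK => h.hor K (hm K hK)
      con := by
        rw [e]
        exact h.con
      crA := h.crA
      crB := fun K hK => h.crB K (hm K hK)
      sep := fun K hK i hi i' hi' j hj => by
        rw [e] at hj
        exact h.sep K (hm K hK) i hi i' hi' j hj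
      cA := h.cA
      cB := by
        rw [e]
        exact h.cB }

end Pool.Agent.Work.MP_b25393_ag.UU
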