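import Pool.Agent.Work.MP_b25393_ag.UU.StmtsC
import Pool.Agent.Work.MP_b25393_ag.UU.Base

/-!
# [b25393 UU TBF] there are no two bundles
-/

set_option autoImplicit false

namespace Pool.Agent.Work.MP_b25393_ag.UU

open scoped Classical
open Pool.Agent.Work.MP_b25393_ag.U

namespace I_TBF

theorem uni_empty {k : ℕ} : uni (∅ : Finset (Finset (Fin k))) = ∅ := by
  unfold uni
  simp

theorem cn_empty {k : ℕ} (F : ℕ → Finset (ℝ × ℝ)) (s : ℕ → Fin k → ℝ) (p : ℕ → ℝ × ℝ → ℝ)
    (u v : ℝ) (n : ℕ) : cn (gr F s (∅ : Finset (Fin k))) p u v n = 0 := by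
  unfold cn gr
  simp

end I_TBF

open I_TBF in
theorem TBF_pf (hTB1 : S_TB1) (hTBE : S_TBE) (hCLU : S_CLU) (hMRG : S_MRG) (hSTP : S_STP)
    (hSTF : S_STF) (hPLF : S_PLF) : S_TBF := by
  intro k U F s hS
  have hzero : ∀ (g : ℕ → Fr) (A : Finset (Fin k)) (B : Finset (Finset (Fin k))), B = ∅ →
      ¬ TB U F s g A B := by
    intro g A B hB h
    subst hB
    have h1 := h.cB 1 one_pos
    rw [uni_empty] at h1
    refine not_neg_of_pos hS.one h1 ?_
    refine neg_zero.mono' fun n => ?_
    rw [cn_empty]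
  have key : ∀ m : ℕ, ∀ (g : ℕ → Fr) (A : Finset (Fin k)) (B : Finset (Finset (Fin k))),
      B.card ≤ m → ¬ TB U F s g A B := by
    intro m
    induction m with
    | zero =>
      intro g A B hB
      exact hzero g A B (Finset.card_eq_zero.1 (Nat.le_zero.1 hB))
    | succ m ih =>
      intro g A B hB h
      by_cases he : (∅ : Finset (Fin k)) ∈ B
      · refine ih g A (B.erase ∅) ?_ (hTBE k U F s g A B h)
        have := Finset.card_erase_of_mem he
        omega
      by_cases h1 : B.card ≤ 1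
      · rcases Nat.lt_or_ge B.card 1 with h2 | h2
        · exact hzero g A B (Finset.card_eq_zero.1 (by omega)) h
        · obtain ⟨K, hK⟩ := Finset.card_eq_one.1 (le_antisymm h1 h2)
          subst hK
          exact hTB1 k U F s g A K hS h
      have hne : ∀ K ∈ B, K.Nonempty := by
        intro K hK
        rw [Finset.nonempty_iff_ne_empty]
        rintro rfl
        exact he hK
      obtain ⟨Γ, d, σ, lam, hC⟩ := hCLU k U F s g A B hS h (by omega) hne
      by_cases hN : Neg2 U F fun n => crp (g n) (1 / 4) (1 / 4) (gr F s (uni Γ) n)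
      · obtain ⟨g', B', hlt, h'⟩ := hMRG k U F s g A B Γ d σ lam (1 / 4) hS h hC (by norm_num)
          (by norm_num) hN
        exact ih g' A B' (by omega) h'
      · obtain ⟨g', V, hlt, h'⟩ := hSTP k U F s g A B Γ d σ lam hS h hC (pos2_of_not_neg2 hN)
        exact hSTF k U F s g' Γ V lam hS h' (fun g2 A2 B2 h2 => ih g2 A2 B2 (by omega))
          fun g2 L2 G2 lam2 hPL => hPLF k U F s g2 L2 G2 V lam2 hS hPL
            fun g3 A3 B3 h3 => ih g3 A3 B3 (by omega)
  intro g A B
  exact key B.card g A B le_rfl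

end Pool.Agent.Work.MP_b25393_ag.UU
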