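import Pool.Agent.Work.MP_b25393_ag.UU.StmtsB

/-!
# Item TBW: exchange of the coordinates
-/

set_option autoImplicit false

namespace Pool.Agent.Work.MP_b25393_ag.UU

open scoped Classical
open Pool.Agent.Work.MP_b25393_ag.U

theorem TBW_pf : S_TBW := by
  intro k U F s g A V h
  refine ⟨h.dA, h.dB, ?_, ?_, ?_, ?_, ?_, h.sep, ?_, ?_⟩
  · intro i hi
    exact ver_swp.2 (h.hor i hi)
  · intro K hK i hi
    exact hor_swp.2 (h.ver K hK i hi)
  · have h1 := h.con
    simp only [hit_swp]
    exact h1
  · have h1 := h.crA
    simp only [crp_swp]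
    exact h1
  · intro K hK
    have h1 := h.crB K hK
    simp only [crp_swp]
    exact h1
  · have h1 := h.cA
    have e : (fun n => vv (cmp (g n) swp)) = fun n => tt (g n) := by
      funext n l
      exact vv_swp (g n) l
    show Spt U F (gr F s A) (fun n => vv (cmp (g n) swp)) 0
    rw [e]
    exact h1
  · have h1 := h.cB
    have e : (fun n => tt (cmp (g n) swp)) = fun n => vv (g n) := by
      funext n l
      exact tt_swp (g n) l
    show Spt U F (gr F s (uni V)) (fun n => tt (cmp (g n) swp)) 0
    rw [e]
    exact h1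

end Pool.Agent.Work.MP_b25393_ag.UU
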