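import Pool.Agent.Work.MP_b25393_ag.UU.StmtsB

/-!
# Block [b25393 UU], item TOP: the top of the support
-/

set_option autoImplicit false

namespace Pool.Agent.Work.MP_b25393_ag.UU

open scoped Classical
open Pool.Agent.Work.MP_b25393_ag.U

namespace I_TOP

theorem mem_filter' {α : Type} {s : Finset α} {P : α → Prop} (inst : DecidablePred P) {a : α} :
    a ∈ @Finset.filter α P inst s ↔ a ∈ s ∧ P a := Finset.mem_filter

end I_TOP

theorem TOP_pf (hSPT : S_SPT) (hSCL : S_SCL) : S_TOP := by
  intro U F G p T₀ hF hT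
  by_cases h : ∀ T : ℝ, Neg U F fun n => ((G n).filter fun l => |p n l| ≤ T).card
  · exact Or.inl h
  right
  push Not at h
  obtain ⟨T, hTn⟩ := h
  have hpos := pos_of_not_neg hTn
  obtain ⟨t₀, -, ht₀⟩ := hSPT U F G p (Set.Icc (-T) T) hF isCompact_Icc (by
    refine hpos.mono (Filter.Eventually.of_forall fun n => ?_)
    apply Finset.card_le_card
    intro l hl
    rw [Finset.mem_filter] at hl
    exact (I_TOP.mem_filter' _).mpr ⟨hl.1, abs_le.mp hl.2⟩)
  have hb : ∀ t : ℝ, Spt U F G p t → |t| ≤ T₀ := by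
    intro t ht
    by_contra hlt
    push Not at hlt
    have h1 := ht ((|t| - T₀) / 2) (by linarith)
    have h2 := hT (|t| + (|t| - T₀) / 2) (by linarith)
    refine not_neg_of_pos hF (h1.mono (Filter.Eventually.of_forall fun n => ?_)) h2
    unfold cn
    apply Finset.card_le_card
    intro l hl
    rw [Finset.mem_filter] at hl ⊢
    obtain ⟨hl1, hl2, hl3⟩ := hl
    have h3 : |p n l - t| ≤ (|t| - T₀) / 2 := abs_le.mpr ⟨by linarith, by linarith⟩
    have h4 : |t| ≤ |p n l| + |p n l - t| := by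
      have := abs_sub_abs_le_abs_sub t (p n l)
      rw [abs_sub_comm] at this
      linarith
    have h5 : |p n l| ≤ |t| + |p n l - t| := by
      have := abs_sub_abs_le_abs_sub (p n l) t
      linarith
    exact ⟨hl1, by linarith, by linarith⟩
  have hclosed := hSCL U F G p
  have hne : {t : ℝ | Spt U F G p t}.Nonempty := ⟨t₀, ht₀⟩
  have hbdd : BddAbove {t : ℝ | Spt U F G p t} :=
    ⟨T₀, fun t ht => (le_abs_self t).trans (hb t ht)⟩
  refine ⟨sSup {t : ℝ | Spt U F G p t}, hclosed.csSup_mem hne hbdd, ?_⟩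
  intro t T' ht
  by_contra hn
  have hp := pos_of_not_neg hn
  obtain ⟨t', ht', hs⟩ := hSPT U F G p (Set.Icc t T') hF isCompact_Icc (by
    refine hp.mono (Filter.Eventually.of_forall fun n => ?_)
    unfold cn
    apply Finset.card_le_card
    intro l hl
    rw [Finset.mem_filter] at hl
    exact (I_TOP.mem_filter' _).mpr ⟨hl.1, hl.2⟩)
  have := le_csSup hbdd hs
  linarith [ht'.1]

end Pool.Agent.Work.MP_b25393_ag.UU
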