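import Pool.Agent.Work.MP_b25393_ag.UU.StmtsB

set_option autoImplicit false

namespace Pool.Agent.Work.MP_b25393_ag.UU

open scoped Classical
open Pool.Agent.Work.MP_b25393_ag.U

namespace I_YST

theorem crb_mono {g : Fr} {L M L' M' : ℝ} {l m : ℝ × ℝ} (hL : L ≤ L') (hM : M ≤ M')
    (h : crb g L M l m) : crb g L' M' l m := by
  obtain ⟨P, h1, h2, h3, h4⟩ := h
  exact ⟨P, h1.trans hL, h2.trans hM, h3, h4⟩

/-- a dense graph has a vertex of large degree -/
theorem count (G : Finset (ℝ × ℝ)) (N : ℕ) (hN : 1 ≤ N) (hG : G.card ≤ N) (a : ℝ) (ha : 0 < a)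
    (R : ℝ × ℝ → ℝ × ℝ → Prop)
    (h : a * (N : ℝ) ^ 2 ≤ (((G ×ˢ G).filter fun q => R q.1 q.2).card : ℝ)) :
    ∃ l ∈ G, a * (N : ℝ) ≤ ((G.filter fun m => R l m).card : ℝ) := by
  by_contra hcon
  push Not at hcon
  have hNr : (1 : ℝ) ≤ N := by exact_mod_cast hN
  have hGr : (G.card : ℝ) ≤ N := by exact_mod_cast hG
  have e1 : ((G ×ˢ G).filter fun q => R q.1 q.2).card = ∑ l ∈ G, (G.filter fun m => R l m).card := by
    rw [Finset.card_filter, Finset.sum_product]
    refine Finset.sum_congr rfl fun l _ => ?_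
    rw [Finset.card_filter]
  rw [e1] at h
  push_cast at h
  have hp : 0 < a * (N : ℝ) ^ 2 := by positivity
  rcases G.eq_empty_or_nonempty with h0 | h0
  · rw [h0, Finset.sum_empty] at h
    linarith
  · have h2 : ∑ l ∈ G, ((G.filter fun m => R l m).card : ℝ) < ∑ _l ∈ G, a * (N : ℝ) :=
      Finset.sum_lt_sum_of_nonempty h0 hcon
    rw [Finset.sum_const, nsmul_eq_mul] at h2
    have h3 : (G.card : ℝ) * (a * N) ≤ N * (a * N) :=
      mul_le_mul_of_nonneg_right hGr (by positivity)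
    nlinarith

end I_YST

open I_YST in
theorem YST_pf : S_YST := by
  intro k U F s g A B Γ d σ lam hS hT hC hP
  obtain ⟨e, he, hP⟩ := hP
  have hN : Neg2 U F fun n => ∑ K ∈ Γ, crp (g n) 1 1 (gr F s K n) :=
    Neg2.sum Γ (fun K n => crp (g n) 1 1 (gr F s K n)) fun K hK => hT.crB K (hC.sub hK)
  set Λ : ℝ := ∑ K ∈ Γ, |lam K| with hΛ
  have hΛK : ∀ K ∈ Γ, |lam K| ≤ Λ := fun K hK =>
    Finset.single_le_sum (f := fun K => |lam K|) (fun _ _ => abs_nonneg _) hK
  set C : ℝ := 2 * Λ + 2 with hCd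
  have h1 : ∀ᶠ n in (U : Filter ℕ), ∀ K ∈ Γ, ∀ i ∈ K,
      |sg (g n) (s n i) - σ n - lam K * d n| ≤ 1 * d n := by
    rw [Filter.eventually_all_finset]
    intro K hK
    rw [Filter.eventually_all_finset]
    intro i hi
    exact hC.hor K hK i hi 1 one_pos
  have h2 := hor_lines F (U := U) (s := s) (g := g) (G := Γ) (lam := fun _ => 0)
    (fun K hK i hi => hT.hor K (hC.sub hK) i hi) 1 one_pos
  have key : ∀ᶠ n in (U : Filter ℕ), ∃ l : ℝ × ℝ, |tt (g n) l| ≤ 1 / 2 ∧
      e / 2 * ((F n).card : ℝ) ≤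
        (((gr F s (uni Γ) n).filter fun m => |tt (g n) m - tt (g n) l| ≤ C * d n).card : ℝ) := by
    filter_upwards [hP, hN (e / 2) (by linarith), h1, h2, hS.one] with n a1 a2 a3 a4 a5
    set G := gr F s (uni Γ) n with hG
    obtain ⟨R, hR⟩ : ∃ R : ℝ × ℝ → ℝ × ℝ → Prop, ∀ l m, R l m ↔ (l ≠ m ∧
        crb (g n) (1 / 4) (1 / 4) l m ∧ ¬ ∃ K ∈ Γ, l ∈ gr F s K n ∧ m ∈ gr F s K n) :=
      ⟨_, fun _ _ => Iff.rfl⟩
    have b1 : crp (g n) (1 / 4) (1 / 4) G ≤ ((G ×ˢ G).filter fun q => R q.1 q.2).card +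
        ∑ K ∈ Γ, crp (g n) 1 1 (gr F s K n) := by
      have c1 : ((G ×ˢ G).filter fun q => q.1 ≠ q.2 ∧ crb (g n) (1 / 4) (1 / 4) q.1 q.2) ⊆
          ((G ×ˢ G).filter fun q => R q.1 q.2) ∪
            Γ.biUnion fun K => ((gr F s K n ×ˢ gr F s K n).filter fun q =>
              q.1 ≠ q.2 ∧ crb (g n) 1 1 q.1 q.2) := by
        intro q hq
        rw [Finset.mem_filter] at hq
        obtain ⟨q1, q2, q3⟩ := hq
        rw [Finset.mem_union, Finset.mem_filter, Finset.mem_biUnion]
        by_cases hK : ∃ K ∈ Γ, q.1 ∈ gr F s K n ∧ q.2 ∈ gr F s K n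
        · right
          obtain ⟨K, hK, k1, k2⟩ := hK
          refine ⟨K, hK, ?_⟩
          rw [Finset.mem_filter, Finset.mem_product]
          exact ⟨⟨k1, k2⟩, q2, crb_mono (by norm_num) (by norm_num) q3⟩
        · left
          exact ⟨q1, (hR _ _).mpr ⟨q2, q3, hK⟩⟩
      refine (Finset.card_le_card c1).trans ((Finset.card_union_le _ _).trans ?_)
      exact Nat.add_le_add_left Finset.card_biUnion_le _
    have b2 : e / 2 * ((F n).card : ℝ) ^ 2 ≤ (((G ×ˢ G).filter fun q => R q.1 q.2).card : ℝ) := by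
      have b1' : (crp (g n) (1 / 4) (1 / 4) G : ℝ) ≤
          (((G ×ˢ G).filter fun q => R q.1 q.2).card : ℝ) +
            ((∑ K ∈ Γ, crp (g n) 1 1 (gr F s K n) : ℕ) : ℝ) := by exact_mod_cast b1
      linarith
    obtain ⟨l, hl, hlc⟩ := count G (F n).card a5 (Finset.card_le_card (gr_sub F s (uni Γ) n))
      (e / 2) (by linarith) R b2
    -- facts about a pair
    have hpair : ∀ m ∈ G, R l m → |tt (g n) l| ≤ 1 / 2 ∧ |tt (g n) m - tt (g n) l| ≤ C * d n := by
      intro m hm hRm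
      obtain ⟨-, ⟨P, p1, p2, p3, p4⟩, -⟩ := (hR _ _).mp hRm
      obtain ⟨l1, i, hi, li⟩ := mem_gr.mp hl
      obtain ⟨K, hK, hiK⟩ := mem_uni.mp hi
      obtain ⟨m1, j, hj, mj⟩ := mem_gr.mp hm
      obtain ⟨K', hK', hjK⟩ := mem_uni.mp hj
      have l2 := a4 K hK l (mem_gr.mpr ⟨l1, i, hiK, li⟩)
      have m2 := a4 K' hK' m (mem_gr.mpr ⟨m1, j, hjK, mj⟩)
      have l3 := a3 K hK i hiK
      have m3 := a3 K' hK' j hjK
      rw [← li] at l3
      rw [← mj] at m3
      rw [onl_hor l2.1] at p3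
      rw [onl_hor m2.1] at p4
      have hd := hC.dpos n
      have l4 := abs_le.mp l2.2
      have hx := abs_le.mp p1
      have hy := abs_le.mp p2
      constructor
      · have e1 : tt (g n) l = P.2 - sg (g n) l.1 * P.1 := by linarith
        have e2 : |sg (g n) l.1 * P.1| ≤ 1 * (1 / 4) := by
          rw [abs_mul]
          have l5 : |sg (g n) l.1| ≤ 1 := by
            have := l2.2
            rwa [sub_zero] at this
          exact mul_le_mul l5 p1 (abs_nonneg _) (by norm_num)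
        have e3 := abs_le.mp e2
        rw [e1, abs_le]
        constructor <;> linarith [e3.1, e3.2, hy.1, hy.2]
      · have e1 : tt (g n) m - tt (g n) l = (sg (g n) l.1 - sg (g n) m.1) * P.1 := by linarith
        have e2 : |sg (g n) l.1 - sg (g n) m.1| ≤ C * d n := by
          have e3 : sg (g n) l.1 - sg (g n) m.1 = (sg (g n) l.1 - σ n - lam K * d n) -
            (sg (g n) m.1 - σ n - lam K' * d n) + lam K * d n - lam K' * d n := by ring
          have k1 := abs_le.mp (hΛK K hK)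
          have k2 := abs_le.mp (hΛK K' hK')
          have l6 := abs_le.mp l3
          have m6 := abs_le.mp m3
          have t1 : |lam K * d n| ≤ Λ * d n := by
            rw [abs_mul, abs_of_pos hd]
            exact mul_le_mul_of_nonneg_right (hΛK K hK) hd.le
          have t2 : |lam K' * d n| ≤ Λ * d n := by
            rw [abs_mul, abs_of_pos hd]
            exact mul_le_mul_of_nonneg_right (hΛK K' hK') hd.le
          have t3 := abs_le.mp t1
          have t4 := abs_le.mp t2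
          have e4 : C * d n = Λ * d n + Λ * d n + 2 * d n := by rw [hCd]; ring
          rw [e3, e4, abs_le]
          constructor <;> linarith [t3.1, t3.2, t4.1, t4.2, l6.1, l6.2, m6.1, m6.2]
        rw [e1, abs_mul]
        have e5 : 0 ≤ C * d n := (abs_nonneg _).trans e2
        calc |sg (g n) l.1 - sg (g n) m.1| * |P.1| ≤ (C * d n) * 1 :=
              mul_le_mul e2 (p1.trans (by norm_num)) (abs_nonneg _) e5
          _ = C * d n := mul_one _
    have hFr : (1 : ℝ) ≤ ((F n).card : ℝ) := by exact_mod_cast a5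
    have hne : (G.filter fun m => R l m).Nonempty := by
      rw [← Finset.card_pos]
      have h0 : 0 < e / 2 * ((F n).card : ℝ) := by positivity
      have : (0 : ℝ) < ((G.filter fun m => R l m).card : ℝ) := lt_of_lt_of_le h0 hlc
      exact_mod_cast this
    obtain ⟨m, hm⟩ := hne
    rw [Finset.mem_filter] at hm
    refine ⟨l, (hpair m hm.1 hm.2).1, hlc.trans ?_⟩
    have hsub : (G.filter fun m => R l m) ⊆
        G.filter fun m => |tt (g n) m - tt (g n) l| ≤ C * d n := by
      intro m' hm'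
      rw [Finset.mem_filter] at hm' ⊢
      exact ⟨hm'.1, (hpair m' hm'.1 hm'.2).2⟩
    exact_mod_cast Finset.card_le_card hsub
  let Q : ℕ → ℝ × ℝ → Prop := fun n l => |tt (g n) l| ≤ 1 / 2 ∧
      e / 2 * ((F n).card : ℝ) ≤
        (((gr F s (uni Γ) n).filter fun m => |tt (g n) m - tt (g n) l| ≤ C * d n).card : ℝ)
  refine ⟨fun n => if h : ∃ l, Q n l then tt (g n) h.choose else 0, C, ?_, e / 2, by linarith, ?_⟩
  · intro n
    by_cases h : ∃ l, Q n l
    · simp only [h, dif_pos]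
      exact h.choose_spec.1
    · simp only [h, dif_neg, not_false_eq_true, abs_zero]
      norm_num
  · filter_upwards [key] with n hn
    have h : ∃ l, Q n l := hn
    simp only [h, dif_pos]
    exact h.choose_spec.2

end Pool.Agent.Work.MP_b25393_ag.UU
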