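import Pool.Agent.Work.MP_b25393_ag.UU.StmtsA

/-!
# Uniform version, item ZER: zeros of a gap
-/

set_option autoImplicit false

namespace Pool.Agent.Work.MP_b25393_ag.UU

open scoped Classical
open Pool.Agent.Work.MP_b25393_ag.U

namespace I_ZER

theorem lo_on_le (F : Finset (ℝ × ℝ)) (x y y' : ℝ) (h : y < y') :
    lo F (x, y) + on F (x, y) ≤ lo F (x, y') := by
  unfold lo on
  rw [← Finset.card_union_of_disjoint]
  · apply Finset.card_le_card
    intro l hl
    rw [Finset.mem_union, Finset.mem_filter, Finset.mem_filter] at hl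
    rw [Finset.mem_filter]
    rcases hl with ⟨h1, h2⟩ | ⟨h1, h2⟩
    · exact ⟨h1, lt_trans h2 h⟩
    · refine ⟨h1, ?_⟩
      simp only at h2 ⊢
      rw [h2]
      exact h
  · rw [Finset.disjoint_left]
    intro l h1 h2
    rw [Finset.mem_filter] at h1 h2
    exact absurd h2.2 h1.2.ne

theorem openAt (F : Finset (ℝ × ℝ)) (r : ℕ) (x y₀ : ℝ)
    (h : lo F (x, y₀) + on F (x, y₀) = r ∨ lo F (x, y₀) = r) : ¬ Cl F r x := by
  rintro ⟨y, h1, h2⟩
  rcases lt_trichotomy y y₀ with hlt | heq | hgt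
  · have := lo_on_le F x y y₀ hlt
    omega
  · subst heq
    omega
  · have := lo_on_le F x y₀ y hgt
    omega

end I_ZER

open I_ZER in
theorem ZER_pf (hEDI : S_EDI) : S_ZER := by
  intro F r
  refine ⟨?_, ?_, ?_⟩
  · intro x hx
    unfold zer
    rw [Finset.mem_filter]
    refine ⟨?_, hx⟩
    obtain ⟨y, h1, h2⟩ := hx
    rw [Finset.mem_image]
    exact ⟨(x, y), mem_vts.mpr (by omega), rfl⟩
  · intro v hv hz
    unfold zer at hz
    rw [Finset.mem_filter] at hz
    unfold chn at hv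
    rw [Finset.mem_filter] at hv
    exact openAt F r v.1 v.2 hv.2 hz.2
  · intro c hc x₁ x₂ hn x hx1 hx2 hr hz
    unfold zer at hz
    rw [Finset.mem_filter] at hz
    obtain ⟨h1, h2, _⟩ := hEDI F c x₁ x₂ hc hn x hx1 hx2
    refine openAt F r x (val c x) ?_ hz.2
    rcases hr with hr | hr
    · right
      rw [h2, hr]
    · left
      rw [h1, h2, hr]

end Pool.Agent.Work.MP_b25393_ag.UU
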