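import Pool.Agent.Work.MP_b25393_ag.U.ProjE

/-! Uniform version, projective part. -/

set_option autoImplicit false

open scoped LinearAlgebra.Projectivization

namespace Pool.Agent.Work.MP_b25393_ag.UU

open Projectivization Matrix Filter Topology Pool.Agent.Work.MP_b25393_ag.Str
open Pool.Agent.Work.MP_b25393_ag.U
open scoped Classical

/-- The affine input, uniform in the directions. -/
def AffU : Prop := ∀ (n : ℕ) (dl : ℝ), 0 < dl → ∃ e : ℝ, 0 < e ∧ ∃ N0 : ℕ,
  ∀ F : Finset (ℝ × ℝ), (F.image Prod.fst).card ≤ n → N0 ≤ F.card →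
    (∀ s : ℝ, ((F.filter fun l => l.1 = s).card : ℝ) ≤ (1 - dl) * F.card) →
    e * (F.card : ℝ) ^ 2 ≤ (DD F : ℝ)

universe u

/-- **RES**: the projective theorem, uniform in the line and the points. -/
theorem main_ofU (hA : AffU) (n : ℕ) : ∃ ε : ℝ, 0 < ε ∧ ∃ d0 : ℕ,
    ∀ {k : Type u} [Field k] (_ : k →+* ℝ) (M : PP k) (Z : Finset (PP k)),
      (∀ z ∈ Z, inc z M) → Z.card ≤ n → ∀ A : Finset (PP k), nondeg A →
      d0 ≤ A.card → ((A.filter fun L => ∀ z ∈ Z, ¬ inc z L).card : ℝ) ≤ ε * A.card →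
      slope A ≤ 5 / 2 - ε := by
  obtain ⟨e, he, N0, hN⟩ := hA n (1 / 8) (by norm_num)
  obtain ⟨c, hc⟩ : ∃ c : ℝ, c = min e 1 := ⟨_, rfl⟩
  have hc0 : 0 < c := by rw [hc]; exact lt_min he one_pos
  have hce : c ≤ e := by rw [hc]; exact min_le_left _ _
  have hc1 : c ≤ 1 := by rw [hc]; exact min_le_right _ _
  obtain ⟨N1, hN1⟩ := exists_nat_ge (200 / c)
  refine ⟨c / 16, by positivity, max (2 * N0) N1, ?_⟩
  intro k _ σ M Z hZ hZn A hA0 hd hfew
  obtain ⟨T, hT, hTM, hTZ⟩ := exists_emb σ M Z hZ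
  obtain ⟨S, hS⟩ : ∃ S : Finset ℝ, ∀ s, s ∈ S ↔ dir s ∈ Z.image T := by
    refine ⟨(Z.image T).preimage dir dir_injective.injOn, fun s => ?_⟩
    rw [Finset.mem_preimage]
  have hSn : S.card ≤ n := by
    have h1 : (S.image dir).card = S.card := Finset.card_image_of_injective _ dir_injective
    have h2 : S.image dir ⊆ Z.image T := by
      intro p hp
      obtain ⟨s, hs, rfl⟩ := Finset.mem_image.mp hp
      exact (hS s).mp hs
    rw [← h1]
    exact (Finset.card_le_card h2).trans (Finset.card_image_le.trans hZn)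
  have hd1 : (2 * N0 : ℝ) ≤ A.card := by exact_mod_cast (le_max_left _ _).trans hd
  have hd2 : 200 / c ≤ A.card := hN1.trans (by exact_mod_cast (le_max_right _ _).trans hd)
  have hd3 : 200 ≤ c * A.card := by
    rw [div_le_iff₀ hc0] at hd2
    linarith
  obtain ⟨d, hdd⟩ : ∃ d : ℝ, d = (A.card : ℝ) := ⟨_, rfl⟩
  rw [← hdd] at hd1 hd2 hd3 hfew
  have hd200 : 200 ≤ d := by
    have h1 : c * d ≤ d := by
      have : 0 ≤ d := by rw [hdd]; positivity
      nlinarith
    linarith
  -- the image arrangement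
  obtain ⟨A', hA'⟩ : ∃ A' : Finset (PP ℝ), A' = A.image T := ⟨_, rfl⟩
  have hcard : (A'.card : ℝ) = d := by rw [hA', hT.card, hdd]
  have hnd : nondeg A' := hA' ▸ hT.nondeg A hA0
  rw [← hT.slope A, ← hA']
  -- pencils
  by_cases hpen : ∃ P : PP ℝ, 3 * (A'.card : ℝ) / 4 ≤ mult A' P
  · obtain ⟨P, hP⟩ := hpen
    have h1 := slope_of_pencil A' hnd P hP
    linarith
  push Not at hpen
  -- the affine part
  obtain ⟨F, hF⟩ : ∃ F : Finset (ℝ × ℝ), ∀ l, l ∈ F ↔ l.1 ∈ S ∧ ln l ∈ A' := by
    refine ⟨(A'.preimage ln ln_injective.injOn).filter fun l => l.1 ∈ S, fun l => ?_⟩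
    rw [Finset.mem_filter, Finset.mem_preimage]
    tauto
  have hFsub : F.image ln ⊆ A' := by
    intro L hL
    obtain ⟨l, hl, rfl⟩ := Finset.mem_image.mp hL
    exact ((hF l).mp hl).2
  have hFcard : (F.image ln).card = F.card := Finset.card_image_of_injective _ ln_injective
  have hFdir : (F.image Prod.fst).card ≤ n := by
    refine (Finset.card_le_card fun s hs => ?_).trans hSn
    obtain ⟨l, hl, rfl⟩ := Finset.mem_image.mp hs
    exact ((hF l).mp hl).1
  -- the rest
  obtain ⟨B, hB⟩ : ∃ B : Finset (PP ℝ), B = A' \ F.image ln := ⟨_, rfl⟩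
  have hBcard : (B.card : ℝ) ≤ c / 16 * d + 1 := by
    have h1 : B ⊆ insert inft ((A.filter fun L => ∀ z ∈ Z, ¬ inc z L).image T) := by
      intro L hL
      rw [hB, Finset.mem_sdiff] at hL
      obtain ⟨hL1, hL2⟩ := hL
      rw [hA'] at hL1
      obtain ⟨K, hK, rfl⟩ := Finset.mem_image.mp hL1
      by_cases hinf : T K = inft
      · rw [hinf]
        exact Finset.mem_insert_self _ _
      · refine Finset.mem_insert_of_mem (Finset.mem_image_of_mem _
          (Finset.mem_filter.mpr ⟨hK, fun z hz hzK => ?_⟩))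
        obtain ⟨s, hs⟩ := hTZ z hz
        have h2 : inc (dir s) (T K) := by
          rw [← hs]
          exact (hT.inc z K).mpr hzK
        obtain ⟨b, hb⟩ := eq_ln h2 hinf
        apply hL2
        rw [hb]
        refine Finset.mem_image_of_mem _ ((hF (s, b)).mpr ⟨?_, ?_⟩)
        · rw [hS, ← hs]
          exact Finset.mem_image_of_mem _ hz
        · rw [hA', ← hb]
          exact Finset.mem_image_of_mem _ hK
    have h2 : B.card ≤ (A.filter fun L => ∀ z ∈ Z, ¬ inc z L).card + 1 := by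
      refine (Finset.card_le_card h1).trans ((Finset.card_insert_le _ _).trans ?_)
      exact Nat.add_le_add_right Finset.card_image_le 1
    have h3 : (B.card : ℝ) ≤ ((A.filter fun L => ∀ z ∈ Z, ¬ inc z L).card : ℝ) + 1 := by
      exact_mod_cast h2
    linarith
  have hsum : (F.card : ℝ) + B.card = d := by
    have h1 : B.card + (F.image ln).card = A'.card := by
      rw [hB]
      exact Finset.card_sdiff_add_card_eq_card hFsub
    have h2 : (B.card : ℝ) + (F.image ln).card = A'.card := by exact_mod_cast h1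
    rw [hFcard, hcard] at h2
    linarith
  have hFbig : 7 / 8 * d ≤ F.card := by nlinarith
  have hNF : N0 ≤ F.card := by
    have : (N0 : ℝ) ≤ F.card := by linarith
    exact_mod_cast this
  have hcls : ∀ s : ℝ, ((F.filter fun l => l.1 = s).card : ℝ) ≤ (1 - 1 / 8) * F.card := by
    intro s
    have h1 : mult (F.image ln) (dir s) ≤ mult A' (dir s) := by
      unfold mult
      exact Finset.card_le_card (Finset.filter_subset_filter _ hFsub)
    rw [mult_dir] at h1
    have h2 : ((F.filter fun l => l.1 = s).card : ℝ) ≤ mult A' (dir s) := by exact_mod_cast h1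
    have h3 := hpen (dir s)
    rw [hcard] at h3
    linarith
  have hDD := hN F hFdir hNF hcls
  have hE := Del_ln F
  have hU := Del_union (F.image ln) B (by rw [hB]; exact Finset.disjoint_sdiff)
  have hAB : F.image ln ∪ B = A' := by
    rw [hB]
    exact Finset.union_sdiff_of_subset hFsub
  rw [hAB, hFcard, hsum] at hU
  apply slope_le A' hnd (c / 16) _ (by positivity)
  rw [hcard]
  -- numbers
  have hx : (F.card : ℝ) ≤ d := by
    have : (0 : ℝ) ≤ B.card := by positivity
    linarith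
  have h1 : e * (F.card : ℝ) ^ 2 ≤ Del A' + F.card + B.card * d := by linarith
  have h2 : c * (7 / 8 * d) ^ 2 ≤ e * (F.card : ℝ) ^ 2 := by
    have h3 : (7 / 8 * d) ^ 2 ≤ (F.card : ℝ) ^ 2 := by
      apply pow_le_pow_left₀ (by linarith) hFbig
    have h4 : 0 ≤ (F.card : ℝ) ^ 2 := by positivity
    calc c * (7 / 8 * d) ^ 2 ≤ c * (F.card : ℝ) ^ 2 := mul_le_mul_of_nonneg_left h3 hc0.le
      _ ≤ e * (F.card : ℝ) ^ 2 := mul_le_mul_of_nonneg_right hce h4
  have h3 : (B.card : ℝ) * d ≤ (c / 16 * d + 1) * d :=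
    mul_le_mul_of_nonneg_right hBcard (by linarith)
  nlinarith

end Pool.Agent.Work.MP_b25393_ag.UU
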