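import Pool.Agent.Work.MP_b25393_ag.U.Asm
import Pool.Agent.Work.MP_b25393_ag.UU.ProjU
import Pool.Agent.Work.MP_b25393_ag.UU.I_EDI
import Pool.Agent.Work.MP_b25393_ag.UU.I_EDL
import Pool.Agent.Work.MP_b25393_ag.UU.I_EDR
import Pool.Agent.Work.MP_b25393_ag.UU.I_ZER
import Pool.Agent.Work.MP_b25393_ag.UU.I_DBP
import Pool.Agent.Work.MP_b25393_ag.UU.I_LVU
import Pool.Agent.Work.MP_b25393_ag.UU.I_LVC
import Pool.Agent.Work.MP_b25393_ag.UU.I_LVE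
import Pool.Agent.Work.MP_b25393_ag.UU.I_LEV
import Pool.Agent.Work.MP_b25393_ag.UU.I_DBX
import Pool.Agent.Work.MP_b25393_ag.UU.I_DBY
import Pool.Agent.Work.MP_b25393_ag.UU.I_DDB
import Pool.Agent.Work.MP_b25393_ag.UU.I_BDR
import Pool.Agent.Work.MP_b25393_ag.UU.I_BDS
import Pool.Agent.Work.MP_b25393_ag.UU.I_EG0
import Pool.Agent.Work.MP_b25393_ag.UU.I_EGI
import Pool.Agent.Work.MP_b25393_ag.UU.I_EDG
import Pool.Agent.Work.MP_b25393_ag.UU.I_INI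
import Pool.Agent.Work.MP_b25393_ag.UU.I_SCW
import Pool.Agent.Work.MP_b25393_ag.UU.I_PM1
import Pool.Agent.Work.MP_b25393_ag.UU.I_PM2
import Pool.Agent.Work.MP_b25393_ag.UU.I_SPT
import Pool.Agent.Work.MP_b25393_ag.UU.I_SCL
import Pool.Agent.Work.MP_b25393_ag.UU.I_CTL
import Pool.Agent.Work.MP_b25393_ag.UU.I_ML
import Pool.Agent.Work.MP_b25393_ag.UU.I_MLS
import Pool.Agent.Work.MP_b25393_ag.UU.I_BLC
import Pool.Agent.Work.MP_b25393_ag.UU.I_PT1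
import Pool.Agent.Work.MP_b25393_ag.UU.I_PT2
import Pool.Agent.Work.MP_b25393_ag.UU.I_GE2
import Pool.Agent.Work.MP_b25393_ag.UU.I_PGM
import Pool.Agent.Work.MP_b25393_ag.UU.I_PLK
import Pool.Agent.Work.MP_b25393_ag.UU.I_TB1
import Pool.Agent.Work.MP_b25393_ag.UU.I_PLV
import Pool.Agent.Work.MP_b25393_ag.UU.I_TBW
import Pool.Agent.Work.MP_b25393_ag.UU.I_PLF
import Pool.Agent.Work.MP_b25393_ag.UU.I_TBE
import Pool.Agent.Work.MP_b25393_ag.UU.I_FGS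
import Pool.Agent.Work.MP_b25393_ag.UU.I_CLU
import Pool.Agent.Work.MP_b25393_ag.UU.I_FSG
import Pool.Agent.Work.MP_b25393_ag.UU.I_MRG
import Pool.Agent.Work.MP_b25393_ag.UU.I_FSY
import Pool.Agent.Work.MP_b25393_ag.UU.I_FTR
import Pool.Agent.Work.MP_b25393_ag.UU.I_FVH
import Pool.Agent.Work.MP_b25393_ag.UU.I_YST
import Pool.Agent.Work.MP_b25393_ag.UU.I_STP
import Pool.Agent.Work.MP_b25393_ag.UU.I_ATL
import Pool.Agent.Work.MP_b25393_ag.UU.I_SXV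
import Pool.Agent.Work.MP_b25393_ag.UU.I_FTL
import Pool.Agent.Work.MP_b25393_ag.UU.I_STT
import Pool.Agent.Work.MP_b25393_ag.UU.I_TOP
import Pool.Agent.Work.MP_b25393_ag.UU.I_PRF
import Pool.Agent.Work.MP_b25393_ag.UU.I_SNB
import Pool.Agent.Work.MP_b25393_ag.UU.I_SNV
import Pool.Agent.Work.MP_b25393_ag.UU.I_DIA
import Pool.Agent.Work.MP_b25393_ag.UU.I_SAB
import Pool.Agent.Work.MP_b25393_ag.UU.I_SD1
import Pool.Agent.Work.MP_b25393_ag.UU.I_ANN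
import Pool.Agent.Work.MP_b25393_ag.UU.I_SD2
import Pool.Agent.Work.MP_b25393_ag.UU.I_STF
import Pool.Agent.Work.MP_b25393_ag.UU.I_TBF
import Pool.Agent.Work.MP_b25393_ag.UU.I_AFU

/-!
# Uniform version (boundedly many, arbitrary centres): assembly

`z_XXX : S_XXX` for all statements of `StmtsA`, `StmtsB`, `StmtsC` used.
-/

set_option autoImplicit false

namespace Pool.Agent.Work.MP_b25393_ag.UU

open Pool.Agent.Work.MP_b25393_ag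
open scoped Classical

theorem z_EDI : S_EDI := EDI_pf
theorem z_EDL : S_EDL := EDL_pf z_EDI
theorem z_EDR : S_EDR := EDR_pf z_EDI
theorem z_ZER : S_ZER := ZER_pf z_EDI
theorem z_DBP : S_DBP := DBP_pf z_ZER
theorem z_LVU : S_LVU := LVU_pf
theorem z_LVC : S_LVC := LVC_pf
theorem z_LVE : S_LVE := LVE_pf
theorem z_LEV : S_LEV := LEV_pf z_LVC z_LVE
theorem z_DBX : S_DBX := DBX_pf z_LVU z_LEV z_EDI z_EDL z_EDR z_ZER
theorem z_DBY : S_DBY := DBY_pf z_DBX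
theorem z_DDB : S_DDB := DDB_pf z_EDL z_EDR z_DBP z_DBX z_DBY
theorem z_BDR : S_BDR := BDR_pf U.CHN_pf z_ZER
theorem z_BDS : S_BDS := BDS_pf U.CNT_pf z_BDR
theorem z_EG0 : S_EG0 := EG0_pf z_EDR
theorem z_EGI : S_EGI := EGI_pf z_LVU z_EDI
theorem z_EDG : S_EDG := EDG_pf z_EDL z_EDR z_DDB z_BDS z_EG0 z_EGI
theorem z_INI : S_INI := INI_pf
theorem z_SCW : S_SCW := SCW_pf
theorem z_PM1 : S_PM1 := PM1_pf
theorem z_PM2 : S_PM2 := PM2_pf z_SCW z_PM1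
theorem z_SPT : S_SPT := SPT_pf
theorem z_SCL : S_SCL := SCL_pf
theorem z_CTL : S_CTL := CTL_pf
theorem z_ML : S_ML := ML_pf z_CTL
theorem z_MLS : S_MLS := MLS_pf z_ML
theorem z_BLC : S_BLC := BLC_pf
theorem z_PT1 : S_PT1 := PT1_pf z_MLS z_BLC
theorem z_PT2 : S_PT2 := PT2_pf z_MLS z_BLC
theorem z_GE2 : S_GE2 := GE2_pf U.GEO_ok
theorem z_PGM : S_PGM := PGM_pf z_SPT z_SCL z_PT1 z_PT2 z_GE2
theorem z_PLK : S_PLK := PLK_pf
theorem z_TB1 : S_TB1 := TB1_pf z_MLS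
theorem z_PLV : S_PLV := PLV_pf
theorem z_TBW : S_TBW := TBW_pf
theorem z_PLF : S_PLF := PLF_pf z_PM2 z_PGM z_PLK z_TB1 z_PLV z_TBW
theorem z_TBE : S_TBE := TBE_pf
theorem z_FGS : S_FGS := FGS_pf
theorem z_CLU : S_CLU := CLU_pf z_FGS
theorem z_FSG : S_FSG := FSG_pf
theorem z_MRG : S_MRG := MRG_pf z_FSG
theorem z_FSY : S_FSY := FSY_pf
theorem z_FTR : S_FTR := FTR_pf
theorem z_FVH : S_FVH := FVH_pf
theorem z_YST : S_YST := YST_pf
theorem z_STP : S_STP := STP_pf z_FSY z_FTR z_FVH z_YST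
theorem z_ATL : S_ATL := ATL_pf
theorem z_SXV : S_SXV := SXV_pf z_ATL
theorem z_FTL : S_FTL := FTL_pf
theorem z_STT : S_STT := STT_pf z_MLS z_FTL z_SXV
theorem z_TOP : S_TOP := TOP_pf z_SPT z_SCL
theorem z_PRF : S_PRF := PRF_pf z_SPT
theorem z_SNB : S_SNB := SNB_pf
theorem z_SNV : S_SNV := SNV_pf z_SXV z_STT z_TOP z_PRF z_SNB z_TB1
theorem z_DIA : S_DIA := DIA_pf
theorem z_SAB : S_SAB := SAB_pf z_SPT z_ATL z_DIA
theorem z_SD1 : S_SD1 := SD1_pf z_DIA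
theorem z_ANN : S_ANN := ANN_pf
theorem z_SD2 : S_SD2 := SD2_pf z_DIA z_ANN
theorem z_STF : S_STF := STF_pf z_SNV z_SAB z_SD1 z_SD2 z_TBW
theorem z_TBF : S_TBF := TBF_pf z_TB1 z_TBE z_CLU z_MRG z_STP z_STF z_PLF
theorem z_AFU : S_AFU := AFU_pf z_EDG z_INI z_PLF z_TBF

theorem affU_ok : AffU := z_AFU

universe u

/-- The projective theorem: `ε` and `d0` depend only on a bound for the number of centres. -/
theorem main_okU (n : ℕ) : ∃ ε : ℝ, 0 < ε ∧ ∃ d0 : ℕ,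
    ∀ {k : Type u} [Field k] (_ : k →+* ℝ) (M : Str.PP k) (Z : Finset (Str.PP k)),
      (∀ z ∈ Z, Str.inc z M) → Z.card ≤ n → ∀ A : Finset (Str.PP k), Str.nondeg A →
      d0 ≤ A.card → ((A.filter fun L => ∀ z ∈ Z, ¬ Str.inc z L).card : ℝ) ≤ ε * A.card →
      Str.slope A ≤ 5 / 2 - ε := main_ofU affU_ok n

end Pool.Agent.Work.MP_b25393_ag.UU
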