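import Mathlib
import Pool.Agent.Work.MP_b25393_ag.UU.StmtsB

/-!
# Item ANN: small punctured neighbourhoods are light
-/

set_option autoImplicit false

namespace Pool.Agent.Work.MP_b25393_ag.UU

open scoped Classical
open Pool.Agent.Work.MP_b25393_ag.U

theorem ANN_pf : S_ANN := by
  intro U F G p t hG e he
  by_contra hcon
  have h1 : ∀ κ : {x : ℝ // 0 < x}, ∃ r : {x : ℝ // 0 < x}, r.1 < κ.1 ∧
      ∀ᶠ n in (U : Filter ℕ), e * ((F n).card : ℝ) <
        (((G n).filter fun l => r.1 < |p n l - t| ∧ |p n l - t| ≤ κ.1).card : ℝ) := by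
    rintro ⟨κ, hκ⟩
    by_contra h2
    refine hcon ⟨κ, hκ, fun r hr hrκ => ?_⟩
    by_contra h3
    rw [← Ultrafilter.eventually_not] at h3
    refine h2 ⟨⟨r, hr⟩, hrκ, ?_⟩
    filter_upwards [h3] with n hn
    exact not_le.mp hn
  choose ρ hρ1 hρ2 using h1
  obtain ⟨K, hK⟩ : ∃ K : ℕ → {x : ℝ // 0 < x}, ∀ i, K (i + 1) = ρ (K i) :=
    ⟨fun i => ρ^[i] ⟨1, one_pos⟩, fun i => Function.iterate_succ_apply' _ _ _⟩
  have hanti : Antitone fun i => (K i).1 := by
    refine antitone_nat_of_succ_le fun i => ?_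
    rw [hK]
    exact (hρ1 (K i)).le
  obtain ⟨m, hm⟩ := exists_nat_gt (1 / e)
  have hm1 : 1 < m * e := by rwa [div_lt_iff₀ he] at hm
  have hm0 : 0 < m := by
    rcases Nat.eq_zero_or_pos m with h | h
    · rw [h] at hm1
      norm_num at hm1
    · exact h
  have hev : ∀ᶠ n in (U : Filter ℕ), ∀ i ∈ Finset.range m, e * ((F n).card : ℝ) <
      (((G n).filter fun l => (K (i + 1)).1 < |p n l - t| ∧ |p n l - t| ≤ (K i).1).card : ℝ) := by
    rw [Filter.eventually_all_finset]
    intro i _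
    rw [hK]
    exact hρ2 (K i)
  obtain ⟨n, hn⟩ := hev.exists
  have h3 : ∑ i ∈ Finset.range m, e * ((F n).card : ℝ) < ∑ i ∈ Finset.range m,
      (((G n).filter fun l => (K (i + 1)).1 < |p n l - t| ∧ |p n l - t| ≤ (K i).1).card : ℝ) :=
    Finset.sum_lt_sum_of_nonempty ⟨0, Finset.mem_range.mpr hm0⟩ hn
  have h4 : ∑ i ∈ Finset.range m,
      ((G n).filter fun l => (K (i + 1)).1 < |p n l - t| ∧ |p n l - t| ≤ (K i).1).card ≤
        (F n).card := by
    rw [← Finset.card_biUnion]
    · refine Finset.card_le_card ?_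
      intro l hl
      rw [Finset.mem_biUnion] at hl
      obtain ⟨i, _, hl⟩ := hl
      exact hG n (Finset.mem_filter.mp hl).1
    · have key : ∀ i j : ℕ, i < j → Disjoint
          ((G n).filter fun l => (K (i + 1)).1 < |p n l - t| ∧ |p n l - t| ≤ (K i).1)
          ((G n).filter fun l => (K (j + 1)).1 < |p n l - t| ∧ |p n l - t| ≤ (K j).1) := by
        intro i j hij
        rw [Finset.disjoint_left]
        intro l hl1 hl2
        have h5 := (Finset.mem_filter.mp hl1).2.1
        have h6 := (Finset.mem_filter.mp hl2).2.2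
        have h7 : (K j).1 ≤ (K (i + 1)).1 := hanti hij
        linarith
      intro i _ j _ hij
      rcases lt_or_gt_of_ne hij with h | h
      · exact key i j h
      · exact (key j i h).symm
  have h5 : (∑ i ∈ Finset.range m,
      (((G n).filter fun l => (K (i + 1)).1 < |p n l - t| ∧ |p n l - t| ≤ (K i).1).card : ℝ)) ≤
        ((F n).card : ℝ) := by exact_mod_cast h4
  rw [Finset.sum_const, Finset.card_range, nsmul_eq_mul] at h3
  have h6 : (0 : ℝ) ≤ ((F n).card : ℝ) := Nat.cast_nonneg _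
  nlinarith

end Pool.Agent.Work.MP_b25393_ag.UU
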