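import Pool.Agent.Work.MP_b25393_ag.UU.StmtsB

set_option autoImplicit false

namespace Pool.Agent.Work.MP_b25393_ag.UU

open scoped Classical
open Pool.Agent.Work.MP_b25393_ag.U

namespace I_FGS

theorem sg_sub (g : Fr) (x y : ℝ) (hx : be g x ≠ 0) (hy : be g y ≠ 0) :
    |(x - y) * (g.p0 * g.q1 - g.p1 * g.q0)| = |sg g x - sg g y| * (|be g x| * |be g y|) := by
  rw [← det_id g x y, ← abs_mul (be g x), ← abs_mul]
  congr 1
  unfold sg
  field_simp
  ring

theorem hv (g : Fr) (x z : ℝ) (hx : |al g x| ≤ 1 / 2 * |be g x|)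
    (hz : |be g z| ≤ 1 / 2 * |al g z|) :
    3 / 4 * (|al g z| * |be g x|) ≤ |(x - z) * (g.p0 * g.q1 - g.p1 * g.q0)| ∧
    |(x - z) * (g.p0 * g.q1 - g.p1 * g.q0)| ≤ 5 / 4 * (|al g z| * |be g x|) := by
  rw [← det_id g x z]
  have h1 : |al g x * be g z| ≤ 1 / 4 * (|al g z| * |be g x|) := by
    rw [abs_mul]
    calc |al g x| * |be g z| ≤ (1 / 2 * |be g x|) * (1 / 2 * |al g z|) :=
          mul_le_mul hx hz (abs_nonneg _) (by positivity)
      _ = 1 / 4 * (|al g z| * |be g x|) := by ring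
  have h2 : |al g z * be g x| = |al g z| * |be g x| := abs_mul _ _
  have h3 := abs_sub_abs_le_abs_sub (al g z * be g x) (al g x * be g z)
  have h4 := abs_sub (al g z * be g x) (al g x * be g z)
  constructor
  · linarith
  · linarith

end I_FGS

open I_FGS in
theorem FGS_pf : S_FGS := by
  intro k U s g i i' j a ha hi hi' hj hF e he
  filter_upwards [hF (e / 2) (by linarith), ver_iff.mp ha (1 / 2) (by norm_num),
    ha (1 / 2) (by norm_num), hor_iff.mp hi (1 / 2) (by norm_num),
    hor_iff.mp hi' (1 / 2) (by norm_num), hor_iff.mp hj (1 / 2) (by norm_num),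
    hi' (1 / 2) (by norm_num), hj (1 / 2) (by norm_num)] with n f1 f2 f3 f4 f5 f6 f7 f8
  rw [zero_mul, add_zero] at f7 f8
  have hz := abs_pos.mpr f2.1
  have h1 := abs_pos.mpr f4.1
  have h2 := abs_pos.mpr f5.1
  have h3 := abs_pos.mpr f6.1
  have e12 := sg_sub (g n) (s n i) (s n i') f4.1 f5.1
  have e13 := sg_sub (g n) (s n i) (s n j) f4.1 f6.1
  have e3z := (hv (g n) (s n j) (s n a) f8 f3).1
  have e2z := (hv (g n) (s n i') (s n a) f7 f3).2
  set D := (g n).p0 * (g n).q1 - (g n).p1 * (g n).q0 with hD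
  set A := |al (g n) (s n a)|
  set b1 := |be (g n) (s n i)|
  set b2 := |be (g n) (s n i')|
  set b3 := |be (g n) (s n j)|
  set x := |sg (g n) (s n i) - sg (g n) (s n i')| with hx
  set y := |sg (g n) (s n i) - sg (g n) (s n j)| with hy
  have hx0 : 0 ≤ x := abs_nonneg _
  have hy0 : 0 ≤ y := abs_nonneg _
  have key : (x * (b1 * b2)) * (3 / 4 * (A * b3)) ≤
      e / 2 * ((y * (b1 * b3)) * (5 / 4 * (A * b2))) := by
    calc (x * (b1 * b2)) * (3 / 4 * (A * b3))
        ≤ |(s n i - s n i') * D| * |(s n j - s n a) * D| := by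
          rw [e12]
          exact mul_le_mul_of_nonneg_left e3z (by positivity)
      _ = |(s n i - s n i') * (s n j - s n a)| * |D| ^ 2 := by
          simp only [abs_mul]
          ring
      _ ≤ (e / 2 * |(s n i - s n j) * (s n i' - s n a)|) * |D| ^ 2 :=
          mul_le_mul_of_nonneg_right f1 (by positivity)
      _ = e / 2 * (|(s n i - s n j) * D| * |(s n i' - s n a) * D|) := by
          simp only [abs_mul]
          ring
      _ ≤ e / 2 * ((y * (b1 * b3)) * (5 / 4 * (A * b2))) := by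
          rw [e13]
          refine mul_le_mul_of_nonneg_left ?_ (by linarith)
          exact mul_le_mul_of_nonneg_left e2z (by positivity)
  have hP : 0 < A * b1 * b2 * b3 := by positivity
  have key2 : (3 / 4 * x) * (A * b1 * b2 * b3) ≤ (5 / 8 * e * y) * (A * b1 * b2 * b3) := by
    calc (3 / 4 * x) * (A * b1 * b2 * b3) = (x * (b1 * b2)) * (3 / 4 * (A * b3)) := by ring
      _ ≤ e / 2 * ((y * (b1 * b3)) * (5 / 4 * (A * b2))) := key
      _ = (5 / 8 * e * y) * (A * b1 * b2 * b3) := by ring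
  have key3 := le_of_mul_le_mul_right key2 hP
  have : 0 ≤ e * y := by positivity
  linarith

end Pool.Agent.Work.MP_b25393_ag.UU
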