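import Pool.Agent.Work.MP_b25393_ag.UU.StmtsC

/-!
# Uniform version, item INI: the start
-/

set_option autoImplicit false

namespace Pool.Agent.Work.MP_b25393_ag.UU

open scoped Classical
open Pool.Agent.Work.MP_b25393_ag.U

namespace I_INI

/-- the frame -/
noncomputable def fr (σ d : ℝ) (hd : d ≠ 0) : Fr := hfr 0 0 1 d σ one_ne_zero hd

theorem al_fr (σ d : ℝ) (hd : d ≠ 0) (s : ℝ) : al (fr σ d hd) s = σ - s := by
  unfold al fr hfr
  ring

theorem be_fr (σ d : ℝ) (hd : d ≠ 0) (s : ℝ) : be (fr σ d hd) s = d := by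
  unfold be fr hfr
  ring

theorem ga_fr (σ d : ℝ) (hd : d ≠ 0) (l : ℝ × ℝ) : ga (fr σ d hd) l = l.2 := by
  unfold ga fr hfr
  ring

/-- lines of one slope do not cross -/
theorem crp_zero (g : Fr) (L M : ℝ) (G : Finset (ℝ × ℝ)) (σ d : ℝ) (hd : d ≠ 0)
    (hg : g = fr σ d hd) (t : ℝ) (hG : ∀ l ∈ G, l.1 = t) : crp g L M G = 0 := by
  unfold crp
  rw [Finset.card_eq_zero, Finset.filter_eq_empty_iff]
  rintro ⟨l, m⟩ hlm ⟨hne, P, -, -, h1, h2⟩
  rw [Finset.mem_product] at hlm
  apply hne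
  have e1 := hG l hlm.1
  have e2 := hG m hlm.2
  unfold onl at h1 h2
  simp only at h1 h2 e1 e2
  rw [hg, al_fr, be_fr, ga_fr] at h1 h2
  refine Prod.ext (e1.trans e2.symm) ?_
  rw [← h1, ← h2, e1, e2]

section

variable {k : ℕ} {U : Ultrafilter ℕ} {F : ℕ → Finset (ℝ × ℝ)} {s : ℕ → Fin k → ℝ}

theorem card_le_sum (hS : Sy U F s) (n : ℕ) : (F n).card ≤ ∑ i, (gr F s {i} n).card := by
  have h : F n ⊆ Finset.univ.biUnion fun i => gr F s {i} n := by
    intro l hl
    obtain ⟨i, hi⟩ := hS.sl n l hl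
    exact Finset.mem_biUnion.2 ⟨i, Finset.mem_univ i, mem_gr.2 ⟨hl, i, Finset.mem_singleton_self i,
      hi⟩⟩
  exact (Finset.card_le_card h).trans Finset.card_biUnion_le

/-- two big indices -/
theorem two_big (hS : Sy U F s) {d : ℝ} (hd : 0 < d)
    (h : ∀ i, ∀ᶠ n in (U : Filter ℕ), ((gr F s {i} n).card : ℝ) ≤ (1 - d) * ((F n).card : ℝ)) :
    ∃ i j, i ≠ j ∧ (Pos U F fun n => (gr F s {i} n).card) ∧
      Pos U F fun n => (gr F s {j} n).card := by
  by_contra hc
  push Not at hc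
  by_cases h1 : ∃ i, Pos U F fun n => (gr F s {i} n).card
  · obtain ⟨i, hi⟩ := h1
    have h2 : Neg U F fun n => ∑ j ∈ Finset.univ.erase i, (gr F s {j} n).card := by
      refine Neg.sum _ (fun j n => (gr F s {j} n).card) fun j hj => ?_
      by_contra h3
      exact hc i j (Finset.ne_of_mem_erase hj).symm hi (pos_of_not_neg h3)
    obtain ⟨n, h4, h5, h6⟩ := ((h2 (d / 2) (by linarith)).and ((h i).and hS.one)).exists
    have h7 := card_le_sum hS n
    rw [← Finset.add_sum_erase _ _ (Finset.mem_univ i)] at h7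
    have h8 : ((F n).card : ℝ) ≤ ((gr F s {i} n).card : ℝ) +
        ((∑ j ∈ Finset.univ.erase i, (gr F s {j} n).card : ℕ) : ℝ) := by exact_mod_cast h7
    have h9 : (1 : ℝ) ≤ ((F n).card : ℝ) := by exact_mod_cast h6
    nlinarith
  · push Not at h1
    have h2 : Neg U F fun n => ∑ j, (gr F s {j} n).card := by
      refine Neg.sum _ (fun j n => (gr F s {j} n).card) fun j _ => ?_
      by_contra h3
      exact h1 j (pos_of_not_neg h3)
    obtain ⟨n, h4, h6⟩ := ((h2 (1 / 2) (by norm_num)).and hS.one).exists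
    have h7 := card_le_sum hS n
    have h8 : ((F n).card : ℝ) ≤ ((∑ j, (gr F s {j} n).card : ℕ) : ℝ) := by exact_mod_cast h7
    have h9 : (1 : ℝ) ≤ ((F n).card : ℝ) := by exact_mod_cast h6
    linarith

end

/-- a minimal pair, constant along `U` -/
theorem min_pair {k : ℕ} (U : Ultrafilter ℕ) (s : ℕ → Fin k → ℝ) (P : Finset (Fin k × Fin k))
    (hP : P.Nonempty) : ∃ p ∈ P, ∀ᶠ n in (U : Filter ℕ), ∀ q ∈ P,
      |s n p.1 - s n p.2| ≤ |s n q.1 - s n q.2| := by
  have h1 : ∀ᶠ n in (U : Filter ℕ), ∃ p ∈ (P : Set (Fin k × Fin k)), ∀ q ∈ P,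
      |s n p.1 - s n p.2| ≤ |s n q.1 - s n q.2| := by
    filter_upwards with n
    obtain ⟨p, hp, hm⟩ := Finset.exists_min_image P (fun q => |s n q.1 - s n q.2|) hP
    exact ⟨p, hp, hm⟩
  rw [Ultrafilter.eventually_exists_mem_iff (Finset.finite_toSet P)] at h1
  obtain ⟨p, hp, h⟩ := h1
  exact ⟨p, hp, h⟩

/-- limits of bounded sequences -/
theorem exists_lim (U : Ultrafilter ℕ) (x : ℕ → ℝ) (M : ℝ)
    (h : ∀ᶠ n in (U : Filter ℕ), |x n| ≤ M) :
    ∃ t, Filter.Tendsto x (U : Filter ℕ) (nhds t) := by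
  obtain ⟨t, -, ht⟩ := (isCompact_Icc (a := -M) (b := M)).ultrafilter_le_nhds (U.map x) (by
    rw [Filter.le_principal_iff]
    change ∀ᶠ n in (U : Filter ℕ), x n ∈ Set.Icc (-M) M
    filter_upwards [h] with n hn
    exact abs_le.1 hn)
  exact ⟨t, ht⟩

end I_INI

open I_INI in
theorem INI_pf : S_INI := by
  intro k U F s d hS hd h
  obtain ⟨i₁, j₁, hij, hi₁, hj₁⟩ := two_big hS hd h
  set big : Finset (Fin k) := Finset.univ.filter fun i => Pos U F fun n => (gr F s {i} n).card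
    with hbig
  have mem_big : ∀ i, i ∈ big ↔ Pos U F fun n => (gr F s {i} n).card := fun i => by
    rw [hbig, Finset.mem_filter]
    exact ⟨fun h => h.2, fun h => ⟨Finset.mem_univ i, h⟩⟩
  obtain ⟨⟨i₀, j₀⟩, hp, hmin⟩ := min_pair U s ((big ×ˢ big).filter fun p => p.1 ≠ p.2)
    ⟨(i₁, j₁), Finset.mem_filter.2 ⟨Finset.mem_product.2 ⟨(mem_big _).2 hi₁, (mem_big _).2 hj₁⟩,
      hij⟩⟩
  simp only at hmin
  rw [Finset.mem_filter, Finset.mem_product] at hp
  obtain ⟨⟨hi₀, hj₀⟩, hne⟩ := hp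
  simp only at hi₀ hj₀ hne
  have hd' : ∀ n, 0 < |s n i₀ - s n j₀| := fun n =>
    abs_pos.2 (sub_ne_zero.2 fun he => hne (hS.inj n he))
  set d' : ℕ → ℝ := fun n => |s n i₀ - s n j₀| with hd'def
  replace hd' : ∀ n, 0 < d' n := hd'
  have hmin' : ∀ᶠ n in (U : Filter ℕ), ∀ i ∈ big, ∀ j ∈ big, i ≠ j → d' n ≤ |s n i - s n j| := by
    filter_upwards [hmin] with n hn i hi j hj hij
    exact hn (i, j) (Finset.mem_filter.2 ⟨Finset.mem_product.2 ⟨hi, hj⟩, hij⟩)
  set fst : Fin k → Prop := fun i => ∃ M : ℝ, ∀ᶠ n in (U : Filter ℕ),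
    |s n i - s n i₀| ≤ M * d' n with hfst
  have hlim : ∀ i, ∃ t : ℝ, fst i → Filter.Tendsto (fun n => (s n i - s n i₀) / d' n)
      (U : Filter ℕ) (nhds t) := by
    intro i
    by_cases hi : fst i
    · obtain ⟨M, hM⟩ := hi
      obtain ⟨t, ht⟩ := exists_lim U (fun n => (s n i - s n i₀) / d' n) M (by
        filter_upwards [hM] with n hn
        rw [abs_div, abs_of_pos (hd' n), div_le_iff₀ (hd' n)]
        exact hn)
      exact ⟨t, fun _ => ht⟩
    · exact ⟨0, fun h => absurd h hi⟩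
  choose lamI hlamI using hlim
  set g : ℕ → Fr := fun n => fr (s n i₀) (d' n) (hd' n).ne' with hg
  have hal : ∀ n t, al (g n) t = s n i₀ - t := fun n t => al_fr _ _ _ _
  have hbe : ∀ n t, be (g n) t = d' n := fun n t => be_fr _ _ _ _
  set G : Finset (Finset (Fin k)) := (big.filter fst).image fun i => {i} with hGdef
  set V : Finset (Finset (Fin k)) := (big.filter fun i => ¬ fst i).image fun i => {i} with hVdef
  have mem_G : ∀ K, K ∈ G ↔ ∃ i ∈ big, fst i ∧ K = {i} := by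
    intro K
    rw [hGdef, Finset.mem_image]
    constructor
    · rintro ⟨i, hi, rfl⟩
      rw [Finset.mem_filter] at hi
      exact ⟨i, hi.1, hi.2, rfl⟩
    · rintro ⟨i, hi, hf, rfl⟩
      exact ⟨i, Finset.mem_filter.2 ⟨hi, hf⟩, rfl⟩
  have mem_V : ∀ K, K ∈ V ↔ ∃ i ∈ big, ¬ fst i ∧ K = {i} := by
    intro K
    rw [hVdef, Finset.mem_image]
    constructor
    · rintro ⟨i, hi, rfl⟩
      rw [Finset.mem_filter] at hi
      exact ⟨i, hi.1, hi.2, rfl⟩
    · rintro ⟨i, hi, hf, rfl⟩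
      exact ⟨i, Finset.mem_filter.2 ⟨hi, hf⟩, rfl⟩
  have mem_GV : ∀ K, K ∈ G ∪ V → ∃ i ∈ big, K = {i} := by
    intro K hK
    rcases Finset.mem_union.1 hK with hK | hK
    · obtain ⟨i, hi, -, rfl⟩ := (mem_G K).1 hK
      exact ⟨i, hi, rfl⟩
    · obtain ⟨i, hi, -, rfl⟩ := (mem_V K).1 hK
      exact ⟨i, hi, rfl⟩
  set lam : Finset (Fin k) → ℝ := fun K => ∑ i ∈ K, lamI i with hlam
  have lam_one : ∀ i, lam {i} = lamI i := fun i => Finset.sum_singleton _ _
  set W : ℕ → ℝ := fun n => 1 + ∑ l ∈ F n, (|tt (g n) l| + |vv (g n) l|) with hW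
  set L : ℕ → ℝ := fun n => ((n : ℝ) + 1) * W n with hL
  have hsum : ∀ n, ∀ l ∈ F n, |tt (g n) l| + |vv (g n) l| ≤
      ∑ l ∈ F n, (|tt (g n) l| + |vv (g n) l|) := fun n l hl =>
    Finset.single_le_sum (f := fun l => |tt (g n) l| + |vv (g n) l|)
      (fun l _ => add_nonneg (abs_nonneg _) (abs_nonneg _)) hl
  have hW1 : ∀ n, 1 ≤ W n := fun n => by
    have : 0 ≤ ∑ l ∈ F n, (|tt (g n) l| + |vv (g n) l|) :=
      Finset.sum_nonneg fun l _ => add_nonneg (abs_nonneg _) (abs_nonneg _)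
    simp only [hW]
    linarith
  have hWt : ∀ n, ∀ l ∈ F n, |tt (g n) l| ≤ W n := fun n l hl => by
    have h1 := hsum n l hl
    have h2 := abs_nonneg (vv (g n) l)
    simp only [hW]
    linarith
  have hWv : ∀ n, ∀ l ∈ F n, |vv (g n) l| ≤ W n := fun n l hl => by
    have h1 := hsum n l hl
    have h2 := abs_nonneg (tt (g n) l)
    simp only [hW]
    linarith
  have hLW : ∀ n, W n ≤ L n := fun n => by
    have h1 : (0 : ℝ) ≤ (n : ℝ) := Nat.cast_nonneg n
    have h2 := hW1 n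
    simp only [hL]
    nlinarith
  have hlarge : ∀ e : ℝ, 0 < e → ∀ᶠ n in (U : Filter ℕ), W n ≤ e * L n := by
    intro e he
    obtain ⟨m, hm⟩ := exists_nat_ge (1 / e)
    filter_upwards [hS.np m] with n hn
    have h1 : (m : ℝ) ≤ (n : ℝ) := by exact_mod_cast hn
    have h2 := hW1 n
    have h3 : 1 ≤ e * ((n : ℝ) + 1) := by
      have h4 : 1 / e ≤ (n : ℝ) + 1 := by linarith
      rw [div_le_iff₀ he] at h4
      linarith
    have h5 : e * L n = e * ((n : ℝ) + 1) * W n := by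
      simp only [hL]
      ring
    rw [h5]
    nlinarith
  have hi₀f : fst i₀ := ⟨0, Filter.Eventually.of_forall fun n => by simp⟩
  have hj₀f : fst j₀ := ⟨1, Filter.Eventually.of_forall fun n => by
    rw [one_mul, abs_sub_comm]⟩
  refine ⟨g, L, G, V, lam, ?_⟩
  constructor
  case lin =>
    intro M
    obtain ⟨m, hm⟩ := exists_nat_ge M
    filter_upwards [hS.np m] with n hn
    have h1 : (m : ℝ) ≤ (n : ℝ) := by exact_mod_cast hn
    have h2 := hW1 n
    have h3 : (0 : ℝ) ≤ (n : ℝ) := Nat.cast_nonneg n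
    have h4 : (n : ℝ) + 1 ≤ L n := by
      simp only [hL]
      nlinarith
    linarith
  case dis =>
    intro K hK K' hK' hKK'
    obtain ⟨i, -, rfl⟩ := mem_GV K hK
    obtain ⟨j, -, rfl⟩ := mem_GV K' hK'
    rw [Finset.disjoint_singleton]
    rintro rfl
    exact hKK' rfl
  case dGV =>
    rw [Finset.disjoint_left]
    intro K hK hK'
    obtain ⟨i, -, hi, rfl⟩ := (mem_G K).1 hK
    obtain ⟨j, -, hj, he⟩ := (mem_V _).1 hK'
    rw [Finset.singleton_inj] at he
    rw [he] at hi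
    exact hj hi
  case hor =>
    intro K hK i hi
    obtain ⟨j, -, hj, rfl⟩ := (mem_G K).1 hK
    rw [Finset.mem_singleton] at hi
    subst hi
    intro e he
    rw [lam_one]
    have h1 := (hlamI i hj).eventually (Metric.closedBall_mem_nhds _ he)
    filter_upwards [h1] with n hn
    rw [hal, hbe, abs_of_pos (hd' n)]
    rw [Real.dist_eq] at hn
    have e1 : s n i₀ - s n i + lamI i * d' n =
        -((s n i - s n i₀) / d' n - lamI i) * d' n := by
      have := (hd' n).ne'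
      field_simp
      ring
    rw [e1, abs_mul, abs_neg, abs_of_pos (hd' n)]
    exact mul_le_mul_of_nonneg_right hn (hd' n).le
  case lne =>
    intro K hK K' hK' hKK' he
    obtain ⟨i, hi, hif, rfl⟩ := (mem_G K).1 hK
    obtain ⟨j, hj, hjf, rfl⟩ := (mem_G K').1 hK'
    rw [lam_one, lam_one] at he
    have hij : i ≠ j := fun h => hKK' (by rw [h])
    have h1 := ((hlamI i hif).sub (hlamI j hjf)).abs
    rw [he, sub_self, abs_zero] at h1
    have h2 : ∀ᶠ n in (U : Filter ℕ),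
        |(s n i - s n i₀) / d' n - (s n j - s n i₀) / d' n| < 1 :=
      h1.eventually (Iio_mem_nhds one_pos)
    obtain ⟨n, h3, h4⟩ := (h2.and hmin').exists
    have e1 : (s n i - s n i₀) / d' n - (s n j - s n i₀) / d' n = (s n i - s n j) / d' n := by
      ring
    rw [e1, abs_div, abs_of_pos (hd' n), div_lt_one (hd' n)] at h3
    exact absurd (h4 i hi j hj hij) (not_le.2 h3)
  case ver =>
    intro K hK i hi
    obtain ⟨j, -, hj, rfl⟩ := (mem_V K).1 hK
    rw [Finset.mem_singleton] at hi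
    subst hi
    intro e he
    have h1 : ¬ ∀ᶠ n in (U : Filter ℕ), |s n i - s n i₀| ≤ (1 / e) * d' n := fun h2 =>
      hj ⟨1 / e, h2⟩
    rw [← Ultrafilter.eventually_not] at h1
    filter_upwards [h1] with n hn
    rw [hal, hbe, abs_of_pos (hd' n), abs_sub_comm (s n i₀) (s n i)]
    rw [not_le] at hn
    have h3 : e * ((1 / e) * d' n) = d' n := by field_simp
    have h4 : e * ((1 / e) * d' n) ≤ e * |s n i - s n i₀| :=
      mul_le_mul_of_nonneg_left hn.le he.le
    linarith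
  case con =>
    have h1 : Neg U F fun n => ∑ j ∈ Finset.univ.filter (fun i => i ∉ big),
        (gr F s {j} n).card := by
      refine Neg.sum _ (fun j n => (gr F s {j} n).card) fun j hj => ?_
      rw [Finset.mem_filter, mem_big] at hj
      by_contra h3
      exact hj.2 (pos_of_not_neg h3)
    refine h1.mono' fun n => ?_
    have h2 : ((F n).filter fun l => l ∉ gr F s (uni G ∪ uni V) n ∧ hit (g n) (L n) l) ⊆
        (Finset.univ.filter (fun i => i ∉ big)).biUnion fun j => gr F s {j} n := by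
      intro l hl
      rw [Finset.mem_filter] at hl
      obtain ⟨hlF, hlg, -⟩ := hl
      obtain ⟨i, hi⟩ := hS.sl n l hlF
      refine Finset.mem_biUnion.2 ⟨i, Finset.mem_filter.2 ⟨Finset.mem_univ i, fun hib => hlg ?_⟩,
        mem_gr.2 ⟨hlF, i, Finset.mem_singleton_self i, hi⟩⟩
      refine mem_gr.2 ⟨hlF, i, ?_, hi⟩
      rw [Finset.mem_union, mem_uni, mem_uni]
      by_cases hf : fst i
      · exact Or.inl ⟨{i}, (mem_G _).2 ⟨i, hib, hf, rfl⟩, Finset.mem_singleton_self i⟩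
      · exact Or.inr ⟨{i}, (mem_V _).2 ⟨i, hib, hf, rfl⟩, Finset.mem_singleton_self i⟩
    exact (Finset.card_le_card h2).trans Finset.card_biUnion_le
  case cr =>
    intro K hK
    obtain ⟨i, -, rfl⟩ := mem_GV K hK
    have h1 : ∀ n, crp (g n) (L n) (L n) (gr F s {i} n) = 0 := fun n =>
      crp_zero (g n) (L n) (L n) _ _ _ _ rfl (s n i) fun l hl => by
        obtain ⟨-, j, hj, h2⟩ := mem_gr.1 hl
        rw [Finset.mem_singleton] at hj
        rw [h2, hj]
    simp only [h1]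
    exact neg2_zero
  case sep =>
    intro K hK i hi i' hi' j _ _ a _ e he
    obtain ⟨l, -, -, rfl⟩ := (mem_V K).1 hK
    rw [Finset.mem_singleton] at hi hi'
    subst hi
    subst hi'
    filter_upwards with n
    rw [sub_self, zero_mul, abs_zero]
    exact mul_nonneg he.le (abs_nonneg _)
  case ctH =>
    intro e he e' he'
    filter_upwards [hlarge e he] with n hn
    have h1 : ((gr F s (uni G) n).filter fun l => hit (g n) (L n) l ∧
        e * L n < |tt (g n) l|) = ∅ := by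
      rw [Finset.filter_eq_empty_iff]
      rintro l hl ⟨-, h2⟩
      have h3 := hWt n l (gr_sub F s _ n hl)
      linarith
    rw [h1, Finset.card_empty, Nat.cast_zero]
    positivity
  case ctV =>
    intro e he e' he'
    filter_upwards [hlarge e he] with n hn
    have h1 : ((gr F s (uni V) n).filter fun l => hit (g n) (L n) l ∧
        e * L n < |vv (g n) l|) = ∅ := by
      rw [Finset.filter_eq_empty_iff]
      rintro l hl ⟨-, h2⟩
      have h3 := hWv n l (gr_sub F s _ n hl)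
      linarith
    rw [h1, Finset.card_empty, Nat.cast_zero]
    positivity
  case two =>
    have hhit : ∀ n, ∀ l ∈ F n, hit (g n) (L n) l := by
      intro n l hl
      refine ⟨(0, tt (g n) l), ?_, ?_, ?_⟩
      · simp only [abs_zero]
        linarith [hLW n, hW1 n]
      · exact (hWt n l hl).trans (hLW n)
      · have hb : be (g n) l.1 ≠ 0 := by
          rw [hbe]
          exact (hd' n).ne'
        rw [onl_hor hb]
        simp
    have hcard : ∀ (i : Fin k) (n : ℕ), ((gr F s {i} n).filter fun l => hit (g n) (L n) l) =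
        gr F s {i} n := fun i n => Finset.filter_true_of_mem fun l hl =>
      hhit n l (gr_sub F s _ n hl)
    refine ⟨{i₀}, (mem_G _).2 ⟨i₀, hi₀, hi₀f, rfl⟩, {j₀}, (mem_G _).2 ⟨j₀, hj₀, hj₀f, rfl⟩,
      fun he => hne (Finset.singleton_inj.1 he), ?_, ?_⟩
    · simp only [hcard]
      exact (mem_big _).1 hi₀
    · simp only [hcard]
      exact (mem_big _).1 hj₀

end Pool.Agent.Work.MP_b25393_ag.UU
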