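import Pool.Agent.Work.MP_b25393_ag.UU.StmtsA

/-!
# LVE: some line is on the level `j`
-/

set_option autoImplicit false

namespace Pool.Agent.Work.MP_b25393_ag.UU

open scoped Classical
open Pool.Agent.Work.MP_b25393_ag.U

theorem LVE_pf : S_LVE := by
  intro F j x hj
  have hF : F.Nonempty := Finset.card_pos.1 (by omega)
  -- lines with at most `j` lines below
  have hne : (F.filter fun l => lo F (x, val l x) ≤ j).Nonempty := by
    obtain ⟨l, hl, hmin⟩ := Finset.exists_min_image F (fun l => val l x) hF
    refine ⟨l, Finset.mem_filter.2 ⟨hl, ?_⟩⟩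
    have h0 : lo F (x, val l x) = 0 := by
      unfold lo
      rw [Finset.card_eq_zero, Finset.filter_eq_empty_iff]
      intro l' hl'
      exact not_lt.2 (hmin l' hl')
    omega
  obtain ⟨l, hl, hmax⟩ := Finset.exists_max_image _ (fun l => val l x) hne
  obtain ⟨hlF, hlj⟩ := Finset.mem_filter.1 hl
  refine ⟨l, hlF, hlj, ?_⟩
  by_contra hcon
  push Not at hcon
  have hsum : lo F (x, val l x) + on F (x, val l x) =
      (F.filter fun l' => val l' x ≤ val l x).card := by
    unfold lo on
    rw [← Finset.card_union_of_disjoint]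
    · congr 1
      ext l'
      simp only [Finset.mem_union, Finset.mem_filter]
      constructor
      · rintro (⟨h1, h2⟩ | ⟨h1, h2⟩)
        · exact ⟨h1, h2.le⟩
        · exact ⟨h1, h2.le⟩
      · rintro ⟨h1, h2⟩
        rcases h2.lt_or_eq with h | h
        · exact Or.inl ⟨h1, h⟩
        · exact Or.inr ⟨h1, h⟩
    · rw [Finset.disjoint_left]
      intro l' h1 h2
      rw [Finset.mem_filter] at h1 h2
      exact absurd h2.2 (ne_of_lt h1.2)
  have hab : (F.filter fun l' => val l x < val l' x).Nonempty := by
    rw [Finset.nonempty_iff_ne_empty]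
    intro he
    rw [Finset.filter_eq_empty_iff] at he
    have : (F.filter fun l' => val l' x ≤ val l x) = F :=
      Finset.filter_true_of_mem fun l' hl' => not_lt.1 (he hl')
    rw [this] at hsum
    omega
  obtain ⟨m, hm, hmin⟩ := Finset.exists_min_image _ (fun l => val l x) hab
  obtain ⟨hmF, hmv⟩ := Finset.mem_filter.1 hm
  have hlo : lo F (x, val m x) = lo F (x, val l x) + on F (x, val l x) := by
    rw [hsum]
    unfold lo
    congr 1
    ext l'
    simp only [Finset.mem_filter]
    constructor
    · rintro ⟨h1, h2⟩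
      refine ⟨h1, ?_⟩
      by_contra h3
      push Not at h3
      exact absurd (hmin l' (Finset.mem_filter.2 ⟨h1, h3⟩)) (not_le.2 h2)
    · rintro ⟨h1, h2⟩
      exact ⟨h1, lt_of_le_of_lt h2 hmv⟩
  have := hmax m (Finset.mem_filter.2 ⟨hmF, by omega⟩)
  exact absurd this (not_le.2 hmv)

end Pool.Agent.Work.MP_b25393_ag.UU
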