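import Mathlib
import Pool.Agent.Work.MP_b25393_ag.UU.StmtsC

/-!
# Uniform version: PT1 (no tails)
-/

set_option autoImplicit false

namespace Pool.Agent.Work.MP_b25393_ag.UU

open scoped Classical
open Pool.Agent.Work.MP_b25393_ag.U

namespace I_PT1

theorem delta_pos {ι : Type*} (G : Finset ι) (lam : ι → ℝ)
    (h : ∀ K ∈ G, ∀ K' ∈ G, K ≠ K' → lam K ≠ lam K') :
    ∃ D : ℝ, 0 < D ∧ ∀ K ∈ G, ∀ K' ∈ G, K ≠ K' → D ≤ |lam K - lam K'| := by
  by_cases hne : (G.offDiag).Nonempty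
  · obtain ⟨q, hq, hmin⟩ := Finset.exists_min_image G.offDiag (fun q => |lam q.1 - lam q.2|) hne
    rw [Finset.mem_offDiag] at hq
    refine ⟨|lam q.1 - lam q.2|, abs_pos.mpr (sub_ne_zero.mpr (h _ hq.1 _ hq.2.1 hq.2.2)), ?_⟩
    intro K hK K' hK' hn
    exact hmin (K, K') (Finset.mem_offDiag.mpr ⟨hK, hK', hn⟩)
  · refine ⟨1, one_pos, ?_⟩
    intro K hK K' hK' hn
    exact absurd ⟨(K, K'), Finset.mem_offDiag.mpr ⟨hK, hK', hn⟩⟩ hne

section alg
variable {Λ D ε a b u w t r L : ℝ}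

theorem bigT (hΛ : 1 ≤ Λ) (hD : 0 < D) (hC : 32 * Λ * (1 + 1 / D) < |t|) :
    32 * Λ * (D + 1) < |t| * D := by
  have h1 : 32 * Λ * (1 + 1 / D) * D = 32 * Λ * (D + 1) := by
    field_simp
  have h2 := mul_lt_mul_of_pos_right hC hD
  linarith

theorem oneT (hΛ : 1 ≤ Λ) (hD : 0 < D) (hC : 32 * Λ * (1 + 1 / D) < |t|) : 1 < |t| := by
  have h1 : 0 < 1 / D := by positivity
  nlinarith

theorem algA (hΛ : 1 ≤ Λ) (hD : 0 < D) (hDΛ : D ≤ 2 * Λ) (he0 : 0 < ε) (he1 : ε ≤ 1)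
    (he2 : 4 * ε ≤ D) (he3 : ε * (128 * Λ) ≤ D ^ 2) (ha : 1 + |a| ≤ Λ) (hb : 1 + |b| ≤ Λ)
    (hu : |u - a| ≤ ε) (hw : |w - b| ≤ ε) (hab : D ≤ |a - b|) (hr : |r| ≤ 1)
    (hC : 32 * Λ * (1 + 1 / D) < |t|) (hL : |t| ≤ D / (6 * Λ) * L) :
    u - w ≠ 0 ∧ |(r - t) / (u - w)| ≤ L ∧ |t + u * ((r - t) / (u - w))| ≤ L ∧
      |t + u * ((r - t) / (u - w)) - b * ((r - t) / (u - w))| ≤ D / (16 * Λ) * |t| := by
  have hT := bigT hΛ hD hC
  have h1T := oneT hΛ hD hC
  have huw : D / 2 ≤ |u - w| := by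
    have e1 : a - b = (u - w) - (u - a) + (w - b) := by ring
    have h1 : |a - b| ≤ |u - w| + |u - a| + |w - b| := by
      rw [e1]
      calc |(u - w) - (u - a) + (w - b)| ≤ |(u - w) - (u - a)| + |w - b| := abs_add_le _ _
        _ ≤ |u - w| + |u - a| + |w - b| := by
          have := abs_sub (u - w) (u - a)
          linarith
    linarith
  have huw0 : 0 < |u - w| := by linarith
  have hne : u - w ≠ 0 := abs_pos.mp huw0
  set X := (r - t) / (u - w) with hX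
  have hX1 : |X| * D ≤ 4 * |t| := by
    have h1 : |X| * |u - w| = |r - t| := by
      rw [hX, abs_div]
      field_simp
    have h2 : |r - t| ≤ 1 + |t| := by
      have := abs_sub r t
      linarith
    have h3 : |X| * (D / 2) ≤ |X| * |u - w| := mul_le_mul_of_nonneg_left huw (abs_nonneg _)
    linarith
  have hL' : 6 * Λ * |t| ≤ D * L := by
    have h1 : D / (6 * Λ) * L * (6 * Λ) = D * L := by
      field_simp
    have h2 := mul_le_mul_of_nonneg_right hL (by positivity : (0 : ℝ) ≤ 6 * Λ)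
    linarith
  have hY : t + u * X = r + w * X := by
    rw [hX]
    field_simp
    ring
  have hwΛ : |w| ≤ Λ := by
    have e1 : w = (w - b) + b := by ring
    rw [e1]
    have := abs_add_le (w - b) b
    linarith
  refine ⟨hne, ?_, ?_, ?_⟩
  · have h1 : D * |X| ≤ D * L := by nlinarith [abs_nonneg t]
    exact le_of_mul_le_mul_left h1 hD
  · rw [hY]
    have h1 : |r + w * X| ≤ 1 + Λ * |X| := by
      have h2 := abs_add_le r (w * X)
      rw [abs_mul] at h2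
      have h3 : |w| * |X| ≤ Λ * |X| := mul_le_mul_of_nonneg_right hwΛ (abs_nonneg _)
      linarith
    have h4 : D * (1 + Λ * |X|) ≤ D * L := by
      have h5 : Λ * (|X| * D) ≤ Λ * (4 * |t|) := mul_le_mul_of_nonneg_left hX1 (by linarith)
      have h6 : D ≤ 2 * Λ * |t| := by nlinarith
      nlinarith
    exact h1.trans (le_of_mul_le_mul_left h4 hD)
  · rw [hY]
    have e1 : r + w * X - b * X = r + (w - b) * X := by ring
    rw [e1]
    have h1 : |r + (w - b) * X| ≤ 1 + ε * |X| := by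
      have h2 := abs_add_le r ((w - b) * X)
      rw [abs_mul] at h2
      have h3 : |w - b| * |X| ≤ ε * |X| := mul_le_mul_of_nonneg_right hw (abs_nonneg _)
      linarith
    refine h1.trans ?_
    rw [div_mul_eq_mul_div, le_div_iff₀ (by positivity)]
    have h5 : ε * |X| * (16 * Λ) * D ≤ D * |t| / 2 * D := by
      have h6 : ε * (16 * Λ) * (|X| * D) ≤ ε * (16 * Λ) * (4 * |t|) :=
        mul_le_mul_of_nonneg_left hX1 (by positivity)
      have h7 : ε * (128 * Λ) * |t| ≤ D ^ 2 * |t| := mul_le_mul_of_nonneg_right he3 (abs_nonneg _)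
      nlinarith
    have h8 : ε * |X| * (16 * Λ) ≤ D * |t| / 2 := le_of_mul_le_mul_right h5 hD
    nlinarith

theorem algB (hΛ : 1 ≤ Λ) (hD : 0 < D) (hDΛ : D ≤ 2 * Λ) (he1 : ε ≤ 1)
    (he2 : 4 * ε ≤ D) (ha : 1 + |a| ≤ Λ) (hb : 1 + |b| ≤ Λ)
    (hu : |u - a| ≤ ε) (hab : D ≤ |a - b|) {X Y : ℝ} (hc : Y = t + u * X)
    (hQ : |Y - b * X| ≤ D / (16 * Λ) * |t|) : |t| ≤ |X| * (4 * Λ) ∧ |X| * D ≤ 4 * |t| := by
  have hδ : D / (16 * Λ) ≤ 1 / 8 := by
    rw [div_le_iff₀ (by positivity)]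
    linarith
  have hQ' : |Y - b * X| ≤ |t| / 8 := by
    have := mul_le_mul_of_nonneg_right hδ (abs_nonneg t)
    linarith
  have e1 : (u - b) * X = (Y - b * X) - t := by rw [hc]; ring
  have h1 : |u - b| * |X| ≤ |Y - b * X| + |t| := by
    rw [← abs_mul, e1]
    exact abs_sub _ _
  have e2 : t = (Y - b * X) - (u - b) * X := by rw [hc]; ring
  have h2 : |t| ≤ |Y - b * X| + |u - b| * |X| := by
    rw [← abs_mul]
    nth_rewrite 1 [e2]
    exact abs_sub _ _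
  have h3 : |u - b| ≤ 2 * Λ := by
    have e3 : u - b = (u - a) + (a - b) := by ring
    rw [e3]
    have h4 := abs_add_le (u - a) (a - b)
    have h5 := abs_sub a b
    linarith
  have h4 : D / 2 ≤ |u - b| := by
    have e3 : a - b = (u - b) - (u - a) := by ring
    have h5 : |a - b| ≤ |u - b| + |u - a| := by
      rw [e3]
      exact abs_sub _ _
    linarith
  constructor
  · have h5 : |u - b| * |X| ≤ 2 * Λ * |X| := mul_le_mul_of_nonneg_right h3 (abs_nonneg _)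
    linarith [abs_nonneg t]
  · have h5 : D / 2 * |X| ≤ |u - b| * |X| := mul_le_mul_of_nonneg_right h4 (abs_nonneg _)
    linarith [abs_nonneg t]

theorem algC (hΛ : 1 ≤ Λ) (hD : 0 < D) (he2 : 4 * ε ≤ D)
    {a' : ℝ} (hw : |w - a'| ≤ ε) (hab : D ≤ |a' - b|)
    (hC : 32 * Λ * (1 + 1 / D) < |t|) {X Y : ℝ} (hX : |t| ≤ |X| * (4 * Λ))
    (hQ : |Y - b * X| ≤ D / (16 * Λ) * |t|) (hl : Y = r + w * X) : 1 < |r| := by
  have hT := bigT hΛ hD hC
  have h4 : D / 2 ≤ |w - b| := by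
    have e3 : a' - b = (w - b) - (w - a') := by ring
    have h5 : |a' - b| ≤ |w - b| + |w - a'| := by
      rw [e3]
      exact abs_sub _ _
    linarith
  have e1 : (w - b) * X = (Y - b * X) - r := by rw [hl]; ring
  have h1 : |w - b| * |X| ≤ |Y - b * X| + |r| := by
    rw [← abs_mul, e1]
    exact abs_sub _ _
  have h2 : D / 2 * |X| ≤ |w - b| * |X| := mul_le_mul_of_nonneg_right h4 (abs_nonneg _)
  have h3 : D / (16 * Λ) * |t| * (16 * Λ) = D * |t| := by field_simp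
  have h5 : (D / 2 * |X|) * (16 * Λ) ≤ (D / (16 * Λ) * |t| + |r|) * (16 * Λ) := by
    apply mul_le_mul_of_nonneg_right _ (by positivity)
    linarith
  have h6 : D * |t| ≤ D * (|X| * (4 * Λ)) := mul_le_mul_of_nonneg_left hX hD.le
  have h7 : D * |t| ≤ |r| * (16 * Λ) := by nlinarith
  by_contra h
  push Not at h
  have h8 : |r| * (16 * Λ) ≤ 1 * (16 * Λ) := mul_le_mul_of_nonneg_right h (by positivity)
  nlinarith

theorem algD (hΛ : 1 ≤ Λ) (hD : 0 < D) (hDΛ : D ≤ 2 * Λ) (he0 : 0 < ε)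
    (he4 : ε * (8 * Λ * (D + 4 * Λ)) ≤ D) (hb : 1 + |b| ≤ Λ)
    (hC : 32 * Λ * (1 + 1 / D) < |t|) {X Y v ρ : ℝ} (hX : |t| ≤ |X| * (4 * Λ))
    (hX' : |X| * D ≤ 4 * |t|)
    (hQ : |Y - b * X| ≤ D / (16 * Λ) * |t|) (hρ : |ρ| ≤ ε) (hl : X = v + ρ * Y) : 1 < |v| := by
  have hT := bigT hΛ hD hC
  have hδ : D / (16 * Λ) ≤ 1 / 8 := by
    rw [div_le_iff₀ (by positivity)]
    linarith
  have hQ' : |Y - b * X| ≤ |t| / 8 := by
    have := mul_le_mul_of_nonneg_right hδ (abs_nonneg t)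
    linarith
  have hbΛ : |b| ≤ Λ := by linarith
  have hY : |Y| ≤ |t| / 8 + Λ * |X| := by
    have e1 : Y = (Y - b * X) + b * X := by ring
    rw [e1]
    have h1 := abs_add_le (Y - b * X) (b * X)
    rw [abs_mul] at h1
    have h2 : |b| * |X| ≤ Λ * |X| := mul_le_mul_of_nonneg_right hbΛ (abs_nonneg _)
    linarith
  have hYD : |Y| * D ≤ |t| * (D + 4 * Λ) := by
    have h1 := mul_le_mul_of_nonneg_right hY hD.le
    have h2 : Λ * (|X| * D) ≤ Λ * (4 * |t|) := mul_le_mul_of_nonneg_left hX' (by linarith)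
    nlinarith [abs_nonneg t]
  have h3 : |X| ≤ |v| + ε * |Y| := by
    nth_rewrite 1 [hl]
    have h1 := abs_add_le v (ρ * Y)
    rw [abs_mul] at h1
    have h2 : |ρ| * |Y| ≤ ε * |Y| := mul_le_mul_of_nonneg_right hρ (abs_nonneg _)
    linarith
  by_contra h
  push Not at h
  have h5 : |X| * (8 * Λ) * D ≤ (1 + ε * |Y|) * (8 * Λ) * D := by
    apply mul_le_mul_of_nonneg_right _ hD.le
    apply mul_le_mul_of_nonneg_right _ (by positivity)
    linarith
  have h6 : ε * (8 * Λ) * (|Y| * D) ≤ ε * (8 * Λ) * (|t| * (D + 4 * Λ)) :=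
    mul_le_mul_of_nonneg_left hYD (by positivity)
  have h7 : ε * (8 * Λ * (D + 4 * Λ)) * |t| ≤ D * |t| := mul_le_mul_of_nonneg_right he4 (abs_nonneg _)
  have h8 : |t| * D ≤ |X| * (4 * Λ) * D := mul_le_mul_of_nonneg_right hX hD.le
  nlinarith

end alg

/-- the set `Q` -/
def QQ (L b d : ℝ) : Set (ℝ × ℝ) := {P | |P.1| ≤ L ∧ |P.2| ≤ L ∧ |P.2 - b * P.1| ≤ d}

theorem convex_QQ (L b d : ℝ) : Convex ℝ (QQ L b d) := by
  intro P hP P' hP' u v hu hv huv
  obtain ⟨h1, h2, h3⟩ := hP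
  obtain ⟨h4, h5, h6⟩ := hP'
  have key : ∀ p q M : ℝ, |p| ≤ M → |q| ≤ M → |u * p + v * q| ≤ M := by
    intro p q M hp hq
    calc |u * p + v * q| ≤ |u * p| + |v * q| := abs_add_le _ _
      _ = u * |p| + v * |q| := by rw [abs_mul, abs_mul, abs_of_nonneg hu, abs_of_nonneg hv]
      _ ≤ u * M + v * M := by gcongr
      _ = M := by rw [← add_mul, huv, one_mul]
  refine ⟨?_, ?_, ?_⟩
  · simpa using key _ _ _ h1 h4
  · simpa using key _ _ _ h2 h5
  · have e := key _ _ _ h3 h6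
    have e1 : (u • P + v • P').2 - b * (u • P + v • P').1 =
        u * (P.2 - b * P.1) + v * (P'.2 - b * P'.1) := by
      simp
      ring
    rw [e1]
    exact e

theorem exists_eps {Λ D : ℝ} (hΛ : 1 ≤ Λ) (hD : 0 < D) : ∃ ε : ℝ, 0 < ε ∧ ε ≤ 1 ∧ 4 * ε ≤ D ∧
    ε * (128 * Λ) ≤ D ^ 2 ∧ ε * (8 * Λ * (D + 4 * Λ)) ≤ D := by
  have hΛ0 : 0 < Λ := by linarith
  refine ⟨min (min 1 (D / 4)) (min (D ^ 2 / (128 * Λ)) (D / (8 * Λ * (D + 4 * Λ)))), ?_, ?_, ?_,
    ?_, ?_⟩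
  · positivity
  · exact (min_le_left _ _).trans (min_le_left _ _)
  · have := (min_le_left (min 1 (D / 4)) (min (D ^ 2 / (128 * Λ))
      (D / (8 * Λ * (D + 4 * Λ))))).trans (min_le_right _ _)
    linarith
  · rw [← le_div_iff₀ (by positivity)]
    exact (min_le_right _ _).trans (min_le_left _ _)
  · rw [← le_div_iff₀ (by positivity)]
    exact (min_le_right _ _).trans (min_le_right _ _)

theorem main1 (hMLS : S_MLS) (hBLC : S_BLC) (k : ℕ) (U : Ultrafilter ℕ)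
    (F : ℕ → Finset (ℝ × ℝ)) (s : ℕ → Fin k → ℝ)
    (g : ℕ → Fr) (L : ℕ → ℝ) (G V : Finset (Finset (Fin k))) (lam : Finset (Fin k) → ℝ)
    (K₁ K₂ : Finset (Fin k)) (θ : ℝ) (hS : Sy U F s) (hP : PN U F s g L G V lam K₁ K₂ θ)
    {Λ D : ℝ} (hΛ : 1 ≤ Λ) (hD : 0 < D) (hDΛ : D ≤ 2 * Λ) (hlam : ∀ K ∈ G, 1 + |lam K| ≤ Λ)
    (hsep : ∀ K ∈ G, ∀ K' ∈ G, K ≠ K' → D ≤ |lam K - lam K'|)
    (K σ : Finset (Fin k)) (hK : K ∈ G) (hσ : σ ∈ G) (hKσ : K ≠ σ)
    (hbσ : ∀ᶠ n in (U : Filter ℕ), 32 * ((k : ℝ) + 1) * θ * ((F n).card : ℝ) ≤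
      (((gr F s σ n).filter fun l => |tt (g n) l| ≤ 1).card : ℝ)) :
    Neg U F fun n => ((gr F s K n).filter fun l => 32 * Λ * (1 + 1 / D) < |tt (g n) l| ∧
      |tt (g n) l| ≤ D / (6 * Λ) * L n).card := by
  obtain ⟨ε, he0, he1, he2, he3, he4⟩ := exists_eps hΛ hD
  have hθ := hP.th
  have hk : (0 : ℝ) ≤ (k : ℝ) := Nat.cast_nonneg k
  have hhor := hor_lines F hP.hor ε he0
  have hver := ver_lines (U := U) F (s := s) (g := g) (K := uni V) (fun i hi => by
    obtain ⟨K', hK', hi'⟩ := mem_uni.mp hi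
    exact hP.ver K' hK' i hi') ε he0
  have hG : G.card ≤ k + 1 := hBLC k G fun K hK K' hK' hn =>
    hP.dis K (Finset.mem_union_left _ hK) K' (Finset.mem_union_left _ hK') hn
  refine hMLS k U F s g _ (fun n => gr F s σ n) (fun n => gr F s K n)
    (fun n c => QQ (L n) (lam σ) (D / (16 * Λ) * |tt (g n) c|))
    (32 * ((k : ℝ) + 1) * θ) (((k : ℝ) + 3) * θ) hS (by positivity) (by nlinarith)
    (fun n => gr_sub F s σ n) (fun n => (Finset.filter_subset _ _).trans (gr_sub F s K n))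
    (fun n c _ => convex_QQ _ _ _) ?_ ?_ ?_ ?_
  · filter_upwards [hbσ, hhor] with n hb hh c hc
    rw [Finset.mem_filter] at hc
    obtain ⟨hcK, hc1, hc2⟩ := hc
    refine hb.trans ?_
    have hsub : ((gr F s σ n).filter fun l => |tt (g n) l| ≤ 1) ⊆
        (gr F s σ n).filter fun l => mc (g n) (QQ (L n) (lam σ) (D / (16 * Λ) * |tt (g n) c|)) c l := by
      intro l hl
      rw [Finset.mem_filter] at hl ⊢
      refine ⟨hl.1, ?_⟩
      obtain ⟨hbc, hsc⟩ := hh K hK c hcK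
      obtain ⟨hbl, hsl⟩ := hh σ hσ l hl.1
      obtain ⟨h1, h2, h3, h4⟩ := algA hΛ hD hDΛ he0 he1 he2 he3 (hlam K hK) (hlam σ hσ) hsc hsl
        (hsep K hK σ hσ hKσ) hl.2 hc1 hc2
      obtain ⟨h5, h6⟩ := cross_hh hbc hbl h1
      refine ⟨?_, _, ⟨h2, h3, h4⟩, h5, h6⟩
      intro h7
      rw [h7] at h1
      exact h1 (sub_self _)
    exact_mod_cast Finset.card_le_card hsub
  · have hoG : ∀ᶠ n in (U : Filter ℕ), ∀ K' ∈ G,
        (((gr F s K' n).filter fun l => hit (g n) (L n) l ∧ 1 < |tt (g n) l|).card : ℝ) ≤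
        θ * ((F n).card : ℝ) := by
      rw [Filter.eventually_all_finset]
      exact hP.oG
    filter_upwards [hoG, hP.oV, hP.con θ hθ, hhor, hver] with n h1 h2 h3 hh hv c hc
    rw [Finset.mem_filter] at hc
    obtain ⟨hcK, hc1, hc2⟩ := hc
    have hsub : ((F n \ (gr F s σ n ∪ gr F s K n)).filter fun l =>
        mc (g n) (QQ (L n) (lam σ) (D / (16 * Λ) * |tt (g n) c|)) c l) ⊆
        (G.biUnion fun K' => (gr F s K' n).filter fun l => hit (g n) (L n) l ∧ 1 < |tt (g n) l|) ∪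
        (((gr F s (uni V) n).filter fun l => hit (g n) (L n) l ∧ 1 < |vv (g n) l|) ∪
        ((F n).filter fun l => l ∉ gr F s (uni G ∪ uni V) n ∧ hit (g n) (L n) l)) := by
      intro l hl
      rw [Finset.mem_filter, Finset.mem_sdiff, Finset.mem_union] at hl
      obtain ⟨⟨hlF, hlσK⟩, hne, P, ⟨hP1, hP2, hP3⟩, hPc, hPl⟩ := hl
      push Not at hlσK
      obtain ⟨hbc, hsc⟩ := hh K hK c hcK
      have hc' := (onl_hor hbc P).mp hPc
      obtain ⟨hX, hX'⟩ := algB hΛ hD hDΛ he1 he2 (hlam K hK) (hlam σ hσ) hsc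
        (hsep K hK σ hσ hKσ) hc' hP3
      have hhit : hit (g n) (L n) l := ⟨P, hP1, hP2, hPl⟩
      by_cases hlGV : l ∈ gr F s (uni G ∪ uni V) n
      · obtain ⟨_, i, hi, hli⟩ := mem_gr.mp hlGV
        rw [Finset.mem_union] at hi
        rcases hi with hi | hi
        · obtain ⟨K', hK', hi'⟩ := mem_uni.mp hi
          have hlK' : l ∈ gr F s K' n := mem_gr.mpr ⟨hlF, i, hi', hli⟩
          have hK'σ : K' ≠ σ := by
            rintro rfl
            exact hlσK.1 hlK'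
          rw [Finset.mem_union]
          left
          rw [Finset.mem_biUnion]
          refine ⟨K', hK', ?_⟩
          rw [Finset.mem_filter]
          refine ⟨hlK', hhit, ?_⟩
          obtain ⟨hbl, hsl⟩ := hh K' hK' l hlK'
          exact algC hΛ hD he2 hsl (hsep K' hK' σ hσ hK'σ) hc1 hX hP3 ((onl_hor hbl P).mp hPl)
        · have hlV : l ∈ gr F s (uni V) n := mem_gr.mpr ⟨hlF, i, hi, hli⟩
          rw [Finset.mem_union, Finset.mem_union]
          right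
          left
          rw [Finset.mem_filter]
          refine ⟨hlV, hhit, ?_⟩
          obtain ⟨hal, hrl⟩ := hv l hlV
          exact algD hΛ hD hDΛ he0 he4 (hlam σ hσ) hc1 hX hX' hP3 hrl ((onl_ver hal P).mp hPl)
      · rw [Finset.mem_union, Finset.mem_union]
        right
        right
        rw [Finset.mem_filter]
        exact ⟨hlF, hlGV, hhit⟩
    have hcard := (Finset.card_le_card hsub).trans ((Finset.card_union_le _ _).trans
      (Nat.add_le_add Finset.card_biUnion_le (Finset.card_union_le _ _)))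
    have hcard' : (((F n \ (gr F s σ n ∪ gr F s K n)).filter fun l =>
        mc (g n) (QQ (L n) (lam σ) (D / (16 * Λ) * |tt (g n) c|)) c l).card : ℝ) ≤
        (∑ K' ∈ G, (((gr F s K' n).filter fun l =>
          hit (g n) (L n) l ∧ 1 < |tt (g n) l|).card : ℝ)) +
        ((((gr F s (uni V) n).filter fun l => hit (g n) (L n) l ∧ 1 < |vv (g n) l|).card : ℝ) +
        (((F n).filter fun l => l ∉ gr F s (uni G ∪ uni V) n ∧ hit (g n) (L n) l).card : ℝ)) := by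
      exact_mod_cast hcard
    refine hcard'.trans ?_
    have hsum : (∑ K' ∈ G, (((gr F s K' n).filter fun l =>
          hit (g n) (L n) l ∧ 1 < |tt (g n) l|).card : ℝ)) ≤ ((k : ℝ) + 1) * (θ * (F n).card) := by
      calc (∑ K' ∈ G, (((gr F s K' n).filter fun l =>
          hit (g n) (L n) l ∧ 1 < |tt (g n) l|).card : ℝ)) ≤ ∑ K' ∈ G, (θ * ((F n).card : ℝ)) :=
            Finset.sum_le_sum h1
        _ = (G.card : ℝ) * (θ * (F n).card) := by rw [Finset.sum_const, nsmul_eq_mul]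
        _ ≤ ((k : ℝ) + 1) * (θ * (F n).card) := by
          apply mul_le_mul_of_nonneg_right _ (by positivity)
          exact_mod_cast hG
    linarith
  · refine Neg2.mono (hP.cr K (Finset.mem_union_left _ hK)) (Filter.Eventually.of_forall fun n => ?_)
    apply Finset.card_le_card
    intro q hq
    rw [Finset.mem_filter, Finset.mem_product] at hq ⊢
    obtain ⟨⟨h1, h2⟩, h3, P, ⟨h4, h5, _⟩, h6, h7⟩ := hq
    exact ⟨⟨(Finset.mem_filter.mp h1).1, h2⟩, h3.symm, P, h4, h5, h6, h7⟩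
  · refine Neg2.mono (hP.cr σ (Finset.mem_union_left _ hσ)) (Filter.Eventually.of_forall fun n => ?_)
    apply Finset.card_le_card
    intro q hq
    rw [Finset.mem_filter] at hq ⊢
    obtain ⟨h1, h2, c, hc, P, ⟨h4, h5, _⟩, _, h6, h7⟩ := hq
    exact ⟨h1, h2, P, h4, h5, h6, h7⟩

end I_PT1

/-- PT1 -/
theorem PT1_pf (hMLS : S_MLS) (hBLC : S_BLC) : S_PT1 := by
  intro k U F s g L G V lam K₁ K₂ θ hS hP
  obtain ⟨D, hD, hsep⟩ := I_PT1.delta_pos G lam hP.lne
  set Λ : ℝ := 1 + ∑ K ∈ G, |lam K| with hΛdef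
  have hlam : ∀ K ∈ G, 1 + |lam K| ≤ Λ := by
    intro K hK
    have := Finset.single_le_sum (f := fun K => |lam K|) (fun K _ => abs_nonneg (lam K)) hK
    rw [hΛdef]
    linarith
  have hΛ : 1 ≤ Λ := by
    have := Finset.sum_nonneg (s := G) (f := fun K => |lam K|) (fun K _ => abs_nonneg (lam K))
    rw [hΛdef]
    linarith
  have hDΛ : D ≤ 2 * Λ := by
    have h1 := hsep K₁ hP.k1 K₂ hP.k2 hP.kn
    have h2 := abs_sub (lam K₁) (lam K₂)
    have h3 := hlam K₁ hP.k1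
    have h4 := hlam K₂ hP.k2
    linarith
  refine ⟨32 * Λ * (1 + 1 / D), ?_, ?_⟩
  · have h1 : 0 < 1 / D := by positivity
    nlinarith
  intro K hK
  have hmain : Neg U F fun n => ((gr F s K n).filter fun l =>
      32 * Λ * (1 + 1 / D) < |tt (g n) l| ∧ |tt (g n) l| ≤ D / (6 * Λ) * L n).card := by
    by_cases hK1 : K = K₁
    · exact I_PT1.main1 hMLS hBLC k U F s g L G V lam K₁ K₂ θ hS hP hΛ hD hDΛ hlam hsep K K₂ hK
        hP.k2 (by rw [hK1]; exact hP.kn) hP.b2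
    · exact I_PT1.main1 hMLS hBLC k U F s g L G V lam K₁ K₂ θ hS hP hΛ hD hDΛ hlam hsep K K₁ hK
        hP.k1 hK1 hP.b1
  have hct := hP.ctH (D / (6 * Λ)) (by positivity)
  refine (hmain.add hct).mono' fun n => ?_
  refine (Finset.card_le_card ?_).trans (Finset.card_union_le _ _)
  intro l hl
  rw [Finset.mem_filter] at hl
  obtain ⟨h1, h2, h3⟩ := hl
  rw [Finset.mem_union, Finset.mem_filter, Finset.mem_filter]
  by_cases h4 : |tt (g n) l| ≤ D / (6 * Λ) * L n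
  · left
    exact ⟨h1, h3, h4⟩
  · right
    push Not at h4
    refine ⟨?_, h2, h4⟩
    obtain ⟨h5, i, hi, h6⟩ := mem_gr.mp h1
    exact mem_gr.mpr ⟨h5, i, mem_uni.mpr ⟨K, hK, hi⟩, h6⟩

end Pool.Agent.Work.MP_b25393_ag.UU
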