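import Pool.Agent.Work.MP_b25393_ag.UU.StmtsB

/-!
# [b25393 UU SXV] without vertical atoms the vertical lines rarely cross
-/

set_option autoImplicit false

namespace Pool.Agent.Work.MP_b25393_ag.UU

open scoped Classical
open Pool.Agent.Work.MP_b25393_ag.U

namespace I_SXV

theorem key {g : Fr} {l m : ℝ × ℝ} {M ε : ℝ} (hε : 0 ≤ ε) (hl : al g l.1 ≠ 0) (hm : al g m.1 ≠ 0)
    (hl' : |rh g l.1| ≤ ε) (hm' : |rh g m.1| ≤ ε) (h : crb g (3 / 8) M l m) :
    |vv g l| ≤ 3 / 8 + ε * |M| ∧ |vv g m - vv g l| ≤ 2 * (ε * |M|) := by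
  obtain ⟨P, h1, h2, h3, h4⟩ := h
  have h5 := (onl_ver hl P).1 h3
  have h6 := (onl_ver hm P).1 h4
  have h2' : |P.2| ≤ |M| := h2.trans (le_abs_self M)
  have h7 : |rh g l.1 * P.2| ≤ ε * |M| := by
    rw [abs_mul]
    exact mul_le_mul hl' h2' (abs_nonneg _) hε
  have h8 : |rh g m.1 * P.2| ≤ ε * |M| := by
    rw [abs_mul]
    exact mul_le_mul hm' h2' (abs_nonneg _) hε
  rw [abs_le] at h1 h7 h8
  constructor
  · rw [abs_le]
    constructor <;> linarith [h1.1, h1.2, h7.1, h7.2]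
  · rw [abs_le]
    constructor <;> linarith [h7.1, h7.2, h8.1, h8.2]

theorem crp_eq (g : Fr) (L M : ℝ) (G : Finset (ℝ × ℝ)) :
    crp g L M G = ∑ l ∈ G, (G.filter fun m => l ≠ m ∧ crb g L M l m).card := by
  unfold crp
  rw [Finset.card_filter, Finset.sum_product]
  refine Finset.sum_congr rfl fun l _ => ?_
  rw [Finset.card_filter]

end I_SXV

open I_SXV in
theorem SXV_pf (hATL : S_ATL) : S_SXV := by
  intro k U F s g G V lam hSy hST hat M e he
  obtain ⟨η, hη, hev⟩ := hATL U F (gr F s (uni V)) (fun n => vv (g n)) (Set.Icc (-(2 / 5)) (2 / 5))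
    isCompact_Icc (fun t ht => hat t (by
      rw [abs_lt]
      constructor <;> linarith [ht.1, ht.2])) e he
  have hver : ∀ i ∈ uni V, Ver U s g i := by
    intro i hi
    unfold uni at hi
    rw [Finset.mem_biUnion] at hi
    obtain ⟨K, hK, hiK⟩ := hi
    exact hST.ver K hK i hiK
  set ε : ℝ := min (η / (2 * (|M| + 1))) (1 / (40 * (|M| + 1))) with hεd
  have hM : 0 < |M| + 1 := by positivity
  have hε : 0 < ε := lt_min (by positivity) (by positivity)
  have h1 : ε * |M| ≤ 1 / 40 := by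
    have h2 : ε ≤ 1 / (40 * (|M| + 1)) := min_le_right _ _
    calc ε * |M| ≤ 1 / (40 * (|M| + 1)) * (|M| + 1) :=
          mul_le_mul h2 (by linarith) (abs_nonneg _) (by positivity)
      _ = 1 / 40 := by field_simp
  have h1' : 2 * (ε * |M|) ≤ η := by
    have h2 : ε ≤ η / (2 * (|M| + 1)) := min_le_left _ _
    have h3 : ε * |M| ≤ η / (2 * (|M| + 1)) * (|M| + 1) :=
      mul_le_mul h2 (by linarith) (abs_nonneg _) (by positivity)
    have h4 : η / (2 * (|M| + 1)) * (|M| + 1) = η / 2 := by field_simp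
    linarith
  filter_upwards [hev, ver_lines F hver ε hε] with n hn hv
  have hcard : ∀ l ∈ gr F s (uni V) n,
      (((gr F s (uni V) n).filter fun m => l ≠ m ∧ crb (g n) (3 / 8) M l m).card : ℝ) ≤
        e * ((F n).card : ℝ) := by
    intro l hl
    obtain ⟨hl1, hl2⟩ := hv l hl
    rcases ((gr F s (uni V) n).filter fun m => l ≠ m ∧ crb (g n) (3 / 8) M l m).eq_empty_or_nonempty
      with h0 | ⟨m₀, hm₀⟩
    · rw [h0, Finset.card_empty, Nat.cast_zero]
      positivity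
    · rw [Finset.mem_filter] at hm₀
      obtain ⟨hm1, hm2⟩ := hv m₀ hm₀.1
      have h5 := (key hε.le hl1 hm1 hl2 hm2 hm₀.2.2).1
      have h6 : vv (g n) l ∈ Set.Icc (-(2 / 5) : ℝ) (2 / 5) := by
        rw [abs_le] at h5
        constructor <;> linarith [h5.1, h5.2]
      refine le_trans ?_ (hn _ h6)
      unfold cn
      rw [Nat.cast_le]
      refine Finset.card_le_card fun m hm => ?_
      rw [Finset.mem_filter] at hm ⊢
      obtain ⟨hm3, hm4⟩ := hv m hm.1
      have h7 := (key hε.le hl1 hm3 hl2 hm4 hm.2.2).2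
      rw [abs_le] at h7
      refine ⟨hm.1, ?_, ?_⟩ <;> linarith [h7.1, h7.2]
  change ((crp (g n) (3 / 8) M (gr F s (uni V) n) : ℕ) : ℝ) ≤ e * ((F n).card : ℝ) ^ 2
  rw [crp_eq, Nat.cast_sum]
  refine (Finset.sum_le_sum hcard).trans ?_
  rw [Finset.sum_const, nsmul_eq_mul]
  have h8 : ((gr F s (uni V) n).card : ℝ) ≤ ((F n).card : ℝ) := by
    rw [Nat.cast_le]
    exact Finset.card_filter_le _ _
  have h9 : 0 ≤ e * ((F n).card : ℝ) := by positivity
  calc ((gr F s (uni V) n).card : ℝ) * (e * ((F n).card : ℝ))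
      ≤ ((F n).card : ℝ) * (e * ((F n).card : ℝ)) := mul_le_mul_of_nonneg_right h8 h9
    _ = e * ((F n).card : ℝ) ^ 2 := by ring

end Pool.Agent.Work.MP_b25393_ag.UU
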